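import Pool.Agent.Helper60.EC.Calc2

/-! Project EC, C0: real variable lemma -/

set_option autoImplicit false

open MeasureTheory Set Filter Topology
open scoped ENNReal ContDiff

noncomputable section

namespace Pool.Agent.Helper60.EC

open Pool.Agent.Helper52.NSE (E3 pd divg TestField)

theorem abs_sub_le_integral {f f' g : ℝ → ℝ} {s t : ℝ} (hst : s ≤ t)
    (hf : ∀ τ ∈ Icc s t, HasDerivWithinAt f (f' τ) (Icc s t) τ) (hg : ContinuousOn g (Icc s t))
    (hb : ∀ τ ∈ Icc s t, |f' τ| ≤ g τ) : |f t - f s| ≤ ∫ τ in s..t, g τ := by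
  set G : ℝ → ℝ := IccExtend hst ((Icc s t).domRestrict g) with hG
  have hGc : Continuous G := (continuousOn_iff_continuous_domRestrict.1 hg).Icc_extend'
  have hGe : ∀ τ ∈ Icc s t, G τ = g τ := fun τ hτ => by
    rw [hG, IccExtend_of_mem hst _ hτ]; rfl
  have hint : ∫ τ in s..t, g τ = ∫ τ in s..t, G τ := by
    refine intervalIntegral.integral_congr fun τ hτ => ?_
    rw [uIcc_of_le hst] at hτ
    exact (hGe τ hτ).symm
  rw [hint]
  have hB : ∀ x, HasDerivAt (fun x => ∫ τ in s..x, G τ) (G x) x := fun x =>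
    (hGc.integral_hasStrictDerivAt s x).hasDerivAt
  have key := image_norm_le_of_norm_deriv_right_le_deriv_boundary'
    (f := fun x => f x - f s) (f' := f') (a := s) (b := t)
    (fun x hx => ((hf x hx).continuousWithinAt).sub continuousWithinAt_const)
    (fun x hx => by
      have h1 := (hf x ⟨hx.1, hx.2.le⟩).mono_of_mem_nhdsWithin
        (Filter.mem_of_superset (Icc_mem_nhdsGE hx.2)
          (Icc_subset_Icc_left hx.1))
      exact h1.sub_const _)
    (B := fun x => ∫ τ in s..x, G τ) (B' := G)
    (by simp)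
    (fun x _ => (hB x).continuousAt.continuousWithinAt)
    (fun x _ => (hB x).hasDerivWithinAt)
    (fun x hx => by
      have hx' : x ∈ Icc s t := ⟨hx.1, hx.2.le⟩
      rw [hGe x hx']
      exact hb x hx')
    (right_mem_Icc.2 hst)
  simpa using key

end Pool.Agent.Helper60.EC
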