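import Pool.Agent.Helper60.EC.Z1
import Pool.Agent.Helper60.EC.C0

/-! Project EC, C1: the time derivative of Zf² -/

set_option autoImplicit false

open MeasureTheory Set Filter Topology
open scoped ENNReal ContDiff

noncomputable section

namespace Pool.Agent.Helper60.EC

open Pool.Agent.Helper52.NSE (E3 pd divg TestField)

theorem C1_D {W : ℝ → E3 → E3} (hW : ContDiff ℝ ∞ (fun p : ℝ × E3 => W p.1 p.2)) (i : Fin 3) :
    ContDiff ℝ ∞ (fun p : ℝ × E3 => D i (W p.1) p.2) := by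
  unfold D
  have h1 : ContDiff ℝ ∞ (Function.uncurry (fun (p : ℝ × E3) (y : E3) => W p.1 y)) :=
    hW.comp ((contDiff_fst.comp contDiff_fst).prodMk contDiff_snd)
  have h2 : ContDiff ℝ ∞ (fun p : ℝ × E3 => fderiv ℝ (W p.1) p.2) :=
    ContDiff.fderiv h1 contDiff_snd (by norm_num)
  exact h2.clm_apply contDiff_const

theorem C1_curl {W : ℝ → E3 → E3} (hW : ContDiff ℝ ∞ (fun p : ℝ × E3 => W p.1 p.2)) :
    ContDiff ℝ ∞ (fun p : ℝ × E3 => curl (W p.1) p.2) := by
  have h := fun i j => contDiff_euclidean.1 (C1_D hW i) j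
  rw [contDiff_euclidean]
  intro i
  fin_cases i
  · exact (h 1 2).sub (h 2 1)
  · exact (h 2 0).sub (h 0 2)
  · exact (h 0 1).sub (h 1 0)

theorem C1_NP {f : ℝ → E3 → E3} (hf : ContDiff ℝ ∞ (fun p : ℝ × E3 => f p.1 p.2))
    {k : Set E3} (hk : IsCompact k) (h0 : ∀ t x, x ∉ k → f t x = 0) :
    ContDiff ℝ ∞ (fun p : ℝ × E3 => NP (f p.1) p.2) := by
  have h := contDiffOn_convolution_right_with_param (𝕜 := ℝ) (n := (⊤ : ℕ∞))
    (ContinuousLinearMap.lsmul ℝ ℝ) (g := f) (s := (univ : Set ℝ)) isOpen_univ hk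
    (fun p x _ hx => h0 p x hx) kernel_locallyIntegrable hf.contDiffOn
  rw [univ_prod_univ, contDiffOn_univ] at h
  exact h

theorem C1_BB {χ : E3 → ℝ} (hχ : Cc χ) {V : ℝ → E3 → E3}
    (hV : ContDiff ℝ ∞ (fun p : ℝ × E3 => V p.1 p.2)) :
    ContDiff ℝ ∞ (fun p : ℝ × E3 => BB χ (V p.1) p.2) := by
  have h1 := C1_curl hV
  have h2 : ContDiff ℝ ∞ (fun p : ℝ × E3 => sm χ (curl (V p.1)) p.2) :=
    (hχ.smooth.comp contDiff_snd).smul h1
  have h3 : ContDiff ℝ ∞ (fun p : ℝ × E3 => bet χ (V p.1) p.2) :=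
    C1_NP (f := fun t => sm χ (curl (V t))) h2 hχ.comp.isCompact (fun t x hx => by
      simp only [sm]
      rw [image_eq_zero_of_notMem_tsupport hx, zero_smul])
  have h4 : ContDiff ℝ ∞ (fun p : ℝ × E3 => sm χ (bet χ (V p.1)) p.2) :=
    (hχ.smooth.comp contDiff_snd).smul h3
  exact C1_curl (W := fun t => sm χ (bet χ (V t))) h4

theorem C1_BB_zero {χ : E3 → ℝ} (w : E3 → E3) {x : E3} (hx : x ∉ tsupport χ) :
    BB χ w x = 0 := by
  have h : ∀ i, D i (sm χ (bet χ w)) x = 0 := fun i =>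
    image_eq_zero_of_notMem_tsupport fun h =>
      hx (tsupport_smul_subset_left χ (bet χ w) (D_tsupport _ _ h))
  unfold BB
  apply PiLp.ext
  intro i
  fin_cases i <;> simp [curl, h]

/-- a parametric integral -/
theorem C1_param {G : ℝ → E3 → ℝ} (hG : ContDiff ℝ 1 (fun p : ℝ × E3 => G p.1 p.2))
    {k : Set E3} (hk : IsCompact k) (h0 : ∀ t x, x ∉ k → G t x = 0) (s : ℝ) {g : E3 → ℝ}
    (hg : ∀ x, HasDerivAt (fun t => G t x) (g x) s) :
    HasDerivAt (fun t => ∫ x, G t x) (∫ x, g x) s := by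
  set G' : ℝ → E3 → ℝ := fun t x => fderiv ℝ (fun p : ℝ × E3 => G p.1 p.2) (t, x) (1, 0) with hG'
  have hd : ∀ t x, HasDerivAt (fun τ => G τ x) (G' t x) t := by
    intro t x
    have h1 : HasFDerivAt (fun p : ℝ × E3 => G p.1 p.2)
        (fderiv ℝ (fun p : ℝ × E3 => G p.1 p.2) (t, x)) (t, x) :=
      ((hG.differentiable (by norm_num)) (t, x)).hasFDerivAt
    have h2 : HasDerivAt (fun τ : ℝ => ((τ, x) : ℝ × E3)) ((1 : ℝ), (0 : E3)) t :=
      (hasDerivAt_id t).prodMk (hasDerivAt_const t x)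
    exact h1.comp_hasDerivAt t h2
  have hc : Continuous (fun p : ℝ × E3 => G' p.1 p.2) := by
    have h1 := (hG.continuous_fderiv (by norm_num)).clm_apply
      (continuous_const (y := (((1 : ℝ), (0 : E3)) : ℝ × E3)))
    exact h1
  have hz : ∀ t x, x ∉ k → G' t x = 0 := by
    intro t x hx
    have h1 : HasDerivAt (fun τ => G τ x) 0 t := by
      have : (fun τ => G τ x) = fun _ => (0 : ℝ) := funext fun τ => h0 τ x hx
      rw [this]
      exact hasDerivAt_const t 0
    exact (hd t x).unique h1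
  have hgg : g = G' s := funext fun x => (hg x).unique (hd s x)
  obtain ⟨C, hC⟩ := (isCompact_Icc.prod hk).exists_bound_of_continuousOn
    (f := fun p : ℝ × E3 => G' p.1 p.2) (s := Icc (s - 1) (s + 1) ×ˢ k) hc.continuousOn
  have hcs : Continuous (fun x => G' s x) := hc.comp (by fun_prop : Continuous fun x : E3 => (s, x))
  rw [hgg]
  refine (hasDerivAt_integral_of_dominated_loc_of_deriv_le (F := G) (F' := G')
    (bound := k.indicator fun _ => |C|) (s := Icc (s - 1) (s + 1)) ?_ ?_ ?_ ?_ ?_ ?_ ?_).2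
  · exact Icc_mem_nhds (by linarith) (by linarith)
  · refine Eventually.of_forall fun t => Continuous.aestronglyMeasurable ?_
    exact hG.continuous.comp (by fun_prop : Continuous fun x : E3 => (t, x))
  · have h1 : Continuous (fun x => G s x) :=
      hG.continuous.comp (by fun_prop : Continuous fun x : E3 => (s, x))
    exact h1.integrable_of_hasCompactSupport (HasCompactSupport.intro hk fun x hx => h0 s x hx)
  · exact hcs.aestronglyMeasurable
  · refine Eventually.of_forall fun x t ht => ?_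
    by_cases hx : x ∈ k
    · rw [indicator_of_mem hx]
      exact (hC (t, x) ⟨ht, hx⟩).trans (le_abs_self C)
    · rw [indicator_of_notMem hx, hz t x hx, norm_zero]
  · rw [integrable_indicator_iff hk.measurableSet]
    exact integrableOn_const (by exact hk.measure_lt_top.ne)
  · exact Eventually.of_forall fun x t _ => hd t x

theorem C1_swap {χ : E3 → ℝ} (hχ : Cc χ) {v w : E3 → E3} (hv : ContDiff ℝ ∞ v)
    (hw : ContDiff ℝ ∞ w) : ip v (BB χ w) = ip w (BB χ v) := by
  have key : ∀ v w : E3 → E3, ContDiff ℝ ∞ v → ContDiff ℝ ∞ w →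
      ip v (BB χ w) = ip (sm χ (curl v)) (NP (sm χ (curl w))) := by
    intro v w hv hw
    have hβ : ContDiff ℝ ∞ (bet χ w) := NP_smooth (cc_sm hχ (curl_smooth hw))
    have h1 : ip (curl v) (sm χ (bet χ w)) = ip v (curl (sm χ (bet χ w))) := by
      refine ip_curl (hv.of_le (by exact_mod_cast le_top))
        ((sm_smooth hχ.smooth hβ).of_le (by exact_mod_cast le_top)) (Or.inr ?_)
      exact (cc_sm hχ hβ).comp
    unfold BB
    rw [← h1]
    unfold ip sm bet
    refine integral_congr_ae (Eventually.of_forall fun x => ?_)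
    simp only [inner_smul_left, inner_smul_right, conj_trivial]
    rfl
  rw [key v w hv hw, key w v hw hv]
  exact NP_symm (cc_sm hχ (curl_smooth hv)) (cc_sm hχ (curl_smooth hw))


/-- the test function of the difference -/
def C1_G (χ : E3 → ℝ) (V : ℝ → E3 → E3) (s t : ℝ) (x : E3) : ℝ :=
  inner ℝ (V t x - V s x) (BB χ (V t) x + BB χ (V s) x)

theorem C1_smooth_slice {W : ℝ → E3 → E3} (hW : ContDiff ℝ ∞ (fun p : ℝ × E3 => W p.1 p.2))
    (t : ℝ) : ContDiff ℝ ∞ (W t) := by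
  have h1 : ContDiff ℝ ∞ (fun x : E3 => ((t, x) : ℝ × E3)) := contDiff_const.prodMk contDiff_id
  exact hW.comp h1

theorem C1_time {W : ℝ → E3 → E3} (hW : ContDiff ℝ ∞ (fun p : ℝ × E3 => W p.1 p.2))
    (s : ℝ) (x : E3) : HasDerivAt (fun t => W t x) (deriv (fun t => W t x) s) s := by
  have h1 : ContDiff ℝ ∞ (fun t : ℝ => ((t, x) : ℝ × E3)) := contDiff_id.prodMk contDiff_const
  have h2 : ContDiff ℝ ∞ (fun t : ℝ => W t x) := hW.comp h1
  exact ((h2.differentiable (by simp)) s).hasDerivAt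

theorem C1_G_smooth {χ : E3 → ℝ} (hχ : Cc χ) {V : ℝ → E3 → E3}
    (hV : ContDiff ℝ ∞ (fun p : ℝ × E3 => V p.1 p.2)) (s : ℝ) :
    ContDiff ℝ 1 (fun p : ℝ × E3 => C1_G χ V s p.1 p.2) := by
  have h1 : ContDiff ℝ ∞ (fun p : ℝ × E3 => V p.1 p.2 - V s p.2) :=
    hV.sub ((C1_smooth_slice hV s).comp contDiff_snd)
  have h2 : ContDiff ℝ ∞ (fun p : ℝ × E3 => BB χ (V p.1) p.2 + BB χ (V s) p.2) :=
    (C1_BB hχ hV).add ((C1_smooth_slice (W := fun t => BB χ (V t)) (C1_BB hχ hV) s).comp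
      contDiff_snd)
  have h3 : ContDiff ℝ ∞ (fun p : ℝ × E3 =>
      (inner ℝ (V p.1 p.2 - V s p.2) (BB χ (V p.1) p.2 + BB χ (V s) p.2) : ℝ)) := h1.inner ℝ h2
  exact h3.of_le (by exact_mod_cast le_top)

theorem C1_G_deriv {χ : E3 → ℝ} (hχ : Cc χ) {V : ℝ → E3 → E3}
    (hV : ContDiff ℝ ∞ (fun p : ℝ × E3 => V p.1 p.2)) (s : ℝ) :
    HasDerivAt (fun t => ∫ x, C1_G χ V s t x)
      (∫ x, 2 * (inner ℝ (deriv (fun t => V t x) s) (BB χ (V s) x) : ℝ)) s := by
  refine C1_param (C1_G_smooth hχ hV s) hχ.comp.isCompact ?_ s ?_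
  · intro t x hx
    unfold C1_G
    rw [C1_BB_zero (V t) hx, C1_BB_zero (V s) hx, add_zero, inner_zero_right]
  · intro x
    have h1 := ((C1_time hV s x).sub_const (V s x)).inner ℝ
      ((C1_time (W := fun t => BB χ (V t)) (C1_BB hχ hV) s x).add_const (BB χ (V s) x))
    refine h1.congr_deriv ?_
    rw [sub_self, inner_zero_left, zero_add, inner_add_right]
    ring

theorem C1_int {χ : E3 → ℝ} (hχ : Cc χ) {w u : E3 → E3} (hB : Continuous (BB χ w))
    (hu : Continuous u) : Integrable (fun x => (inner ℝ (u x) (BB χ w x) : ℝ)) := by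
  refine (hu.inner hB).integrable_of_hasCompactSupport ?_
  refine HasCompactSupport.intro hχ.comp.isCompact fun x hx => ?_
  rw [C1_BB_zero w hx, inner_zero_right]

theorem C1_G_int {χ : E3 → ℝ} (hχ : Cc χ) {V : ℝ → E3 → E3}
    (hV : ContDiff ℝ ∞ (fun p : ℝ × E3 => V p.1 p.2)) (s t : ℝ) :
    ∫ x, C1_G χ V s t x = ip (V t) (BB χ (V t)) - ip (V s) (BB χ (V s)) := by
  have hVs := fun t => C1_smooth_slice hV t
  have hBs := fun t => (C1_smooth_slice (W := fun t => BB χ (V t)) (C1_BB hχ hV) t).continuous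
  have h1 : ∫ x, C1_G χ V s t x = ip (V t) (BB χ (V t)) + ip (V t) (BB χ (V s)) -
      ip (V s) (BB χ (V t)) - ip (V s) (BB χ (V s)) := by
    have e : ∀ x, C1_G χ V s t x = inner ℝ (V t x) (BB χ (V t) x) + inner ℝ (V t x) (BB χ (V s) x) -
        inner ℝ (V s x) (BB χ (V t) x) - inner ℝ (V s x) (BB χ (V s) x) := by
      intro x
      unfold C1_G
      rw [inner_sub_left, inner_add_right, inner_add_right]
      ring
    have i1 := C1_int hχ (hBs t) (hVs t).continuous
    have i2 := C1_int hχ (hBs s) (hVs t).continuous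
    have i3 := C1_int hχ (hBs t) (hVs s).continuous
    have i4 := C1_int hχ (hBs s) (hVs s).continuous
    have i12 : Integrable (fun x => (inner ℝ (V t x) (BB χ (V t) x) : ℝ) +
        inner ℝ (V t x) (BB χ (V s) x)) := i1.add i2
    have i123 : Integrable (fun x => (inner ℝ (V t x) (BB χ (V t) x) : ℝ) +
        inner ℝ (V t x) (BB χ (V s) x) - inner ℝ (V s x) (BB χ (V t) x)) := i12.sub i3
    unfold ip
    rw [integral_congr_ae (Eventually.of_forall e), integral_sub i123 i4,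
      integral_sub i12 i3, integral_add i1 i2]
  rw [h1, C1_swap hχ (hVs t) (hVs s)]
  ring

theorem C1_fin {χ : E3 → ℝ} (hχ : Cc χ) {A Vd w : E3 → E3} {q : E3 → ℝ} (hw : Sml w)
    (hA : Continuous A) (hq : ContDiff ℝ ∞ q) (he : ∀ x, Vd x + A x = -grad q x) :
    ∫ x, 2 * (inner ℝ (Vd x) (BB χ w x) : ℝ) = -2 * ip A (BB χ w) := by
  have hB := BB_cc hχ hw
  have i1 := C1_int hχ hB.1.smooth.continuous hA
  have i2 := C1_int hχ hB.1.smooth.continuous (grad_smooth hq).continuous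
  have hz : ∫ x, (inner ℝ (grad q x) (BB χ w x) : ℝ) = 0 :=
    ip_grad_zero (hq.of_le (by exact_mod_cast le_top))
      (hB.1.smooth.of_le (by exact_mod_cast le_top)) hB.1.comp hB.2.1
  have e : ∀ x, 2 * (inner ℝ (Vd x) (BB χ w x) : ℝ) =
      -2 * inner ℝ (A x) (BB χ w x) - 2 * inner ℝ (grad q x) (BB χ w x) := by
    intro x
    have h1 : Vd x = -(A x) - grad q x := by
      rw [sub_eq_add_neg, ← he x]
      abel
    rw [h1, inner_sub_left, inner_neg_left]
    ring
  rw [integral_congr_ae (Eventually.of_forall e),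
    integral_sub (i1.const_mul (-2)) (i2.const_mul 2), integral_const_mul, integral_const_mul, hz]
  unfold ip
  ring

theorem Zsq_deriv {χ : E3 → ℝ} (hχ : Cc χ) {a b : ℝ} {V S : ℝ → E3 → E3} (h : SF a b V S)
    {s : ℝ} (hs : s ∈ Icc a b) :
    HasDerivWithinAt (fun τ => Zf χ (V τ) ^ 2)
      (-2 * ip (fun x => adv (V s) (V s) x + S s x) (BB χ (V s))) (Icc a b) s := by
  have hVs := fun t => C1_smooth_slice h.smooth t
  have hSml : ∀ t ∈ Icc a b, Sml (V t) := fun t ht => ⟨hVs t, h.l2 t ht, h.div t⟩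
  have hval : ∀ t ∈ Icc a b, Zf χ (V t) ^ 2 = Zf χ (V s) ^ 2 + ∫ x, C1_G χ V s t x := by
    intro t ht
    rw [(Zf_sq hχ (hSml t ht)).2, (Zf_sq hχ (hSml s hs)).2, C1_G_int hχ h.smooth s t]
    ring
  obtain ⟨q, hq, hqe⟩ := h.eqn s hs
  have hA : Continuous (fun x => adv (V s) (V s) x + S s x) :=
    (adv_smooth (hVs s) (hVs s)).continuous.add (C1_smooth_slice h.smoothS s).continuous
  have hfin := C1_fin hχ (A := fun x => adv (V s) (V s) x + S s x)
    (Vd := fun x => deriv (fun t => V t x) s) (hSml s hs) hA hq (fun x => by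
      rw [← hqe x]
      abel)
  rw [← hfin]
  have h2 : HasDerivWithinAt (fun t => Zf χ (V s) ^ 2 + ∫ x, C1_G χ V s t x)
      (∫ x, 2 * (inner ℝ (deriv (fun t => V t x) s) (BB χ (V s) x) : ℝ)) (Icc a b) s :=
    ((C1_G_deriv hχ h.smooth s).const_add _).hasDerivWithinAt
  exact h2.congr (fun t ht => hval t ht) (hval s hs)

end Pool.Agent.Helper60.EC
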