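import Pool.Agent.Helper60.EC.C2a

/-! Project EC, C2b: flux inequality for nested cutoffs -/

set_option autoImplicit false

open MeasureTheory Set Filter Topology
open scoped ENNReal ContDiff

noncomputable section

namespace Pool.Agent.Helper60.EC

open Pool.Agent.Helper52.NSE (E3 pd divg TestField)

theorem C2b_slice {V : ℝ → E3 → E3} (h : ContDiff ℝ ∞ (fun p : ℝ × E3 => V p.1 p.2)) (τ : ℝ) :
    ContDiff ℝ ∞ (V τ) := by
  have h1 : ContDiff ℝ ∞ (fun x : E3 => ((τ, x) : ℝ × E3)) := contDiff_const.prodMk contDiff_id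
  exact h.comp h1

theorem C2b_Sml {a b : ℝ} {V S : ℝ → E3 → E3} (h : SF a b V S) {τ : ℝ} (hτ : τ ∈ Icc a b) :
    Sml (V τ) :=
  ⟨C2b_slice h.smooth τ, h.l2 τ hτ, h.div τ⟩

theorem C2b_ip_add {f g h : E3 → E3} (hf : ContDiff ℝ ∞ f) (hg : ContDiff ℝ ∞ g) (hh : Cc h) :
    ip (fun x => f x + g x) h = ip f h + ip g h := by
  have hi : ∀ f : E3 → E3, ContDiff ℝ ∞ f → Integrable (fun x => (inner ℝ (f x) (h x) : ℝ)) volume :=
    fun f hf => Calc2a_int (hf.continuous.inner hh.smooth.continuous)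
      (Calc2a_inner_comp (Or.inr hh.comp))
  unfold ip
  rw [← integral_add (hi f hf) (hi g hg)]
  congr 1
  funext x
  rw [inner_add_left]

/-- the source term -/
theorem C2b_source {χ : E3 → ℝ} (hχ : Cc χ) : ∃ C : ℝ, 0 ≤ C ∧ ∀ (w S : E3 → E3) (E ε : ℝ),
    Sml w → ContDiff ℝ ∞ S → sq w ≤ E → 0 ≤ ε → (∀ x ∈ tsupport χ, ‖S x‖ ≤ ε) →
    |ip S (BB χ w)| ≤ C * ε * Real.sqrt E := by
  obtain ⟨R, K, hR, _, hcut⟩ := cut_of_cc hχ 0
  obtain ⟨Cb, hCb, hb⟩ := BB_bounds K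
  obtain ⟨Ct, hCt, ht⟩ := Zf_le_tsupport hχ
  have hfin : volume (tsupport χ) < ⊤ := hχ.comp.isCompact.measure_lt_top
  refine ⟨Real.sqrt (volume.real (tsupport χ)) * (Real.sqrt Cb * Ct), by positivity, ?_⟩
  intro w S E ε hw hS hE hε hSε
  have hmS : MemLp S 2 (volume.restrict (tsupport χ)) := by
    haveI : Fact (volume (tsupport χ) < ⊤) := ⟨hfin⟩
    refine MemLp.of_bound hS.continuous.aestronglyMeasurable ε ?_
    exact ae_restrict_of_forall_mem (isClosed_tsupport χ).measurableSet hSε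
  have h1 := ip_le_on (isClosed_tsupport χ).measurableSet hmS (cc_memLp (BB_cc hχ hw).1 2)
    (BB_cc hχ hw).2.2
  have h2 : sqOn (tsupport χ) S ≤ ε ^ 2 * volume.real (tsupport χ) := by
    unfold sqOn
    refine (le_abs_self _).trans ?_
    rw [← Real.norm_eq_abs]
    refine norm_setIntegral_le_of_norm_le_const hfin fun x hx => ?_
    rw [Real.norm_eq_abs, abs_of_nonneg (sq_nonneg _)]
    exact pow_le_pow_left₀ (norm_nonneg _) (hSε x hx) 2
  have h3 : Real.sqrt (sqOn (tsupport χ) S) ≤ ε * Real.sqrt (volume.real (tsupport χ)) := by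
    refine (Real.sqrt_le_sqrt h2).trans ?_
    rw [Real.sqrt_mul (sq_nonneg ε), Real.sqrt_sq hε]
  have h4 : Real.sqrt (sq (BB χ w)) ≤ Real.sqrt Cb * (Ct * Real.sqrt E) := by
    have h5 := (hb 0 R χ hR hcut w hw).1
    have h6 : Zf χ w ≤ Ct * Real.sqrt E := by
      refine (ht w hw.l2).trans (mul_le_mul_of_nonneg_left ?_ hCt)
      exact Real.sqrt_le_sqrt ((sqOn_le_sq _ hw.l2).trans hE)
    have h7 := Zf_nonneg χ hχ hw.l2
    refine (Real.sqrt_le_sqrt h5).trans ?_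
    rw [Real.sqrt_mul hCb, Real.sqrt_sq h7]
    exact mul_le_mul_of_nonneg_left h6 (Real.sqrt_nonneg _)
  refine h1.trans ?_
  calc Real.sqrt (sqOn (tsupport χ) S) * Real.sqrt (sq (BB χ w))
      ≤ (ε * Real.sqrt (volume.real (tsupport χ))) * (Real.sqrt Cb * (Ct * Real.sqrt E)) := by
        apply mul_le_mul h3 h4 (Real.sqrt_nonneg _)
        positivity
    _ = _ := by ring

theorem star_SF {χ χ' : E3 → ℝ} (hχ : Cc χ) (hχ' : Cc χ') {U : Set E3} (hU : IsOpen U)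
    (hs : tsupport χ ⊆ U) (h1 : ∀ x ∈ U, χ' x = 1) :
    ∃ C : ℝ, 0 ≤ C ∧ ∀ (s t : ℝ) (V S : ℝ → E3 → E3) (M : ℝ → ℝ) (E ε : ℝ), s ≤ t → SF s t V S →
      ContinuousOn M (Icc s t) → (∀ τ ∈ Icc s t, ∀ x, ‖V τ x‖ ≤ M τ) →
      (∀ τ ∈ Icc s t, sq (V τ) ≤ E) → (∀ τ ∈ Icc s t, ∀ x ∈ tsupport χ, ‖S τ x‖ ≤ ε) →
      |Zf χ (V t) ^ 2 - Zf χ (V s) ^ 2| ≤
        C * (∫ τ in s..t, (M τ + Real.sqrt E) * Zf χ' (V τ) ^ 2) +
          C * ε * Real.sqrt E * (t - s) := by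
  rcases (tsupport χ).eq_empty_or_nonempty with he | ⟨x₀, hx₀⟩
  · refine ⟨0, le_rfl, ?_⟩
    intro s t V S M E ε hst hSF _ _ _ _
    obtain ⟨Ct, hCt, ht⟩ := Zf_le_tsupport hχ
    have hz : ∀ τ ∈ Icc s t, Zf χ (V τ) = 0 := by
      intro τ hτ
      have h2 := ht (V τ) (hSF.l2 τ hτ)
      rw [he] at h2
      have h3 : sqOn ∅ (V τ) = 0 := by
        unfold sqOn
        simp
      rw [h3, Real.sqrt_zero, mul_zero] at h2
      exact le_antisymm h2 (Zf_nonneg χ hχ (hSF.l2 τ hτ))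
    rw [hz t (right_mem_Icc.mpr hst), hz s (left_mem_Icc.mpr hst)]
    simp
  obtain ⟨C₁, hC₁, hf⟩ := flux_star hχ hχ' hU hs h1
  obtain ⟨C₂, hC₂, hg⟩ := C2b_source hχ
  refine ⟨2 * C₁ + 2 * C₂, by positivity, ?_⟩
  intro s t V S M E ε hst hSF hM hMb hE hSε
  have hε : 0 ≤ ε := (norm_nonneg _).trans (hSε s (left_mem_Icc.mpr hst) x₀ hx₀)
  have hcZ : ContinuousOn (fun τ => Zf χ' (V τ) ^ 2) (Icc s t) := fun τ hτ =>
    (Zsq_deriv hχ' hSF hτ).continuousWithinAt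
  have hcI : ContinuousOn (fun τ => (M τ + Real.sqrt E) * Zf χ' (V τ) ^ 2) (Icc s t) :=
    (hM.add continuousOn_const).mul hcZ
  have hcg : ContinuousOn (fun τ => 2 * C₁ * ((M τ + Real.sqrt E) * Zf χ' (V τ) ^ 2)
      + 2 * C₂ * ε * Real.sqrt E) (Icc s t) :=
    (continuousOn_const.mul hcI).add continuousOn_const
  have key := abs_sub_le_integral hst (fun τ hτ => Zsq_deriv hχ hSF hτ) hcg (by
    intro τ hτ
    have hw := C2b_Sml hSF hτ
    have hS := C2b_slice hSF.smoothS τ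
    have e := C2b_ip_add (adv_smooth hw.smooth hw.smooth) hS (BB_cc hχ hw).1
    rw [e, abs_mul]
    have a1 := hf (V τ) (M τ) hw (hMb τ hτ)
    have a2 := hg (V τ) (S τ) E ε hw hS (hE τ hτ) hε (hSε τ hτ)
    have a3 : C₁ * (M τ + Real.sqrt (sq (V τ))) * Zf χ' (V τ) ^ 2
        ≤ C₁ * (M τ + Real.sqrt E) * Zf χ' (V τ) ^ 2 := by
      apply mul_le_mul_of_nonneg_right _ (sq_nonneg _)
      apply mul_le_mul_of_nonneg_left _ hC₁
      linarith [Real.sqrt_le_sqrt (hE τ hτ)]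
    have a4 := abs_add_le (ip (adv (V τ) (V τ)) (BB χ (V τ))) (ip (S τ) (BB χ (V τ)))
    have a5 : |(-2 : ℝ)| = 2 := by norm_num
    rw [a5]
    linarith)
  refine key.trans ?_
  have hint : IntervalIntegrable (fun τ => (M τ + Real.sqrt E) * Zf χ' (V τ) ^ 2) volume s t :=
    (by rw [uIcc_of_le hst]; exact hcI : ContinuousOn _ (uIcc s t)).intervalIntegrable
  rw [intervalIntegral.integral_add (hint.const_mul _) intervalIntegrable_const,
    intervalIntegral.integral_const_mul, intervalIntegral.integral_const, smul_eq_mul]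
  have hI0 : 0 ≤ ∫ τ in s..t, (M τ + Real.sqrt E) * Zf χ' (V τ) ^ 2 := by
    apply intervalIntegral.integral_nonneg hst
    intro τ hτ
    have hM0 : 0 ≤ M τ := (norm_nonneg _).trans (hMb τ hτ 0)
    have := Real.sqrt_nonneg E
    positivity
  have hE0 := Real.sqrt_nonneg E
  have hts : 0 ≤ t - s := by linarith
  have h5 : 0 ≤ 2 * C₁ * ε * Real.sqrt E * (t - s) := by positivity
  have h6 : 0 ≤ 2 * C₂ * ∫ τ in s..t, (M τ + Real.sqrt E) * Zf χ' (V τ) ^ 2 := by positivity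
  nlinarith

end Pool.Agent.Helper60.EC
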