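import Pool.Agent.Helper60.EC.Z2

/-! Project EC, Z6: the flux of the localised energy -/

set_option autoImplicit false

open MeasureTheory Set Filter Topology
open scoped ENNReal ContDiff

noncomputable section

namespace Pool.Agent.Helper60.EC

open Pool.Agent.Helper52.NSE (E3 pd divg TestField)

theorem Z6_sqOn_closedBall (a : E3) (R : ℝ) (w : E3 → E3) :
    sqOn (Metric.closedBall a R) w = sqOn (Metric.ball a R) w := by
  unfold sqOn
  apply setIntegral_congr_set
  have h0 : (volume : Measure E3) (Metric.sphere a R) = 0 := Measure.addHaar_sphere volume a R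
  rw [← Metric.closedBall_sdiff_ball] at h0
  exact ((ae_le_set.2 h0).antisymm (Metric.ball_subset_closedBall.eventuallyLE))

/-- the smooth part of the test field -/
theorem Z6_local {a : E3} {R K M : ℝ} {χ : E3 → ℝ} (_hR : 0 < R) (hχ : Cut a R K χ)
    {w : E3 → E3} (hw : Sml w) (hM : ∀ x, ‖w x‖ ≤ M) :
    |ip (adv w w) (fun x => χ x ^ 2 • w x)| ≤ 3 * K ^ 2 / R * M * sqOn (Metric.ball a R) w := by
  have hK : 0 ≤ K := (abs_nonneg _).trans (hχ.bd 0)
  have hM0 : 0 ≤ M := (norm_nonneg _).trans (hM 0)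
  have hχs := hχ.cc.smooth
  have hdχ : ∀ x, DifferentiableAt ℝ χ x := fun x => hχs.differentiable (by norm_num) x
  have hdw : ∀ x, DifferentiableAt ℝ w x := fun x => hw.smooth.differentiable (by norm_num) x
  set θ : E3 → ℝ := fun x => χ x * χ x with hθ
  have hθs : ContDiff ℝ ∞ θ := hχs.mul hχs
  have hθc : HasCompactSupport θ := hχ.cc.comp.mul_right
  have hDθ : ∀ i x, D i θ x = 2 * (χ x * D i χ x) := by
    intro i x
    rw [hθ, D_mul (hdχ x) (hdχ x)]
    ring
  have hg : (fun x => χ x ^ 2 • w x) = sm θ w := by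
    funext x
    simp only [sm, hθ, pow_two]
  rw [hg]
  have hgs : ContDiff ℝ ∞ (sm θ w) := sm_smooth hθs hw.smooth
  have hgc : HasCompactSupport (sm θ w) := hθc.smul_right
  have h1 := ip_adv (hw.smooth.of_le (by norm_num)) hw.div (hw.smooth.of_le (by norm_num))
    (hgs.of_le (by norm_num)) (Or.inr (Or.inr hgc))
  -- the derivative of the product
  have h2 : ∀ x, adv w (sm θ w) x = (∑ i, w x i * D i θ x) • w x + θ x • adv w w x := by
    intro x
    unfold adv
    rw [Finset.sum_smul, Finset.smul_sum, ← Finset.sum_add_distrib]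
    refine Finset.sum_congr rfl fun i _ => ?_
    rw [D_sm (hθs.differentiable (by norm_num) x) (hdw x), smul_add, smul_smul, smul_smul,
      smul_smul, mul_comm (w x i) (θ x)]
  -- integrability
  have hadv : ContDiff ℝ ∞ (adv w w) := adv_smooth hw.smooth hw.smooth
  have hsum : Continuous (fun x => ∑ i, w x i * D i θ x) :=
    continuous_finsetSum _ fun i _ => ((Calc1b_coord hw.smooth i).continuous.mul
      (D_smooth hθs i).continuous)
  set q : E3 → ℝ := fun x => (∑ i, w x i * D i θ x) * ‖w x‖ ^ 2 with hq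
  have hq0 : ∀ x, x ∉ Metric.ball a R → q x = 0 := by
    intro x hx
    have hx' : R ≤ ‖x - a‖ := by
      rw [Metric.mem_ball, dist_eq_norm] at hx
      exact not_lt.1 hx
    have : (∑ i, w x i * D i θ x) = 0 := Finset.sum_eq_zero fun i _ => by
      rw [hDθ, hχ.supp x hx']
      ring
    rw [hq]
    simp only [this, zero_mul]
  have hqc : Continuous q := hsum.mul (hw.smooth.continuous.norm.pow 2)
  have hqs : HasCompactSupport q :=
    HasCompactSupport.of_support_subset_isCompact (isCompact_closedBall a R) fun x hx => by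
      by_contra hc
      exact hx (hq0 x fun hb => hc (Metric.ball_subset_closedBall hb))
  have hqi : Integrable q volume := Calc2a_int hqc hqs
  have hpc : Continuous (fun x => (inner ℝ (adv w w x) (sm θ w x) : ℝ)) :=
    hadv.continuous.inner hgs.continuous
  have hpi : Integrable (fun x => (inner ℝ (adv w w x) (sm θ w x) : ℝ)) volume :=
    Calc2a_int hpc (Calc2a_inner_comp (Or.inr hgc))
  have h3 : ip w (adv w (sm θ w)) = (∫ x, q x) + ip (adv w w) (sm θ w) := by
    unfold ip
    rw [← integral_add hqi hpi]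
    refine integral_congr_ae (Eventually.of_forall fun x => ?_)
    show (inner ℝ (w x) (adv w (sm θ w) x) : ℝ) = q x + inner ℝ (adv w w x) (sm θ w x)
    rw [h2 x, inner_add_right, inner_smul_right, inner_smul_right, real_inner_self_eq_norm_sq]
    have : (inner ℝ (adv w w x) (sm θ w x) : ℝ) = θ x * inner ℝ (w x) (adv w w x) := by
      unfold sm
      rw [inner_smul_right, real_inner_comm]
    rw [this]
  rw [h3] at h1
  have h4 : ip (adv w w) (sm θ w) = -(1 / 2) * ∫ x, q x := by linarith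
  rw [h4]
  -- the bound
  have hb : |∫ x, q x| ≤ 6 * K ^ 2 / R * M * sqOn (Metric.ball a R) w := by
    rw [← setIntegral_eq_integral_of_forall_compl_eq_zero hq0]
    have hi : Integrable (fun x => (6 * K ^ 2 / R * M) * ‖w x‖ ^ 2)
        (volume.restrict (Metric.ball a R)) :=
      ((hw.l2.integrable_norm_pow (by norm_num)).mono_measure Measure.restrict_le_self).const_mul _
    have := norm_integral_le_of_norm_le (f := q) hi (Eventually.of_forall fun x => by
      rw [hq, norm_mul, norm_pow, norm_norm]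
      refine mul_le_mul_of_nonneg_right ?_ (by positivity)
      refine (norm_sum_le _ _).trans ?_
      have h5 : ∀ i ∈ (Finset.univ : Finset (Fin 3)), ‖w x i * D i θ x‖ ≤ 2 * K ^ 2 / R * M := by
        intro i _
        rw [norm_mul, hDθ, norm_mul, norm_mul, Real.norm_eq_abs (χ x), Real.norm_eq_abs (D i χ x)]
        have e1 : ‖w x i‖ ≤ M := (PiLp.norm_apply_le (w x) i).trans (hM x)
        have e2 : |χ x| ≤ K := hχ.bd x
        have e3 : |D i χ x| ≤ K / R := hχ.d1 i x
        have e4 : |χ x| * |D i χ x| ≤ K * (K / R) := mul_le_mul e2 e3 (abs_nonneg _) hK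
        have e5 : ‖(2 : ℝ)‖ = 2 := by norm_num
        rw [e5]
        have e6 : ‖w x i‖ * (2 * (|χ x| * |D i χ x|)) ≤ M * (2 * (K * (K / R))) :=
          mul_le_mul e1 (by linarith) (by positivity) hM0
        calc ‖w x i‖ * (2 * (|χ x| * |D i χ x|)) ≤ M * (2 * (K * (K / R))) := e6
          _ = 2 * K ^ 2 / R * M := by ring
      have h6 := Finset.sum_le_card_nsmul _ _ _ h5
      rw [Finset.card_univ, Fintype.card_fin, nsmul_eq_mul] at h6
      refine h6.trans (le_of_eq ?_)
      push_cast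
      ring)
    rw [integral_const_mul] at this
    exact this
  rw [abs_mul, abs_neg, abs_of_pos (show (0 : ℝ) < 1 / 2 by norm_num)]
  calc 1 / 2 * |∫ x, q x| ≤ 1 / 2 * (6 * K ^ 2 / R * M * sqOn (Metric.ball a R) w) := by linarith
    _ = 3 * K ^ 2 / R * M * sqOn (Metric.ball a R) w := by ring

/-- the remainder of the test field -/
theorem Z6_rest {a : E3} {R K M C₀ : ℝ} {χ : E3 → ℝ} (hR : 0 < R) (hχ : Cut a R K χ)
    {w : E3 → E3} (hw : Sml w) (hM : ∀ x, ‖w x‖ ≤ M) {ρ : E3 → E3} (hρ : Cc ρ)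
    (hρ0 : ∀ x, x ∉ tsupport χ → ρ x = 0) (hC₀ : 0 ≤ C₀)
    (hg : gsq ρ ≤ C₀ / R ^ 2 * sqOn (Metric.ball a R) w) :
    |ip (adv w w) ρ| ≤ Real.sqrt C₀ / R * M * sqOn (Metric.ball a R) w := by
  have hM0 : 0 ≤ M := (norm_nonneg _).trans (hM 0)
  rw [ip_adv (hw.smooth.of_le (by norm_num)) hw.div (hw.smooth.of_le (by norm_num))
    (hρ.smooth.of_le (by norm_num)) (Or.inr (Or.inr hρ.comp)), abs_neg]
  -- supports
  have hts : tsupport χ ⊆ Metric.closedBall a R := by
    refine closure_minimal (fun x hx => ?_) Metric.isClosed_closedBall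
    by_contra hc
    rw [Metric.mem_closedBall, dist_eq_norm, not_le] at hc
    exact hx (hχ.supp x hc.le)
  have htρ : tsupport ρ ⊆ tsupport χ := by
    refine closure_minimal (fun x hx => ?_) (isClosed_tsupport _)
    by_contra hc
    exact hx (hρ0 x hc)
  have hadv0 : ∀ x, x ∉ Metric.closedBall a R → adv w ρ x = 0 := by
    intro x hx
    unfold adv
    exact Finset.sum_eq_zero fun i _ => by
      rw [Calc1b_D0 (fun h => hx (hts (htρ h))) i, smul_zero]
  have hadvs : ContDiff ℝ ∞ (adv w ρ) := adv_smooth hw.smooth hρ.smooth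
  have hadvc : HasCompactSupport (adv w ρ) :=
    HasCompactSupport.of_support_subset_isCompact (isCompact_closedBall a R) fun x hx => by
      by_contra hc
      exact hx (hadv0 x hc)
  have hadvm : MemLp (adv w ρ) 2 volume := hadvs.continuous.memLp_of_hasCompactSupport hadvc
  have h1 := ip_le_on (U := Metric.closedBall a R) measurableSet_closedBall
    (hw.l2.mono_measure Measure.restrict_le_self) hadvm hadv0
  rw [Z6_sqOn_closedBall] at h1
  set A := sqOn (Metric.ball a R) w with hA
  have hA0 : 0 ≤ A := integral_nonneg fun x => by positivity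
  -- the norm of the derivative
  have hDi : ∀ i, Integrable (fun x => ‖D i ρ x‖ ^ 2) volume := fun i =>
    (cc_memLp (cc_D hρ i) 2).integrable_norm_pow (by norm_num)
  have hsi : Integrable (fun x => ∑ i, ‖D i ρ x‖ ^ 2) volume :=
    integrable_finsetSum _ fun i _ => hDi i
  have h2 : sq (adv w ρ) ≤ M ^ 2 * gsq ρ := by
    unfold sq gsq
    rw [← integral_const_mul]
    refine integral_mono (hadvm.integrable_norm_pow (by norm_num)) (hsi.const_mul _) fun x => ?_
    refine (norm_adv_le w ρ x).trans ?_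
    refine mul_le_mul_of_nonneg_right ?_ (Finset.sum_nonneg fun i _ => by positivity)
    exact pow_le_pow_left₀ (norm_nonneg _) (hM x) 2
  have h3 : sq (adv w ρ) ≤ (M * (Real.sqrt C₀ / R)) ^ 2 * A := by
    refine h2.trans ?_
    have : (M * (Real.sqrt C₀ / R)) ^ 2 * A = M ^ 2 * (C₀ / R ^ 2 * A) := by
      rw [mul_pow, div_pow, Real.sq_sqrt hC₀]
      ring
    rw [this]
    exact mul_le_mul_of_nonneg_left hg (by positivity)
  have h4 : Real.sqrt (sq (adv w ρ)) ≤ M * (Real.sqrt C₀ / R) * Real.sqrt A := by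
    refine (Real.sqrt_le_sqrt h3).trans (le_of_eq ?_)
    rw [Real.sqrt_mul (by positivity), Real.sqrt_sq (by positivity)]
  refine h1.trans ?_
  calc Real.sqrt A * Real.sqrt (sq (adv w ρ))
      ≤ Real.sqrt A * (M * (Real.sqrt C₀ / R) * Real.sqrt A) :=
        mul_le_mul_of_nonneg_left h4 (Real.sqrt_nonneg _)
    _ = Real.sqrt C₀ / R * M * (Real.sqrt A * Real.sqrt A) := by ring
    _ = Real.sqrt C₀ / R * M * A := by rw [Real.mul_self_sqrt hA0]

/-- the flux through a cutoff at scale `R` -/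
theorem flux_FI (K : ℝ) : ∃ C : ℝ, 0 ≤ C ∧ ∀ (a : E3) (R : ℝ) (χ : E3 → ℝ), 0 < R →
    Cut a R K χ → ∀ (w : E3 → E3) (M : ℝ), Sml w → (∀ x, ‖w x‖ ≤ M) →
      |ip (adv w w) (BB χ w)| ≤ C / R * M * sqOn (Metric.ball a R) w := by
  obtain ⟨C₀, hC₀, hB⟩ := BB_bounds K
  refine ⟨3 * K ^ 2 + Real.sqrt C₀, by positivity, ?_⟩
  intro a R χ hR hχ w M hw hM
  obtain ⟨hBc, -, hB0⟩ := BB_cc hχ.cc hw
  obtain ⟨-, -, hgs⟩ := hB a R χ hR hχ w hw
  have hgC : Cc (fun x => χ x ^ 2 • w x) :=
    Calc1b_cc hχ.cc.comp ((hχ.cc.smooth.pow 2).smul hw.smooth) fun x hx => by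
      rw [image_eq_zero_of_notMem_tsupport hx]; simp
  have hρC : Cc (fun x => BB χ w x - χ x ^ 2 • w x) := cc_sub hBc hgC
  have hρ0 : ∀ x, x ∉ tsupport χ → BB χ w x - χ x ^ 2 • w x = 0 := by
    intro x hx
    rw [hB0 x hx, image_eq_zero_of_notMem_tsupport hx]
    simp
  have h1 := Z6_local hR hχ hw hM
  have h2 := Z6_rest hR hχ hw hM hρC hρ0 hC₀ hgs
  have hadv : ContDiff ℝ ∞ (adv w w) := adv_smooth hw.smooth hw.smooth
  have hi1 : Integrable (fun x => (inner ℝ (adv w w x) (χ x ^ 2 • w x) : ℝ)) volume :=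
    Calc2a_int (hadv.continuous.inner hgC.smooth.continuous) (Calc2a_inner_comp (Or.inr hgC.comp))
  have hi2 : Integrable (fun x => (inner ℝ (adv w w x) (BB χ w x - χ x ^ 2 • w x) : ℝ)) volume :=
    Calc2a_int (hadv.continuous.inner hρC.smooth.continuous) (Calc2a_inner_comp (Or.inr hρC.comp))
  have h3 : ip (adv w w) (BB χ w) = ip (adv w w) (fun x => χ x ^ 2 • w x) +
      ip (adv w w) (fun x => BB χ w x - χ x ^ 2 • w x) := by
    unfold ip
    rw [← integral_add hi1 hi2]
    refine integral_congr_ae (Eventually.of_forall fun x => ?_)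
    show (inner ℝ (adv w w x) (BB χ w x) : ℝ) = inner ℝ (adv w w x) (χ x ^ 2 • w x) +
      inner ℝ (adv w w x) (BB χ w x - χ x ^ 2 • w x)
    rw [← inner_add_right, add_sub_cancel]
  rw [h3]
  refine (abs_add_le _ _).trans ((add_le_add h1 h2).trans (le_of_eq ?_))
  ring

end Pool.Agent.Helper60.EC
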