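import Pool.Agent.Helper60.EC.Z8

/-! Project EC, Z9: the flux for nested cutoffs -/

set_option autoImplicit false

open MeasureTheory Set Filter Topology
open scoped ENNReal ContDiff

noncomputable section

namespace Pool.Agent.Helper60.EC

open Pool.Agent.Helper52.NSE (E3 pd divg TestField)

theorem Z9_cc_inner {a b : E3 → E3} (ha : ContDiff ℝ ∞ a) (hb : Cc b) :
    Cc (fun x => (inner ℝ (a x) (b x) : ℝ)) := by
  have e : (fun x => (inner ℝ (a x) (b x) : ℝ)) = fun x => (inner ℝ (b x) (a x) : ℝ) :=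
    funext fun x => real_inner_comm _ _
  rw [e]
  exact cc_inner_left hb ha

theorem Z9_int {f : E3 → ℝ} (hf : Cc f) : Integrable f volume :=
  hf.smooth.continuous.integrable_of_hasCompactSupport hf.comp

theorem Z9_sqint {f : E3 → E3} (hf : Cc f) : Integrable (fun x => ‖f x‖ ^ 2) volume :=
  (memLp_two_iff_integrable_sq_norm (cc_memLp hf 2).1).1 (cc_memLp hf 2)

theorem Z9_adv_cc {w f : E3 → E3} (hw : Cc w) (hf : ContDiff ℝ ∞ f) : Cc (adv w f) := by
  refine Calc1b_cc hw.comp (adv_smooth hw.smooth hf) fun x hx => ?_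
  unfold adv
  refine Finset.sum_eq_zero fun i _ => ?_
  rw [image_eq_zero_of_notMem_tsupport hx]
  simp

theorem Z9_adv_cc' {w f : E3 → E3} (hw : ContDiff ℝ ∞ w) (hf : Cc f) : Cc (adv w f) := by
  refine Calc1b_cc hf.comp (adv_smooth hw hf.smooth) fun x hx => ?_
  unfold adv
  refine Finset.sum_eq_zero fun i _ => ?_
  rw [Calc1b_D0 hx i]
  simp

/-- the pointwise identity -/
theorem Z9_point {w u : E3 → E3} {δ : E3 → ℝ} {x B : E3} (hw : DifferentiableAt ℝ w x)
    (hu : DifferentiableAt ℝ u x) (h : curl w x = curl u x - grad δ x) :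
    (inner ℝ (adv w w x) B : ℝ) = inner ℝ (adv w u x) B -
      inner ℝ (∑ i, B i • D i u x) (w x) - inner ℝ (cr (grad δ x) (w x)) B +
        (1 / 2 : ℝ) * inner ℝ (grad (fun y => ‖w y‖ ^ 2) x) B := by
  have e1 := adv_self hw
  have e2 := cr_curl hu (w x)
  have e3 : cr (curl w x) (w x) = cr (curl u x) (w x) - cr (grad δ x) (w x) := by
    rw [h, sub_eq_add_neg, cr_add_left, cr_neg_left, ← sub_eq_add_neg]
  have e4 : (inner ℝ (!₂[(inner ℝ (w x) (D 0 u x) : ℝ), (inner ℝ (w x) (D 1 u x) : ℝ),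
      (inner ℝ (w x) (D 2 u x) : ℝ)] : E3) B : ℝ) = inner ℝ (∑ i, B i • D i u x) (w x) := by
    rw [Calc3b_inner, Fin.sum_univ_three, inner_add_left, inner_add_left, inner_smul_left,
      inner_smul_left, inner_smul_left, real_inner_comm (w x), real_inner_comm (w x),
      real_inner_comm (w x)]
    simp
    ring
  rw [e1, e3, e2, inner_add_left, inner_sub_left, inner_sub_left, e4, inner_smul_left]
  simp [adv]

theorem Z9_sq_le {f g : E3 → E3} (hg : Integrable (fun x => ‖g x‖ ^ 2) volume)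
    {c : ℝ} (h : ∀ x, ‖f x‖ ^ 2 ≤ c * ‖g x‖ ^ 2) :
    sq f ≤ c * sq g := by
  unfold sq
  rw [← integral_const_mul]
  exact integral_mono_of_nonneg (Eventually.of_forall fun x => by positivity)
    (hg.const_mul c) (Eventually.of_forall h)

theorem Z9_int4 {a b c d : E3 → ℝ} {t : ℝ} (ha : Integrable a volume)
    (hb : Integrable b volume) (hc : Integrable c volume) (hd : Integrable d volume) :
    ∫ x, (a x - b x - c x + t * d x) =
      (∫ x, a x) - (∫ x, b x) - (∫ x, c x) + t * ∫ x, d x := by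
  rw [integral_add (f := fun x => a x - b x - c x) ((ha.sub hb).sub hc) (hd.const_mul _),
    integral_sub (f := fun x => a x - b x) (ha.sub hb) hc, integral_sub ha hb,
    integral_const_mul]

/-- the term `ip (adv w u) (s u)` -/
theorem Z9_T1a {w u : E3 → E3} {s : E3 → ℝ} (hw : ContDiff ℝ ∞ w) (hd : ∀ x, divg w x = 0)
    (hu : ContDiff ℝ ∞ u) (hum : MemLp u 2 volume) (hs : Cc s) {M K : ℝ}
    (hM : ∀ x, ‖w x‖ ≤ M) (hK : ∀ x, ‖grad s x‖ ≤ K) :
    |ip (adv w u) (sm s u)| ≤ K * M * sq u := by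
  have hM0 : 0 ≤ M := (norm_nonneg _).trans (hM 0)
  have hK0 : 0 ≤ K := (norm_nonneg _).trans (hK 0)
  have hsu : Cc (sm s u) := cc_sm hs hu
  have h1 := ip_adv (f := u) (g := sm s u) (hw.of_le (by norm_num)) hd (hu.of_le (by norm_num))
    (hsu.smooth.of_le (by norm_num)) (Or.inr (Or.inr hsu.comp))
  have hp : ∀ x, (inner ℝ (u x) (adv w (sm s u) x) : ℝ) =
      inner ℝ (w x) (grad s x) * ‖u x‖ ^ 2 + inner ℝ (adv w u x) (sm s u x) := by
    intro x
    have e : adv w (sm s u) x = (inner ℝ (w x) (grad s x) : ℝ) • u x + s x • adv w u x := by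
      unfold adv
      rw [Calc3b_inner, Calc3b_grad, Calc3b_grad, Calc3b_grad]
      simp only [D_sm (Z8_diff hs.smooth x) (Z8_diff hu x), Fin.sum_univ_three]
      simp only [smul_add, add_smul, smul_smul]
      rw [mul_comm (w x 0) (s x), mul_comm (w x 1) (s x), mul_comm (w x 2) (s x)]
      abel
    rw [e, inner_add_right, inner_smul_right, inner_smul_right, real_inner_self_eq_norm_sq,
      sm, inner_smul_right, real_inner_comm (u x)]
  have hi1 : Integrable (fun x => (inner ℝ (w x) (grad s x) : ℝ) * ‖u x‖ ^ 2) volume := by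
    have hc : Cc (fun x => (inner ℝ (w x) (grad s x) : ℝ)) := Z9_cc_inner hw (cc_grad hs)
    refine Continuous.integrable_of_hasCompactSupport
      (hc.smooth.continuous.mul (hu.continuous.norm.pow 2)) ?_
    exact hc.comp.mul_right
  have hi2 : Integrable (fun x => (inner ℝ (adv w u x) (sm s u x) : ℝ)) volume :=
    Z9_int (Z9_cc_inner (adv_smooth hw hu) hsu)
  have h2 : ip u (adv w (sm s u)) = (∫ x, (inner ℝ (w x) (grad s x) : ℝ) * ‖u x‖ ^ 2) +
      ip (adv w u) (sm s u) := by
    unfold ip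
    rw [← integral_add hi1 hi2]
    exact integral_congr_ae (Eventually.of_forall hp)
  have h3 : |∫ x, (inner ℝ (w x) (grad s x) : ℝ) * ‖u x‖ ^ 2| ≤ K * M * sq u := by
    have hui : Integrable (fun x => ‖u x‖ ^ 2) volume :=
      (memLp_two_iff_integrable_sq_norm hum.1).1 hum
    rw [← Real.norm_eq_abs]
    refine (norm_integral_le_integral_norm _).trans ?_
    unfold sq
    rw [← integral_const_mul]
    refine integral_mono_of_nonneg (Eventually.of_forall fun x => norm_nonneg _)
      (hui.const_mul _) (Eventually.of_forall fun x => ?_)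
    simp only [norm_mul, Real.norm_eq_abs]
    rw [abs_of_nonneg (by positivity : (0 : ℝ) ≤ ‖u x‖ ^ 2)]
    refine mul_le_mul_of_nonneg_right ?_ (by positivity)
    refine (abs_real_inner_le_norm _ _).trans ?_
    rw [mul_comm K M]
    exact mul_le_mul (hM x) (hK x) (norm_nonneg _) hM0
  have h4 : 2 * ip (adv w u) (sm s u) = -∫ x, (inner ℝ (w x) (grad s x) : ℝ) * ‖u x‖ ^ 2 := by
    linarith
  have h5 : |2 * ip (adv w u) (sm s u)| ≤ K * M * sq u := by
    rw [h4, abs_neg]
    exact h3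
  rw [abs_mul, abs_two] at h5
  have := abs_nonneg (ip (adv w u) (sm s u))
  linarith

theorem flux_star {χ χ' : E3 → ℝ} (hχ : Cc χ) (hχ' : Cc χ') {U : Set E3} (hU : IsOpen U)
    (hs : tsupport χ ⊆ U) (h1 : ∀ x ∈ U, χ' x = 1) :
    ∃ C : ℝ, 0 ≤ C ∧ ∀ (w : E3 → E3) (M : ℝ), Sml w → (∀ x, ‖w x‖ ≤ M) →
      |ip (adv w w) (BB χ w)| ≤ C * (M + Real.sqrt (sq w)) * Zf χ' w ^ 2 := by
  obtain ⟨C₀, hC₀, hnest⟩ := Zf_nested hχ hχ' hU hs h1
  obtain ⟨Cρ, hCρ, hρ⟩ := BB_nested hχ hχ' hU hs h1
  obtain ⟨Ci, hCi, hint⟩ := uu_interior hχ' hU h1 hχ.comp.isCompact hs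
  obtain ⟨R, K₀, hR, hK₀, hcut⟩ := cut_of_cc hχ 0
  obtain ⟨CB, hCB, hBB⟩ := BB_bounds K₀
  have hχ2 : Cc (fun x => χ x ^ 2) := by
    have h := cc_sm hχ hχ.smooth
    have e : (fun x => χ x ^ 2) = sm χ χ := by
      funext x
      simp [sm, pow_two]
    rw [e]
    exact h
  obtain ⟨K, hK⟩ := (cc_grad hχ2).comp.exists_bound_of_continuous (cc_grad hχ2).smooth.continuous
  have hK0 : 0 ≤ K := (norm_nonneg _).trans (hK 0)
  refine ⟨2 * K + 2 * Real.sqrt Cρ + 4 * Ci * (Real.sqrt CB * C₀) + Ci * (Real.sqrt CB * C₀),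
    by positivity, fun w M hw hM => ?_⟩
  have hM0 : 0 ≤ M := (norm_nonneg _).trans (hM 0)
  obtain ⟨hus, hum, hub⟩ := uu_smooth hχ' hw
  have hid := uu_identities hχ' hw hU h1
  obtain ⟨hBc, hBd, hB0⟩ := BB_cc hχ hw
  obtain ⟨hρc, hρ1, hρ2⟩ := hρ w hw
  have hZ : 0 ≤ Zf χ' w := Zf_nonneg χ' hχ' hw.l2
  have hZχ : 0 ≤ Zf χ w := Zf_nonneg χ hχ hw.l2
  have hn := hnest w hw.l2
  have hsqB : sq (BB χ w) ≤ CB * Zf χ w ^ 2 := (hBB 0 R χ hR hcut w hw).1
  set Z := Zf χ' w with hZdef
  set S := Real.sqrt (sq w) with hSdef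
  have hS : 0 ≤ S := Real.sqrt_nonneg _
  set u : E3 → E3 := uu χ' w with hudef
  set B : E3 → E3 := BB χ w with hBdef
  set δ : E3 → ℝ := divg (bet χ' w) with hδdef
  have hδs : ContDiff ℝ ∞ δ := divg_smooth (bet_smooth hχ' hw).1
  have hgs : ContDiff ℝ ∞ (fun y => w y - u y) := hw.smooth.sub hus
  -- norms
  have hu2 : Real.sqrt (sq u) ≤ 2 * Z := by
    rw [Real.sqrt_le_left (by positivity)]
    nlinarith
  have hB2 : Real.sqrt (sq B) ≤ Real.sqrt CB * C₀ * Z := by
    have h2 : sq B ≤ CB * (C₀ * Z) ^ 2 := hsqB.trans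
      (mul_le_mul_of_nonneg_left (pow_le_pow_left₀ hZχ hn 2) hCB)
    refine (Real.sqrt_le_sqrt h2).trans (le_of_eq ?_)
    rw [Real.sqrt_mul hCB, Real.sqrt_sq (by positivity)]
    ring
  have hρ3 : Real.sqrt (gsq (fun x => B x - χ x ^ 2 • u x)) ≤ Real.sqrt Cρ * Z := by
    refine (Real.sqrt_le_sqrt hρ2).trans (le_of_eq ?_)
    rw [Real.sqrt_mul hCρ, Real.sqrt_sq hZ]
  -- the decomposition
  have hn2 : ContDiff ℝ ∞ (fun y => ‖w y‖ ^ 2) := hw.smooth.norm_sq ℝ
  have hI1 : Integrable (fun x => (inner ℝ (adv w u x) (B x) : ℝ)) volume :=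
    Z9_int (Z9_cc_inner (adv_smooth hw.smooth hus) hBc)
  have hI2 : Integrable (fun x => (inner ℝ (adv B u x) (w x) : ℝ)) volume :=
    Z9_int (cc_inner_left (Z9_adv_cc hBc hus) hw.smooth)
  have hI3 : Integrable (fun x => (inner ℝ (cr (grad δ x) (w x)) (B x) : ℝ)) volume :=
    Z9_int (Z9_cc_inner (cr_smooth (grad_smooth hδs) hw.smooth) hBc)
  have hI4 : Integrable (fun x => (inner ℝ (grad (fun y => ‖w y‖ ^ 2) x) (B x) : ℝ)) volume :=
    Z9_int (Z9_cc_inner (grad_smooth hn2) hBc)
  have hdec : ip (adv w w) B = ip (adv w u) B - ip (adv B u) w -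
      ip (fun x => cr (grad δ x) (w x)) B := by
    have e : ip (adv w w) B = ∫ x, ((inner ℝ (adv w u x) (B x) : ℝ) - inner ℝ (adv B u x) (w x) -
        inner ℝ (cr (grad δ x) (w x)) (B x) +
          (1 / 2 : ℝ) * inner ℝ (grad (fun y => ‖w y‖ ^ 2) x) (B x)) := by
      refine integral_congr_ae (Eventually.of_forall fun x => ?_)
      by_cases hx : x ∈ tsupport χ
      · exact Z9_point (Z8_diff hw.smooth x) (Z8_diff hus x) (hid x (hs hx)).1
      · simp [adv, hB0 x hx]
    rw [e, Z9_int4 hI1 hI2 hI3 hI4]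
    have e4 : (∫ x, (inner ℝ (grad (fun y => ‖w y‖ ^ 2) x) (B x) : ℝ)) = 0 :=
      ip_grad_zero (hn2.of_le (by norm_num)) (hBc.smooth.of_le (by norm_num)) hBc.comp hBd
    rw [e4]
    simp [ip]
  -- T1
  have hT1 : |ip (adv w u) B| ≤ 2 * K * M * Z ^ 2 + 2 * Z * (M * (Real.sqrt Cρ * Z)) := by
    have hsu : Cc (sm (fun x => χ x ^ 2) u) := cc_sm hχ2 hus
    have hi1 : Integrable (fun x => (inner ℝ (adv w u x) (sm (fun x => χ x ^ 2) u x) : ℝ))
        volume := Z9_int (Z9_cc_inner (adv_smooth hw.smooth hus) hsu)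
    have hi2 : Integrable (fun x => (inner ℝ (adv w u x) (B x - χ x ^ 2 • u x) : ℝ))
        volume := Z9_int (Z9_cc_inner (adv_smooth hw.smooth hus) hρc)
    have e : ip (adv w u) B = ip (adv w u) (sm (fun x => χ x ^ 2) u) +
        ip (adv w u) (fun x => B x - χ x ^ 2 • u x) := by
      unfold ip
      rw [← integral_add hi1 hi2]
      refine integral_congr_ae (Eventually.of_forall fun x => ?_)
      simp only [sm]
      rw [← inner_add_right]
      congr 1
      abel
    have hb := ip_adv (f := u) (g := fun x => B x - χ x ^ 2 • u x)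
      (hw.smooth.of_le (by norm_num)) hw.div (hus.of_le (by norm_num))
      (hρc.smooth.of_le (by norm_num)) (Or.inr (Or.inr hρc.comp))
    have hadvρ := Z9_adv_cc' hw.smooth hρc
    have hc := ip_le hum (cc_memLp hadvρ 2)
    have hgi : Integrable (fun x => ∑ i, ‖D i (fun x => B x - χ x ^ 2 • u x) x‖ ^ 2) volume :=
      integrable_finsetSum _ fun i _ => Z9_sqint (cc_D hρc i)
    have hd : sq (adv w (fun x => B x - χ x ^ 2 • u x)) ≤
        M ^ 2 * gsq (fun x => B x - χ x ^ 2 • u x) := by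
      unfold sq gsq
      rw [← integral_const_mul]
      refine integral_mono_of_nonneg (Eventually.of_forall fun x => by positivity)
        (hgi.const_mul _) (Eventually.of_forall fun x => ?_)
      refine (norm_adv_le _ _ x).trans ?_
      exact mul_le_mul_of_nonneg_right (pow_le_pow_left₀ (norm_nonneg _) (hM x) 2)
        (Finset.sum_nonneg fun i _ => by positivity)
    have hd' : Real.sqrt (sq (adv w (fun x => B x - χ x ^ 2 • u x))) ≤
        M * (Real.sqrt Cρ * Z) := by
      refine (Real.sqrt_le_sqrt hd).trans ?_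
      rw [Real.sqrt_mul (by positivity), Real.sqrt_sq hM0]
      exact mul_le_mul_of_nonneg_left hρ3 hM0
    have ha := Z9_T1a hw.smooth hw.div hus hum hχ2 hM hK
    rw [e, hb]
    refine (abs_add_le _ _).trans ?_
    rw [abs_neg]
    refine add_le_add (ha.trans ?_) (hc.trans ?_)
    · have : K * M * sq u ≤ K * M * (2 * Z ^ 2) := mul_le_mul_of_nonneg_left hub (by positivity)
      linarith
    · exact mul_le_mul hu2 hd' (Real.sqrt_nonneg _) (by positivity)
  -- T2
  have hT2 : |ip (adv B u) w| ≤ 2 * Z * (2 * Ci * S * (Real.sqrt CB * C₀ * Z)) := by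
    have hBu := Z9_adv_cc hBc hus
    have e : ip (adv B u) w = ip (adv B u) u + ip (adv B u) (fun y => w y - u y) := by
      have hi1 : Integrable (fun x => (inner ℝ (adv B u x) (u x) : ℝ)) volume :=
        Z9_int (cc_inner_left hBu hus)
      have hi2 : Integrable (fun x => (inner ℝ (adv B u x) (w x - u x) : ℝ)) volume :=
        Z9_int (cc_inner_left hBu hgs)
      unfold ip
      rw [← integral_add hi1 hi2]
      refine integral_congr_ae (Eventually.of_forall fun x => ?_)
      simp only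
      rw [← inner_add_right]
      congr 1
      abel
    have hz := ip_adv (w := B) (f := u) (g := u) (hBc.smooth.of_le (by norm_num)) hBd
      (hus.of_le (by norm_num)) (hus.of_le (by norm_num)) (Or.inl hBc.comp)
    rw [ip_comm u (adv B u)] at hz
    have hz0 : ip (adv B u) u = 0 := by linarith
    have hg := ip_adv (w := B) (f := u) (g := fun y => w y - u y)
      (hBc.smooth.of_le (by norm_num)) hBd
      (hus.of_le (by norm_num)) (hgs.of_le (by norm_num)) (Or.inl hBc.comp)
    rw [e, hz0, zero_add, hg, abs_neg]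
    have hBg := Z9_adv_cc hBc hgs
    refine (ip_le hum (cc_memLp hBg 2)).trans ?_
    have hsq : sq (adv B (fun y => w y - u y)) ≤ (2 * Ci * S) ^ 2 * sq B := by
      refine Z9_sq_le (Z9_sqint hBc) fun x => ?_
      refine (norm_adv_le _ _ x).trans ?_
      rw [mul_comm]
      by_cases hx : x ∈ tsupport χ
      · refine mul_le_mul_of_nonneg_right ?_ (by positivity)
        have hi := (hint w hw x hx).2
        have hi' : ∀ i, ‖D i (fun y => w y - u y) x‖ ^ 2 ≤ (Ci * S) ^ 2 := fun i =>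
          pow_le_pow_left₀ (norm_nonneg _) (hi i) 2
        rw [Fin.sum_univ_three]
        have := hi' 0
        have := hi' 1
        have := hi' 2
        nlinarith [sq_nonneg (Ci * S)]
      · rw [hB0 x hx]
        simp
    have h5 : Real.sqrt (sq (adv B (fun y => w y - u y))) ≤
        2 * Ci * S * (Real.sqrt CB * C₀ * Z) := by
      refine (Real.sqrt_le_sqrt hsq).trans ?_
      rw [Real.sqrt_mul (by positivity), Real.sqrt_sq (by positivity)]
      exact mul_le_mul_of_nonneg_left hB2 (by positivity)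
    exact mul_le_mul hu2 h5 (Real.sqrt_nonneg _) (by positivity)
  -- T3
  have hT3 : |ip (fun x => cr (grad δ x) (w x)) B| ≤
      S * (Ci * Z * (Real.sqrt CB * C₀ * Z)) := by
    have hcB : Cc (fun x => cr (grad δ x) (B x)) := by
      have h := cc_const_smul (cc_cr_left hBc (grad_smooth hδs)) (-1)
      have e : (fun x => cr (grad δ x) (B x)) =
          fun x => (-1 : ℝ) • cr (B x) (grad δ x) := by
        funext x
        rw [cr_anti]
        simp
      rw [e]
      exact h
    have e : ip (fun x => cr (grad δ x) (w x)) B =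
        -ip w (fun x => cr (grad δ x) (B x)) := by
      unfold ip
      rw [← integral_neg]
      refine integral_congr_ae (Eventually.of_forall fun x => ?_)
      simp only
      rw [cr_anti, inner_neg_left, inner_cr_comm]
    rw [e, abs_neg]
    refine (ip_le hw.l2 (cc_memLp hcB 2)).trans ?_
    have hsq : sq (fun x => cr (grad δ x) (B x)) ≤ (Ci * Z) ^ 2 * sq B := by
      refine Z9_sq_le (Z9_sqint hBc) fun x => ?_
      by_cases hx : x ∈ tsupport χ
      · have hi := (hint w hw x hx).1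
        have h6 : ‖cr (grad δ x) (B x)‖ ≤ Ci * Z * ‖B x‖ :=
          (norm_cr_le _ _).trans (mul_le_mul_of_nonneg_right hi (norm_nonneg _))
        have h7 := pow_le_pow_left₀ (norm_nonneg _) h6 2
        rwa [mul_pow (Ci * Z)] at h7
      · have h6 := norm_cr_le (grad δ x) (B x)
        rw [hB0 x hx, norm_zero, mul_zero] at h6
        rw [hB0 x hx, le_antisymm h6 (norm_nonneg _)]
        simp
    have h5 : Real.sqrt (sq (fun x => cr (grad δ x) (B x))) ≤
        Ci * Z * (Real.sqrt CB * C₀ * Z) := by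
      refine (Real.sqrt_le_sqrt hsq).trans ?_
      rw [Real.sqrt_mul (by positivity), Real.sqrt_sq (by positivity)]
      exact mul_le_mul_of_nonneg_left hB2 (by positivity)
    exact mul_le_mul_of_nonneg_left h5 hS
  rw [hdec]
  have hfin : |ip (adv w u) B - ip (adv B u) w - ip (fun x => cr (grad δ x) (w x)) B| ≤
      |ip (adv w u) B| + |ip (adv B u) w| + |ip (fun x => cr (grad δ x) (w x)) B| := by
    refine (abs_sub _ _).trans (add_le_add (abs_sub _ _) le_rfl)
  refine hfin.trans ?_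
  have h8 := add_le_add (add_le_add hT1 hT2) hT3
  refine h8.trans ?_
  have q1 : 0 ≤ K * S * Z ^ 2 := by positivity
  have q2 : 0 ≤ Real.sqrt Cρ * S * Z ^ 2 := by positivity
  have q3 : 0 ≤ Ci * (Real.sqrt CB * C₀) * M * Z ^ 2 := by positivity
  nlinarith

end Pool.Agent.Helper60.EC
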