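import Pool.Agent.Helper60.EC.C1
import Pool.Agent.Helper60.EC.Z6
import Pool.Agent.Helper60.EC.Z9

/-! Project EC, C2a: flux inequality at scale R -/

set_option autoImplicit false

open MeasureTheory Set Filter Topology
open scoped ENNReal ContDiff

noncomputable section

namespace Pool.Agent.Helper60.EC

open Pool.Agent.Helper52.NSE (E3 pd divg TestField)

theorem C2a_sml {s t : ℝ} {V S : ℝ → E3 → E3} (h : SF s t V S) {τ : ℝ} (hτ : τ ∈ Icc s t) :
    Sml (V τ) where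
  smooth := h.smooth.comp (contDiff_const.prodMk contDiff_id)
  l2 := h.l2 τ hτ
  div := h.div τ

theorem C2a_sqOn {S : E3 → E3} (hS : Continuous S) {a : E3} {R ε : ℝ} (hR : 0 < R)
    (hb : ∀ x ∈ Metric.ball a R, ‖S x‖ ≤ ε) :
    Real.sqrt (sqOn (Metric.ball a R) S) ≤ Real.sqrt (Real.pi * 4 / 3) * (R ^ (3 / 2 : ℝ) * ε) := by
  have hε : 0 ≤ ε := le_trans (norm_nonneg _) (hb a (Metric.mem_ball_self hR))
  have hvol : (volume (Metric.ball a R)).toReal = R ^ 3 * (Real.pi * 4 / 3) := by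
    rw [EuclideanSpace.volume_ball_fin_three, ← ENNReal.ofReal_pow hR.le,
      ← ENNReal.ofReal_mul (by positivity), ENNReal.toReal_ofReal (by positivity)]
  have h1 : sqOn (Metric.ball a R) S ≤ ε ^ 2 * (R ^ 3 * (Real.pi * 4 / 3)) := by
    unfold sqOn
    have h2 : ∫ x in Metric.ball a R, ‖S x‖ ^ 2 ≤ ∫ x in Metric.ball a R, ε ^ 2 := by
      refine setIntegral_mono_on ?_ ?_ measurableSet_ball ?_
      · exact ((hS.norm.pow 2).continuousOn.integrableOn_compact
          (isCompact_closedBall a R)).mono_set Metric.ball_subset_closedBall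
      · exact integrableOn_const (by exact measure_ball_lt_top.ne)
      · intro x hx
        exact pow_le_pow_left₀ (norm_nonneg _) (hb x hx) 2
    refine h2.trans ?_
    rw [setIntegral_const, smul_eq_mul, Measure.real, hvol]
    exact (mul_comm _ _).le
  refine (Real.sqrt_le_sqrt h1).trans ?_
  have h3 : (R ^ (3 / 2 : ℝ)) ^ 2 = R ^ 3 := by
    rw [← Real.rpow_natCast (R ^ (3 / 2 : ℝ)) 2, ← Real.rpow_mul hR.le,
      ← Real.rpow_natCast R 3]
    norm_num
  have h4 : ε ^ 2 * (R ^ 3 * (Real.pi * 4 / 3)) =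
      (Real.pi * 4 / 3) * (R ^ (3 / 2 : ℝ) * ε) ^ 2 := by
    rw [mul_pow, h3]; ring
  rw [h4, Real.sqrt_mul (by positivity), Real.sqrt_sq (by positivity)]

theorem FI_SF (K : ℝ) : ∃ C : ℝ, 0 ≤ C ∧ ∀ (a : E3) (R : ℝ) (χ : E3 → ℝ), 0 < R →
    Cut a R K χ → ∀ (s t : ℝ) (V S : ℝ → E3 → E3) (M : ℝ → ℝ) (E ε : ℝ), s ≤ t → SF s t V S →
      ContinuousOn M (Icc s t) → (∀ τ ∈ Icc s t, ∀ x, ‖V τ x‖ ≤ M τ) →
      (∀ τ ∈ Icc s t, sq (V τ) ≤ E) → (∀ τ ∈ Icc s t, ∀ x ∈ Metric.ball a R, ‖S τ x‖ ≤ ε) →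
      |Zf χ (V t) ^ 2 - Zf χ (V s) ^ 2| ≤
        C / R * E * (∫ τ in s..t, M τ) + C * R ^ (3 / 2 : ℝ) * ε * Real.sqrt E * (t - s) := by
  obtain ⟨C₁, hC₁, h₁⟩ := flux_FI K
  obtain ⟨C₂, hC₂, h₂⟩ := BB_bounds K
  obtain ⟨C₃, hC₃, h₃⟩ := Zf_le K
  set c₀ : ℝ := Real.sqrt (Real.pi * 4 / 3) with hc₀
  have hc₀' : 0 ≤ c₀ := Real.sqrt_nonneg _
  set C₄ : ℝ := c₀ * (Real.sqrt C₂ * C₃) with hC₄
  have hC₄' : 0 ≤ C₄ := by positivity
  refine ⟨2 * C₁ + 2 * C₄, by positivity, ?_⟩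
  intro a R χ hR hχ s t V S M E ε hst h hM hVM hE hS
  have hE0 : 0 ≤ E := le_trans (sq_nonneg' _) (hE s (left_mem_Icc.2 hst))
  have hε : 0 ≤ ε := le_trans (norm_nonneg _)
    (hS s (left_mem_Icc.2 hst) a (Metric.mem_ball_self hR))
  have hM0 : ∀ τ ∈ Icc s t, 0 ≤ M τ := fun τ hτ => le_trans (norm_nonneg _) (hVM τ hτ 0)
  have hder := fun τ (hτ : τ ∈ Icc s t) => Zsq_deriv hχ.cc h hτ
  -- bound of the derivative
  have hbd : ∀ τ ∈ Icc s t, |(-2 * ip (fun x => adv (V τ) (V τ) x + S τ x) (BB χ (V τ)))| ≤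
      (2 * C₁ / R * E) * M τ + 2 * C₄ * R ^ (3 / 2 : ℝ) * ε * Real.sqrt E := by
    intro τ hτ
    have hw : Sml (V τ) := C2a_sml h hτ
    have hSc : ContDiff ℝ ∞ (S τ) := h.smoothS.comp (contDiff_const.prodMk contDiff_id)
    obtain ⟨hBcc, -, hB0⟩ := BB_cc hχ.cc hw
    have hBc : Continuous (BB χ (V τ)) := hBcc.smooth.continuous
    have hi1 : Integrable (fun x => (inner ℝ (adv (V τ) (V τ) x) (BB χ (V τ) x) : ℝ)) volume :=
      Calc2a_int ((adv_smooth hw.smooth hw.smooth).continuous.inner hBc)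
        (Calc2a_inner_comp (Or.inr hBcc.comp))
    have hi2 : Integrable (fun x => (inner ℝ (S τ x) (BB χ (V τ) x) : ℝ)) volume :=
      Calc2a_int (hSc.continuous.inner hBc) (Calc2a_inner_comp (Or.inr hBcc.comp))
    have hadd : ip (fun x => adv (V τ) (V τ) x + S τ x) (BB χ (V τ)) =
        ip (adv (V τ) (V τ)) (BB χ (V τ)) + ip (S τ) (BB χ (V τ)) := by
      unfold ip
      rw [← integral_add hi1 hi2]
      refine integral_congr_ae (Eventually.of_forall fun x => ?_)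
      exact inner_add_left _ _ _
    have hb1 : |ip (adv (V τ) (V τ)) (BB χ (V τ))| ≤ C₁ / R * M τ * E := by
      refine (h₁ a R χ hR hχ (V τ) (M τ) hw (hVM τ hτ)).trans ?_
      refine mul_le_mul_of_nonneg_left ((sqOn_le_sq _ hw.l2).trans (hE τ hτ)) ?_
      exact mul_nonneg (div_nonneg hC₁ hR.le) (hM0 τ hτ)
    have hsqB : Real.sqrt (sq (BB χ (V τ))) ≤ Real.sqrt C₂ * C₃ * Real.sqrt E := by
      have e1 := (h₂ a R χ hR hχ (V τ) hw).1
      have e2 := h₃ a R χ hR hχ (V τ) hw.l2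
      have e3 : Real.sqrt (sqOn (Metric.ball a R) (V τ)) ≤ Real.sqrt E :=
        Real.sqrt_le_sqrt ((sqOn_le_sq _ hw.l2).trans (hE τ hτ))
      have e4 : 0 ≤ Zf χ (V τ) := Zf_nonneg χ hχ.cc hw.l2
      refine (Real.sqrt_le_sqrt e1).trans ?_
      rw [Real.sqrt_mul hC₂, Real.sqrt_sq e4, mul_assoc]
      refine mul_le_mul_of_nonneg_left ?_ (Real.sqrt_nonneg _)
      exact e2.trans (mul_le_mul_of_nonneg_left e3 hC₃)
    have hb2 : |ip (S τ) (BB χ (V τ))| ≤ c₀ * (R ^ (3 / 2 : ℝ) * ε) *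
        (Real.sqrt C₂ * C₃ * Real.sqrt E) := by
      have e1 : |ip (S τ) (BB χ (V τ))| ≤
          Real.sqrt (sqOn (Metric.closedBall a R) (S τ)) * Real.sqrt (sq (BB χ (V τ))) := by
        refine ip_le_on Metric.isClosed_closedBall.measurableSet ?_ (cc_memLp hBcc 2) ?_
        · have hcont : Continuous (S τ) := hSc.continuous
          obtain ⟨B, hB⟩ := (isCompact_closedBall a R).exists_bound_of_continuousOn
            hcont.continuousOn
          haveI : IsFiniteMeasure (volume.restrict (Metric.closedBall a R)) :=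
            ⟨by rw [Measure.restrict_apply_univ]; exact measure_closedBall_lt_top⟩
          refine MemLp.of_bound hcont.aestronglyMeasurable B ?_
          rw [ae_restrict_iff' Metric.isClosed_closedBall.measurableSet]
          exact Eventually.of_forall hB
        · intro x hx
          exact hB0 x fun hx' => hx (Z0b_tsupport_subset hχ hx')
      rw [Z0b_ball a hR] at e1
      refine e1.trans ?_
      exact mul_le_mul (C2a_sqOn hSc.continuous hR (hS τ hτ)) hsqB (Real.sqrt_nonneg _)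
        (by positivity)
    rw [hadd, abs_mul, abs_neg, abs_two]
    have habs := abs_add_le (ip (adv (V τ) (V τ)) (BB χ (V τ))) (ip (S τ) (BB χ (V τ)))
    calc 2 * |ip (adv (V τ) (V τ)) (BB χ (V τ)) + ip (S τ) (BB χ (V τ))|
        ≤ 2 * (C₁ / R * M τ * E + c₀ * (R ^ (3 / 2 : ℝ) * ε) *
            (Real.sqrt C₂ * C₃ * Real.sqrt E)) := by linarith
      _ = (2 * C₁ / R * E) * M τ + 2 * C₄ * R ^ (3 / 2 : ℝ) * ε * Real.sqrt E := by
          rw [hC₄]; ring
  have hmain := abs_sub_le_integral hst hder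
    (g := fun τ => (2 * C₁ / R * E) * M τ + 2 * C₄ * R ^ (3 / 2 : ℝ) * ε * Real.sqrt E)
    ((continuousOn_const.mul hM).add continuousOn_const) hbd
  refine hmain.trans ?_
  have hMi : IntervalIntegrable M volume s t := by
    rw [← uIcc_of_le hst] at hM
    exact hM.intervalIntegrable
  rw [intervalIntegral.integral_add (hMi.const_mul _) intervalIntegrable_const,
    intervalIntegral.integral_const_mul, intervalIntegral.integral_const, smul_eq_mul]
  have hMint : 0 ≤ ∫ τ in s..t, M τ :=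
    intervalIntegral.integral_nonneg hst hM0
  have hts : 0 ≤ t - s := by linarith
  have hsE : 0 ≤ Real.sqrt E := Real.sqrt_nonneg _
  have hRp : 0 ≤ R ^ (3 / 2 : ℝ) := Real.rpow_nonneg hR.le _
  have g1 : 2 * C₁ / R * E * (∫ τ in s..t, M τ) ≤
      (2 * C₁ + 2 * C₄) / R * E * (∫ τ in s..t, M τ) := by
    refine mul_le_mul_of_nonneg_right (mul_le_mul_of_nonneg_right ?_ hE0) hMint
    exact div_le_div_of_nonneg_right (by linarith) hR.le
  have g2 : (t - s) * (2 * C₄ * R ^ (3 / 2 : ℝ) * ε * Real.sqrt E) ≤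
      (2 * C₁ + 2 * C₄) * R ^ (3 / 2 : ℝ) * ε * Real.sqrt E * (t - s) := by
    rw [mul_comm (t - s)]
    refine mul_le_mul_of_nonneg_right (mul_le_mul_of_nonneg_right (mul_le_mul_of_nonneg_right
      (mul_le_mul_of_nonneg_right ?_ hRp) hε) hsE) hts
    linarith
  linarith

end Pool.Agent.Helper60.EC
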