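import Pool.Agent.Helper60.EC.Calc1a

/-! Project EC, Calc1b: smoothness and compact supports -/

set_option autoImplicit false

open MeasureTheory Set Filter Topology
open scoped ENNReal ContDiff

noncomputable section

namespace Pool.Agent.Helper60.EC

open Pool.Agent.Helper52.NSE (E3 pd divg TestField)

variable {F : Type} [NormedAddCommGroup F] [InnerProductSpace ℝ F]
variable {f g : E3 → F} {χ h : E3 → ℝ} {w : E3 → E3}

theorem Calc1b_coord {u : E3 → E3} (hu : ContDiff ℝ ∞ u) (k : Fin 3) :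
    ContDiff ℝ ∞ (fun x => u x k) :=
  (EuclideanSpace.proj (𝕜 := ℝ) k : E3 →L[ℝ] ℝ).contDiff.comp hu

theorem Calc1b_vec {a b c : E3 → ℝ} (ha : ContDiff ℝ ∞ a) (hb : ContDiff ℝ ∞ b)
    (hc : ContDiff ℝ ∞ c) : ContDiff ℝ ∞ (fun x => (!₂[a x, b x, c x] : E3)) := by
  rw [contDiff_euclidean]
  intro i
  fin_cases i
  · exact ha
  · exact hb
  · exact hc

/-- a function which vanishes where `f` vanishes locally has compact support -/
theorem Calc1b_cc {G G' : Type} [NormedAddCommGroup G] [InnerProductSpace ℝ G]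
    [NormedAddCommGroup G'] [InnerProductSpace ℝ G'] {u : E3 → G} {v : E3 → G'}
    (hu : HasCompactSupport u) (hv : ContDiff ℝ ∞ v) (h : ∀ x, x ∉ tsupport u → v x = 0) :
    Cc v :=
  ⟨hv, HasCompactSupport.of_support_subset_isCompact hu fun x hx => by
    by_contra hc
    exact hx (h x hc)⟩

theorem Calc1b_D0 {G : Type} [NormedAddCommGroup G] [InnerProductSpace ℝ G] {u : E3 → G} {x : E3}
    (hx : x ∉ tsupport u) (i : Fin 3) : D i u x = 0 := by
  by_contra hc
  exact hx (D_tsupport u i (subset_tsupport _ hc))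

theorem Calc1b_DD0 {G : Type} [NormedAddCommGroup G] [InnerProductSpace ℝ G] {u : E3 → G}
    {x : E3} (hx : x ∉ tsupport u) (i j : Fin 3) : D i (D j u) x = 0 :=
  Calc1b_D0 (fun hc => hx (D_tsupport u j hc)) i

theorem curl_smooth (hw : ContDiff ℝ ∞ w) : ContDiff ℝ ∞ (curl w) := by
  have h := fun i k => Calc1b_coord (D_smooth hw i) k
  exact Calc1b_vec ((h 1 2).sub (h 2 1)) ((h 2 0).sub (h 0 2)) ((h 0 1).sub (h 1 0))

theorem grad_smooth (hh : ContDiff ℝ ∞ h) : ContDiff ℝ ∞ (grad h) :=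
  Calc1b_vec (D_smooth hh 0) (D_smooth hh 1) (D_smooth hh 2)

theorem divg_smooth (hw : ContDiff ℝ ∞ w) : ContDiff ℝ ∞ (divg w) :=
  ContDiff.sum fun i _ => Calc1b_coord (D_smooth hw i) i

theorem lap_smooth (hf : ContDiff ℝ ∞ f) : ContDiff ℝ ∞ (lap f) :=
  ContDiff.sum fun i _ => D_smooth (D_smooth hf i) i

theorem cr_smooth {a b : E3 → E3} (ha : ContDiff ℝ ∞ a) (hb : ContDiff ℝ ∞ b) :
    ContDiff ℝ ∞ (fun x => cr (a x) (b x)) := by
  have h1 := fun k => Calc1b_coord ha k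
  have h2 := fun k => Calc1b_coord hb k
  exact Calc1b_vec (((h1 1).mul (h2 2)).sub ((h1 2).mul (h2 1)))
    (((h1 2).mul (h2 0)).sub ((h1 0).mul (h2 2))) (((h1 0).mul (h2 1)).sub ((h1 1).mul (h2 0)))

theorem adv_smooth {w : E3 → E3} (hw : ContDiff ℝ ∞ w) (hf : ContDiff ℝ ∞ f) :
    ContDiff ℝ ∞ (adv w f) :=
  ContDiff.sum fun i _ => (Calc1b_coord hw i).smul (D_smooth hf i)

theorem sm_smooth (hχ : ContDiff ℝ ∞ χ) (hf : ContDiff ℝ ∞ f) : ContDiff ℝ ∞ (sm χ f) :=
  hχ.smul hf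

theorem cc_D (hf : Cc f) (i : Fin 3) : Cc (D i f) :=
  Calc1b_cc hf.comp (D_smooth hf.smooth i) fun _ hx => Calc1b_D0 hx i

theorem cc_lap (hf : Cc f) : Cc (lap f) :=
  Calc1b_cc hf.comp (lap_smooth hf.smooth) fun _ hx => by
    unfold lap
    exact Finset.sum_eq_zero fun i _ => Calc1b_DD0 hx i i

theorem cc_curl (hw : Cc w) : Cc (curl w) :=
  Calc1b_cc hw.comp (curl_smooth hw.smooth) fun x hx => by
    unfold curl
    rw [Calc1b_D0 hx 0, Calc1b_D0 hx 1, Calc1b_D0 hx 2]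
    ext k
    fin_cases k <;> simp

theorem cc_grad (hh : Cc h) : Cc (grad h) :=
  Calc1b_cc hh.comp (grad_smooth hh.smooth) fun x hx => by
    unfold grad
    rw [Calc1b_D0 hx 0, Calc1b_D0 hx 1, Calc1b_D0 hx 2]
    ext k
    fin_cases k <;> simp

theorem cc_divg (hw : Cc w) : Cc (divg w) :=
  Calc1b_cc hw.comp (divg_smooth hw.smooth) fun x hx => by
    unfold divg
    refine Finset.sum_eq_zero fun i _ => ?_
    have h : pd w i x = D i w x := rfl
    rw [h, Calc1b_D0 hx i]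
    simp

theorem cc_sm (hχ : Cc χ) (hf : ContDiff ℝ ∞ f) : Cc (sm χ f) :=
  Calc1b_cc hχ.comp (sm_smooth hχ.smooth hf) fun x hx => by
    unfold sm
    rw [image_eq_zero_of_notMem_tsupport hx, zero_smul]

theorem cc_sm' (hχ : ContDiff ℝ ∞ χ) (hf : Cc f) : Cc (sm χ f) :=
  Calc1b_cc hf.comp (sm_smooth hχ hf.smooth) fun x hx => by
    unfold sm
    rw [image_eq_zero_of_notMem_tsupport hx, smul_zero]

theorem cc_add (hf : Cc f) (hg : Cc g) : Cc (fun x => f x + g x) :=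
  ⟨hf.smooth.add hg.smooth, hf.comp.add hg.comp⟩

theorem cc_const_smul (hf : Cc f) (c : ℝ) : Cc (fun x => c • f x) :=
  Calc1b_cc hf.comp (contDiff_const.smul hf.smooth) fun x hx => by
    rw [image_eq_zero_of_notMem_tsupport hx, smul_zero]

theorem cc_sub (hf : Cc f) (hg : Cc g) : Cc (fun x => f x - g x) := by
  have h := cc_add hf (cc_const_smul hg (-1))
  have e : (fun x => f x - g x) = fun x => f x + (-1 : ℝ) • g x := by
    funext x
    rw [neg_one_smul, sub_eq_add_neg]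
  rw [e]
  exact h

theorem cc_cr_left {a b : E3 → E3} (ha : Cc a) (hb : ContDiff ℝ ∞ b) :
    Cc (fun x => cr (a x) (b x)) :=
  Calc1b_cc ha.comp (cr_smooth ha.smooth hb) fun x hx => by
    unfold cr
    rw [image_eq_zero_of_notMem_tsupport hx]
    ext k
    fin_cases k <;> simp

theorem cc_inner_left {a b : E3 → E3} (ha : Cc a) (hb : ContDiff ℝ ∞ b) :
    Cc (fun x => (inner ℝ (a x) (b x) : ℝ)) :=
  Calc1b_cc ha.comp (ha.smooth.inner ℝ hb) fun x hx => by
    rw [image_eq_zero_of_notMem_tsupport hx, inner_zero_left]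

theorem cc_memLp (hf : Cc f) (p : ℝ≥0∞) : MemLp f p volume :=
  hf.smooth.continuous.memLp_of_hasCompactSupport hf.comp

end Pool.Agent.Helper60.EC
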