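import Pool.Agent.Helper60.EC.Calc1a

/-! Project EC, Calc1c: cutoff functions -/

set_option autoImplicit false

open MeasureTheory Set Filter Topology
open scoped ENNReal ContDiff

noncomputable section

namespace Pool.Agent.Helper60.EC

open Pool.Agent.Helper52.NSE (E3 pd divg TestField)

theorem Calc1c_bound (g : E3 → ℝ) (hg : Continuous g) (hc : HasCompactSupport g) :
    ∃ C : ℝ, 0 ≤ C ∧ ∀ x, |g x| ≤ C := by
  obtain ⟨C, hC⟩ := hc.exists_bound_of_continuous hg
  refine ⟨C, (norm_nonneg _).trans (hC 0), fun x => ?_⟩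
  have := hC x
  rwa [Real.norm_eq_abs] at this

/-- cutoff functions: `1` on `ball a (R/2)`, `0` off `ball a R`; the constant `K` is universal -/
theorem exists_cut : ∃ K : ℝ, 0 < K ∧ ∀ (a : E3) (R : ℝ), 0 < R → ∃ χ : E3 → ℝ,
    Cut a R K χ ∧ (∀ x, 0 ≤ χ x ∧ χ x ≤ 1) ∧ ∀ x, ‖x - a‖ ≤ R / 2 → χ x = 1 := by
  let b : ContDiffBump (0 : E3) := ⟨1 / 2, 1, by norm_num, by norm_num⟩
  let f : E3 → ℝ := b
  have hf : ContDiff ℝ ∞ f := b.contDiff
  have hfc : HasCompactSupport f := b.hasCompactSupport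
  have hd1 : ∀ i : Fin 3, ∃ C : ℝ, 0 ≤ C ∧ ∀ x, |D i f x| ≤ C := fun i =>
    Calc1c_bound _ (D_smooth hf i).continuous (hfc.of_isClosed_subset (isClosed_tsupport _) (D_tsupport f i))
  have hd2 : ∀ i j : Fin 3, ∃ C : ℝ, 0 ≤ C ∧ ∀ x, |D i (D j f) x| ≤ C := fun i j =>
    Calc1c_bound _ (D_smooth (D_smooth hf j) i).continuous
      (hfc.of_isClosed_subset (isClosed_tsupport _) ((D_tsupport (D j f) i).trans (D_tsupport f j)))
  choose C1 hC1 hC1' using hd1
  choose C2 hC2 hC2' using hd2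
  set K : ℝ := 1 + ∑ i, C1 i + ∑ i, ∑ j, C2 i j with hK
  have hs1 : ∀ i, C1 i ≤ ∑ i, C1 i := fun i =>
    Finset.single_le_sum (f := C1) (fun j _ => hC1 j) (Finset.mem_univ i)
  have hs2 : ∀ i j, C2 i j ≤ ∑ i, ∑ j, C2 i j := fun i j =>
    (Finset.single_le_sum (f := C2 i) (fun j _ => hC2 i j) (Finset.mem_univ j)).trans
      (Finset.single_le_sum (f := fun i => ∑ j, C2 i j)
        (fun i _ => Finset.sum_nonneg fun j _ => hC2 i j) (Finset.mem_univ i))
  have hn1 : 0 ≤ ∑ i, C1 i := Finset.sum_nonneg fun i _ => hC1 i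
  have hn2 : 0 ≤ ∑ i, ∑ j, C2 i j :=
    Finset.sum_nonneg fun i _ => Finset.sum_nonneg fun j _ => hC2 i j
  refine ⟨K, by linarith, fun a R hR => ?_⟩
  let c : ℝ := R⁻¹
  have hc : 0 < c := inv_pos.2 hR
  let χ : E3 → ℝ := fun y => f (-(c • a) + c • y)
  have harg : ∀ y : E3, -(c • a) + c • y = c • (y - a) := fun y => by
    rw [smul_sub]; abel
  have hnorm : ∀ y : E3, ‖-(c • a) + c • y‖ = ‖y - a‖ / R := fun y => by
    rw [harg, norm_smul, Real.norm_of_nonneg hc.le]
    change R⁻¹ * _ = _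
    rw [div_eq_inv_mul]
  have hχ0 : ∀ y, R ≤ ‖y - a‖ → χ y = 0 := by
    intro y hy
    refine b.zero_of_le_dist ?_
    rw [dist_zero_right, hnorm, le_div_iff₀ hR]
    change 1 * R ≤ _
    rw [one_mul]; exact hy
  have hχs : ContDiff ℝ ∞ χ := by
    refine hf.comp ?_
    exact contDiff_const.add (contDiff_id.const_smul c)
  have hχc : HasCompactSupport χ := by
    refine HasCompactSupport.intro (isCompact_closedBall a R) fun y hy => ?_
    refine hχ0 y ?_
    rw [Metric.mem_closedBall, dist_eq_norm, not_le] at hy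
    exact hy.le
  have hDχ : ∀ i, D i χ = fun x => c • D i f (-(c • a) + c • x) := by
    intro i
    funext x
    exact D_comp_affine (hf.differentiable (by norm_num)) c (-(c • a)) i x
  have hDDχ : ∀ i j x, D i (D j χ) x = c • c • D i (D j f) (-(c • a) + c • x) := by
    intro i j x
    rw [hDχ j]
    have hdf : Differentiable ℝ (D j f) := (D_smooth hf j).differentiable (by norm_num)
    have h1 : Differentiable ℝ (fun y : E3 => D j f (-(c • a) + c • y)) := by
      refine hdf.comp ?_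
      exact (differentiable_const _).add (differentiable_id.const_smul c)
    rw [D_const_smul (h1 x)]
    rw [D_comp_affine hdf c (-(c • a)) i x]
  refine ⟨χ, ⟨⟨hχs, hχc⟩, hχ0, ?_, ?_, ?_⟩, ?_, ?_⟩
  · intro x
    have h0 : 0 ≤ χ x := b.nonneg
    have h1 : χ x ≤ 1 := b.le_one
    rw [abs_of_nonneg h0]
    linarith
  · intro i x
    rw [hDχ i]
    change |c • D i f _| ≤ _
    rw [smul_eq_mul, abs_mul, abs_of_pos hc, div_eq_inv_mul]
    refine mul_le_mul_of_nonneg_left ?_ hc.le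
    have := hC1' i (-(c • a) + c • x)
    have := hs1 i
    linarith
  · intro i j x
    rw [hDDχ i j x]
    rw [smul_eq_mul, smul_eq_mul, abs_mul, abs_mul, abs_of_pos hc]
    have h1 : K / R ^ 2 = c * (c * K) := by
      change K / R ^ 2 = R⁻¹ * (R⁻¹ * K)
      field_simp
    rw [h1]
    refine mul_le_mul_of_nonneg_left (mul_le_mul_of_nonneg_left ?_ hc.le) hc.le
    have := hC2' i j (-(c • a) + c • x)
    have := hs2 i j
    linarith
  · intro x
    exact ⟨b.nonneg, b.le_one⟩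
  · intro x hx
    refine b.one_of_mem_closedBall ?_
    rw [Metric.mem_closedBall, dist_zero_right, hnorm, div_le_iff₀ hR]
    change _ ≤ 1 / 2 * R
    linarith

end Pool.Agent.Helper60.EC
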