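import Pool.Agent.Helper60.EC.Calc1a
import Pool.Agent.Helper60.EC.Calc1b
import Pool.Agent.Helper60.EC.Calc1c

/-! Project EC: all files Calc1* -/
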