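import Pool.Agent.Helper60.EC.Defs

/-! Project EC, Calc1a: rules for the partial derivatives -/

set_option autoImplicit false

open MeasureTheory Set Filter Topology
open scoped ENNReal ContDiff

noncomputable section

namespace Pool.Agent.Helper60.EC

open Pool.Agent.Helper52.NSE (E3 pd divg TestField)

variable {F : Type} [NormedAddCommGroup F] [InnerProductSpace ℝ F]
variable {f g : E3 → F} {χ h : E3 → ℝ} {w : E3 → E3}

theorem pd_eq (φ : E3 → E3) (i : Fin 3) : pd φ i = D i φ := rfl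

theorem fderiv_eq_sum (f : E3 → F) (x y : E3) : fderiv ℝ f x y = ∑ i, y i • D i f x := by
  have hy : y = ∑ i, y i • EuclideanSpace.single i (1 : ℝ) := by
    ext k
    simp [Finset.sum_apply, Pi.single_apply]
  conv_lhs => rw [hy]
  rw [map_sum]
  refine Finset.sum_congr rfl fun i _ => ?_
  rw [map_smul]
  rfl

theorem norm_D_le (i : Fin 3) (f : E3 → F) (x : E3) : ‖D i f x‖ ≤ ‖fderiv ℝ f x‖ := by
  unfold D
  refine (ContinuousLinearMap.le_opNorm _ _).trans ?_
  rw [EuclideanSpace.norm_single]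
  simp

theorem norm_fderiv_le (f : E3 → F) (x : E3) : ‖fderiv ℝ f x‖ ≤ ∑ i, ‖D i f x‖ := by
  refine ContinuousLinearMap.opNorm_le_bound _ (Finset.sum_nonneg fun i _ => norm_nonneg _) fun y => ?_
  rw [fderiv_eq_sum, Finset.sum_mul]
  refine (norm_sum_le _ _).trans (Finset.sum_le_sum fun i _ => ?_)
  rw [norm_smul, mul_comm]
  exact mul_le_mul_of_nonneg_left (PiLp.norm_apply_le y i) (norm_nonneg _)

theorem D_contDiff {n m : WithTop ℕ∞} (hf : ContDiff ℝ n f) (hm : m + 1 ≤ n) (i : Fin 3) :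
    ContDiff ℝ m (D i f) := by
  exact (hf.fderiv_right hm).clm_apply contDiff_const

theorem D_smooth (hf : ContDiff ℝ ∞ f) (i : Fin 3) : ContDiff ℝ ∞ (D i f) := by
  exact D_contDiff hf (by norm_num) i

theorem D_tsupport (f : E3 → F) (i : Fin 3) : tsupport (D i f) ⊆ tsupport f := by
  exact tsupport_fderiv_apply_subset ℝ _

theorem D_congr {x : E3} (h : f =ᶠ[𝓝 x] g) (i : Fin 3) : D i f x = D i g x := by
  unfold D
  rw [h.fderiv_eq]

theorem D_add {x : E3} (hf : DifferentiableAt ℝ f x) (hg : DifferentiableAt ℝ g x) (i : Fin 3) :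
    D i (fun y => f y + g y) x = D i f x + D i g x := by
  unfold D
  rw [fderiv_fun_add hf hg]
  rfl

theorem D_sub {x : E3} (hf : DifferentiableAt ℝ f x) (hg : DifferentiableAt ℝ g x) (i : Fin 3) :
    D i (fun y => f y - g y) x = D i f x - D i g x := by
  unfold D
  rw [fderiv_fun_sub hf hg]
  rfl

theorem D_neg (f : E3 → F) (i : Fin 3) (x : E3) : D i (fun y => -f y) x = -D i f x := by
  unfold D
  rw [fderiv_fun_neg]
  rfl

theorem D_const_smul {x : E3} (hf : DifferentiableAt ℝ f x) (c : ℝ) (i : Fin 3) :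
    D i (fun y => c • f y) x = c • D i f x := by
  unfold D
  rw [fderiv_fun_const_smul hf c]
  rfl

theorem D_sm {x : E3} (hχ : DifferentiableAt ℝ χ x) (hf : DifferentiableAt ℝ f x) (i : Fin 3) :
    D i (sm χ f) x = D i χ x • f x + χ x • D i f x := by
  unfold D sm
  rw [fderiv_fun_smul hχ hf]
  simp [add_comm]

theorem D_mul {x : E3} (hχ : DifferentiableAt ℝ χ x) (hh : DifferentiableAt ℝ h x) (i : Fin 3) :
    D i (fun y => χ y * h y) x = D i χ x * h x + χ x * D i h x := by
  unfold D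
  rw [fderiv_fun_mul hχ hh]
  simp
  ring

theorem D_inner {x : E3} (hf : DifferentiableAt ℝ f x) (hg : DifferentiableAt ℝ g x)
    (i : Fin 3) : D i (fun y => inner ℝ (f y) (g y)) x =
      inner ℝ (D i f x) (g x) + inner ℝ (f x) (D i g x) := by
  unfold D
  rw [fderiv_inner_apply ℝ hf hg]
  ring

theorem D_clm {G : Type} [NormedAddCommGroup G] [InnerProductSpace ℝ G] (L : F →L[ℝ] G) {x : E3}
    (hf : DifferentiableAt ℝ f x) (i : Fin 3) : D i (fun y => L (f y)) x = L (D i f x) := by
  unfold D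
  have h := (L.hasFDerivAt.comp x hf.hasFDerivAt).fderiv
  have h2 : fderiv ℝ (fun y => L (f y)) x = L.comp (fderiv ℝ f x) := h
  rw [h2]
  rfl

theorem D_apply {x : E3} (hw : DifferentiableAt ℝ w x) (i k : Fin 3) :
    D i (fun y => w y k) x = (D i w x) k := by
  have h := D_clm (EuclideanSpace.proj (𝕜 := ℝ) k : E3 →L[ℝ] ℝ) hw i
  exact h

theorem D_comm (hf : ContDiff ℝ 2 f) (i j : Fin 3) (x : E3) : D i (D j f) x = D j (D i f) x := by
  have hf1 : ContDiff ℝ 1 (fderiv ℝ f) := hf.fderiv_right (by norm_num)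
  have hd : ∀ z, DifferentiableAt ℝ (fderiv ℝ f) z := fun z => hf1.differentiable (by norm_num) z
  have key : ∀ i j : Fin 3, D i (D j f) x =
      fderiv ℝ (fderiv ℝ f) x (EuclideanSpace.single i 1) (EuclideanSpace.single j 1) := by
    intro i j
    unfold D
    rw [fderiv_clm_apply (hd x) (differentiableAt_const _)]
    simp
  rw [key, key]
  have hsymm : IsSymmSndFDerivAt ℝ f x := hf.contDiffAt.isSymmSndFDerivAt (by simp)
  exact hsymm _ _

theorem D_comp_affine (hf : Differentiable ℝ f) (c : ℝ) (a : E3) (i : Fin 3) (x : E3) :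
    D i (fun y => f (a + c • y)) x = c • D i f (a + c • x) := by
  unfold D
  have h1 : HasFDerivAt (fun y : E3 => a + c • y) (c • ContinuousLinearMap.id ℝ E3) x :=
    ((hasFDerivAt_id x).const_smul c).const_add a
  have h2 := ((hf (a + c • x)).hasFDerivAt.comp x h1).fderiv
  have h3 : fderiv ℝ (fun y => f (a + c • y)) x =
      (fderiv ℝ f (a + c • x)).comp (c • ContinuousLinearMap.id ℝ E3) := h2
  rw [h3]
  simp

end Pool.Agent.Helper60.EC
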