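import Pool.Agent.Helper60.EC.Defs

/-! Project EC, Calc2b: L² inequalities -/

set_option autoImplicit false

open MeasureTheory Set Filter Topology
open scoped ENNReal ContDiff

noncomputable section

namespace Pool.Agent.Helper60.EC

open Pool.Agent.Helper52.NSE (E3 pd divg TestField)

variable {F : Type} [NormedAddCommGroup F] [InnerProductSpace ℝ F] [FiniteDimensional ℝ F]
variable {f g : E3 → F} {χ h : E3 → ℝ} {a b w : E3 → E3}

theorem Calc2b_inner {μ : Measure E3} (hf : MemLp f 2 μ) (hg : MemLp g 2 μ) :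
    inner ℝ (hf.toLp f) (hg.toLp g) = ∫ x, inner ℝ (f x) (g x) ∂μ := by
  rw [L2.inner_def]
  apply integral_congr_ae
  filter_upwards [hf.coeFn_toLp, hg.coeFn_toLp] with x h1 h2
  rw [h1, h2]

theorem Calc2b_norm {μ : Measure E3} (hf : MemLp f 2 μ) :
    ‖hf.toLp f‖ = Real.sqrt (∫ x, ‖f x‖ ^ 2 ∂μ) := by
  have h1 : ∫ x, ‖f x‖ ^ 2 ∂μ = ‖hf.toLp f‖ ^ 2 := by
    rw [← real_inner_self_eq_norm_sq, Calc2b_inner hf hf]
    refine integral_congr_ae (Eventually.of_forall fun x => ?_)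
    exact (real_inner_self_eq_norm_sq (f x)).symm
  rw [h1, Real.sqrt_sq (norm_nonneg _)]

theorem Calc2b_cs {μ : Measure E3} (hf : MemLp f 2 μ) (hg : MemLp g 2 μ) :
    |∫ x, inner ℝ (f x) (g x) ∂μ| ≤
      Real.sqrt (∫ x, ‖f x‖ ^ 2 ∂μ) * Real.sqrt (∫ x, ‖g x‖ ^ 2 ∂μ) := by
  rw [← Calc2b_norm hf, ← Calc2b_norm hg, ← Calc2b_inner hf hg]
  exact abs_real_inner_le_norm _ _

theorem Calc2b_add {μ : Measure E3} (hf : MemLp f 2 μ) (hg : MemLp g 2 μ) :
    Real.sqrt (∫ x, ‖f x + g x‖ ^ 2 ∂μ) ≤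
      Real.sqrt (∫ x, ‖f x‖ ^ 2 ∂μ) + Real.sqrt (∫ x, ‖g x‖ ^ 2 ∂μ) := by
  have h1 := Calc2b_norm (hf.add hg)
  have h2 : (∫ x, ‖(f + g) x‖ ^ 2 ∂μ) = ∫ x, ‖f x + g x‖ ^ 2 ∂μ := rfl
  rw [← h2, ← h1, ← Calc2b_norm hf, ← Calc2b_norm hg, MemLp.toLp_add hf hg]
  exact norm_add_le _ _

theorem Calc2b_sub {μ : Measure E3} (hf : MemLp f 2 μ) (hg : MemLp g 2 μ) :
    Real.sqrt (∫ x, ‖f x - g x‖ ^ 2 ∂μ) ≤
      Real.sqrt (∫ x, ‖f x‖ ^ 2 ∂μ) + Real.sqrt (∫ x, ‖g x‖ ^ 2 ∂μ) := by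
  have h1 := Calc2b_norm (hf.sub hg)
  have h2 : (∫ x, ‖(f - g) x‖ ^ 2 ∂μ) = ∫ x, ‖f x - g x‖ ^ 2 ∂μ := rfl
  rw [← h2, ← h1, ← Calc2b_norm hf, ← Calc2b_norm hg, MemLp.toLp_sub hf hg]
  exact norm_sub_le _ _

theorem Calc2b_int {μ : Measure E3} (hf : MemLp f 2 μ) :
    Integrable (fun x => ‖f x‖ ^ 2) μ := by
  have := hf.integrable_norm_pow (p := 2) (by norm_num)
  exact this

/-- Cauchy-Schwarz -/
theorem ip_le (hf : MemLp f 2 volume) (hg : MemLp g 2 volume) :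
    |ip f g| ≤ Real.sqrt (sq f) * Real.sqrt (sq g) := by
  exact Calc2b_cs hf hg

theorem sqOn_le_sq (U : Set E3) (hf : MemLp f 2 volume) : sqOn U f ≤ sq f := by
  exact setIntegral_le_integral (Calc2b_int hf) (Eventually.of_forall fun x => by positivity)

/-- Cauchy-Schwarz on a set which carries `g` -/
theorem ip_le_on {U : Set E3} (hU : MeasurableSet U) (hf : MemLp f 2 (volume.restrict U))
    (hg : MemLp g 2 volume) (h0 : ∀ x, x ∉ U → g x = 0) :
    |ip f g| ≤ Real.sqrt (sqOn U f) * Real.sqrt (sq g) := by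
  have e : ip f g = ∫ x in U, inner ℝ (f x) (g x) := by
    unfold ip
    rw [setIntegral_eq_integral_of_forall_compl_eq_zero]
    intro x hx
    rw [h0 x hx, inner_zero_right]
  rw [e]
  refine (Calc2b_cs hf (hg.restrict U)).trans ?_
  apply mul_le_mul_of_nonneg_left _ (Real.sqrt_nonneg _)
  exact Real.sqrt_le_sqrt (sqOn_le_sq U hg)

/-- Minkowski's inequality -/
theorem sqrt_sq_add_le (hf : MemLp f 2 volume) (hg : MemLp g 2 volume) :
    Real.sqrt (sq (fun x => f x + g x)) ≤ Real.sqrt (sq f) + Real.sqrt (sq g) := by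
  exact Calc2b_add hf hg

theorem sqrt_sq_sub_le (hf : MemLp f 2 volume) (hg : MemLp g 2 volume) :
    Real.sqrt (sq (fun x => f x - g x)) ≤ Real.sqrt (sq f) + Real.sqrt (sq g) := by
  exact Calc2b_sub hf hg

theorem sqrt_sqOn_add_le {U : Set E3} (hf : MemLp f 2 (volume.restrict U))
    (hg : MemLp g 2 (volume.restrict U)) :
    Real.sqrt (sqOn U (fun x => f x + g x)) ≤ Real.sqrt (sqOn U f) + Real.sqrt (sqOn U g) := by
  exact Calc2b_add hf hg

theorem sqOn_mono {U W : Set E3} (hUW : U ⊆ W) (hf : MemLp f 2 (volume.restrict W)) :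
    sqOn U f ≤ sqOn W f := by
  exact setIntegral_mono_set (Calc2b_int hf) (Eventually.of_forall fun x => by positivity)
    (LE.le.eventuallyLE hUW)

theorem sq_nonneg' (f : E3 → F) : 0 ≤ sq f := by
  exact integral_nonneg fun x => by positivity

theorem sqOn_nonneg (U : Set E3) (f : E3 → F) : 0 ≤ sqOn U f := by
  exact integral_nonneg fun x => by positivity

theorem gsq_nonneg (f : E3 → F) : 0 ≤ gsq f := by
  exact integral_nonneg fun x => by positivity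

theorem gsq_eq_sum (hf : ∀ i, MemLp (D i f) 2 volume) : gsq f = ∑ i, sq (D i f) := by
  exact integral_finsetSum _ fun i _ => Calc2b_int (hf i)

theorem sq_D_le (hf : ∀ i, MemLp (D i f) 2 volume) (i : Fin 3) : sq (D i f) ≤ gsq f := by
  rw [gsq_eq_sum hf]
  exact Finset.single_le_sum (f := fun i => sq (D i f)) (fun j _ => sq_nonneg' _)
    (Finset.mem_univ i)

end Pool.Agent.Helper60.EC
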