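import Pool.Agent.Helper60.EC.Calc1

/-! Project EC, Calc2a: integration by parts (compact support) -/

set_option autoImplicit false

open MeasureTheory Set Filter Topology
open scoped ENNReal ContDiff

noncomputable section

namespace Pool.Agent.Helper60.EC

open Pool.Agent.Helper52.NSE (E3 pd divg TestField)

variable {F : Type} [NormedAddCommGroup F] [InnerProductSpace ℝ F] [FiniteDimensional ℝ F]
variable {f g : E3 → F} {χ h : E3 → ℝ} {a b w : E3 → E3}

theorem Calc2a_D_cont {G : Type} [NormedAddCommGroup G] [InnerProductSpace ℝ G] {f : E3 → G}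
    (hf : ContDiff ℝ 1 f) (i : Fin 3) : Continuous (D i f) :=
  (D_contDiff (m := 0) hf (by norm_num) i).continuous

theorem Calc2a_D_comp {G : Type} [NormedAddCommGroup G] [InnerProductSpace ℝ G] {f : E3 → G}
    (hf : HasCompactSupport f) (i : Fin 3) : HasCompactSupport (D i f) :=
  hf.of_isClosed_subset (isClosed_tsupport _) (D_tsupport f i)

theorem Calc2a_int {G : Type} [NormedAddCommGroup G] {f : E3 → G}
    (hf : Continuous f) (hc : HasCompactSupport f) : Integrable f volume :=
  hf.integrable_of_hasCompactSupport hc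

/-- the integral of a derivative -/
theorem integral_D_eq_zero (hf : ContDiff ℝ 1 f) (hc : HasCompactSupport f) (i : Fin 3) :
    ∫ x, D i f x = 0 := by
  have hd : ∀ x, DifferentiableAt ℝ f x := fun x => hf.differentiable (by norm_num) x
  have h := integral_smul_fderiv_eq_neg_fderiv_smul_of_integrable (μ := (volume : Measure E3))
    (f := fun _ : E3 => (1 : ℝ)) (g := f) (v := EuclideanSpace.single i (1 : ℝ))
    (by simp) (by
      simp only [one_smul]
      exact Calc2a_int (Calc2a_D_cont hf i) (Calc2a_D_comp hc i))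
    (by
      simp only [one_smul]
      exact Calc2a_int hf.continuous hc)
    (fun x _ => differentiableAt_const _) (fun x _ => hd x)
  simp only [one_smul] at h
  have h2 : ∫ x, D i f x = ∫ x, fderiv ℝ f x (EuclideanSpace.single i (1 : ℝ)) := rfl
  rw [h2, h]
  simp

theorem Calc2a_div {c : Fin 3 → E3 → ℝ} (hc : ∀ i, ContDiff ℝ 1 (c i))
    (hs : ∀ i, HasCompactSupport (c i)) : ∫ x, ∑ i, D i (c i) x = 0 := by
  rw [integral_finsetSum]
  · exact Finset.sum_eq_zero fun i _ => integral_D_eq_zero (hc i) (hs i) i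
  · intro i _
    exact Calc2a_int (Calc2a_D_cont (hc i) i) (Calc2a_D_comp (hs i) i)

/-- if `p - q` is a divergence, the integrals agree -/
theorem Calc2a_sub {p q : E3 → ℝ} {c : Fin 3 → E3 → ℝ} (hp : Continuous p) (hq : Continuous q)
    (hps : HasCompactSupport p) (hqs : HasCompactSupport q)
    (hc : ∀ i, ContDiff ℝ 1 (c i)) (hs : ∀ i, HasCompactSupport (c i))
    (h : ∀ x, p x - q x = ∑ i, D i (c i) x) : ∫ x, p x = ∫ x, q x := by
  have h1 := Calc2a_div hc hs
  simp_rw [← h] at h1
  rw [integral_sub (Calc2a_int hp hps) (Calc2a_int hq hqs)] at h1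
  linarith

theorem Calc2a_inner_comp {G : Type} [NormedAddCommGroup G] [InnerProductSpace ℝ G]
    {f g : E3 → G} (hc : HasCompactSupport f ∨ HasCompactSupport g) :
    HasCompactSupport (fun x => (inner ℝ (f x) (g x) : ℝ)) := by
  rcases hc with hc | hc
  · exact hc.mono' (fun x hx => subset_closure (by
      intro h0
      apply hx
      have : f x = 0 := by simpa using h0
      simp [this]))
  · exact hc.mono' (fun x hx => subset_closure (by
      intro h0
      apply hx
      have : g x = 0 := by simpa using h0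
      simp [this]))

theorem Calc2a_mul_comp {f g : E3 → ℝ} (hc : HasCompactSupport f ∨ HasCompactSupport g) :
    HasCompactSupport (fun x => f x * g x) := by
  rcases hc with hc | hc
  · exact hc.mul_right
  · exact hc.mul_left

theorem Calc2a_apply_comp (ha : HasCompactSupport a) (k : Fin 3) :
    HasCompactSupport (fun x => a x k) :=
  ha.comp_left (g := fun v : E3 => v k) rfl

theorem Calc2a_apply_contDiff {n : WithTop ℕ∞} (ha : ContDiff ℝ n a) (k : Fin 3) :
    ContDiff ℝ n (fun x => a x k) :=
  (EuclideanSpace.proj (𝕜 := ℝ) k : E3 →L[ℝ] ℝ).contDiff.comp ha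

theorem Calc2a_inner3 (u v : E3) : (inner ℝ u v : ℝ) = u 0 * v 0 + u 1 * v 1 + u 2 * v 2 := by
  rw [PiLp.inner_apply, Fin.sum_univ_three]
  simp [mul_comm]

theorem ibp (hf : ContDiff ℝ 1 f) (hg : ContDiff ℝ 1 g)
    (hc : HasCompactSupport f ∨ HasCompactSupport g) (i : Fin 3) :
    ∫ x, inner ℝ (D i f x) (g x) = -∫ x, inner ℝ (f x) (D i g x) := by
  have hd : ∀ x, DifferentiableAt ℝ f x := fun x => hf.differentiable (by norm_num) x
  have hd' : ∀ x, DifferentiableAt ℝ g x := fun x => hg.differentiable (by norm_num) x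
  have hc1 : HasCompactSupport (D i f) ∨ HasCompactSupport g :=
    hc.imp (fun h => Calc2a_D_comp h i) id
  have hc2 : HasCompactSupport f ∨ HasCompactSupport (D i g) :=
    hc.imp id (fun h => Calc2a_D_comp h i)
  have i1 := Calc2a_int ((Calc2a_D_cont hf i).inner hg.continuous) (Calc2a_inner_comp hc1)
  have i2 := Calc2a_int (hf.continuous.inner (Calc2a_D_cont hg i)) (Calc2a_inner_comp hc2)
  have h1 : ∫ x, D i (fun y => (inner ℝ (f y) (g y) : ℝ)) x = 0 :=
    integral_D_eq_zero (hf.inner ℝ hg) (Calc2a_inner_comp hc) i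
  simp_rw [fun x => D_inner (hd x) (hd' x) i] at h1
  rw [integral_add i1 i2] at h1
  linarith

theorem ip_comm (f g : E3 → F) : ip f g = ip g f := by
  unfold ip
  simp_rw [fun x => real_inner_comm (f x) (g x)]

theorem Calc2a_curl_cont (ha : ContDiff ℝ 1 a) : Continuous (curl a) := by
  have h : ∀ i k : Fin 3, Continuous (fun x => (D i a x) k) := fun i k =>
    (EuclideanSpace.proj (𝕜 := ℝ) k : E3 →L[ℝ] ℝ).continuous.comp (Calc2a_D_cont ha i)
  refine (PiLp.continuous_toLp 2 _).comp (continuous_pi fun k => ?_)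
  fin_cases k
  · exact (h 1 2).sub (h 2 1)
  · exact (h 2 0).sub (h 0 2)
  · exact (h 0 1).sub (h 1 0)

theorem Calc2a_curl_comp (ha : HasCompactSupport a) : HasCompactSupport (curl a) := by
  have h0 : ∀ x, x ∉ tsupport a → curl a x = 0 := by
    intro x hx
    have h : ∀ i, D i a x = 0 := fun i => by
      have : x ∉ tsupport (D i a) := fun h => hx (D_tsupport a i h)
      exact image_eq_zero_of_notMem_tsupport this
    ext k
    fin_cases k <;> simp [curl, h]
  exact HasCompactSupport.intro ha h0

theorem Calc2a_grad_cont (hh : ContDiff ℝ 1 h) : Continuous (grad h) := by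
  refine (PiLp.continuous_toLp 2 _).comp (continuous_pi fun k => ?_)
  fin_cases k
  · exact Calc2a_D_cont hh 0
  · exact Calc2a_D_cont hh 1
  · exact Calc2a_D_cont hh 2

theorem Calc2a_grad_comp (hh : HasCompactSupport h) : HasCompactSupport (grad h) := by
  have h0 : ∀ x, x ∉ tsupport h → grad h x = 0 := by
    intro x hx
    have h : ∀ i, D i h x = 0 := fun i => by
      have : x ∉ tsupport (D i h) := fun h' => hx (D_tsupport h i h')
      exact image_eq_zero_of_notMem_tsupport this
    ext k
    fin_cases k <;> simp [grad, h]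
  exact HasCompactSupport.intro hh h0

theorem Calc2a_divg_cont (ha : ContDiff ℝ 1 a) : Continuous (divg a) := by
  unfold divg
  refine continuous_finsetSum _ fun i _ => ?_
  exact (EuclideanSpace.proj (𝕜 := ℝ) i : E3 →L[ℝ] ℝ).continuous.comp (Calc2a_D_cont ha i)

theorem Calc2a_divg_comp (ha : HasCompactSupport a) : HasCompactSupport (divg a) := by
  have h0 : ∀ x, x ∉ tsupport a → divg a x = 0 := by
    intro x hx
    have h : ∀ i, D i a x = 0 := fun i => by
      have : x ∉ tsupport (D i a) := fun h => hx (D_tsupport a i h)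
      exact image_eq_zero_of_notMem_tsupport this
    unfold divg
    simp [pd_eq, h]
  exact HasCompactSupport.intro ha h0

theorem ip_curl (ha : ContDiff ℝ 1 a) (hb : ContDiff ℝ 1 b)
    (hc : HasCompactSupport a ∨ HasCompactSupport b) : ip (curl a) b = ip a (curl b) := by
  have hda : ∀ x, DifferentiableAt ℝ a x := fun x => ha.differentiable (by norm_num) x
  have hdb : ∀ x, DifferentiableAt ℝ b x := fun x => hb.differentiable (by norm_num) x
  have hda' : ∀ k x, DifferentiableAt ℝ (fun y => a y k) x := fun k x =>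
    (Calc2a_apply_contDiff ha k).differentiable (by norm_num) x
  have hdb' : ∀ k x, DifferentiableAt ℝ (fun y => b y k) x := fun k x =>
    (Calc2a_apply_contDiff hb k).differentiable (by norm_num) x
  have hc' : ∀ j k : Fin 3, HasCompactSupport (fun x => a x j * b x k) := fun j k =>
    Calc2a_mul_comp (hc.imp (fun h => Calc2a_apply_comp h j) (fun h => Calc2a_apply_comp h k))
  have hs' : ∀ j k : Fin 3, ContDiff ℝ 1 (fun x => a x j * b x k) := fun j k =>
    (Calc2a_apply_contDiff ha j).mul (Calc2a_apply_contDiff hb k)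
  refine Calc2a_sub (c := ![fun x => a x 1 * b x 2 - a x 2 * b x 1,
      fun x => a x 2 * b x 0 - a x 0 * b x 2, fun x => a x 0 * b x 1 - a x 1 * b x 0])
    ((Calc2a_curl_cont ha).inner hb.continuous) (ha.continuous.inner (Calc2a_curl_cont hb))
    (Calc2a_inner_comp (hc.imp Calc2a_curl_comp id))
    (Calc2a_inner_comp (hc.imp id Calc2a_curl_comp)) ?_ ?_ ?_
  · intro i
    fin_cases i
    · exact (hs' 1 2).sub (hs' 2 1)
    · exact (hs' 2 0).sub (hs' 0 2)
    · exact (hs' 0 1).sub (hs' 1 0)
  · intro i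
    fin_cases i
    · exact (hc' 1 2).sub (hc' 2 1)
    · exact (hc' 2 0).sub (hc' 0 2)
    · exact (hc' 0 1).sub (hc' 1 0)
  · intro x
    have key : ∀ i j k l m : Fin 3, D i (fun y => a y j * b y k - a y l * b y m) x =
        ((D i a x) j * b x k + a x j * (D i b x) k) - ((D i a x) l * b x m + a x l * (D i b x) m) := by
      intro i j k l m
      have e := D_sub (f := fun y => a y j * b y k) (g := fun y => a y l * b y m)
        ((hda' j x).mul (hdb' k x)) ((hda' l x).mul (hdb' m x)) i
      rw [e, D_mul (hda' j x) (hdb' k x), D_mul (hda' l x) (hdb' m x), D_apply (hda x), D_apply (hda x),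
        D_apply (hdb x), D_apply (hdb x)]
    rw [Fin.sum_univ_three]
    simp only [Matrix.cons_val_zero, Matrix.cons_val_one, Matrix.cons_val_two, Matrix.head_cons,
      Matrix.tail_cons]
    rw [key, key, key, Calc2a_inner3, Calc2a_inner3]
    simp only [curl, PiLp.toLp_apply, Matrix.cons_val_zero, Matrix.cons_val_one, Matrix.cons_val]
    ring

theorem ip_grad (hh : ContDiff ℝ 1 h) (hb : ContDiff ℝ 1 b)
    (hc : HasCompactSupport h ∨ HasCompactSupport b) :
    ip (grad h) b = -∫ x, h x * divg b x := by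
  have hdh : ∀ x, DifferentiableAt ℝ h x := fun x => hh.differentiable (by norm_num) x
  have hdb : ∀ x, DifferentiableAt ℝ b x := fun x => hb.differentiable (by norm_num) x
  have hdb' : ∀ k x, DifferentiableAt ℝ (fun y => b y k) x := fun k x =>
    (Calc2a_apply_contDiff hb k).differentiable (by norm_num) x
  rw [← integral_neg]
  refine Calc2a_sub (c := fun i x => h x * b x i)
    ((Calc2a_grad_cont hh).inner hb.continuous) (hh.continuous.mul (Calc2a_divg_cont hb)).neg
    (Calc2a_inner_comp (hc.imp Calc2a_grad_comp id))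
    (Calc2a_mul_comp (hc.imp id Calc2a_divg_comp)).neg
    (fun i => hh.mul (Calc2a_apply_contDiff hb i))
    (fun i => Calc2a_mul_comp (hc.imp id (fun h => Calc2a_apply_comp h i))) ?_
  intro x
  rw [Fin.sum_univ_three]
  rw [D_mul (hdh x) (hdb' 0 x), D_mul (hdh x) (hdb' 1 x), D_mul (hdh x) (hdb' 2 x),
    D_apply (hdb x), D_apply (hdb x), D_apply (hdb x), Calc2a_inner3]
  simp only [grad, divg, pd_eq, PiLp.toLp_apply, Matrix.cons_val_zero, Matrix.cons_val_one,
    Matrix.cons_val, Fin.sum_univ_three]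
  ring

/-- a solenoidal field with compact support is orthogonal to gradients -/
theorem ip_grad_zero (hh : ContDiff ℝ 1 h) (hb : ContDiff ℝ 1 b) (hc : HasCompactSupport b)
    (hd : ∀ x, divg b x = 0) : ip (grad h) b = 0 := by
  rw [ip_grad hh hb (Or.inr hc)]
  simp [hd]

theorem ip_lap (hf : ContDiff ℝ 2 f) (hg : ContDiff ℝ 1 g)
    (hc : HasCompactSupport f ∨ HasCompactSupport g) :
    ip (lap f) g = -∫ x, ∑ i, inner ℝ (D i f x) (D i g x) := by
  have hDf : ∀ i, ContDiff ℝ 1 (D i f) := fun i => D_contDiff hf (by norm_num) i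
  have hdf : ∀ i x, DifferentiableAt ℝ (D i f) x := fun i x =>
    (hDf i).differentiable (by norm_num) x
  have hdg : ∀ x, DifferentiableAt ℝ g x := fun x => hg.differentiable (by norm_num) x
  rw [← integral_neg]
  have hsum : ∀ {u v : Fin 3 → E3 → F}, (∀ i, HasCompactSupport (u i) ∨ HasCompactSupport (v i)) →
      HasCompactSupport (fun x => ∑ i, (inner ℝ (u i x) (v i x) : ℝ)) := by
    intro u v h
    have h3 := ((Calc2a_inner_comp (h 0)).add (Calc2a_inner_comp (h 1))).add
      (Calc2a_inner_comp (h 2))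
    refine h3.mono' fun x hx => subset_closure fun h0 => hx ?_
    show ∑ i, (inner ℝ (u i x) (v i x) : ℝ) = 0
    rw [Fin.sum_univ_three]
    exact h0
  refine Calc2a_sub (c := fun i x => inner ℝ (D i f x) (g x))
    ?_ ?_ ?_ ?_
    (fun i => (hDf i).inner ℝ hg)
    (fun i => Calc2a_inner_comp (hc.imp (fun h => Calc2a_D_comp h i) id)) ?_
  · exact (continuous_finsetSum _ fun i _ => Calc2a_D_cont (hDf i) i).inner hg.continuous
  · exact (continuous_finsetSum _ fun i _ =>
      (hDf i).continuous.inner (Calc2a_D_cont hg i)).neg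
  · refine Calc2a_inner_comp (hc.imp (fun h => ?_) id)
    have h3 := ((Calc2a_D_comp (Calc2a_D_comp h 0) 0).add (Calc2a_D_comp (Calc2a_D_comp h 1) 1)).add
      (Calc2a_D_comp (Calc2a_D_comp h 2) 2)
    refine h3.mono' fun x hx => subset_closure fun h0 => hx ?_
    unfold lap
    rw [Fin.sum_univ_three]
    exact h0
  · exact (hsum fun i => hc.imp (fun h => Calc2a_D_comp h i) (fun h => Calc2a_D_comp h i)).neg
  · intro x
    simp_rw [fun i => D_inner (hdf i x) (hdg x) i, Finset.sum_add_distrib]
    unfold lap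
    rw [sum_inner]
    ring

/-- `∫ (w·∇)f · g = -∫ f · (w·∇)g` for solenoidal `w` -/
theorem ip_adv (hw : ContDiff ℝ 1 w) (hd : ∀ x, divg w x = 0) (hf : ContDiff ℝ 1 f)
    (hg : ContDiff ℝ 1 g) (hc : HasCompactSupport w ∨ HasCompactSupport f ∨ HasCompactSupport g) :
    ip (adv w f) g = -ip f (adv w g) := by
  have hdf : ∀ x, DifferentiableAt ℝ f x := fun x => hf.differentiable (by norm_num) x
  have hdg : ∀ x, DifferentiableAt ℝ g x := fun x => hg.differentiable (by norm_num) x
  have hdw : ∀ x, DifferentiableAt ℝ w x := fun x => hw.differentiable (by norm_num) x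
  have hdw' : ∀ k x, DifferentiableAt ℝ (fun y => w y k) x := fun k x =>
    (Calc2a_apply_contDiff hw k).differentiable (by norm_num) x
  have hdfg : ∀ x, DifferentiableAt ℝ (fun y => (inner ℝ (f y) (g y) : ℝ)) x := fun x =>
    (hdf x).inner ℝ (hdg x)
  have hcz : ∀ {f g : E3 → F}, ContDiff ℝ 1 f → ContDiff ℝ 1 g →
      Continuous (fun x => (inner ℝ (adv w f x) (g x) : ℝ)) := by
    intro f g hf hg
    refine Continuous.inner ?_ hg.continuous
    refine continuous_finsetSum _ fun i _ => ?_
    exact (Calc2a_apply_contDiff hw i).continuous.smul (Calc2a_D_cont hf i)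
  have hcs : ∀ {f g : E3 → F}, (HasCompactSupport w ∨ HasCompactSupport f ∨ HasCompactSupport g) →
      HasCompactSupport (fun x => (inner ℝ (adv w f x) (g x) : ℝ)) := by
    intro f g hc
    rcases hc with hc | hc | hc
    · refine HasCompactSupport.intro hc fun x hx => ?_
      have h0 : w x = 0 := image_eq_zero_of_notMem_tsupport hx
      simp [adv, h0]
    · refine HasCompactSupport.intro hc fun x hx => ?_
      have h : ∀ i, D i f x = 0 := fun i => by
        have : x ∉ tsupport (D i f) := fun h => hx (D_tsupport f i h)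
        exact image_eq_zero_of_notMem_tsupport this
      simp [adv, h]
    · refine HasCompactSupport.intro hc fun x hx => ?_
      have h0 : g x = 0 := image_eq_zero_of_notMem_tsupport hx
      simp [h0]
  rw [ip_comm f (adv w g)]
  unfold ip
  rw [← integral_neg]
  refine Calc2a_sub (c := fun i x => w x i * inner ℝ (f x) (g x))
    (hcz hf hg) (hcz hg hf).neg (hcs hc) (hcs (hc.imp id Or.symm)).neg
    (fun i => (Calc2a_apply_contDiff hw i).mul (hf.inner ℝ hg))
    (fun i => ?_) ?_
  · rcases hc with hc | hc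
    · exact Calc2a_mul_comp (Or.inl (Calc2a_apply_comp hc i))
    · exact Calc2a_mul_comp (Or.inr (Calc2a_inner_comp hc))
  · intro x
    have h1 : ∀ i, D i (fun y => w y i * (inner ℝ (f y) (g y) : ℝ)) x =
        (D i w x) i * inner ℝ (f x) (g x) +
          w x i * (inner ℝ (D i f x) (g x) + inner ℝ (f x) (D i g x)) := by
      intro i
      rw [D_mul (hdw' i x) (hdfg x), D_apply (hdw x), D_inner (hdf x) (hdg x)]
    have h2 : ∑ i, (D i w x) i = 0 := hd x
    simp_rw [h1]
    rw [Finset.sum_add_distrib, ← Finset.sum_mul, h2, zero_mul, zero_add]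
    unfold adv
    rw [sum_inner, sum_inner]
    simp_rw [real_inner_smul_left, mul_add]
    rw [Finset.sum_add_distrib]
    simp_rw [fun i => real_inner_comm (D i g x) (f x)]
    ring

theorem Calc2a_zero_of_int {u : E3 → ℝ} (hu : ContDiff ℝ ∞ u) (h0 : ∀ χ : E3 → ℝ, Cc χ →
    ∫ x, χ x * (u x * u x) = 0) (x : E3) : u x = 0 := by
  obtain ⟨K, -, hK⟩ := exists_cut
  obtain ⟨χ, hχ, hb, h1⟩ := hK x 1 one_pos
  have hz := h0 χ hχ.cc
  have hcont : Continuous (fun x => χ x * (u x * u x)) :=
    hχ.cc.smooth.continuous.mul (hu.continuous.mul hu.continuous)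
  have hcomp : HasCompactSupport (fun x => χ x * (u x * u x)) := hχ.cc.comp.mul_right
  have hnn : 0 ≤ fun x => χ x * (u x * u x) := fun x => mul_nonneg (hb x).1 (mul_self_nonneg _)
  have h3 := (integral_eq_zero_iff_of_nonneg hnn (Calc2a_int hcont hcomp)).1 hz
  have h4 : (fun x => χ x * (u x * u x)) = 0 := (Continuous.ae_eq_iff_eq volume hcont
    continuous_zero).1 h3
  have h5 := congrFun h4 x
  have h6 : χ x = 1 := h1 x (by simp)
  simp only [h6, one_mul, Pi.zero_apply] at h5
  exact mul_self_eq_zero.1 h5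

/-- fundamental lemma for the curl -/
theorem curl_eq_zero_of_forall (ha : ContDiff ℝ ∞ a)
    (h0 : ∀ ψ : E3 → E3, Cc ψ → ip a (curl ψ) = 0) : ∀ x, curl a x = 0 := by
  intro x
  obtain ⟨K, -, hK⟩ := exists_cut
  obtain ⟨χ, hχ, hb, h1⟩ := hK x 1 one_pos
  have hcs := curl_smooth ha
  have hψ : Cc (sm χ (curl a)) := cc_sm hχ.cc hcs
  have hz := h0 _ hψ
  rw [← ip_curl (ha.of_le (by norm_num)) (hψ.smooth.of_le (by norm_num)) (Or.inr hψ.comp)] at hz
  unfold ip at hz
  have hcont : Continuous (fun x => (inner ℝ (curl a x) (sm χ (curl a) x) : ℝ)) :=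
    hcs.continuous.inner hψ.smooth.continuous
  have hnn : 0 ≤ fun x => (inner ℝ (curl a x) (sm χ (curl a) x) : ℝ) := fun y => by
    simp only [sm, Pi.zero_apply, real_inner_smul_right]
    exact mul_nonneg (hb y).1 real_inner_self_nonneg
  have h3 := (integral_eq_zero_iff_of_nonneg hnn
    (Calc2a_int hcont (Calc2a_inner_comp (Or.inr hψ.comp)))).1 hz
  have h4 := congrFun ((Continuous.ae_eq_iff_eq volume hcont continuous_zero).1 h3) x
  have h6 : χ x = 1 := h1 x (by simp)
  simp only [sm, h6, one_smul, Pi.zero_apply] at h4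
  exact inner_self_eq_zero.1 h4

/-- a smooth field which is weakly divergence-free is divergence-free, and conversely -/
theorem divg_eq_zero_of_wdiv (ha : ContDiff ℝ ∞ a) (h0 : WDiv a) : ∀ x, divg a x = 0 := by
  refine Calc2a_zero_of_int (divg_smooth ha) fun χ hχ => ?_
  have hφ : Cc (fun x => χ x * divg a x) := ⟨hχ.smooth.mul (divg_smooth ha), hχ.comp.mul_right⟩
  have h1 := h0 _ hφ
  have h2 := ip_grad (hφ.smooth.of_le (by norm_num)) (ha.of_le (by norm_num)) (Or.inl hφ.comp)
  rw [ip_comm] at h2
  have h3 : ip a (grad fun x => χ x * divg a x) = 0 := h1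
  rw [h3] at h2
  simp_rw [mul_assoc] at h2
  linarith

theorem wdiv_of_divg (ha : ContDiff ℝ ∞ a) (h0 : ∀ x, divg a x = 0) : WDiv a := by
  intro φ hφ
  have h2 := ip_grad (hφ.smooth.of_le (by norm_num)) (ha.of_le (by norm_num)) (Or.inl hφ.comp)
  rw [ip_comm] at h2
  have h3 : ip a (grad φ) = 0 := by rw [h2]; simp [h0]
  exact h3

end Pool.Agent.Helper60.EC
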