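import Pool.Agent.Helper60.EC.Calc1a

/-! Project EC, Calc3b: algebra of the cross product, norms, linearity -/

set_option autoImplicit false

open MeasureTheory Set Filter Topology
open scoped ENNReal ContDiff

noncomputable section

namespace Pool.Agent.Helper60.EC

open Pool.Agent.Helper52.NSE (E3 pd divg TestField)

variable {F : Type} [NormedAddCommGroup F] [InnerProductSpace ℝ F]
variable {f g : E3 → F} {χ h : E3 → ℝ} {a b w : E3 → E3} {x : E3}

theorem Calc3b_nsq (a : E3) : ‖a‖ ^ 2 = a 0 ^ 2 + a 1 ^ 2 + a 2 ^ 2 := by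
  rw [EuclideanSpace.norm_sq_eq, Fin.sum_univ_three, Real.norm_eq_abs, Real.norm_eq_abs,
    Real.norm_eq_abs, sq_abs, sq_abs, sq_abs]

theorem Calc3b_inner (a b : E3) : (inner ℝ a b : ℝ) = a 0 * b 0 + a 1 * b 1 + a 2 * b 2 := by
  rw [PiLp.inner_apply, Fin.sum_univ_three]
  simp only [RCLike.inner_apply, conj_trivial]
  ring

theorem Calc3b_cr0 (a b : E3) : cr a b 0 = a 1 * b 2 - a 2 * b 1 := rfl
theorem Calc3b_cr1 (a b : E3) : cr a b 1 = a 2 * b 0 - a 0 * b 2 := rfl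
theorem Calc3b_cr2 (a b : E3) : cr a b 2 = a 0 * b 1 - a 1 * b 0 := rfl
theorem Calc3b_curl0 (a : E3 → E3) (x : E3) : curl a x 0 = (D 1 a x) 2 - (D 2 a x) 1 := rfl
theorem Calc3b_curl1 (a : E3 → E3) (x : E3) : curl a x 1 = (D 2 a x) 0 - (D 0 a x) 2 := rfl
theorem Calc3b_curl2 (a : E3 → E3) (x : E3) : curl a x 2 = (D 0 a x) 1 - (D 1 a x) 0 := rfl
theorem Calc3b_grad (h : E3 → ℝ) (x : E3) (i : Fin 3) : grad h x i = D i h x := by
  fin_cases i <;> rfl

theorem Calc3b_ext {a b : E3} (h0 : a 0 = b 0) (h1 : a 1 = b 1) (h2 : a 2 = b 2) : a = b := by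
  ext i
  fin_cases i
  · exact h0
  · exact h1
  · exact h2

theorem norm_cr_le (a b : E3) : ‖cr a b‖ ≤ ‖a‖ * ‖b‖ := by
  refine le_of_sq_le_sq ?_ (by positivity)
  rw [mul_pow, Calc3b_nsq, Calc3b_nsq, Calc3b_nsq, Calc3b_cr0, Calc3b_cr1, Calc3b_cr2]
  nlinarith [sq_nonneg (a 0 * b 0 + a 1 * b 1 + a 2 * b 2)]

theorem inner_cr_self (a b : E3) : inner ℝ (cr a b) b = (0 : ℝ) := by
  rw [Calc3b_inner, Calc3b_cr0, Calc3b_cr1, Calc3b_cr2]
  ring

theorem inner_cr_comm (a b c : E3) : (inner ℝ (cr a b) c : ℝ) = inner ℝ a (cr b c) := by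
  rw [Calc3b_inner, Calc3b_inner, Calc3b_cr0, Calc3b_cr1, Calc3b_cr2, Calc3b_cr0, Calc3b_cr1,
    Calc3b_cr2]
  ring

theorem norm_curl_sq_le (a : E3 → E3) (x : E3) : ‖curl a x‖ ^ 2 ≤ 2 * ∑ i, ‖D i a x‖ ^ 2 := by
  rw [Fin.sum_univ_three, Calc3b_nsq, Calc3b_nsq, Calc3b_nsq, Calc3b_nsq, Calc3b_curl0,
    Calc3b_curl1, Calc3b_curl2]
  nlinarith [sq_nonneg ((D 1 a x) 2 + (D 2 a x) 1), sq_nonneg ((D 2 a x) 0 + (D 0 a x) 2),
    sq_nonneg ((D 0 a x) 1 + (D 1 a x) 0), sq_nonneg ((D 0 a x) 0), sq_nonneg ((D 1 a x) 1),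
    sq_nonneg ((D 2 a x) 2)]

theorem Calc3b_divg (a : E3 → E3) (x : E3) :
    divg a x = (D 0 a x) 0 + (D 1 a x) 1 + (D 2 a x) 2 := by
  rw [divg, Fin.sum_univ_three]
  rfl

theorem divg_sq_le (a : E3 → E3) (x : E3) : (divg a x) ^ 2 ≤ 3 * ∑ i, ‖D i a x‖ ^ 2 := by
  rw [Fin.sum_univ_three, Calc3b_nsq, Calc3b_nsq, Calc3b_nsq, Calc3b_divg]
  nlinarith [sq_nonneg ((D 0 a x) 0 - (D 1 a x) 1), sq_nonneg ((D 1 a x) 1 - (D 2 a x) 2),
    sq_nonneg ((D 0 a x) 0 - (D 2 a x) 2), sq_nonneg ((D 0 a x) 1), sq_nonneg ((D 0 a x) 2),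
    sq_nonneg ((D 1 a x) 0), sq_nonneg ((D 1 a x) 2), sq_nonneg ((D 2 a x) 0),
    sq_nonneg ((D 2 a x) 1)]

theorem norm_grad_sq (h : E3 → ℝ) (x : E3) : ‖grad h x‖ ^ 2 = ∑ i, ‖D i h x‖ ^ 2 := by
  rw [Fin.sum_univ_three, Calc3b_nsq, Calc3b_grad, Calc3b_grad, Calc3b_grad, Real.norm_eq_abs,
    Real.norm_eq_abs, Real.norm_eq_abs, sq_abs, sq_abs, sq_abs]

theorem norm_adv_le (w : E3 → E3) (f : E3 → F) (x : E3) :
    ‖adv w f x‖ ^ 2 ≤ ‖w x‖ ^ 2 * ∑ i, ‖D i f x‖ ^ 2 := by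
  have h1 : ‖adv w f x‖ ≤ ∑ i, |(w x) i| * ‖D i f x‖ := by
    unfold adv
    refine (norm_sum_le _ _).trans (Finset.sum_le_sum fun i _ => ?_)
    rw [norm_smul, Real.norm_eq_abs]
  have h2 := Finset.sum_mul_sq_le_sq_mul_sq Finset.univ (fun i => |(w x) i|) (fun i => ‖D i f x‖)
  have h3 : ∑ i, |(w x) i| ^ 2 = ‖w x‖ ^ 2 := by
    rw [Fin.sum_univ_three, Calc3b_nsq, sq_abs, sq_abs, sq_abs]
  rw [h3] at h2
  exact (pow_le_pow_left₀ (norm_nonneg _) h1 2).trans h2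

theorem inner_grad (h : E3 → ℝ) (x y : E3) : inner ℝ (grad h x) y = fderiv ℝ h x y := by
  rw [fderiv_eq_sum, Calc3b_inner, Fin.sum_univ_three, Calc3b_grad, Calc3b_grad, Calc3b_grad,
    smul_eq_mul, smul_eq_mul, smul_eq_mul]
  ring

theorem cr_add_left (a b c : E3) : cr (a + b) c = cr a c + cr b c := by
  apply Calc3b_ext <;>
    simp only [PiLp.add_apply, Calc3b_cr0, Calc3b_cr1, Calc3b_cr2] <;> ring

theorem cr_add_right (a b c : E3) : cr a (b + c) = cr a b + cr a c := by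
  apply Calc3b_ext <;>
    simp only [PiLp.add_apply, Calc3b_cr0, Calc3b_cr1, Calc3b_cr2] <;> ring

theorem cr_smul_left (t : ℝ) (a b : E3) : cr (t • a) b = t • cr a b := by
  apply Calc3b_ext <;>
    simp only [PiLp.smul_apply, smul_eq_mul, Calc3b_cr0, Calc3b_cr1, Calc3b_cr2] <;> ring

theorem cr_smul_right (t : ℝ) (a b : E3) : cr a (t • b) = t • cr a b := by
  apply Calc3b_ext <;>
    simp only [PiLp.smul_apply, smul_eq_mul, Calc3b_cr0, Calc3b_cr1, Calc3b_cr2] <;> ring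

theorem cr_neg_left (a b : E3) : cr (-a) b = -cr a b := by
  apply Calc3b_ext <;>
    simp only [PiLp.neg_apply, Calc3b_cr0, Calc3b_cr1, Calc3b_cr2] <;> ring

theorem cr_anti (a b : E3) : cr a b = -cr b a := by
  apply Calc3b_ext <;>
    simp only [PiLp.neg_apply, Calc3b_cr0, Calc3b_cr1, Calc3b_cr2] <;> ring

theorem cr_self (a : E3) : cr a a = 0 := by
  apply Calc3b_ext <;>
    simp only [PiLp.zero_apply, Calc3b_cr0, Calc3b_cr1, Calc3b_cr2] <;> ring

theorem curl_add (ha : DifferentiableAt ℝ a x) (hb : DifferentiableAt ℝ b x) :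
    curl (fun y => a y + b y) x = curl a x + curl b x := by
  have h := fun i => D_add ha hb i
  apply Calc3b_ext <;>
    simp only [PiLp.add_apply, Calc3b_curl0, Calc3b_curl1, Calc3b_curl2, h] <;> ring

theorem curl_sub (ha : DifferentiableAt ℝ a x) (hb : DifferentiableAt ℝ b x) :
    curl (fun y => a y - b y) x = curl a x - curl b x := by
  have h := fun i => D_sub ha hb i
  apply Calc3b_ext <;>
    simp only [PiLp.sub_apply, Calc3b_curl0, Calc3b_curl1, Calc3b_curl2, h] <;> ring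

theorem curl_const_smul (ha : DifferentiableAt ℝ a x) (c : ℝ) :
    curl (fun y => c • a y) x = c • curl a x := by
  have h := fun i => D_const_smul ha c i
  apply Calc3b_ext <;>
    simp only [PiLp.smul_apply, smul_eq_mul, Calc3b_curl0, Calc3b_curl1, Calc3b_curl2, h] <;> ring

theorem divg_add (ha : DifferentiableAt ℝ a x) (hb : DifferentiableAt ℝ b x) :
    divg (fun y => a y + b y) x = divg a x + divg b x := by
  have h := fun i => D_add ha hb i
  simp only [Calc3b_divg, h, PiLp.add_apply]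
  ring

theorem divg_sub (ha : DifferentiableAt ℝ a x) (hb : DifferentiableAt ℝ b x) :
    divg (fun y => a y - b y) x = divg a x - divg b x := by
  have h := fun i => D_sub ha hb i
  simp only [Calc3b_divg, h, PiLp.sub_apply]
  ring

theorem curl_congr {a b : E3 → E3} {x : E3} (h : a =ᶠ[𝓝 x] b) : curl a x = curl b x := by
  have h := fun i => D_congr h i
  unfold curl
  simp only [h]

theorem divg_congr {a b : E3 → E3} {x : E3} (h : a =ᶠ[𝓝 x] b) : divg a x = divg b x := by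
  have h := fun i => D_congr h i
  simp only [Calc3b_divg, h]

end Pool.Agent.Helper60.EC
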