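import Pool.Agent.Helper60.EC.Calc1a
import Pool.Agent.Helper60.EC.Calc1b
import Pool.Agent.Helper60.EC.Calc3b

/-! Project EC, Calc3a: pointwise identities of vector calculus -/

set_option autoImplicit false

open MeasureTheory Set Filter Topology
open scoped ENNReal ContDiff

noncomputable section

namespace Pool.Agent.Helper60.EC

open Pool.Agent.Helper52.NSE (E3 pd divg TestField)

variable {F : Type} [NormedAddCommGroup F] [InnerProductSpace ℝ F]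
variable {f g : E3 → F} {χ h : E3 → ℝ} {a b w : E3 → E3} {x : E3}

theorem Calc3a_vdiff {f0 f1 f2 : E3 → ℝ} (h0 : DifferentiableAt ℝ f0 x)
    (h1 : DifferentiableAt ℝ f1 x) (h2 : DifferentiableAt ℝ f2 x) :
    DifferentiableAt ℝ (fun y => (!₂[f0 y, f1 y, f2 y] : E3)) x := by
  rw [differentiableAt_euclidean]
  intro i
  fin_cases i
  · exact h0
  · exact h1
  · exact h2

theorem Calc3a_Dvec {f0 f1 f2 : E3 → ℝ} (h0 : DifferentiableAt ℝ f0 x)
    (h1 : DifferentiableAt ℝ f1 x) (h2 : DifferentiableAt ℝ f2 x) (i : Fin 3) :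
    D i (fun y => (!₂[f0 y, f1 y, f2 y] : E3)) x = !₂[D i f0 x, D i f1 x, D i f2 x] := by
  have h := Calc3a_vdiff h0 h1 h2
  apply Calc3b_ext
  · rw [← D_apply h i 0]; rfl
  · rw [← D_apply h i 1]; rfl
  · rw [← D_apply h i 2]; rfl

theorem Calc3a_coord {u : E3 → E3} (hu : DifferentiableAt ℝ u x) (k : Fin 3) :
    DifferentiableAt ℝ (fun y => u y k) x :=
  (differentiableAt_euclidean.1 hu) k

theorem Calc3a_dD (hf : ContDiff ℝ 2 f) (i : Fin 3) (x : E3) : DifferentiableAt ℝ (D i f) x :=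
  ((D_contDiff hf (m := 1) (by norm_num) i).differentiable (by norm_num)) x

theorem Calc3a_c2 (hf : ContDiff ℝ 3 f) (i : Fin 3) : ContDiff ℝ 2 (D i f) :=
  D_contDiff hf (m := 2) (by norm_num) i

/-- difference of two components -/
theorem Calc3a_Dsub {u v : E3 → E3} (hu : DifferentiableAt ℝ u x) (hv : DifferentiableAt ℝ v x)
    (i k l : Fin 3) : D i (fun y => u y k - v y l) x = (D i u x) k - (D i v x) l := by
  rw [D_sub (Calc3a_coord hu k) (Calc3a_coord hv l), D_apply hu, D_apply hv]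

theorem Calc3a_Dcurl (ha : ContDiff ℝ 2 a) (i : Fin 3) (x : E3) :
    D i (curl a) x = !₂[(D i (D 1 a) x) 2 - (D i (D 2 a) x) 1,
      (D i (D 2 a) x) 0 - (D i (D 0 a) x) 2, (D i (D 0 a) x) 1 - (D i (D 1 a) x) 0] := by
  have hd := fun j => Calc3a_dD ha j x
  have hc := fun j k => Calc3a_coord (hd j) k
  change D i (fun y => (!₂[(D 1 a y) 2 - (D 2 a y) 1, (D 2 a y) 0 - (D 0 a y) 2,
    (D 0 a y) 1 - (D 1 a y) 0] : E3)) x = _
  rw [Calc3a_Dvec ((hc 1 2).fun_sub (hc 2 1)) ((hc 2 0).fun_sub (hc 0 2)) ((hc 0 1).fun_sub (hc 1 0)),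
    Calc3a_Dsub (hd 1) (hd 2), Calc3a_Dsub (hd 2) (hd 0), Calc3a_Dsub (hd 0) (hd 1)]

theorem Calc3a_Dgrad (hh : ContDiff ℝ 2 h) (i : Fin 3) (x : E3) :
    D i (grad h) x = !₂[D i (D 0 h) x, D i (D 1 h) x, D i (D 2 h) x] :=
  Calc3a_Dvec (Calc3a_dD hh 0 x) (Calc3a_dD hh 1 x) (Calc3a_dD hh 2 x) i

theorem Calc3a_Ddivg (ha : ContDiff ℝ 2 a) (i : Fin 3) (x : E3) :
    D i (divg a) x = (D i (D 0 a) x) 0 + (D i (D 1 a) x) 1 + (D i (D 2 a) x) 2 := by
  have hd := fun j => Calc3a_dD ha j x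
  have hc := fun j k => Calc3a_coord (hd j) k
  have he : divg a = fun y => ((D 0 a y) 0 + (D 1 a y) 1) + (D 2 a y) 2 := by
    funext y
    exact Calc3b_divg a y
  rw [he, D_add ((hc 0 0).fun_add (hc 1 1)) (hc 2 2), D_add (hc 0 0) (hc 1 1), D_apply (hd 0),
    D_apply (hd 1), D_apply (hd 2)]

theorem Calc3a_lap (f : E3 → F) (x : E3) :
    lap f x = D 0 (D 0 f) x + D 1 (D 1 f) x + D 2 (D 2 f) x := by
  rw [lap, Fin.sum_univ_three]

theorem Calc3a_Dlap (hf : ContDiff ℝ 3 f) (i : Fin 3) (x : E3) :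
    D i (lap f) x = D i (D 0 (D 0 f)) x + D i (D 1 (D 1 f)) x + D i (D 2 (D 2 f)) x := by
  have hd := fun j => Calc3a_dD (Calc3a_c2 hf j) j x
  have he : lap f = fun y => (D 0 (D 0 f) y + D 1 (D 1 f) y) + D 2 (D 2 f) y := by
    funext y
    exact Calc3a_lap f y
  rw [he, D_add ((hd 0).fun_add (hd 1)) (hd 2), D_add (hd 0) (hd 1)]

theorem Calc3a_comm3 (hf : ContDiff ℝ 3 f) (i j : Fin 3) (x : E3) :
    D i (D j (D j f)) x = D j (D j (D i f)) x := by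
  have h2 : ContDiff ℝ 2 f := hf.of_le (by norm_num)
  have he : D i (D j f) = D j (D i f) := funext fun y => D_comm h2 i j y
  rw [D_comm (Calc3a_c2 hf j) i j x, he]

theorem divg_curl (ha : ContDiff ℝ 2 a) (x : E3) : divg (curl a) x = 0 := by
  rw [Calc3b_divg, Calc3a_Dcurl ha, Calc3a_Dcurl ha, Calc3a_Dcurl ha]
  change ((D 0 (D 1 a) x) 2 - (D 0 (D 2 a) x) 1) + ((D 1 (D 2 a) x) 0 - (D 1 (D 0 a) x) 2) +
    ((D 2 (D 0 a) x) 1 - (D 2 (D 1 a) x) 0) = 0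
  rw [D_comm ha 1 0, D_comm ha 2 0, D_comm ha 2 1]
  ring

theorem curl_grad (hh : ContDiff ℝ 2 h) (x : E3) : curl (grad h) x = 0 := by
  apply Calc3b_ext
  · rw [Calc3b_curl0, Calc3a_Dgrad hh, Calc3a_Dgrad hh]
    change D 1 (D 2 h) x - D 2 (D 1 h) x = 0
    rw [D_comm hh 1 2, sub_self]
  · rw [Calc3b_curl1, Calc3a_Dgrad hh, Calc3a_Dgrad hh]
    change D 2 (D 0 h) x - D 0 (D 2 h) x = 0
    rw [D_comm hh 2 0, sub_self]
  · rw [Calc3b_curl2, Calc3a_Dgrad hh, Calc3a_Dgrad hh]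
    change D 0 (D 1 h) x - D 1 (D 0 h) x = 0
    rw [D_comm hh 0 1, sub_self]

theorem divg_grad (hh : ContDiff ℝ 2 h) (x : E3) : divg (grad h) x = lap h x := by
  rw [Calc3b_divg, Calc3a_Dgrad hh, Calc3a_Dgrad hh, Calc3a_Dgrad hh, Calc3a_lap]
  rfl

theorem curl_curl (ha : ContDiff ℝ 2 a) (x : E3) :
    curl (curl a) x = grad (divg a) x - lap a x := by
  have c01 := D_comm ha 0 1 x
  have c02 := D_comm ha 0 2 x
  have c12 := D_comm ha 1 2 x
  apply Calc3b_ext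
  · rw [Calc3b_curl0, Calc3a_Dcurl ha, Calc3a_Dcurl ha, PiLp.sub_apply, Calc3b_grad,
      Calc3a_Ddivg ha, Calc3a_lap, PiLp.add_apply, PiLp.add_apply]
    change ((D 1 (D 0 a) x) 1 - (D 1 (D 1 a) x) 0) - ((D 2 (D 2 a) x) 0 - (D 2 (D 0 a) x) 2) = _
    rw [c01, c02]
    ring
  · rw [Calc3b_curl1, Calc3a_Dcurl ha, Calc3a_Dcurl ha, PiLp.sub_apply, Calc3b_grad,
      Calc3a_Ddivg ha, Calc3a_lap, PiLp.add_apply, PiLp.add_apply]
    change ((D 2 (D 1 a) x) 2 - (D 2 (D 2 a) x) 1) - ((D 0 (D 0 a) x) 1 - (D 0 (D 1 a) x) 0) = _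
    rw [c01, c12]
    ring
  · rw [Calc3b_curl2, Calc3a_Dcurl ha, Calc3a_Dcurl ha, PiLp.sub_apply, Calc3b_grad,
      Calc3a_Ddivg ha, Calc3a_lap, PiLp.add_apply, PiLp.add_apply]
    change ((D 0 (D 2 a) x) 0 - (D 0 (D 0 a) x) 2) - ((D 1 (D 1 a) x) 2 - (D 1 (D 2 a) x) 1) = _
    rw [c02, c12]
    ring

theorem Calc3a_DDcurl (ha : ContDiff ℝ 3 a) (i : Fin 3) (x : E3) :
    D i (D i (curl a)) x = !₂[(D i (D i (D 1 a)) x) 2 - (D i (D i (D 2 a)) x) 1,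
      (D i (D i (D 2 a)) x) 0 - (D i (D i (D 0 a)) x) 2,
      (D i (D i (D 0 a)) x) 1 - (D i (D i (D 1 a)) x) 0] := by
  have h2 : ContDiff ℝ 2 a := ha.of_le (by norm_num)
  have he : D i (curl a) = fun y => (!₂[(D i (D 1 a) y) 2 - (D i (D 2 a) y) 1,
      (D i (D 2 a) y) 0 - (D i (D 0 a) y) 2, (D i (D 0 a) y) 1 - (D i (D 1 a) y) 0] : E3) :=
    funext fun y => Calc3a_Dcurl h2 i y
  have hd := fun j => Calc3a_dD (Calc3a_c2 ha j) i x
  have hc := fun j k => Calc3a_coord (hd j) k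
  rw [he, Calc3a_Dvec ((hc 1 2).fun_sub (hc 2 1)) ((hc 2 0).fun_sub (hc 0 2)) ((hc 0 1).fun_sub (hc 1 0)),
    Calc3a_Dsub (hd 1) (hd 2), Calc3a_Dsub (hd 2) (hd 0), Calc3a_Dsub (hd 0) (hd 1)]

theorem curl_lap (ha : ContDiff ℝ 3 a) (x : E3) : curl (lap a) x = lap (curl a) x := by
  have c := fun i j => Calc3a_comm3 ha i j x
  rw [Calc3a_lap (curl a), Calc3a_DDcurl ha, Calc3a_DDcurl ha, Calc3a_DDcurl ha]
  apply Calc3b_ext
  · rw [Calc3b_curl0, Calc3a_Dlap ha, Calc3a_Dlap ha]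
    simp only [PiLp.add_apply]
    change _ = ((D 0 (D 0 (D 1 a)) x) 2 - (D 0 (D 0 (D 2 a)) x) 1) +
      ((D 1 (D 1 (D 1 a)) x) 2 - (D 1 (D 1 (D 2 a)) x) 1) +
      ((D 2 (D 2 (D 1 a)) x) 2 - (D 2 (D 2 (D 2 a)) x) 1)
    rw [c 1 0, c 1 2, c 2 0, c 2 1]
    ring
  · rw [Calc3b_curl1, Calc3a_Dlap ha, Calc3a_Dlap ha]
    simp only [PiLp.add_apply]
    change _ = ((D 0 (D 0 (D 2 a)) x) 0 - (D 0 (D 0 (D 0 a)) x) 2) +
      ((D 1 (D 1 (D 2 a)) x) 0 - (D 1 (D 1 (D 0 a)) x) 2) +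
      ((D 2 (D 2 (D 2 a)) x) 0 - (D 2 (D 2 (D 0 a)) x) 2)
    rw [c 2 0, c 2 1, c 0 1, c 0 2]
    ring
  · rw [Calc3b_curl2, Calc3a_Dlap ha, Calc3a_Dlap ha]
    simp only [PiLp.add_apply]
    change _ = ((D 0 (D 0 (D 0 a)) x) 1 - (D 0 (D 0 (D 1 a)) x) 0) +
      ((D 1 (D 1 (D 0 a)) x) 1 - (D 1 (D 1 (D 1 a)) x) 0) +
      ((D 2 (D 2 (D 0 a)) x) 1 - (D 2 (D 2 (D 1 a)) x) 0)
    rw [c 0 1, c 0 2, c 1 0, c 1 2]
    ring

theorem divg_lap (ha : ContDiff ℝ 3 a) (x : E3) : divg (lap a) x = lap (divg a) x := by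
  have h2 : ContDiff ℝ 2 a := ha.of_le (by norm_num)
  have c := fun i j => Calc3a_comm3 ha i j x
  have hD : ∀ i, D i (D i (divg a)) x = (D i (D i (D 0 a)) x) 0 + (D i (D i (D 1 a)) x) 1 +
      (D i (D i (D 2 a)) x) 2 := by
    intro i
    have he : D i (divg a) = fun y => ((D i (D 0 a) y) 0 + (D i (D 1 a) y) 1) +
        (D i (D 2 a) y) 2 := funext fun y => Calc3a_Ddivg h2 i y
    have hd := fun j => Calc3a_dD (Calc3a_c2 ha j) i x
    have hc := fun j k => Calc3a_coord (hd j) k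
    rw [he, D_add ((hc 0 0).fun_add (hc 1 1)) (hc 2 2), D_add (hc 0 0) (hc 1 1), D_apply (hd 0),
      D_apply (hd 1), D_apply (hd 2)]
  rw [Calc3a_lap (divg a), hD, hD, hD, Calc3b_divg, Calc3a_Dlap ha, Calc3a_Dlap ha, Calc3a_Dlap ha]
  simp only [PiLp.add_apply]
  rw [c 0 1, c 0 2, c 1 0, c 1 2, c 2 0, c 2 1]
  ring

theorem grad_lap (hh : ContDiff ℝ 3 h) (x : E3) : grad (lap h) x = lap (grad h) x := by
  have h2 : ContDiff ℝ 2 h := hh.of_le (by norm_num)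
  have c := fun i j => Calc3a_comm3 hh i j x
  have hD : ∀ i, D i (D i (grad h)) x =
      !₂[D i (D i (D 0 h)) x, D i (D i (D 1 h)) x, D i (D i (D 2 h)) x] := by
    intro i
    have he : D i (grad h) = fun y => (!₂[D i (D 0 h) y, D i (D 1 h) y, D i (D 2 h) y] : E3) :=
      funext fun y => Calc3a_Dgrad h2 i y
    have hd := fun j => Calc3a_dD (Calc3a_c2 hh j) i x
    rw [he, Calc3a_Dvec (hd 0) (hd 1) (hd 2)]
  rw [Calc3a_lap (grad h), hD, hD, hD]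
  apply Calc3b_ext
  · rw [Calc3b_grad, Calc3a_Dlap hh]
    simp only [PiLp.add_apply]
    change _ = D 0 (D 0 (D 0 h)) x + D 1 (D 1 (D 0 h)) x + D 2 (D 2 (D 0 h)) x
    rw [c 0 1, c 0 2]
  · rw [Calc3b_grad, Calc3a_Dlap hh]
    simp only [PiLp.add_apply]
    change _ = D 0 (D 0 (D 1 h)) x + D 1 (D 1 (D 1 h)) x + D 2 (D 2 (D 1 h)) x
    rw [c 1 0, c 1 2]
  · rw [Calc3b_grad, Calc3a_Dlap hh]
    simp only [PiLp.add_apply]
    change _ = D 0 (D 0 (D 2 h)) x + D 1 (D 1 (D 2 h)) x + D 2 (D 2 (D 2 h)) x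
    rw [c 2 0, c 2 1]

theorem curl_sm (hχ : DifferentiableAt ℝ χ x) (ha : DifferentiableAt ℝ a x) :
    curl (sm χ a) x = cr (grad χ x) (a x) + χ x • curl a x := by
  have h := fun i => D_sm hχ ha i
  apply Calc3b_ext <;>
    simp only [PiLp.add_apply, PiLp.smul_apply, smul_eq_mul, Calc3b_curl0, Calc3b_curl1,
      Calc3b_curl2, Calc3b_cr0, Calc3b_cr1, Calc3b_cr2, Calc3b_grad, h] <;> ring

theorem divg_sm (hχ : DifferentiableAt ℝ χ x) (ha : DifferentiableAt ℝ a x) :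
    divg (sm χ a) x = inner ℝ (grad χ x) (a x) + χ x * divg a x := by
  have h := fun i => D_sm hχ ha i
  simp only [Calc3b_divg, Calc3b_inner, Calc3b_grad, PiLp.add_apply, PiLp.smul_apply, smul_eq_mul,
    h]
  ring

theorem grad_mul (hχ : DifferentiableAt ℝ χ x) (hh : DifferentiableAt ℝ h x) :
    grad (fun y => χ y * h y) x = χ x • grad h x + h x • grad χ x := by
  have h' := fun i => D_mul hχ hh i
  apply Calc3b_ext <;>
    simp only [PiLp.add_apply, PiLp.smul_apply, smul_eq_mul, Calc3b_grad, h'] <;> ring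

theorem lap_sm (hχ : ContDiff ℝ 2 χ) (hf : ContDiff ℝ 2 f) (x : E3) :
    lap (sm χ f) x = χ x • lap f x + (2 : ℝ) • (∑ i, D i χ x • D i f x) + lap χ x • f x := by
  have dχ : Differentiable ℝ χ := hχ.differentiable (by norm_num)
  have df : Differentiable ℝ f := hf.differentiable (by norm_num)
  have hD : ∀ i, D i (D i (sm χ f)) x =
      χ x • D i (D i f) x + (2 : ℝ) • (D i χ x • D i f x) + D i (D i χ) x • f x := by
    intro i
    have he : D i (sm χ f) = fun y => sm (D i χ) f y + sm χ (D i f) y :=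
      funext fun y => D_sm (dχ y) (df y) i
    have e1 : DifferentiableAt ℝ (sm (D i χ) f) x := (Calc3a_dD hχ i x).fun_smul (df x)
    have e2 : DifferentiableAt ℝ (sm χ (D i f)) x := (dχ x).fun_smul (Calc3a_dD hf i x)
    rw [he, D_add e1 e2, D_sm (Calc3a_dD hχ i x) (df x), D_sm (dχ x) (Calc3a_dD hf i x), two_smul]
    abel
  unfold lap
  rw [Finset.sum_congr rfl fun i _ => hD i, Finset.sum_add_distrib, Finset.sum_add_distrib,
    ← Finset.smul_sum, ← Finset.smul_sum, ← Finset.sum_smul]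

theorem divg_cr (ha : DifferentiableAt ℝ a x) (hb : DifferentiableAt ℝ b x) :
    divg (fun y => cr (a y) (b y)) x = inner ℝ (b x) (curl a x) - inner ℝ (a x) (curl b x) := by
  have ca := fun k => Calc3a_coord ha k
  have cb := fun k => Calc3a_coord hb k
  have hm : ∀ (i k l k' l' : Fin 3), D i (fun y => a y k * b y l - a y k' * b y l') x =
      ((D i a x) k * b x l + a x k * (D i b x) l) -
        ((D i a x) k' * b x l' + a x k' * (D i b x) l') := by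
    intro i k l k' l'
    rw [D_sub ((ca k).fun_mul (cb l)) ((ca k').fun_mul (cb l')), D_mul (ca k) (cb l),
      D_mul (ca k') (cb l'), D_apply ha, D_apply hb, D_apply ha, D_apply hb]
  have hD : ∀ i, D i (fun y => cr (a y) (b y)) x =
      !₂[D i (fun y => a y 1 * b y 2 - a y 2 * b y 1) x,
        D i (fun y => a y 2 * b y 0 - a y 0 * b y 2) x,
        D i (fun y => a y 0 * b y 1 - a y 1 * b y 0) x] := fun i =>
    Calc3a_Dvec (((ca 1).fun_mul (cb 2)).fun_sub ((ca 2).fun_mul (cb 1)))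
      (((ca 2).fun_mul (cb 0)).fun_sub ((ca 0).fun_mul (cb 2))) (((ca 0).fun_mul (cb 1)).fun_sub ((ca 1).fun_mul (cb 0))) i
  rw [Calc3b_divg, hD, hD, hD]
  change D 0 (fun y => a y 1 * b y 2 - a y 2 * b y 1) x +
    D 1 (fun y => a y 2 * b y 0 - a y 0 * b y 2) x +
    D 2 (fun y => a y 0 * b y 1 - a y 1 * b y 0) x = _
  rw [hm, hm, hm, Calc3b_inner, Calc3b_inner]
  simp only [Calc3b_curl0, Calc3b_curl1, Calc3b_curl2]
  ring

/-- `(w·∇)w = (curl w) × w + ∇|w|²/2` -/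
theorem adv_self (hw : DifferentiableAt ℝ w x) :
    adv w w x = cr (curl w x) (w x) + (1 / 2 : ℝ) • grad (fun y => ‖w y‖ ^ 2) x := by
  have hs : (fun y => ‖w y‖ ^ 2) = fun y => (inner ℝ (w y) (w y) : ℝ) := by
    funext y
    rw [real_inner_self_eq_norm_sq]
  have hg : ∀ i, D i (fun y => ‖w y‖ ^ 2) x = 2 * inner ℝ (D i w x) (w x) := by
    intro i
    rw [hs, D_inner hw hw, real_inner_comm (w x)]
    ring
  have ha : ∀ k, adv w w x k = (w x) 0 * (D 0 w x) k + (w x) 1 * (D 1 w x) k +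
      (w x) 2 * (D 2 w x) k := by
    intro k
    rw [adv, Fin.sum_univ_three]
    simp only [PiLp.add_apply, PiLp.smul_apply, smul_eq_mul]
  apply Calc3b_ext <;>
    simp only [ha, PiLp.add_apply, PiLp.smul_apply, smul_eq_mul, Calc3b_cr0, Calc3b_cr1,
      Calc3b_cr2, Calc3b_curl0, Calc3b_curl1, Calc3b_curl2, Calc3b_grad, hg, Calc3b_inner] <;> ring

/-- `(curl a) × w = (w·∇)a - w_j ∇a_j` -/
theorem cr_curl (ha : DifferentiableAt ℝ a x) (w : E3) :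
    cr (curl a x) w = (∑ i, w i • D i a x) - !₂[inner ℝ w (D 0 a x), inner ℝ w (D 1 a x),
      inner ℝ w (D 2 a x)] := by
  have hs : ∀ k, (∑ i, w i • D i a x) k = w 0 * (D 0 a x) k + w 1 * (D 1 a x) k +
      w 2 * (D 2 a x) k := by
    intro k
    rw [Fin.sum_univ_three]
    simp only [PiLp.add_apply, PiLp.smul_apply, smul_eq_mul]
  have e0 : (!₂[inner ℝ w (D 0 a x), inner ℝ w (D 1 a x), inner ℝ w (D 2 a x)] : E3) 0 =
      inner ℝ w (D 0 a x) := rfl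
  have e1 : (!₂[inner ℝ w (D 0 a x), inner ℝ w (D 1 a x), inner ℝ w (D 2 a x)] : E3) 1 =
      inner ℝ w (D 1 a x) := rfl
  have e2 : (!₂[inner ℝ w (D 0 a x), inner ℝ w (D 1 a x), inner ℝ w (D 2 a x)] : E3) 2 =
      inner ℝ w (D 2 a x) := rfl
  apply Calc3b_ext
  · rw [PiLp.sub_apply, hs, e0]
    simp only [Calc3b_cr0, Calc3b_curl1, Calc3b_curl2, Calc3b_inner]
    ring
  · rw [PiLp.sub_apply, hs, e1]
    simp only [Calc3b_cr1, Calc3b_curl0, Calc3b_curl2, Calc3b_inner]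
    ring
  · rw [PiLp.sub_apply, hs, e2]
    simp only [Calc3b_cr2, Calc3b_curl0, Calc3b_curl1, Calc3b_inner]
    ring

end Pool.Agent.Helper60.EC
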