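import Pool.Agent.Helper60.EC.Calc1

/-! Project EC, Cpt: a compactness lemma (Arzelà-Ascoli) -/

set_option autoImplicit false

open MeasureTheory Set Filter Topology
open scoped ENNReal ContDiff

noncomputable section

namespace Pool.Agent.Helper60.EC

open Pool.Agent.Helper52.NSE (E3 pd divg TestField)

/-- a pointwise bounded and asymptotically equicontinuous sequence on a separable space has a
pointwise convergent subsequence -/
theorem exists_subseq {X : Type} [TopologicalSpace X] [TopologicalSpace.SeparableSpace X]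
    (f : ℕ → X → E3) (hb : ∀ x, ∃ M : ℝ, ∀ n, ‖f n x‖ ≤ M)
    (he : ∀ x, ∀ ε : ℝ, 0 < ε → ∃ U ∈ 𝓝 x, ∃ n₀ : ℕ, ∀ n, n₀ ≤ n → ∀ y ∈ U, ‖f n y - f n x‖ ≤ ε) :
    ∃ φ : ℕ → ℕ, StrictMono φ ∧ ∃ g : X → E3, ∀ x, Tendsto (fun n => f (φ n) x) atTop (𝓝 (g x)) := by
  rcases isEmpty_or_nonempty X with hX | hX
  · exact ⟨id, strictMono_id, fun _ => 0, fun x => (hX.false x).elim⟩
  choose M hM using hb
  let d : ℕ → X := TopologicalSpace.denseSeq X
  have hd : DenseRange d := TopologicalSpace.denseRange_denseSeq X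
  have hcpt : IsCompact (Set.pi univ fun k : ℕ => Metric.closedBall (0 : E3) (M (d k))) :=
    isCompact_univ_pi fun k => isCompact_closedBall _ _
  have hmem : ∀ n, (fun k => f n (d k)) ∈
      (Set.pi univ fun k : ℕ => Metric.closedBall (0 : E3) (M (d k))) := by
    intro n k _
    rw [mem_closedBall_zero_iff]
    exact hM (d k) n
  obtain ⟨a, _, φ, hφ, hlim⟩ := hcpt.tendsto_subseq hmem
  refine ⟨φ, hφ, ?_⟩
  have hk : ∀ k, Tendsto (fun n => f (φ n) (d k)) atTop (𝓝 (a k)) := by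
    intro k
    exact (tendsto_pi_nhds.1 hlim) k
  have hex : ∀ x, ∃ y, Tendsto (fun n => f (φ n) x) atTop (𝓝 y) := by
    intro x
    apply cauchySeq_tendsto_of_complete
    rw [Metric.cauchySeq_iff]
    intro ε hε
    obtain ⟨U, hU, n₀, hn₀⟩ := he x (ε / 4) (by linarith)
    obtain ⟨k, hkU⟩ : ∃ k, d k ∈ U := by
      obtain ⟨V, hVU, hV, hxV⟩ := mem_nhds_iff.1 hU
      obtain ⟨k, hk'⟩ := hd.exists_mem_open hV ⟨x, hxV⟩
      exact ⟨k, hVU hk'⟩
    obtain ⟨N, hN⟩ := Metric.cauchySeq_iff.1 (hk k).cauchySeq (ε / 4) (by linarith)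
    refine ⟨max N n₀, fun m hm n hn => ?_⟩
    have h1 : ‖f (φ m) (d k) - f (φ m) x‖ ≤ ε / 4 :=
      hn₀ (φ m) (((le_max_right N n₀).trans hm).trans (hφ.id_le m)) (d k) hkU
    have h2 : ‖f (φ n) (d k) - f (φ n) x‖ ≤ ε / 4 :=
      hn₀ (φ n) (((le_max_right N n₀).trans hn).trans (hφ.id_le n)) (d k) hkU
    have h3 : ‖f (φ m) (d k) - f (φ n) (d k)‖ < ε / 4 := by
      have := hN m ((le_max_left N n₀).trans hm) n ((le_max_left N n₀).trans hn)
      rwa [dist_eq_norm] at this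
    have e : f (φ m) x - f (φ n) x = -(f (φ m) (d k) - f (φ m) x) +
        (f (φ m) (d k) - f (φ n) (d k)) + (f (φ n) (d k) - f (φ n) x) := by abel
    rw [dist_eq_norm, e]
    calc ‖-(f (φ m) (d k) - f (φ m) x) + (f (φ m) (d k) - f (φ n) (d k)) +
          (f (φ n) (d k) - f (φ n) x)‖
        ≤ ‖-(f (φ m) (d k) - f (φ m) x)‖ + ‖f (φ m) (d k) - f (φ n) (d k)‖ +
          ‖f (φ n) (d k) - f (φ n) x‖ := norm_add₃_le
      _ < ε := by
        rw [norm_neg]
        linarith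
  choose g hg using hex
  exact ⟨g, hg⟩

end Pool.Agent.Helper60.EC
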