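import Pool.Agent.Helper60.EC.D1a

/-! Project EC, D1b: continuity -/

set_option autoImplicit false

open MeasureTheory Set Filter Topology
open scoped ENNReal ContDiff

noncomputable section

namespace Pool.Agent.Helper60.EC

open Pool.Agent.Helper52.NSE (E3 pd divg TestField)

variable {C₁ C₂ C₃ E₀ : ℝ} {v : ℝ → E3 → E3}

theorem D1b_pow {a b : ℝ} (ha : 0 ≤ a) (h : a ^ 5 ≤ b) : a ≤ b ^ (1 / 5 : ℝ) := by
  have h1 : (a ^ 5) ^ (1 / 5 : ℝ) = a := by
    rw [← Real.rpow_natCast, ← Real.rpow_mul ha]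
    norm_num
  rw [← h1]
  exact Real.rpow_le_rpow (by positivity) h (by norm_num)

/-- joint continuity -/
theorem Anc.cont (h : Anc C₁ C₂ C₃ E₀ v) :
    ContinuousOn (fun p : ℝ × E3 => v p.1 p.2) (Iio 0 ×ˢ univ) := by
  obtain ⟨C, hC, hT⟩ := Anc_time C₁ C₃
  have hT := hT C₂ E₀ v h
  rintro ⟨s₀, x₀⟩ hp
  have hs₀ : s₀ < 0 := hp.1
  set F : ℝ × E3 → ℝ := fun p => C₁ / (-p.1) * ‖p.2 - x₀‖ +
    (C * |p.1 - s₀| / (-(max p.1 s₀)) ^ 4) ^ (1 / 5 : ℝ) with hF
  have hmax : ∀ p : ℝ × E3, p.1 < 0 → max p.1 s₀ < 0 := fun p hp => max_lt hp hs₀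
  have hFc : Tendsto F (𝓝[Iio 0 ×ˢ univ] (s₀, x₀)) (𝓝 0) := by
    have h0 : F (s₀, x₀) = 0 := by
      rw [hF]
      simp
    have hc : ContinuousAt F (s₀, x₀) := by
      have e1 : ContinuousAt (fun p : ℝ × E3 => C₁ / (-p.1) * ‖p.2 - x₀‖) (s₀, x₀) := by
        refine ContinuousAt.mul (ContinuousAt.div continuousAt_const
          (continuous_fst.neg.continuousAt) ?_) (by fun_prop)
        simp only [ne_eq, neg_eq_zero]
        exact hs₀.ne
      have e2 : ContinuousAt (fun p : ℝ × E3 => C * |p.1 - s₀| / (-(max p.1 s₀)) ^ 4)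
          (s₀, x₀) := by
        refine ContinuousAt.div (by fun_prop) (by fun_prop) ?_
        simp only [max_self]
        have : 0 < -s₀ := by linarith
        positivity
      refine e1.add (e2.rpow_const ?_)
      right
      norm_num
    have := hc.tendsto
    rw [h0] at this
    exact this.mono_left nhdsWithin_le_nhds
  have hb : ∀ᶠ p in 𝓝[Iio 0 ×ˢ univ] (s₀, x₀),
      dist (v p.1 p.2) (v s₀ x₀) ≤ F p := by
    filter_upwards [self_mem_nhdsWithin] with p hp
    have hp1 : p.1 < 0 := hp.1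
    rw [dist_eq_norm]
    have e1 : ‖v p.1 p.2 - v p.1 x₀‖ ≤ C₁ / (-p.1) * ‖p.2 - x₀‖ := h.lip _ hp1 _ _
    have e2 : ‖v p.1 x₀ - v s₀ x₀‖ ≤ (C * |p.1 - s₀| / (-(max p.1 s₀)) ^ 4) ^ (1 / 5 : ℝ) := by
      rcases lt_trichotomy p.1 s₀ with hlt | heq | hgt
      · have h1 := hT p.1 s₀ hlt hs₀ x₀
        rw [norm_sub_rev] at h1
        have := D1b_pow (norm_nonneg _) h1
        rw [max_eq_right hlt.le, abs_sub_comm, abs_of_pos (by linarith)]
        exact this
      · rw [heq]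
        simp
      · have h1 := hT s₀ p.1 hgt hp1 x₀
        have := D1b_pow (norm_nonneg _) h1
        rw [max_eq_left hgt.le, abs_of_pos (by linarith)]
        exact this
    calc ‖v p.1 p.2 - v s₀ x₀‖ = ‖(v p.1 p.2 - v p.1 x₀) + (v p.1 x₀ - v s₀ x₀)‖ := by
          congr 1
          abel
      _ ≤ ‖v p.1 p.2 - v p.1 x₀‖ + ‖v p.1 x₀ - v s₀ x₀‖ := norm_add_le _ _
      _ ≤ F p := add_le_add e1 e2
  rw [ContinuousWithinAt, tendsto_iff_dist_tendsto_zero]
  exact squeeze_zero' (Eventually.of_forall fun _ => dist_nonneg) hb hFc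

theorem D1b_sqOn_le {w : E3 → E3} (hw : MemLp w 2 volume) (U : Set E3) :
    sqOn U w ≤ sq w := by
  unfold sqOn sq
  exact setIntegral_le_integral (hw.integrable_norm_pow (by norm_num))
    (Eventually.of_forall fun x => by positivity)

/-- continuity of the localised energies in time -/
theorem Anc.contZ (h : Anc C₁ C₂ C₃ E₀ v) {χ : E3 → ℝ} (hχ : Cc χ) :
    ContinuousOn (fun s => Zf χ (v s)) (Iio 0) := by
  obtain ⟨R, K, hR, hK, hcut⟩ := cut_of_cc hχ 0
  obtain ⟨C, hC, hZ⟩ := Zf_abs_sub_le K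
  intro s₀ hs₀
  have hs₀ : s₀ < 0 := hs₀
  set F : ℝ → ℝ := fun s => C * Real.sqrt (C₃ * |s - s₀| / (-(max s s₀))) with hF
  have hFc : Tendsto F (𝓝[Iio 0] s₀) (𝓝 0) := by
    have h0 : F s₀ = 0 := by
      rw [hF]
      simp
    have hc : ContinuousAt F s₀ := by
      have e2 : ContinuousAt (fun s : ℝ => C₃ * |s - s₀| / (-(max s s₀))) s₀ := by
        refine ContinuousAt.div (by fun_prop) (by fun_prop) ?_
        simp only [max_self, ne_eq, neg_eq_zero]
        exact hs₀.ne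
      exact continuousAt_const.mul e2.sqrt
    have := hc.tendsto
    rw [h0] at this
    exact this.mono_left nhdsWithin_le_nhds
  have hb : ∀ᶠ s in 𝓝[Iio 0] s₀, dist (Zf χ (v s)) (Zf χ (v s₀)) ≤ F s := by
    filter_upwards [self_mem_nhdsWithin] with s hs
    have hs : s < 0 := hs
    rw [Real.dist_eq]
    refine (hZ 0 R χ hR hcut (v s) (v s₀) (h.l2 s hs) (h.l2 s₀ hs₀)).trans ?_
    rw [hF]
    refine mul_le_mul_of_nonneg_left (Real.sqrt_le_sqrt ?_) hC
    have hm : MemLp (fun x => v s x - v s₀ x) 2 volume := (h.l2 s hs).sub (h.l2 s₀ hs₀)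
    refine (D1b_sqOn_le hm _).trans ?_
    rcases lt_trichotomy s s₀ with hlt | heq | hgt
    · have h1 := h.time s s₀ hlt hs₀
      have e : sq (fun x => v s x - v s₀ x) = sq (fun x => v s₀ x - v s x) := by
        unfold sq
        congr 1
        funext x
        rw [norm_sub_rev]
      rw [e, max_eq_right hlt.le, abs_sub_comm, abs_of_pos (by linarith)]
      exact h1
    · subst heq
      unfold sq
      simp
    · have h1 := h.time s₀ s hgt hs
      rw [max_eq_left hgt.le, abs_of_pos (by linarith)]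
      exact h1
  rw [ContinuousWithinAt, tendsto_iff_dist_tendsto_zero]
  exact squeeze_zero' (Eventually.of_forall fun _ => dist_nonneg) hb hFc

end Pool.Agent.Helper60.EC
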