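import Pool.Agent.Helper60.EC.Z0
import Pool.Agent.Helper60.EC.Calc2b

/-! Project EC, D1a: supremum bounds -/

set_option autoImplicit false

open MeasureTheory Set Filter Topology
open scoped ENNReal ContDiff

noncomputable section

namespace Pool.Agent.Helper60.EC

open Pool.Agent.Helper52.NSE (E3 pd divg TestField)

variable {C₁ C₂ C₃ E₀ : ℝ} {v : ℝ → E3 → E3}

/-- Lipschitz functions with small energy are small -/
theorem sup_le_energy : ∃ c : ℝ, 0 < c ∧ ∀ (w : E3 → E3) (L : ℝ), 0 < L →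
    (∀ x y, ‖w x - w y‖ ≤ L * ‖x - y‖) → MemLp w 2 volume →
      ∀ x, c * ‖w x‖ ^ 5 ≤ L ^ 3 * sqOn (Metric.ball x (‖w x‖ / (2 * L))) w := by
  have hV : 0 < volume.real (Metric.ball (0 : E3) 1) := by
    have h1 : 0 < volume (Metric.ball (0 : E3) 1) := Metric.measure_ball_pos _ _ one_pos
    exact ENNReal.toReal_pos h1.ne' measure_ball_lt_top.ne
  refine ⟨volume.real (Metric.ball (0 : E3) 1) / 32, by positivity, ?_⟩
  intro w L hL hw hm x
  set r := ‖w x‖ / (2 * L) with hr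
  have hr0 : 0 ≤ r := by positivity
  have hvol : volume.real (Metric.ball x r) = r ^ 3 * volume.real (Metric.ball (0 : E3) 1) := by
    have h := Measure.addHaar_ball (volume : Measure E3) x hr0
    rw [finrank_euclideanSpace_fin] at h
    rw [measureReal_def, h, ENNReal.toReal_mul, ENNReal.toReal_ofReal (by positivity)]
    rfl
  have hsq : Integrable (fun y => ‖w y‖ ^ 2) volume := by
    have := hm.integrable_norm_pow (by norm_num : (2 : ℕ) ≠ 0)
    exact this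
  have hlow : ∀ y ∈ Metric.ball x r, (‖w x‖ / 2) ^ 2 ≤ ‖w y‖ ^ 2 := by
    intro y hy
    have h1 : ‖x - y‖ < r := by
      have := Metric.mem_ball.1 hy
      rwa [dist_comm, dist_eq_norm] at this
    have h2 : ‖w x‖ - ‖w y‖ ≤ L * r := by
      refine (norm_sub_norm_le _ _).trans ((hw x y).trans ?_)
      exact mul_le_mul_of_nonneg_left h1.le hL.le
    have h3 : L * r = ‖w x‖ / 2 := by
      rw [hr]; field_simp
    have h4 : ‖w x‖ / 2 ≤ ‖w y‖ := by rw [h3] at h2; linarith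
    exact pow_le_pow_left₀ (by positivity) h4 2
  have hint : (‖w x‖ / 2) ^ 2 * volume.real (Metric.ball x r) ≤ sqOn (Metric.ball x r) w := by
    have h1 : ∫ y in Metric.ball x r, (‖w x‖ / 2) ^ 2 ≤ ∫ y in Metric.ball x r, ‖w y‖ ^ 2 := by
      refine setIntegral_mono_on ?_ hsq.integrableOn Metric.isOpen_ball.measurableSet hlow
      exact integrableOn_const measure_ball_lt_top.ne
    rw [setIntegral_const, smul_eq_mul, mul_comm] at h1
    exact h1
  rw [hvol] at hint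
  have h5 : L ^ 3 * ((‖w x‖ / 2) ^ 2 * (r ^ 3 * volume.real (Metric.ball (0 : E3) 1))) =
      volume.real (Metric.ball (0 : E3) 1) / 32 * ‖w x‖ ^ 5 := by
    rw [hr]
    field_simp
    ring
  rw [← h5]
  exact mul_le_mul_of_nonneg_left hint (by positivity)

/-- the supremum bound; `A` depends on `C₁` and `E₀` only -/
theorem Anc_sup (C₁ E₀ : ℝ) : ∃ A : ℝ, 0 < A ∧ ∀ (C₂ C₃ : ℝ) (v : ℝ → E3 → E3),
    Anc C₁ C₂ C₃ E₀ v → ∀ s < 0, ∀ x, ‖v s x‖ ≤ A * (-s) ^ (-(3 / 5) : ℝ) := by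
  obtain ⟨c, hc, hsup⟩ := sup_le_energy
  set B : ℝ := (|C₁| + 1) ^ 3 * |E₀| / c + 1 with hB
  have hB0 : 0 < B := by positivity
  refine ⟨B ^ (1 / 5 : ℝ), by positivity, ?_⟩
  intro C₂ C₃ v h s hs x
  have hs' : 0 < -s := by linarith
  set L : ℝ := (|C₁| + 1) / (-s) with hLdef
  have hL : 0 < L := by positivity
  have hlip : ∀ x y, ‖v s x - v s y‖ ≤ L * ‖x - y‖ := fun x y =>
    (h.lip s hs x y).trans (mul_le_mul_of_nonneg_right (by
      rw [hLdef]
      exact div_le_div_of_nonneg_right (by linarith [le_abs_self C₁]) hs'.le) (norm_nonneg _))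
  have h1 := hsup (v s) L hL hlip (h.l2 s hs) x
  have h2 : sqOn (Metric.ball x (‖v s x‖ / (2 * L))) (v s) ≤ |E₀| :=
    (sqOn_le_sq _ (h.l2 s hs)).trans ((h.energy s hs).trans (le_abs_self _))
  have h3 : c * ‖v s x‖ ^ 5 ≤ L ^ 3 * |E₀| :=
    h1.trans (mul_le_mul_of_nonneg_left h2 (by positivity))
  have h4 : ‖v s x‖ ^ 5 ≤ B * ((-s) ^ 3)⁻¹ := by
    have h5 : ‖v s x‖ ^ 5 ≤ L ^ 3 * |E₀| / c := by
      rw [le_div_iff₀ hc]; linarith
    refine h5.trans ?_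
    have h6 : L ^ 3 * |E₀| / c = ((|C₁| + 1) ^ 3 * |E₀| / c) * ((-s) ^ 3)⁻¹ := by
      rw [hLdef]; field_simp
    rw [h6]
    exact mul_le_mul_of_nonneg_right (by rw [hB]; linarith) (by positivity)
  have h7 : (B ^ (1 / 5 : ℝ) * (-s) ^ (-(3 / 5) : ℝ)) ^ 5 = B * ((-s) ^ 3)⁻¹ := by
    rw [mul_pow]
    congr 1
    · rw [← Real.rpow_natCast (B ^ (1 / 5 : ℝ)) 5, ← Real.rpow_mul hB0.le]
      norm_num
    · rw [← Real.rpow_natCast ((-s) ^ (-(3 / 5) : ℝ)) 5, ← Real.rpow_mul hs'.le]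
      have : (-(3 / 5) : ℝ) * ((5 : ℕ) : ℝ) = -((3 : ℕ) : ℝ) := by norm_num
      rw [this, Real.rpow_neg hs'.le, Real.rpow_natCast]
  rw [← h7] at h4
  exact le_of_pow_le_pow_left₀ (by norm_num) (by positivity) h4

theorem Anc.sup (h : Anc C₁ C₂ C₃ E₀ v) :
    ∃ A : ℝ, 0 < A ∧ ∀ s < 0, ∀ x, ‖v s x‖ ≤ A * (-s) ^ (-(3 / 5) : ℝ) := by
  obtain ⟨A, hA, h1⟩ := Anc_sup C₁ E₀
  exact ⟨A, hA, h1 C₂ C₃ v h⟩

/-- uniform continuity in time; `C` depends on `C₁` and `C₃` only -/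
theorem Anc_time (C₁ C₃ : ℝ) : ∃ C : ℝ, 0 < C ∧ ∀ (C₂ E₀ : ℝ) (v : ℝ → E3 → E3),
    Anc C₁ C₂ C₃ E₀ v → ∀ s t : ℝ, s < t → t < 0 → ∀ x,
      ‖v t x - v s x‖ ^ 5 ≤ C * (t - s) / (-t) ^ 4 := by
  obtain ⟨c, hc, hsup⟩ := sup_le_energy
  refine ⟨(2 * |C₁| + 1) ^ 3 * |C₃| / c + 1, by positivity, ?_⟩
  intro C₂ E₀ v h s t hst ht x
  have ht' : 0 < -t := by linarith
  have hs : s < 0 := hst.trans ht
  have hs' : 0 < -s := by linarith
  have hts : 0 < t - s := by linarith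
  set L : ℝ := (2 * |C₁| + 1) / (-t) with hLdef
  have hL : 0 < L := by positivity
  have hlip : ∀ x y, ‖(v t x - v s x) - (v t y - v s y)‖ ≤ L * ‖x - y‖ := by
    intro x y
    have e : (v t x - v s x) - (v t y - v s y) = (v t x - v t y) - (v s x - v s y) := by abel
    rw [e]
    refine (norm_sub_le _ _).trans ?_
    have a1 := h.lip t ht x y
    have a2 := h.lip s hs x y
    have b1 : C₁ / (-t) ≤ |C₁| / (-t) := div_le_div_of_nonneg_right (le_abs_self _) ht'.le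
    have b2 : C₁ / (-s) ≤ |C₁| / (-t) :=
      (div_le_div_of_nonneg_right (le_abs_self _) hs'.le).trans
        (div_le_div_of_nonneg_left (abs_nonneg _) ht' (by linarith))
    have b3 : L = |C₁| / (-t) + |C₁| / (-t) + 1 / (-t) := by
      rw [hLdef]; field_simp; ring
    have b4 : 0 < 1 / (-t) := by positivity
    calc ‖v t x - v t y‖ + ‖v s x - v s y‖
        ≤ C₁ / (-t) * ‖x - y‖ + C₁ / (-s) * ‖x - y‖ := add_le_add a1 a2
      _ = (C₁ / (-t) + C₁ / (-s)) * ‖x - y‖ := by ring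
      _ ≤ L * ‖x - y‖ := mul_le_mul_of_nonneg_right (by rw [b3]; linarith) (norm_nonneg _)
  have hm : MemLp (fun x => v t x - v s x) 2 volume := (h.l2 t ht).sub (h.l2 s hs)
  have h1 := hsup (fun x => v t x - v s x) L hL hlip hm x
  have h2 := (sqOn_le_sq (Metric.ball x (‖v t x - v s x‖ / (2 * L))) hm).trans (h.time s t hst ht)
  have h2' : C₃ * (t - s) / (-t) ≤ |C₃| * (t - s) / (-t) :=
    div_le_div_of_nonneg_right (mul_le_mul_of_nonneg_right (le_abs_self _) hts.le) ht'.le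
  have h3 : c * ‖v t x - v s x‖ ^ 5 ≤ L ^ 3 * (|C₃| * (t - s) / (-t)) :=
    h1.trans (mul_le_mul_of_nonneg_left (h2.trans h2') (by positivity))
  have h5 : ‖v t x - v s x‖ ^ 5 ≤ L ^ 3 * (|C₃| * (t - s) / (-t)) / c := by
    rw [le_div_iff₀ hc]; linarith
  refine h5.trans ?_
  have h6 : L ^ 3 * (|C₃| * (t - s) / (-t)) / c =
      ((2 * |C₁| + 1) ^ 3 * |C₃| / c) * (t - s) / (-t) ^ 4 := by
    rw [hLdef]; field_simp
  rw [h6]
  refine div_le_div_of_nonneg_right (mul_le_mul_of_nonneg_right (by linarith) hts.le) (by positivity)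

end Pool.Agent.Helper60.EC
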