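import Pool.Agent.Helper60.EC.Calc3

/-! Project EC, P7: the homotopy formulas of Poincaré -/

set_option autoImplicit false

open MeasureTheory Set Filter Topology
open scoped ENNReal ContDiff

noncomputable section

set_option linter.unusedSimpArgs false

namespace Pool.Agent.Helper60.EC

open Pool.Agent.Helper52.NSE (E3 pd divg TestField)

/-- smoothness of a parametric integral -/
theorem P7_smooth {F : Type} [NormedAddCommGroup F] [InnerProductSpace ℝ F] [FiniteDimensional ℝ F]
    {G : E3 → ℝ → F} (hG : ContDiff ℝ ∞ (fun p : E3 × ℝ => G p.1 p.2)) :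
    ContDiff ℝ ∞ (fun x => ∫ t in (0 : ℝ)..1, G x t) := by
  have := FiniteDimensional.complete ℝ F
  let b : ContDiffBump (0 : ℝ) := ⟨2, 3, by norm_num, by norm_num⟩
  let f : ℝ → ℝ := indicator (Ioc 0 1) fun _ => 1
  let g : E3 → ℝ → F := fun x u => b u • G x (-u)
  have hf : LocallyIntegrable f volume := by
    refine Integrable.locallyIntegrable ?_
    rw [integrable_indicator_iff measurableSet_Ioc]
    exact integrableOn_const (by simp)
  have hgs : ∀ p : E3, ∀ x, p ∈ (univ : Set E3) → x ∉ Metric.closedBall (0 : ℝ) 3 → g p x = 0 := by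
    intro p x _ hx
    have : b x = 0 := by
      refine b.zero_of_le_dist ?_
      rw [Metric.mem_closedBall, not_le] at hx
      exact hx.le
    simp only [g, this, zero_smul]
  have hg : ContDiffOn ℝ ((⊤ : ℕ∞) : WithTop ℕ∞) ↿g ((univ : Set E3) ×ˢ univ) := by
    refine ContDiff.contDiffOn ?_
    have h1 : ContDiff ℝ ∞ (fun p : E3 × ℝ => b p.2) := b.contDiff.comp contDiff_snd
    have h2 : ContDiff ℝ ∞ (fun p : E3 × ℝ => G p.1 (-p.2)) :=
      hG.comp (contDiff_fst.prodMk contDiff_snd.neg)
    exact h1.smul h2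
  have key := contDiffOn_convolution_right_with_param (μ := (volume : Measure ℝ)) (n := ⊤)
    (ContinuousLinearMap.lsmul ℝ ℝ : ℝ →L[ℝ] F →L[ℝ] F) isOpen_univ
    (isCompact_closedBall (0 : ℝ) 3) hgs hf hg
  rw [univ_prod_univ, contDiffOn_univ] at key
  have key2 : ContDiff ℝ ∞ (fun x : E3 => (convolution f (g x)
      (ContinuousLinearMap.lsmul ℝ ℝ : ℝ →L[ℝ] F →L[ℝ] F) volume) (0 : ℝ)) :=
    key.comp (contDiff_id.prodMk (contDiff_const (c := (0 : ℝ))))
  convert key2 using 2 with x
  rw [intervalIntegral.integral_of_le zero_le_one, convolution_def,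
    ← integral_indicator measurableSet_Ioc]
  congr 1
  funext t
  by_cases ht : t ∈ Ioc (0 : ℝ) 1
  · have hb : b (-t) = 1 := by
      refine b.one_of_mem_closedBall ?_
      rw [Metric.mem_closedBall, dist_zero_right, norm_neg, Real.norm_of_nonneg ht.1.le]
      exact ht.2.trans (by norm_num)
    simp only [f, g, indicator_of_mem ht, ContinuousLinearMap.lsmul_apply, one_smul, zero_sub,
      neg_neg, hb]
  · simp only [f, indicator_of_notMem ht, ContinuousLinearMap.lsmul_apply, zero_smul]

/-- the derivative of a parametric integral -/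
theorem P7_D {F : Type} [NormedAddCommGroup F] [InnerProductSpace ℝ F] [FiniteDimensional ℝ F]
    {G : E3 → ℝ → F} (hG : ContDiff ℝ ∞ (fun p : E3 × ℝ => G p.1 p.2)) (i : Fin 3) (x : E3) :
    D i (fun x => ∫ t in (0 : ℝ)..1, G x t) x = ∫ t in (0 : ℝ)..1, D i (fun y => G y t) x := by
  have := FiniteDimensional.complete ℝ F
  let F' : E3 → ℝ → E3 →L[ℝ] F := fun x t =>
    (fderiv ℝ (fun p : E3 × ℝ => G p.1 p.2) (x, t)).comp (ContinuousLinearMap.inl ℝ E3 ℝ)
  have hF'c : Continuous (fun p : E3 × ℝ => F' p.1 p.2) := by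
    have h1 : Continuous (fderiv ℝ (fun p : E3 × ℝ => G p.1 p.2)) :=
      hG.continuous_fderiv (by simp)
    exact h1.clm_comp continuous_const
  have hder : ∀ x t, HasFDerivAt (fun y => G y t) (F' x t) x := by
    intro x t
    have h1 : HasFDerivAt (fun p : E3 × ℝ => G p.1 p.2)
        (fderiv ℝ (fun p : E3 × ℝ => G p.1 p.2) (x, t)) (x, t) :=
      (hG.differentiable (by simp) (x, t)).hasFDerivAt
    have h2 : HasFDerivAt (fun y : E3 => (y, t)) (ContinuousLinearMap.inl ℝ E3 ℝ) x :=
      hasFDerivAt_prodMk_left x t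
    exact h1.comp x h2
  obtain ⟨M, hM⟩ := ((isCompact_closedBall x 1).prod (isCompact_Icc (a := (0 : ℝ)) (b := 1))).exists_bound_of_continuousOn
    hF'c.continuousOn
  have hsub : Set.uIoc (0 : ℝ) 1 ⊆ Icc 0 1 := by
    rw [uIoc_of_le zero_le_one]; exact Ioc_subset_Icc_self
  have hGc : ∀ x, Continuous (G x) := fun x =>
    hG.continuous.comp (continuous_const.prodMk continuous_id)
  have hF'c' : ∀ x, Continuous (F' x) := fun x =>
    hF'c.comp (continuous_const.prodMk continuous_id)
  have key := intervalIntegral.hasFDerivAt_integral_of_dominated_of_fderiv_le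
    (μ := volume) (a := (0 : ℝ)) (b := 1) (F := G) (F' := F') (x₀ := x)
    (s := Metric.closedBall x 1) (bound := fun _ => M)
    (Metric.closedBall_mem_nhds x zero_lt_one)
    (Eventually.of_forall fun y => (hGc y).aestronglyMeasurable)
    ((hGc x).intervalIntegrable 0 1) (hF'c' x).aestronglyMeasurable
    (Eventually.of_forall fun t ht y hy => hM (y, t) ⟨hy, hsub ht⟩)
    intervalIntegrable_const
    (Eventually.of_forall fun t _ y _ => hder y t)
  unfold D
  rw [key.fderiv, ContinuousLinearMap.intervalIntegral_apply ((hF'c' x).intervalIntegrable 0 1)]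
  congr 1
  funext t
  rw [(hder x t).fderiv]

theorem P7_z_smooth (a : E3) : ContDiff ℝ ∞ (fun p : E3 × ℝ => a + p.2 • (p.1 - a)) :=
  contDiff_const.add (contDiff_snd.smul (contDiff_fst.sub contDiff_const))

theorem P7_D_z {F : Type} [NormedAddCommGroup F] [InnerProductSpace ℝ F] {w : E3 → F}
    (hw : Differentiable ℝ w) (a x : E3) (t : ℝ) (i : Fin 3) :
    D i (fun y => w (a + t • (y - a))) x = t • D i w (a + t • (x - a)) := by
  have e : (fun y => w (a + t • (y - a))) = fun y => w ((a - t • a) + t • y) := by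
    funext y
    congr 1
    rw [smul_sub]
    abel
  rw [e, D_comp_affine hw]
  congr 2
  rw [smul_sub]
  abel

theorem P7_D_sub (a x : E3) (i : Fin 3) :
    D i (fun y : E3 => y - a) x = EuclideanSpace.single i (1 : ℝ) := by
  unfold D
  have h : HasFDerivAt (fun y : E3 => y - a) (ContinuousLinearMap.id ℝ E3) x :=
    (hasFDerivAt_id x).sub_const a
  rw [h.fderiv]
  rfl

/-- the derivative along the ray -/
theorem P7_ray {w : E3 → E3} (hw : Differentiable ℝ w) (a x : E3) (t : ℝ) :
    HasDerivAt (fun s : ℝ => w (a + s • (x - a)))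
      (∑ j, (x - a) j • D j w (a + t • (x - a))) t := by
  have h1 : HasDerivAt (fun s : ℝ => a + s • (x - a)) (x - a) t := by
    have := ((hasDerivAt_id t).smul_const (x - a)).const_add a
    simpa using this
  have h2 := (hw (a + t • (x - a))).hasFDerivAt.comp_hasDerivAt t h1
  rw [fderiv_eq_sum] at h2
  exact h2

theorem P7_comp {w : ℝ → E3} {v : E3} {t : ℝ} (h : HasDerivAt w v t) (k : Fin 3) :
    HasDerivAt (fun s => w s k) (v k) t :=
  ((EuclideanSpace.proj (𝕜 := ℝ) k : E3 →L[ℝ] ℝ).hasFDerivAt.comp_hasDerivAt t h :)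

/-- an irrotational field in a star-shaped open set is a gradient -/
theorem exists_potential (a : E3) (U : Set E3) (hU : IsOpen U) (hs : StarConvex ℝ a U)
    (w : E3 → E3) (hw : ContDiff ℝ ∞ w) (h0 : ∀ x ∈ U, curl w x = 0) :
    ∃ Q : E3 → ℝ, ContDiff ℝ ∞ Q ∧ ∀ x ∈ U, grad Q x = w x := by
  have hwd : Differentiable ℝ w := hw.differentiable (by simp)
  let G : E3 → ℝ → ℝ := fun x t => inner ℝ (w (a + t • (x - a))) (x - a)
  have hG : ContDiff ℝ ∞ (fun p : E3 × ℝ => G p.1 p.2) :=
    (hw.comp (P7_z_smooth a)).inner ℝ (contDiff_fst.sub contDiff_const)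
  refine ⟨fun x => ∫ t in (0 : ℝ)..1, G x t, P7_smooth hG, fun x hx => ?_⟩
  have hDG : ∀ i t, D i (fun y => G y t) x =
      t * inner ℝ (D i w (a + t • (x - a))) (x - a) + w (a + t • (x - a)) i := by
    intro i t
    have h1 : DifferentiableAt ℝ (fun y => w (a + t • (y - a))) x := by
      have : Differentiable ℝ (fun y : E3 => a + t • (y - a)) := by fun_prop
      exact (hwd.comp this) x
    have h2 : DifferentiableAt ℝ (fun y : E3 => y - a) x := by fun_prop
    rw [D_inner h1 h2 i, P7_D_z hwd, P7_D_sub, real_inner_smul_left]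
    congr 1
    rw [EuclideanSpace.inner_single_right]
    simp
  have key : ∀ i, D i (fun x => ∫ t in (0 : ℝ)..1, G x t) x = w x i := by
    intro i
    rw [P7_D hG i x]
    have hd : ∀ t ∈ uIcc (0 : ℝ) 1,
        HasDerivAt (fun s : ℝ => s * w (a + s • (x - a)) i) (D i (fun y => G y t) x) t := by
      intro t ht
      rw [uIcc_of_le zero_le_one] at ht
      have hz : a + t • (x - a) ∈ U := by
        have := hs hx (sub_nonneg.2 ht.2) ht.1 (by ring)
        convert this using 1
        rw [smul_sub, sub_smul, one_smul]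
        abel
      have hc := h0 _ hz
      have c0 : (curl w (a + t • (x - a))) 0 = 0 := by rw [hc]; rfl
      have c1 : (curl w (a + t • (x - a))) 1 = 0 := by rw [hc]; rfl
      have c2 : (curl w (a + t • (x - a))) 2 = 0 := by rw [hc]; rfl
      rw [Calc3b_curl0] at c0
      rw [Calc3b_curl1] at c1
      rw [Calc3b_curl2] at c2
      have h1 := (hasDerivAt_id t).mul (P7_comp (P7_ray hwd a x t) i)
      have e : D i (fun y => G y t) x =
          1 * w (a + t • (x - a)) i + id t * (∑ j, (x - a) j • D j w (a + t • (x - a))) i := by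
        rw [hDG i t, Calc3b_inner, Fin.sum_univ_three]
        simp only [id_eq, PiLp.add_apply, PiLp.smul_apply, smul_eq_mul]
        fin_cases i
        · simp only [Fin.zero_eta, Fin.isValue]
          linear_combination (t * (x - a) 1) * c2 - (t * (x - a) 2) * c1
        · simp only [Fin.mk_one, Fin.isValue]
          linear_combination (t * (x - a) 2) * c0 - (t * (x - a) 0) * c2
        · simp only [Fin.reduceFinMk, Fin.isValue]
          linear_combination (t * (x - a) 0) * c1 - (t * (x - a) 1) * c0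
      rw [e]
      exact h1
    have hci : Continuous (fun t => D i (fun y => G y t) x) := by
      have e : (fun t => D i (fun y => G y t) x) = fun t : ℝ =>
          t * inner ℝ (D i w (a + t • (x - a))) (x - a) + w (a + t • (x - a)) i := by
        funext t; exact hDG i t
      rw [e]
      have h1 : Continuous (D i w) := (D_smooth hw i).continuous
      have h2 : Continuous (fun t : ℝ => a + t • (x - a)) := by fun_prop
      have h3 : Continuous (fun t : ℝ => w (a + t • (x - a)) i) :=
        (EuclideanSpace.proj (𝕜 := ℝ) i : E3 →L[ℝ] ℝ).continuous.comp (hw.continuous.comp h2)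
      exact (continuous_id.mul ((h1.comp h2).inner continuous_const)).add h3
    rw [intervalIntegral.integral_eq_sub_of_hasDerivAt hd (hci.intervalIntegrable 0 1)]
    simp
  apply Calc3b_ext
  · rw [Calc3b_grad]; exact key 0
  · rw [Calc3b_grad]; exact key 1
  · rw [Calc3b_grad]; exact key 2

theorem P7_D_cr {A B : E3 → E3} {x : E3} (hA : DifferentiableAt ℝ A x)
    (hB : DifferentiableAt ℝ B x) (i : Fin 3) :
    D i (fun y => cr (A y) (B y)) x = cr (D i A x) (B x) + cr (A x) (D i B x) := by
  have hA' : ∀ k, DifferentiableAt ℝ (fun y => A y k) x := fun k =>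
    (EuclideanSpace.proj (𝕜 := ℝ) k : E3 →L[ℝ] ℝ).differentiableAt.comp x hA
  have hB' : ∀ k, DifferentiableAt ℝ (fun y => B y k) x := fun k =>
    (EuclideanSpace.proj (𝕜 := ℝ) k : E3 →L[ℝ] ℝ).differentiableAt.comp x hB
  have hcr : DifferentiableAt ℝ (fun y => cr (A y) (B y)) x := by
    rw [differentiableAt_euclidean]
    intro k
    fin_cases k
    · exact ((hA' 1).mul (hB' 2)).sub ((hA' 2).mul (hB' 1))
    · exact ((hA' 2).mul (hB' 0)).sub ((hA' 0).mul (hB' 2))
    · exact ((hA' 0).mul (hB' 1)).sub ((hA' 1).mul (hB' 0))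
  have key : ∀ j k l m : Fin 3, D i (fun y => A y j * B y k - A y l * B y m) x =
      ((D i A x) j * B x k + A x j * (D i B x) k) -
        ((D i A x) l * B x m + A x l * (D i B x) m) := by
    intro j k l m
    have e := D_sub (f := fun y => A y j * B y k) (g := fun y => A y l * B y m)
      ((hA' j).mul (hB' k)) ((hA' l).mul (hB' m)) i
    rw [e, D_mul (hA' j) (hB' k), D_mul (hA' l) (hB' m), D_apply hA, D_apply hA,
      D_apply hB, D_apply hB]
  apply Calc3b_ext
  · rw [← D_apply hcr]
    simp only [PiLp.add_apply, Calc3b_cr0]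
    rw [key 1 2 2 1]
    ring
  · rw [← D_apply hcr]
    simp only [PiLp.add_apply, Calc3b_cr1]
    rw [key 2 0 0 2]
    ring
  · rw [← D_apply hcr]
    simp only [PiLp.add_apply, Calc3b_cr2]
    rw [key 0 1 1 0]
    ring

/-- a solenoidal field in a ball is a curl, with a bound -/
theorem exists_vector_potential (a : E3) (R M : ℝ) (hR : 0 < R) (w : E3 → E3)
    (hw : ContDiff ℝ ∞ w) (h0 : ∀ x ∈ Metric.ball a R, divg w x = 0)
    (hM : ∀ x ∈ Metric.ball a R, ‖w x‖ ≤ M) :
    ∃ b : E3 → E3, ContDiff ℝ ∞ b ∧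
      ∀ x ∈ Metric.ball a R, curl b x = w x ∧ ‖b x‖ ≤ R * M := by
  have hwd : Differentiable ℝ w := hw.differentiable (by simp)
  let G : E3 → ℝ → E3 := fun x t => t • cr (w (a + t • (x - a))) (x - a)
  have hG : ContDiff ℝ ∞ (fun p : E3 × ℝ => G p.1 p.2) := by
    have h1 : ContDiff ℝ ∞ (fun p : E3 × ℝ => w (a + p.2 • (p.1 - a))) :=
      hw.comp (P7_z_smooth a)
    have h2 : ContDiff ℝ ∞ (fun p : E3 × ℝ => p.1 - a) := contDiff_fst.sub contDiff_const
    have h1' : ∀ k : Fin 3, ContDiff ℝ ∞ (fun p : E3 × ℝ => (w (a + p.2 • (p.1 - a))) k) :=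
      fun k => (EuclideanSpace.proj (𝕜 := ℝ) k : E3 →L[ℝ] ℝ).contDiff.comp h1
    have h2' : ∀ k : Fin 3, ContDiff ℝ ∞ (fun p : E3 × ℝ => (p.1 - a) k) :=
      fun k => (EuclideanSpace.proj (𝕜 := ℝ) k : E3 →L[ℝ] ℝ).contDiff.comp h2
    have h3 : ContDiff ℝ ∞ (fun p : E3 × ℝ => cr (w (a + p.2 • (p.1 - a))) (p.1 - a)) := by
      rw [contDiff_euclidean]
      intro k
      fin_cases k
      · exact ((h1' 1).mul (h2' 2)).sub ((h1' 2).mul (h2' 1))
      · exact ((h1' 2).mul (h2' 0)).sub ((h1' 0).mul (h2' 2))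
      · exact ((h1' 0).mul (h2' 1)).sub ((h1' 1).mul (h2' 0))
    exact contDiff_snd.smul h3
  refine ⟨fun x => ∫ t in (0 : ℝ)..1, G x t, P7_smooth hG, fun x hx => ?_⟩
  have hxR : ‖x - a‖ < R := by rwa [Metric.mem_ball, dist_eq_norm] at hx
  have hz : ∀ t : ℝ, 0 ≤ t → t ≤ 1 → a + t • (x - a) ∈ Metric.ball a R := by
    intro t ht0 ht1
    rw [Metric.mem_ball, dist_eq_norm, add_sub_cancel_left, norm_smul, Real.norm_of_nonneg ht0]
    calc t * ‖x - a‖ ≤ 1 * ‖x - a‖ := mul_le_mul_of_nonneg_right ht1 (norm_nonneg _)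
      _ < R := by rw [one_mul]; exact hxR
  constructor
  · have hDG : ∀ i t, D i (fun y => G y t) x =
        t • (cr (t • D i w (a + t • (x - a))) (x - a) +
          cr (w (a + t • (x - a))) (EuclideanSpace.single i (1 : ℝ))) := by
      intro i t
      have h1 : DifferentiableAt ℝ (fun y => w (a + t • (y - a))) x := by
        have : Differentiable ℝ (fun y : E3 => a + t • (y - a)) := by fun_prop
        exact (hwd.comp this) x
      have h2 : DifferentiableAt ℝ (fun y : E3 => y - a) x := by fun_prop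
      have h3 : DifferentiableAt ℝ (fun y => cr (w (a + t • (y - a))) (y - a)) x := by
        have hGd : Differentiable ℝ (fun y => cr (w (a + t • (y - a))) (y - a)) := by
          intro y
          have h1 : DifferentiableAt ℝ (fun y => w (a + t • (y - a))) y := by
            have : Differentiable ℝ (fun y : E3 => a + t • (y - a)) := by fun_prop
            exact (hwd.comp this) y
          have h2 : DifferentiableAt ℝ (fun y : E3 => y - a) y := by fun_prop
          have hA' : ∀ k, DifferentiableAt ℝ (fun y => (w (a + t • (y - a))) k) y := fun k =>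
            (EuclideanSpace.proj (𝕜 := ℝ) k : E3 →L[ℝ] ℝ).differentiableAt.comp y h1
          have hB' : ∀ k, DifferentiableAt ℝ (fun y : E3 => (y - a) k) y := fun k =>
            (EuclideanSpace.proj (𝕜 := ℝ) k : E3 →L[ℝ] ℝ).differentiableAt.comp y h2
          rw [differentiableAt_euclidean]
          intro k
          fin_cases k
          · exact ((hA' 1).mul (hB' 2)).sub ((hA' 2).mul (hB' 1))
          · exact ((hA' 2).mul (hB' 0)).sub ((hA' 0).mul (hB' 2))
          · exact ((hA' 0).mul (hB' 1)).sub ((hA' 1).mul (hB' 0))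
        exact hGd x
      have e : D i (fun y => G y t) x = t • D i (fun y => cr (w (a + t • (y - a))) (y - a)) x :=
        D_const_smul h3 t i
      rw [e, P7_D_cr h1 h2, P7_D_z hwd, P7_D_sub]
    have hGc : ∀ i, Continuous (fun t => D i (fun y => G y t) x) := by
      intro i
      have e : (fun t => D i (fun y => G y t) x) = fun t : ℝ =>
          t • (cr (t • D i w (a + t • (x - a))) (x - a) +
          cr (w (a + t • (x - a))) (EuclideanSpace.single i (1 : ℝ))) := by
        funext t; exact hDG i t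
      rw [e]
      have h1 : Continuous (D i w) := (D_smooth hw i).continuous
      have h2 : Continuous (fun t : ℝ => a + t • (x - a)) := by fun_prop
      have h3 : Continuous (fun t : ℝ => t • D i w (a + t • (x - a))) :=
        continuous_id.smul (h1.comp h2)
      have h4 : Continuous (fun t : ℝ => w (a + t • (x - a))) := hw.continuous.comp h2
      have hcr : ∀ (A : ℝ → E3) (v : E3), Continuous A → Continuous (fun t => cr (A t) v) := by
        intro A v hA
        have hA' : ∀ k, Continuous (fun t => A t k) := fun k =>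
          (EuclideanSpace.proj (𝕜 := ℝ) k : E3 →L[ℝ] ℝ).continuous.comp hA
        refine (PiLp.continuous_toLp 2 _).comp (continuous_pi fun k => ?_)
        fin_cases k
        · exact ((hA' 1).mul continuous_const).sub ((hA' 2).mul continuous_const)
        · exact ((hA' 2).mul continuous_const).sub ((hA' 0).mul continuous_const)
        · exact ((hA' 0).mul continuous_const).sub ((hA' 1).mul continuous_const)
      exact continuous_id.smul ((hcr _ _ h3).add (hcr _ _ h4))
    have hDk : ∀ i k, (D i (fun x => ∫ t in (0 : ℝ)..1, G x t) x) k =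
        ∫ t in (0 : ℝ)..1, (D i (fun y => G y t) x) k := by
      intro i k
      rw [P7_D hG i x]
      have := (EuclideanSpace.proj (𝕜 := ℝ) k : E3 →L[ℝ] ℝ).intervalIntegral_comp_comm
        ((hGc i).intervalIntegrable (μ := volume) 0 1)
      exact this.symm
    have hGck : ∀ i k, IntervalIntegrable (fun t => (D i (fun y => G y t) x) k) volume 0 1 :=
      fun i k => ((EuclideanSpace.proj (𝕜 := ℝ) k : E3 →L[ℝ] ℝ).continuous.comp
        (hGc i)).intervalIntegrable 0 1
    have key : ∀ k, ∀ p q r s : Fin 3, (∀ t : ℝ, 0 ≤ t → t ≤ 1 →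
        (D p (fun y => G y t) x) q - (D r (fun y => G y t) x) s =
          (2 * t) * w (a + t • (x - a)) k +
            t ^ 2 * (∑ j, (x - a) j • D j w (a + t • (x - a))) k) →
        (D p (fun x => ∫ t in (0 : ℝ)..1, G x t) x) q -
          (D r (fun x => ∫ t in (0 : ℝ)..1, G x t) x) s = w x k := by
      intro k p q r s h
      rw [hDk, hDk, ← intervalIntegral.integral_sub (hGck p q) (hGck r s)]
      have hd : ∀ t ∈ uIcc (0 : ℝ) 1,
          HasDerivAt (fun s : ℝ => s ^ 2 * w (a + s • (x - a)) k)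
            ((D p (fun y => G y t) x) q - (D r (fun y => G y t) x) s) t := by
        intro t ht
        rw [uIcc_of_le zero_le_one] at ht
        rw [h t ht.1 ht.2]
        have h1 := (hasDerivAt_pow 2 t).mul (P7_comp (P7_ray hwd a x t) k)
        have e : (2 * t) * w (a + t • (x - a)) k +
            t ^ 2 * (∑ j, (x - a) j • D j w (a + t • (x - a))) k =
            ((2 : ℕ) : ℝ) * t ^ (2 - 1) * w (a + t • (x - a)) k +
            t ^ 2 * (∑ j, (x - a) j • D j w (a + t • (x - a))) k := by
          norm_num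
        rw [e]
        exact h1
      rw [intervalIntegral.integral_eq_sub_of_hasDerivAt hd ((hGck p q).sub (hGck r s))]
      simp
    have hdiv : ∀ t : ℝ, 0 ≤ t → t ≤ 1 → (D 0 w (a + t • (x - a))) 0 +
        (D 1 w (a + t • (x - a))) 1 + (D 2 w (a + t • (x - a))) 2 = 0 := by
      intro t ht0 ht1
      have := h0 _ (hz t ht0 ht1)
      rwa [Calc3b_divg] at this
    have s00 : (EuclideanSpace.single (0 : Fin 3) (1 : ℝ) : E3) 0 = 1 := by simp
    have s01 : (EuclideanSpace.single (0 : Fin 3) (1 : ℝ) : E3) 1 = 0 := by simp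
    have s02 : (EuclideanSpace.single (0 : Fin 3) (1 : ℝ) : E3) 2 = 0 := by simp
    have s10 : (EuclideanSpace.single (1 : Fin 3) (1 : ℝ) : E3) 0 = 0 := by simp
    have s11 : (EuclideanSpace.single (1 : Fin 3) (1 : ℝ) : E3) 1 = 1 := by simp
    have s12 : (EuclideanSpace.single (1 : Fin 3) (1 : ℝ) : E3) 2 = 0 := by simp
    have s20 : (EuclideanSpace.single (2 : Fin 3) (1 : ℝ) : E3) 0 = 0 := by simp
    have s21 : (EuclideanSpace.single (2 : Fin 3) (1 : ℝ) : E3) 1 = 0 := by simp
    have s22 : (EuclideanSpace.single (2 : Fin 3) (1 : ℝ) : E3) 2 = 1 := by simp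
    apply Calc3b_ext
    · rw [Calc3b_curl0]
      refine key 0 1 2 2 1 fun t ht0 ht1 => ?_
      have hd := hdiv t ht0 ht1
      rw [hDG, hDG, Fin.sum_univ_three]
      simp only [PiLp.add_apply, PiLp.smul_apply, smul_eq_mul, Calc3b_cr0, Calc3b_cr1, Calc3b_cr2,
        s00, s01, s02, s10, s11, s12, s20, s21, s22]
      linear_combination (-t ^ 2 * (x - a) 0) * hd
    · rw [Calc3b_curl1]
      refine key 1 2 0 0 2 fun t ht0 ht1 => ?_
      have hd := hdiv t ht0 ht1
      rw [hDG, hDG, Fin.sum_univ_three]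
      simp only [PiLp.add_apply, PiLp.smul_apply, smul_eq_mul, Calc3b_cr0, Calc3b_cr1, Calc3b_cr2,
        s00, s01, s02, s10, s11, s12, s20, s21, s22]
      linear_combination (-t ^ 2 * (x - a) 1) * hd
    · rw [Calc3b_curl2]
      refine key 2 0 1 1 0 fun t ht0 ht1 => ?_
      have hd := hdiv t ht0 ht1
      rw [hDG, hDG, Fin.sum_univ_three]
      simp only [PiLp.add_apply, PiLp.smul_apply, smul_eq_mul, Calc3b_cr0, Calc3b_cr1, Calc3b_cr2,
        s00, s01, s02, s10, s11, s12, s20, s21, s22]
      linear_combination (-t ^ 2 * (x - a) 2) * hd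
  · have hb : ∀ t ∈ Set.uIoc (0 : ℝ) 1, ‖G x t‖ ≤ R * M := by
      intro t ht
      rw [uIoc_of_le zero_le_one] at ht
      have h1 : ‖G x t‖ = t * ‖cr (w (a + t • (x - a))) (x - a)‖ := by
        change ‖t • cr (w (a + t • (x - a))) (x - a)‖ = _
        rw [norm_smul, Real.norm_of_nonneg ht.1.le]
      have h2 := norm_cr_le (w (a + t • (x - a))) (x - a)
      have h3 := hM _ (hz t ht.1.le ht.2)
      have h4 : ‖w (a + t • (x - a))‖ * ‖x - a‖ ≤ M * R :=
        mul_le_mul h3 hxR.le (norm_nonneg _) ((norm_nonneg _).trans h3)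
      rw [h1]
      have h5 : 0 ≤ ‖cr (w (a + t • (x - a))) (x - a)‖ := norm_nonneg _
      nlinarith [ht.1, ht.2]
    have := intervalIntegral.norm_integral_le_of_norm_le_const hb
    simpa using this

end Pool.Agent.Helper60.EC
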