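import Pool.Agent.Helper60.EC.D2d
import Pool.Agent.Helper60.EC.P7

/-! Project EC, D2: smooth approximations of the flows in the class Anc -/

set_option autoImplicit false

open MeasureTheory Set Filter Topology
open scoped ENNReal ContDiff

noncomputable section

namespace Pool.Agent.Helper60.EC

open Pool.Agent.Helper52.NSE (E3 pd divg TestField)

section aux

variable {F : Type} [NormedAddCommGroup F] [InnerProductSpace ℝ F]

theorem D2_D_joint {Ψ : ℝ × E3 → F} (h : ContDiff ℝ ∞ Ψ) (i : Fin 3) :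
    ContDiff ℝ ∞ (fun p : ℝ × E3 => D i (fun y => Ψ (p.1, y)) p.2) := by
  have e : (fun p : ℝ × E3 => D i (fun y => Ψ (p.1, y)) p.2) =
      fun p => fderiv ℝ Ψ p ((0 : ℝ), EuclideanSpace.single i (1 : ℝ)) := by
    funext p
    unfold D
    have h1 : HasFDerivAt (fun y : E3 => (p.1, y)) (ContinuousLinearMap.inr ℝ ℝ E3) p.2 :=
      hasFDerivAt_prodMk_right p.1 p.2
    have h2 : HasFDerivAt Ψ (fderiv ℝ Ψ (p.1, p.2)) (p.1, p.2) :=
      (h.differentiable (by norm_num) _).hasFDerivAt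
    have h3 := (h2.comp p.2 h1).fderiv
    have h4 : fderiv ℝ (fun y => Ψ (p.1, y)) p.2 =
        (fderiv ℝ Ψ (p.1, p.2)).comp (ContinuousLinearMap.inr ℝ ℝ E3) := h3
    rw [h4]
    rfl
  rw [e]
  exact (h.fderiv_right (by norm_num)).clm_apply contDiff_const

theorem D2_deriv_joint {Ψ : ℝ × E3 → F} (h : ContDiff ℝ ∞ Ψ) :
    ContDiff ℝ ∞ (fun p : ℝ × E3 => deriv (fun τ => Ψ (τ, p.2)) p.1) := by
  have e : (fun p : ℝ × E3 => deriv (fun τ => Ψ (τ, p.2)) p.1) =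
      fun p => fderiv ℝ Ψ p ((1 : ℝ), (0 : E3)) := by
    funext p
    have h1 : HasFDerivAt (fun τ : ℝ => (τ, p.2)) (ContinuousLinearMap.inl ℝ ℝ E3) p.1 :=
      hasFDerivAt_prodMk_left p.1 p.2
    have h2 : HasFDerivAt Ψ (fderiv ℝ Ψ (p.1, p.2)) (p.1, p.2) :=
      (h.differentiable (by norm_num) _).hasFDerivAt
    have h3 := (h2.comp p.1 h1).hasDerivAt.deriv
    have h4 : deriv (fun τ => Ψ (τ, p.2)) p.1 =
        ((fderiv ℝ Ψ (p.1, p.2)).comp (ContinuousLinearMap.inl ℝ ℝ E3)) 1 := h3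
    rw [h4]
    rfl
  rw [e]
  exact (h.fderiv_right (by norm_num)).clm_apply contDiff_const

end aux

theorem exists_approx {C₁ C₂ C₃ E₀ A : ℝ} {v : ℝ → E3 → E3} (h : Anc C₁ C₂ C₃ E₀ v)
    (hA : ∀ s < 0, ∀ x, ‖v s x‖ ≤ A * (-s) ^ (-(3 / 5) : ℝ)) {a b : ℝ} (hab : a ≤ b) (hb : b < 0)
    (R ε : ℝ) (hε : 0 < ε) :
    ∃ V S : ℝ → E3 → E3, SF a b V S ∧
      (∀ s ∈ Icc a b, ∀ x, ‖V s x‖ ≤ 2 * A * (-s) ^ (-(3 / 5) : ℝ)) ∧
      (∀ s ∈ Icc a b, sq (V s) ≤ E₀) ∧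
      (∀ s ∈ Icc a b, ∀ x y, ‖V s x - V s y‖ ≤ 2 * C₁ / (-s) * ‖x - y‖) ∧
      (∀ s ∈ Icc a b, ∀ x ∈ Metric.ball (0 : E3) R, ‖V s x - v s x‖ ≤ ε ∧ ‖S s x‖ ≤ ε) := by
  have hA0 : 0 ≤ A := by
    have h1 := hA (-1) (by norm_num) 0
    rw [neg_neg, Real.one_rpow, mul_one] at h1
    exact (norm_nonneg _).trans h1
  obtain ⟨C, hC, hkr⟩ := exists_kr
  obtain ⟨η, hη, δ₀, hδ₀, herr⟩ := moll_error (C := C) h hA hA0 hab hb R ε hε
  obtain ⟨δ, hδ⟩ : ∃ δ : ℝ, δ = min δ₀ (min 1 (-(b / 2))) := ⟨_, rfl⟩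
  have hδ0 : 0 < δ := by
    rw [hδ]; exact lt_min hδ₀ (lt_min one_pos (by linarith))
  have hδ1 : δ ≤ 1 := by rw [hδ]; exact (min_le_right _ _).trans (min_le_left _ _)
  have hδ2 : δ ≤ -(b / 2) := by rw [hδ]; exact (min_le_right _ _).trans (min_le_right _ _)
  have hδ3 : δ ≤ δ₀ := by rw [hδ]; exact min_le_left _ _
  obtain ⟨k, hk⟩ := hkr δ η hδ0 hη
  obtain ⟨hdiv, hbasic⟩ := moll_basic h hA hA0 hab hb hk hδ0 hδ1 hδ2 hη
  have hmeas : AEStronglyMeasurable (fun p : ℝ × E3 => cutv a b v p.1 p.2) := cutv_meas h hb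
  have hbdd := fun s x => cutv_bdd (a := a) hA hA0 hb s x
  obtain ⟨M, hM⟩ : ∃ M : ℝ, M = A * (-(b / 2)) ^ (-(3 / 5) : ℝ) := ⟨_, rfl⟩
  rw [← hM] at hbdd
  have hV : ContDiff ℝ ∞ (fun p : ℝ × E3 => moll k (cutv a b v) p.1 p.2) :=
    moll_smooth hk hmeas hbdd
  have hT : ∀ i, ContDiff ℝ ∞ (fun p : ℝ × E3 => TT k (cutv a b v) i p.1 p.2) := by
    intro i
    have hm : AEStronglyMeasurable
        (fun p : ℝ × E3 => (cutv a b v p.1 p.2) i • cutv a b v p.1 p.2) := by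
      have h1 : AEStronglyMeasurable (fun p : ℝ × E3 => (cutv a b v p.1 p.2) i) :=
        (EuclideanSpace.proj (𝕜 := ℝ) i : E3 →L[ℝ] ℝ).continuous.comp_aestronglyMeasurable hmeas
      exact h1.smul hmeas
    have hb2 : ∀ s x, ‖(cutv a b v s x) i • cutv a b v s x‖ ≤ M * M := by
      intro s x
      rw [norm_smul]
      have h1 : ‖(cutv a b v s x) i‖ ≤ M := (PiLp.norm_apply_le _ i).trans (hbdd s x)
      exact mul_le_mul h1 (hbdd s x) (norm_nonneg _) ((norm_nonneg _).trans h1)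
    exact moll_smooth (g := fun s x => (cutv a b v s x) i • cutv a b v s x) hk hm hb2
  have hDV : ∀ i, ContDiff ℝ ∞ (fun p : ℝ × E3 => D i (moll k (cutv a b v) p.1) p.2) :=
    fun i => D2_D_joint hV i
  have hDT : ∀ i, ContDiff ℝ ∞ (fun p : ℝ × E3 => D i (TT k (cutv a b v) i p.1) p.2) :=
    fun i => D2_D_joint (hT i) i
  have hDt : ContDiff ℝ ∞ (fun p : ℝ × E3 => deriv (fun τ => moll k (cutv a b v) τ p.2) p.1) :=
    D2_deriv_joint hV
  have hadv : ContDiff ℝ ∞ (fun p : ℝ × E3 =>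
      adv (moll k (cutv a b v) p.1) (moll k (cutv a b v) p.1) p.2) := by
    unfold adv
    apply ContDiff.sum
    intro i _
    exact ((EuclideanSpace.proj (𝕜 := ℝ) i : E3 →L[ℝ] ℝ).contDiff.comp hV).smul (hDV i)
  refine ⟨moll k (cutv a b v), fun s x => (∑ i, D i (TT k (cutv a b v) i s) x) -
    adv (moll k (cutv a b v) s) (moll k (cutv a b v) s) x, ?_, ?_, ?_, ?_, ?_⟩
  · refine ⟨hV, (ContDiff.sum fun i _ => hDT i).sub hadv, hdiv, fun s hs => (hbasic s hs).2.1, ?_⟩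
    intro s hs
    have hcs : ContDiff ℝ ∞ (fun x : E3 => (s, x)) := contDiff_const.prodMk contDiff_id
    have hW : ContDiff ℝ ∞ (fun x => deriv (fun τ => moll k (cutv a b v) τ x) s +
        ∑ i, D i (TT k (cutv a b v) i s) x) :=
      (hDt.comp hcs).add (ContDiff.sum fun i _ => (hDT i).comp hcs)
    have hcurl : ∀ x, curl (fun x => deriv (fun τ => moll k (cutv a b v) τ x) s +
        ∑ i, D i (TT k (cutv a b v) i s) x) x = 0 := by
      apply curl_eq_zero_of_forall hW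
      intro ψ hψ
      apply moll_eqn h hA hA0 hab hb hk hδ0 hδ1 hδ2 hη hs
      have hc := cc_curl hψ
      exact ⟨hc.smooth, hc.comp, subset_univ _, fun x => divg_curl
        (by exact_mod_cast contDiff_infty.1 hψ.smooth 2) x⟩
    obtain ⟨Q, hQ, hQg⟩ := exists_potential 0 univ isOpen_univ
      (convex_univ.starConvex (mem_univ _)) _ hW (fun x _ => hcurl x)
    refine ⟨fun x => -Q x, hQ.neg, fun x => ?_⟩
    have hg : grad (fun x => -Q x) x = -grad Q x := by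
      apply Calc3b_ext <;> rw [PiLp.neg_apply, Calc3b_grad, Calc3b_grad, D_neg]
    rw [hg, neg_neg, hQg x (mem_univ x)]
    abel
  · exact fun s hs => (hbasic s hs).1
  · exact fun s hs => (hbasic s hs).2.2.1
  · exact fun s hs => (hbasic s hs).2.2.2
  · exact fun s hs x hx => herr δ k hδ0 hδ3 hδ1 hδ2 hk s hs x hx

end Pool.Agent.Helper60.EC
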