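import Pool.Agent.Helper60.EC.Calc2

/-! Project EC, D2a: space-time mollification -/

set_option autoImplicit false

open MeasureTheory Set Filter Topology
open scoped ENNReal ContDiff

noncomputable section

namespace Pool.Agent.Helper60.EC

open Pool.Agent.Helper52.NSE (E3 pd divg TestField)

/-- mollification kernels -/
structure Kr (δ ε C : ℝ) (k : ℝ × E3 → ℝ) : Prop where
  smooth : ContDiff ℝ ∞ k
  nonneg : ∀ p, 0 ≤ k p
  supp : ∀ p : ℝ × E3, δ ≤ |p.1| ∨ ε ≤ ‖p.2‖ → k p = 0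
  one : ∫ p, k p = 1
  grad : ∀ i, ∫ p : ℝ × E3, |D i (fun y => k (p.1, y)) p.2| ≤ C / ε

private def D2a_b1 : ContDiffBump (0 : E3) := ⟨1 / 2, 1, by norm_num, by norm_num⟩

private def D2a_g : E3 → ℝ := D2a_b1.normed volume

private lemma D2a_g_smooth : ContDiff ℝ ∞ D2a_g := D2a_b1.contDiff_normed

private lemma D2a_g_nonneg (x : E3) : 0 ≤ D2a_g x := D2a_b1.nonneg_normed x

private lemma D2a_g_int : ∫ x, D2a_g x = 1 := D2a_b1.integral_normed

private lemma D2a_g_supp (x : E3) (hx : 1 ≤ ‖x‖) : D2a_g x = 0 := by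
  have h : x ∉ Function.support D2a_g := by
    rw [D2a_g, ContDiffBump.support_normed_eq]
    simpa [D2a_b1] using hx
  simpa using h

private lemma D2a_g_cs : HasCompactSupport D2a_g := D2a_b1.hasCompactSupport_normed

/-- scaled bump -/
private def D2a_ge (ε : ℝ) (x : E3) : ℝ := ε⁻¹ ^ 3 * D2a_g (ε⁻¹ • x)

private lemma D2a_ge_int {ε : ℝ} (hε : 0 < ε) : ∫ x, D2a_ge ε x = 1 := by
  unfold D2a_ge
  rw [integral_const_mul, Measure.integral_comp_smul, D2a_g_int]
  simp [abs_of_pos hε]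
  field_simp

private lemma D2a_ge_D {ε : ℝ} (hε : 0 < ε) (i : Fin 3) (x : E3) :
    D i (D2a_ge ε) x = ε⁻¹ ^ 4 * D i D2a_g (ε⁻¹ • x) := by
  have h1 : DifferentiableAt ℝ D2a_g (ε⁻¹ • x) :=
    (D2a_g_smooth.differentiable (by simp)).differentiableAt
  have h2 : HasFDerivAt (fun x : E3 => ε⁻¹ • x) (ε⁻¹ • ContinuousLinearMap.id ℝ E3) x :=
    (hasFDerivAt_id x).const_smul ε⁻¹
  have h3 := (h1.hasFDerivAt.comp x h2).const_mul (ε⁻¹ ^ 3)
  unfold D D2a_ge
  have h4 : fderiv ℝ (fun x : E3 => ε⁻¹ ^ 3 * D2a_g (ε⁻¹ • x)) x = _ := h3.fderiv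
  rw [h4]
  simp
  ring

private lemma D2a_int_abs {ε : ℝ} (hε : 0 < ε) (i : Fin 3) :
    ∫ x, |D i (D2a_ge ε) x| = (∫ x, |D i D2a_g x|) / ε := by
  have h1 : ∀ x, |D i (D2a_ge ε) x| = ε⁻¹ ^ 4 * |D i D2a_g (ε⁻¹ • x)| := by
    intro x
    rw [D2a_ge_D hε, abs_mul, abs_of_pos (by positivity : 0 < ε⁻¹ ^ 4)]
  simp_rw [h1]
  rw [integral_const_mul, Measure.integral_comp_smul volume (fun x => |D i D2a_g x|)]
  simp [abs_of_pos hε]
  field_simp

private def D2a_fb (δ : ℝ) (hδ : 0 < δ) : ContDiffBump (0 : ℝ) :=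
  ⟨δ / 2, δ, by positivity, by linarith⟩

theorem exists_kr : ∃ C : ℝ, 0 < C ∧ ∀ δ ε : ℝ, 0 < δ → 0 < ε → ∃ k : ℝ × E3 → ℝ, Kr δ ε C k := by
  refine ⟨1 + ∑ i, ∫ x, |D i D2a_g x|, ?_, ?_⟩
  · have : 0 ≤ ∑ i, ∫ x, |D i D2a_g x| :=
      Finset.sum_nonneg fun i _ => integral_nonneg fun x => abs_nonneg _
    linarith
  intro δ ε hδ hε
  set f : ℝ → ℝ := (D2a_fb δ hδ).normed volume with hf
  have hfs : ContDiff ℝ ∞ f := (D2a_fb δ hδ).contDiff_normed
  have hges : ContDiff ℝ ∞ (D2a_ge ε) :=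
    contDiff_const.mul (D2a_g_smooth.comp (contDiff_const_smul ε⁻¹))
  have hf0 : ∀ t, 0 ≤ f t := fun t => (D2a_fb δ hδ).nonneg_normed t
  have hf1 : ∫ t, f t = 1 := (D2a_fb δ hδ).integral_normed
  have hfsupp : ∀ t, δ ≤ |t| → f t = 0 := by
    intro t ht
    have h : t ∉ Function.support f := by
      rw [hf, ContDiffBump.support_normed_eq]
      simpa [D2a_fb] using ht
    simpa using h
  refine ⟨fun p => f p.1 * D2a_ge ε p.2, ?_, ?_, ?_, ?_, ?_⟩
  · exact (hfs.comp contDiff_fst).mul (hges.comp contDiff_snd)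
  · intro p
    exact mul_nonneg (hf0 _) (mul_nonneg (by positivity) (D2a_g_nonneg _))
  · rintro p (h | h)
    · change f p.1 * D2a_ge ε p.2 = 0
      rw [hfsupp _ h, zero_mul]
    · simp only [D2a_ge]
      rw [D2a_g_supp, mul_zero, mul_zero]
      rw [norm_smul, Real.norm_eq_abs, abs_of_pos (by positivity : 0 < ε⁻¹), inv_mul_eq_div,
        le_div_iff₀ hε]
      linarith
  · have : ∫ p : ℝ × E3, f p.1 * D2a_ge ε p.2 = (∫ t, f t) * ∫ x, D2a_ge ε x :=
      integral_prod_mul (μ := (volume : Measure ℝ)) (ν := (volume : Measure E3)) f (D2a_ge ε)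
    rw [this, hf1, D2a_ge_int hε, one_mul]
  · intro i
    have h1 : ∀ p : ℝ × E3, |D i (fun y => f p.1 * D2a_ge ε y) p.2| =
        f p.1 * |D i (D2a_ge ε) p.2| := by
      intro p
      have h2 : D i (fun y => f p.1 * D2a_ge ε y) p.2 = f p.1 * D i (D2a_ge ε) p.2 := by
        unfold D
        rw [fderiv_const_mul (hges.differentiable (by simp)).differentiableAt]
        simp
      rw [h2, abs_mul, abs_of_nonneg (hf0 _)]
    have h3 : ∫ p : ℝ × E3, |D i (fun y => f p.1 * D2a_ge ε y) p.2| =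
        (∫ t, f t) * ∫ x, |D i (D2a_ge ε) x| := by
      rw [integral_congr_ae (Eventually.of_forall h1)]
      exact integral_prod_mul (μ := (volume : Measure ℝ)) (ν := (volume : Measure E3)) f
        (fun x => |D i (D2a_ge ε) x|)
    rw [h3, hf1, one_mul, D2a_int_abs hε]
    gcongr
    have h4 : ∫ x, |D i D2a_g x| ≤ ∑ i, ∫ x, |D i D2a_g x| :=
      Finset.single_le_sum (f := fun i => ∫ x, |D i D2a_g x|)
        (fun i _ => integral_nonneg fun x => abs_nonneg _) (Finset.mem_univ i)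
    linarith

/-- space-time mollification -/
def moll {F : Type} [NormedAddCommGroup F] [InnerProductSpace ℝ F] (k : ℝ × E3 → ℝ)
    (g : ℝ → E3 → F) (s : ℝ) (x : E3) : F := ∫ p : ℝ × E3, k p • g (s - p.1) (x - p.2)

section

variable {F : Type} [NormedAddCommGroup F] [InnerProductSpace ℝ F] [FiniteDimensional ℝ F]
variable {δ ε C M : ℝ} {k : ℝ × E3 → ℝ} {g : ℝ → E3 → F}

private instance D2a_inst : (volume : Measure (ℝ × E3)).IsAddHaarMeasure :=
  inferInstanceAs ((volume : Measure ℝ).prod (volume : Measure E3)).IsAddHaarMeasure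

omit [FiniteDimensional ℝ F] in
private lemma D2a_conv (k : ℝ × E3 → ℝ) (g : ℝ → E3 → F) (q : ℝ × E3) :
    moll k g q.1 q.2 = (convolution k (fun p : ℝ × E3 => g p.1 p.2)
      (ContinuousLinearMap.lsmul ℝ ℝ) volume) q := rfl

private lemma D2a_cs (hk : Kr δ ε C k) : HasCompactSupport k := by
  apply HasCompactSupport.intro (isCompact_closedBall (0 : ℝ × E3) (max δ ε))
  intro p hp
  apply hk.supp
  simp only [Metric.mem_closedBall, dist_zero_right, not_le, Prod.norm_def, lt_max_iff,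
    max_lt_iff, Real.norm_eq_abs] at hp
  rcases hp with h | h
  · exact Or.inl h.1.le
  · exact Or.inr h.2.le

omit [InnerProductSpace ℝ F] [FiniteDimensional ℝ F] in
private lemma D2a_li (hg : AEStronglyMeasurable (fun p : ℝ × E3 => g p.1 p.2))
    (hM : ∀ s x, ‖g s x‖ ≤ M) : LocallyIntegrable (fun p : ℝ × E3 => g p.1 p.2) := by
  rw [locallyIntegrable_iff]
  intro K hK
  refine Measure.integrableOn_of_bounded (M := M) hK.measure_lt_top.ne hg ?_
  exact Eventually.of_forall fun p => hM p.1 p.2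

theorem moll_smooth (hk : Kr δ ε C k) (hg : AEStronglyMeasurable (fun p : ℝ × E3 => g p.1 p.2))
    (hM : ∀ s x, ‖g s x‖ ≤ M) : ContDiff ℝ ∞ (fun p : ℝ × E3 => moll k g p.1 p.2) := by
  exact (D2a_cs hk).contDiff_convolution_left (ContinuousLinearMap.lsmul ℝ ℝ) hk.smooth
    (D2a_li hg hM)

private lemma D2a_deriv (hk : Kr δ ε C k)
    (hg : AEStronglyMeasurable (fun p : ℝ × E3 => g p.1 p.2))
    (hM : ∀ s x, ‖g s x‖ ≤ M) (q : ℝ × E3) (h : ℝ × E3) :
    fderiv ℝ (fun p : ℝ × E3 => moll k g p.1 p.2) q h =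
      ∫ p : ℝ × E3, (fderiv ℝ k p h) • g (q.1 - p.1) (q.2 - p.2) := by
  have hs1 : ContDiff ℝ 1 k := hk.smooth.of_le (by exact_mod_cast le_top)
  have h1 := (D2a_cs hk).hasFDerivAt_convolution_left (ContinuousLinearMap.lsmul ℝ ℝ)
    hs1 (D2a_li hg hM) q
  have h2 : fderiv ℝ (fun p : ℝ × E3 => moll k g p.1 p.2) q = _ := h1.fderiv
  rw [h2]
  have hli := (D2a_li hg hM)
  have hce : ConvolutionExistsAt (fderiv ℝ k) (fun p : ℝ × E3 => g p.1 p.2) q
      ((ContinuousLinearMap.lsmul ℝ ℝ : ℝ →L[ℝ] F →L[ℝ] F).precompL (ℝ × E3)) volume := by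
    exact (HasCompactSupport.convolutionExists_left _ ((D2a_cs hk).fderiv ℝ)
      (hs1.continuous_fderiv (by simp)) hli) q
  rw [convolution_def, ContinuousLinearMap.integral_apply hce]
  rfl

theorem D_moll (hk : Kr δ ε C k) (hg : AEStronglyMeasurable (fun p : ℝ × E3 => g p.1 p.2))
    (hM : ∀ s x, ‖g s x‖ ≤ M) (i : Fin 3) (s : ℝ) (x : E3) :
    D i (moll k g s) x = ∫ p : ℝ × E3, D i (fun y => k (p.1, y)) p.2 • g (s - p.1) (x - p.2) := by
  have h1 : D i (moll k g s) x =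
      fderiv ℝ (fun p : ℝ × E3 => moll k g p.1 p.2) (s, x) (0, EuclideanSpace.single i 1) := by
    have h2 : HasFDerivAt (fun y : E3 => ((s, y) : ℝ × E3)) (ContinuousLinearMap.inr ℝ ℝ E3) x :=
      hasFDerivAt_prodMk_right s x
    have h3 := (((moll_smooth hk hg hM).differentiable (by simp)) (s, x)).hasFDerivAt.comp x h2
    have h4 : fderiv ℝ (moll k g s) x = _ := h3.fderiv
    unfold D
    rw [h4]
    simp
  rw [h1, D2a_deriv hk hg hM]
  apply integral_congr_ae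
  filter_upwards with p
  congr 1
  have h2 : HasFDerivAt (fun y : E3 => ((p.1, y) : ℝ × E3)) (ContinuousLinearMap.inr ℝ ℝ E3) p.2 :=
    hasFDerivAt_prodMk_right p.1 p.2
  have h3 := ((hk.smooth.differentiable (by simp)) (p.1, p.2)).hasFDerivAt.comp p.2 h2
  have h4 : fderiv ℝ (fun y => k (p.1, y)) p.2 = _ := h3.fderiv
  unfold D
  rw [h4]
  simp

theorem deriv_moll (hk : Kr δ ε C k) (hg : AEStronglyMeasurable (fun p : ℝ × E3 => g p.1 p.2))
    (hM : ∀ s x, ‖g s x‖ ≤ M) (s : ℝ) (x : E3) :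
    deriv (fun τ => moll k g τ x) s =
      ∫ p : ℝ × E3, deriv (fun τ => k (τ, p.2)) p.1 • g (s - p.1) (x - p.2) := by
  have h1 : deriv (fun τ => moll k g τ x) s =
      fderiv ℝ (fun p : ℝ × E3 => moll k g p.1 p.2) (s, x) (1, 0) := by
    have h2 : HasFDerivAt (fun y : ℝ => ((y, x) : ℝ × E3)) (ContinuousLinearMap.inl ℝ ℝ E3) s :=
      hasFDerivAt_prodMk_left s x
    have h3 := (((moll_smooth hk hg hM).differentiable (by simp)) (s, x)).hasFDerivAt.comp s h2
    have h4 : deriv (fun τ => moll k g τ x) s = _ := h3.hasDerivAt.deriv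
    rw [h4]
    simp
  rw [h1, D2a_deriv hk hg hM]
  apply integral_congr_ae
  filter_upwards with p
  congr 1
  have h2 : HasFDerivAt (fun y : ℝ => ((y, p.2) : ℝ × E3)) (ContinuousLinearMap.inl ℝ ℝ E3) p.1 :=
    hasFDerivAt_prodMk_left p.1 p.2
  have h3 := ((hk.smooth.differentiable (by simp)) (p.1, p.2)).hasFDerivAt.comp p.1 h2
  have h4 : deriv (fun y => k (y, p.2)) p.1 = _ := h3.hasDerivAt.deriv
  rw [h4]
  simp

end

end Pool.Agent.Helper60.EC
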