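import Pool.Agent.Helper60.EC.D2a
import Pool.Agent.Helper60.EC.D1

/-! Project EC, D2b: mollified flows, basic bounds -/

set_option autoImplicit false

open MeasureTheory Set Filter Topology
open scoped ENNReal ContDiff

noncomputable section

namespace Pool.Agent.Helper60.EC

open Pool.Agent.Helper52.NSE (E3 pd divg TestField)

/-- the flow, cut off outside the times `(a - 1, b / 2)` -/
def cutv (a b : ℝ) (v : ℝ → E3 → E3) (s : ℝ) (x : E3) : E3 :=
  if a - 1 < s ∧ s < b / 2 then v s x else 0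

variable {C₁ C₂ C₃ E₀ A a b δ ε C : ℝ} {v : ℝ → E3 → E3} {k : ℝ × E3 → ℝ}

theorem D2b_haar : (volume : Measure (ℝ × E3)).IsAddHaarMeasure :=
  inferInstanceAs ((volume : Measure ℝ).prod (volume : Measure E3)).IsAddHaarMeasure

theorem D2b_meas (h : Anc C₁ C₂ C₃ E₀ v) (hb : b < 0) :
    Measurable (fun p : ℝ × E3 => cutv a b v p.1 p.2) := by
  classical
  have h1 : (fun p : ℝ × E3 => cutv a b v p.1 p.2) =
      (Ioo (a - 1) (b / 2) ×ˢ univ : Set (ℝ × E3)).piecewise (fun p => v p.1 p.2)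
        (fun _ => 0) := by
    ext1 p
    by_cases hp : a - 1 < p.1 ∧ p.1 < b / 2
    · have : p ∈ (Ioo (a - 1) (b / 2) ×ˢ univ : Set (ℝ × E3)) := ⟨hp, mem_univ _⟩
      simp only [cutv, if_pos hp, Set.piecewise_eq_of_mem _ _ _ this]
    · have : p ∉ (Ioo (a - 1) (b / 2) ×ˢ univ : Set (ℝ × E3)) := fun hq => hp hq.1
      simp only [cutv, if_neg hp, Set.piecewise_eq_of_notMem _ _ _ this]
  rw [h1]
  refine ContinuousOn.measurable_piecewise (h.cont.mono ?_) continuousOn_const
    (measurableSet_Ioo.prod MeasurableSet.univ)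
  intro p hp
  refine ⟨?_, mem_univ _⟩
  have := hp.1.2
  simp only [mem_Iio]
  linarith

theorem cutv_meas (h : Anc C₁ C₂ C₃ E₀ v) (hb : b < 0) :
    AEStronglyMeasurable (fun p : ℝ × E3 => cutv a b v p.1 p.2) :=
  (D2b_meas h hb).aestronglyMeasurable

theorem cutv_bdd (hA : ∀ s < 0, ∀ x, ‖v s x‖ ≤ A * (-s) ^ (-(3 / 5) : ℝ)) (hA0 : 0 ≤ A)
    (hb : b < 0) (s : ℝ) (x : E3) : ‖cutv a b v s x‖ ≤ A * (-(b / 2)) ^ (-(3 / 5) : ℝ) := by
  unfold cutv
  split_ifs with hs
  · have hs0 : s < 0 := by linarith [hs.2]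
    refine (hA s hs0 x).trans ?_
    gcongr 1
    exact Real.rpow_le_rpow_of_nonpos (by linarith) (by linarith [hs.2]) (by norm_num)
  · rw [norm_zero]
    have : 0 < -(b / 2) := by linarith
    positivity

theorem D2b_cs (hk : Kr δ ε C k) : HasCompactSupport k := by
  apply HasCompactSupport.intro (isCompact_closedBall (0 : ℝ × E3) (max δ ε))
  intro p hp
  apply hk.supp
  simp only [Metric.mem_closedBall, dist_zero_right, not_le, Prod.norm_def, lt_max_iff,
    max_lt_iff, Real.norm_eq_abs] at hp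
  rcases hp with h | h
  · exact Or.inl h.1.le
  · exact Or.inr h.2.le

/-- integrability of continuous compactly supported kernels times bounded functions -/
theorem D2b_int {F : Type} [NormedAddCommGroup F] [NormedSpace ℝ F]
    {c : ℝ × E3 → ℝ} (hc : Continuous c) (hcs : HasCompactSupport c)
    {G : ℝ × E3 → F} (hG : AEStronglyMeasurable G) {M : ℝ} (hM : ∀ p, ‖G p‖ ≤ M) :
    Integrable (fun p => c p • G p) := by
  have h1 : Integrable c (volume : Measure (ℝ × E3)) := by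
    haveI := D2b_haar
    exact hc.integrable_of_hasCompactSupport hcs
  refine (h1.norm.mul_const M).mono' (hc.aestronglyMeasurable.smul hG)
    (Eventually.of_forall fun p => ?_)
  rw [norm_smul]
  exact mul_le_mul_of_nonneg_left (hM p) (norm_nonneg _)

/-- times in the support of the kernel -/
theorem D2b_time (hb : b < 0) (hδ1 : δ ≤ 1) (hδ2 : δ ≤ -(b / 2))
    {s : ℝ} (hs : s ∈ Icc a b) {τ : ℝ} (hτ : |τ| < δ) :
    (a - 1 < s - τ ∧ s - τ < b / 2) ∧ s - τ < 0 ∧ -s / 2 ≤ -(s - τ) := by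
  have h1 := abs_lt.1 hτ
  have h2 := hs.1
  have h3 := hs.2
  refine ⟨⟨by linarith, by linarith⟩, by linarith, by linarith⟩

theorem D2b_cutv (hb : b < 0) (hδ1 : δ ≤ 1) (hδ2 : δ ≤ -(b / 2))
    {s : ℝ} (hs : s ∈ Icc a b) {τ : ℝ} (hτ : |τ| < δ) (x : E3) :
    cutv a b v (s - τ) x = v (s - τ) x := by
  unfold cutv
  rw [if_pos (D2b_time hb hδ1 hδ2 hs hτ).1]

theorem D2b_shift_meas (h : Anc C₁ C₂ C₃ E₀ v) (hb : b < 0) (s : ℝ) :
    Measurable (fun q : E3 × (ℝ × E3) => cutv a b v (s - q.2.1) (q.1 - q.2.2)) := by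
  have h1 : Measurable (fun q : E3 × (ℝ × E3) => ((s - q.2.1, q.1 - q.2.2) : ℝ × E3)) := by
    fun_prop
  exact (D2b_meas (a := a) h hb).comp h1

theorem D2b_shift_meas' (h : Anc C₁ C₂ C₃ E₀ v) (hb : b < 0) (s : ℝ) (x : E3) :
    Measurable (fun q : ℝ × E3 => cutv a b v (s - q.1) (x - q.2)) := by
  have h1 : Measurable (fun q : ℝ × E3 => ((s - q.1, x - q.2) : ℝ × E3)) := by
    fun_prop
  exact (D2b_meas (a := a) h hb).comp h1

theorem D2b_C1 (h : Anc C₁ C₂ C₃ E₀ v) : 0 ≤ C₁ := by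
  have h1 := h.lip (-1) (by norm_num) (EuclideanSpace.single 0 1) 0
  have h2 := (norm_nonneg _).trans h1
  simpa using h2

/-- the norm of a mollified function -/
theorem D2b_norm {g : ℝ → E3 → E3} (hk : Kr δ ε C k) {s : ℝ} {x : E3} {M : ℝ}
    (hM : ∀ p : ℝ × E3, |p.1| < δ → ‖g (s - p.1) (x - p.2)‖ ≤ M) :
    ‖moll k g s x‖ ≤ M := by
  haveI := D2b_haar
  have hki : Integrable k (volume : Measure (ℝ × E3)) :=
    hk.smooth.continuous.integrable_of_hasCompactSupport (D2b_cs hk)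
  have h1 : ‖moll k g s x‖ ≤ ∫ p, k p * M := by
    unfold moll
    refine norm_integral_le_of_norm_le (hki.mul_const M) (Eventually.of_forall fun p => ?_)
    rw [norm_smul, Real.norm_eq_abs, abs_of_nonneg (hk.nonneg p)]
    by_cases hp : |p.1| < δ
    · exact mul_le_mul_of_nonneg_left (hM p hp) (hk.nonneg p)
    · rw [hk.supp p (Or.inl (not_lt.1 hp)), zero_mul, zero_mul]
  rwa [integral_mul_const, hk.one, one_mul] at h1

/-- Jensen's inequality -/
theorem D2b_jensen {G : ℝ × E3 → E3} (hk : Kr δ ε C k) (hG : AEStronglyMeasurable G)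
    {M : ℝ} (hM : ∀ p, ‖G p‖ ≤ M) :
    ‖∫ p, k p • G p‖ ^ 2 ≤ ∫ p, k p * ‖G p‖ ^ 2 := by
  haveI := D2b_haar
  have hki : Integrable k (volume : Measure (ℝ × E3)) :=
    hk.smooth.continuous.integrable_of_hasCompactSupport (D2b_cs hk)
  have hM' : ∀ p, ‖‖G p‖‖ ≤ M := fun p => by rw [norm_norm]; exact hM p
  have hi1 : Integrable (fun p => k p * ‖G p‖) :=
    D2b_int hk.smooth.continuous (D2b_cs hk) hG.norm hM'
  have hi2 : Integrable (fun p => k p * ‖G p‖ ^ 2) := by
    refine D2b_int (M := M ^ 2) hk.smooth.continuous (D2b_cs hk) (hG.norm.pow 2) (fun p => ?_)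
    rw [Real.norm_eq_abs, abs_of_nonneg (sq_nonneg _)]
    exact pow_le_pow_left₀ (norm_nonneg _) (hM p) 2
  set c := ∫ p, k p * ‖G p‖ with hc
  have h1 : ‖∫ p, k p • G p‖ ≤ c := by
    refine (norm_integral_le_integral_norm _).trans (le_of_eq ?_)
    congr 1
    ext p
    rw [norm_smul, Real.norm_eq_abs, abs_of_nonneg (hk.nonneg p)]
  have hc0 : 0 ≤ c := (norm_nonneg _).trans h1
  have h2 : 0 ≤ ∫ p, k p * (‖G p‖ - c) ^ 2 :=
    integral_nonneg fun p => mul_nonneg (hk.nonneg p) (sq_nonneg _)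
  have h3 : ∫ p, k p * (‖G p‖ - c) ^ 2 = (∫ p, k p * ‖G p‖ ^ 2) - 2 * c * c + c ^ 2 * 1 := by
    have h4 : ∀ p, k p * (‖G p‖ - c) ^ 2 =
        k p * ‖G p‖ ^ 2 - 2 * c * (k p * ‖G p‖) + c ^ 2 * k p := fun p => by ring
    rw [integral_congr_ae (Eventually.of_forall h4)]
    have e1 : ∫ p, (k p * ‖G p‖ ^ 2 - 2 * c * (k p * ‖G p‖) + c ^ 2 * k p) =
        (∫ p, (k p * ‖G p‖ ^ 2 - 2 * c * (k p * ‖G p‖))) + ∫ p, c ^ 2 * k p :=
      integral_add (hi2.sub (hi1.const_mul (2 * c))) (hki.const_mul _)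
    have e2 : ∫ p, (k p * ‖G p‖ ^ 2 - 2 * c * (k p * ‖G p‖)) =
        (∫ p, k p * ‖G p‖ ^ 2) - ∫ p, 2 * c * (k p * ‖G p‖) :=
      integral_sub hi2 (hi1.const_mul (2 * c))
    rw [e1, e2, integral_const_mul, integral_const_mul, hk.one]
  have h5 : c ^ 2 ≤ ∫ p, k p * ‖G p‖ ^ 2 := by nlinarith
  exact (pow_le_pow_left₀ (norm_nonneg _) h1 2).trans h5

theorem D2b_div (h : Anc C₁ C₂ C₃ E₀ v)
    (hA : ∀ s < 0, ∀ x, ‖v s x‖ ≤ A * (-s) ^ (-(3 / 5) : ℝ)) (hA0 : 0 ≤ A)
    (hb : b < 0) (hk : Kr δ ε C k) (s : ℝ) (x : E3) :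
    divg (moll k (cutv a b v) s) x = 0 := by
  have hbd := cutv_bdd (a := a) hA hA0 hb
  set M := A * (-(b / 2)) ^ (-(3 / 5) : ℝ) with hMdef
  have hm := cutv_meas (a := a) h hb
  have hcs := D2b_cs hk
  have hDc : ∀ i : Fin 3, (fun p : ℝ × E3 => D i (fun y => k (p.1, y)) p.2) =
      fun p => fderiv ℝ k p (0, EuclideanSpace.single i 1) := by
    intro i
    ext p
    have h2 : HasFDerivAt (fun y : E3 => ((p.1, y) : ℝ × E3)) (ContinuousLinearMap.inr ℝ ℝ E3)
      p.2 := hasFDerivAt_prodMk_right p.1 p.2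
    have h3 := ((hk.smooth.differentiable (by simp)) (p.1, p.2)).hasFDerivAt.comp p.2 h2
    have h4 : fderiv ℝ (fun y => k (p.1, y)) p.2 = _ := h3.fderiv
    unfold D
    rw [h4]
    simp
  have hcont : ∀ i : Fin 3, Continuous (fun p : ℝ × E3 => D i (fun y => k (p.1, y)) p.2) := by
    intro i
    rw [hDc i]
    exact (hk.smooth.continuous_fderiv (by simp)).clm_apply continuous_const
  have hcomp : ∀ i : Fin 3, HasCompactSupport
      (fun p : ℝ × E3 => D i (fun y => k (p.1, y)) p.2) := by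
    intro i
    rw [hDc i]
    exact (hcs.fderiv_apply (𝕜 := ℝ) (0, EuclideanSpace.single i 1))
  have hGm : Measurable (fun q : ℝ × E3 => cutv a b v (s - q.1) (x - q.2)) :=
    D2b_shift_meas' h hb s x
  have hint : ∀ i : Fin 3, Integrable (fun p : ℝ × E3 =>
      D i (fun y => k (p.1, y)) p.2 • cutv a b v (s - p.1) (x - p.2)) := fun i =>
    D2b_int (hcont i) (hcomp i) hGm.aestronglyMeasurable (fun p => hbd _ _)
  have hint' : ∀ i : Fin 3, Integrable (fun p : ℝ × E3 =>
      D i (fun y => k (p.1, y)) p.2 * (cutv a b v (s - p.1) (x - p.2)) i) := by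
    intro i
    have := (EuclideanSpace.proj (𝕜 := ℝ) i : E3 →L[ℝ] ℝ).integrable_comp (hint i)
    simpa using this
  have h1 : divg (moll k (cutv a b v) s) x = ∫ p : ℝ × E3,
      ∑ i, D i (fun y => k (p.1, y)) p.2 * (cutv a b v (s - p.1) (x - p.2)) i := by
    rw [integral_finsetSum _ fun i _ => hint' i]
    unfold divg
    refine Finset.sum_congr rfl fun i _ => ?_
    have h2 : pd (moll k (cutv a b v) s) i x = D i (moll k (cutv a b v) s) x := rfl
    rw [h2, D_moll hk hm hbd]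
    have h3 : ∫ p : ℝ × E3, D i (fun y => k (p.1, y)) p.2 *
        (cutv a b v (s - p.1) (x - p.2)) i = (∫ p : ℝ × E3,
        D i (fun y => k (p.1, y)) p.2 • cutv a b v (s - p.1) (x - p.2)) i :=
      (EuclideanSpace.proj (𝕜 := ℝ) i : E3 →L[ℝ] ℝ).integral_comp_comm (hint i)
    rw [h3]
  rw [h1]
  have hsumint : Integrable (fun p : ℝ × E3 =>
      ∑ i, D i (fun y => k (p.1, y)) p.2 * (cutv a b v (s - p.1) (x - p.2)) i) :=
    integrable_finsetSum _ fun i _ => hint' i
  rw [Measure.volume_eq_prod] at hsumint ⊢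
  rw [integral_prod _ hsumint]
  refine integral_eq_zero_of_ae (Eventually.of_forall fun τ => ?_)
  simp only [Pi.zero_apply]
  -- the inner integral
  have h5 : (fun y : E3 => ∑ i, D i (fun y => k (τ, y)) y * (cutv a b v (s - τ) (x - y)) i) =
      fun y => (fun z => - inner ℝ (cutv a b v (s - τ) z) (grad (fun z => k (τ, x - z)) z))
        (x - y) := by
    ext y
    have h6 : ∀ i : Fin 3, D i (fun z => k (τ, x - z)) (x - y) =
        - D i (fun y => k (τ, y)) y := by
      intro i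
      have h7 : HasFDerivAt (fun z : E3 => x - z) (-ContinuousLinearMap.id ℝ E3) (x - y) := by
        simpa using (hasFDerivAt_id (𝕜 := ℝ) (x - y)).const_sub x
      have h8 : DifferentiableAt ℝ (fun y => k (τ, y)) (x - (x - y)) := by
        have : ContDiff ℝ ∞ (fun y => k (τ, y)) :=
          hk.smooth.comp (contDiff_prodMk_right τ)
        exact (this.differentiable (by simp)).differentiableAt
      have h9 := h8.hasFDerivAt.comp (x - y) h7
      have h10 : fderiv ℝ (fun z => k (τ, x - z)) (x - y) = _ := h9.fderiv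
      unfold D
      rw [h10]
      simp
    simp only [grad, PiLp.inner_apply, RCLike.inner_apply, conj_trivial, Fin.sum_univ_three]
    simp [h6]
    ring
  rw [h5, integral_sub_left_eq_self (fun z => - inner ℝ (cutv a b v (s - τ) z)
    (grad (fun z => k (τ, x - z)) z)), integral_neg, neg_eq_zero]
  by_cases hτ : a - 1 < s - τ ∧ s - τ < b / 2
  · have h6 : ∀ z, cutv a b v (s - τ) z = v (s - τ) z := fun z => by
      unfold cutv
      rw [if_pos hτ]
    simp_rw [h6]
    refine h.div (s - τ) (by linarith [hτ.2]) _ ⟨?_, ?_⟩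
    · exact hk.smooth.comp (contDiff_const.prodMk (contDiff_const.sub contDiff_id))
    · apply HasCompactSupport.intro (isCompact_closedBall x ε)
      intro z hz
      apply hk.supp
      right
      simp only [Metric.mem_closedBall, not_le, dist_eq_norm] at hz
      rw [norm_sub_rev]
      exact hz.le
  · have h6 : ∀ z, cutv a b v (s - τ) z = 0 := fun z => by
      unfold cutv
      rw [if_neg hτ]
    simp [h6]

theorem D2b_l2 (h : Anc C₁ C₂ C₃ E₀ v)
    (hA : ∀ s < 0, ∀ x, ‖v s x‖ ≤ A * (-s) ^ (-(3 / 5) : ℝ)) (hA0 : 0 ≤ A)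
    (hb : b < 0) (hk : Kr δ ε C k) (hδ1 : δ ≤ 1) (hδ2 : δ ≤ -(b / 2)) {s : ℝ}
    (hs : s ∈ Icc a b) :
    MemLp (moll k (cutv a b v) s) 2 volume ∧ sq (moll k (cutv a b v) s) ≤ E₀ := by
  haveI := D2b_haar
  have hbd := cutv_bdd (a := a) hA hA0 hb
  have hm := cutv_meas (a := a) h hb
  have hki : Integrable k (volume : Measure (ℝ × E3)) :=
    hk.smooth.continuous.integrable_of_hasCompactSupport (D2b_cs hk)
  have hE : 0 ≤ E₀ := by
    have h1 := h.energy (-1) (by norm_num)
    exact (integral_nonneg fun x => sq_nonneg _).trans h1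
  have hcontm : Continuous (moll k (cutv a b v) s) := by
    have h1 : Continuous (fun p : ℝ × E3 => moll k (cutv a b v) p.1 p.2) :=
      (moll_smooth hk hm hbd).continuous
    exact h1.comp (Continuous.prodMk_right s)
  have hk1 : ∫⁻ p, ENNReal.ofReal (k p) = 1 := by
    rw [← ofReal_integral_eq_lintegral_ofReal hki (Eventually.of_forall hk.nonneg), hk.one,
      ENNReal.ofReal_one]
  have hmain : ∫⁻ x, ENNReal.ofReal (‖moll k (cutv a b v) s x‖ ^ 2) ≤ ENNReal.ofReal E₀ := by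
    calc ∫⁻ x, ENNReal.ofReal (‖moll k (cutv a b v) s x‖ ^ 2)
        ≤ ∫⁻ x, ∫⁻ p : ℝ × E3, ENNReal.ofReal (k p * ‖cutv a b v (s - p.1) (x - p.2)‖ ^ 2) := by
          refine lintegral_mono fun x => ?_
          have hG : Measurable (fun p : ℝ × E3 => cutv a b v (s - p.1) (x - p.2)) :=
            D2b_shift_meas' h hb s x
          have h1 := D2b_jensen hk hG.aestronglyMeasurable (fun p => hbd (s - p.1) (x - p.2))
          have h2 : Integrable (fun p : ℝ × E3 =>
              k p * ‖cutv a b v (s - p.1) (x - p.2)‖ ^ 2) := by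
            refine D2b_int (M := (A * (-(b / 2)) ^ (-(3 / 5) : ℝ)) ^ 2) hk.smooth.continuous
              (D2b_cs hk) (hG.norm.pow_const 2).aestronglyMeasurable (fun p => ?_)
            rw [Real.norm_eq_abs, abs_of_nonneg (sq_nonneg _)]
            exact pow_le_pow_left₀ (norm_nonneg _) (hbd _ _) 2
          rw [← ofReal_integral_eq_lintegral_ofReal h2
            (Eventually.of_forall fun p => mul_nonneg (hk.nonneg p) (sq_nonneg _))]
          exact ENNReal.ofReal_le_ofReal h1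
      _ = ∫⁻ p : ℝ × E3, ∫⁻ x, ENNReal.ofReal (k p * ‖cutv a b v (s - p.1) (x - p.2)‖ ^ 2) := by
          refine lintegral_lintegral_swap ?_
          refine Measurable.aemeasurable ?_
          refine ENNReal.measurable_ofReal.comp ?_
          refine Measurable.mul ?_ ?_
          · exact hk.smooth.continuous.measurable.comp measurable_snd
          · exact (D2b_shift_meas (a := a) h hb s).norm.pow_const 2
      _ ≤ ∫⁻ p : ℝ × E3, ENNReal.ofReal (k p) * ENNReal.ofReal E₀ := by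
          refine lintegral_mono fun p => ?_
          by_cases hp : |p.1| < δ
          · have h1 : ∀ x, ENNReal.ofReal (k p * ‖cutv a b v (s - p.1) (x - p.2)‖ ^ 2) =
                ENNReal.ofReal (k p) * ENNReal.ofReal (‖v (s - p.1) (x - p.2)‖ ^ 2) := by
              intro x
              rw [D2b_cutv hb hδ1 hδ2 hs hp, ENNReal.ofReal_mul (hk.nonneg p)]
            simp_rw [h1]
            rw [lintegral_const_mul' _ _ ENNReal.ofReal_ne_top]
            gcongr 1
            rw [lintegral_sub_right_eq_self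
              (fun x => ENNReal.ofReal (‖v (s - p.1) x‖ ^ 2)) p.2]
            have hneg := (D2b_time hb hδ1 hδ2 hs hp).2.1
            rw [← ofReal_integral_eq_lintegral_ofReal
              ((h.l2 _ hneg).integrable_norm_pow (by norm_num))
              (Eventually.of_forall fun p => sq_nonneg _)]
            exact ENNReal.ofReal_le_ofReal (h.energy _ hneg)
          · have h1 : ∀ x, ENNReal.ofReal (k p * ‖cutv a b v (s - p.1) (x - p.2)‖ ^ 2) = 0 := by
              intro x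
              rw [hk.supp p (Or.inl (not_lt.1 hp)), zero_mul, ENNReal.ofReal_zero]
            simp_rw [h1]
            simp
      _ = ENNReal.ofReal E₀ := by
          rw [lintegral_mul_const' _ _ ENNReal.ofReal_ne_top, hk1, one_mul]
  have hint : Integrable (fun x => ‖moll k (cutv a b v) s x‖ ^ 2) := by
    refine ⟨(hcontm.norm.pow 2).aestronglyMeasurable, ?_⟩
    rw [hasFiniteIntegral_iff_ofReal (Eventually.of_forall fun x => sq_nonneg _)]
    exact hmain.trans_lt ENNReal.ofReal_lt_top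
  refine ⟨?_, ?_⟩
  · rw [memLp_two_iff_integrable_sq_norm hcontm.aestronglyMeasurable]
    exact hint
  · unfold sq
    rw [integral_eq_lintegral_of_nonneg_ae (Eventually.of_forall fun x => sq_nonneg _)
      hint.aestronglyMeasurable]
    exact ENNReal.toReal_le_of_le_ofReal hE hmain

theorem moll_basic (h : Anc C₁ C₂ C₃ E₀ v)
    (hA : ∀ s < 0, ∀ x, ‖v s x‖ ≤ A * (-s) ^ (-(3 / 5) : ℝ)) (hA0 : 0 ≤ A) (hab : a ≤ b)
    (hb : b < 0) (hk : Kr δ ε C k) (hδ : 0 < δ) (hδ1 : δ ≤ 1) (hδ2 : δ ≤ -(b / 2)) (hε : 0 < ε) :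
    (∀ s x, divg (moll k (cutv a b v) s) x = 0) ∧
    ∀ s ∈ Icc a b, (∀ x, ‖moll k (cutv a b v) s x‖ ≤ 2 * A * (-s) ^ (-(3 / 5) : ℝ)) ∧
      MemLp (moll k (cutv a b v) s) 2 volume ∧ sq (moll k (cutv a b v) s) ≤ E₀ ∧
      (∀ x y, ‖moll k (cutv a b v) s x - moll k (cutv a b v) s y‖ ≤
        2 * C₁ / (-s) * ‖x - y‖) := by
  refine ⟨fun s x => D2b_div h hA hA0 hb hk s x, fun s hs => ⟨fun x => ?_,
    (D2b_l2 h hA hA0 hb hk hδ1 hδ2 hs).1, (D2b_l2 h hA hA0 hb hk hδ1 hδ2 hs).2,
    fun x y => ?_⟩⟩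
  · refine D2b_norm hk fun p hp => ?_
    rw [D2b_cutv hb hδ1 hδ2 hs hp]
    obtain ⟨-, h2, h3⟩ := D2b_time hb hδ1 hδ2 hs hp
    refine (hA _ h2 _).trans ?_
    have hs0 : 0 < -s := by have := hs.2; linarith
    have h4 : (-(s - p.1)) ^ (-(3 / 5) : ℝ) ≤ (-s / 2) ^ (-(3 / 5) : ℝ) :=
      Real.rpow_le_rpow_of_nonpos (by positivity) h3 (by norm_num)
    have h5 : (-s / 2) ^ (-(3 / 5) : ℝ) ≤ 2 * (-s) ^ (-(3 / 5) : ℝ) := by
      rw [Real.div_rpow hs0.le (by norm_num), div_eq_mul_inv, mul_comm]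
      gcongr 1
      rw [← Real.rpow_neg (by norm_num)]
      calc (2 : ℝ) ^ (-(-(3 / 5) : ℝ)) ≤ 2 ^ (1 : ℝ) :=
            Real.rpow_le_rpow_of_exponent_le (by norm_num) (by norm_num)
        _ = 2 := Real.rpow_one 2
    calc A * (-(s - p.1)) ^ (-(3 / 5) : ℝ) ≤ A * (2 * (-s) ^ (-(3 / 5) : ℝ)) := by
          gcongr 1
          exact h4.trans h5
      _ = 2 * A * (-s) ^ (-(3 / 5) : ℝ) := by ring
  · have hbd := cutv_bdd (a := a) hA hA0 hb
    have hC := D2b_C1 h
    have hs0 : 0 < -s := by have := hs.2; linarith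
    have h1 : moll k (cutv a b v) s x - moll k (cutv a b v) s y =
        moll k (fun τ z => cutv a b v τ z - cutv a b v τ (z - (x - y))) s x := by
      unfold moll
      have hx : Integrable (fun p : ℝ × E3 => k p • cutv a b v (s - p.1) (x - p.2)) :=
        D2b_int hk.smooth.continuous (D2b_cs hk)
          (D2b_shift_meas' h hb s x).aestronglyMeasurable (fun p => hbd _ _)
      have hy : Integrable (fun p : ℝ × E3 => k p • cutv a b v (s - p.1) (y - p.2)) :=
        D2b_int hk.smooth.continuous (D2b_cs hk)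
          (D2b_shift_meas' h hb s y).aestronglyMeasurable (fun p => hbd _ _)
      rw [← integral_sub hx hy]
      congr 1
      ext1 p
      rw [smul_sub]
      congr 3
      abel
    rw [h1]
    refine D2b_norm hk fun p hp => ?_
    rw [D2b_cutv hb hδ1 hδ2 hs hp, D2b_cutv hb hδ1 hδ2 hs hp]
    obtain ⟨-, h2, h3⟩ := D2b_time hb hδ1 hδ2 hs hp
    refine (h.lip _ h2 _ _).trans ?_
    have h4 : x - p.2 - (x - p.2 - (x - y)) = x - y := by abel
    rw [h4]
    gcongr 1
    rw [div_le_div_iff₀ (by linarith) hs0]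
    nlinarith
end Pool.Agent.Helper60.EC
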