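import Pool.Agent.Helper60.EC.D2b

/-! Project EC, D2c: the equation of the mollified flow -/

set_option autoImplicit false

open MeasureTheory Set Filter Topology
open scoped ENNReal ContDiff

noncomputable section

namespace Pool.Agent.Helper60.EC

open Pool.Agent.Helper52.NSE (E3 pd divg TestField)

/-- the mollified stress `(v_i v)_ε` -/
def TT (k : ℝ × E3 → ℝ) (g : ℝ → E3 → E3) (i : Fin 3) (s : ℝ) : E3 → E3 :=
  moll k (fun s x => (g s x) i • g s x) s

/-- joint continuity of the flow -/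
theorem D2c_cont {C₁ C₂ C₃ E₀ : ℝ} {v : ℝ → E3 → E3} (h : Anc C₁ C₂ C₃ E₀ v)
    {s₀ : ℝ} (hs₀ : s₀ < 0) (x₀ : E3) :
    ContinuousAt (fun p : ℝ × E3 => v p.1 p.2) (s₀, x₀) := by
  obtain ⟨C, hC, hT⟩ := Anc_time C₁ C₃
  have hT' := hT C₂ E₀ v h
  have e0 : ∀ᶠ p : ℝ × E3 in 𝓝 (s₀, x₀), p.1 < s₀ / 2 :=
    (continuous_fst.tendsto (s₀, x₀)).eventually (Iio_mem_nhds (by simp; linarith))
  rw [ContinuousAt, tendsto_iff_norm_sub_tendsto_zero]
  refine squeeze_zero_norm' (a := fun p : ℝ × E3 => |C₁| / (-(s₀ / 2)) * ‖p.2 - x₀‖ +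
    (C * |p.1 - s₀| / (-(s₀ / 2)) ^ 4) ^ (1 / 5 : ℝ)) ?_ ?_
  · filter_upwards [e0] with p hp
    rw [norm_norm]
    have h1 : ‖v p.1 p.2 - v p.1 x₀‖ ≤ |C₁| / (-(s₀ / 2)) * ‖p.2 - x₀‖ := by
      refine (h.lip p.1 (by linarith) p.2 x₀).trans ?_
      refine mul_le_mul_of_nonneg_right ?_ (norm_nonneg _)
      refine (div_le_div_of_nonneg_right (le_abs_self C₁) (by linarith)).trans ?_
      exact div_le_div_of_nonneg_left (abs_nonneg _) (by linarith) (by linarith)
    have h2 : ‖v p.1 x₀ - v s₀ x₀‖ ≤ (C * |p.1 - s₀| / (-(s₀ / 2)) ^ 4) ^ (1 / 5 : ℝ) := by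
      have h3 : ‖v p.1 x₀ - v s₀ x₀‖ ^ 5 ≤ C * |p.1 - s₀| / (-(s₀ / 2)) ^ 4 := by
        rcases lt_trichotomy p.1 s₀ with hlt | heq | hgt
        · have := hT' p.1 s₀ hlt hs₀ x₀
          rw [norm_sub_rev] at this
          refine this.trans ?_
          rw [abs_of_neg (by linarith : p.1 - s₀ < 0), neg_sub]
          refine div_le_div_of_nonneg_left (by nlinarith) (pow_pos (by linarith) 4) ?_
          exact pow_le_pow_left₀ (by linarith) (by linarith) 4
        · rw [heq]; simp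
        · have := hT' s₀ p.1 hgt (by linarith) x₀
          refine this.trans ?_
          rw [abs_of_pos (by linarith : 0 < p.1 - s₀)]
          refine div_le_div_of_nonneg_left (by nlinarith) (pow_pos (by linarith) 4) ?_
          exact pow_le_pow_left₀ (by linarith) (by linarith) 4
      have h4 : ‖v p.1 x₀ - v s₀ x₀‖ = (‖v p.1 x₀ - v s₀ x₀‖ ^ 5) ^ (1 / 5 : ℝ) := by
        rw [← Real.rpow_natCast, ← Real.rpow_mul (norm_nonneg _)]
        norm_num
      rw [h4]
      exact Real.rpow_le_rpow (by positivity) h3 (by norm_num)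
    calc ‖v p.1 p.2 - v s₀ x₀‖ = ‖(v p.1 p.2 - v p.1 x₀) + (v p.1 x₀ - v s₀ x₀)‖ := by
          congr 1; abel
      _ ≤ _ := (norm_add_le _ _).trans (add_le_add h1 h2)
  · have hc : Continuous (fun p : ℝ × E3 => |C₁| / (-(s₀ / 2)) * ‖p.2 - x₀‖ +
        (C * |p.1 - s₀| / (-(s₀ / 2)) ^ 4) ^ (1 / 5 : ℝ)) := by
      refine Continuous.add (by fun_prop) ?_
      refine Continuous.rpow_const (by fun_prop) fun p => Or.inr (by norm_num)
    have := hc.tendsto (s₀, x₀)
    simpa using this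

theorem D2c_meas {C₁ C₂ C₃ E₀ a b : ℝ} {v : ℝ → E3 → E3} (h : Anc C₁ C₂ C₃ E₀ v) (hb : b < 0) :
    Measurable (fun p : ℝ × E3 => cutv a b v p.1 p.2) := by
  classical
  have hS : MeasurableSet {p : ℝ × E3 | a - 1 < p.1 ∧ p.1 < b / 2} :=
    (measurableSet_lt measurable_const measurable_fst).inter
      (measurableSet_lt measurable_fst measurable_const)
  have h1 : ContinuousOn (fun p : ℝ × E3 => v p.1 p.2) {p : ℝ × E3 | a - 1 < p.1 ∧ p.1 < b / 2} :=
    fun p hp => (D2c_cont h (by have := hp.2; linarith) p.2).continuousWithinAt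
  have h2 := h1.measurable_piecewise
    (continuousOn_const (c := (0 : E3)) (s := {p : ℝ × E3 | a - 1 < p.1 ∧ p.1 < b / 2}ᶜ)) hS
  have h3 : (fun p : ℝ × E3 => cutv a b v p.1 p.2) =
      {p : ℝ × E3 | a - 1 < p.1 ∧ p.1 < b / 2}.piecewise (fun p => v p.1 p.2) fun _ => 0 := by
    funext p
    simp only [Set.piecewise, Set.mem_ofPred_eq, cutv]
  rw [h3]
  exact h2

/-- `∫ W(σ, x) · φ(x + y) dx` -/
def D2c_J (W : ℝ × E3 → E3) (φ : E3 → E3) (σ : ℝ) (y : E3) : ℝ :=
  ∫ x, inner ℝ (W (σ, x)) (φ (x + y))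

section A

variable {K : ℝ × E3 → ℝ} {W : ℝ × E3 → E3} {M : ℝ} {φ : E3 → E3}

theorem D2c_int (hK : Continuous K) (hKc : HasCompactSupport K) (hW : Measurable W)
    (hM : ∀ q, ‖W q‖ ≤ M) (hφ : Continuous φ) (hφc : HasCompactSupport φ) (s : ℝ) :
    Integrable (fun q : E3 × (ℝ × E3) => K q.2 * inner ℝ (W (s - q.2.1, q.1 - q.2.2)) (φ q.1))
      (volume.prod volume) := by
  have h1 : Integrable (fun q : E3 × (ℝ × E3) => (M * ‖φ q.1‖) * ‖K q.2‖)
      (volume.prod volume) :=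
    ((hφ.norm.integrable_of_hasCompactSupport hφc.norm).const_mul M).mul_prod
      (hK.norm.integrable_of_hasCompactSupport hKc.norm)
  refine h1.mono' ?_ (Eventually.of_forall fun q => ?_)
  · have hm : Measurable (fun q : E3 × (ℝ × E3) => W (s - q.2.1, q.1 - q.2.2)) :=
      hW.comp (by fun_prop)
    exact ((hK.measurable.comp measurable_snd).mul
      (hm.inner (hφ.measurable.comp measurable_fst))).aestronglyMeasurable
  · rw [norm_mul]
    have h2 := norm_inner_le_norm (𝕜 := ℝ) (W (s - q.2.1, q.1 - q.2.2)) (φ q.1)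
    have h3 := mul_le_mul_of_nonneg_right (hM (s - q.2.1, q.1 - q.2.2)) (norm_nonneg (φ q.1))
    have h4 := norm_nonneg (K q.2)
    nlinarith [h2.trans h3]

theorem D2c_shift (W : ℝ × E3 → E3) (φ : E3 → E3) (σ : ℝ) (y : E3) :
    ∫ x, inner ℝ (W (σ, x - y)) (φ x) = D2c_J W φ σ y := by
  have := integral_sub_right_eq_self (μ := (volume : Measure E3))
    (fun x => (inner ℝ (W (σ, x)) (φ (x + y)) : ℝ)) y
  simpa [D2c_J] using this

theorem D2c_A (hK : Continuous K) (hKc : HasCompactSupport K) (hW : Measurable W)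
    (hM : ∀ q, ‖W q‖ ≤ M) (hφ : Continuous φ) (hφc : HasCompactSupport φ) (s : ℝ) :
    Integrable (fun x => (inner ℝ (∫ p : ℝ × E3, K p • W (s - p.1, x - p.2)) (φ x) : ℝ)) ∧
    Integrable (fun p : ℝ × E3 => K p * D2c_J W φ (s - p.1) p.2) ∧
    ∫ x, inner ℝ (∫ p : ℝ × E3, K p • W (s - p.1, x - p.2)) (φ x) =
      ∫ p : ℝ × E3, K p * D2c_J W φ (s - p.1) p.2 := by
  have hint := D2c_int hK hKc hW hM hφ hφc s
  have hKi : ∀ x, Integrable (fun p : ℝ × E3 => K p • W (s - p.1, x - p.2)) := by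
    intro x
    have h1 : Integrable (fun p : ℝ × E3 => M * ‖K p‖) :=
      (hK.norm.integrable_of_hasCompactSupport hKc.norm).const_mul M
    refine h1.mono' ?_ (Eventually.of_forall fun p => ?_)
    · have hm : Measurable (fun p : ℝ × E3 => W (s - p.1, x - p.2)) := hW.comp (by fun_prop)
      exact (hK.measurable.smul hm).aestronglyMeasurable
    · rw [norm_smul, mul_comm]
      exact mul_le_mul_of_nonneg_right (hM _) (norm_nonneg _)
  have e1 : ∀ x, (inner ℝ (∫ p : ℝ × E3, K p • W (s - p.1, x - p.2)) (φ x) : ℝ) =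
      ∫ p : ℝ × E3, K p * inner ℝ (W (s - p.1, x - p.2)) (φ x) := by
    intro x
    rw [real_inner_comm, ← integral_inner (hKi x)]
    refine integral_congr_ae (Eventually.of_forall fun p => ?_)
    simp only [real_inner_smul_right]
    rw [real_inner_comm]
  have e2 : ∀ p : ℝ × E3, ∫ x, K p * inner ℝ (W (s - p.1, x - p.2)) (φ x) =
      K p * D2c_J W φ (s - p.1) p.2 := by
    intro p
    rw [integral_const_mul, D2c_shift W]
  refine ⟨?_, ?_, ?_⟩
  · simp_rw [e1]
    exact hint.integral_prod_left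
  · simp_rw [← e2]
    exact hint.integral_prod_right
  · simp_rw [e1, ← e2]
    exact integral_integral_swap hint

end A

/-- translated test fields -/
theorem D2c_test {φ : E3 → E3} (hφ : TestField univ φ) (y : E3) :
    TestField univ (fun x => φ (x + y)) := by
  have hD : ∀ i x, D i (fun x => φ (x + y)) x = D i φ (x + y) := by
    intro i x
    have := D_comp_affine (hφ.smooth.differentiable (by simp)) 1 y i x
    simpa [add_comm] using this
  refine ⟨hφ.smooth.comp (by fun_prop), ?_, subset_univ _, fun x => ?_⟩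
  · exact hφ.compact.comp_homeomorph (Homeomorph.addRight y)
  · have := hφ.div (x + y)
    simp only [divg, pd_eq] at this ⊢
    simpa [hD] using this

theorem D2c_D {φ : E3 → E3} (hφ : ContDiff ℝ ∞ φ) (y : E3) (i : Fin 3) (x : E3) :
    D i (fun x => φ (x + y)) x = D i φ (x + y) := by
  have := D_comp_affine (hφ.differentiable (by simp)) 1 y i x
  simpa [add_comm] using this

/-- continuity of the nonlinear term -/
theorem D2c_nl_cont {C₁ C₂ C₃ E₀ A : ℝ} {v : ℝ → E3 → E3} (h : Anc C₁ C₂ C₃ E₀ v)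
    (hA : ∀ s < 0, ∀ x, ‖v s x‖ ≤ A * (-s) ^ (-(3 / 5) : ℝ)) (hA0 : 0 ≤ A) {φ : E3 → E3}
    (hφ : TestField univ φ) {s : ℝ} (hs : s < 0) : ContinuousAt (fun τ => nl φ (v τ)) s := by
  set M : ℝ := A * (-(s / 2)) ^ (-(3 / 5) : ℝ) with hMd
  have hM0 : 0 ≤ M := mul_nonneg hA0 (Real.rpow_nonneg (by linarith) _)
  have e0 : ∀ᶠ τ : ℝ in 𝓝 s, τ < s / 2 := Iio_mem_nhds (by linarith)
  have hMb : ∀ τ < s / 2, ∀ x, ‖v τ x‖ ≤ M := by
    intro τ hτ x
    refine (hA τ (by linarith) x).trans (mul_le_mul_of_nonneg_left ?_ hA0)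
    exact Real.rpow_le_rpow_of_nonpos (by linarith) (by linarith) (by norm_num)
  have hDc : ∀ i, Continuous (D i φ) := fun i => (D_smooth hφ.smooth i).continuous
  have hDs : ∀ i, HasCompactSupport (D i φ) := fun i =>
    hφ.compact.of_isClosed_subset (isClosed_tsupport _) (D_tsupport φ i)
  have hmeas : ∀ τ < 0, Continuous (v τ) := by
    intro τ hτ
    rw [continuous_iff_continuousAt]
    intro x
    have := D2c_cont h hτ x
    exact this.comp (f := fun x => ((τ, x) : ℝ × E3)) (by fun_prop)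
  unfold nl
  refine continuousAt_of_dominated (bound := fun x => ∑ i : Fin 3, M * (M * ‖D i φ x‖)) ?_ ?_ ?_ ?_
  · filter_upwards [e0] with τ hτ
    have hc := hmeas τ (by linarith)
    have : Continuous (fun x => ∑ i : Fin 3, (v τ x) i * inner ℝ (v τ x) (D i φ x)) := by
      refine continuous_finsetSum _ fun i _ => ?_
      exact ((EuclideanSpace.proj (𝕜 := ℝ) i : E3 →L[ℝ] ℝ).continuous.comp hc).mul
        (hc.inner (hDc i))
    exact this.aestronglyMeasurable
  · filter_upwards [e0] with τ hτ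
    refine Eventually.of_forall fun x => ?_
    refine (norm_sum_le _ _).trans (Finset.sum_le_sum fun i _ => ?_)
    rw [norm_mul]
    have h1 : ‖(v τ x) i‖ ≤ ‖v τ x‖ := PiLp.norm_apply_le _ _
    have h2 := norm_inner_le_norm (𝕜 := ℝ) (v τ x) (D i φ x)
    have h3 := hMb τ hτ x
    have h4 := norm_nonneg (D i φ x)
    exact mul_le_mul (h1.trans h3) (h2.trans (mul_le_mul_of_nonneg_right h3 h4)) (norm_nonneg _) hM0
  · refine integrable_finsetSum _ fun i _ => ?_
    exact (((hDc i).norm.integrable_of_hasCompactSupport (hDs i).norm).const_mul M).const_mul M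
  · refine Eventually.of_forall fun x => ?_
    have hc : ContinuousAt (fun τ => v τ x) s :=
      (D2c_cont h hs x).comp (f := fun τ : ℝ => ((τ, x) : ℝ × E3)) (by fun_prop)
    have : ∀ i ∈ (Finset.univ : Finset (Fin 3)),
        ContinuousAt (fun τ => (v τ x) i * (inner ℝ (v τ x) (D i φ x) : ℝ)) s := by
      intro i _
      exact ((EuclideanSpace.proj (𝕜 := ℝ) i : E3 →L[ℝ] ℝ).continuous.continuousAt.comp hc).mul
        (hc.inner continuousAt_const)
    exact tendsto_finsetSum _ this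

theorem D2c_deriv {C₁ C₂ C₃ E₀ A : ℝ} {v : ℝ → E3 → E3} (h : Anc C₁ C₂ C₃ E₀ v)
    (hA : ∀ s < 0, ∀ x, ‖v s x‖ ≤ A * (-s) ^ (-(3 / 5) : ℝ)) (hA0 : 0 ≤ A) {φ : E3 → E3}
    (hφ : TestField univ φ) {s : ℝ} (hs : s < 0) :
    HasDerivAt (fun τ => ip (v τ) φ) (nl φ (v s)) s := by
  have hcon : ∀ σ < 0, ContinuousAt (fun τ => nl φ (v τ)) σ := fun σ hσ =>
    D2c_nl_cont h hA hA0 hφ hσ
  have hco : ContinuousOn (fun τ => nl φ (v τ)) (Iio 0) := fun σ hσ =>
    (hcon σ hσ).continuousWithinAt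
  have hii : IntervalIntegrable (fun τ => nl φ (v τ)) volume (2 * s) s := by
    refine ContinuousOn.intervalIntegrable (hco.mono ?_)
    intro σ hσ
    rw [uIcc_of_le (by linarith)] at hσ
    exact lt_of_le_of_lt hσ.2 hs
  have hsm : StronglyMeasurableAtFilter (fun τ => nl φ (v τ)) (𝓝 s) volume :=
    hco.stronglyMeasurableAtFilter isOpen_Iio s hs
  have h1 := intervalIntegral.integral_hasDerivAt_right hii hsm (hcon s hs)
  have h2 : HasDerivAt (fun τ => ip (v (2 * s)) φ + ∫ x in (2 * s)..τ, nl φ (v x)) (nl φ (v s)) s :=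
    h1.const_add _
  refine h2.congr_of_eventuallyEq ?_
  have e0 : ∀ᶠ τ : ℝ in 𝓝 s, 2 * s < τ ∧ τ < 0 :=
    (Ioo_mem_nhds (by linarith) hs)
  filter_upwards [e0] with τ hτ
  have := h.eqn φ hφ (2 * s) τ hτ.1 hτ.2
  linarith

theorem D2c_kr_comp {δ ε C : ℝ} {k : ℝ × E3 → ℝ} (hk : Kr δ ε C k) : HasCompactSupport k := by
  refine HasCompactSupport.intro (K := Metric.closedBall (0 : ℝ) |δ| ×ˢ Metric.closedBall (0 : E3) |ε|)
    ((isCompact_closedBall _ _).prod (isCompact_closedBall _ _)) fun p hp => ?_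
  refine hk.supp p ?_
  by_contra hc
  push Not at hc
  refine hp ⟨?_, ?_⟩
  · rw [mem_closedBall_zero_iff, Real.norm_eq_abs]
    exact hc.1.le.trans (le_abs_self δ)
  · rw [mem_closedBall_zero_iff]
    exact hc.2.le.trans (le_abs_self ε)

theorem D2c_kt {k : ℝ × E3 → ℝ} (hk : ContDiff ℝ ∞ k) (hkc : HasCompactSupport k) :
    Continuous (fun p : ℝ × E3 => deriv (fun τ => k (τ, p.2)) p.1) ∧
    HasCompactSupport (fun p : ℝ × E3 => deriv (fun τ => k (τ, p.2)) p.1) ∧
    ∀ p : ℝ × E3, HasDerivAt (fun τ => k (τ, p.2)) (deriv (fun τ => k (τ, p.2)) p.1) p.1 := by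
  have h1 : ∀ p : ℝ × E3, HasDerivAt (fun τ => k (τ, p.2)) (fderiv ℝ k p (1, 0)) p.1 := by
    intro p
    have h2 : HasFDerivAt k (fderiv ℝ k p) p := (hk.differentiable (by simp) p).hasFDerivAt
    have h3 : HasDerivAt (fun τ : ℝ => ((τ, p.2) : ℝ × E3)) (1, 0) p.1 :=
      (hasDerivAt_id p.1).prodMk (hasDerivAt_const p.1 p.2)
    exact HasFDerivAt.comp_hasDerivAt p.1 (f := fun τ : ℝ => ((τ, p.2) : ℝ × E3)) h2 h3
  have h4 : (fun p : ℝ × E3 => deriv (fun τ => k (τ, p.2)) p.1) = fun p => fderiv ℝ k p (1, 0) :=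
    funext fun p => (h1 p).deriv
  refine ⟨?_, ?_, fun p => ?_⟩
  · rw [h4]
    exact (hk.continuous_fderiv (by simp)).clm_apply continuous_const
  · rw [h4]
    exact (hkc.fderiv ℝ).mono' (fun p hp => subset_closure (by
      intro hc
      apply hp
      simp [hc]))
  · rw [(h1 p).deriv]
    exact h1 p

/-- the time integration by parts for one translation `y` -/
theorem D2c_time {C₁ C₂ C₃ E₀ A a b δ ε C : ℝ} {v : ℝ → E3 → E3} {k : ℝ × E3 → ℝ}
    (h : Anc C₁ C₂ C₃ E₀ v)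
    (hA : ∀ s < 0, ∀ x, ‖v s x‖ ≤ A * (-s) ^ (-(3 / 5) : ℝ)) (hA0 : 0 ≤ A)
    (hb : b < 0) (hk : Kr δ ε C k) (hδ : 0 < δ) (hδ1 : δ ≤ 1) (hδ2 : δ ≤ -(b / 2))
    {s : ℝ} (hs : s ∈ Icc a b) {φ : E3 → E3} (hφ : TestField univ φ) (y : E3) (G N : ℝ → ℝ)
    (hG : ∀ σ, a - 1 < σ → σ < b / 2 → G σ = ip (v σ) φ)
    (hN : ∀ σ, a - 1 < σ → σ < b / 2 → N σ = nl φ (v σ)) :
    ∫ τ, deriv (fun τ => k (τ, y)) τ * G (s - τ) = ∫ τ, k (τ, y) * N (s - τ) := by
  obtain ⟨hc, hcs, hd⟩ := D2c_kt hk.smooth (D2c_kr_comp hk)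
  have hd' : ∀ τ, HasDerivAt (fun τ => k (τ, y)) (deriv (fun τ => k (τ, y)) τ) τ := fun τ =>
    hd (τ, y)
  have hk0 : ∀ τ, δ ≤ |τ| → k (τ, y) = 0 := fun τ hτ => hk.supp (τ, y) (Or.inl hτ)
  have hk1 : ∀ τ, τ ∉ Icc (-δ) δ → deriv (fun τ => k (τ, y)) τ = 0 := by
    intro τ hτ
    have h1 : {τ : ℝ | δ < |τ|} ∈ 𝓝 τ := by
      refine (isOpen_lt continuous_const continuous_abs).mem_nhds ?_
      rw [Set.mem_ofPred_eq]
      by_contra hc
      push Not at hc
      exact hτ (abs_le.1 hc)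
    have h2 : (fun τ => k (τ, y)) =ᶠ[𝓝 τ] fun _ => 0 := by
      filter_upwards [h1] with t ht
      exact hk0 t (le_of_lt ht)
    rw [h2.deriv_eq]
    simp
  have e1 : ∫ τ, deriv (fun τ => k (τ, y)) τ * G (s - τ) =
      ∫ τ in Ioo (-δ) δ, deriv (fun τ => k (τ, y)) τ * ip (v (s - τ)) φ := by
    rw [← setIntegral_eq_integral_of_forall_compl_eq_zero (s := Icc (-δ) δ)
      (fun τ hτ => by rw [hk1 τ hτ, zero_mul]), integral_Icc_eq_integral_Ioo]
    refine setIntegral_congr_fun measurableSet_Ioo fun τ hτ => ?_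
    rw [hG (s - τ) (by linarith [hτ.2, hs.1]) (by linarith [hτ.1, hs.2])]
  have e2 : ∫ τ, k (τ, y) * N (s - τ) =
      ∫ τ in Ioo (-δ) δ, k (τ, y) * nl φ (v (s - τ)) := by
    rw [← setIntegral_eq_integral_of_forall_compl_eq_zero (s := Icc (-δ) δ)
      (fun τ hτ => by
        rw [hk0 τ (by
          by_contra hc
          push Not at hc
          exact hτ (abs_le.1 hc.le)), zero_mul]), integral_Icc_eq_integral_Ioo]
    refine setIntegral_congr_fun measurableSet_Ioo fun τ hτ => ?_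
    rw [hN (s - τ) (by linarith [hτ.2, hs.1]) (by linarith [hτ.1, hs.2])]
  rw [e1, e2, ← integral_Ioc_eq_integral_Ioo, ← integral_Ioc_eq_integral_Ioo,
    ← intervalIntegral.integral_of_le (by linarith), ← intervalIntegral.integral_of_le (by linarith)]
  have hneg : ∀ τ ∈ uIcc (-δ) δ, s - τ < 0 := by
    intro τ hτ
    rw [uIcc_of_le (by linarith)] at hτ
    linarith [hτ.1, hs.2]
  have hv : ∀ τ ∈ uIcc (-δ) δ,
      HasDerivAt (fun τ => ip (v (s - τ)) φ) (-nl φ (v (s - τ))) τ := by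
    intro τ hτ
    have h1 := D2c_deriv h hA hA0 hφ (hneg τ hτ)
    exact HasDerivAt.comp_const_sub (f := fun τ => ip (v τ) φ) s τ h1
  have hnc : ContinuousOn (fun τ => -nl φ (v (s - τ))) (uIcc (-δ) δ) := by
    intro τ hτ
    have h1 : ContinuousAt (fun τ => nl φ (v (s - τ))) τ :=
      ContinuousAt.comp (f := fun τ : ℝ => s - τ) (g := fun τ => nl φ (v τ))
        (D2c_nl_cont h hA hA0 hφ (hneg τ hτ)) (by fun_prop)
    exact h1.neg.continuousWithinAt
  have hdc : Continuous (fun τ => deriv (fun τ => k (τ, y)) τ) :=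
    hc.comp (f := fun τ : ℝ => ((τ, y) : ℝ × E3)) (by fun_prop)
  have key := intervalIntegral.integral_mul_deriv_eq_deriv_mul (a := -δ) (b := δ)
    (u := fun τ => k (τ, y)) (v := fun τ => ip (v (s - τ)) φ)
    (u' := fun τ => deriv (fun τ => k (τ, y)) τ) (v' := fun τ => -nl φ (v (s - τ)))
    (fun τ _ => hd' τ) hv (hdc.intervalIntegrable _ _) hnc.intervalIntegrable
  have hz1 : k (δ, y) = 0 := hk0 δ (by rw [abs_of_pos hδ])
  have hz2 : k (-δ, y) = 0 := hk0 (-δ) (by rw [abs_neg, abs_of_pos hδ])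
  simp only [hz1, hz2, zero_mul, sub_zero, mul_neg, intervalIntegral.integral_neg] at key
  linarith

theorem moll_eqn {C₁ C₂ C₃ E₀ A a b δ ε C : ℝ} {v : ℝ → E3 → E3} {k : ℝ × E3 → ℝ}
    (h : Anc C₁ C₂ C₃ E₀ v)
    (hA : ∀ s < 0, ∀ x, ‖v s x‖ ≤ A * (-s) ^ (-(3 / 5) : ℝ)) (hA0 : 0 ≤ A) (hab : a ≤ b)
    (hb : b < 0) (hk : Kr δ ε C k) (hδ : 0 < δ) (hδ1 : δ ≤ 1) (hδ2 : δ ≤ -(b / 2)) (hε : 0 < ε)
    {s : ℝ} (hs : s ∈ Icc a b) (φ : E3 → E3) (hφ : TestField univ φ) :
    ip (fun x => deriv (fun τ => moll k (cutv a b v) τ x) s +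
      ∑ i, D i (TT k (cutv a b v) i s) x) φ = 0 := by
  set M : ℝ := A * (-(b / 2)) ^ (-(3 / 5) : ℝ) with hMd
  have hM : ∀ s x, ‖cutv a b v s x‖ ≤ M := cutv_bdd hA hA0 hb
  have hM0 : 0 ≤ M := (norm_nonneg _).trans (hM 0 0)
  have hWm : Measurable (fun p : ℝ × E3 => cutv a b v p.1 p.2) := D2c_meas h hb
  set W : ℝ × E3 → E3 := fun p => cutv a b v p.1 p.2 with hW
  have hWM : ∀ q, ‖W q‖ ≤ M := fun q => hM q.1 q.2
  set Wi : Fin 3 → ℝ × E3 → E3 := fun i p => (W p) i • W p with hWi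
  have hWim : ∀ i, Measurable (Wi i) := by
    intro i
    have : Measurable (fun p => (W p) i) :=
      (EuclideanSpace.proj (𝕜 := ℝ) i : E3 →L[ℝ] ℝ).continuous.measurable.comp hWm
    exact this.smul hWm
  have hWiM : ∀ i q, ‖Wi i q‖ ≤ M * M := by
    intro i q
    rw [hWi]
    simp only [norm_smul]
    have h1 : ‖(W q) i‖ ≤ ‖W q‖ := PiLp.norm_apply_le _ _
    exact mul_le_mul (h1.trans (hWM q)) (hWM q) (norm_nonneg _) hM0
  have hkc := D2c_kr_comp hk
  obtain ⟨hktc, hkts, hktd⟩ := D2c_kt hk.smooth hkc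
  have hφc := hφ.smooth.continuous
  have hDc : ∀ i, Continuous (D i φ) := fun i => (D_smooth hφ.smooth i).continuous
  have hDs : ∀ i, HasCompactSupport (D i φ) := fun i =>
    hφ.compact.of_isClosed_subset (isClosed_tsupport _) (D_tsupport φ i)
  -- the time derivative
  have T := D2c_A hktc hkts hWm hWM hφc hφ.compact s
  have e1 : ∀ x, deriv (fun τ => moll k (cutv a b v) τ x) s =
      ∫ p : ℝ × E3, deriv (fun τ => k (τ, p.2)) p.1 • W (s - p.1, x - p.2) := fun x =>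
    deriv_moll hk hWm.aestronglyMeasurable hM s x
  -- the stress
  have hTs : ∀ i, ContDiff ℝ ∞ (TT k (cutv a b v) i s) := by
    intro i
    have h1 : ContDiff ℝ ∞ (fun p : ℝ × E3 => moll k (fun s x => (cutv a b v s x) i • cutv a b v s x)
        p.1 p.2) := moll_smooth hk (hWim i).aestronglyMeasurable (fun s x => hWiM i (s, x))
    exact h1.comp (f := fun x : E3 => ((s, x) : ℝ × E3)) (by fun_prop)
  have S := fun i => D2c_A hk.smooth.continuous hkc (hWim i) (hWiM i) (hDc i) (hDs i) s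
  have e2 : ∀ i, ∫ x, inner ℝ (D i (TT k (cutv a b v) i s) x) (φ x) =
      -∫ p : ℝ × E3, k p * D2c_J (Wi i) (D i φ) (s - p.1) p.2 := by
    intro i
    rw [ibp ((hTs i).of_le (by simp)) (hφ.smooth.of_le (by simp)) (Or.inr hφ.compact), ← (S i).2.2]
    rfl
  have i2 : ∀ i, Integrable (fun x => (inner ℝ (D i (TT k (cutv a b v) i s) x) (φ x) : ℝ)) := by
    intro i
    refine Continuous.integrable_of_hasCompactSupport
      ((D_smooth (hTs i) i).continuous.inner hφc) ?_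
    exact hφ.compact.mono' (fun x hx => subset_closure (by
      intro hc
      apply hx
      simp [hc]))
  have e3 : ip (fun x => deriv (fun τ => moll k (cutv a b v) τ x) s +
      ∑ i, D i (TT k (cutv a b v) i s) x) φ =
      (∫ p : ℝ × E3, (deriv (fun τ => k (τ, p.2)) p.1) * D2c_J W φ (s - p.1) p.2) -
      ∑ i, ∫ p : ℝ × E3, k p * D2c_J (Wi i) (D i φ) (s - p.1) p.2 := by
    unfold ip
    simp only [inner_add_left, sum_inner, e1]
    rw [integral_add T.1 (integrable_finsetSum _ fun i _ => i2 i),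
      integral_finsetSum _ fun i _ => i2 i, T.2.2]
    simp only [e2, Finset.sum_neg_distrib]
    rfl
  have e4 : ∑ i, ∫ p : ℝ × E3, k p * D2c_J (Wi i) (D i φ) (s - p.1) p.2 =
      ∫ p : ℝ × E3, k p * ∑ i, D2c_J (Wi i) (D i φ) (s - p.1) p.2 := by
    rw [← integral_finsetSum _ fun i _ => (S i).2.1]
    simp only [Finset.mul_sum]
  have i4 : Integrable (fun p : ℝ × E3 => k p * ∑ i, D2c_J (Wi i) (D i φ) (s - p.1) p.2) := by
    have := integrable_finsetSum Finset.univ fun i _ => (S i).2.1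
    simpa only [Finset.mul_sum] using this
  rw [e3, e4, Measure.volume_eq_prod, integral_prod_symm _ T.2.1, integral_prod_symm _ i4, sub_eq_zero]
  refine integral_congr_ae (Eventually.of_forall fun y => ?_)
  simp only
  refine D2c_time h hA hA0 hb hk hδ hδ1 hδ2 hs (D2c_test hφ y) y (fun σ => D2c_J W φ σ y)
    (fun σ => ∑ i, D2c_J (Wi i) (D i φ) σ y) ?_ ?_
  · intro σ h1 h2
    have h3 : ∀ x, W (σ, x) = v σ x := fun x => by simp [hW, cutv, h1, h2]
    simp only [D2c_J, ip, h3]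
  · intro σ h1 h2
    have h3 : ∀ x, W (σ, x) = v σ x := fun x => by simp [hW, cutv, h1, h2]
    have h4 : ∀ i, Integrable (fun x => (inner ℝ (Wi i (σ, x)) (D i φ (x + y)) : ℝ)) := by
      intro i
      have hi : Integrable (fun x => (M * M) * ‖D i φ (x + y)‖) :=
        (((hDc i).norm.integrable_of_hasCompactSupport (hDs i).norm).comp_add_right y).const_mul _
      refine hi.mono' ?_ (Eventually.of_forall fun x => ?_)
      · have hm1 : Measurable (fun x : E3 => Wi i (σ, x)) := (hWim i).comp (by fun_prop)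
        have hm2 : Measurable (fun x : E3 => D i φ (x + y)) := (hDc i).measurable.comp (by fun_prop)
        exact (hm1.inner hm2).aestronglyMeasurable
      · exact (norm_inner_le_norm _ _).trans
          (mul_le_mul_of_nonneg_right (hWiM i _) (norm_nonneg _))
    simp only [D2c_J]
    rw [← integral_finsetSum _ fun i _ => h4 i]
    unfold nl
    refine integral_congr_ae (Eventually.of_forall fun x => ?_)
    simp only [D2c_D hφ.smooth, hWi, h3, real_inner_smul_left]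

end Pool.Agent.Helper60.EC
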