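import Pool.Agent.Helper60.EC.D2b
import Pool.Agent.Helper60.EC.D2c
import Pool.Agent.Helper60.EC.Calc3b

/-! Project EC, D2d: the error of the mollified flow -/

set_option autoImplicit false

open MeasureTheory Set Filter Topology
open scoped ENNReal ContDiff

noncomputable section

namespace Pool.Agent.Helper60.EC

open Pool.Agent.Helper52.NSE (E3 pd divg TestField)

/-- the derivative of the kernel -/
def D2d_dk (k : ℝ × E3 → ℝ) (i : Fin 3) (p : ℝ × E3) : ℝ := D i (fun y => k (p.1, y)) p.2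

theorem D2d_dk_eq {δ ε C : ℝ} {k : ℝ × E3 → ℝ} (hk : Kr δ ε C k) (i : Fin 3) (p : ℝ × E3) :
    D2d_dk k i p = fderiv ℝ k p (0, EuclideanSpace.single i (1 : ℝ)) := by
  have h1 : HasFDerivAt k (fderiv ℝ k p) (p.1, p.2) :=
    ((hk.smooth.differentiable (by simp)) p).hasFDerivAt
  have h2 : HasFDerivAt (fun y : E3 => ((p.1, y) : ℝ × E3)) (ContinuousLinearMap.inr ℝ ℝ E3) p.2 :=
    hasFDerivAt_prodMk_right p.1 p.2
  have h3 := h1.comp p.2 h2
  have h4 : fderiv ℝ (fun y => k (p.1, y)) p.2 =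
      (fderiv ℝ k p).comp (ContinuousLinearMap.inr ℝ ℝ E3) := h3.fderiv
  rw [D2d_dk, D, h4]
  simp

theorem D2d_dk_cont {δ ε C : ℝ} {k : ℝ × E3 → ℝ} (hk : Kr δ ε C k) (i : Fin 3) :
    Continuous (D2d_dk k i) := by
  have h : D2d_dk k i = fun p => fderiv ℝ k p (0, EuclideanSpace.single i (1 : ℝ)) :=
    funext (D2d_dk_eq hk i)
  rw [h]
  exact (hk.smooth.continuous_fderiv (by simp)).clm_apply continuous_const

theorem D2d_k_comp {δ ε C : ℝ} {k : ℝ × E3 → ℝ} (hk : Kr δ ε C k) : HasCompactSupport k := by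
  refine HasCompactSupport.of_support_subset_isCompact
    (K := Metric.closedBall (0 : ℝ) δ ×ˢ Metric.closedBall (0 : E3) ε)
    ((isCompact_closedBall _ _).prod (isCompact_closedBall _ _)) ?_
  intro p hp
  by_contra hc
  apply hp
  apply hk.supp
  by_contra h2
  push Not at h2
  apply hc
  refine ⟨?_, ?_⟩
  · simp only [Metric.mem_closedBall, dist_zero_right, Real.norm_eq_abs]
    exact h2.1.le
  · simp only [Metric.mem_closedBall, dist_zero_right]
    exact h2.2.le

theorem D2d_dk_zero {δ ε C : ℝ} {k : ℝ × E3 → ℝ} (hk : Kr δ ε C k) (i : Fin 3) (p : ℝ × E3)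
    (hp : δ ≤ |p.1| ∨ ε < ‖p.2‖) : D2d_dk k i p = 0 := by
  have h : (fun y => k (p.1, y)) =ᶠ[𝓝 p.2] fun _ => (0 : ℝ) := by
    rcases hp with hp | hp
    · exact Eventually.of_forall fun y => hk.supp (p.1, y) (Or.inl hp)
    · have : ∀ᶠ y in 𝓝 p.2, ε < ‖y‖ := (continuous_norm.continuousAt).eventually (lt_mem_nhds hp)
      exact this.mono fun y hy => hk.supp (p.1, y) (Or.inr hy.le)
  rw [D2d_dk, D_congr h, D]
  simp

theorem D2d_dk_comp {δ ε C : ℝ} {k : ℝ × E3 → ℝ} (hk : Kr δ ε C k) (i : Fin 3) :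
    HasCompactSupport (D2d_dk k i) := by
  refine HasCompactSupport.of_support_subset_isCompact
    (K := Metric.closedBall (0 : ℝ) δ ×ˢ Metric.closedBall (0 : E3) ε)
    ((isCompact_closedBall _ _).prod (isCompact_closedBall _ _)) ?_
  intro p hp
  by_contra hc
  apply hp
  apply D2d_dk_zero hk
  by_contra h2
  push Not at h2
  apply hc
  refine ⟨?_, ?_⟩
  · simp only [Metric.mem_closedBall, dist_zero_right, Real.norm_eq_abs]
    exact h2.1.le
  · simp only [Metric.mem_closedBall, dist_zero_right]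
    exact h2.2

/-- integrability of `c • G` for continuous compactly supported `c` and bounded measurable `G` -/
theorem D2d_int {F : Type} [NormedAddCommGroup F] [InnerProductSpace ℝ F] {c : ℝ × E3 → ℝ}
    {G : ℝ × E3 → F} {M : ℝ} (hc : Continuous c) (hc' : HasCompactSupport c)
    (hG : AEStronglyMeasurable G) (hM : ∀ p, ‖G p‖ ≤ M) : Integrable (fun p => c p • G p) := by
  have h1 : Integrable c := hc.integrable_of_hasCompactSupport hc'
  exact h1.smul_bdd M hG (Eventually.of_forall hM)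

theorem D2d_dk_int {δ ε C : ℝ} {k : ℝ × E3 → ℝ} (hk : Kr δ ε C k) (i : Fin 3) :
    ∫ p, D2d_dk k i p = 0 := by
  have h := D_moll (F := ℝ) (g := fun _ _ => (1 : ℝ)) (M := 1) hk aestronglyMeasurable_const
    (by intro s x; simp) i 0 0
  have h2 : moll k (fun (_ : ℝ) (_ : E3) => (1 : ℝ)) 0 = fun _ => ∫ p, k p • (1 : ℝ) := rfl
  rw [h2] at h
  have h3 : D i (fun _ : E3 => ∫ p, k p • (1 : ℝ)) 0 = 0 := by
    rw [D]
    simp
  rw [h3] at h
  simp only [smul_eq_mul, mul_one] at h
  exact h.symm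

theorem D2d_haar : (volume : Measure (ℝ × E3)).IsAddHaarMeasure := by
  rw [Measure.volume_eq_prod]
  infer_instance

theorem moll_error {C₁ C₂ C₃ E₀ A a b C : ℝ} {v : ℝ → E3 → E3} (h : Anc C₁ C₂ C₃ E₀ v)
    (hA : ∀ s < 0, ∀ x, ‖v s x‖ ≤ A * (-s) ^ (-(3 / 5) : ℝ)) (hA0 : 0 ≤ A) (hab : a ≤ b)
    (hb : b < 0) (R η : ℝ) (hη : 0 < η) :
    ∃ ε : ℝ, 0 < ε ∧ ∃ δ₀ : ℝ, 0 < δ₀ ∧ ∀ (δ : ℝ) (k : ℝ × E3 → ℝ), 0 < δ → δ ≤ δ₀ → δ ≤ 1 →
      δ ≤ -(b / 2) → Kr δ ε C k → ∀ s ∈ Icc a b, ∀ x ∈ Metric.ball (0 : E3) R,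
        ‖moll k (cutv a b v) s x - v s x‖ ≤ η ∧
        ‖(∑ i, D i (TT k (cutv a b v) i s) x) -
          adv (moll k (cutv a b v) s) (moll k (cutv a b v) s) x‖ ≤ η := by
  obtain ⟨Ct, hCt, hT⟩ := Anc_time C₁ C₃
  set β : ℝ := -(b / 2) with hβ
  have hβ0 : 0 < β := by rw [hβ]; linarith
  set K : ℝ := 1 + |C₁| / β with hK
  have hK1 : 1 ≤ K := by
    rw [hK]
    have : 0 ≤ |C₁| / β := by positivity
    linarith
  set Q : ℝ := K + 12 * K ^ 2 * |C| + 1 with hQ
  have hQ0 : 0 < Q := by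
    rw [hQ]
    positivity
  set ε : ℝ := η / Q with hεdef
  have hε : 0 < ε := div_pos hη hQ0
  have hεQ : ε * Q = η := div_mul_cancel₀ _ hQ0.ne'
  have hKe : K * ε ≤ η := by
    rw [← hεQ, mul_comm]
    apply mul_le_mul_of_nonneg_left _ hε.le
    rw [hQ]
    have : 0 ≤ 12 * K ^ 2 * |C| := by positivity
    linarith
  have hKe2 : 12 * K ^ 2 * |C| * ε ≤ η := by
    rw [← hεQ, mul_comm]
    apply mul_le_mul_of_nonneg_left _ hε.le
    rw [hQ]
    linarith
  refine ⟨ε, hε, ε ^ 5 * β ^ 4 / Ct, by positivity, ?_⟩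
  intro δ k hδ hδ0 hδ1 hδ2 hk s hs x _
  have hδ0' : Ct * δ / β ^ 4 ≤ ε ^ 5 := by
    rw [div_le_iff₀ (by positivity)]
    have := mul_le_mul_of_nonneg_left hδ0 hCt.le
    calc Ct * δ ≤ Ct * (ε ^ 5 * β ^ 4 / Ct) := this
      _ = ε ^ 5 * β ^ 4 := by field_simp
  have hs0 : s < 0 := lt_of_le_of_lt hs.2 hb
  have hsb : s ≤ b := hs.2
  have hM := cutv_bdd (a := a) hA hA0 hb
  set M : ℝ := A * (-(b / 2)) ^ (-(3 / 5) : ℝ) with hMdef
  have hM0 : 0 ≤ M := (norm_nonneg _).trans (hM 0 0)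
  have hmeas := cutv_meas (a := a) h hb
  set g := cutv a b v with hg
  -- the shifted field
  set G : ℝ × E3 → E3 := fun p => g (s - p.1) (x - p.2) with hG
  have hGm : AEStronglyMeasurable G := by
    have := D2d_haar
    have h1 : MeasurePreserving (fun p : ℝ × E3 => (s, x) - p) volume volume :=
      Measure.measurePreserving_sub_left volume (s, x)
    exact hmeas.comp_measurePreserving h1
  have hGM : ∀ p, ‖G p‖ ≤ M := fun p => hM _ _
  -- oscillation
  have hosc : ∀ p : ℝ × E3, |p.1| < δ → ‖p.2‖ ≤ ε → ‖G p - v s x‖ ≤ K * ε := by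
    intro p h1 h2
    have h3 := abs_lt.1 h1
    have h4 : s - p.1 < b / 2 := by
      have : δ ≤ -(b / 2) := hδ2
      linarith [h3.1]
    have h5 : a - 1 < s - p.1 := by linarith [h3.2, hs.1]
    have h6 : G p = v (s - p.1) (x - p.2) := by
      rw [hG, hg]
      simp only [cutv]
      rw [if_pos ⟨h5, h4⟩]
    have h7 : s - p.1 < 0 := by linarith
    have h8 : β ≤ -(s - p.1) := by rw [hβ]; linarith
    have h9 : ‖v (s - p.1) (x - p.2) - v (s - p.1) x‖ ≤ |C₁| / β * ε := by
      refine (h.lip _ h7 _ _).trans ?_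
      have e1 : x - p.2 - x = -p.2 := by abel
      rw [e1, norm_neg]
      apply mul_le_mul _ h2 (norm_nonneg _) (by positivity)
      calc C₁ / -(s - p.1) ≤ |C₁| / -(s - p.1) := by
            apply div_le_div_of_nonneg_right (le_abs_self _) (by linarith)
        _ ≤ |C₁| / β := div_le_div_of_nonneg_left (abs_nonneg _) hβ0 h8
    have h10 : ‖v (s - p.1) x - v s x‖ ≤ ε := by
      have key : ‖v (s - p.1) x - v s x‖ ^ 5 ≤ ε ^ 5 := by
        rcases lt_trichotomy p.1 0 with hp | hp | hp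
        · have e1 := hT C₂ E₀ v h s (s - p.1) (by linarith) h7 x
          refine e1.trans (le_trans ?_ hδ0')
          apply div_le_div₀ (by positivity) _ (by positivity) (pow_le_pow_left₀ hβ0.le h8 4)
          apply mul_le_mul_of_nonneg_left _ hCt.le
          linarith [h3.1]
        · rw [hp, sub_zero, sub_self, norm_zero]
          exact pow_le_pow_left₀ le_rfl hε.le 5
        · have e1 := hT C₂ E₀ v h (s - p.1) s (by linarith) hs0 x
          rw [norm_sub_rev] at e1
          refine e1.trans (le_trans ?_ hδ0')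
          apply div_le_div₀ (by positivity) _ (by positivity)
            (pow_le_pow_left₀ hβ0.le (by rw [hβ]; linarith) 4)
          apply mul_le_mul_of_nonneg_left _ hCt.le
          linarith [h3.2]
      exact (pow_le_pow_iff_left₀ (norm_nonneg _) hε.le (by norm_num)).1 key
    rw [h6]
    calc ‖v (s - p.1) (x - p.2) - v s x‖
        = ‖(v (s - p.1) (x - p.2) - v (s - p.1) x) + (v (s - p.1) x - v s x)‖ := by
          congr 1; abel
      _ ≤ |C₁| / β * ε + ε := (norm_add_le _ _).trans (add_le_add h9 h10)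
      _ = K * ε := by rw [hK]; ring
  -- the kernel
  have hkc : Continuous k := hk.smooth.continuous
  have hkcomp := D2d_k_comp hk
  have hki : Integrable k := hkc.integrable_of_hasCompactSupport hkcomp
  set V : E3 := moll k g s x with hV
  have hVdef : V = ∫ p, k p • G p := rfl
  have hkG : Integrable (fun p => k p • G p) := D2d_int hkc hkcomp hGm hGM
  have hV1 : ‖V - v s x‖ ≤ K * ε := by
    have e1 : V - v s x = ∫ p, k p • (G p - v s x) := by
      have e2 : ∫ p, k p • v s x = v s x := by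
        rw [integral_smul_const, hk.one, one_smul]
      simp only [smul_sub]
      rw [integral_sub hkG (hki.smul_const _), e2, hVdef]
    rw [e1]
    have e3 : ∫ p, k p * (K * ε) = K * ε := by
      rw [integral_mul_const, hk.one, one_mul]
    rw [← e3]
    refine norm_integral_le_of_norm_le (hki.mul_const _) (Eventually.of_forall fun p => ?_)
    rw [norm_smul, Real.norm_eq_abs, abs_of_nonneg (hk.nonneg p)]
    by_cases hp : δ ≤ |p.1| ∨ ε ≤ ‖p.2‖
    · rw [hk.supp p hp, zero_mul, zero_mul]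
    · push Not at hp
      exact mul_le_mul_of_nonneg_left (hosc p hp.1 hp.2.le) (hk.nonneg p)
  refine ⟨hV1.trans hKe, ?_⟩
  -- the second part
  have hDV : ∀ i, D i (moll k g s) x = ∫ p, D2d_dk k i p • G p := fun i =>
    D_moll hk hmeas hM i s x
  have hmeas2 : ∀ i : Fin 3, AEStronglyMeasurable
      (fun p : ℝ × E3 => (g p.1 p.2) i • g p.1 p.2) := by
    intro i
    have e1 : AEStronglyMeasurable (fun p : ℝ × E3 => (g p.1 p.2) i) :=
      (EuclideanSpace.proj i : E3 →L[ℝ] ℝ).continuous.comp_aestronglyMeasurable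
        hmeas
    exact e1.smul hmeas
  have hcomp : ∀ (i : Fin 3) (u : E3), |u i| ≤ ‖u‖ := fun i u => by
    have := PiLp.norm_apply_le u i
    rwa [Real.norm_eq_abs] at this
  have hM2 : ∀ i : Fin 3, ∀ s x, ‖(g s x) i • g s x‖ ≤ M * M := by
    intro i s x
    rw [norm_smul, Real.norm_eq_abs]
    exact mul_le_mul ((hcomp _ _).trans (hM s x)) (hM s x) (norm_nonneg _) hM0
  have hDT : ∀ i, D i (TT k g i s) x = ∫ p, D2d_dk k i p • ((G p) i • G p) := fun i =>
    D_moll hk (hmeas2 i) (hM2 i) i s x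
  have hGm2 : ∀ i : Fin 3, AEStronglyMeasurable (fun p => (G p) i) := fun i =>
    (EuclideanSpace.proj i : E3 →L[ℝ] ℝ).continuous.comp_aestronglyMeasurable
        hGm
  have hI1 : ∀ i, Integrable (fun p => D2d_dk k i p • G p) := fun i =>
    D2d_int (D2d_dk_cont hk i) (D2d_dk_comp hk i) hGm hGM
  have hI2 : ∀ i, Integrable (fun p => D2d_dk k i p • ((G p) i • G p)) := fun i =>
    D2d_int (M := M * M) (D2d_dk_cont hk i) (D2d_dk_comp hk i) ((hGm2 i).smul hGm) (fun p => by
      rw [norm_smul, Real.norm_eq_abs]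
      exact mul_le_mul ((hcomp _ _).trans (hGM p)) (hGM p) (norm_nonneg _) hM0)
  have hI3 : ∀ i, Integrable (fun p => D2d_dk k i p • ((G p) i)) := fun i =>
    D2d_int (M := M) (D2d_dk_cont hk i) (D2d_dk_comp hk i) (hGm2 i) (fun p => by
      rw [Real.norm_eq_abs]
      exact (hcomp _ _).trans (hGM p))
  have hI0 : ∀ i, Integrable (D2d_dk k i) := fun i =>
    (D2d_dk_cont hk i).integrable_of_hasCompactSupport (D2d_dk_comp hk i)
  have hcoord : ∀ i, (D i (moll k g s) x) i = ∫ p, D2d_dk k i p • ((G p) i) := by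
    intro i
    rw [hDV i]
    exact ((EuclideanSpace.proj i : E3 →L[ℝ] ℝ).integral_comp_comm
      (hI1 i)).symm
  have hexp : ∀ i, ∫ p, D2d_dk k i p • (((G p) i - V i) • (G p - V)) =
      D i (TT k g i s) x - V i • D i (moll k g s) x - (D i (moll k g s) x) i • V := by
    intro i
    have e1 : (fun p => D2d_dk k i p • (((G p) i - V i) • (G p - V))) = fun p =>
        (D2d_dk k i p • ((G p) i • G p) - V i • (D2d_dk k i p • G p)) -
          ((D2d_dk k i p • ((G p) i)) • V - D2d_dk k i p • (V i • V)) := by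
      funext p
      simp only [smul_sub, sub_smul, smul_smul, smul_eq_mul]
      rw [mul_comm (V i) (D2d_dk k i p)]
    have j1 : Integrable (fun p => V i • (D2d_dk k i p • G p)) := (hI1 i).smul (V i)
    have j2 : Integrable (fun p => (D2d_dk k i p • ((G p) i)) • V) := (hI3 i).smul_const V
    have j3 : Integrable (fun p => D2d_dk k i p • (V i • V)) := (hI0 i).smul_const _
    have j4 : Integrable (fun p => D2d_dk k i p • ((G p) i • G p) - V i • (D2d_dk k i p • G p)) :=
      (hI2 i).sub j1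
    have j5 : Integrable (fun p => (D2d_dk k i p • ((G p) i)) • V - D2d_dk k i p • (V i • V)) :=
      j2.sub j3
    rw [e1, integral_sub j4 j5, integral_sub (hI2 i) j1, integral_sub j2 j3, integral_smul, integral_smul_const, integral_smul_const, D2d_dk_int hk i, zero_smul,
      sub_zero, hDT i, hcoord i, hDV i]
  have hdiv : ∑ i, (D i (moll k g s) x) i = 0 := by
    have e1 := (moll_basic h hA hA0 hab hb hk hδ hδ1 hδ2 hε).1 s x
    rw [Calc3b_divg] at e1
    rw [Fin.sum_univ_three]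
    exact e1
  have hS : (∑ i, D i (TT k g i s) x) - adv (moll k g s) (moll k g s) x =
      ∑ i, ∫ p, D2d_dk k i p • (((G p) i - V i) • (G p - V)) := by
    rw [Finset.sum_congr rfl fun i _ => hexp i, Finset.sum_sub_distrib, Finset.sum_sub_distrib,
      ← Finset.sum_smul, hdiv, zero_smul, sub_zero]
    rfl
  rw [hS]
  have hbd : ∀ i, ‖∫ p, D2d_dk k i p • (((G p) i - V i) • (G p - V))‖ ≤
      4 * K ^ 2 * |C| * ε := by
    intro i
    have e1 : ∀ p : ℝ × E3, |p.1| < δ → ‖p.2‖ ≤ ε → ‖G p - V‖ ≤ 2 * (K * ε) := by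
      intro p h1 h2
      calc ‖G p - V‖ = ‖(G p - v s x) - (V - v s x)‖ := by congr 1; abel
        _ ≤ K * ε + K * ε := (norm_sub_le _ _).trans (add_le_add (hosc p h1 h2) hV1)
        _ = 2 * (K * ε) := by ring
    have e2 : ‖∫ p, D2d_dk k i p • (((G p) i - V i) • (G p - V))‖ ≤
        ∫ p, |D2d_dk k i p| * (2 * (K * ε)) ^ 2 := by
      refine norm_integral_le_of_norm_le ((hI0 i).abs.mul_const _)
        (Eventually.of_forall fun p => ?_)
      rw [norm_smul, norm_smul, Real.norm_eq_abs, Real.norm_eq_abs]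
      by_cases hp : δ ≤ |p.1| ∨ ε < ‖p.2‖
      · rw [D2d_dk_zero hk i p hp, abs_zero, zero_mul, zero_mul]
      · push Not at hp
        apply mul_le_mul_of_nonneg_left _ (abs_nonneg _)
        have e3 := e1 p hp.1 hp.2
        have e4 : |(G p) i - V i| ≤ ‖G p - V‖ := hcomp i (G p - V)
        rw [pow_two]
        exact mul_le_mul (e4.trans e3) e3 (norm_nonneg _) (by positivity)
    rw [integral_mul_const] at e2
    refine e2.trans ?_
    have e5 : ∫ p, |D2d_dk k i p| ≤ |C| / ε :=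
      (hk.grad i).trans (div_le_div_of_nonneg_right (le_abs_self _) hε.le)
    calc (∫ p, |D2d_dk k i p|) * (2 * (K * ε)) ^ 2 ≤ |C| / ε * (2 * (K * ε)) ^ 2 :=
          mul_le_mul_of_nonneg_right e5 (by positivity)
      _ = 4 * K ^ 2 * |C| * ε := by field_simp; ring
  calc ‖∑ i, ∫ p, D2d_dk k i p • (((G p) i - V i) • (G p - V))‖
      ≤ ∑ i : Fin 3, 4 * K ^ 2 * |C| * ε :=
        (norm_sum_le _ _).trans (Finset.sum_le_sum fun i _ => hbd i)
    _ = 12 * K ^ 2 * |C| * ε := by
        rw [Finset.sum_const, Finset.card_univ, Fintype.card_fin]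
        simp only [nsmul_eq_mul]
        push_cast
        ring
    _ ≤ η := hKe2

end Pool.Agent.Helper60.EC
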