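import Pool.Agent.Helper60.EC.D3a

/-! Project EC, D3b: flux inequality for nested cutoffs, class Anc -/

set_option autoImplicit false

open MeasureTheory Set Filter Topology
open scoped ENNReal ContDiff

noncomputable section

namespace Pool.Agent.Helper60.EC

open Pool.Agent.Helper52.NSE (E3 pd divg TestField)

theorem star_Anc {χ χ' : E3 → ℝ} (hχ : Cc χ) (hχ' : Cc χ') {U : Set E3} (hU : IsOpen U)
    (hs : tsupport χ ⊆ U) (h1 : ∀ x ∈ U, χ' x = 1) :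
    ∃ C : ℝ, 0 ≤ C ∧ ∀ (C₁ C₂ C₃ E₀ A : ℝ) (v : ℝ → E3 → E3), Anc C₁ C₂ C₃ E₀ v →
      (∀ s < 0, ∀ x, ‖v s x‖ ≤ A * (-s) ^ (-(3 / 5) : ℝ)) → ∀ s t : ℝ, s ≤ t → t < 0 →
        |Zf χ (v t) ^ 2 - Zf χ (v s) ^ 2| ≤
          C * ∫ τ in s..t, (2 * A * (-τ) ^ (-(3 / 5) : ℝ) + Real.sqrt E₀) * Zf χ' (v τ) ^ 2 := by
  obtain ⟨CF, hCF, hFI⟩ := star_SF hχ hχ' hU hs h1
  obtain ⟨R, K, hR, hK, hcut⟩ := cut_of_cc hχ 0
  obtain ⟨R', K', hR', hK', hcut'⟩ := cut_of_cc hχ' 0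
  obtain ⟨CB, hCB, hB⟩ := Zf_abs_sub_le K'
  obtain ⟨CZ, hCZ, hZle⟩ := Zf_le K'
  refine ⟨CF, hCF, fun C₁ C₂ C₃ E₀ A v h hA s t hst ht => ?_⟩
  have hs0 : s < 0 := hst.trans_lt ht
  have hA0 : 0 ≤ A := by
    have h2 := (norm_nonneg _).trans (hA (-1) (by norm_num) 0)
    simpa using h2
  have hE₀ : 0 ≤ E₀ := by
    refine le_trans ?_ (h.energy (-1) (by norm_num))
    unfold sq
    exact integral_nonneg fun x => by positivity
  have happ : ∀ n : ℕ, ∃ V S : ℝ → E3 → E3, SF s t V S ∧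
      (∀ τ ∈ Icc s t, ∀ x, ‖V τ x‖ ≤ 2 * A * (-τ) ^ (-(3 / 5) : ℝ)) ∧
      (∀ τ ∈ Icc s t, sq (V τ) ≤ E₀) ∧
      (∀ τ ∈ Icc s t, ∀ x ∈ Metric.ball (0 : E3) (R + R' + 1),
        ‖V τ x - v τ x‖ ≤ 1 / ((n : ℝ) + 1) ∧ ‖S τ x‖ ≤ 1 / ((n : ℝ) + 1)) := by
    intro n
    obtain ⟨V, S, h1, h2, h3, -, h4⟩ := exists_approx h hA hst ht (R + R' + 1)
      (1 / ((n : ℝ) + 1)) (by positivity)
    exact ⟨V, S, h1, h2, h3, h4⟩
  choose V S hSF hV hE hVS using happ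
  have hsub : Metric.ball (0 : E3) R ⊆ Metric.ball (0 : E3) (R + R' + 1) :=
    Metric.ball_subset_ball (by linarith)
  have hsub' : Metric.ball (0 : E3) R' ⊆ Metric.ball (0 : E3) (R + R' + 1) :=
    Metric.ball_subset_ball (by linarith)
  have hsupp : tsupport χ ⊆ Metric.ball (0 : E3) (R + R' + 1) := by
    have h2 : tsupport χ ⊆ Metric.closedBall (0 : E3) R := by
      refine closure_minimal (fun x hx => ?_) Metric.isClosed_closedBall
      rw [Metric.mem_closedBall, dist_eq_norm]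
      by_contra hcon
      push Not at hcon
      exact hx (hcut.supp x hcon.le)
    exact h2.trans (Metric.closedBall_subset_ball (by linarith))
  have hlim : ∀ τ ∈ Icc s t, Tendsto (fun n => Zf χ (V n τ) ^ 2) atTop (𝓝 (Zf χ (v τ) ^ 2)) := by
    intro τ hτ
    exact (D3a_tendsto hR hcut (h.l2 τ (hτ.2.trans_lt ht)) (fun n => (hSF n).l2 τ hτ)
      (fun n x hx => (hVS n τ hτ x (hsub hx)).1)).pow 2
  have h2 : Tendsto (fun n => |Zf χ (V n t) ^ 2 - Zf χ (V n s) ^ 2|) atTop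
      (𝓝 |Zf χ (v t) ^ 2 - Zf χ (v s) ^ 2|) :=
    ((hlim t (right_mem_Icc.2 hst)).sub (hlim s (left_mem_Icc.2 hst))).abs
  -- the perturbation
  set b : ℝ := CB * Real.sqrt ((volume (Metric.ball (0 : E3) R')).toReal) with hb
  have hb0 : 0 ≤ b := by positivity
  set z : ℝ := CZ * Real.sqrt E₀ with hz
  have hz0 : 0 ≤ z := by positivity
  set δ : ℕ → ℝ := fun n => 2 * z * (b * (1 / ((n : ℝ) + 1))) + (b * (1 / ((n : ℝ) + 1))) ^ 2
    with hδ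
  have hδ0 : Tendsto δ atTop (𝓝 0) := by
    have h3 := (tendsto_one_div_add_atTop_nhds_zero_nat (𝕜 := ℝ)).const_mul b
    have h4 := (h3.const_mul (2 * z)).add (h3.pow 2)
    simpa [hδ] using h4
  have hpert : ∀ n, ∀ τ ∈ Icc s t, Zf χ' (V n τ) ^ 2 ≤ Zf χ' (v τ) ^ 2 + δ n := by
    intro n τ hτ
    have hτ0 : τ < 0 := hτ.2.trans_lt ht
    have h3 := hB 0 R' χ' hR' hcut' (V n τ) (v τ) ((hSF n).l2 τ hτ) (h.l2 τ hτ0)
    have h4 := D3a_sqOn_le (f := fun x => V n τ x - v τ x) (a := 0) (R := R')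
      (ε := 1 / ((n : ℝ) + 1)) (by positivity) (fun x hx => (hVS n τ hτ x (hsub' hx)).1)
    have h5 : |Zf χ' (V n τ) - Zf χ' (v τ)| ≤ b * (1 / ((n : ℝ) + 1)) := by
      refine h3.trans ((mul_le_mul_of_nonneg_left h4 hCB).trans (le_of_eq ?_))
      rw [hb]; ring
    have h6 : Zf χ' (v τ) ≤ z := by
      refine (hZle 0 R' χ' hR' hcut' (v τ) (h.l2 τ hτ0)).trans ?_
      refine mul_le_mul_of_nonneg_left (Real.sqrt_le_sqrt ?_) hCZ
      refine le_trans ?_ (h.energy τ hτ0)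
      unfold sqOn sq
      exact setIntegral_le_integral ((memLp_two_iff_integrable_sq_norm (h.l2 τ hτ0).1).1 (h.l2 τ hτ0))
        (Eventually.of_forall fun x => by positivity)
    have h7 : 0 ≤ Zf χ' (v τ) := Zf_nonneg χ' hχ' (h.l2 τ hτ0)
    have h8 : 0 ≤ Zf χ' (V n τ) := Zf_nonneg χ' hχ' ((hSF n).l2 τ hτ)
    have h9 := (abs_le.1 h5).2
    have h10 : 0 ≤ b * (1 / ((n : ℝ) + 1)) := by positivity
    have h11 : Zf χ' (V n τ) ^ 2 ≤ (Zf χ' (v τ) + b * (1 / ((n : ℝ) + 1))) ^ 2 :=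
      pow_le_pow_left₀ h8 (by linarith) 2
    simp only [hδ]
    nlinarith [mul_le_mul_of_nonneg_right h6 h10]
  have hcontZ : ContinuousOn (fun τ => Zf χ' (v τ)) (Icc s t) :=
    (h.contZ hχ').mono fun τ hτ => hτ.2.trans_lt ht
  have hcM : ContinuousOn (fun τ : ℝ => 2 * A * (-τ) ^ (-(3 / 5) : ℝ) + Real.sqrt E₀) (Icc s t) :=
    (D3a_cont A ht).add continuousOn_const
  have hI1 : IntervalIntegrable
      (fun τ => (2 * A * (-τ) ^ (-(3 / 5) : ℝ) + Real.sqrt E₀) * Zf χ' (v τ) ^ 2) volume s t := by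
    refine ContinuousOn.intervalIntegrable ?_
    rw [uIcc_of_le hst]
    exact hcM.mul (hcontZ.pow 2)
  have hI2 : IntervalIntegrable
      (fun τ : ℝ => 2 * A * (-τ) ^ (-(3 / 5) : ℝ) + Real.sqrt E₀) volume s t := by
    refine ContinuousOn.intervalIntegrable ?_
    rw [uIcc_of_le hst]
    exact hcM
  have hMnn : ∀ τ ∈ Icc s t, 0 ≤ 2 * A * (-τ) ^ (-(3 / 5) : ℝ) + Real.sqrt E₀ := by
    intro τ hτ
    have h3 : (0 : ℝ) ≤ (-τ) ^ (-(3 / 5) : ℝ) := Real.rpow_nonneg (by linarith [hτ.2]) _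
    positivity
  have hint : ∀ n, ∫ τ in s..t, (2 * A * (-τ) ^ (-(3 / 5) : ℝ) + Real.sqrt E₀) *
      Zf χ' (V n τ) ^ 2 ≤
      (∫ τ in s..t, (2 * A * (-τ) ^ (-(3 / 5) : ℝ) + Real.sqrt E₀) * Zf χ' (v τ) ^ 2) +
      δ n * ∫ τ in s..t, (2 * A * (-τ) ^ (-(3 / 5) : ℝ) + Real.sqrt E₀) := by
    intro n
    rw [← intervalIntegral.integral_const_mul, ← intervalIntegral.integral_add hI1
      (hI2.const_mul _)]
    rw [intervalIntegral.integral_of_le hst, intervalIntegral.integral_of_le hst]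
    refine integral_mono_of_nonneg ?_ ?_ ?_
    · refine (ae_restrict_iff' measurableSet_Ioc).2 (Eventually.of_forall fun τ hτ => ?_)
      exact mul_nonneg (hMnn τ ⟨hτ.1.le, hτ.2⟩) (sq_nonneg _)
    · exact ((hI1.add (hI2.const_mul _)).1)
    · refine (ae_restrict_iff' measurableSet_Ioc).2 (Eventually.of_forall fun τ hτ => ?_)
      have h3 := mul_le_mul_of_nonneg_left (hpert n τ ⟨hτ.1.le, hτ.2⟩) (hMnn τ ⟨hτ.1.le, hτ.2⟩)
      simp only [Pi.add_apply]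
      linarith
  set I : ℝ := ∫ τ in s..t, (2 * A * (-τ) ^ (-(3 / 5) : ℝ) + Real.sqrt E₀) * Zf χ' (v τ) ^ 2
    with hI
  set I' : ℝ := ∫ τ in s..t, (2 * A * (-τ) ^ (-(3 / 5) : ℝ) + Real.sqrt E₀) with hI'
  have h3 : Tendsto (fun n : ℕ => CF * (I + δ n * I') +
      CF * (1 / ((n : ℝ) + 1)) * Real.sqrt E₀ * (t - s)) atTop (𝓝 (CF * I)) := by
    have h4 := (((tendsto_one_div_add_atTop_nhds_zero_nat (𝕜 := ℝ)).const_mul CF).mul_const
      (Real.sqrt E₀)).mul_const (t - s)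
    have h5 := ((((hδ0.mul_const I').const_add I).const_mul CF).add h4)
    simpa using h5
  refine le_of_tendsto_of_tendsto h2 h3 (Eventually.of_forall fun n => ?_)
  have h4 := hFI s t (V n) (S n) _ E₀ (1 / ((n : ℝ) + 1)) hst (hSF n) (D3a_cont A ht)
      (hV n) (hE n) (fun τ hτ x hx => (hVS n τ hτ x (hsupp hx)).2)
  refine h4.trans ?_
  have h5 := mul_le_mul_of_nonneg_left (hint n) hCF
  simp only
  linarith

end Pool.Agent.Helper60.EC
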