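import Pool.Agent.Helper60.EC.C2
import Pool.Agent.Helper60.EC.D2

/-! Project EC, D3a: flux inequality at scale R, class Anc -/

set_option autoImplicit false

open MeasureTheory Set Filter Topology
open scoped ENNReal ContDiff

noncomputable section

namespace Pool.Agent.Helper60.EC

open Pool.Agent.Helper52.NSE (E3 pd divg TestField)

theorem D3a_sqOn_le {f : E3 → E3} {a : E3} {R ε : ℝ} (hε : 0 ≤ ε)
    (hf : ∀ x ∈ Metric.ball a R, ‖f x‖ ≤ ε) :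
    Real.sqrt (sqOn (Metric.ball a R) f) ≤
      ε * Real.sqrt ((volume (Metric.ball a R)).toReal) := by
  have h1 : sqOn (Metric.ball a R) f ≤ ε ^ 2 * (volume (Metric.ball a R)).toReal := by
    unfold sqOn
    have h2 := norm_setIntegral_le_of_norm_le_const (μ := (volume : Measure E3))
      (s := Metric.ball a R) (f := fun x => ‖f x‖ ^ 2) (C := ε ^ 2)
      measure_ball_lt_top (fun x hx => by
        rw [Real.norm_eq_abs, abs_of_nonneg (by positivity)]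
        exact pow_le_pow_left₀ (norm_nonneg _) (hf x hx) 2)
    exact (le_abs_self _).trans h2
  calc Real.sqrt (sqOn (Metric.ball a R) f)
      ≤ Real.sqrt (ε ^ 2 * (volume (Metric.ball a R)).toReal) := Real.sqrt_le_sqrt h1
    _ = ε * Real.sqrt ((volume (Metric.ball a R)).toReal) := by
        rw [Real.sqrt_mul (sq_nonneg _), Real.sqrt_sq hε]

theorem D3a_integral {s t : ℝ} (A : ℝ) :
    ∫ τ in s..t, 2 * A * (-τ) ^ (-(3 / 5) : ℝ) =
      5 * A * ((-s) ^ (2 / 5 : ℝ) - (-t) ^ (2 / 5 : ℝ)) := by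
  rw [intervalIntegral.integral_const_mul,
    intervalIntegral.integral_comp_neg (fun x : ℝ => x ^ (-(3 / 5) : ℝ)),
    integral_rpow (Or.inl (by norm_num))]
  norm_num
  ring

theorem D3a_cont {s t : ℝ} (A : ℝ) (ht : t < 0) :
    ContinuousOn (fun τ : ℝ => 2 * A * (-τ) ^ (-(3 / 5) : ℝ)) (Icc s t) := by
  refine ContinuousOn.mul continuousOn_const ?_
  refine ContinuousOn.rpow_const continuousOn_id.neg fun τ hτ => Or.inl ?_
  have h1 : τ ≤ t := hτ.2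
  have h2 : (0 : ℝ) < -τ := by linarith
  exact h2.ne'

/-- convergence of `Zf` for uniformly small perturbations on a ball -/
theorem D3a_tendsto {K : ℝ} {a : E3} {R : ℝ} {χ : E3 → ℝ} (hR : 0 < R) (hχ : Cut a R K χ) {w : E3 → E3}
    (hw : MemLp w 2 volume) {W : ℕ → E3 → E3} (hW : ∀ n, MemLp (W n) 2 volume)
    (hWw : ∀ n : ℕ, ∀ x ∈ Metric.ball a R, ‖W n x - w x‖ ≤ 1 / ((n : ℝ) + 1)) :
    Tendsto (fun n => Zf χ (W n)) atTop (𝓝 (Zf χ w)) := by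
  obtain ⟨CB, hCB, hB⟩ := Zf_abs_sub_le K
  rw [tendsto_iff_norm_sub_tendsto_zero]
  have h0 := (tendsto_one_div_add_atTop_nhds_zero_nat (𝕜 := ℝ)).const_mul
    (CB * Real.sqrt ((volume (Metric.ball a R)).toReal))
  rw [mul_zero] at h0
  refine squeeze_zero (fun n => norm_nonneg _) (fun n => ?_) h0
  rw [Real.norm_eq_abs]
  refine (hB a R χ hR hχ (W n) w (hW n) hw).trans ?_
  have h1 := D3a_sqOn_le (f := fun x => W n x - w x) (a := a) (R := R)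
    (ε := 1 / ((n : ℝ) + 1)) (by positivity) (hWw n)
  calc CB * Real.sqrt (sqOn (Metric.ball a R) fun x => W n x - w x)
      ≤ CB * (1 / ((n : ℝ) + 1) * Real.sqrt ((volume (Metric.ball a R)).toReal)) :=
        mul_le_mul_of_nonneg_left h1 hCB
    _ = CB * Real.sqrt ((volume (Metric.ball a R)).toReal) * (1 / ((n : ℝ) + 1)) := by ring

theorem FI_Anc (K : ℝ) : ∃ C : ℝ, 0 ≤ C ∧ ∀ (a : E3) (R : ℝ) (χ : E3 → ℝ), 0 < R →
    Cut a R K χ → ∀ (C₁ C₂ C₃ E₀ A : ℝ) (v : ℝ → E3 → E3), Anc C₁ C₂ C₃ E₀ v →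
      (∀ s < 0, ∀ x, ‖v s x‖ ≤ A * (-s) ^ (-(3 / 5) : ℝ)) → ∀ s t : ℝ, s ≤ t → t < 0 →
        |Zf χ (v t) ^ 2 - Zf χ (v s) ^ 2| ≤
          C / R * E₀ * A * ((-s) ^ (2 / 5 : ℝ) - (-t) ^ (2 / 5 : ℝ)) := by
  obtain ⟨CF, hCF, hFI⟩ := FI_SF K
  refine ⟨5 * CF, by positivity, fun a R χ hR hχ C₁ C₂ C₃ E₀ A v h hA s t hst ht => ?_⟩
  have hs : s < 0 := hst.trans_lt ht
  have happ : ∀ n : ℕ, ∃ V S : ℝ → E3 → E3, SF s t V S ∧
      (∀ τ ∈ Icc s t, ∀ x, ‖V τ x‖ ≤ 2 * A * (-τ) ^ (-(3 / 5) : ℝ)) ∧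
      (∀ τ ∈ Icc s t, sq (V τ) ≤ E₀) ∧
      (∀ τ ∈ Icc s t, ∀ x ∈ Metric.ball a R, ‖V τ x - v τ x‖ ≤ 1 / ((n : ℝ) + 1) ∧
        ‖S τ x‖ ≤ 1 / ((n : ℝ) + 1)) := by
    intro n
    obtain ⟨V, S, h1, h2, h3, -, h4⟩ := exists_approx h hA hst ht (‖a‖ + R) (1 / ((n : ℝ) + 1))
      (by positivity)
    refine ⟨V, S, h1, h2, h3, fun τ hτ x hx => h4 τ hτ x ?_⟩
    rw [Metric.mem_ball, dist_zero_right]
    rw [Metric.mem_ball, dist_eq_norm] at hx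
    have := norm_sub_norm_le x a
    linarith
  choose V S hSF hV hE hVS using happ
  have hlim : ∀ τ ∈ Icc s t, Tendsto (fun n => Zf χ (V n τ) ^ 2) atTop (𝓝 (Zf χ (v τ) ^ 2)) := by
    intro τ hτ
    exact (D3a_tendsto hR hχ (h.l2 τ (hτ.2.trans_lt ht)) (fun n => (hSF n).l2 τ hτ)
      (fun n x hx => (hVS n τ hτ x hx).1)).pow 2
  have h1 : Tendsto (fun n => |Zf χ (V n t) ^ 2 - Zf χ (V n s) ^ 2|) atTop
      (𝓝 |Zf χ (v t) ^ 2 - Zf χ (v s) ^ 2|) :=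
    ((hlim t (right_mem_Icc.2 hst)).sub (hlim s (left_mem_Icc.2 hst))).abs
  have h2 : Tendsto (fun n : ℕ => CF / R * E₀ * (∫ τ in s..t, 2 * A * (-τ) ^ (-(3 / 5) : ℝ)) +
      CF * R ^ (3 / 2 : ℝ) * (1 / ((n : ℝ) + 1)) * Real.sqrt E₀ * (t - s)) atTop
      (𝓝 (CF / R * E₀ * (∫ τ in s..t, 2 * A * (-τ) ^ (-(3 / 5) : ℝ)))) := by
    have h3 := ((((tendsto_one_div_add_atTop_nhds_zero_nat (𝕜 := ℝ)).const_mul
      (CF * R ^ (3 / 2 : ℝ))).mul_const (Real.sqrt E₀)).mul_const (t - s)).const_add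
      (CF / R * E₀ * (∫ τ in s..t, 2 * A * (-τ) ^ (-(3 / 5) : ℝ)))
    simpa using h3
  have h3 := le_of_tendsto_of_tendsto h1 h2 (Eventually.of_forall fun n =>
    hFI a R χ hR hχ s t (V n) (S n) _ E₀ (1 / ((n : ℝ) + 1)) hst (hSF n) (D3a_cont A ht)
      (hV n) (hE n) (fun τ hτ x hx => (hVS n τ hτ x hx).2))
  rw [D3a_integral A] at h3
  refine h3.trans (le_of_eq ?_)
  ring

end Pool.Agent.Helper60.EC
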