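import Pool.Agent.Helper52.NSE.Defs

/-!
# Project EC (MP_a38b17_an): definitions

No kinetic energy is lost at the energy-critical rate. Plan: `team-store get MP_a38b17-EC-plan.md`.
-/

set_option autoImplicit false

open MeasureTheory Set Filter Topology
open scoped ENNReal ContDiff

noncomputable section

namespace Pool.Agent.Helper60.EC

open Pool.Agent.Helper52.NSE (E3 pd divg TestField)

section calculus

variable {F : Type} [NormedAddCommGroup F] [InnerProductSpace ℝ F]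

/-- partial derivative (`pd φ i = D i φ` by `rfl`) -/
def D (i : Fin 3) (f : E3 → F) (x : E3) : F := fderiv ℝ f x (EuclideanSpace.single i (1 : ℝ))

/-- smooth with compact support -/
structure Cc (f : E3 → F) : Prop where
  smooth : ContDiff ℝ ∞ f
  comp : HasCompactSupport f

/-- the Laplacian -/
def lap (f : E3 → F) (x : E3) : F := ∑ i, D i (D i f) x

/-- `(w · ∇) f` -/
def adv (w : E3 → E3) (f : E3 → F) (x : E3) : F := ∑ i, (w x) i • D i f x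

/-- the Newton potential `f ↦ f * 1/(4π|x|)`, i.e. `(-Δ)⁻¹ f` -/
def NP (f : E3 → F) (x : E3) : F := ∫ y, (4 * Real.pi * ‖y‖)⁻¹ • f (x - y)

/-- `∫ f · g` -/
def ip (f g : E3 → F) : ℝ := ∫ x, inner ℝ (f x) (g x)

/-- `∫ |f|²` -/
def sq (f : E3 → F) : ℝ := ∫ x, ‖f x‖ ^ 2

/-- `∫_U |f|²` -/
def sqOn (U : Set E3) (f : E3 → F) : ℝ := ∫ x in U, ‖f x‖ ^ 2

/-- `∫ |∇f|²` -/
def gsq (f : E3 → F) : ℝ := ∫ x, ∑ i, ‖D i f x‖ ^ 2

/-- product of a scalar function and a field -/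
def sm (χ : E3 → ℝ) (f : E3 → F) (x : E3) : F := χ x • f x

/-- the decay of Newton potentials -/
def Decay (β : E3 → F) : Prop :=
  ∃ C : ℝ, ∀ x, ‖β x‖ ≤ C / (1 + ‖x‖) ∧ ∀ i, ‖D i β x‖ ≤ C / (1 + ‖x‖) ^ 2

end calculus

/-- the curl -/
def curl (f : E3 → E3) (x : E3) : E3 :=
  !₂[(D 1 f x) 2 - (D 2 f x) 1, (D 2 f x) 0 - (D 0 f x) 2, (D 0 f x) 1 - (D 1 f x) 0]

/-- the gradient of a scalar function -/
def grad (h : E3 → ℝ) (x : E3) : E3 := !₂[D 0 h x, D 1 h x, D 2 h x]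

/-- the cross product -/
def cr (a b : E3) : E3 := !₂[a 1 * b 2 - a 2 * b 1, a 2 * b 0 - a 0 * b 2, a 0 * b 1 - a 1 * b 0]

/-- weakly divergence-free -/
def WDiv (w : E3 → E3) : Prop := ∀ φ : E3 → ℝ, Cc φ → ∫ x, inner ℝ (w x) (grad φ x) = 0

/-- `∫ w ⊗ w : ∇φ` -/
def nl (φ w : E3 → E3) : ℝ := ∫ x, ∑ i, (w x) i * inner ℝ (w x) (D i φ x)

/-- smooth, square integrable, divergence-free -/
structure Sml (w : E3 → E3) : Prop where
  smooth : ContDiff ℝ ∞ w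
  l2 : MemLp w 2 volume
  div : ∀ x, divg w x = 0

/-- a cutoff function at scale `R` around `a` -/
structure Cut (a : E3) (R K : ℝ) (χ : E3 → ℝ) : Prop where
  cc : Cc χ
  supp : ∀ x, R ≤ ‖x - a‖ → χ x = 0
  bd : ∀ x, |χ x| ≤ K
  d1 : ∀ i x, |D i χ x| ≤ K / R
  d2 : ∀ i j x, |D i (D j χ) x| ≤ K / R ^ 2

/-- the localised `L²` norm of the solenoidal part: dual norm of `curl (χ w)` -/
def Zf (χ : E3 → ℝ) (w : E3 → E3) : ℝ :=
  sSup {z : ℝ | ∃ ψ : E3 → E3, Cc ψ ∧ gsq ψ ≤ 1 ∧ z = ip w (curl (sm χ ψ))}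

/-- the potential of the cut-off vorticity -/
def bet (χ : E3 → ℝ) (w : E3 → E3) : E3 → E3 := NP (sm χ (curl w))

/-- the optimal test field -/
def BB (χ : E3 → ℝ) (w : E3 → E3) : E3 → E3 := curl (sm χ (bet χ w))

/-- a smooth approximate solution of the Euler equations on the time interval `[a, b]` -/
structure SF (a b : ℝ) (V S : ℝ → E3 → E3) : Prop where
  smooth : ContDiff ℝ ∞ (fun p : ℝ × E3 => V p.1 p.2)
  smoothS : ContDiff ℝ ∞ (fun p : ℝ × E3 => S p.1 p.2)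
  div : ∀ s x, divg (V s) x = 0
  l2 : ∀ s ∈ Icc a b, MemLp (V s) 2 volume
  eqn : ∀ s ∈ Icc a b, ∃ q : E3 → ℝ, ContDiff ℝ ∞ q ∧
    ∀ x, deriv (fun τ => V τ x) s + adv (V s) (V s) x + S s x = - grad q x

/-- the class of ancient Euler flows at the energy-critical rate -/
structure Anc (C₁ C₂ C₃ E₀ : ℝ) (v : ℝ → E3 → E3) : Prop where
  lip : ∀ s < 0, ∀ x y, ‖v s x - v s y‖ ≤ C₁ / (-s) * ‖x - y‖
  l2 : ∀ s < 0, MemLp (v s) 2 volume
  energy : ∀ s < 0, sq (v s) ≤ E₀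
  div : ∀ s < 0, WDiv (v s)
  grad : ∀ s < 0, ∀ h : E3, sq (fun x => v s (x + h) - v s x) ≤ C₂ * (-s) ^ (-(4 / 5) : ℝ) * ‖h‖ ^ 2
  time : ∀ s t, s < t → t < 0 → sq (fun x => v t x - v s x) ≤ C₃ * (t - s) / (-t)
  eqn : ∀ φ, TestField univ φ → ∀ s t, s < t → t < 0 →
    ip (v t) φ - ip (v s) φ = ∫ τ in s..t, nl φ (v τ)
  zero : ∀ φ, TestField univ φ → Tendsto (fun s => ip (v s) φ) (𝓝[<] 0) (𝓝 0)

end Pool.Agent.Helper60.EC
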