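import Pool.Agent.Helper60.EC.Calc2
import Pool.Agent.Helper60.EC.Calc3b

/-! Project EC, Mol: approximation of solenoidal L² fields by smooth ones -/

set_option autoImplicit false

open MeasureTheory Set Filter Topology
open scoped ENNReal ContDiff

noncomputable section

namespace Pool.Agent.Helper60.EC

open Pool.Agent.Helper52.NSE (E3 pd divg TestField)

/-- the square of the `L²` norm as an integral in `[0, ∞]` -/
theorem Mol_lint {f : E3 → E3} (hf : MemLp f 2 volume) :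
    ∫⁻ x, ‖f x‖ₑ ^ 2 = ENNReal.ofReal (sq f) := by
  have h := hf
  rw [memLp_two_iff_integrable_sq_norm hf.1] at h
  unfold sq
  rw [ofReal_integral_eq_lintegral_ofReal h (Filter.Eventually.of_forall fun x => by positivity)]
  refine lintegral_congr fun x => ?_
  rw [ENNReal.ofReal_pow (norm_nonneg _), ofReal_norm]

theorem Mol_of_lint {f : E3 → E3} (hf : AEStronglyMeasurable f volume) {c : ℝ} (hc : 0 ≤ c)
    (h : ∫⁻ x, ‖f x‖ₑ ^ 2 ≤ ENNReal.ofReal c) : MemLp f 2 volume ∧ sq f ≤ c := by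
  have e : ∀ x, ‖f x‖ₑ ^ 2 = ENNReal.ofReal (‖f x‖ ^ 2) := fun x => by
    rw [ENNReal.ofReal_pow (norm_nonneg _), ofReal_norm]
  simp_rw [e] at h
  have hm : MemLp f 2 volume := by
    rw [memLp_two_iff_integrable_sq_norm hf]
    refine ⟨(hf.norm.pow 2), ?_⟩
    rw [hasFiniteIntegral_iff_ofReal (Filter.Eventually.of_forall fun x => by positivity)]
    exact h.trans_lt ENNReal.ofReal_lt_top
  refine ⟨hm, ?_⟩
  have h2 := hm
  rw [memLp_two_iff_integrable_sq_norm hf] at h2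
  rw [← ofReal_integral_eq_lintegral_ofReal h2
    (Filter.Eventually.of_forall fun x => by positivity)] at h
  exact (ENNReal.ofReal_le_ofReal_iff hc).1 h

/-- the convolution with a scalar kernel -/
def Mol_M (ρ : E3 → ℝ) (u : E3 → E3) : E3 → E3 :=
  convolution ρ u (ContinuousLinearMap.lsmul ℝ ℝ) volume

/-- a mollifying kernel -/
structure Mol_K (ρ : E3 → ℝ) : Prop where
  cc : Cc ρ
  nn : ∀ x, 0 ≤ ρ x
  one : ∫ x, ρ x = 1

theorem Mol_loc {F : Type} [NormedAddCommGroup F] {u : E3 → F} (hu : MemLp u 2 volume) :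
    LocallyIntegrable u volume :=
  hu.locallyIntegrable (by norm_num)

theorem Mol_exists {ρ : E3 → ℝ} (hρ : Cc ρ) {F : Type} [NormedAddCommGroup F] [NormedSpace ℝ F]
    {u : E3 → F} (hu : LocallyIntegrable u volume) (x : E3) :
    Integrable (fun t => ρ t • u (x - t)) volume :=
  hρ.comp.convolutionExists_left (ContinuousLinearMap.lsmul ℝ ℝ) hρ.smooth.continuous hu x

theorem Mol_smooth {ρ : E3 → ℝ} (hρ : Cc ρ) {u : E3 → E3} (hu : LocallyIntegrable u volume) :
    ContDiff ℝ ∞ (Mol_M ρ u) :=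
  hρ.comp.contDiff_convolution_left (ContinuousLinearMap.lsmul ℝ ℝ) hρ.smooth hu

theorem Mol_D {ρ : E3 → ℝ} (hρ : Cc ρ) {u : E3 → E3} (hu : LocallyIntegrable u volume)
    (i : Fin 3) (x : E3) : D i (Mol_M ρ u) x = ∫ t, D i ρ t • u (x - t) := by
  have h1 := hρ.comp.hasFDerivAt_convolution_left (μ := (volume : Measure E3))
    (ContinuousLinearMap.lsmul ℝ ℝ : ℝ →L[ℝ] E3 →L[ℝ] E3) (hρ.smooth.of_le (by exact_mod_cast le_top)) hu x
  unfold D Mol_M
  rw [h1.fderiv]
  unfold convolution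
  rw [ContinuousLinearMap.integral_apply]
  · rfl
  · exact (hρ.comp.fderiv ℝ).convolutionExists_left _ (hρ.smooth.continuous_fderiv (by simp)) hu x

/-- the pointwise inequality of Jensen -/
theorem Mol_jensen {ρ : E3 → ℝ} (hρ : Mol_K ρ) {u : E3 → E3} (hu : MemLp u 2 volume) (x : E3) :
    ‖Mol_M ρ u x‖ ^ 2 ≤ ∫ t, ρ t • ‖u (x - t)‖ ^ 2 := by
  have hu2 := hu
  rw [memLp_two_iff_integrable_sq_norm hu.1] at hu2
  have i1 := Mol_exists hρ.cc hu2.locallyIntegrable x
  have i2 := Mol_exists hρ.cc (Mol_loc hu) x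
  set c : E3 := Mol_M ρ u x with hc
  have hc2 : c = ∫ t, ρ t • u (x - t) := rfl
  have i3 : Integrable (fun t => ρ t) volume := Calc2a_int hρ.cc.smooth.continuous hρ.cc.comp
  have i4 : Integrable (fun t => 2 * (inner ℝ c (ρ t • u (x - t)) : ℝ)) volume :=
    (i2.const_inner c).const_mul 2
  have hnn : 0 ≤ ∫ t, ρ t * ‖u (x - t) - c‖ ^ 2 :=
    integral_nonneg fun t => mul_nonneg (hρ.nn t) (by positivity)
  have e : ∀ t, ρ t * ‖u (x - t) - c‖ ^ 2 =
      (ρ t • ‖u (x - t)‖ ^ 2 - 2 * (inner ℝ c (ρ t • u (x - t)) : ℝ)) + ρ t * ‖c‖ ^ 2 := by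
    intro t
    rw [norm_sub_sq_real, inner_smul_right, smul_eq_mul, real_inner_comm]
    ring
  simp_rw [e] at hnn
  have i5 : Integrable (fun t => ρ t • ‖u (x - t)‖ ^ 2 -
      2 * (inner ℝ c (ρ t • u (x - t)) : ℝ)) volume := i1.sub i4
  rw [integral_add i5 (i3.mul_const _), integral_sub i1 i4, integral_const_mul,
    integral_mul_const, hρ.one, integral_inner i2, ← hc2, real_inner_self_eq_norm_sq] at hnn
  linarith

/-- mollification does not increase the `L²` norm -/
theorem Mol_l2 {ρ : E3 → ℝ} (hρ : Mol_K ρ) {u : E3 → E3} (hu : MemLp u 2 volume) :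
    MemLp (Mol_M ρ u) 2 volume ∧ sq (Mol_M ρ u) ≤ sq u := by
  have hs := Mol_smooth hρ.cc (Mol_loc hu)
  have hu2 := hu
  rw [memLp_two_iff_integrable_sq_norm hu.1] at hu2
  have i3 : Integrable ρ volume := Calc2a_int hρ.cc.smooth.continuous hρ.cc.comp
  have j1 : Integrable (fun x => ∫ t, ρ t • ‖u (x - t)‖ ^ 2) volume :=
    i3.integrable_convolution (ContinuousLinearMap.lsmul ℝ ℝ) hu2
  have j2 : ∫ x, ∫ t, ρ t • ‖u (x - t)‖ ^ 2 = sq u := by
    have := integral_convolution (μ := (volume : Measure E3)) (ν := (volume : Measure E3))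
      (ContinuousLinearMap.lsmul ℝ ℝ : ℝ →L[ℝ] ℝ →L[ℝ] ℝ) i3 hu2
    refine Eq.trans this ?_
    rw [hρ.one]
    simp [sq]
  have hm : MemLp (Mol_M ρ u) 2 volume := by
    rw [memLp_two_iff_integrable_sq_norm hs.continuous.aestronglyMeasurable]
    refine j1.mono' (hs.continuous.norm.pow 2).aestronglyMeasurable
      (Filter.Eventually.of_forall fun x => ?_)
    rw [Real.norm_of_nonneg (by positivity)]
    exact Mol_jensen hρ hu x
  refine ⟨hm, ?_⟩
  rw [← j2]
  rw [memLp_two_iff_integrable_sq_norm hm.1] at hm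
  exact integral_mono hm j1 fun x => Mol_jensen hρ hu x

theorem Mol_sub {ρ : E3 → ℝ} (hρ : Cc ρ) {u v : E3 → E3} (hu : MemLp u 2 volume)
    (hv : MemLp v 2 volume) (x : E3) :
    Mol_M ρ (fun y => u y - v y) x = Mol_M ρ u x - Mol_M ρ v x := by
  have i1 := Mol_exists hρ (Mol_loc hu) x
  have i2 := Mol_exists hρ (Mol_loc hv) x
  have h : Mol_M ρ u x - Mol_M ρ v x =
    (∫ t, ρ t • u (x - t)) - ∫ t, ρ t • v (x - t) := rfl
  rw [h, ← integral_sub i1 i2]
  have h2 : Mol_M ρ (fun y => u y - v y) x = ∫ t, ρ t • (u (x - t) - v (x - t)) := rfl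
  rw [h2]
  simp_rw [smul_sub]

theorem Mol_shift (ρ : E3 → ℝ) (u : E3 → E3) (h x : E3) :
    Mol_M ρ (fun y => u (y + h)) x = Mol_M ρ u (x + h) := by
  have h1 : Mol_M ρ (fun y => u (y + h)) x = ∫ t, ρ t • u (x - t + h) := rfl
  have h2 : Mol_M ρ u (x + h) = ∫ t, ρ t • u (x + h - t) := rfl
  rw [h1, h2]
  congr 1
  funext t
  congr 2
  abel

/-- mollification preserves the divergence condition -/
theorem Mol_div {ρ : E3 → ℝ} (hρ : Cc ρ) {w : E3 → E3} (hw : MemLp w 2 volume) (hd : WDiv w)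
    (x : E3) : divg (Mol_M ρ w) x = 0 := by
  have hi : ∀ i, Integrable (fun t => D i ρ t • w (x - t)) volume := fun i =>
    Mol_exists (cc_D hρ i) (Mol_loc hw) x
  have h1 : ∀ i, (D i (Mol_M ρ w) x) i = ∫ t, D i ρ t * w (x - t) i := by
    intro i
    rw [Mol_D hρ (Mol_loc hw)]
    have h := (EuclideanSpace.proj (𝕜 := ℝ) i : E3 →L[ℝ] ℝ).integral_comp_comm (hi i)
    exact h.symm
  have hi2 : ∀ i, Integrable (fun t => D i ρ t * w (x - t) i) volume := fun i =>
    (EuclideanSpace.proj (𝕜 := ℝ) i : E3 →L[ℝ] ℝ).integrable_comp (hi i)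
  have h2 : divg (Mol_M ρ w) x = ∫ t, (inner ℝ (w (x - t)) (grad ρ t) : ℝ) := by
    have : divg (Mol_M ρ w) x = ∑ i, (D i (Mol_M ρ w) x) i := rfl
    rw [this]
    simp_rw [h1]
    rw [← integral_finsetSum _ fun i _ => hi2 i]
    refine integral_congr_ae (Filter.Eventually.of_forall fun t => ?_)
    simp only
    rw [Calc3b_inner, Fin.sum_univ_three, Calc3b_grad, Calc3b_grad, Calc3b_grad]
    ring
  rw [h2]
  have h3 : ∫ t, (inner ℝ (w (x - t)) (grad ρ t) : ℝ) =
      ∫ t, (inner ℝ (w t) (grad ρ (x - t)) : ℝ) := by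
    rw [← integral_sub_left_eq_self (fun t => (inner ℝ (w (x - t)) (grad ρ t) : ℝ)) volume x]
    simp
  rw [h3]
  -- the test function
  have hφ : Cc (fun t => ρ (x - t)) := by
    refine ⟨hρ.smooth.comp (contDiff_const.sub contDiff_id), ?_⟩
    exact hρ.comp.comp_homeomorph (Homeomorph.subLeft x)
  have hg : ∀ t, grad (fun t => ρ (x - t)) t = -grad ρ (x - t) := by
    intro t
    have hD : ∀ i, D i (fun t => ρ (x - t)) t = -D i ρ (x - t) := by
      intro i
      have h := D_comp_affine (hρ.smooth.differentiable (by simp)) (-1) x i t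
      have e1 : (fun y => ρ (x + (-1 : ℝ) • y)) = fun y => ρ (x - y) := by
        funext y
        rw [neg_one_smul, sub_eq_add_neg]
      rw [e1] at h
      rw [h, neg_one_smul, neg_one_smul, ← sub_eq_add_neg]
    apply Calc3b_ext <;> simp only [PiLp.neg_apply, Calc3b_grad, hD]
  have h4 := hd _ hφ
  simp_rw [hg, inner_neg_right] at h4
  rw [integral_neg] at h4
  linarith

/-- Lipschitz bounds give derivatives -/
theorem Mol_grad {ρ : E3 → ℝ} (hρ : Mol_K ρ) {w : E3 → E3} (hw : MemLp w 2 volume) {L : ℝ}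
    (hL : ∀ h : E3, sq (fun x => w (x + h) - w x) ≤ L * ‖h‖ ^ 2) (i : Fin 3) :
    MemLp (D i (Mol_M ρ w)) 2 volume ∧ sq (D i (Mol_M ρ w)) ≤ L := by
  have hs := Mol_smooth hρ.cc (Mol_loc hw)
  have hL0 : 0 ≤ L := by
    have h := hL (EuclideanSpace.single i 1)
    have h0 : 0 ≤ sq (fun x => w (x + EuclideanSpace.single i (1 : ℝ)) - w x) :=
      integral_nonneg fun x => by positivity
    rw [PiLp.norm_single] at h
    simp at h
    linarith
  have hwh : ∀ h : E3, MemLp (fun x => w (x + h)) 2 volume := fun h =>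
    hw.comp_measurePreserving (measurePreserving_add_right volume h)
  have hq : ∀ h : E3, MemLp (fun x => Mol_M ρ w (x + h) - Mol_M ρ w x) 2 volume ∧
      sq (fun x => Mol_M ρ w (x + h) - Mol_M ρ w x) ≤ L * ‖h‖ ^ 2 := by
    intro h
    have h1 := Mol_l2 hρ ((hwh h).sub hw)
    have e : (fun x => Mol_M ρ w (x + h) - Mol_M ρ w x) =
        Mol_M ρ ((fun x => w (x + h)) - w) := by
      funext x
      have := Mol_sub hρ.cc (hwh h) hw x
      rw [Mol_shift] at this
      exact this.symm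
    rw [e]
    exact ⟨h1.1, h1.2.trans (hL h)⟩
  set t : ℕ → ℝ := fun n => 1 / ((n : ℝ) + 1) with ht
  have htp : ∀ n, 0 < t n := fun n => by positivity
  set q : ℕ → E3 → E3 := fun n x =>
    (t n)⁻¹ • (Mol_M ρ w (x + (t n) • EuclideanSpace.single i (1 : ℝ)) - Mol_M ρ w x) with hqd
  have hqm : ∀ n, MemLp (q n) 2 volume ∧ sq (q n) ≤ L := by
    intro n
    obtain ⟨h1, h2⟩ := hq ((t n) • EuclideanSpace.single i (1 : ℝ))
    refine ⟨h1.const_smul (t n)⁻¹, ?_⟩
    have e : sq (q n) = (t n)⁻¹ ^ 2 *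
        sq (fun x => Mol_M ρ w (x + (t n) • EuclideanSpace.single i (1 : ℝ)) - Mol_M ρ w x) := by
      unfold sq
      rw [← integral_const_mul]
      congr 1
      funext x
      simp only [hqd]
      rw [norm_smul, mul_pow, Real.norm_eq_abs, sq_abs]
    rw [e]
    rw [norm_smul, PiLp.norm_single, Real.norm_eq_abs, abs_of_pos (htp n)] at h2
    simp only [norm_one, mul_one] at h2
    calc (t n)⁻¹ ^ 2 * _ ≤ (t n)⁻¹ ^ 2 * (L * t n ^ 2) :=
          mul_le_mul_of_nonneg_left h2 (by positivity)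
      _ = L := by
          have := (htp n).ne'
          field_simp
  have hlim : ∀ x, Tendsto (fun n => q n x) atTop (𝓝 (D i (Mol_M ρ w) x)) := by
    intro x
    have hd : HasLineDerivAt ℝ (Mol_M ρ w) (D i (Mol_M ρ w) x) x (EuclideanSpace.single i (1 : ℝ)) :=
      (hs.differentiable (by simp) x).hasFDerivAt.hasLineDerivAt _
    have h1 := hd.tendsto_slope_zero
    have h2 : Tendsto t atTop (𝓝[≠] 0) := by
      refine tendsto_nhdsWithin_iff.2 ⟨tendsto_one_div_add_atTop_nhds_zero_nat, ?_⟩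
      exact Filter.Eventually.of_forall fun n => (htp n).ne'
    exact h1.comp h2
  refine Mol_of_lint (D_smooth hs i).continuous.aestronglyMeasurable hL0 ?_
  have hF := lintegral_liminf_le' (μ := (volume : Measure E3)) (u := atTop)
    (f := fun n x => ‖q n x‖ₑ ^ 2) (fun n => ((hqm n).1.1.enorm.pow_const 2))
  have e1 : ∀ x, liminf (fun n => ‖q n x‖ₑ ^ 2) atTop = ‖D i (Mol_M ρ w) x‖ₑ ^ 2 := by
    intro x
    have h1 : Tendsto (fun n => ‖q n x‖ₑ) atTop (𝓝 (‖D i (Mol_M ρ w) x‖ₑ)) := (hlim x).enorm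
    exact (((ENNReal.continuous_pow 2).tendsto _).comp h1).liminf_eq
  simp_rw [e1] at hF
  refine hF.trans ?_
  refine liminf_le_of_le (by isBoundedDefault) ?_
  intro b hb
  obtain ⟨n, hn⟩ := hb.exists
  refine hn.trans ?_
  rw [Mol_lint (hqm n).1]
  exact ENNReal.ofReal_le_ofReal (hqm n).2

/-- the mollifying kernels -/
theorem Mol_approx {w : E3 → E3} (hw : MemLp w 2 volume) {ε : ℝ} (hε : 0 < ε) :
    ∃ ρ : E3 → ℝ, Mol_K ρ ∧ sq (fun x => w x - Mol_M ρ w x) ≤ ε := by
  let φ : ℕ → ContDiffBump (0 : E3) := fun n =>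
    ⟨1 / ((n : ℝ) + 1), 2 * (1 / ((n : ℝ) + 1)), by positivity, by
      have : (0 : ℝ) < 1 / ((n : ℝ) + 1) := by positivity
      linarith⟩
  have hr : Tendsto (fun n => (φ n).rOut) atTop (𝓝 0) := by
    have := (tendsto_one_div_add_atTop_nhds_zero_nat (𝕜 := ℝ)).const_mul 2
    rw [mul_zero] at this
    exact this
  have hK : ∀ n, Mol_K ((φ n).normed volume) := fun n =>
    ⟨⟨(φ n).contDiff_normed, (φ n).hasCompactSupport_normed⟩, fun x => (φ n).nonneg_normed x,
      (φ n).integral_normed⟩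
  have hae := ContDiffBump.ae_convolution_tendsto_right_of_locallyIntegrable (K := 2)
    (μ := (volume : Measure E3)) hr (Filter.Eventually.of_forall fun n => le_rfl) (Mol_loc hw)
  set v : ℕ → E3 → E3 := fun n => Mol_M ((φ n).normed volume) w with hv
  have hvm : ∀ n, MemLp (v n) 2 volume ∧ sq (v n) ≤ sq w := fun n => Mol_l2 (hK n) hw
  have hw2 := hw
  rw [memLp_two_iff_integrable_sq_norm hw.1] at hw2
  by_contra hcon
  push Not at hcon
  have hpar : ∀ n, sq (fun x => w x + v n x) ≤ 4 * sq w - ε := by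
    intro n
    have h1 := hcon _ (hK n)
    have m1 : MemLp (fun x => w x + v n x) 2 volume := hw.add (hvm n).1
    have m2 : MemLp (fun x => w x - v n x) 2 volume := hw.sub (hvm n).1
    have m3 := (hvm n).1
    rw [memLp_two_iff_integrable_sq_norm m1.1] at m1
    rw [memLp_two_iff_integrable_sq_norm m2.1] at m2
    rw [memLp_two_iff_integrable_sq_norm m3.1] at m3
    have h2 : sq (fun x => w x + v n x) + sq (fun x => w x - v n x) = 2 * sq w + 2 * sq (v n) := by
      unfold sq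
      rw [← integral_add m1 m2, ← integral_const_mul, ← integral_const_mul,
        ← integral_add (hw2.const_mul 2) (m3.const_mul 2)]
      congr 1
      funext x
      have := parallelogram_law_with_norm ℝ (w x) (v n x)
      nlinarith
    have h3 := (hvm n).2
    linarith
  have hpos : 0 ≤ 4 * sq w - ε := (integral_nonneg fun x => by positivity).trans (hpar 0)
  have hF := lintegral_liminf_le' (μ := (volume : Measure E3)) (u := atTop)
    (f := fun n x => ‖w x + v n x‖ₑ ^ 2) (fun n => ((hw.add (hvm n).1).1.enorm.pow_const 2))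
  have e1 : ∀ᵐ x, liminf (fun n => ‖w x + v n x‖ₑ ^ 2) atTop = ‖(2 : ℝ) • w x‖ₑ ^ 2 := by
    filter_upwards [hae] with x hx
    have h0 : Tendsto (fun n => w x + v n x) atTop (𝓝 ((2 : ℝ) • w x)) := by
      rw [two_smul]
      exact tendsto_const_nhds.add hx
    have h1 : Tendsto (fun n => ‖w x + v n x‖ₑ) atTop (𝓝 (‖(2 : ℝ) • w x‖ₑ)) := h0.enorm
    exact (((ENNReal.continuous_pow 2).tendsto _).comp h1).liminf_eq
  rw [lintegral_congr_ae e1] at hF
  have h2w : MemLp (fun x => (2 : ℝ) • w x) 2 volume := hw.const_smul (2 : ℝ)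
  rw [Mol_lint h2w] at hF
  have e2 : sq (fun x => (2 : ℝ) • w x) = 4 * sq w := by
    unfold sq
    rw [← integral_const_mul]
    congr 1
    funext x
    rw [norm_smul, mul_pow]
    norm_num
  have h5 : ENNReal.ofReal (sq (fun x => (2 : ℝ) • w x)) ≤ ENNReal.ofReal (4 * sq w - ε) := by
    refine hF.trans ?_
    refine liminf_le_of_le (by isBoundedDefault) ?_
    intro b hb
    obtain ⟨n, hn⟩ := hb.exists
    refine hn.trans ?_
    have m1 : MemLp (fun x => w x + v n x) 2 volume := hw.add (hvm n).1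
    rw [Mol_lint m1]
    exact ENNReal.ofReal_le_ofReal (hpar n)
  rw [ENNReal.ofReal_le_ofReal_iff hpos, e2] at h5
  linarith

/-- mollification -/
theorem exists_sml (w : E3 → E3) (hw : MemLp w 2 volume) (hd : WDiv w) (ε : ℝ) (hε : 0 < ε) :
    ∃ w' : E3 → E3, Sml w' ∧ sq w' ≤ sq w ∧ sq (fun x => w x - w' x) ≤ ε ∧
      ∀ L : ℝ, (∀ h : E3, sq (fun x => w (x + h) - w x) ≤ L * ‖h‖ ^ 2) →
        (∀ i, MemLp (D i w') 2 volume) ∧ gsq w' ≤ 3 * L := by
  obtain ⟨ρ, hρ, h1⟩ := Mol_approx hw hε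
  obtain ⟨h2, h3⟩ := Mol_l2 hρ hw
  refine ⟨Mol_M ρ w, ⟨Mol_smooth hρ.cc (Mol_loc hw), h2, Mol_div hρ.cc hw hd⟩, h3, h1, ?_⟩
  intro L hL
  have h4 := fun i => Mol_grad hρ hw hL i
  refine ⟨fun i => (h4 i).1, ?_⟩
  rw [gsq_eq_sum fun i => (h4 i).1, Fin.sum_univ_three]
  linarith [(h4 0).2, (h4 1).2, (h4 2).2]

end Pool.Agent.Helper60.EC
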