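import Pool.Agent.Helper60.EC.Z3
import Pool.Agent.Helper60.EC.Mol

/-! Project EC, Z4: comparison of Zf and the local energy, rough fields -/

set_option autoImplicit false

open MeasureTheory Set Filter Topology
open scoped ENNReal ContDiff

noncomputable section

namespace Pool.Agent.Helper60.EC

open Pool.Agent.Helper52.NSE (E3 pd divg TestField)

variable {w : E3 → E3}

/-- the annulus -/
def Z4_A (a : E3) (R : ℝ) : Set E3 := Metric.ball a R \ Metric.ball a (R / 2)

theorem Z4_A_meas (a : E3) (R : ℝ) : MeasurableSet (Z4_A a R) :=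
  measurableSet_ball.diff measurableSet_ball

theorem Z4_D_zero {a : E3} {R K : ℝ} {χ : E3 → ℝ} (hR : 0 < R) (hχ : Cut a R K χ)
    (h1 : ∀ x, ‖x - a‖ ≤ R / 2 → χ x = 1) (i : Fin 3) {x : E3} (hx : x ∉ Z4_A a R) :
    D i χ x = 0 := by
  by_cases hb : x ∈ Metric.ball a (R / 2)
  · have he : χ =ᶠ[𝓝 x] fun _ => (1 : ℝ) := by
      filter_upwards [Metric.isOpen_ball.mem_nhds hb] with y hy
      apply h1
      rw [mem_ball_iff_norm] at hy
      exact hy.le
    rw [D_congr he]
    unfold D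
    rw [fderiv_fun_const]
    rfl
  · have hxR : x ∈ (Metric.ball a R)ᶜ := fun hc => hx ⟨hc, hb⟩
    have hcl : IsClosed {y : E3 | D i χ y = 0} :=
      isClosed_eq (D_smooth hχ.cc.smooth i).continuous continuous_const
    have hsub : (Metric.closedBall a R)ᶜ ⊆ {y : E3 | D i χ y = 0} := by
      intro y hy
      have he : χ =ᶠ[𝓝 y] fun _ => (0 : ℝ) := by
        filter_upwards [Metric.isClosed_closedBall.isOpen_compl.mem_nhds hy] with z hz
        apply hχ.supp
        rw [mem_compl_iff, mem_closedBall_iff_norm, not_le] at hz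
        exact hz.le
      change D i χ y = 0
      rw [D_congr he]
      unfold D
      rw [fderiv_fun_const]
      rfl
    have hcl2 := (hcl.closure_subset_iff).2 hsub
    rw [closure_compl, interior_closedBall a hR.ne'] at hcl2
    exact hcl2 hxR

theorem Z4_grad_zero {a : E3} {R K : ℝ} {χ : E3 → ℝ} (hR : 0 < R) (hχ : Cut a R K χ)
    (h1 : ∀ x, ‖x - a‖ ≤ R / 2 → χ x = 1) {x : E3} (hx : x ∉ Z4_A a R) : grad χ x = 0 := by
  ext i
  rw [Calc3b_grad, Z4_D_zero hR hχ h1 i hx]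
  rfl

theorem Z4_K {a : E3} {R K : ℝ} {χ : E3 → ℝ} (hχ : Cut a R K χ) : 0 ≤ K :=
  (abs_nonneg _).trans (hχ.bd 0)

theorem Z4_grad_le {a : E3} {R K : ℝ} {χ : E3 → ℝ} (hR : 0 < R) (hχ : Cut a R K χ) (x : E3) :
    ‖grad χ x‖ ≤ 2 * K / R := by
  have hK := Z4_K hχ
  have h2 : ‖grad χ x‖ ^ 2 ≤ (2 * K / R) ^ 2 := by
    rw [norm_grad_sq]
    have h3 : ∀ i, ‖D i χ x‖ ^ 2 ≤ (K / R) ^ 2 := fun i =>
      pow_le_pow_left₀ (norm_nonneg _) (hχ.d1 i x) 2
    calc ∑ i, ‖D i χ x‖ ^ 2 ≤ ∑ _i : Fin 3, (K / R) ^ 2 := Finset.sum_le_sum fun i _ => h3 i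
      _ = 3 * (K / R) ^ 2 := by simp
      _ ≤ 4 * (K / R) ^ 2 := by nlinarith [sq_nonneg (K / R)]
      _ = (2 * K / R) ^ 2 := by ring
  exact le_of_sq_le_sq₀ h2 (by positivity)
where
  le_of_sq_le_sq₀ {a b : ℝ} (h : a ^ 2 ≤ b ^ 2) (hb : 0 ≤ b) : a ≤ b := abs_le_of_sq_le_sq' h hb |>.2

theorem Z4_sq_le {F : Type} [NormedAddCommGroup F] [InnerProductSpace ℝ F] {b : E3 → F}
    (hb : Cc b) {c : ℝ} (hw : MemLp w 2 volume) {A : Set E3}
    (hbw : ∀ y, ‖b y‖ ≤ c * ‖w y‖) (h0 : ∀ y, y ∉ A → b y = 0) :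
    sq b ≤ c ^ 2 * sqOn A w := by
  have hint : Integrable (fun y => ‖w y‖ ^ 2) volume := by
    have := hw.integrable_norm_pow (by norm_num)
    simpa using this
  have hbi : Integrable (fun y => ‖b y‖ ^ 2) volume := by
    have h1 : HasCompactSupport (fun y => ‖b y‖ ^ 2) := hb.comp.mono (fun x hx => by
      intro hc
      apply hx
      simp only [hc, norm_zero]
      norm_num)
    exact Calc2a_int (hb.smooth.continuous.norm.pow 2) h1
  unfold sq sqOn
  have e1 : ∫ x, ‖b x‖ ^ 2 = ∫ x in A, ‖b x‖ ^ 2 := by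
    symm
    apply setIntegral_eq_integral_of_forall_compl_eq_zero
    intro x hx
    rw [h0 x hx]; simp
  rw [e1, ← integral_const_mul]
  apply integral_mono hbi.integrableOn (hint.integrableOn.const_mul _)
  intro x
  have := pow_le_pow_left₀ (norm_nonneg _) (hbw x) 2
  calc ‖b x‖ ^ 2 ≤ (c * ‖w x‖) ^ 2 := this
    _ = c ^ 2 * ‖w x‖ ^ 2 := by ring

theorem Z4_n1 {F : Type} [NormedAddCommGroup F] [InnerProductSpace ℝ F] [FiniteDimensional ℝ F]
    {b : E3 → F} (hb : Cc b) {K : ℝ} {a : E3} {R : ℝ} (hR : 0 < R) (hK : 0 ≤ K)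
    (hw : MemLp w 2 volume)
    (hbw : ∀ y, ‖b y‖ ≤ 2 * K / R * ‖w y‖) (h0 : ∀ y, y ∉ Z4_A a R → b y = 0) :
    Real.sqrt (ip b (NP b)) ≤ 4 * K * Real.sqrt (sqOn (Z4_A a R) w) := by
  have h1 := (n1_le hb hR (a := a) (fun x hx => h0 x (fun hc => by
    have := hc.1
    rw [mem_ball_iff_norm] at this
    linarith))).2
  have h2 := Z4_sq_le hb hw hbw h0
  have h3 : ip b (NP b) ≤ (4 * K) ^ 2 * sqOn (Z4_A a R) w := by
    refine h1.trans ?_
    calc 4 * R ^ 2 * sq b ≤ 4 * R ^ 2 * ((2 * K / R) ^ 2 * sqOn (Z4_A a R) w) :=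
          mul_le_mul_of_nonneg_left h2 (by positivity)
      _ = (4 * K) ^ 2 * sqOn (Z4_A a R) w := by field_simp; ring
  refine (Real.sqrt_le_sqrt h3).trans ?_
  rw [Real.sqrt_mul (by positivity), Real.sqrt_sq (by positivity)]

/-- smooth fields -/
theorem Z4_smooth (K : ℝ) : ∃ C : ℝ, 0 ≤ C ∧ ∀ (a : E3) (R : ℝ) (χ : E3 → ℝ), 0 < R →
    Cut a R K χ → (∀ x, ‖x - a‖ ≤ R / 2 → χ x = 1) → ∀ w : E3 → E3, Sml w →
      |Zf χ w ^ 2 - sq (sm χ w)| ≤ C * Real.sqrt (sqOn (Metric.ball a R) w) *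
        Real.sqrt (sqOn (Z4_A a R) w) := by
  obtain ⟨C, hC, H⟩ := Zf_compare K
  refine ⟨C * (8 * |K|), by positivity, ?_⟩
  intro a R χ hR hχ h1 w hw
  have hK := Z4_K hχ
  have hg := cc_grad hχ.cc
  have b1 := Z4_n1 (cc_inner_left hg hw.smooth) hR hK hw.l2
    (fun y => by
      refine (norm_inner_le_norm _ _).trans ?_
      exact mul_le_mul_of_nonneg_right (Z4_grad_le hR hχ y) (norm_nonneg _))
    (fun y hy => by
      simp only [Z4_grad_zero hR hχ h1 hy, inner_zero_left]) (a := a)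
  have b2 := Z4_n1 (cc_cr_left hg hw.smooth) hR hK hw.l2
    (fun y => by
      refine (norm_cr_le _ _).trans ?_
      exact mul_le_mul_of_nonneg_right (Z4_grad_le hR hχ y) (norm_nonneg _))
    (fun y hy => by
      have h0 := Z4_grad_zero hR hχ h1 hy
      have : cr (0 : E3) (w y) = 0 := by
        have := cr_smul_left 0 0 (w y)
        simpa using this
      simp only [h0, this]) (a := a)
  refine (H a R χ hR hχ w hw).trans ?_
  rw [abs_of_nonneg hK]
  have h3 : Real.sqrt (ip (fun y => (inner ℝ (grad χ y) (w y) : ℝ))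
            (NP fun y => (inner ℝ (grad χ y) (w y) : ℝ))) +
          Real.sqrt (ip (fun y => cr (grad χ y) (w y)) (NP fun y => cr (grad χ y) (w y))) ≤
        8 * K * Real.sqrt (sqOn (Z4_A a R) w) := by linarith
  calc C * Real.sqrt (sqOn (Metric.ball a R) w) *
        (Real.sqrt (ip (fun y => (inner ℝ (grad χ y) (w y) : ℝ))
            (NP fun y => (inner ℝ (grad χ y) (w y) : ℝ))) +
          Real.sqrt (ip (fun y => cr (grad χ y) (w y)) (NP fun y => cr (grad χ y) (w y))))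
      ≤ C * Real.sqrt (sqOn (Metric.ball a R) w) * (8 * K * Real.sqrt (sqOn (Z4_A a R) w)) :=
        mul_le_mul_of_nonneg_left h3 (by positivity)
    _ = C * (8 * K) * Real.sqrt (sqOn (Metric.ball a R) w) * Real.sqrt (sqOn (Z4_A a R) w) := by
        ring

theorem Z4_sq_univ {F : Type} [NormedAddCommGroup F] [InnerProductSpace ℝ F] (f : E3 → F) :
    sq f = sqOn univ f := by
  unfold sq sqOn
  rw [Measure.restrict_univ]

theorem Z4_rev {F : Type} [NormedAddCommGroup F] [InnerProductSpace ℝ F] (U : Set E3)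
    (f g : E3 → F) : sqOn U (fun x => g x - f x) = sqOn U (fun x => f x - g x) := by
  unfold sqOn
  congr 1
  funext x
  rw [norm_sub_rev]

theorem Z4_tri (U : Set E3) {f g : E3 → E3} (hf : MemLp f 2 volume) (hg : MemLp g 2 volume) :
    |Real.sqrt (sqOn U f) - Real.sqrt (sqOn U g)| ≤ Real.sqrt (sq (fun x => f x - g x)) := by
  have hm : ∀ {f g : E3 → E3}, MemLp f 2 volume → MemLp g 2 volume →
      Real.sqrt (sqOn U f) ≤ Real.sqrt (sqOn U g) + Real.sqrt (sq (fun x => f x - g x)) := by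
    intro f g hf hg
    have h1 := sqrt_sqOn_add_le (U := U) (hg.restrict U) ((hf.sub hg).restrict U)
    have e : (fun x => g x + (f - g) x) = f := by
      funext x; simp
    rw [e] at h1
    have h2 : Real.sqrt (sqOn U (f - g)) ≤ Real.sqrt (sq (fun x => f x - g x)) :=
      Real.sqrt_le_sqrt (sqOn_le_sq U (hf.sub hg))
    linarith
  have h1 := hm hf hg
  have h2 := hm hg hf
  have h3 : sq (fun x => g x - f x) = sq (fun x => f x - g x) := by
    rw [Z4_sq_univ, Z4_sq_univ, Z4_rev]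
  rw [h3] at h2
  rw [abs_le]
  constructor <;> linarith

theorem Z4_lim (U : Set E3) {W : ℕ → E3 → E3} (hw : MemLp w 2 volume)
    (hW : ∀ n, MemLp (W n) 2 volume)
    (hl : Tendsto (fun n => Real.sqrt (sq (fun x => w x - W n x))) atTop (𝓝 0)) :
    Tendsto (fun n => Real.sqrt (sqOn U (W n))) atTop (𝓝 (Real.sqrt (sqOn U w))) := by
  rw [tendsto_iff_dist_tendsto_zero]
  refine squeeze_zero (fun n => dist_nonneg) (fun n => ?_) hl
  rw [dist_comm, Real.dist_eq]
  exact Z4_tri U hw (hW n)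

theorem Z4_sm_memLp {χ : E3 → ℝ} {c : ℝ} (hχ : Continuous χ) (hb : ∀ x, |χ x| ≤ c)
    (hw : MemLp w 2 volume) : MemLp (sm χ w) 2 volume := by
  refine MemLp.of_le_mul (c := c) hw (hχ.aestronglyMeasurable.smul hw.1) ?_
  refine Filter.Eventually.of_forall fun x => ?_
  unfold sm
  rw [norm_smul]
  exact mul_le_mul_of_nonneg_right (hb x) (norm_nonneg _)

theorem Z4_sm_sub {χ : E3 → ℝ} {c : ℝ} (hc : 0 ≤ c) (hb : ∀ x, |χ x| ≤ c)
    {w w' : E3 → E3} (hw : MemLp w 2 volume) (hw' : MemLp w' 2 volume) :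
    Real.sqrt (sq (fun x => sm χ w x - sm χ w' x)) ≤
      c * Real.sqrt (sq (fun x => w x - w' x)) := by
  have h1 : sq (fun x => sm χ w x - sm χ w' x) ≤ c ^ 2 * sq (fun x => w x - w' x) := by
    unfold sq
    rw [← integral_const_mul]
    have hint : Integrable (fun x => ‖w x - w' x‖ ^ 2) volume := by
      have := (hw.sub hw').integrable_norm_pow (by norm_num)
      simpa using this
    apply integral_mono_of_nonneg
    · exact Filter.Eventually.of_forall fun x => by positivity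
    · exact hint.const_mul _
    · refine Filter.Eventually.of_forall fun x => ?_
      unfold sm
      dsimp only
      rw [← smul_sub, norm_smul, mul_pow]
      apply mul_le_mul_of_nonneg_right _ (by positivity)
      exact pow_le_pow_left₀ (norm_nonneg _) (hb x) 2
  refine (Real.sqrt_le_sqrt h1).trans ?_
  rw [Real.sqrt_mul (by positivity), Real.sqrt_sq hc]

theorem Zf_annulus (K : ℝ) : ∃ C : ℝ, 0 ≤ C ∧ ∀ (a : E3) (R : ℝ) (χ : E3 → ℝ), 0 < R →
    Cut a R K χ → (∀ x, ‖x - a‖ ≤ R / 2 → χ x = 1) → ∀ w : E3 → E3, MemLp w 2 volume → WDiv w →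
      |Zf χ w ^ 2 - sq (sm χ w)| ≤ C * Real.sqrt (sqOn (Metric.ball a R) w) *
        Real.sqrt (sqOn (Metric.ball a R \ Metric.ball a (R / 2)) w) := by
  obtain ⟨C, hC, H⟩ := Z4_smooth K
  obtain ⟨C2, hC2, H2⟩ := Zf_abs_sub_le K
  refine ⟨C, hC, ?_⟩
  intro a R χ hR hχ h1 w hw hd
  have hK := Z4_K hχ
  choose W hW1 hW2 hW3 hW4 using fun n : ℕ => exists_sml w hw hd (1 / ((n : ℝ) + 1)) (by positivity)
  have hl : Tendsto (fun n => Real.sqrt (sq (fun x => w x - W n x))) atTop (𝓝 0) := by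
    have h0 : Tendsto (fun n : ℕ => Real.sqrt (1 / ((n : ℝ) + 1))) atTop (𝓝 0) := by
      have h00 : Tendsto (fun n : ℕ => 1 / ((n : ℝ) + 1)) atTop (𝓝 0) :=
        tendsto_one_div_add_atTop_nhds_zero_nat
      have := (Real.continuous_sqrt.tendsto 0).comp h00
      rw [Real.sqrt_zero] at this
      exact this
    exact squeeze_zero (fun n => Real.sqrt_nonneg _) (fun n => Real.sqrt_le_sqrt (hW3 n)) h0
  have l1 := Z4_lim (Metric.ball a R) hw (fun n => (hW1 n).l2) hl
  have l2 := Z4_lim (Z4_A a R) hw (fun n => (hW1 n).l2) hl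
  -- convergence of Zf
  have l3 : Tendsto (fun n => Zf χ (W n)) atTop (𝓝 (Zf χ w)) := by
    rw [tendsto_iff_dist_tendsto_zero]
    have hl' := hl.const_mul C2
    rw [mul_zero] at hl'
    refine squeeze_zero (fun n => dist_nonneg) (fun n => ?_) hl'
    rw [dist_comm, Real.dist_eq]
    refine (H2 a R χ hR hχ w (W n) hw (hW1 n).l2).trans ?_
    apply mul_le_mul_of_nonneg_left _ hC2
    exact Real.sqrt_le_sqrt (sqOn_le_sq _ (hw.sub (hW1 n).l2))
  -- convergence of the local energy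
  have hsm := fun (v : E3 → E3) (hv : MemLp v 2 volume) =>
    Z4_sm_memLp hχ.cc.smooth.continuous hχ.bd hv
  have l4 : Tendsto (fun n => sq (sm χ (W n))) atTop (𝓝 (sq (sm χ w))) := by
    have h5 := Z4_lim univ (hsm w hw) (fun n => hsm (W n) (hW1 n).l2) (by
      have hl' := hl.const_mul K
      rw [mul_zero] at hl'
      exact squeeze_zero (fun n => Real.sqrt_nonneg _)
        (fun n => Z4_sm_sub hK hχ.bd hw (hW1 n).l2) hl')
    have h6 := h5.pow 2
    simp only [← Z4_sq_univ] at h6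
    rw [Real.sq_sqrt (sq_nonneg' _)] at h6
    refine h6.congr fun n => ?_
    rw [Real.sq_sqrt (sq_nonneg' _)]
  have L := ((l3.pow 2).sub l4).abs
  have Rr := (l1.const_mul C).mul l2
  exact le_of_tendsto_of_tendsto' L Rr (fun n => H a R χ hR hχ h1 (W n) (hW1 n))

/-- `Zf χ_R w → ‖w‖` as `R → ∞` -/
theorem Zf_tendsto (K : ℝ) (χ : ℝ → E3 → ℝ) (a : E3) (hχ : ∀ R, 0 < R → Cut a R K (χ R))
    (h01 : ∀ R, 0 < R → ∀ x, 0 ≤ χ R x ∧ χ R x ≤ 1)
    (h1 : ∀ R, 0 < R → ∀ x, ‖x - a‖ ≤ R / 2 → χ R x = 1) (hw : MemLp w 2 volume) (hd : WDiv w) :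
    Tendsto (fun R => Zf (χ R) w ^ 2) atTop (𝓝 (sq w)) := by
  obtain ⟨C, hC, H⟩ := Zf_annulus K
  have hint : Integrable (fun y => ‖w y‖ ^ 2) volume := by
    have := hw.integrable_norm_pow (by norm_num)
    simpa using this
  have hball : Tendsto (fun R : ℝ => sqOn (Metric.ball a (R / 2)) w) atTop (𝓝 (sq w)) := by
    have hc : AECover (volume : Measure E3) atTop (fun R : ℝ => Metric.ball a (R / 2)) :=
      aecover_ball (tendsto_id.atTop_div_const (by norm_num))
    exact hc.integral_tendsto_of_countably_generated hint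
  -- the annulus
  have hann : Tendsto (fun R : ℝ => Real.sqrt (sqOn (Metric.ball a R \ Metric.ball a (R / 2)) w))
      atTop (𝓝 0) := by
    have h2 : Tendsto (fun R : ℝ => sq w - sqOn (Metric.ball a (R / 2)) w) atTop (𝓝 0) := by
      have := hball.const_sub (sq w)
      simpa using this
    have h3 : Tendsto (fun R : ℝ => sqOn (Metric.ball a R \ Metric.ball a (R / 2)) w)
        atTop (𝓝 0) := by
      refine squeeze_zero (fun R => sqOn_nonneg _ _) (fun R => ?_) h2
      have h4 : sqOn (Metric.ball a (R / 2)) w + sqOn (Metric.ball a (R / 2))ᶜ w = sq w := by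
        unfold sqOn sq
        exact integral_add_compl measurableSet_ball hint
      have h5 : sqOn (Metric.ball a R \ Metric.ball a (R / 2)) w ≤
          sqOn (Metric.ball a (R / 2))ᶜ w :=
        sqOn_mono (fun x hx => hx.2) (hw.restrict _)
      linarith
    have := (Real.continuous_sqrt.tendsto 0).comp h3
    rw [Real.sqrt_zero] at this
    exact this
  -- local energies
  have hloc : Tendsto (fun R : ℝ => sq (sm (χ R) w)) atTop (𝓝 (sq w)) := by
    refine tendsto_of_tendsto_of_tendsto_of_le_of_le' hball tendsto_const_nhds ?_ ?_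
    · filter_upwards [eventually_gt_atTop (0 : ℝ)] with R hR
      have hm := Z4_sm_memLp (hχ R hR).cc.smooth.continuous (hχ R hR).bd hw
      refine le_trans (le_of_eq ?_) (sqOn_le_sq (Metric.ball a (R / 2)) hm)
      unfold sqOn
      refine setIntegral_congr_fun measurableSet_ball fun x hx => ?_
      rw [mem_ball_iff_norm] at hx
      unfold sm
      rw [h1 R hR x hx.le, one_smul]
    · filter_upwards [eventually_gt_atTop (0 : ℝ)] with R hR
      unfold sq
      apply integral_mono_of_nonneg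
      · exact Filter.Eventually.of_forall fun x => by positivity
      · exact hint
      · refine Filter.Eventually.of_forall fun x => ?_
        unfold sm
        dsimp only
        rw [norm_smul, mul_pow]
        have h6 := h01 R hR x
        have h7 : ‖χ R x‖ ^ 2 ≤ 1 := by
          rw [Real.norm_of_nonneg h6.1]
          exact pow_le_one₀ h6.1 h6.2
        calc ‖χ R x‖ ^ 2 * ‖w x‖ ^ 2 ≤ 1 * ‖w x‖ ^ 2 :=
              mul_le_mul_of_nonneg_right h7 (by positivity)
          _ = ‖w x‖ ^ 2 := one_mul _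
  have hdiff : Tendsto (fun R : ℝ => Zf (χ R) w ^ 2 - sq (sm (χ R) w)) atTop (𝓝 0) := by
    have hb : Tendsto (fun R : ℝ => C * Real.sqrt (sq w) *
        Real.sqrt (sqOn (Metric.ball a R \ Metric.ball a (R / 2)) w)) atTop (𝓝 0) := by
      have := hann.const_mul (C * Real.sqrt (sq w))
      simpa using this
    refine squeeze_zero_norm' ?_ hb
    filter_upwards [eventually_gt_atTop (0 : ℝ)] with R hR
    rw [Real.norm_eq_abs]
    refine (H a R (χ R) hR (hχ R hR) (h1 R hR) w hw hd).trans ?_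
    apply mul_le_mul_of_nonneg_right _ (Real.sqrt_nonneg _)
    apply mul_le_mul_of_nonneg_left _ hC
    exact Real.sqrt_le_sqrt (sqOn_le_sq _ hw)
  have := hdiff.add hloc
  simpa using this

/-- an `L²` solenoidal field with weakly vanishing curl is zero -/
theorem eq_zero_of_curl (hw : MemLp w 2 volume) (hd : WDiv w)
    (h0 : ∀ ψ : E3 → E3, Cc ψ → ip w (curl ψ) = 0) : sq w = 0 := by
  obtain ⟨K, hK, hcut⟩ := exists_cut
  classical
  have hex : ∀ R : ℝ, ∃ χ : E3 → ℝ, 0 < R → (Cut 0 R K χ ∧ (∀ x, 0 ≤ χ x ∧ χ x ≤ 1) ∧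
      ∀ x, ‖x - 0‖ ≤ R / 2 → χ x = 1) := by
    intro R
    by_cases hR : 0 < R
    · obtain ⟨χ, h⟩ := hcut 0 R hR
      exact ⟨χ, fun _ => h⟩
    · exact ⟨0, fun h => absurd h hR⟩
  choose χ hχ using hex
  have hlim := Zf_tendsto K χ 0 (fun R hR => (hχ R hR).1) (fun R hR => (hχ R hR).2.1)
    (fun R hR => (hχ R hR).2.2) hw hd
  have hz : (fun R => Zf (χ R) w ^ 2) =ᶠ[atTop] fun _ => (0 : ℝ) := by
    filter_upwards [eventually_gt_atTop (0 : ℝ)] with R hR
    have hc := (hχ R hR).1.cc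
    have h1 : Zf (χ R) w ≤ 0 := Zf_le_of_forall hc hw le_rfl (fun ψ hψ => by
      rw [h0 _ (cc_sm hc hψ.smooth), zero_mul])
    have h2 := Zf_nonneg (χ R) hc hw
    have h3 : Zf (χ R) w = 0 := le_antisymm h1 h2
    rw [h3]; simp
  exact tendsto_nhds_unique hlim ((tendsto_congr' hz).2 tendsto_const_nhds)

end Pool.Agent.Helper60.EC
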