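import Pool.Agent.Helper60.EC.Z3
import Pool.Agent.Helper60.EC.Mol

/-! Project EC, Z5: Zf and the local energy under weak convergence -/

set_option autoImplicit false

open MeasureTheory Set Filter Topology
open scoped ENNReal ContDiff

noncomputable section

namespace Pool.Agent.Helper60.EC

open Pool.Agent.Helper52.NSE (E3 pd divg TestField)

set_option linter.unusedSectionVars false

section
variable {F : Type} [NormedAddCommGroup F] [InnerProductSpace ℝ F] [FiniteDimensional ℝ F]

theorem Z5_int {f g : E3 → F} (hf : MemLp f 2 volume) (hg : MemLp g 2 volume) :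
    Integrable (fun x => (inner ℝ (f x) (g x) : ℝ)) volume := by
  have h1 : Integrable (fun x => ‖f x‖ * ‖g x‖) volume := hf.norm.integrable_mul hg.norm
  refine h1.mono' (hf.aestronglyMeasurable.inner hg.aestronglyMeasurable) ?_
  filter_upwards with x
  exact norm_inner_le_norm _ _

theorem Z5_sqint {f : E3 → F} (hf : MemLp f 2 volume) :
    Integrable (fun x => ‖f x‖ ^ 2) volume := by
  have := (hf.norm).integrable_sq
  exact this

theorem Z5_ip_sub_right {f g g' : E3 → F} (hf : MemLp f 2 volume) (hg : MemLp g 2 volume)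
    (hg' : MemLp g' 2 volume) : ip f (fun x => g x - g' x) = ip f g - ip f g' := by
  unfold ip
  rw [← integral_sub (Z5_int hf hg) (Z5_int hf hg')]
  simp only [inner_sub_right]

theorem Z5_ip_sub_left {f f' g : E3 → F} (hf : MemLp f 2 volume) (hf' : MemLp f' 2 volume)
    (hg : MemLp g 2 volume) : ip (fun x => f x - f' x) g = ip f g - ip f' g := by
  unfold ip
  rw [← integral_sub (Z5_int hf hg) (Z5_int hf' hg)]
  simp only [inner_sub_left]

/-- smooth functions with compact support are dense in `L²` -/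
theorem Z5_dense {g : E3 → F} (hg : MemLp g 2 volume) {ε : ℝ} (hε : 0 < ε) :
    ∃ g' : E3 → F, Cc g' ∧ sq (fun x => g x - g' x) ≤ ε ^ 2 := by
  obtain ⟨g', h1, h2, h3⟩ := hg.exist_eLpNorm_sub_le (by simp) (by norm_num) hε
  refine ⟨g', ⟨h2, h1⟩, ?_⟩
  have hm : MemLp (g - g') 2 volume := hg.sub (h2.continuous.memLp_of_hasCompactSupport h1)
  have h4 : sq (fun x => g x - g' x) = (eLpNorm (g - g') 2 volume).toReal ^ 2 := by
    rw [hm.eLpNorm_eq_integral_rpow_norm (by norm_num) (by norm_num)]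
    have h0 : 0 ≤ ∫ x, ‖(g - g') x‖ ^ (2 : ℝ≥0∞).toReal := integral_nonneg fun x => by positivity
    rw [ENNReal.toReal_ofReal (by positivity)]
    simp only [ENNReal.toReal_ofNat]
    rw [← Real.rpow_natCast, ← Real.rpow_mul (integral_nonneg fun x => by positivity)]
    norm_num
    unfold sq
    rfl
  rw [h4]
  have h5 : (eLpNorm (g - g') 2 volume).toReal ≤ ε := by
    have := ENNReal.toReal_mono ENNReal.ofReal_ne_top h3
    rwa [ENNReal.toReal_ofReal hε.le] at this
  exact pow_le_pow_left₀ ENNReal.toReal_nonneg h5 2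

end

/-- squared norm of the kernel cut off to a bounded set -/
theorem Z5_ball (r : ℝ) :
    IntegrableOn (fun y : E3 => (‖y‖ ^ 2)⁻¹) (Metric.ball 0 r) volume := by
  rw [integrableOn_fun_norm_addHaar (μ := (volume : Measure E3)) (f := fun t : ℝ => (t ^ 2)⁻¹)]
  have hd : Module.finrank ℝ E3 = 3 := by simp [E3]
  rw [hd]
  have h1 : IntegrableOn (fun y : ℝ => (1 : ℝ)) (Ioo 0 r) volume := by
    have : IntegrableOn (fun y : ℝ => (1 : ℝ)) (Icc 0 r) volume :=
      (by fun_prop : Continuous fun y : ℝ => (1 : ℝ)).integrableOn_Icc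
    exact this.mono_set Ioo_subset_Icc_self
  refine h1.congr_fun ?_ measurableSet_Ioo
  intro y hy
  have hy0 : y ≠ 0 := hy.1.ne'
  simp only [smul_eq_mul]
  norm_num
  field_simp

/-- approximation of a test function by solenoidal fields and gradients with compact support -/
theorem Z5_gR {g : E3 → E3} (hg : Cc g) : ∃ C R₀ : ℝ, 0 ≤ C ∧ 0 < R₀ ∧ ∀ R, R₀ ≤ R →
    ∃ (φ : E3 → E3) (q : E3 → ℝ), TestField univ φ ∧ Cc q ∧
      sq (fun x => g x - (φ x - grad q x)) ≤ C / R := by
  obtain ⟨K, hK, hcut⟩ := exists_cut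
  have ha := NP_smooth (cc_curl hg)
  have hq := NP_smooth (cc_divg hg)
  obtain ⟨Ca, hCa⟩ := NP_decay (cc_curl hg)
  obtain ⟨Cq, hCq⟩ := NP_decay (cc_divg hg)
  obtain ⟨Rg, hRg⟩ := hg.comp.isCompact.isBounded.subset_ball (0 : E3)
  have hCa0 : 0 ≤ Ca := by
    have h1 := (hCa 0).1
    have h2 := norm_nonneg (NP (curl g) 0)
    simp only [norm_zero, add_zero, div_one] at h1
    linarith
  have hCq0 : 0 ≤ Cq := by
    have h1 := (hCq 0).1
    have h2 := norm_nonneg (NP (divg g) 0)
    simp only [norm_zero, add_zero, div_one] at h1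
    linarith
  refine ⟨(2 * K * (2 * Ca + 2 * Cq)) ^ 2 * volume.real (Metric.ball (0 : E3) 1),
    2 * |Rg| + 1, by positivity, by positivity, ?_⟩
  intro R hR
  have hR0 : 0 < R := lt_of_lt_of_le (by positivity) hR
  obtain ⟨η, hη, h01, h1⟩ := hcut 0 R hR0
  have hηs := hη.cc.smooth
  have hηd : ∀ x, DifferentiableAt ℝ η x := fun x => (hηs.differentiable (by simp)) x
  have had : ∀ x, DifferentiableAt ℝ (NP (curl g)) x := fun x => (ha.differentiable (by simp)) x
  have hqd : ∀ x, DifferentiableAt ℝ (NP (divg g)) x := fun x => (hq.differentiable (by simp)) x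
  refine ⟨curl (sm η (NP (curl g))), fun y => η y * NP (divg g) y, ?_, ?_, ?_⟩
  · have hc := cc_sm hη.cc ha
    have hc2 := cc_curl hc
    exact ⟨hc2.smooth, hc2.comp, subset_univ _,
      fun x => divg_curl (by exact_mod_cast contDiff_infty.1 hc.smooth 2) x⟩
  · exact cc_sm hη.cc hq
  · have hgz : ∀ x, Rg ≤ ‖x‖ → g x = 0 := by
      intro x hx
      apply image_eq_zero_of_notMem_tsupport
      intro h
      have := mem_ball_zero_iff.1 (hRg h)
      linarith
    have hD0 : ∀ x, (‖x‖ < R / 2 ∨ R < ‖x‖) → grad η x = 0 := by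
      intro x hx
      have hDi : ∀ i, D i η x = 0 := by
        intro i
        rcases hx with hx | hx
        · have he : η =ᶠ[𝓝 x] fun _ => 1 := by
            have : Metric.ball (0 : E3) (R / 2) ∈ 𝓝 x :=
              Metric.isOpen_ball.mem_nhds (mem_ball_zero_iff.2 hx)
            filter_upwards [this] with y hy
            apply h1
            rw [sub_zero]
            exact (mem_ball_zero_iff.1 hy).le
          rw [D_congr he]
          simp [D]
        · have he : η =ᶠ[𝓝 x] fun _ => 0 := by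
            have : {y : E3 | R < ‖y‖} ∈ 𝓝 x :=
              (isOpen_lt continuous_const continuous_norm).mem_nhds hx
            filter_upwards [this] with y hy
            apply hη.supp
            rw [sub_zero]
            exact le_of_lt hy
          rw [D_congr he]
          simp [D]
      unfold grad
      rw [hDi, hDi, hDi]
      ext i
      fin_cases i <;> simp
    have hDn : ∀ x, ‖grad η x‖ ≤ 2 * K / R := by
      intro x
      have h2 : ‖grad η x‖ ^ 2 ≤ 3 * (K / R) ^ 2 := by
        rw [norm_grad_sq, Fin.sum_univ_three]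
        have e : ∀ i, ‖D i η x‖ ^ 2 ≤ (K / R) ^ 2 := fun i =>
          pow_le_pow_left₀ (norm_nonneg _) (hη.d1 i x) 2
        linarith [e 0, e 1, e 2]
      have h3 : 0 ≤ K / R := by positivity
      have h4 : ‖grad η x‖ ^ 2 ≤ (2 * K / R) ^ 2 := by
        refine h2.trans ?_
        have : (2 * K / R) ^ 2 = 4 * (K / R) ^ 2 := by ring
        rw [this]
        nlinarith [sq_nonneg (K / R)]
      exact (pow_le_pow_iff_left₀ (norm_nonneg _) (by positivity) (by norm_num)).1 h4
    have hexp : ∀ x, g x - (curl (sm η (NP (curl g))) x -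
        grad (fun y => η y * NP (divg g) y) x) =
        (1 - η x) • g x + (NP (divg g) x • grad η x - cr (grad η x) (NP (curl g) x)) := by
      intro x
      rw [curl_sm (hηd x) (had x), grad_mul (hηd x) (hqd x)]
      have hh := helmholtz hg x
      have : curl (NP (curl g)) x = g x + grad (NP (divg g)) x := by
        rw [hh]
        abel
      rw [this]
      module
    have hpt0 : ∀ x, x ∉ Metric.closedBall (0 : E3) R →
        g x - (curl (sm η (NP (curl g))) x - grad (fun y => η y * NP (divg g) y) x) = 0 := by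
      intro x hx
      rw [mem_closedBall_zero_iff, not_le] at hx
      have h2 : g x = 0 := hgz x (by
        have := le_abs_self Rg
        have := abs_nonneg Rg
        linarith)
      rw [hexp, hD0 x (Or.inr hx), h2]
      simp [cr]
    have hpt1 : ∀ x, ‖g x - (curl (sm η (NP (curl g))) x -
        grad (fun y => η y * NP (divg g) y) x)‖ ≤ 2 * K * (2 * Ca + 2 * Cq) / R ^ 2 := by
      intro x
      rw [hexp]
      have h3 : (1 - η x) • g x = 0 := by
        rcases le_or_gt ‖x‖ (R / 2) with hx | hx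
        · rw [h1 x (by rwa [sub_zero]), sub_self, zero_smul]
        · rw [hgz x (by
            have := le_abs_self Rg
            linarith), smul_zero]
      rw [h3, zero_add]
      rcases lt_or_ge ‖x‖ (R / 2) with hx | hx
      · rw [hD0 x (Or.inl hx)]
        have : NP (divg g) x • (0 : E3) - cr 0 (NP (curl g) x) = 0 := by
          rw [smul_zero, zero_sub, neg_eq_zero]
          unfold cr
          ext i
          fin_cases i <;> simp
        rw [this, norm_zero]
        positivity
      · have e1 : ‖NP (divg g) x • grad η x‖ ≤ 2 * Cq / R * (2 * K / R) := by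
          rw [norm_smul]
          apply mul_le_mul _ (hDn x) (norm_nonneg _) (by positivity)
          refine (hCq x).1.trans ?_
          rw [div_le_div_iff₀ (by positivity) hR0]
          nlinarith
        have e2 : ‖cr (grad η x) (NP (curl g) x)‖ ≤ 2 * K / R * (2 * Ca / R) := by
          refine (norm_cr_le _ _).trans ?_
          apply mul_le_mul (hDn x) _ (norm_nonneg _) (by positivity)
          refine (hCa x).1.trans ?_
          rw [div_le_div_iff₀ (by positivity) hR0]
          nlinarith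
        refine (norm_sub_le _ _).trans ?_
        have e3 : 2 * K * (2 * Ca + 2 * Cq) / R ^ 2 =
            2 * Cq / R * (2 * K / R) + 2 * K / R * (2 * Ca / R) := by
          field_simp
          ring
        rw [e3]
        linarith
    unfold sq
    rw [← setIntegral_eq_integral_of_forall_compl_eq_zero (s := Metric.closedBall (0 : E3) R)
      (fun x hx => by
        change ‖g x - (curl (sm η (NP (curl g))) x -
          grad (fun y => η y * NP (divg g) y) x)‖ ^ 2 = 0
        rw [hpt0 x hx, norm_zero]; norm_num)]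
    have hb := norm_setIntegral_le_of_norm_le_const (μ := volume)
      (s := Metric.closedBall (0 : E3) R)
      (f := fun x => ‖g x - (curl (sm η (NP (curl g))) x -
        grad (fun y => η y * NP (divg g) y) x)‖ ^ 2)
      (C := (2 * K * (2 * Ca + 2 * Cq) / R ^ 2) ^ 2) measure_closedBall_lt_top (by
        intro x _
        rw [Real.norm_eq_abs, abs_of_nonneg (by positivity)]
        exact pow_le_pow_left₀ (norm_nonneg _) (hpt1 x) 2)
    refine ((le_abs_self _).trans hb).trans ?_
    have hvol : volume.real (Metric.closedBall (0 : E3) R) =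
        R ^ 3 * volume.real (Metric.ball (0 : E3) 1) := by
      rw [Measure.addHaar_real_closedBall _ _ hR0.le]
      congr 2
      simp [E3]
    rw [hvol]
    apply le_of_eq
    field_simp

theorem Z5_grad_memLp {q : E3 → ℝ} (hq : Cc q) : MemLp (grad q) 2 volume :=
  cc_memLp (cc_grad hq) 2

theorem Z5_tf_memLp {φ : E3 → E3} (hφ : TestField univ φ) : MemLp φ 2 volume :=
  cc_memLp ⟨hφ.smooth, hφ.compact⟩ 2

theorem Z5_test {w : ℕ → E3 → E3} {E : ℝ} (hw : ∀ n, MemLp (w n) 2 volume)
    (hE : ∀ n, sq (w n) ≤ E) (hd : ∀ n, WDiv (w n))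
    (h0 : ∀ φ : E3 → E3, TestField univ φ → Tendsto (fun n => ip (w n) φ) atTop (𝓝 0))
    {g : E3 → E3} (hg : Cc g) : Tendsto (fun n => ip (w n) g) atTop (𝓝 0) := by
  have hE0 : 0 ≤ E := (sq_nonneg' (w 0)).trans (hE 0)
  obtain ⟨C, R₀, hC, hR₀, hap⟩ := Z5_gR hg
  rw [Metric.tendsto_atTop]
  intro ε hε
  obtain ⟨R, hR, hRε⟩ : ∃ R, R₀ ≤ R ∧ Real.sqrt E * Real.sqrt (C / R) < ε / 2 := by
    have ht : Tendsto (fun R : ℝ => Real.sqrt E * Real.sqrt (C / R)) atTop
        (𝓝 (Real.sqrt E * Real.sqrt 0)) := by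
      apply Tendsto.const_mul
      exact (Real.continuous_sqrt.tendsto 0).comp (tendsto_const_nhds.div_atTop tendsto_id)
    rw [Real.sqrt_zero, mul_zero] at ht
    have h1 := (ht.eventually_lt_const (half_pos hε)).and (eventually_ge_atTop R₀)
    obtain ⟨R, h2, h3⟩ := h1.exists
    exact ⟨R, h3, h2⟩
  obtain ⟨φ, q, hφ, hq, hs⟩ := hap R hR
  obtain ⟨n₀, hn₀⟩ := Metric.tendsto_atTop.1 (h0 φ hφ) (ε / 2) (half_pos hε)
  refine ⟨n₀, fun n hn => ?_⟩
  have hgm := cc_memLp hg 2
  have hφm := Z5_tf_memLp hφ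
  have hqm := Z5_grad_memLp hq
  have h1 := Z5_ip_sub_right (hw n) hgm (hφm.sub hqm)
  have h2 := Z5_ip_sub_right (hw n) hφm hqm
  have h3 : ip (w n) (grad q) = 0 := hd n q hq
  have h4 := ip_le (hw n) (hgm.sub (hφm.sub hqm))
  have h5 := hn₀ n hn
  rw [Real.dist_eq, sub_zero] at h5 ⊢
  have h6 : ip (w n) g = ip (w n) (g - (φ - grad q)) + ip (w n) φ := by
    have e1 : ip (w n) (g - (φ - grad q)) = ip (w n) g - ip (w n) (φ - grad q) := h1
    have e2 : ip (w n) (φ - grad q) = ip (w n) φ - ip (w n) (grad q) := h2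
    rw [e1, e2, h3]
    ring
  have h7 : Real.sqrt (sq (w n)) * Real.sqrt (sq (g - (φ - grad q))) ≤
      Real.sqrt E * Real.sqrt (C / R) :=
    mul_le_mul (Real.sqrt_le_sqrt (hE n)) (Real.sqrt_le_sqrt hs) (Real.sqrt_nonneg _)
      (Real.sqrt_nonneg _)
  rw [h6]
  have h8 := abs_add_le (ip (w n) (g - (φ - grad q))) (ip (w n) φ)
  linarith

/-- a bounded sequence of solenoidal `L²` fields which converges weakly to zero against
solenoidal test fields converges weakly to zero -/
theorem weak_of_test (w : ℕ → E3 → E3) (E : ℝ) (hw : ∀ n, MemLp (w n) 2 volume)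
    (hE : ∀ n, sq (w n) ≤ E) (hd : ∀ n, WDiv (w n))
    (h0 : ∀ φ : E3 → E3, TestField univ φ → Tendsto (fun n => ip (w n) φ) atTop (𝓝 0))
    (g : E3 → E3) (hg : MemLp g 2 volume) : Tendsto (fun n => ip (w n) g) atTop (𝓝 0) := by
  have hE0 : 0 ≤ E := (sq_nonneg' (w 0)).trans (hE 0)
  rw [Metric.tendsto_atTop]
  intro ε hε
  have hε' : 0 < ε / (2 * (Real.sqrt E + 1)) := by positivity
  obtain ⟨g', hg', hs⟩ := Z5_dense hg hε'
  obtain ⟨n₀, hn₀⟩ := Metric.tendsto_atTop.1 (Z5_test hw hE hd h0 hg') (ε / 2) (half_pos hε)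
  refine ⟨n₀, fun n hn => ?_⟩
  have h5 := hn₀ n hn
  rw [Real.dist_eq, sub_zero] at h5 ⊢
  have hgm' := cc_memLp hg' 2
  have h1 := Z5_ip_sub_right (hw n) hg hgm'
  have h4 := ip_le (hw n) (hg.sub hgm')
  have e1 : ip (w n) (g - g') = ip (w n) g - ip (w n) g' := h1
  have h6 : Real.sqrt (sq (g - g')) ≤ ε / (2 * (Real.sqrt E + 1)) := by
    have := Real.sqrt_le_sqrt hs
    rwa [Real.sqrt_sq hε'.le] at this
  have h7 : Real.sqrt (sq (w n)) * Real.sqrt (sq (g - g')) ≤
      Real.sqrt E * (ε / (2 * (Real.sqrt E + 1))) :=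
    mul_le_mul (Real.sqrt_le_sqrt (hE n)) h6 (Real.sqrt_nonneg _) (Real.sqrt_nonneg _)
  have h9 : Real.sqrt E * (ε / (2 * (Real.sqrt E + 1))) < ε / 2 := by
    have h10 : 0 ≤ Real.sqrt E := Real.sqrt_nonneg _
    rw [mul_div_assoc', div_lt_div_iff₀ (by positivity) (by norm_num)]
    nlinarith
  have h8 := abs_add_le (ip (w n) (g - g')) (ip (w n) g')
  have h11 : ip (w n) g = ip (w n) (g - g') + ip (w n) g' := by rw [e1]; ring
  rw [h11]
  linarith

/-- the cut off kernel is square integrable, uniformly in the pole -/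
theorem Z5_kernel {g : E3 → E3} (hg : Cc g) : ∃ C : ℝ, ∀ x,
    MemLp (fun y => (4 * Real.pi * ‖x - y‖)⁻¹ • g y) 2 volume ∧
      sq (fun y => (4 * Real.pi * ‖x - y‖)⁻¹ • g y) ≤ C := by
  obtain ⟨M, hM⟩ := hg.comp.exists_bound_of_continuous hg.smooth.continuous
  have hM0 : 0 ≤ M := (norm_nonneg _).trans (hM 0)
  have hgi : Integrable (fun y => ‖g y‖ ^ 2) volume := Z5_sqint (cc_memLp hg 2)
  set I₁ := ∫ y in Metric.ball (0 : E3) 1, (‖y‖ ^ 2)⁻¹ with hI₁
  -- the dominating function
  have hdom : ∀ x : E3, Integrable (fun y => M ^ 2 * (Metric.ball (0 : E3) 1).indicator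
      (fun z => (‖z‖ ^ 2)⁻¹) (x - y) + ‖g y‖ ^ 2) volume := by
    intro x
    apply Integrable.add _ hgi
    apply Integrable.const_mul
    exact ((Z5_ball 1).integrable_indicator measurableSet_ball).comp_sub_left x
  have hpt : ∀ x y : E3, ‖(4 * Real.pi * ‖x - y‖)⁻¹ • g y‖ ^ 2 ≤
      M ^ 2 * (Metric.ball (0 : E3) 1).indicator (fun z => (‖z‖ ^ 2)⁻¹) (x - y) + ‖g y‖ ^ 2 := by
    intro x y
    have hpi : 1 ≤ 4 * Real.pi := by linarith [Real.pi_gt_three]
    rw [norm_smul, mul_pow, Real.norm_eq_abs, sq_abs, inv_pow, mul_pow]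
    have h1 : ((4 * Real.pi) ^ 2 * ‖x - y‖ ^ 2)⁻¹ ≤ (‖x - y‖ ^ 2)⁻¹ := by
      rw [mul_inv]
      have : ((4 * Real.pi) ^ 2)⁻¹ ≤ 1 := inv_le_one_of_one_le₀ (by nlinarith)
      have h2 : 0 ≤ (‖x - y‖ ^ 2)⁻¹ := by positivity
      nlinarith
    by_cases hxy : x - y ∈ Metric.ball (0 : E3) 1
    · rw [indicator_of_mem hxy]
      have h2 : ‖g y‖ ^ 2 ≤ M ^ 2 := pow_le_pow_left₀ (norm_nonneg _) (hM y) 2
      have h3 : ((4 * Real.pi) ^ 2 * ‖x - y‖ ^ 2)⁻¹ * ‖g y‖ ^ 2 ≤ (‖x - y‖ ^ 2)⁻¹ * M ^ 2 :=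
        mul_le_mul h1 h2 (by positivity) (by positivity)
      nlinarith [sq_nonneg ‖g y‖]
    · rw [indicator_of_notMem hxy, mul_zero, zero_add]
      rw [mem_ball_zero_iff, not_lt] at hxy
      have h2 : (‖x - y‖ ^ 2)⁻¹ ≤ 1 := inv_le_one_of_one_le₀ (by nlinarith)
      have h3 := h1.trans h2
      nlinarith [sq_nonneg ‖g y‖]
  refine ⟨M ^ 2 * I₁ + sq g, fun x => ?_⟩
  have hmeas : AEStronglyMeasurable (fun y => (4 * Real.pi * ‖x - y‖)⁻¹ • g y) volume := by
    have m1 : Measurable (fun y : E3 => (4 * Real.pi * ‖x - y‖)⁻¹) := by fun_prop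
    exact AEStronglyMeasurable.smul (f := fun y : E3 => (4 * Real.pi * ‖x - y‖)⁻¹) (g := g)
      m1.aestronglyMeasurable hg.smooth.continuous.aestronglyMeasurable
  have hint : Integrable (fun y => ‖(4 * Real.pi * ‖x - y‖)⁻¹ • g y‖ ^ 2) volume := by
    apply (hdom x).mono' (hmeas.norm.pow 2)
    filter_upwards with y
    rw [Real.norm_eq_abs, abs_of_nonneg (sq_nonneg _)]
    exact hpt x y
  constructor
  · exact (memLp_two_iff_integrable_sq_norm hmeas).2 hint
  · unfold sq
    refine (integral_mono hint (hdom x) (hpt x)).trans ?_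
    rw [integral_add _ hgi, integral_const_mul,
      integral_sub_left_eq_self (fun z => (Metric.ball (0 : E3) 1).indicator
      (fun z => (‖z‖ ^ 2)⁻¹) z) volume x, integral_indicator measurableSet_ball]
    apply Integrable.const_mul
    exact ((Z5_ball 1).integrable_indicator measurableSet_ball).comp_sub_left x

/-- the scalar `H⁻¹` norms tend to zero under weak convergence -/
theorem Z5_scal {w : ℕ → E3 → E3} {E : ℝ} (hs : ∀ n, Sml (w n)) (hE : ∀ n, sq (w n) ≤ E)
    (hw0 : ∀ g : E3 → E3, MemLp g 2 volume → Tendsto (fun n => ip (w n) g) atTop (𝓝 0))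
    {g : E3 → E3} (hg : Cc g) :
    Tendsto (fun n => ip (fun y => (inner ℝ (g y) (w n y) : ℝ))
      (NP fun y => (inner ℝ (g y) (w n y) : ℝ))) atTop (𝓝 0) := by
  have hE0 : 0 ≤ E := (sq_nonneg' (w 0)).trans (hE 0)
  obtain ⟨C, hC⟩ := Z5_kernel hg
  obtain ⟨M, hM⟩ := hg.comp.exists_bound_of_continuous hg.smooth.continuous
  have hM0 : 0 ≤ M := (norm_nonneg _).trans (hM 0)
  obtain ⟨Rg, hRg⟩ := hg.comp.isCompact.isBounded.subset_ball (0 : E3)
  have hb : ∀ n, Cc (fun y => (inner ℝ (g y) (w n y) : ℝ)) := fun n =>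
    cc_inner_left hg (hs n).smooth
  have hform : ∀ n x, NP (fun y => (inner ℝ (g y) (w n y) : ℝ)) x =
      ip (w n) (fun y => (4 * Real.pi * ‖x - y‖)⁻¹ • g y) := by
    intro n x
    rw [NP_eq]
    unfold ip
    congr 1
    funext y
    rw [inner_smul_right, real_inner_comm, smul_eq_mul]
  have hpw : ∀ x, Tendsto (fun n => NP (fun y => (inner ℝ (g y) (w n y) : ℝ)) x) atTop (𝓝 0) := by
    intro x
    simp_rw [hform]
    exact hw0 _ (hC x).1
  have hbd : ∀ n x, |NP (fun y => (inner ℝ (g y) (w n y) : ℝ)) x| ≤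
      Real.sqrt E * Real.sqrt C := by
    intro n x
    rw [hform]
    exact (ip_le (hs n).l2 (hC x).1).trans (mul_le_mul (Real.sqrt_le_sqrt (hE n))
      (Real.sqrt_le_sqrt (hC x).2) (Real.sqrt_nonneg _) (Real.sqrt_nonneg _))
  have hI : Tendsto (fun n => sqOn (Metric.ball (0 : E3) Rg)
      (NP (fun y => (inner ℝ (g y) (w n y) : ℝ)))) atTop (𝓝 0) := by
    unfold sqOn
    have h0 : (0 : ℝ) = ∫ x in Metric.ball (0 : E3) Rg, (0 : ℝ) := by simp
    rw [h0]
    apply tendsto_integral_of_dominated_convergence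
      (fun _ => (Real.sqrt E * Real.sqrt C) ^ 2)
    · intro n
      exact ((NP_smooth (hb n)).continuous.norm.pow 2).aestronglyMeasurable
    · have : IsFiniteMeasure (volume.restrict (Metric.ball (0 : E3) Rg)) :=
        ⟨by rw [Measure.restrict_apply_univ]; exact measure_ball_lt_top⟩
      exact integrable_const _
    · intro n
      filter_upwards with x
      rw [Real.norm_eq_abs, abs_of_nonneg (sq_nonneg _), Real.norm_eq_abs]
      exact pow_le_pow_left₀ (abs_nonneg _) (hbd n x) 2
    · filter_upwards with x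
      have h1 := (hpw x).norm.pow 2
      rw [norm_zero] at h1
      norm_num at h1
      simpa using h1
  have hsb : ∀ n, sq (fun y => (inner ℝ (g y) (w n y) : ℝ)) ≤ M ^ 2 * E := by
    intro n
    have h1 : sq (fun y => (inner ℝ (g y) (w n y) : ℝ)) ≤ M ^ 2 * sq (w n) := by
      unfold sq
      rw [← integral_const_mul]
      apply integral_mono (Z5_sqint (cc_memLp (hb n) 2)) ((Z5_sqint (hs n).l2).const_mul _)
      intro y
      have h2 : ‖(inner ℝ (g y) (w n y) : ℝ)‖ ≤ M * ‖w n y‖ :=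
        (norm_inner_le_norm _ _).trans (mul_le_mul_of_nonneg_right (hM y) (norm_nonneg _))
      have h3 := pow_le_pow_left₀ (norm_nonneg _) h2 2
      rw [mul_pow] at h3
      exact h3
    exact h1.trans (mul_le_mul_of_nonneg_left (hE n) (by positivity))
  have hle : ∀ n, |ip (fun y => (inner ℝ (g y) (w n y) : ℝ))
      (NP fun y => (inner ℝ (g y) (w n y) : ℝ))| ≤
      Real.sqrt (sqOn (Metric.ball (0 : E3) Rg) (NP (fun y => (inner ℝ (g y) (w n y) : ℝ)))) *
        Real.sqrt (M ^ 2 * E) := by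
    intro n
    rw [ip_comm]
    have : IsFiniteMeasure (volume.restrict (Metric.ball (0 : E3) Rg)) :=
      ⟨by rw [Measure.restrict_apply_univ]; exact measure_ball_lt_top⟩
    have h1 : MemLp (NP (fun y => (inner ℝ (g y) (w n y) : ℝ))) 2
        (volume.restrict (Metric.ball (0 : E3) Rg)) := by
      apply MemLp.of_bound (NP_smooth (hb n)).continuous.aestronglyMeasurable
        (Real.sqrt E * Real.sqrt C)
      filter_upwards with x
      exact hbd n x
    have h2 := ip_le_on (U := Metric.ball (0 : E3) Rg) measurableSet_ball h1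
      (cc_memLp (hb n) 2) (by
        intro x hx
        have : g x = 0 := image_eq_zero_of_notMem_tsupport fun h => hx (hRg h)
        rw [this, inner_zero_left])
    exact h2.trans (mul_le_mul_of_nonneg_left (Real.sqrt_le_sqrt (hsb n)) (Real.sqrt_nonneg _))
  apply squeeze_zero_norm hle
  have h1 := ((Real.continuous_sqrt.tendsto 0).comp hI).mul_const (Real.sqrt (M ^ 2 * E))
  rw [Real.sqrt_zero, zero_mul] at h1
  exact h1

theorem Z5_cr_apply (a b : E3) (k : Fin 3) :
    (cr a b) k = inner ℝ ((-1 : ℝ) • cr a (EuclideanSpace.single k (1 : ℝ))) b := by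
  rw [PiLp.inner_apply, Fin.sum_univ_three]
  unfold cr
  fin_cases k <;> simp <;> ring

/-- the vector valued `H⁻¹` norms tend to zero under weak convergence -/
theorem Z5_vec {w : ℕ → E3 → E3} {E : ℝ} (hs : ∀ n, Sml (w n)) (hE : ∀ n, sq (w n) ≤ E)
    (hw0 : ∀ g : E3 → E3, MemLp g 2 volume → Tendsto (fun n => ip (w n) g) atTop (𝓝 0))
    {g : E3 → E3} (hg : Cc g) :
    Tendsto (fun n => ip (fun y => cr (g y) (w n y)) (NP fun y => cr (g y) (w n y)))
      atTop (𝓝 0) := by
  have hG : ∀ k : Fin 3, Cc (fun y => (-1 : ℝ) • cr (g y) (EuclideanSpace.single k (1 : ℝ))) :=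
    fun k => cc_const_smul (cc_cr_left hg contDiff_const) (-1)
  have hc : ∀ n, Cc (fun y => cr (g y) (w n y)) := fun n => cc_cr_left hg (hs n).smooth
  have hform : ∀ n, ip (fun y => cr (g y) (w n y)) (NP fun y => cr (g y) (w n y)) =
      ∑ k : Fin 3, ip (fun y => (inner ℝ ((-1 : ℝ) • cr (g y) (EuclideanSpace.single k (1 : ℝ)))
        (w n y) : ℝ)) (NP fun y => (inner ℝ ((-1 : ℝ) • cr (g y)
          (EuclideanSpace.single k (1 : ℝ))) (w n y) : ℝ)) := by
    intro n
    unfold ip
    rw [← integral_finsetSum]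
    · apply integral_congr_ae
      filter_upwards with x
      rw [PiLp.inner_apply]
      apply Finset.sum_congr rfl
      intro k _
      rw [NP_apply (hc n)]
      simp_rw [Z5_cr_apply]
    · intro k _
      have h1 := cc_inner_left (hG k) (hs n).smooth
      have h2 := (NP_smooth h1).continuous
      apply (h1.smooth.continuous.inner h2).integrable_of_hasCompactSupport
      apply h1.comp.mono
      intro x hx
      simp only [Function.mem_support, ne_eq] at hx ⊢
      intro h0
      apply hx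
      rw [h0, inner_zero_left]
  simp_rw [hform]
  have h0 : (0 : ℝ) = ∑ k : Fin 3, (0 : ℝ) := by simp
  rw [h0]
  apply tendsto_finsetSum
  intro k _
  exact Z5_scal hs hE hw0 (hG k)

section
variable {F : Type} [NormedAddCommGroup F] [InnerProductSpace ℝ F] [FiniteDimensional ℝ F]

theorem Z5_sm_memLp {χ : E3 → ℝ} (hχ : Cc χ) {K : ℝ} (hK : ∀ x, |χ x| ≤ K) {f : E3 → F}
    (hf : MemLp f 2 volume) : MemLp (sm χ f) 2 volume := by
  refine MemLp.of_le_mul (c := K) hf ?_ ?_
  · exact AEStronglyMeasurable.smul (f := χ) (g := f)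
      hχ.smooth.continuous.aestronglyMeasurable hf.aestronglyMeasurable
  · filter_upwards with x
    unfold sm
    rw [norm_smul]
    exact mul_le_mul_of_nonneg_right (hK x) (norm_nonneg _)

theorem Z5_sm_sq {χ : E3 → ℝ} (hχ : Cc χ) {K : ℝ} (hK : ∀ x, |χ x| ≤ K) {f : E3 → F}
    (hf : MemLp f 2 volume) : sq (sm χ f) ≤ K ^ 2 * sq f := by
  unfold sq
  rw [← integral_const_mul]
  apply integral_mono (Z5_sqint (Z5_sm_memLp hχ hK hf)) ((Z5_sqint hf).const_mul _)
  intro x
  have h1 : ‖sm χ f x‖ ≤ K * ‖f x‖ := by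
    unfold sm
    rw [norm_smul]
    exact mul_le_mul_of_nonneg_right (hK x) (norm_nonneg _)
  have h2 := pow_le_pow_left₀ (norm_nonneg _) h1 2
  rw [mul_pow] at h2
  exact h2

end

theorem Z5_sq_diff {a b d M : ℝ} (ha : 0 ≤ a) (hb : 0 ≤ b) (haM : a ≤ M) (hbM : b ≤ M)
    (hd : |a - b| ≤ d) : |a ^ 2 - b ^ 2| ≤ d * (2 * M) := by
  have : a ^ 2 - b ^ 2 = (a - b) * (a + b) := by ring
  rw [this, abs_mul, abs_of_nonneg (by linarith : 0 ≤ a + b)]
  apply mul_le_mul hd (by linarith) (by linarith) ((abs_nonneg _).trans hd)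

/-- then `Zf χ w_n² - ∫ χ²|w_n|² → 0` -/
theorem Zf_weak (w : ℕ → E3 → E3) (E : ℝ) (hw : ∀ n, MemLp (w n) 2 volume)
    (hE : ∀ n, sq (w n) ≤ E) (hd : ∀ n, WDiv (w n))
    (h0 : ∀ φ : E3 → E3, TestField univ φ → Tendsto (fun n => ip (w n) φ) atTop (𝓝 0))
    (χ : E3 → ℝ) (hχ : Cc χ) :
    Tendsto (fun n => Zf χ (w n) ^ 2 - sq (sm χ (w n))) atTop (𝓝 0) := by
  have hE0 : 0 ≤ E := (sq_nonneg' (w 0)).trans (hE 0)
  have hch : ∀ n : ℕ, ∃ w' : E3 → E3, Sml w' ∧ sq w' ≤ sq (w n) ∧
      sq (fun x => w n x - w' x) ≤ (1 / ((n : ℝ) + 1)) ^ 2 := by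
    intro n
    obtain ⟨w', h1, h2, h3, -⟩ := exists_sml (w n) (hw n) (hd n) ((1 / ((n : ℝ) + 1)) ^ 2)
      (by positivity)
    exact ⟨w', h1, h2, h3⟩
  choose w' hs hsq hdist using hch
  have hE' : ∀ n, sq (w' n) ≤ E := fun n => (hsq n).trans (hE n)
  have hδ : Tendsto (fun n : ℕ => 1 / ((n : ℝ) + 1)) atTop (𝓝 0) :=
    tendsto_one_div_add_atTop_nhds_zero_nat
  have hδn : ∀ n, Real.sqrt (sq (fun x => w n x - w' n x)) ≤ 1 / ((n : ℝ) + 1) := by
    intro n
    have := Real.sqrt_le_sqrt (hdist n)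
    rwa [Real.sqrt_sq (by positivity)] at this
  have hw0 := weak_of_test w E hw hE hd h0
  have hw0' : ∀ g : E3 → E3, MemLp g 2 volume →
      Tendsto (fun n => ip (w' n) g) atTop (𝓝 0) := by
    intro g hg
    have e : ∀ n, ip (w' n) g = ip (w n) g - ip (fun x => w n x - w' n x) g := by
      intro n
      rw [Z5_ip_sub_left (hw n) (hs n).l2 hg]
      ring
    simp_rw [e]
    have h1 : Tendsto (fun n => ip (fun x => w n x - w' n x) g) atTop (𝓝 0) := by
      apply squeeze_zero_norm (a := fun n : ℕ => 1 / ((n : ℝ) + 1) * Real.sqrt (sq g))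
      · intro n
        exact (ip_le ((hw n).sub (hs n).l2) hg).trans
          (mul_le_mul_of_nonneg_right (hδn n) (Real.sqrt_nonneg _))
      · have := hδ.mul_const (Real.sqrt (sq g))
        rwa [zero_mul] at this
    have := (hw0 g hg).sub h1
    rwa [sub_zero] at this
  obtain ⟨R, K, hR, hK, hcut⟩ := cut_of_cc hχ 0
  obtain ⟨C1, hC1, hcomp⟩ := Zf_compare K
  obtain ⟨C2, hC2, habs⟩ := Zf_abs_sub_le K
  obtain ⟨C3, hC3, hle⟩ := Zf_le K
  have hsqrtE : ∀ {f : E3 → E3}, MemLp f 2 volume → sq f ≤ E →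
      Real.sqrt (sqOn (Metric.ball 0 R) f) ≤ Real.sqrt E := fun hf h =>
    Real.sqrt_le_sqrt ((sqOn_le_sq _ hf).trans h)
  -- first difference
  have hA : Tendsto (fun n => Zf χ (w n) ^ 2 - Zf χ (w' n) ^ 2) atTop (𝓝 0) := by
    apply squeeze_zero_norm
      (a := fun n : ℕ => C2 * (1 / ((n : ℝ) + 1)) * (2 * (C3 * Real.sqrt E)))
    · intro n
      apply Z5_sq_diff (Zf_nonneg χ hχ (hw n)) (Zf_nonneg χ hχ (hs n).l2)
      · exact (hle 0 R χ hR hcut (w n) (hw n)).trans
          (mul_le_mul_of_nonneg_left (hsqrtE (hw n) (hE n)) hC3)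
      · exact (hle 0 R χ hR hcut (w' n) (hs n).l2).trans
          (mul_le_mul_of_nonneg_left (hsqrtE (hs n).l2 (hE' n)) hC3)
      · refine (habs 0 R χ hR hcut (w n) (w' n) (hw n) (hs n).l2).trans ?_
        apply mul_le_mul_of_nonneg_left _ hC2
        exact (Real.sqrt_le_sqrt (sqOn_le_sq _ ((hw n).sub (hs n).l2))).trans (hδn n)
    · have := (hδ.const_mul C2).mul_const (2 * (C3 * Real.sqrt E))
      rwa [mul_zero, zero_mul] at this
  -- second difference
  have hB : Tendsto (fun n => Zf χ (w' n) ^ 2 - sq (sm χ (w' n))) atTop (𝓝 0) := by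
    have hgc := cc_grad hχ
    have t1 := Z5_scal hs hE' hw0' hgc
    have t2 := Z5_vec hs hE' hw0' hgc
    have s1 := (Real.continuous_sqrt.tendsto 0).comp t1
    have s2 := (Real.continuous_sqrt.tendsto 0).comp t2
    have s3 := (s1.add s2).const_mul (C1 * Real.sqrt E)
    rw [Real.sqrt_zero, add_zero, mul_zero] at s3
    apply squeeze_zero_norm _ s3
    intro n
    refine (hcomp 0 R χ hR hcut (w' n) (hs n)).trans ?_
    apply mul_le_mul_of_nonneg_right
    · exact mul_le_mul_of_nonneg_left (hsqrtE (hs n).l2 (hE' n)) hC1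
    · exact add_nonneg (Real.sqrt_nonneg _) (Real.sqrt_nonneg _)
  -- third difference
  have hD : Tendsto (fun n => sq (sm χ (w' n)) - sq (sm χ (w n))) atTop (𝓝 0) := by
    apply squeeze_zero_norm
      (a := fun n : ℕ => K * (1 / ((n : ℝ) + 1)) * (2 * (K * Real.sqrt E)))
    · intro n
      have m1 := Z5_sm_memLp hχ hcut.bd (hw n)
      have m2 := Z5_sm_memLp hχ hcut.bd (hs n).l2
      have q1 : sq (sm χ (w' n)) = Real.sqrt (sq (sm χ (w' n))) ^ 2 :=
        (Real.sq_sqrt (sq_nonneg' _)).symm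
      have q2 : sq (sm χ (w n)) = Real.sqrt (sq (sm χ (w n))) ^ 2 :=
        (Real.sq_sqrt (sq_nonneg' _)).symm
      rw [Real.norm_eq_abs, q1, q2]
      have hKE : ∀ {f : E3 → E3}, MemLp f 2 volume → sq f ≤ E →
          Real.sqrt (sq (sm χ f)) ≤ K * Real.sqrt E := by
        intro f hf h
        have := Real.sqrt_le_sqrt ((Z5_sm_sq hχ hcut.bd hf).trans
          (mul_le_mul_of_nonneg_left h (by positivity)))
        rwa [Real.sqrt_mul (by positivity), Real.sqrt_sq hK.le] at this
      apply Z5_sq_diff (Real.sqrt_nonneg _) (Real.sqrt_nonneg _) (hKE (hs n).l2 (hE' n))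
        (hKE (hw n) (hE n))
      have hdl := (hw n).sub (hs n).l2
      have hd1 : Real.sqrt (sq (sm χ (fun x => w n x - w' n x))) ≤ K * (1 / ((n : ℝ) + 1)) := by
        have := Real.sqrt_le_sqrt (Z5_sm_sq hχ hcut.bd hdl)
        rw [Real.sqrt_mul (by positivity), Real.sqrt_sq hK.le] at this
        exact this.trans (mul_le_mul_of_nonneg_left (hδn n) hK.le)
      have md := Z5_sm_memLp hχ hcut.bd hdl
      have u1 : Real.sqrt (sq (sm χ (w n))) ≤ Real.sqrt (sq (sm χ (w' n))) +
          Real.sqrt (sq (sm χ (fun x => w n x - w' n x))) := by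
        have := sqrt_sq_add_le m2 md
        have e : (fun x => sm χ (w' n) x + sm χ (fun x => w n x - w' n x) x) = sm χ (w n) := by
          funext x
          unfold sm
          rw [← smul_add]
          congr 1
          exact add_sub_cancel _ _
        rwa [show sq (fun x => sm χ (w' n) x + (sm χ (w n - w' n)) x) = sq (sm χ (w n)) from
          congrArg sq e] at this
      have u2 : Real.sqrt (sq (sm χ (w' n))) ≤ Real.sqrt (sq (sm χ (w n))) +
          Real.sqrt (sq (sm χ (fun x => w n x - w' n x))) := by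
        have := sqrt_sq_sub_le m1 md
        have e : (fun x => sm χ (w n) x - sm χ (fun x => w n x - w' n x) x) = sm χ (w' n) := by
          funext x
          unfold sm
          rw [← smul_sub]
          congr 1
          exact sub_sub_cancel _ _
        rwa [show sq (fun x => sm χ (w n) x - (sm χ (w n - w' n)) x) = sq (sm χ (w' n)) from
          congrArg sq e] at this
      rw [abs_le]
      constructor <;> linarith
    · have := (hδ.const_mul K).mul_const (2 * (K * Real.sqrt E))
      rwa [mul_zero, zero_mul] at this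
  have := (hA.add hB).add hD
  rw [add_zero, add_zero] at this
  refine this.congr fun n => ?_
  ring

end Pool.Agent.Helper60.EC
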