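import Pool.Agent.Helper60.EC.D3
import Pool.Agent.Helper60.EC.Z4
import Pool.Agent.Helper60.EC.Z5

/-! Project EC, E1: conservation of energy and vanishing local energies in the class Anc -/

set_option autoImplicit false

open MeasureTheory Set Filter Topology
open scoped ENNReal ContDiff

noncomputable section

namespace Pool.Agent.Helper60.EC

open Pool.Agent.Helper52.NSE (E3 pd divg TestField)

variable {C₁ C₂ C₃ E₀ A : ℝ} {v : ℝ → E3 → E3}

theorem E1_const_aux (h : Anc C₁ C₂ C₃ E₀ v) {s t : ℝ} (hst : s ≤ t) (ht : t < 0) :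
    sq (v s) = sq (v t) := by
  have hs : s < 0 := hst.trans_lt ht
  obtain ⟨A, hA, hbd⟩ := h.sup
  obtain ⟨K, hK, hcut⟩ := exists_cut
  choose! χc hχc using hcut
  obtain ⟨CF, hCF, hFI⟩ := FI_Anc K
  have hZ : ∀ τ < 0, Tendsto (fun R => Zf (χc 0 R) (v τ) ^ 2) atTop (𝓝 (sq (v τ))) := fun τ hτ =>
    Zf_tendsto K (χc 0) 0 (fun R hR => (hχc 0 R hR).1) (fun R hR => (hχc 0 R hR).2.1)
      (fun R hR => (hχc 0 R hR).2.2) (h.l2 τ hτ) (h.div τ hτ)
  have h1 : Tendsto (fun R => |Zf (χc 0 R) (v t) ^ 2 - Zf (χc 0 R) (v s) ^ 2|) atTop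
      (𝓝 |sq (v t) - sq (v s)|) := ((hZ t ht).sub (hZ s hs)).abs
  have h2 : Tendsto (fun R : ℝ => CF / R * E₀ * A * ((-s) ^ (2 / 5 : ℝ) - (-t) ^ (2 / 5 : ℝ))) atTop
      (𝓝 0) := by
    have h3 : Tendsto (fun R : ℝ => CF / R) atTop (𝓝 0) := tendsto_const_nhds.div_atTop tendsto_id
    have h4 := ((h3.mul_const E₀).mul_const A).mul_const ((-s) ^ (2 / 5 : ℝ) - (-t) ^ (2 / 5 : ℝ))
    simpa using h4
  have h3 : |sq (v t) - sq (v s)| ≤ 0 := by
    refine le_of_tendsto_of_tendsto h1 h2 ?_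
    filter_upwards [eventually_gt_atTop (0 : ℝ)] with R hR
    exact hFI 0 R (χc 0 R) hR (hχc 0 R hR).1 C₁ C₂ C₃ E₀ A v h hbd s t hst ht
  have h4 := abs_nonpos_iff.1 h3
  linarith

/-- conservation of energy -/
theorem energy_const (h : Anc C₁ C₂ C₃ E₀ v) {s t : ℝ} (hs : s < 0) (ht : t < 0) :
    sq (v s) = sq (v t) := by
  rcases le_total s t with hst | hst
  · exact E1_const_aux h hst ht
  · exact (E1_const_aux h hst hs).symm

/-- `v(s) ⇀ 0` and `Zf χ (v s)² - ∫ χ²|v(s)|² → 0` as `s → 0-` -/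
theorem Zf_sub_tendsto (h : Anc C₁ C₂ C₃ E₀ v) {χ : E3 → ℝ} (hχ : Cc χ) :
    Tendsto (fun s => Zf χ (v s) ^ 2 - sq (sm χ (v s))) (𝓝[<] 0) (𝓝 0) := by
  refine tendsto_of_seq_tendsto fun s hs => ?_
  have hneg : ∀ᶠ n in atTop, s n < 0 := hs.eventually self_mem_nhdsWithin
  set s' : ℕ → ℝ := fun n => if s n < 0 then s n else -1 with hs'
  have hs'neg : ∀ n, s' n < 0 := by
    intro n
    simp only [hs']
    split_ifs with h1
    · exact h1
    · norm_num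
  have heq : ∀ᶠ n in atTop, s n = s' n := hneg.mono fun n hn => by
    simp only [hs', if_pos hn]
  have hs't : Tendsto s' atTop (𝓝[<] 0) := hs.congr' heq
  have key := Zf_weak (fun n => v (s' n)) E₀ (fun n => h.l2 _ (hs'neg n))
    (fun n => h.energy _ (hs'neg n)) (fun n => h.div _ (hs'neg n))
    (fun φ hφ => (h.zero φ hφ).comp hs't) χ hχ
  refine key.congr' (heq.mono fun n hn => ?_)
  simp only [Function.comp, hn]

/-- the localised energies have limits -/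
theorem exists_limit (h : Anc C₁ C₂ C₃ E₀ v) {χ : E3 → ℝ} (hχ : Cc χ) :
    ∃ m : ℝ, 0 ≤ m ∧ Tendsto (fun s => Zf χ (v s) ^ 2) (𝓝[<] 0) (𝓝 m) ∧
      Tendsto (fun s => sq (sm χ (v s))) (𝓝[<] 0) (𝓝 m) := by
  obtain ⟨A, hA, hbd⟩ := h.sup
  obtain ⟨R, K, hR, hK, hcut⟩ := cut_of_cc hχ 0
  obtain ⟨CF, hCF, hFI⟩ := FI_Anc K
  set B : ℝ := CF / R * E₀ * A with hB
  have hest : ∀ s t : ℝ, s ≤ t → t < 0 → |Zf χ (v t) ^ 2 - Zf χ (v s) ^ 2| ≤
      B * ((-s) ^ (2 / 5 : ℝ) - (-t) ^ (2 / 5 : ℝ)) := fun s t hst ht =>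
    hFI 0 R χ hR hcut C₁ C₂ C₃ E₀ A v h hbd s t hst ht
  have hmono : MonotoneOn (fun s => -(Zf χ (v s) ^ 2 + B * (-s) ^ (2 / 5 : ℝ))) (Ioo (-1) 0) := by
    intro s hs t ht hst
    have h1 := (abs_le.1 (hest s t hst ht.2)).2
    simp only
    linarith
  have hE₀ : 0 ≤ E₀ := by
    refine le_trans ?_ (h.energy (-1) (by norm_num))
    unfold sq
    exact integral_nonneg fun x => by positivity
  have hB0 : 0 ≤ B := by rw [hB]; positivity
  have hbdd : BddAbove ((fun s => -(Zf χ (v s) ^ 2 + B * (-s) ^ (2 / 5 : ℝ))) '' Ioo (-1) 0) := by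
    refine ⟨0, ?_⟩
    rintro _ ⟨s, hs, rfl⟩
    simp only
    have h1 : 0 ≤ (-s) ^ (2 / 5 : ℝ) := Real.rpow_nonneg (by linarith [hs.2]) _
    have h2 : 0 ≤ B * (-s) ^ (2 / 5 : ℝ) := mul_nonneg hB0 h1
    nlinarith [sq_nonneg (Zf χ (v s))]
  have hlim := hmono.tendsto_nhdsWithin_Ioo_left (nonempty_Ioo.2 (by norm_num)) hbdd
  set L := sSup ((fun s => -(Zf χ (v s) ^ 2 + B * (-s) ^ (2 / 5 : ℝ))) '' Ioo (-1) 0) with hL
  have hpow : Tendsto (fun s : ℝ => B * (-s) ^ (2 / 5 : ℝ)) (𝓝[<] 0) (𝓝 0) := by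
    have h1 : Tendsto (fun s : ℝ => -s) (𝓝[<] 0) (𝓝 0) := by
      have := (continuous_neg (G := ℝ)).tendsto 0
      rw [neg_zero] at this
      exact this.mono_left nhdsWithin_le_nhds
    have h2 := h1.rpow_const (p := (2 / 5 : ℝ)) (Or.inr (by norm_num))
    rw [Real.zero_rpow (by norm_num)] at h2
    simpa using h2.const_mul B
  have hZ : Tendsto (fun s => Zf χ (v s) ^ 2) (𝓝[<] 0) (𝓝 (-L)) := by
    have h1 := (hlim.neg).sub hpow
    rw [sub_zero] at h1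
    refine h1.congr fun s => ?_
    ring
  refine ⟨-L, ge_of_tendsto hZ (Eventually.of_forall fun s => by positivity), hZ, ?_⟩
  have h2 := hZ.sub (Zf_sub_tendsto h hχ)
  rw [sub_zero] at h2
  refine h2.congr fun s => ?_
  ring

end Pool.Agent.Helper60.EC
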