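import Pool.Agent.Helper60.EC.E1

/-! Project EC, E2: concentration at every time scale -/

set_option autoImplicit false

open MeasureTheory Set Filter Topology
open scoped ENNReal ContDiff

noncomputable section

namespace Pool.Agent.Helper60.EC

open Pool.Agent.Helper52.NSE (E3 pd divg TestField)

/-- bound of the nonlinear term -/
theorem E2_nl_le {w φ : E3 → E3} {M : ℝ} (hw : MemLp w 2 volume) (hφ : TestField univ φ)
    (hM : ∀ x, ‖w x‖ ≤ M) : |nl φ w| ≤ M * (Real.sqrt (sq w) * Real.sqrt (gsq φ)) := by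
  have hM0 : 0 ≤ M := (norm_nonneg _).trans (hM 0)
  have hDc : ∀ i, Continuous (D i φ) := fun i => (D_smooth hφ.smooth i).continuous
  have hDs : ∀ i, HasCompactSupport (D i φ) := fun i =>
    hφ.compact.of_isClosed_subset (isClosed_tsupport _) (D_tsupport φ i)
  set g : E3 → ℝ := fun x => Real.sqrt (∑ i, ‖D i φ x‖ ^ 2) with hg
  have hgc : Continuous g := Real.continuous_sqrt.comp
    (continuous_finsetSum _ fun i _ => (hDc i).norm.pow 2)
  have hgs : HasCompactSupport g := by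
    refine hφ.compact.mono' (fun x hx => ?_)
    by_contra hc
    refine hx ?_
    have h0 : ∀ i, D i φ x = 0 := fun i => Calc1b_D0 hc i
    simp [hg, h0]
  have hgL : MemLp g 2 volume := hgc.memLp_of_hasCompactSupport hgs
  have hpt : ∀ x, ‖∑ i, (w x) i * (inner ℝ (w x) (D i φ x) : ℝ)‖ ≤ M * (‖w x‖ * g x) := by
    intro x
    have h1 : ‖∑ i, (w x) i * (inner ℝ (w x) (D i φ x) : ℝ)‖ ≤
        ∑ i, |(w x) i| * (‖w x‖ * ‖D i φ x‖) := by
      refine (norm_sum_le _ _).trans (Finset.sum_le_sum fun i _ => ?_)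
      rw [norm_mul, Real.norm_eq_abs]
      exact mul_le_mul_of_nonneg_left (norm_inner_le_norm _ _) (abs_nonneg _)
    have h2 : ∑ i, |(w x) i| * (‖w x‖ * ‖D i φ x‖) = ‖w x‖ * ∑ i, |(w x) i| * ‖D i φ x‖ := by
      rw [Finset.mul_sum]
      exact Finset.sum_congr rfl fun i _ => by ring
    have h3 : ∑ i, |(w x) i| * ‖D i φ x‖ ≤ Real.sqrt (∑ i, |(w x) i| ^ 2) *
        Real.sqrt (∑ i, ‖D i φ x‖ ^ 2) := Real.sum_mul_le_sqrt_mul_sqrt _ _ _
    have h4 : Real.sqrt (∑ i, |(w x) i| ^ 2) = ‖w x‖ := by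
      rw [EuclideanSpace.norm_eq]
      simp only [Real.norm_eq_abs]
    rw [h4] at h3
    rw [h2] at h1
    refine h1.trans ?_
    calc ‖w x‖ * ∑ i, |(w x) i| * ‖D i φ x‖ ≤ ‖w x‖ * (‖w x‖ * g x) :=
          mul_le_mul_of_nonneg_left h3 (norm_nonneg _)
      _ ≤ M * (‖w x‖ * g x) :=
          mul_le_mul_of_nonneg_right (hM x) (mul_nonneg (norm_nonneg _) (Real.sqrt_nonneg _))
  have hint : Integrable (fun x => ‖w x‖ * g x) volume := hw.norm.integrable_mul hgL
  have h5 : |nl φ w| ≤ ∫ x, M * (‖w x‖ * g x) := by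
    unfold nl
    rw [← Real.norm_eq_abs]
    exact norm_integral_le_of_norm_le (hint.const_mul M) (Eventually.of_forall hpt)
  rw [integral_const_mul] at h5
  refine h5.trans (mul_le_mul_of_nonneg_left ?_ hM0)
  have h6 := ip_le (F := ℝ) hw.norm hgL
  have h7 : ip (F := ℝ) (fun x => ‖w x‖) g = ∫ x, ‖w x‖ * g x := by
    unfold ip
    refine integral_congr_ae (Eventually.of_forall fun x => ?_)
    simp [mul_comm]
  have h8 : sq (F := ℝ) (fun x => ‖w x‖) = sq w := by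
    unfold sq
    simp
  have h9 : sq (F := ℝ) g = gsq φ := by
    unfold sq gsq
    refine integral_congr_ae (Eventually.of_forall fun x => ?_)
    simp only [hg, Real.norm_eq_abs, sq_abs]
    exact Real.sq_sqrt (Finset.sum_nonneg fun i _ => sq_nonneg _)
  rw [h7, h8, h9] at h6
  exact (le_abs_self _).trans h6

/-- the equation between a time `s` and the final time -/
theorem ip_eq_final {C₁ C₂ C₃ E₀ A : ℝ} {v : ℝ → E3 → E3} (h : Anc C₁ C₂ C₃ E₀ v)
    (hA : ∀ s < 0, ∀ x, ‖v s x‖ ≤ A * (-s) ^ (-(3 / 5) : ℝ)) (φ : E3 → E3)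
    (hφ : TestField univ φ) {s : ℝ} (hs : s < 0) (N : ℝ → ℝ) (hN : IntegrableOn N (Ioo s 0))
    (hvN : ∀ τ ∈ Ioo s 0, ∀ x, ‖v τ x‖ ≤ N τ) :
    |ip (v s) φ| ≤ Real.sqrt E₀ * Real.sqrt (gsq φ) * ∫ τ in Ioo s 0, N τ := by
  have hN0 : ∀ τ ∈ Ioo s 0, 0 ≤ N τ := fun τ hτ => (norm_nonneg _).trans (hvN τ hτ 0)
  set B : ℝ := Real.sqrt E₀ * Real.sqrt (gsq φ) with hB
  have hB0 : 0 ≤ B := by positivity
  have key : ∀ t ∈ Ioo s 0, |ip (v s) φ| ≤ |ip (v t) φ| + B * ∫ τ in Ioo s 0, N τ := by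
    intro t ht
    have h1 := h.eqn φ hφ s t ht.1 ht.2
    have h2 : |∫ τ in s..t, nl φ (v τ)| ≤ B * ∫ τ in Ioo s 0, N τ := by
      have hsub : Ioo s t ⊆ Ioo s 0 := Ioo_subset_Ioo_right ht.2.le
      rw [← Real.norm_eq_abs, intervalIntegral.integral_of_le ht.1.le,
        integral_Ioc_eq_integral_Ioo]
      refine (norm_integral_le_of_norm_le (g := fun τ => B * N τ)
        ((hN.mono_set hsub).const_mul B) ?_).trans ?_
      · refine (ae_restrict_iff' measurableSet_Ioo).2 (Eventually.of_forall fun τ hτ => ?_)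
        have hτ' := hsub hτ
        have h3 := E2_nl_le (h.l2 τ hτ'.2) hφ (hvN τ hτ')
        rw [Real.norm_eq_abs]
        refine h3.trans ?_
        have h4 : Real.sqrt (sq (v τ)) ≤ Real.sqrt E₀ := Real.sqrt_le_sqrt (h.energy τ hτ'.2)
        have h5 := mul_le_mul_of_nonneg_right h4 (Real.sqrt_nonneg (gsq φ))
        have h6 := mul_le_mul_of_nonneg_left h5 (hN0 τ hτ')
        linarith
      · rw [integral_const_mul]
        refine mul_le_mul_of_nonneg_left ?_ hB0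
        exact setIntegral_mono_set hN ((ae_restrict_iff' measurableSet_Ioo).2
          (Eventually.of_forall fun τ hτ => hN0 τ hτ)) (LE.le.eventuallyLE hsub)
    have h3 : ip (v s) φ = ip (v t) φ - ∫ τ in s..t, nl φ (v τ) := by linarith
    rw [h3]
    refine (abs_sub _ _).trans ?_
    linarith
  have hlim : Tendsto (fun t => |ip (v t) φ| + B * ∫ τ in Ioo s 0, N τ) (𝓝[<] 0)
      (𝓝 (|0| + B * ∫ τ in Ioo s 0, N τ)) := ((h.zero φ hφ).abs).add_const _
  rw [abs_zero, zero_add] at hlim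
  refine ge_of_tendsto hlim ?_
  have : Ioo s 0 ∈ 𝓝[<] (0 : ℝ) := Ioo_mem_nhdsLT hs
  filter_upwards [this] with t ht
  exact key t ht

theorem E2_int {c s : ℝ} (hs : s < 0) :
    IntegrableOn (fun τ : ℝ => c * (-τ) ^ (-(3 / 5) : ℝ)) (Ioo s 0) ∧
    ∫ τ in Ioo s 0, c * (-τ) ^ (-(3 / 5) : ℝ) = 5 / 2 * c * (-s) ^ (2 / 5 : ℝ) := by
  have h1 : IntervalIntegrable (fun x : ℝ => x ^ (-(3 / 5) : ℝ)) volume 0 (-s) :=
    intervalIntegral.intervalIntegrable_rpow' (by norm_num)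
  have h2 : IntervalIntegrable (fun τ : ℝ => (-τ) ^ (-(3 / 5) : ℝ)) volume s 0 := by
    have := (IntervalIntegrable.comp_mul_left (c := -1) h1)
    have h3 := this.symm
    simpa using h3
  have h4 : IntegrableOn (fun τ : ℝ => (-τ) ^ (-(3 / 5) : ℝ)) (Ioo s 0) :=
    ((intervalIntegrable_iff_integrableOn_Ioo_of_le hs.le).1 h2)
  refine ⟨h4.const_mul c, ?_⟩
  rw [← integral_Ioc_eq_integral_Ioo, ← intervalIntegral.integral_of_le hs.le,
    intervalIntegral.integral_const_mul,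
    intervalIntegral.integral_comp_neg (fun x : ℝ => x ^ (-(3 / 5) : ℝ)),
    integral_rpow (Or.inl (by norm_num))]
  norm_num
  ring

/-- if the energy does not vanish, the maximum of `|v(σ)|` is at least `c|σ|^(-3/5)` at some time
of every interval `(s, 0)` -/
theorem exists_large {C₁ C₂ C₃ E₀ : ℝ} {v : ℝ → E3 → E3} (h : Anc C₁ C₂ C₃ E₀ v)
    (hE : 0 < sq (v (-1))) :
    ∃ c : ℝ, 0 < c ∧ ∀ s < 0, ∃ σ ∈ Ioo s 0, ∃ x, c * (-σ) ^ (-(3 / 5) : ℝ) ≤ ‖v σ x‖ := by
  obtain ⟨A, hA, hbd⟩ := h.sup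
  obtain ⟨K, hK, hcut⟩ := exists_cut
  choose! χc hχc using hcut
  obtain ⟨CB, hCB, hBB⟩ := BB_bounds K
  obtain ⟨CG, hCG, hBG⟩ := BB_gsq K
  set E : ℝ := sq (v (-1)) with hEd
  have hEs : ∀ s < 0, sq (v s) = E := fun s hs => energy_const h hs (by norm_num)
  have hEE : E ≤ E₀ := h.energy (-1) (by norm_num)
  have hE₀ : 0 ≤ E₀ := hE.le.trans hEE
  have hC₂ : 0 ≤ C₂ := by
    have h1 := h.grad (-1) (by norm_num) (EuclideanSpace.single 0 1)
    have h2 : 0 ≤ sq (fun x => v (-1) (x + EuclideanSpace.single 0 1) - v (-1) x) := sq_nonneg' _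
    have h3 := h2.trans h1
    simpa using h3
  set B : ℝ := 5 / 2 * Real.sqrt E₀ * (CG * Real.sqrt (3 * C₂)) with hB
  have hB0 : 0 ≤ B := by positivity
  refine ⟨E / (2 * (B + 1)), by positivity, ?_⟩
  set c : ℝ := E / (2 * (B + 1)) with hc
  have hc0 : 0 < c := by positivity
  have hcB : c * B < E := by
    rw [hc, div_mul_eq_mul_div, div_lt_iff₀ (by positivity)]
    nlinarith
  intro s hs
  by_contra hcon
  push Not at hcon
  have hvN : ∀ τ ∈ Ioo s 0, ∀ x, ‖v τ x‖ ≤ c * (-τ) ^ (-(3 / 5) : ℝ) := fun τ hτ x =>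
    (hcon τ hτ x).le
  obtain ⟨hNi, hNv⟩ := E2_int (c := c) hs
  have hs2 : 0 < (-s) ^ (2 / 5 : ℝ) := Real.rpow_pos_of_pos (by linarith) _
  have hfin : ∀ φ, TestField univ φ → |ip (v s) φ| ≤
      Real.sqrt E₀ * Real.sqrt (gsq φ) * (5 / 2 * c * (-s) ^ (2 / 5 : ℝ)) := by
    intro φ hφ
    have := ip_eq_final h hbd φ hφ hs _ hNi hvN
    rwa [hNv] at this
  -- the main inequality for one approximation
  have key : ∀ η : ℝ, 0 < η → Real.sqrt E ≤
      Real.sqrt (c * B + Real.sqrt η * (Real.sqrt CB * Real.sqrt E₀)) + Real.sqrt η := by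
    intro η hη
    obtain ⟨w, hw, hwE, hwη, hwL⟩ := exists_sml (v s) (h.l2 s hs) (h.div s hs) η hη
    obtain ⟨hwD, hwg⟩ := hwL (C₂ * (-s) ^ (-(4 / 5) : ℝ)) (h.grad s hs)
    rw [hEs s hs] at hwE
    have hg : Real.sqrt (gsq w) * (-s) ^ (2 / 5 : ℝ) ≤ Real.sqrt (3 * C₂) := by
      have h1 : Real.sqrt (gsq w) ≤ Real.sqrt (3 * C₂ * (-s) ^ (-(4 / 5) : ℝ)) :=
        Real.sqrt_le_sqrt (by linarith)
      have h2 : Real.sqrt (3 * C₂ * (-s) ^ (-(4 / 5) : ℝ)) =
          Real.sqrt (3 * C₂) * (-s) ^ (-(2 / 5) : ℝ) := by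
        rw [Real.sqrt_mul (by positivity)]
        congr 1
        rw [Real.sqrt_eq_rpow, ← Real.rpow_mul (by linarith)]
        norm_num
      rw [h2] at h1
      have h3 := mul_le_mul_of_nonneg_right h1 hs2.le
      have h4 : (-s) ^ (-(2 / 5) : ℝ) * (-s) ^ (2 / 5 : ℝ) = 1 := by
        rw [← Real.rpow_add (by linarith)]
        norm_num
      calc Real.sqrt (gsq w) * (-s) ^ (2 / 5 : ℝ)
          ≤ Real.sqrt (3 * C₂) * (-s) ^ (-(2 / 5) : ℝ) * (-s) ^ (2 / 5 : ℝ) := h3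
        _ = Real.sqrt (3 * C₂) := by rw [mul_assoc, h4, mul_one]
    have hR : ∀ R : ℝ, 0 < R → Zf (χc 0 R) w ^ 2 ≤ c * B +
        Real.sqrt η * (Real.sqrt CB * Zf (χc 0 R) w) +
        (Real.sqrt E₀ * (5 / 2 * c * (-s) ^ (2 / 5 : ℝ)) * Real.sqrt E₀) * (CG / R) := by
      intro R hR
      have hcutR := (hχc 0 R hR).1
      obtain ⟨hφc, hφd, -⟩ := BB_cc hcutR.cc hw
      have hφ : TestField univ (BB (χc 0 R) w) :=
        ⟨hφc.smooth, hφc.comp, subset_univ _, hφd⟩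
      have h1 := hfin _ hφ
      have h2 := hBG 0 R (χc 0 R) hR hcutR w hw hwD
      have h3 := (hBB 0 R (χc 0 R) hR hcutR w hw).1
      have h4 := (Zf_sq hcutR.cc hw).2
      have hZ0 := Zf_nonneg (χc 0 R) hcutR.cc hw.l2
      have hφL : MemLp (BB (χc 0 R) w) 2 volume := cc_memLp hφc 2
      have hdL : MemLp (fun x => v s x - w x) 2 volume := (h.l2 s hs).sub hw.l2
      have h5 : ip (v s) (BB (χc 0 R) w) = ip (fun x => v s x - w x) (BB (χc 0 R) w) +
          ip w (BB (χc 0 R) w) := by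
        rw [← Z0b_ip_add hdL hw.l2 hφL]
        simp
      have h6 : |ip (fun x => v s x - w x) (BB (χc 0 R) w)| ≤
          Real.sqrt η * (Real.sqrt CB * Zf (χc 0 R) w) := by
        refine (ip_le hdL hφL).trans ?_
        refine mul_le_mul (Real.sqrt_le_sqrt hwη) ?_ (Real.sqrt_nonneg _) (Real.sqrt_nonneg _)
        refine (Real.sqrt_le_sqrt h3).trans ?_
        rw [Real.sqrt_mul hCB, Real.sqrt_sq hZ0]
      have h7 : Real.sqrt E₀ * Real.sqrt (gsq (BB (χc 0 R) w)) *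
          (5 / 2 * c * (-s) ^ (2 / 5 : ℝ)) ≤ c * B +
          (Real.sqrt E₀ * (5 / 2 * c * (-s) ^ (2 / 5 : ℝ)) * Real.sqrt E₀) * (CG / R) := by
        have h8 : Real.sqrt (sq w) ≤ Real.sqrt E₀ := Real.sqrt_le_sqrt (hwE.trans hEE)
        have h9 : Real.sqrt (gsq (BB (χc 0 R) w)) * (-s) ^ (2 / 5 : ℝ) ≤
            CG * Real.sqrt (3 * C₂) + CG / R * Real.sqrt E₀ * (-s) ^ (2 / 5 : ℝ) := by
          have h10 := mul_le_mul_of_nonneg_right h2 hs2.le
          have h11 := mul_le_mul_of_nonneg_left hg hCG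
          have h12 := mul_le_mul_of_nonneg_right
            (mul_le_mul_of_nonneg_left h8 (div_nonneg hCG hR.le)) hs2.le
          nlinarith
        have h13 : 0 ≤ Real.sqrt E₀ * (5 / 2 * c) := by positivity
        have h14 := mul_le_mul_of_nonneg_left h9 h13
        rw [hB]
        nlinarith
      have h15 := (abs_le.1 h6).1
      have h16 := (le_abs_self _).trans h1
      linarith
    have hlim := Zf_tendsto K (χc 0) 0 (fun R hR => (hχc 0 R hR).1) (fun R hR => (hχc 0 R hR).2.1)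
      (fun R hR => (hχc 0 R hR).2.2) hw.l2 (wdiv_of_divg hw.smooth hw.div)
    have hlim' : Tendsto (fun R => Zf (χc 0 R) w) atTop (𝓝 (Real.sqrt (sq w))) := by
      have h1 := hlim.sqrt
      refine h1.congr' ?_
      filter_upwards [eventually_gt_atTop (0 : ℝ)] with R hR
      exact Real.sqrt_sq (Zf_nonneg (χc 0 R) (hχc 0 R hR).1.cc hw.l2)
    have hlim2 : Tendsto (fun R : ℝ => c * B +
        Real.sqrt η * (Real.sqrt CB * Zf (χc 0 R) w) +
        (Real.sqrt E₀ * (5 / 2 * c * (-s) ^ (2 / 5 : ℝ)) * Real.sqrt E₀) * (CG / R)) atTop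
        (𝓝 (c * B + Real.sqrt η * (Real.sqrt CB * Real.sqrt (sq w)) +
        (Real.sqrt E₀ * (5 / 2 * c * (-s) ^ (2 / 5 : ℝ)) * Real.sqrt E₀) * 0)) := by
      have h1 : Tendsto (fun R : ℝ => CG / R) atTop (𝓝 0) := tendsto_const_nhds.div_atTop tendsto_id
      exact (((hlim'.const_mul _).const_mul _).const_add _).add (h1.const_mul _)
    have hle := le_of_tendsto_of_tendsto hlim hlim2 (by
      filter_upwards [eventually_gt_atTop (0 : ℝ)] with R hR'
      exact hR R hR')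
    rw [mul_zero, add_zero] at hle
    have h1 : Real.sqrt (sq w) ≤ Real.sqrt (c * B + Real.sqrt η * (Real.sqrt CB * Real.sqrt E₀)) := by
      refine Real.sqrt_le_sqrt (hle.trans ?_)
      have h2 : Real.sqrt (sq w) ≤ Real.sqrt E₀ := Real.sqrt_le_sqrt (hwE.trans hEE)
      have h3 := mul_le_mul_of_nonneg_left (mul_le_mul_of_nonneg_left h2 (Real.sqrt_nonneg CB))
        (Real.sqrt_nonneg η)
      linarith
    have h2 : Real.sqrt E ≤ Real.sqrt (sq w) + Real.sqrt η := by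
      have h3 := sqrt_sq_add_le hw.l2 ((h.l2 s hs).sub hw.l2)
      have h4 : (fun x => w x + (v s - w) x) = v s := by
        funext x
        simp
      rw [h4, hEs s hs] at h3
      refine h3.trans (add_le_add le_rfl ?_)
      exact Real.sqrt_le_sqrt hwη
    linarith
  have hlim : Tendsto (fun η : ℝ => Real.sqrt (c * B + Real.sqrt η * (Real.sqrt CB * Real.sqrt E₀)) +
      Real.sqrt η) (𝓝[>] 0) (𝓝 (Real.sqrt (c * B))) := by
    have hcont : Continuous (fun η : ℝ =>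
        Real.sqrt (c * B + Real.sqrt η * (Real.sqrt CB * Real.sqrt E₀)) + Real.sqrt η) := by
      fun_prop
    have := (hcont.tendsto 0).mono_left (nhdsWithin_le_nhds (s := Ioi 0))
    simpa using this
  have hfinal : Real.sqrt E ≤ Real.sqrt (c * B) :=
    ge_of_tendsto hlim (by
      filter_upwards [self_mem_nhdsWithin] with η hη
      exact key η hη)
  have : Real.sqrt (c * B) < Real.sqrt E := Real.sqrt_lt_sqrt (by positivity) hcB
  linarith

end Pool.Agent.Helper60.EC
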