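import Pool.Agent.Helper60.EC.E2

/-! Project EC, E3f: an atom of the limit energy -/

set_option autoImplicit false

open MeasureTheory Set Filter Topology
open scoped ENNReal ContDiff

noncomputable section

namespace Pool.Agent.Helper60.EC

open Pool.Agent.Helper52.NSE (E3 pd divg TestField)

theorem E3f_int {w : E3 → E3} (hw : MemLp w 2 volume) : Integrable (fun x => ‖w x‖ ^ 2) :=
  (memLp_two_iff_integrable_sq_norm hw.1).1 hw

theorem E3f_mono {w : E3 → E3} (hw : MemLp w 2 volume) {U V : Set E3} (h : U ⊆ V) :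
    sqOn U w ≤ sqOn V w := by
  unfold sqOn
  exact setIntegral_mono_set (E3f_int hw).integrableOn
    (Eventually.of_forall fun x => by positivity) h.eventuallyLE

theorem E3f_le_sq {w : E3 → E3} (hw : MemLp w 2 volume) (U : Set E3) :
    sqOn U w ≤ sq w := by
  unfold sqOn sq
  exact setIntegral_le_integral (E3f_int hw) (Eventually.of_forall fun x => by positivity)

theorem E3f_nonneg (w : E3 → E3) (U : Set E3) : 0 ≤ sqOn U w := by
  unfold sqOn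
  exact integral_nonneg fun x => by positivity

theorem E3f_sq_nonneg (w : E3 → E3) : 0 ≤ sq w := by
  unfold sq
  exact integral_nonneg fun x => by positivity

theorem E3f_tail {w : E3 → E3} (hw : MemLp w 2 volume) {ε : ℝ} (hε : 0 < ε) :
    ∃ n : ℕ, sqOn (Metric.ball (0 : E3) n)ᶜ w < ε := by
  have h1 := tendsto_setIntegral_of_antitone (μ := (volume : Measure E3))
    (f := fun x => ‖w x‖ ^ 2) (s := fun n : ℕ => (Metric.ball (0 : E3) n)ᶜ)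
    (fun n => Metric.isOpen_ball.measurableSet.compl)
    (fun m n hmn => compl_subset_compl.2 (Metric.ball_subset_ball (by exact_mod_cast hmn)))
    ⟨0, (E3f_int hw).integrableOn⟩
  have h2 : (⋂ n : ℕ, (Metric.ball (0 : E3) n)ᶜ) = ∅ := by
    ext x
    simp only [mem_iInter, mem_compl_iff, Metric.mem_ball, dist_zero_right, not_lt,
      mem_empty_iff_false, iff_false, not_forall, not_le]
    exact exists_nat_gt ‖x‖
  rw [h2, Measure.restrict_empty, integral_zero_measure] at h1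
  obtain ⟨n, hn⟩ := (h1.eventually (gt_mem_nhds hε)).exists
  exact ⟨n, hn⟩

theorem E3f_sm_int {w : E3 → E3} (hw : MemLp w 2 volume) {χ : E3 → ℝ} (hχ : Cc χ)
    (h01 : ∀ x, 0 ≤ χ x ∧ χ x ≤ 1) : Integrable (fun x => ‖sm χ w x‖ ^ 2) := by
  refine (E3f_int hw).mono' ?_ ?_
  · exact ((hχ.smooth.continuous.aestronglyMeasurable.smul hw.1).norm.pow 2)
  · refine Eventually.of_forall fun x => ?_
    have h1 := h01 x
    have h2 : ‖sm χ w x‖ ≤ ‖w x‖ := by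
      unfold sm
      rw [norm_smul, Real.norm_eq_abs, abs_of_nonneg h1.1]
      exact mul_le_of_le_one_left (norm_nonneg _) h1.2
    rw [Real.norm_eq_abs, abs_of_nonneg (by positivity)]
    exact pow_le_pow_left₀ (norm_nonneg _) h2 2

theorem E3f_sm_ge {w : E3 → E3} (hw : MemLp w 2 volume) {χ : E3 → ℝ} (hχ : Cc χ)
    (h01 : ∀ x, 0 ≤ χ x ∧ χ x ≤ 1) {U : Set E3} (hU : MeasurableSet U)
    (h1 : ∀ x ∈ U, χ x = 1) : sqOn U w ≤ sq (sm χ w) := by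
  unfold sqOn sq
  calc ∫ x in U, ‖w x‖ ^ 2 = ∫ x in U, ‖sm χ w x‖ ^ 2 := by
        refine setIntegral_congr_fun hU fun x hx => ?_
        simp only [sm, h1 x hx, one_smul]
    _ ≤ ∫ x, ‖sm χ w x‖ ^ 2 :=
        setIntegral_le_integral (E3f_sm_int hw hχ h01)
          (Eventually.of_forall fun x => by positivity)

theorem E3f_sm_mono {w : E3 → E3} (hw : MemLp w 2 volume) {χ χ' : E3 → ℝ} (hχ : Cc χ)
    (h01 : ∀ x, 0 ≤ χ x ∧ χ x ≤ 1) (hχ' : Cc χ') (h01' : ∀ x, 0 ≤ χ' x ∧ χ' x ≤ 1)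
    (h : ∀ x, χ x ≤ χ' x) : sq (sm χ w) ≤ sq (sm χ' w) := by
  unfold sq
  refine integral_mono (E3f_sm_int hw hχ h01) (E3f_sm_int hw hχ' h01') fun x => ?_
  have h2 : ‖sm χ w x‖ ≤ ‖sm χ' w x‖ := by
    unfold sm
    rw [norm_smul, norm_smul, Real.norm_eq_abs, Real.norm_eq_abs, abs_of_nonneg (h01 x).1,
      abs_of_nonneg (h01' x).1]
    exact mul_le_mul_of_nonneg_right (h x) (norm_nonneg _)
  exact pow_le_pow_left₀ (norm_nonneg _) h2 2

/-- pigeonhole over dyadic annuli -/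
theorem E3f_pigeon {w : E3 → E3} (hw : MemLp w 2 volume) (x : E3) {R₀ : ℝ} (hR : 0 < R₀)
    {J : ℕ} (hJ : 0 < J) : ∃ j < J,
      sqOn (Metric.ball x (R₀ * 2 ^ j) \ Metric.ball x (R₀ * 2 ^ j / 2)) w ≤ sq w / J := by
  have hJ' : (0 : ℝ) < J := by exact_mod_cast hJ
  have key : ∀ j : ℕ, sqOn (Metric.ball x (R₀ * 2 ^ j) \ Metric.ball x (R₀ * 2 ^ j / 2)) w =
      sqOn (Metric.ball x (R₀ * 2 ^ (j + 1) / 2)) w - sqOn (Metric.ball x (R₀ * 2 ^ j / 2)) w := by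
    intro j
    have e : R₀ * 2 ^ (j + 1) / 2 = R₀ * 2 ^ j := by rw [pow_succ]; ring
    rw [e]
    unfold sqOn
    refine setIntegral_sdiff Metric.isOpen_ball.measurableSet (E3f_int hw).integrableOn ?_
    refine Metric.ball_subset_ball ?_
    have : 0 < R₀ * 2 ^ j := by positivity
    linarith
  have hsum : ∑ j ∈ Finset.range J,
      sqOn (Metric.ball x (R₀ * 2 ^ j) \ Metric.ball x (R₀ * 2 ^ j / 2)) w ≤
      ∑ _j ∈ Finset.range J, sq w / J := by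
    rw [Finset.sum_congr rfl fun j _ => key j,
      Finset.sum_range_sub (fun j => sqOn (Metric.ball x (R₀ * 2 ^ j / 2)) w) J,
      Finset.sum_const, Finset.card_range, nsmul_eq_mul, mul_div_cancel₀ _ hJ'.ne']
    have h1 := E3f_le_sq hw (Metric.ball x (R₀ * 2 ^ J / 2))
    have h2 := E3f_nonneg w (Metric.ball x (R₀ * 2 ^ 0 / 2))
    linarith
  obtain ⟨j, hj, hle⟩ := Finset.exists_le_of_sum_le
    (Finset.nonempty_range_iff.2 hJ.ne') hsum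
  exact ⟨j, Finset.mem_range.1 hj, hle⟩

/-- concentration of energy at scale `|σ|^(2/5)` -/
theorem E3f_conc {C₁ C₂ C₃ E₀ : ℝ} {v : ℝ → E3 → E3} (h : Anc C₁ C₂ C₃ E₀ v)
    (hE : 0 < sq (v (-1))) :
    ∃ c₁ κ : ℝ, 0 < c₁ ∧ 0 < κ ∧ ∀ s < 0, ∃ σ ∈ Ioo s 0, ∃ x : E3,
      c₁ ≤ sqOn (Metric.ball x (κ * (-σ) ^ (2 / 5 : ℝ))) (v σ) := by
  obtain ⟨c₀, hc₀, hsup⟩ := sup_le_energy
  obtain ⟨c, hc, hlarge⟩ := exists_large h hE
  obtain ⟨A, hA, hbd⟩ := h.sup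
  set M : ℝ := |C₁| + 1 with hM
  have hMpos : 0 < M := by positivity
  refine ⟨c₀ * c ^ 5 / M ^ 3, A / (2 * M), by positivity, by positivity, fun s hs => ?_⟩
  obtain ⟨σ, hσ, x, hx⟩ := hlarge s hs
  refine ⟨σ, hσ, x, ?_⟩
  have hσ0 : σ < 0 := hσ.2
  set τ : ℝ := -σ with hτ
  have hτ0 : 0 < τ := by linarith
  set p : ℝ := τ ^ (-(3 / 5) : ℝ) with hp
  have hp0 : 0 < p := Real.rpow_pos_of_pos hτ0 _
  have hp5 : p ^ 5 * τ ^ 3 = 1 := by
    rw [hp, ← Real.rpow_natCast (τ ^ (-(3 / 5) : ℝ)) 5, ← Real.rpow_mul hτ0.le,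
      ← Real.rpow_natCast τ 3, ← Real.rpow_add hτ0]
    norm_num
  have hp1 : p * τ = τ ^ (2 / 5 : ℝ) := by
    rw [hp]
    nth_rewrite 2 [← Real.rpow_one τ]
    rw [← Real.rpow_add hτ0]
    norm_num
  have hW1 : c * p ≤ ‖v σ x‖ := hx
  have hW2 : ‖v σ x‖ ≤ A * p := hbd σ hσ0 x
  have hL : 0 < M / τ := by positivity
  have hlip : ∀ x y, ‖v σ x - v σ y‖ ≤ M / τ * ‖x - y‖ := by
    intro x y
    refine (h.lip σ hσ0 x y).trans ?_
    refine mul_le_mul_of_nonneg_right ?_ (norm_nonneg _)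
    refine div_le_div_of_nonneg_right ?_ hτ0.le
    rw [hM]
    linarith [le_abs_self C₁]
  have h1 := hsup (v σ) (M / τ) hL hlip (h.l2 σ hσ0) x
  have hrad : ‖v σ x‖ / (2 * (M / τ)) ≤ A / (2 * M) * τ ^ (2 / 5 : ℝ) := by
    rw [← hp1]
    have e1 : ‖v σ x‖ / (2 * (M / τ)) = ‖v σ x‖ * τ / (2 * M) := by
      field_simp
    have e2 : A / (2 * M) * (p * τ) = A * p * τ / (2 * M) := by ring
    rw [e1, e2]
    refine div_le_div_of_nonneg_right ?_ (by positivity)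
    exact mul_le_mul_of_nonneg_right hW2 hτ0.le
  have h2 : sqOn (Metric.ball x (‖v σ x‖ / (2 * (M / τ)))) (v σ) ≤
      sqOn (Metric.ball x (A / (2 * M) * τ ^ (2 / 5 : ℝ))) (v σ) :=
    E3f_mono (h.l2 σ hσ0) (Metric.ball_subset_ball hrad)
  refine le_trans ?_ h2
  set S := sqOn (Metric.ball x (‖v σ x‖ / (2 * (M / τ)))) (v σ) with hS
  have h3 : (c * p) ^ 5 ≤ ‖v σ x‖ ^ 5 := pow_le_pow_left₀ (by positivity) hW1 5
  have h4 : c₀ * (c * p) ^ 5 ≤ (M / τ) ^ 3 * S :=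
    (mul_le_mul_of_nonneg_left h3 hc₀.le).trans h1
  rw [div_le_iff₀ (by positivity)]
  have h5 : c₀ * (c * p) ^ 5 * τ ^ 3 ≤ (M / τ) ^ 3 * S * τ ^ 3 :=
    mul_le_mul_of_nonneg_right h4 (by positivity)
  have e3 : c₀ * (c * p) ^ 5 * τ ^ 3 = c₀ * c ^ 5 := by
    calc c₀ * (c * p) ^ 5 * τ ^ 3 = c₀ * c ^ 5 * (p ^ 5 * τ ^ 3) := by ring
      _ = c₀ * c ^ 5 := by rw [hp5, mul_one]
  have e4 : (M / τ) ^ 3 * S * τ ^ 3 = S * M ^ 3 := by
    field_simp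
  rw [e3, e4] at h5
  exact h5

/-- the limit energy has an atom: there are `x₀` and `c₀ > 0` such that the limit of the energy
in every neighbourhood of `x₀` is at least `c₀` -/
theorem exists_atom {C₁ C₂ C₃ E₀ : ℝ} {v : ℝ → E3 → E3} (h : Anc C₁ C₂ C₃ E₀ v)
    (hE : 0 < sq (v (-1))) :
    ∃ (x₀ : E3) (c₀ : ℝ), 0 < c₀ ∧ ∀ (χ : E3 → ℝ), Cc χ → (∀ x, 0 ≤ χ x ∧ χ x ≤ 1) →
      (∀ᶠ x in 𝓝 x₀, χ x = 1) → ∀ m, Tendsto (fun s => sq (sm χ (v s))) (𝓝[<] 0) (𝓝 m) →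
        c₀ ≤ m := by
  obtain ⟨c₁, κ, hc₁, hκ, hconc⟩ := E3f_conc h hE
  obtain ⟨A, hA, hbd⟩ := h.sup
  obtain ⟨K, hK, hcut⟩ := exists_cut
  choose! χc hχc using hcut
  obtain ⟨CA, hCA, hann⟩ := Zf_annulus K
  obtain ⟨CF, hCF, hFI⟩ := FI_Anc K
  obtain ⟨CZ, hCZ, hZle⟩ := Zf_le K
  have hE₀ : 0 ≤ E₀ := (E3f_sq_nonneg (v (-1))).trans (h.energy (-1) (by norm_num))
  -- the number of annuli
  obtain ⟨J, hJ, hJs⟩ : ∃ J : ℕ, 0 < J ∧ CA * Real.sqrt E₀ * Real.sqrt (E₀ / J) ≤ c₁ / 2 := by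
    set q : ℝ := CA * Real.sqrt E₀ with hq
    have hq0 : 0 ≤ q := by positivity
    set δ : ℝ := c₁ / (2 * (q + 1)) with hδ
    have hδ0 : 0 < δ := by positivity
    obtain ⟨J, hJ⟩ := exists_nat_gt (E₀ / δ ^ 2)
    have hJ0 : (0 : ℝ) < J := lt_of_le_of_lt (by positivity) hJ
    refine ⟨J, by exact_mod_cast hJ0, ?_⟩
    have h1 : E₀ / J ≤ δ ^ 2 := by
      rw [div_le_iff₀ hJ0]
      rw [div_lt_iff₀ (by positivity)] at hJ
      linarith
    have h2 : Real.sqrt (E₀ / J) ≤ δ := by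
      rw [← Real.sqrt_sq hδ0.le]
      exact Real.sqrt_le_sqrt h1
    calc q * Real.sqrt (E₀ / J) ≤ q * δ := mul_le_mul_of_nonneg_left h2 hq0
      _ = q / (q + 1) * (c₁ / 2) := by rw [hδ]; field_simp
      _ ≤ 1 * (c₁ / 2) := by
          refine mul_le_mul_of_nonneg_right ?_ (by positivity)
          rw [div_le_one (by positivity)]
          linarith
      _ = c₁ / 2 := one_mul _
  -- the localised functional is large at some scale
  have hstep : ∀ σ < 0, ∀ (x : E3) (ρ R₀ : ℝ), 0 < R₀ → 2 * ρ ≤ R₀ →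
      c₁ ≤ sqOn (Metric.ball x ρ) (v σ) →
      ∃ R, R₀ ≤ R ∧ R ≤ R₀ * 2 ^ J ∧ c₁ / 2 ≤ Zf (χc x R) (v σ) ^ 2 := by
    intro σ hσ x ρ R₀ hR₀ hρ hc
    obtain ⟨j, hj, hle⟩ := E3f_pigeon (h.l2 σ hσ) x hR₀ hJ
    have h2j : (1 : ℝ) ≤ 2 ^ j := one_le_pow₀ (by norm_num)
    have hR1 : R₀ ≤ R₀ * 2 ^ j := le_mul_of_one_le_right hR₀.le h2j
    have hR0 : 0 < R₀ * 2 ^ j := by positivity
    obtain ⟨hc1, hc2, hc3⟩ := hχc x (R₀ * 2 ^ j) hR0
    refine ⟨R₀ * 2 ^ j, hR1, ?_, ?_⟩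
    · refine mul_le_mul_of_nonneg_left ?_ hR₀.le
      exact pow_le_pow_right₀ (by norm_num) hj.le
    have h1 := hann x (R₀ * 2 ^ j) (χc x (R₀ * 2 ^ j)) hR0 hc1 hc3 (v σ) (h.l2 σ hσ) (h.div σ hσ)
    have h2 : c₁ ≤ sq (sm (χc x (R₀ * 2 ^ j)) (v σ)) := by
      refine hc.trans (E3f_sm_ge (h.l2 σ hσ) hc1.cc hc2 Metric.isOpen_ball.measurableSet ?_)
      intro y hy
      refine hc3 y ?_
      rw [Metric.mem_ball, dist_eq_norm] at hy
      linarith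
    have hEσ := h.energy σ hσ
    have h3 : Real.sqrt (sqOn (Metric.ball x (R₀ * 2 ^ j)) (v σ)) ≤ Real.sqrt E₀ :=
      Real.sqrt_le_sqrt ((E3f_le_sq (h.l2 σ hσ) _).trans hEσ)
    have h4 : Real.sqrt (sqOn (Metric.ball x (R₀ * 2 ^ j) \ Metric.ball x (R₀ * 2 ^ j / 2)) (v σ)) ≤
        Real.sqrt (E₀ / J) := by
      refine Real.sqrt_le_sqrt (hle.trans ?_)
      exact div_le_div_of_nonneg_right hEσ (by positivity)
    have h5 : CA * Real.sqrt (sqOn (Metric.ball x (R₀ * 2 ^ j)) (v σ)) *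
        Real.sqrt (sqOn (Metric.ball x (R₀ * 2 ^ j) \ Metric.ball x (R₀ * 2 ^ j / 2)) (v σ)) ≤
        c₁ / 2 := by
      refine le_trans ?_ hJs
      refine mul_le_mul (mul_le_mul_of_nonneg_left h3 hCA) h4 (Real.sqrt_nonneg _) (by positivity)
    have h6 := (abs_le.1 (h1.trans h5)).1
    linarith
  -- choose the sequence
  have hseq : ∀ k : ℕ, ∃ σ x, σ ∈ Ioo (-1 / ((k : ℝ) + 1)) 0 ∧
      c₁ ≤ sqOn (Metric.ball x (κ * (-σ) ^ (2 / 5 : ℝ))) (v σ) := by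
    intro k
    obtain ⟨σ, hσ, x, hx⟩ := hconc (-1 / ((k : ℝ) + 1))
      (by rw [neg_div]; exact neg_lt_zero.2 (by positivity))
    exact ⟨σ, x, hσ, hx⟩
  choose σ x hσ hx using hseq
  have hσ0 : ∀ k, σ k < 0 := fun k => (hσ k).2
  have hσ1 : ∀ k, -1 < σ k := by
    intro k
    refine lt_of_le_of_lt ?_ (hσ k).1
    rw [neg_div, neg_le_neg_iff, div_le_one (by positivity)]
    have : (0 : ℝ) ≤ k := Nat.cast_nonneg k
    linarith
  have hσt : Tendsto (fun k => (-σ k) ^ (2 / 5 : ℝ)) atTop (𝓝 0) := by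
    have h1 : Tendsto (fun k => -σ k) atTop (𝓝 0) := by
      refine squeeze_zero (fun k => by linarith [hσ0 k]) (fun k => ?_)
        (tendsto_one_div_add_atTop_nhds_zero_nat (𝕜 := ℝ))
      have := (hσ k).1
      rw [neg_div] at this
      linarith
    have h2 := h1.rpow_const (p := (2 / 5 : ℝ)) (Or.inr (by norm_num))
    rwa [Real.zero_rpow (by norm_num)] at h2
  have hσle : ∀ k, (-σ k) ^ (2 / 5 : ℝ) ≤ 1 := fun k =>
    Real.rpow_le_one (by linarith [hσ0 k]) (by linarith [hσ1 k]) (by norm_num)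
  -- boundedness of the centres
  have hbound : ∃ ρ : ℝ, ∀ k, x k ∈ Metric.ball (0 : E3) ρ := by
    set R₀ : ℝ := 2 * κ + 4 * (CF * E₀ * A + 1) / c₁ with hR₀
    have hR₀0 : 0 < R₀ := by positivity
    have hR₀1 : 2 * κ ≤ R₀ := by
      rw [hR₀]
      have : 0 ≤ 4 * (CF * E₀ * A + 1) / c₁ := by positivity
      linarith
    have hR₀2 : CF / R₀ * E₀ * A ≤ c₁ / 4 := by
      have e : CF / R₀ * E₀ * A = CF * E₀ * A / R₀ := by ring
      rw [e, div_le_iff₀ hR₀0]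
      have h1 : 4 * (CF * E₀ * A + 1) / c₁ ≤ R₀ := by
        rw [hR₀]; linarith
      have h2 : c₁ / 4 * (4 * (CF * E₀ * A + 1) / c₁) ≤ c₁ / 4 * R₀ :=
        mul_le_mul_of_nonneg_left h1 (by positivity)
      have h3 : c₁ / 4 * (4 * (CF * E₀ * A + 1) / c₁) = CF * E₀ * A + 1 := by
        field_simp
      linarith
    set c₂ : ℝ := c₁ / 4 / (CZ ^ 2 + 1) with hc₂
    have hc₂0 : 0 < c₂ := by positivity
    obtain ⟨n, hn⟩ := E3f_tail (h.l2 (-1) (by norm_num)) hc₂0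
    refine ⟨n + R₀ * 2 ^ J, fun k => ?_⟩
    obtain ⟨R, hR1, hR2, hR3⟩ := hstep (σ k) (hσ0 k) (x k) _ R₀ hR₀0
      (le_trans (by
        have := mul_le_mul_of_nonneg_left (hσle k) hκ.le
        linarith) hR₀1) (hx k)
    have hR0 : 0 < R := hR₀0.trans_le hR1
    obtain ⟨hc1, hc2, hc3⟩ := hχc (x k) R hR0
    have h1 := hFI (x k) R (χc (x k) R) hR0 hc1 C₁ C₂ C₃ E₀ A v h hbd (-1) (σ k) (hσ1 k).le (hσ0 k)
    have h2 : CF / R * E₀ * A * ((- -1 : ℝ) ^ (2 / 5 : ℝ) - (-σ k) ^ (2 / 5 : ℝ)) ≤ c₁ / 4 := by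
      have e1 : ((- -1 : ℝ) ^ (2 / 5 : ℝ)) = 1 := by norm_num
      rw [e1]
      have e2 : CF / R * E₀ * A ≤ CF / R₀ * E₀ * A := by
        have : CF / R ≤ CF / R₀ := div_le_div_of_nonneg_left hCF hR₀0 hR1
        gcongr
      have e3 : (0 : ℝ) ≤ (-σ k) ^ (2 / 5 : ℝ) := Real.rpow_nonneg (by linarith [hσ0 k]) _
      have e4 : 0 ≤ CF / R * E₀ * A := by positivity
      calc CF / R * E₀ * A * (1 - (-σ k) ^ (2 / 5 : ℝ)) ≤ CF / R * E₀ * A * 1 :=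
            mul_le_mul_of_nonneg_left (by linarith) e4
        _ ≤ c₁ / 4 := by rw [mul_one]; exact e2.trans hR₀2
    have h3 : c₁ / 4 ≤ Zf (χc (x k) R) (v (-1)) ^ 2 := by
      have := (abs_le.1 (h1.trans h2)).2
      linarith
    have h4 := hZle (x k) R (χc (x k) R) hR0 hc1 (v (-1)) (h.l2 (-1) (by norm_num))
    have h5 : Zf (χc (x k) R) (v (-1)) ^ 2 ≤
        CZ ^ 2 * sqOn (Metric.ball (x k) R) (v (-1)) := by
      have hz := Zf_nonneg (χc (x k) R) hc1.cc (h.l2 (-1) (by norm_num))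
      calc Zf (χc (x k) R) (v (-1)) ^ 2
          ≤ (CZ * Real.sqrt (sqOn (Metric.ball (x k) R) (v (-1)))) ^ 2 :=
            pow_le_pow_left₀ hz h4 2
        _ = CZ ^ 2 * sqOn (Metric.ball (x k) R) (v (-1)) := by
            rw [mul_pow, Real.sq_sqrt (E3f_nonneg _ _)]
    by_contra hcon
    rw [Metric.mem_ball, dist_zero_right, not_lt] at hcon
    have h6 : Metric.ball (x k) R ⊆ (Metric.ball (0 : E3) n)ᶜ := by
      intro y hy hy'
      rw [Metric.mem_ball, dist_eq_norm] at hy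
      rw [Metric.mem_ball, dist_zero_right] at hy'
      have : ‖x k‖ ≤ ‖y‖ + ‖y - x k‖ := by
        have := norm_sub_norm_le (x k) y
        rw [norm_sub_rev] at this
        linarith
      linarith
    have h7 := E3f_mono (h.l2 (-1) (by norm_num)) h6
    have h8 : c₁ / 4 ≤ CZ ^ 2 * sqOn (Metric.ball (0 : E3) n)ᶜ (v (-1)) :=
      h3.trans (h5.trans (mul_le_mul_of_nonneg_left h7 (by positivity)))
    have h9 : CZ ^ 2 * sqOn (Metric.ball (0 : E3) n)ᶜ (v (-1)) ≤ CZ ^ 2 * c₂ :=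
      mul_le_mul_of_nonneg_left hn.le (by positivity)
    have h10 : CZ ^ 2 * c₂ < c₁ / 4 := by
      rw [hc₂, mul_div_assoc', div_lt_iff₀ (by positivity)]
      nlinarith [sq_nonneg CZ]
    linarith
  obtain ⟨ρ, hρ⟩ := hbound
  obtain ⟨x₀, -, φ, hφ, hlim⟩ := tendsto_subseq_of_bounded Metric.isBounded_ball hρ
  refine ⟨x₀, c₁ / 4, by positivity, fun χ hχ h01 hone m hm => ?_⟩
  obtain ⟨r, hr, hone'⟩ := Metric.eventually_nhds_iff.1 hone
  set R₀ : ℝ := r / (2 * 2 ^ J) with hR₀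
  have hR₀0 : 0 < R₀ := by positivity
  have hR₀J : R₀ * 2 ^ J = r / 2 := by rw [hR₀]; field_simp
  have hσφ : Tendsto (fun k => (-σ (φ k)) ^ (2 / 5 : ℝ)) atTop (𝓝 0) := hσt.comp hφ.tendsto_atTop
  -- eventually everything is small
  have ev1 : ∀ᶠ k in atTop, ‖x (φ k) - x₀‖ < r / 2 := by
    have := (Metric.tendsto_nhds.1 hlim) (r / 2) (by positivity)
    refine this.mono fun k hk => ?_
    rwa [dist_eq_norm] at hk
  have ev2 : ∀ᶠ k in atTop, 2 * (κ * (-σ (φ k)) ^ (2 / 5 : ℝ)) < R₀ := by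
    have h1 : Tendsto (fun k => 2 * (κ * (-σ (φ k)) ^ (2 / 5 : ℝ))) atTop (𝓝 0) := by
      simpa using (hσφ.const_mul κ).const_mul 2
    exact h1.eventually (gt_mem_nhds hR₀0)
  have ev3 : ∀ᶠ k in atTop, CF / R₀ * E₀ * A * (-σ (φ k)) ^ (2 / 5 : ℝ) < c₁ / 4 := by
    have h1 : Tendsto (fun k => CF / R₀ * E₀ * A * (-σ (φ k)) ^ (2 / 5 : ℝ)) atTop (𝓝 0) := by
      simpa using hσφ.const_mul (CF / R₀ * E₀ * A)
    exact h1.eventually (gt_mem_nhds (by positivity))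
  obtain ⟨k, hk1, hk2, hk3⟩ := (ev1.and (ev2.and ev3)).exists
  obtain ⟨R, hR1, hR2, hR3⟩ := hstep (σ (φ k)) (hσ0 _) (x (φ k)) _ R₀ hR₀0 hk2.le (hx (φ k))
  have hR0 : 0 < R := hR₀0.trans_le hR1
  rw [hR₀J] at hR2
  obtain ⟨hc1, hc2, hc3⟩ := hχc (x (φ k)) R hR0
  obtain ⟨m', hm'0, hm'1, hm'2⟩ := exists_limit h hc1.cc
  -- lower bound for m'
  have hm'ge : c₁ / 4 ≤ m' := by
    refine ge_of_tendsto hm'1 ?_
    have hev : ∀ᶠ s in 𝓝[<] (0 : ℝ), s ∈ Ioo (σ (φ k)) 0 :=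
      Ioo_mem_nhdsLT (hσ0 (φ k))
    refine hev.mono fun t ht => ?_
    have h1 := hFI (x (φ k)) R (χc (x (φ k)) R) hR0 hc1 C₁ C₂ C₃ E₀ A v h hbd (σ (φ k)) t
      ht.1.le ht.2
    have e2 : CF / R * E₀ * A ≤ CF / R₀ * E₀ * A := by
      have : CF / R ≤ CF / R₀ := div_le_div_of_nonneg_left hCF hR₀0 hR1
      gcongr
    have e3 : (0 : ℝ) ≤ (-t) ^ (2 / 5 : ℝ) := Real.rpow_nonneg (by linarith [ht.2]) _
    have e5 : (0 : ℝ) ≤ (-σ (φ k)) ^ (2 / 5 : ℝ) := Real.rpow_nonneg (by linarith [hσ0 (φ k)]) _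
    have e4 : 0 ≤ CF / R * E₀ * A := by positivity
    have h2 : CF / R * E₀ * A * ((-σ (φ k)) ^ (2 / 5 : ℝ) - (-t) ^ (2 / 5 : ℝ)) ≤ c₁ / 4 := by
      calc CF / R * E₀ * A * ((-σ (φ k)) ^ (2 / 5 : ℝ) - (-t) ^ (2 / 5 : ℝ))
          ≤ CF / R * E₀ * A * (-σ (φ k)) ^ (2 / 5 : ℝ) :=
            mul_le_mul_of_nonneg_left (by linarith) e4
        _ ≤ CF / R₀ * E₀ * A * (-σ (φ k)) ^ (2 / 5 : ℝ) := mul_le_mul_of_nonneg_right e2 e5
        _ ≤ c₁ / 4 := hk3.le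
    have h3 := (abs_le.1 (h1.trans h2)).1
    linarith
  refine hm'ge.trans (le_of_tendsto_of_tendsto hm'2 hm ?_)
  have hev : ∀ᶠ s in 𝓝[<] (0 : ℝ), s < 0 := self_mem_nhdsWithin
  refine hev.mono fun s hs => ?_
  refine E3f_sm_mono (h.l2 s hs) hc1.cc hc2 hχ h01 fun y => ?_
  by_cases hy : R ≤ ‖y - x (φ k)‖
  · rw [hc1.supp y hy]
    exact (h01 y).1
  · push Not at hy
    have h1 : dist y x₀ < r := by
      rw [dist_eq_norm]
      calc ‖y - x₀‖ = ‖(y - x (φ k)) + (x (φ k) - x₀)‖ := by rw [sub_add_sub_cancel]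
        _ ≤ ‖y - x (φ k)‖ + ‖x (φ k) - x₀‖ := norm_add_le _ _
        _ < r := by linarith
    rw [hone' h1]
    exact (hc2 y).2

end Pool.Agent.Helper60.EC
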