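import Pool.Agent.Helper60.EC.E4a

/-! Project EC, E4b: compactness of the class Anc -/

set_option autoImplicit false

open MeasureTheory Set Filter Topology
open scoped ENNReal ContDiff

noncomputable section

namespace Pool.Agent.Helper60.EC

open Pool.Agent.Helper52.NSE (E3 pd divg TestField)

variable {C₁ C₂ C₃ E₀ : ℝ}

/-- `sq` and the `L²` norm -/
theorem E4b_eLpNorm {f : E3 → E3} (hf : MemLp f 2 volume) :
    eLpNorm f 2 volume = ENNReal.ofReal (Real.sqrt (sq f)) := by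
  rw [hf.eLpNorm_eq_integral_rpow_norm (by norm_num) (by norm_num)]
  congr 1
  rw [Real.sqrt_eq_rpow]
  unfold sq
  norm_num

/-- Fatou's lemma -/
theorem E4b_fatou {f : ℕ → E3 → E3} {f' : E3 → E3} {E : ℝ} (hf : ∀ n, MemLp (f n) 2 volume)
    (hE : ∀ n, sq (f n) ≤ E) (hlim : ∀ x, Tendsto (fun n => f n x) atTop (𝓝 (f' x))) :
    MemLp f' 2 volume ∧ sq f' ≤ E := by
  have h1 : eLpNorm f' 2 volume ≤ atTop.liminf fun n => eLpNorm (f n) 2 volume :=
    Lp.eLpNorm_lim_le_liminf_eLpNorm (fun n => (hf n).1) f' (Eventually.of_forall hlim)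
  have h2 : (atTop.liminf fun n => eLpNorm (f n) 2 volume) ≤ ENNReal.ofReal (Real.sqrt E) := by
    refine liminf_le_of_le (by isBoundedDefault) fun b hb => ?_
    obtain ⟨n, hn⟩ := hb.exists
    refine hn.trans ?_
    rw [E4b_eLpNorm (hf n)]
    exact ENNReal.ofReal_le_ofReal (Real.sqrt_le_sqrt (hE n))
  have hm : MemLp f' 2 volume :=
    ⟨aestronglyMeasurable_of_tendsto_ae atTop (fun n => (hf n).1) (Eventually.of_forall hlim),
      (h1.trans h2).trans_lt ENNReal.ofReal_lt_top⟩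
  refine ⟨hm, ?_⟩
  have h3 := h1.trans h2
  rw [E4b_eLpNorm hm, ENNReal.ofReal_le_ofReal_iff (Real.sqrt_nonneg _)] at h3
  have h0 : 0 ≤ E := (integral_nonneg fun x => by positivity : 0 ≤ sq (f 0)).trans (hE 0)
  exact (Real.sqrt_le_sqrt_iff h0).1 h3

/-- limits of pairings -/
theorem E4b_ip {f : ℕ → E3 → E3} {f' φ : E3 → E3} {M : ℝ}
    (hf : ∀ n, AEStronglyMeasurable (f n) volume) (hb : ∀ n x, ‖f n x‖ ≤ M)
    (hlim : ∀ x, Tendsto (fun n => f n x) atTop (𝓝 (f' x))) (hφ : Cc φ) :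
    Tendsto (fun n => ip (f n) φ) atTop (𝓝 (ip f' φ)) := by
  unfold ip
  have hi : Integrable φ volume := memLp_one_iff_integrable.1 (cc_memLp hφ 1)
  refine tendsto_integral_of_dominated_convergence (fun x => M * ‖φ x‖)
    (fun n => (hf n).inner hi.1) (hi.norm.const_mul M) (fun n => ?_) ?_
  · refine Eventually.of_forall fun x => (norm_inner_le_norm _ _).trans ?_
    exact mul_le_mul_of_nonneg_right (hb n x) (norm_nonneg _)
  · exact Eventually.of_forall fun x => (hlim x).inner tendsto_const_nhds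

theorem E4b_nl_bound {φ : E3 → E3} {M : ℝ} {a : E3} (ha : ‖a‖ ≤ M) (x : E3) :
    ‖∑ i, a i * inner ℝ a (D i φ x)‖ ≤ M ^ 2 * ∑ i, ‖D i φ x‖ := by
  have hM : 0 ≤ M := (norm_nonneg _).trans ha
  rw [Finset.mul_sum]
  refine (norm_sum_le _ _).trans (Finset.sum_le_sum fun i _ => ?_)
  rw [norm_mul]
  have h1 : ‖a i‖ ≤ M := (PiLp.norm_apply_le a i).trans ha
  have h2 : ‖(inner ℝ a (D i φ x) : ℝ)‖ ≤ M * ‖D i φ x‖ :=
    (norm_inner_le_norm _ _).trans (mul_le_mul_of_nonneg_right ha (norm_nonneg _))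
  calc ‖a i‖ * ‖(inner ℝ a (D i φ x) : ℝ)‖ ≤ M * (M * ‖D i φ x‖) :=
        mul_le_mul h1 h2 (norm_nonneg _) hM
    _ = M ^ 2 * ‖D i φ x‖ := by ring

theorem E4b_nl_meas {φ f : E3 → E3} (hφ : Cc φ) (hf : AEStronglyMeasurable f volume) :
    AEStronglyMeasurable (fun x => ∑ i, (f x) i * inner ℝ (f x) (D i φ x)) volume := by
  refine Finset.aestronglyMeasurable_fun_sum _ fun i _ => ?_
  refine AEStronglyMeasurable.mul ?_ (hf.inner (cc_memLp (cc_D hφ i) 1).1)
  exact (EuclideanSpace.proj (𝕜 := ℝ) i : E3 →L[ℝ] ℝ).continuous.comp_aestronglyMeasurable hf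

theorem E4b_nl_int {φ : E3 → E3} (hφ : Cc φ) (M : ℝ) :
    Integrable (fun x => M ^ 2 * ∑ i, ‖D i φ x‖) volume := by
  refine Integrable.const_mul (integrable_finsetSum _ fun i _ => ?_) _
  exact (memLp_one_iff_integrable.1 (cc_memLp (cc_D hφ i) 1)).norm

/-- limits of the nonlinear term -/
theorem E4b_nl {f : ℕ → E3 → E3} {f' φ : E3 → E3} {M : ℝ}
    (hf : ∀ n, AEStronglyMeasurable (f n) volume) (hb : ∀ n x, ‖f n x‖ ≤ M)
    (hlim : ∀ x, Tendsto (fun n => f n x) atTop (𝓝 (f' x))) (hφ : Cc φ) :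
    Tendsto (fun n => nl φ (f n)) atTop (𝓝 (nl φ f')) := by
  unfold nl
  refine tendsto_integral_of_dominated_convergence (fun x => M ^ 2 * ∑ i, ‖D i φ x‖)
    (fun n => E4b_nl_meas hφ (hf n)) (E4b_nl_int hφ M) (fun n => ?_) ?_
  · exact Eventually.of_forall fun x => E4b_nl_bound (hb n x) x
  · refine Eventually.of_forall fun x => tendsto_finsetSum _ fun i _ => ?_
    refine Tendsto.mul ?_ ((hlim x).inner tendsto_const_nhds)
    exact ((EuclideanSpace.proj (𝕜 := ℝ) i : E3 →L[ℝ] ℝ).continuous.tendsto _).comp (hlim x)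

/-- the sup bound on `(-∞, t]` -/
theorem E4b_sup (C₁ E₀ : ℝ) {t : ℝ} (ht : t < 0) : ∃ M : ℝ, 0 ≤ M ∧
    ∀ (C₂ C₃ : ℝ) (v : ℝ → E3 → E3), Anc C₁ C₂ C₃ E₀ v → ∀ s ≤ t, ∀ x, ‖v s x‖ ≤ M := by
  obtain ⟨A, hA, h⟩ := Anc_sup C₁ E₀
  refine ⟨A * (-t) ^ (-(3 / 5) : ℝ), ?_, fun C₂ C₃ v hv s hs x => ?_⟩
  · exact mul_nonneg hA.le (Real.rpow_nonneg (by linarith) _)
  · refine (h C₂ C₃ v hv s (by linarith) x).trans (mul_le_mul_of_nonneg_left ?_ hA.le)
    exact Real.rpow_le_rpow_of_nonpos (by linarith) (by linarith) (by norm_num)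

/-- continuity of the nonlinear term in time -/
theorem E4b_nl_cont {v : ℝ → E3 → E3} (h : Anc C₁ C₂ C₃ E₀ v) {φ : E3 → E3} (hφ : Cc φ) {t : ℝ}
    (ht : t < 0) : ContinuousOn (fun τ => nl φ (v τ)) (Iic t) := by
  obtain ⟨M, hM, hsup⟩ := E4b_sup C₁ E₀ ht
  unfold nl
  refine continuousOn_of_dominated (bound := fun x => M ^ 2 * ∑ i, ‖D i φ x‖)
    (fun s hs => E4b_nl_meas hφ (h.l2 s (lt_of_le_of_lt hs ht)).1) (fun s hs => ?_)
    (E4b_nl_int hφ M) ?_
  · exact Eventually.of_forall fun x => E4b_nl_bound (hsup C₂ C₃ v h s hs x) x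
  · refine Eventually.of_forall fun x => ?_
    have h1 : ContinuousOn (fun s => v s x) (Iic t) := by
      have h2 : ContinuousOn (fun s : ℝ => (s, x)) (Iic t) := by fun_prop
      exact h.cont.comp h2 fun s hs => ⟨lt_of_le_of_lt hs ht, mem_univ _⟩
    refine continuousOn_finsetSum _ fun i _ => ContinuousOn.mul ?_ (h1.inner continuousOn_const)
    exact (EuclideanSpace.proj (𝕜 := ℝ) i : E3 →L[ℝ] ℝ).continuous.comp_continuousOn h1

/-- pointwise limits of fields in the class are in the class -/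
theorem E4b_limit {w : ℕ → ℝ → E3 → E3} (h : ∀ n, Anc C₁ C₂ C₃ E₀ (w n)) {v' : ℝ → E3 → E3}
    (hlim : ∀ s < 0, ∀ x, Tendsto (fun n => w n s x) atTop (𝓝 (v' s x))) :
    Anc C₁ C₂ C₃ E₀ v' where
  lip := fun s hs x y => by
    refine le_of_tendsto ((hlim s hs x).sub (hlim s hs y)).norm ?_
    exact Eventually.of_forall fun n => (h n).lip s hs x y
  l2 := fun s hs => (E4b_fatou (fun n => (h n).l2 s hs) (fun n => (h n).energy s hs) (hlim s hs)).1
  energy := fun s hs =>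
    (E4b_fatou (fun n => (h n).l2 s hs) (fun n => (h n).energy s hs) (hlim s hs)).2
  div := fun s hs φ hφ => by
    obtain ⟨M, hM, hsup⟩ := E4b_sup C₁ E₀ hs
    have h1 := E4b_ip (fun n => ((h n).l2 s hs).1) (fun n x => hsup C₂ C₃ (w n) (h n) s le_rfl x)
      (hlim s hs) (cc_grad hφ)
    have h2 : ∀ n, ip (w n s) (grad φ) = 0 := fun n => (h n).div s hs φ hφ
    simp only [h2] at h1
    exact (tendsto_nhds_unique h1 tendsto_const_nhds)
  grad := fun s hs y => by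
    refine (E4b_fatou (f := fun n x => w n s (x + y) - w n s x) (fun n => ?_)
      (fun n => (h n).grad s hs y) fun x => (hlim s hs (x + y)).sub (hlim s hs x)).2
    exact (((h n).l2 s hs).comp_measurePreserving (measurePreserving_add_right volume y)).sub
      ((h n).l2 s hs)
  time := fun s t hst ht => by
    refine (E4b_fatou (f := fun n x => w n t x - w n s x) (fun n => ?_)
      (fun n => (h n).time s t hst ht) fun x => (hlim t ht x).sub (hlim s (hst.trans ht) x)).2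
    exact ((h n).l2 t ht).sub ((h n).l2 s (hst.trans ht))
  eqn := fun φ hφ s t hst ht => by
    have hs : s < 0 := hst.trans ht
    obtain ⟨M, hM, hsup⟩ := E4b_sup C₁ E₀ ht
    have hcφ : Cc φ := ⟨hφ.smooth, hφ.compact⟩
    have h1 := E4b_ip (fun n => ((h n).l2 s hs).1)
      (fun n x => hsup C₂ C₃ (w n) (h n) s hst.le x) (hlim s hs) hcφ
    have h2 := E4b_ip (fun n => ((h n).l2 t ht).1)
      (fun n x => hsup C₂ C₃ (w n) (h n) t le_rfl x) (hlim t ht) hcφ
    have h3 := h2.sub h1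
    have h4 : ∀ n, ip (w n t) φ - ip (w n s) φ = ∫ τ in s..t, nl φ (w n τ) :=
      fun n => (h n).eqn φ hφ s t hst ht
    simp only [h4] at h3
    refine tendsto_nhds_unique h3 ?_
    refine intervalIntegral.tendsto_integral_filter_of_dominated_convergence
      (fun _ => ∫ x, M ^ 2 * ∑ i, ‖D i φ x‖) ?_ ?_ ?_ ?_
    · refine Eventually.of_forall fun n => ?_
      rw [uIoc_of_le hst.le]
      refine ContinuousOn.aestronglyMeasurable ?_ measurableSet_Ioc
      exact (E4b_nl_cont (h n) hcφ ht).mono fun τ hτ => hτ.2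
    · refine Eventually.of_forall fun n => Eventually.of_forall fun τ hτ => ?_
      rw [uIoc_of_le hst.le] at hτ
      refine norm_integral_le_of_norm_le (E4b_nl_int hcφ M) ?_
      exact Eventually.of_forall fun x => E4b_nl_bound (hsup C₂ C₃ (w n) (h n) τ hτ.2 x) x
    · exact intervalIntegrable_const
    · refine Eventually.of_forall fun τ hτ => ?_
      rw [uIoc_of_le hst.le] at hτ
      have hτ0 : τ < 0 := lt_of_le_of_lt hτ.2 ht
      exact E4b_nl (fun n => ((h n).l2 τ hτ0).1)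
        (fun n x => hsup C₂ C₃ (w n) (h n) τ hτ.2 x) (hlim τ hτ0) hcφ
  zero := fun φ hφ => by
    have hcφ : Cc φ := ⟨hφ.smooth, hφ.compact⟩
    obtain ⟨M, hM⟩ : ∃ M : ℝ, ∀ x, ∑ i, ‖D i φ x‖ ≤ M := by
      have h1 : ∀ i : Fin 3, ∃ C : ℝ, ∀ x, ‖D i φ x‖ ≤ C := fun i =>
        (cc_D hcφ i).comp.exists_bound_of_continuous (cc_D hcφ i).smooth.continuous
      choose C hC using h1
      exact ⟨∑ i, C i, fun x => Finset.sum_le_sum fun i _ => hC i x⟩
    have h2 : ∀ s < 0, |ip (v' s) φ| ≤ M * E₀ * (-s) := by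
      intro s hs
      obtain ⟨A, hA, hsup⟩ := E4b_sup C₁ E₀ hs
      have h3 := E4b_ip (fun n => ((h n).l2 s hs).1)
        (fun n x => hsup C₂ C₃ (w n) (h n) s le_rfl x) (hlim s hs) hcφ
      refine le_of_tendsto h3.abs ?_
      exact Eventually.of_forall fun n => (h n).zero_rate φ hφ M hM hs
    rw [tendsto_zero_iff_abs_tendsto_zero]
    have h5 : Tendsto (fun s : ℝ => M * E₀ * (-s)) (𝓝[<] 0) (𝓝 0) := by
      have h6 : Continuous fun s : ℝ => M * E₀ * (-s) := by fun_prop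
      have h7 := h6.tendsto 0
      rw [neg_zero, mul_zero] at h7
      exact h7.mono_left nhdsWithin_le_nhds
    refine squeeze_zero' (Eventually.of_forall fun s => abs_nonneg _) ?_ h5
    filter_upwards [self_mem_nhdsWithin] with s hs
    exact h2 s hs

/-- convergence of the localised energies -/
theorem E4b_Zf {w : ℕ → ℝ → E3 → E3} (h : ∀ n, Anc C₁ C₂ C₃ E₀ (w n)) {v' : ℝ → E3 → E3}
    (hlim : ∀ s < 0, ∀ x, Tendsto (fun n => w n s x) atTop (𝓝 (v' s x))) {χ : E3 → ℝ}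
    (hχ : Cc χ) {s : ℝ} (hs : s < 0) :
    Tendsto (fun n => Zf χ (w n s)) atTop (𝓝 (Zf χ (v' s))) := by
  have hv' := E4b_limit h hlim
  obtain ⟨R, K, hR, hK, hcut⟩ := cut_of_cc hχ 0
  obtain ⟨C, hC, hZ⟩ := Zf_abs_sub_le K
  obtain ⟨M, hM, hsup⟩ := E4b_sup C₁ E₀ hs
  have h1 : Tendsto (fun n => sqOn (Metric.ball (0 : E3) R) (fun x => w n s x - v' s x)) atTop
      (𝓝 0) := by
    have h2 : Tendsto (fun n => ∫ x in Metric.ball (0 : E3) R, ‖w n s x - v' s x‖ ^ 2) atTop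
        (𝓝 (∫ x in Metric.ball (0 : E3) R, (0 : ℝ))) := by
      refine tendsto_integral_of_dominated_convergence (fun _ => (2 * M) ^ 2) (fun n => ?_) ?_
        (fun n => ?_) ?_
      · exact ((((h n).l2 s hs).1.sub (hv'.l2 s hs).1).norm.pow 2).restrict
      · exact integrableOn_const (measure_ball_lt_top.ne)
      · refine Eventually.of_forall fun x => ?_
        rw [Real.norm_of_nonneg (by positivity)]
        refine pow_le_pow_left₀ (norm_nonneg _) ?_ 2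
        have := hsup C₂ C₃ (w n) (h n) s le_rfl x
        have := hsup C₂ C₃ v' hv' s le_rfl x
        have := norm_sub_le (w n s x) (v' s x)
        linarith
      · refine Eventually.of_forall fun x => ?_
        have h3 := ((hlim s hs x).sub_const (v' s x)).norm.pow 2
        rwa [sub_self, norm_zero, zero_pow two_ne_zero] at h3
    rw [integral_zero] at h2
    exact h2
  have h4 : Tendsto (fun n => C * Real.sqrt (sqOn (Metric.ball (0 : E3) R)
      (fun x => w n s x - v' s x))) atTop (𝓝 0) := by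
    have h5 := (h1.sqrt).const_mul C
    rwa [Real.sqrt_zero, mul_zero] at h5
  rw [tendsto_iff_dist_tendsto_zero]
  refine squeeze_zero (fun n => dist_nonneg) (fun n => ?_) h4
  rw [Real.dist_eq]
  exact hZ 0 R χ hR hcut _ _ ((h n).l2 s hs) (hv'.l2 s hs)

/-- equicontinuity in time -/
theorem E4b_time (C₁ C₃ : ℝ) : ∃ C : ℝ, 0 < C ∧ ∀ (C₂ E₀ : ℝ) (v : ℝ → E3 → E3),
    Anc C₁ C₂ C₃ E₀ v → ∀ s t : ℝ, s < 0 → t < 0 → ∀ x,
      ‖v t x - v s x‖ ^ 5 ≤ C * |t - s| / (min (-s) (-t)) ^ 4 := by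
  obtain ⟨C, hC, h⟩ := Anc_time C₁ C₃
  refine ⟨C, hC, fun C₂ E₀ v hv s t hs ht x => ?_⟩
  rcases lt_trichotomy s t with hst | hst | hst
  · rw [min_eq_right (by linarith), abs_of_pos (by linarith)]
    exact h C₂ E₀ v hv s t hst ht x
  · subst hst
    simp
  · rw [min_eq_left (by linarith), abs_of_neg (by linarith), norm_sub_rev, neg_sub]
    exact h C₂ E₀ v hv t s hst hs x

/-- the subsequence -/
theorem E4b_subseq (v : ℕ → ℝ → E3 → E3) (h : ∀ n, Anc C₁ C₂ C₃ E₀ (v n)) :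
    ∃ φ : ℕ → ℕ, StrictMono φ ∧ ∃ v' : ℝ → E3 → E3,
      ∀ s < 0, ∀ x, Tendsto (fun n => v (φ n) s x) atTop (𝓝 (v' s x)) := by
  obtain ⟨A, hA, hsup⟩ := Anc_sup C₁ E₀
  obtain ⟨C, hC, htime⟩ := E4b_time C₁ C₃
  obtain ⟨φ, hφ, g, hg⟩ := exists_subseq (X := {s : ℝ // s < 0} × E3)
    (fun n p => v n p.1 p.2)
    (fun p => ⟨A * (-(p.1 : ℝ)) ^ (-(3 / 5) : ℝ),
      fun n => hsup C₂ C₃ (v n) (h n) p.1 p.1.2 p.2⟩) (by
    rintro ⟨⟨s, hs⟩, x⟩ ε hε
    have hF : Continuous fun p : {s : ℝ // s < 0} × E3 => C₁ / (-(p.1 : ℝ)) * ‖p.2 - x‖ := by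
      refine Continuous.mul (continuous_const.div (by fun_prop) fun p => ?_) (by fun_prop)
      have := p.1.2
      linarith
    have hG : Continuous fun p : {s : ℝ // s < 0} × E3 =>
        C * |(p.1 : ℝ) - s| / (min (-s) (-(p.1 : ℝ))) ^ 4 := by
      refine Continuous.div (by fun_prop) (by fun_prop) fun p => ?_
      have := p.1.2
      have h1 : 0 < min (-s) (-(p.1 : ℝ)) := lt_min (by linarith) (by linarith)
      positivity
    have hF0 := (hF.tendsto (⟨s, hs⟩, x)).eventually_lt_const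
      (show C₁ / (-(((⟨s, hs⟩ : {s : ℝ // s < 0}) : ℝ))) * ‖x - x‖ < ε / 2 by simp; linarith)
    have hG0 := (hG.tendsto (⟨s, hs⟩, x)).eventually_lt_const
      (show C * |((⟨s, hs⟩ : {s : ℝ // s < 0}) : ℝ) - s| /
        (min (-s) (-((⟨s, hs⟩ : {s : ℝ // s < 0}) : ℝ))) ^ 4 < (ε / 2) ^ 5 by simp; positivity)
    refine ⟨_, hF0.and hG0, 0, fun n _ p hp => ?_⟩
    obtain ⟨h1, h2⟩ := hp
    have h3 := (h n).lip p.1 p.1.2 p.2 x
    have h4 := htime C₂ E₀ (v n) (h n) s p.1 hs p.1.2 x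
    have h5 : ‖v n p.1 x - v n s x‖ ≤ ε / 2 :=
      (lt_of_pow_lt_pow_left₀ 5 (by linarith) (h4.trans_lt h2)).le
    calc ‖v n p.1 p.2 - v n s x‖
        = ‖(v n p.1 p.2 - v n p.1 x) + (v n p.1 x - v n s x)‖ := by congr 1; abel
      _ ≤ ‖v n p.1 p.2 - v n p.1 x‖ + ‖v n p.1 x - v n s x‖ := norm_add_le _ _
      _ ≤ ε := by linarith)
  refine ⟨φ, hφ, fun s x => if hs : s < 0 then g (⟨s, hs⟩, x) else 0, fun s hs x => ?_⟩
  have := hg (⟨s, hs⟩, x)
  simpa [hs] using this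

/-- compactness -/
theorem Anc.compact (v : ℕ → ℝ → E3 → E3) (h : ∀ n, Anc C₁ C₂ C₃ E₀ (v n)) :
    ∃ φ : ℕ → ℕ, StrictMono φ ∧ ∃ v' : ℝ → E3 → E3, Anc C₁ C₂ C₃ E₀ v' ∧
      (∀ s < 0, ∀ x, Tendsto (fun n => v (φ n) s x) atTop (𝓝 (v' s x))) ∧
      ∀ χ : E3 → ℝ, Cc χ → ∀ s < 0, Tendsto (fun n => Zf χ (v (φ n) s)) atTop (𝓝 (Zf χ (v' s))) := by
  obtain ⟨φ, hφ, v', hv'⟩ := E4b_subseq v h
  exact ⟨φ, hφ, v', E4b_limit (fun n => h (φ n)) hv', hv',
    fun χ hχ s hs => E4b_Zf (fun n => h (φ n)) hv' hχ hs⟩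

end Pool.Agent.Helper60.EC
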