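import Pool.Agent.Helper60.EC.Z0b

/-! Project EC, Z0c: nested cutoffs, scaling of Zf -/

set_option autoImplicit false

open MeasureTheory Set Filter Topology
open scoped ENNReal ContDiff

noncomputable section

namespace Pool.Agent.Helper60.EC

open Pool.Agent.Helper52.NSE (E3 pd divg TestField)

variable {χ : E3 → ℝ} {w w' ψ : E3 → E3}

/-- nested cutoffs -/
theorem Zf_nested {χ χ' : E3 → ℝ} (hχ : Cc χ) (hχ' : Cc χ') {U : Set E3} (hU : IsOpen U)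
    (hs : tsupport χ ⊆ U) (h1 : ∀ x ∈ U, χ' x = 1) :
    ∃ C : ℝ, 0 ≤ C ∧ ∀ w : E3 → E3, MemLp w 2 volume → Zf χ w ≤ C * Zf χ' w := by
  obtain ⟨R, K, hR, hK, hcut⟩ := cut_of_cc hχ 0
  obtain ⟨C, hC, hCs⟩ := sq_curl_sm_le K
  refine ⟨Real.sqrt C, Real.sqrt_nonneg _, ?_⟩
  intro w hw
  have hZ := Zf_nonneg χ' hχ' hw
  refine Zf_le_of_forall hχ hw (mul_nonneg (Real.sqrt_nonneg _) hZ) ?_
  intro ψ hψ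
  have hsm : sm χ' (sm χ ψ) = sm χ ψ := by
    funext x
    unfold sm
    by_cases hx : x ∈ tsupport χ
    · rw [h1 x (hs hx), one_smul]
    · rw [image_eq_zero_of_notMem_tsupport hx, zero_smul, smul_zero]
  have hcc : Cc (sm χ ψ) := cc_sm hχ hψ.smooth
  have h2 := Zf_pair hχ' hw hcc
  rw [hsm] at h2
  have h3 := (hCs 0 R χ hR hcut ψ hψ.smooth (decay_of_cc hψ)).2
  calc ip w (curl (sm χ ψ)) ≤ |ip w (curl (sm χ ψ))| := le_abs_self _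
    _ ≤ Zf χ' w * Real.sqrt (gsq (sm χ ψ)) := h2
    _ ≤ Zf χ' w * Real.sqrt (C * gsq ψ) :=
        mul_le_mul_of_nonneg_left (Real.sqrt_le_sqrt h3) hZ
    _ = Real.sqrt C * Zf χ' w * Real.sqrt (gsq ψ) := by
        rw [Real.sqrt_mul hC]; ring

/-- change of variables -/
theorem Z0c_cv (g : E3 → ℝ) (x₀ : E3) {ρ : ℝ} (hρ : 0 < ρ) :
    ∫ y, g (x₀ + ρ • y) = (ρ ^ 3)⁻¹ * ∫ x, g x := by
  have h1 := Measure.integral_comp_smul (volume : Measure E3) (fun y => g (x₀ + y)) ρ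
  have h2 : ∫ y, g (x₀ + y) = ∫ x, g x := integral_add_left_eq_self g x₀
  rw [h2] at h1
  rw [h1]
  have h3 : Module.finrank ℝ E3 = 3 := by simp
  rw [h3, abs_of_pos (by positivity), smul_eq_mul]

/-- the rescaled test field -/
def Z0cR (x₀ : E3) (c ρ : ℝ) (ψ : E3 → E3) (x : E3) : E3 := c • ψ (ρ⁻¹ • (x - x₀))

theorem Z0c_aff (x₀ : E3) (ρ : ℝ) (x : E3) : ρ⁻¹ • (x - x₀) = (-(ρ⁻¹ • x₀)) + ρ⁻¹ • x := by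
  rw [smul_sub]; abel

theorem Z0cR_cc (x₀ : E3) (c : ℝ) {ρ : ℝ} (hρ : 0 < ρ) (hψ : Cc ψ) : Cc (Z0cR x₀ c ρ ψ) := by
  have hne : ρ ≠ 0 := hρ.ne'
  constructor
  · unfold Z0cR
    exact (hψ.smooth.comp ((contDiff_id.sub contDiff_const).const_smul ρ⁻¹)).const_smul c
  · have h1 : HasCompactSupport fun x : E3 => ψ (ρ⁻¹ • (x - x₀)) := by
      have h2 := hψ.comp.comp_homeomorph
        ((Homeomorph.subRight x₀).trans (Homeomorph.smulOfNeZero ρ⁻¹ (inv_ne_zero hne)))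
      exact h2
    unfold Z0cR
    exact h1.smul_left (f := fun _ => c)

theorem Z0cR_D (x₀ : E3) (c ρ : ℝ) (hψ : Cc ψ) (i : Fin 3) (x : E3) :
    D i (Z0cR x₀ c ρ ψ) x = (c * ρ⁻¹) • D i ψ (ρ⁻¹ • (x - x₀)) := by
  have hd : Differentiable ℝ ψ := hψ.smooth.differentiable (by simp)
  have h1 : Z0cR x₀ c ρ ψ = fun y => c • (fun z => ψ ((-(ρ⁻¹ • x₀)) + ρ⁻¹ • z)) y := by
    funext y
    unfold Z0cR
    rw [Z0c_aff]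
  rw [h1, D_const_smul, D_comp_affine hd, smul_smul, Z0c_aff]
  exact (hd _).comp x ((differentiableAt_id.const_smul ρ⁻¹).const_add _)

theorem Z0cR_curl (x₀ : E3) (c ρ : ℝ) (hψ : Cc ψ) (x : E3) :
    curl (Z0cR x₀ c ρ ψ) x = (c * ρ⁻¹) • curl ψ (ρ⁻¹ • (x - x₀)) := by
  unfold curl
  simp only [Z0cR_D x₀ c ρ hψ]
  ext k
  fin_cases k <;> simp <;> ring

theorem Z0cR_sm (x₀ : E3) (c ρ : ℝ) (χ : E3 → ℝ) (ψ : E3 → E3) :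
    sm (fun x => χ (ρ⁻¹ • (x - x₀))) (Z0cR x₀ c ρ ψ) = Z0cR x₀ c ρ (sm χ ψ) := by
  funext x
  unfold sm Z0cR
  rw [smul_smul, smul_smul, mul_comm]

theorem Z0c_inv (x₀ y : E3) {ρ : ℝ} (hρ : 0 < ρ) : ρ⁻¹ • ((x₀ + ρ • y) - x₀) = y := by
  rw [add_sub_cancel_left, smul_smul, inv_mul_cancel₀ hρ.ne', one_smul]

theorem Z0c_gsq (x₀ : E3) {ρ : ℝ} (hρ : 0 < ρ) (hψ : Cc ψ) :
    gsq (Z0cR x₀ (ρ ^ (-(1 / 2) : ℝ)) ρ ψ) = gsq ψ := by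
  have h1 := Z0c_cv (fun x => ∑ i, ‖D i (Z0cR x₀ (ρ ^ (-(1 / 2) : ℝ)) ρ ψ) x‖ ^ 2) x₀ hρ
  have h2 : ∀ y, (∑ i, ‖D i (Z0cR x₀ (ρ ^ (-(1 / 2) : ℝ)) ρ ψ) (x₀ + ρ • y)‖ ^ 2) =
      (ρ ^ 3)⁻¹ * ∑ i, ‖D i ψ y‖ ^ 2 := by
    intro y
    rw [Finset.mul_sum]
    apply Finset.sum_congr rfl
    intro i _
    rw [Z0cR_D _ _ _ hψ, Z0c_inv x₀ y hρ, norm_smul, mul_pow]
    congr 1
    rw [Real.norm_eq_abs, sq_abs, mul_pow, ← Real.rpow_natCast (ρ ^ (-(1 / 2) : ℝ)) 2,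
      ← Real.rpow_mul hρ.le]
    norm_num
    rw [Real.rpow_neg_one]
    field_simp
  simp only [h2] at h1
  rw [integral_const_mul] at h1
  have h3 : (ρ ^ 3)⁻¹ ≠ 0 := by positivity
  exact (mul_left_cancel₀ h3 h1).symm

theorem Z0c_ip (x₀ : E3) {ρ : ℝ} (hρ : 0 < ρ) (hχ : Cc χ) (w : E3 → E3) (hψ : Cc ψ) :
    ip w (curl (sm (fun x => χ (ρ⁻¹ • (x - x₀))) (Z0cR x₀ (ρ ^ (-(1 / 2) : ℝ)) ρ ψ))) =
    ip (fun y => ρ ^ (3 / 2 : ℝ) • w (x₀ + ρ • y)) (curl (sm χ ψ)) := by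
  rw [Z0cR_sm]
  have hcc : Cc (sm χ ψ) := cc_sm hχ hψ.smooth
  have h1 := Z0c_cv (fun x => inner ℝ (w x) (curl (Z0cR x₀ (ρ ^ (-(1 / 2) : ℝ)) ρ (sm χ ψ)) x))
    x₀ hρ
  have h2 : ∀ y, inner ℝ (w (x₀ + ρ • y))
      (curl (Z0cR x₀ (ρ ^ (-(1 / 2) : ℝ)) ρ (sm χ ψ)) (x₀ + ρ • y)) =
      (ρ ^ 3)⁻¹ * inner ℝ (ρ ^ (3 / 2 : ℝ) • w (x₀ + ρ • y)) (curl (sm χ ψ) y) := by
    intro y
    rw [Z0cR_curl _ _ _ hcc, Z0c_inv x₀ y hρ, real_inner_smul_left, real_inner_smul_right,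
      ← mul_assoc]
    congr 1
    have e1 : ρ⁻¹ = ρ ^ (-1 : ℝ) := by rw [Real.rpow_neg_one]
    have e2 : (ρ ^ 3)⁻¹ = ρ ^ (-3 : ℝ) := by
      rw [Real.rpow_neg hρ.le]; norm_cast
    rw [e1, e2, ← Real.rpow_add hρ, ← Real.rpow_add hρ]
    norm_num
  simp only [h2] at h1
  rw [integral_const_mul] at h1
  have h3 : (ρ ^ 3)⁻¹ ≠ 0 := by positivity
  exact (mul_left_cancel₀ h3 h1).symm

theorem Z0c_back (x₀ : E3) {ρ : ℝ} (hρ : 0 < ρ) (φ : E3 → E3) :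
    Z0cR x₀ (ρ ^ (-(1 / 2) : ℝ)) ρ (Z0cR (-(ρ⁻¹ • x₀)) (ρ ^ (1 / 2 : ℝ)) ρ⁻¹ φ) = φ := by
  funext x
  unfold Z0cR
  have h1 : ρ⁻¹⁻¹ • (ρ⁻¹ • (x - x₀) - -(ρ⁻¹ • x₀)) = x := by
    rw [inv_inv, sub_neg_eq_add, smul_sub, sub_add_cancel, smul_smul, mul_inv_cancel₀ hρ.ne',
      one_smul]
  rw [h1, smul_smul, ← Real.rpow_add hρ]
  norm_num

/-- scaling and translation -/
theorem Zf_scale (hχ : Cc χ) (hw : MemLp w 2 volume) (x₀ : E3) {ρ : ℝ} (hρ : 0 < ρ) :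
    Zf χ (fun y => ρ ^ (3 / 2 : ℝ) • w (x₀ + ρ • y)) = Zf (fun x => χ (ρ⁻¹ • (x - x₀))) w := by
  unfold Zf
  congr 1
  ext z
  constructor
  · rintro ⟨ψ, hψ, hg, rfl⟩
    refine ⟨Z0cR x₀ (ρ ^ (-(1 / 2) : ℝ)) ρ ψ, Z0cR_cc _ _ hρ hψ, ?_, ?_⟩
    · rw [Z0c_gsq x₀ hρ hψ]; exact hg
    · rw [Z0c_ip x₀ hρ hχ w hψ]
  · rintro ⟨φ, hφ, hg, rfl⟩
    have hψ : Cc (Z0cR (-(ρ⁻¹ • x₀)) (ρ ^ (1 / 2 : ℝ)) ρ⁻¹ φ) :=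
      Z0cR_cc _ _ (inv_pos.2 hρ) hφ
    refine ⟨Z0cR (-(ρ⁻¹ • x₀)) (ρ ^ (1 / 2 : ℝ)) ρ⁻¹ φ, hψ, ?_, ?_⟩
    · rw [← Z0c_gsq x₀ hρ hψ, Z0c_back x₀ hρ]; exact hg
    · rw [← Z0c_ip x₀ hρ hχ w hψ, Z0c_back x₀ hρ]

end Pool.Agent.Helper60.EC
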