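import Pool.Agent.Helper60.EC.D1
import Pool.Agent.Helper60.EC.Cpt
import Pool.Agent.Helper60.EC.Z0c

/-! Project EC, E4a: scaling -/

set_option autoImplicit false

open MeasureTheory Set Filter Topology
open scoped ENNReal ContDiff

noncomputable section

namespace Pool.Agent.Helper60.EC

open Pool.Agent.Helper52.NSE (E3 pd divg TestField)

variable {C₁ C₂ C₃ E₀ : ℝ}

theorem E4a_cont {v : ℝ → E3 → E3} (h : Anc C₁ C₂ C₃ E₀ v) {s : ℝ} (hs : s < 0) :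
    Continuous (v s) := by
  have hl : LipschitzWith (Real.toNNReal (C₁ / (-s))) (v s) := by
    refine LipschitzWith.of_dist_le_mul fun x y => ?_
    rw [dist_eq_norm, dist_eq_norm]
    exact (h.lip s hs x y).trans
      (mul_le_mul_of_nonneg_right (Real.le_coe_toNNReal _) (norm_nonneg _))
  exact hl.continuous

/-- the rescaled field -/
def E4aT (x₀ : E3) (ρ : ℝ) (w : E3 → E3) (y : E3) : E3 := ρ ^ (3 / 2 : ℝ) • w (x₀ + ρ • y)

theorem E4a_p3 {ρ : ℝ} (hρ : 0 < ρ) : (ρ ^ (3 / 2 : ℝ)) * (ρ ^ (3 / 2 : ℝ)) = ρ ^ 3 := by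
  rw [← Real.rpow_add hρ, ← Real.rpow_natCast]
  norm_num

theorem E4aT_sq (x₀ : E3) {ρ : ℝ} (hρ : 0 < ρ) (w : E3 → E3) : sq (E4aT x₀ ρ w) = sq w := by
  unfold sq
  have h1 : ∀ y, ‖E4aT x₀ ρ w y‖ ^ 2 = ρ ^ 3 * (fun x => ‖w x‖ ^ 2) (x₀ + ρ • y) := by
    intro y
    unfold E4aT
    rw [norm_smul, mul_pow, Real.norm_eq_abs, sq_abs, pow_two (ρ ^ (3 / 2 : ℝ)), E4a_p3 hρ]
  simp only [h1]
  rw [integral_const_mul]
  have h2 := Z0c_cv (fun x => ‖w x‖ ^ 2) x₀ hρ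
  rw [h2, ← mul_assoc, mul_inv_cancel₀ (by positivity), one_mul]

theorem E4aT_memLp (x₀ : E3) {ρ : ℝ} (hρ : 0 < ρ) {w : E3 → E3} (hw : MemLp w 2 volume)
    (hc : Continuous w) : MemLp (E4aT x₀ ρ w) 2 volume := by
  have hc' : Continuous (E4aT x₀ ρ w) := by
    have h0 : Continuous fun y : E3 => x₀ + ρ • y := by fun_prop
    exact (hc.comp h0).const_smul (ρ ^ (3 / 2 : ℝ))
  rw [memLp_two_iff_integrable_sq_norm hc'.aestronglyMeasurable]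
  have h1 : (fun y => ‖E4aT x₀ ρ w y‖ ^ 2) =
      fun y => ρ ^ 3 * (fun x => ‖w x‖ ^ 2) (x₀ + ρ • y) := by
    funext y
    unfold E4aT
    rw [norm_smul, mul_pow, Real.norm_eq_abs, sq_abs, pow_two (ρ ^ (3 / 2 : ℝ)), E4a_p3 hρ]
  rw [h1]
  have h2 := (memLp_two_iff_integrable_sq_norm hc.aestronglyMeasurable).1 hw
  exact ((h2.comp_add_left x₀).comp_smul hρ.ne').const_mul _

theorem E4aT_ip (x₀ : E3) {ρ : ℝ} (hρ : 0 < ρ) (w φ : E3 → E3) :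
    ip (E4aT x₀ ρ w) φ = ρ ^ (-(3 / 2) : ℝ) * ip w (Z0cR x₀ 1 ρ φ) := by
  unfold ip
  have h1 : ∀ y, inner ℝ (E4aT x₀ ρ w y) (φ y) =
      ρ ^ (3 / 2 : ℝ) * (fun x => inner ℝ (w x) (Z0cR x₀ 1 ρ φ x)) (x₀ + ρ • y) := by
    intro y
    unfold E4aT Z0cR
    simp only
    rw [Z0c_inv x₀ y hρ, one_smul, real_inner_smul_left]
  have e := Z0c_cv (fun x => inner ℝ (w x) (Z0cR x₀ 1 ρ φ x)) x₀ hρ
  simp only [h1]
  rw [integral_const_mul, e, ← mul_assoc]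
  congr 1
  rw [← Real.rpow_natCast ρ 3, ← Real.rpow_neg hρ.le, ← Real.rpow_add hρ]
  norm_num

theorem E4aT_nl (x₀ : E3) {ρ : ℝ} (hρ : 0 < ρ) (w : E3 → E3) {φ : E3 → E3} (hφ : Cc φ) :
    nl φ (E4aT x₀ ρ w) = ρ * nl (Z0cR x₀ 1 ρ φ) w := by
  unfold nl
  have h1 : ∀ y, ∑ i, (E4aT x₀ ρ w y) i * inner ℝ (E4aT x₀ ρ w y) (D i φ y) =
      (ρ ^ 3 * ρ) * (fun x => ∑ i, (w x) i * inner ℝ (w x) (D i (Z0cR x₀ 1 ρ φ) x))
        (x₀ + ρ • y) := by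
    intro y
    simp only
    rw [Finset.mul_sum]
    refine Finset.sum_congr rfl fun i _ => ?_
    rw [Z0cR_D x₀ 1 ρ hφ i, Z0c_inv x₀ y hρ]
    unfold E4aT
    rw [real_inner_smul_left, real_inner_smul_right, PiLp.smul_apply, smul_eq_mul, ← E4a_p3 hρ]
    have : ρ ≠ 0 := hρ.ne'
    field_simp
  have e := Z0c_cv (fun x => ∑ i, (w x) i * inner ℝ (w x) (D i (Z0cR x₀ 1 ρ φ) x)) x₀ hρ
  simp only [h1]
  rw [integral_const_mul, e, ← mul_assoc]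
  congr 1
  field_simp

theorem E4a_test (x₀ : E3) {ρ : ℝ} (hρ : 0 < ρ) {φ : E3 → E3} (hφ : TestField univ φ) :
    TestField univ (Z0cR x₀ 1 ρ φ) := by
  have hcc : Cc φ := ⟨hφ.smooth, hφ.compact⟩
  have h := Z0cR_cc x₀ 1 hρ hcc
  refine ⟨h.smooth, h.comp, subset_univ _, fun x => ?_⟩
  have h1 : divg (Z0cR x₀ 1 ρ φ) x = ρ⁻¹ * divg φ (ρ⁻¹ • (x - x₀)) := by
    unfold divg
    rw [Finset.mul_sum]
    refine Finset.sum_congr rfl fun i _ => ?_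
    rw [pd_eq, Z0cR_D x₀ 1 ρ hcc i x, PiLp.smul_apply, smul_eq_mul, one_mul]
    rfl
  rw [h1, hφ.div, mul_zero]

theorem E4a_scal (x₀ : E3) {ρ : ℝ} (hρ : 0 < ρ) {φ : E3 → ℝ} (hφ : Cc φ) :
    Cc (fun x => φ (ρ⁻¹ • (x - x₀))) ∧
      ∀ x, grad (fun x => φ (ρ⁻¹ • (x - x₀))) x = ρ⁻¹ • grad φ (ρ⁻¹ • (x - x₀)) := by
  have hne : ρ ≠ 0 := hρ.ne'
  refine ⟨⟨?_, ?_⟩, ?_⟩
  · exact hφ.smooth.comp ((contDiff_id.sub contDiff_const).const_smul ρ⁻¹)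
  · have h2 := hφ.comp.comp_homeomorph
        ((Homeomorph.subRight x₀).trans (Homeomorph.smulOfNeZero ρ⁻¹ (inv_ne_zero hne)))
    exact h2
  · intro x
    have hd : Differentiable ℝ φ := hφ.smooth.differentiable (by simp)
    have h1 : (fun x => φ (ρ⁻¹ • (x - x₀))) = fun x => φ ((-(ρ⁻¹ • x₀)) + ρ⁻¹ • x) := by
      funext y
      rw [Z0c_aff]
    have h2 : ∀ i, D i (fun x => φ (ρ⁻¹ • (x - x₀))) x = ρ⁻¹ • D i φ (ρ⁻¹ • (x - x₀)) := by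
      intro i
      rw [h1, D_comp_affine hd, Z0c_aff]
    unfold grad
    rw [h2, h2, h2]
    ext k
    fin_cases k <;> simp

/-- scaling and translation -/
theorem Anc.scale {v : ℝ → E3 → E3} (h : Anc C₁ C₂ C₃ E₀ v) (x₀ : E3) {ρ : ℝ} (hρ : 0 < ρ) :
    Anc C₁ C₂ C₃ E₀ (fun s y => ρ ^ (3 / 2 : ℝ) • v (ρ ^ (5 / 2 : ℝ) * s) (x₀ + ρ • y)) := by
  set κ : ℝ := ρ ^ (5 / 2 : ℝ) with hκd
  have hκ : 0 < κ := Real.rpow_pos_of_pos hρ _
  have hs' : ∀ s : ℝ, s < 0 → κ * s < 0 := fun s hs => mul_neg_of_pos_of_neg hκ hs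
  have hT : ∀ s : ℝ, (fun y => ρ ^ (3 / 2 : ℝ) • v (κ * s) (x₀ + ρ • y)) =
      E4aT x₀ ρ (v (κ * s)) := fun s => rfl
  have hsub : ∀ (w w' : E3 → E3), (fun x => E4aT x₀ ρ w x - E4aT x₀ ρ w' x) =
      E4aT x₀ ρ (fun x => w x - w' x) := by
    intro w w'
    funext x
    unfold E4aT
    rw [smul_sub]
  refine ⟨?_, ?_, ?_, ?_, ?_, ?_, ?_, ?_⟩
  · intro s hs x y
    have h1 := h.lip (κ * s) (hs' s hs) (x₀ + ρ • x) (x₀ + ρ • y)
    have h2 : x₀ + ρ • x - (x₀ + ρ • y) = ρ • (x - y) := by rw [smul_sub]; abel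
    rw [h2, norm_smul, Real.norm_of_nonneg hρ.le] at h1
    rw [← smul_sub, norm_smul, Real.norm_of_nonneg (Real.rpow_nonneg hρ.le _)]
    have h3 : ρ ^ (3 / 2 : ℝ) * ρ = κ := by
      rw [hκd]
      nth_rewrite 2 [← Real.rpow_one ρ]
      rw [← Real.rpow_add hρ]
      norm_num
    calc ρ ^ (3 / 2 : ℝ) * ‖v (κ * s) (x₀ + ρ • x) - v (κ * s) (x₀ + ρ • y)‖
        ≤ ρ ^ (3 / 2 : ℝ) * (C₁ / -(κ * s) * (ρ * ‖x - y‖)) :=
          mul_le_mul_of_nonneg_left h1 (Real.rpow_nonneg hρ.le _)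
      _ = (ρ ^ (3 / 2 : ℝ) * ρ) * (C₁ / -(κ * s)) * ‖x - y‖ := by ring
      _ = C₁ / -s * ‖x - y‖ := by
          rw [h3]
          have : s ≠ 0 := hs.ne
          field_simp
  · intro s hs
    exact E4aT_memLp x₀ hρ (h.l2 _ (hs' s hs)) (E4a_cont h (hs' s hs))
  · intro s hs
    rw [hT, E4aT_sq x₀ hρ]
    exact h.energy _ (hs' s hs)
  · intro s hs φ hφ
    obtain ⟨h1, h2⟩ := E4a_scal x₀ hρ hφ
    have h3 := h.div _ (hs' s hs) _ h1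
    have h4 : ∀ y, inner ℝ (ρ ^ (3 / 2 : ℝ) • v (κ * s) (x₀ + ρ • y)) (EC.grad φ y) =
        (ρ ^ (3 / 2 : ℝ) * ρ) * (fun x => inner ℝ (v (κ * s) x)
          (EC.grad (fun x => φ (ρ⁻¹ • (x - x₀))) x)) (x₀ + ρ • y) := by
      intro y
      simp only
      rw [h2, Z0c_inv x₀ y hρ, real_inner_smul_left, real_inner_smul_right]
      have : ρ ≠ 0 := hρ.ne'
      field_simp
    have e := Z0c_cv (fun x => inner ℝ (v (κ * s) x)
      (EC.grad (fun x => φ (ρ⁻¹ • (x - x₀))) x)) x₀ hρ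
    simp only [h4]
    rw [integral_const_mul, e, h3, mul_zero, mul_zero]
  · intro s hs k
    have h1 : (fun x => ρ ^ (3 / 2 : ℝ) • v (κ * s) (x₀ + ρ • (x + k)) -
        ρ ^ (3 / 2 : ℝ) • v (κ * s) (x₀ + ρ • x)) =
        E4aT x₀ ρ (fun x => v (κ * s) (x + ρ • k) - v (κ * s) x) := by
      funext x
      unfold E4aT
      rw [smul_sub, smul_add, add_assoc]
    rw [h1, E4aT_sq x₀ hρ]
    refine (h.grad _ (hs' s hs) (ρ • k)).trans (le_of_eq ?_)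
    rw [norm_smul, Real.norm_of_nonneg hρ.le, mul_pow]
    have h2 : (-(κ * s)) ^ (-(4 / 5) : ℝ) = (ρ ^ 2)⁻¹ * (-s) ^ (-(4 / 5) : ℝ) := by
      have h3 : -(κ * s) = κ * (-s) := by ring
      rw [h3, Real.mul_rpow hκ.le (by linarith)]
      congr 1
      rw [hκd, ← Real.rpow_mul hρ.le, ← Real.rpow_natCast ρ 2, ← Real.rpow_neg hρ.le]
      norm_num
    rw [h2]
    have : ρ ≠ 0 := hρ.ne'
    field_simp
  · intro s t hst ht
    have h1 := h.time (κ * s) (κ * t) (mul_lt_mul_of_pos_left hst hκ) (hs' t ht)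
    have h2 : (fun x => ρ ^ (3 / 2 : ℝ) • v (κ * t) (x₀ + ρ • x) -
        ρ ^ (3 / 2 : ℝ) • v (κ * s) (x₀ + ρ • x)) =
        E4aT x₀ ρ (fun x => v (κ * t) x - v (κ * s) x) := hsub _ _
    rw [h2, E4aT_sq x₀ hρ]
    refine h1.trans (le_of_eq ?_)
    have : t ≠ 0 := ht.ne
    field_simp
  · intro φ hφ s t hst ht
    have h1 := h.eqn _ (E4a_test x₀ hρ hφ) (κ * s) (κ * t) (mul_lt_mul_of_pos_left hst hκ)
      (hs' t ht)
    rw [hT, hT, E4aT_ip x₀ hρ, E4aT_ip x₀ hρ, ← mul_sub, h1]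
    have h2 : ∀ τ, nl φ (fun y => ρ ^ (3 / 2 : ℝ) • v (κ * τ) (x₀ + ρ • y)) =
        ρ * (fun σ => nl (Z0cR x₀ 1 ρ φ) (v σ)) (κ * τ) := by
      intro τ
      rw [hT]
      exact E4aT_nl x₀ hρ _ ⟨hφ.smooth, hφ.compact⟩
    have e := intervalIntegral.integral_comp_mul_left (a := s) (b := t)
      (fun σ => nl (Z0cR x₀ 1 ρ φ) (v σ)) hκ.ne'
    simp only [h2]
    rw [intervalIntegral.integral_const_mul, e, smul_eq_mul, ← mul_assoc]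
    congr 1
    rw [hκd, ← Real.rpow_neg hρ.le]
    nth_rewrite 2 [← Real.rpow_one ρ]
    rw [← Real.rpow_add hρ]
    norm_num
  · intro φ hφ
    have h1 := h.zero _ (E4a_test x₀ hρ hφ)
    have h2 : Tendsto (fun s : ℝ => κ * s) (𝓝[<] 0) (𝓝[<] 0) := by
      refine tendsto_nhdsWithin_iff.2 ⟨?_, ?_⟩
      · have : Tendsto (fun s : ℝ => κ * s) (𝓝 0) (𝓝 (κ * 0)) := tendsto_id.const_mul κ
        rw [mul_zero] at this
        exact this.mono_left nhdsWithin_le_nhds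
      · filter_upwards [self_mem_nhdsWithin] with s hs
        exact hs' s hs
    have h3 := (h1.comp h2).const_mul (ρ ^ (-(3 / 2) : ℝ))
    rw [mul_zero] at h3
    refine h3.congr fun s => ?_
    rw [hT, E4aT_ip x₀ hρ]
    rfl

theorem E4a_nl {w φ : E3 → E3} (hw : MemLp w 2 volume) (M : ℝ)
    (hM : ∀ x, ∑ i, ‖D i φ x‖ ≤ M) : |nl φ w| ≤ M * sq w := by
  unfold nl sq
  rw [← integral_const_mul, ← Real.norm_eq_abs]
  have h2 : Integrable (fun x => ‖w x‖ ^ 2) volume := hw.integrable_norm_pow (by norm_num)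
  refine norm_integral_le_of_norm_le (h2.const_mul M) (Eventually.of_forall fun x => ?_)
  calc ‖∑ i, (w x) i * inner ℝ (w x) (D i φ x)‖
      ≤ ∑ i, ‖(w x) i * inner ℝ (w x) (D i φ x)‖ := norm_sum_le _ _
    _ ≤ ∑ i, ‖w x‖ ^ 2 * ‖D i φ x‖ := by
        refine Finset.sum_le_sum fun i _ => ?_
        rw [norm_mul]
        have h3 : ‖(w x) i‖ ≤ ‖w x‖ := PiLp.norm_apply_le _ _
        have h4 : ‖inner ℝ (w x) (D i φ x)‖ ≤ ‖w x‖ * ‖D i φ x‖ := norm_inner_le_norm _ _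
        calc ‖(w x) i‖ * ‖inner ℝ (w x) (D i φ x)‖ ≤ ‖w x‖ * (‖w x‖ * ‖D i φ x‖) :=
              mul_le_mul h3 h4 (norm_nonneg _) (norm_nonneg _)
          _ = ‖w x‖ ^ 2 * ‖D i φ x‖ := by ring
    _ = ‖w x‖ ^ 2 * ∑ i, ‖D i φ x‖ := by rw [Finset.mul_sum]
    _ ≤ ‖w x‖ ^ 2 * M := mul_le_mul_of_nonneg_left (hM x) (by positivity)
    _ = M * ‖w x‖ ^ 2 := by ring

/-- for a fixed test field the convergence in `zero` is uniform in the class -/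
theorem Anc.zero_rate {v : ℝ → E3 → E3} (h : Anc C₁ C₂ C₃ E₀ v) (φ : E3 → E3)
    (hφ : TestField univ φ) (M : ℝ) (hM : ∀ x, ∑ i, ‖D i φ x‖ ≤ M) {s : ℝ} (hs : s < 0) :
    |ip (v s) φ| ≤ M * E₀ * (-s) := by
  have hM0 : 0 ≤ M := le_trans (Finset.sum_nonneg fun i _ => norm_nonneg _) (hM 0)
  have h1 : ∀ t : ℝ, s < t → t < 0 → |ip (v t) φ - ip (v s) φ| ≤ M * E₀ * (-s) := by
    intro t hst ht
    rw [h.eqn φ hφ s t hst ht]
    have h2 : ∀ τ ∈ Set.uIoc s t, ‖nl φ (v τ)‖ ≤ M * E₀ := by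
      intro τ hτ
      rw [uIoc_of_le hst.le] at hτ
      have hτ0 : τ < 0 := lt_of_le_of_lt hτ.2 ht
      rw [Real.norm_eq_abs]
      exact (E4a_nl (h.l2 τ hτ0) M hM).trans (mul_le_mul_of_nonneg_left (h.energy τ hτ0) hM0)
    have h3 := intervalIntegral.norm_integral_le_of_norm_le_const h2
    rw [Real.norm_eq_abs, abs_of_pos (sub_pos.2 hst)] at h3
    refine h3.trans (mul_le_mul_of_nonneg_left (by linarith) ?_)
    have h4 : 0 ≤ E₀ := le_trans (integral_nonneg fun x => by positivity) (h.energy s hs)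
    positivity
  have h2 : Tendsto (fun t => |ip (v t) φ - ip (v s) φ|) (𝓝[<] 0) (𝓝 |0 - ip (v s) φ|) :=
    ((h.zero φ hφ).sub_const _).abs
  have h3 : |0 - ip (v s) φ| ≤ M * E₀ * (-s) := by
    refine le_of_tendsto h2 ?_
    have h4 : ∀ᶠ t in 𝓝[<] (0 : ℝ), t ∈ Ioo s 0 := Ioo_mem_nhdsLT hs
    filter_upwards [h4] with t ht
    exact h1 t ht.1 ht.2
  rwa [zero_sub, abs_neg] at h3

end Pool.Agent.Helper60.EC
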