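import Pool.Agent.Helper60.EC.E3f
import Pool.Agent.Helper60.EC.E4

/-! Project EC, E5: the second blow-up: a flow whose energy concentrates at the origin -/

set_option autoImplicit false

open MeasureTheory Set Filter Topology
open scoped ENNReal ContDiff

noncomputable section

namespace Pool.Agent.Helper60.EC

open Pool.Agent.Helper52.NSE (E3 pd divg TestField)

theorem E5_memLp_sm {χ : E3 → ℝ} {w : E3 → E3} (hχ : Cc χ) (h01 : ∀ x, 0 ≤ χ x ∧ χ x ≤ 1)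
    (hw : MemLp w 2 volume) : MemLp (sm χ w) 2 volume := by
  refine MemLp.of_le hw (hχ.smooth.continuous.aestronglyMeasurable.smul hw.1) ?_
  refine Eventually.of_forall fun x => ?_
  unfold sm
  rw [norm_smul, Real.norm_eq_abs, abs_of_nonneg (h01 x).1]
  exact mul_le_of_le_one_left (norm_nonneg _) (h01 x).2

theorem E5_int {w : E3 → E3} (hw : MemLp w 2 volume) : Integrable (fun x => ‖w x‖ ^ 2) volume :=
  (memLp_two_iff_integrable_sq_norm hw.1).1 hw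

/-- comparison of the local energies for nested cutoffs -/
theorem E5_sq_mono {χ χ' : E3 → ℝ} {w : E3 → E3} (hχ : Cc χ) (hχ' : Cc χ')
    (h01 : ∀ x, 0 ≤ χ x ∧ χ x ≤ 1) (h01' : ∀ x, 0 ≤ χ' x ∧ χ' x ≤ 1)
    (hle : ∀ x, χ' x ≤ χ x) (hw : MemLp w 2 volume) : sq (sm χ' w) ≤ sq (sm χ w) := by
  unfold sq
  refine integral_mono (E5_int (E5_memLp_sm hχ' h01' hw)) (E5_int (E5_memLp_sm hχ h01 hw)) ?_
  intro x
  show ‖sm χ' w x‖ ^ 2 ≤ ‖sm χ w x‖ ^ 2
  unfold sm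
  rw [norm_smul, norm_smul, Real.norm_eq_abs, Real.norm_eq_abs, abs_of_nonneg (h01 x).1,
    abs_of_nonneg (h01' x).1]
  exact pow_le_pow_left₀ (mul_nonneg (h01' x).1 (norm_nonneg _))
    (mul_le_mul_of_nonneg_right (hle x) (norm_nonneg _)) 2

/-- the energy outside the ball -/
theorem E5_out {χ : E3 → ℝ} {w : E3 → E3} {R : ℝ} (hχ : Cc χ)
    (h01 : ∀ x, 0 ≤ χ x ∧ χ x ≤ 1) (h0 : ∀ x, R ≤ ‖x‖ → χ x = 0) (hw : MemLp w 2 volume) :
    sqOn (Metric.ball (0 : E3) R)ᶜ w ≤ sq w - sq (sm χ w) := by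
  have i1 := E5_int hw
  have i2 := E5_int (E5_memLp_sm hχ h01 hw)
  have h1 : ∫ x in Metric.ball (0 : E3) R, ‖sm χ w x‖ ^ 2 = sq (sm χ w) := by
    unfold sq
    refine setIntegral_eq_integral_of_forall_compl_eq_zero fun x hx => ?_
    have hx' : R ≤ ‖x‖ := by simpa using hx
    unfold sm
    rw [h0 x hx', zero_smul, norm_zero]
    norm_num
  have h2 : (∫ x in Metric.ball (0 : E3) R, ‖w x‖ ^ 2) +
      ∫ x in (Metric.ball (0 : E3) R)ᶜ, ‖w x‖ ^ 2 = sq w :=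
    integral_add_compl Metric.isOpen_ball.measurableSet i1
  have h3 : ∫ x in Metric.ball (0 : E3) R, ‖sm χ w x‖ ^ 2 ≤
      ∫ x in Metric.ball (0 : E3) R, ‖w x‖ ^ 2 := by
    refine integral_mono i2.integrableOn i1.integrableOn ?_
    intro x
    show ‖sm χ w x‖ ^ 2 ≤ ‖w x‖ ^ 2
    unfold sm
    rw [norm_smul, Real.norm_eq_abs, abs_of_nonneg (h01 x).1]
    exact pow_le_pow_left₀ (mul_nonneg (h01 x).1 (norm_nonneg _))
      (mul_le_of_le_one_left (norm_nonneg _) (h01 x).2) 2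
  unfold sqOn
  linarith

/-- a function which is monotone up to a factor two has a limit at zero -/
theorem E5_lim {m : ℝ → ℝ} {c : ℝ} (hc : ∀ R, 0 < R → c ≤ m R)
    (hm : ∀ R R', 0 < R' → R' ≤ R / 2 → m R' ≤ m R) :
    ∃ e : ℝ, c ≤ e ∧ Tendsto m (𝓝[>] 0) (𝓝 e) := by
  have hbdd : BddBelow (m '' Ioi 0) := by
    refine ⟨c, ?_⟩
    rintro _ ⟨R, hR, rfl⟩
    exact hc R hR
  have hne : (m '' Ioi 0).Nonempty := ⟨m 1, 1, by norm_num, rfl⟩
  refine ⟨sInf (m '' Ioi 0), le_csInf hne ?_, ?_⟩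
  · rintro _ ⟨R, hR, rfl⟩
    exact hc R hR
  · rw [tendsto_order]
    constructor
    · intro a ha
      filter_upwards [self_mem_nhdsWithin] with R hR
      exact ha.trans_le (csInf_le hbdd ⟨R, hR, rfl⟩)
    · intro a ha
      obtain ⟨_, ⟨R, hR, rfl⟩, h1⟩ := exists_lt_of_csInf_lt hne ha
      have hR' : (0 : ℝ) < R / 2 := half_pos hR
      filter_upwards [Ioo_mem_nhdsGT hR'] with R' hR''
      exact (hm R R' hR''.1 hR''.2.le).trans_lt h1

theorem E5_rpow_tendsto : Tendsto (fun t : ℝ => (-t) ^ (2 / 5 : ℝ)) (𝓝[<] 0) (𝓝 0) := by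
  have h1 : ContinuousAt (fun t : ℝ => (-t) ^ (2 / 5 : ℝ)) 0 := by
    refine ContinuousAt.rpow_const continuousAt_neg (Or.inr (by norm_num))
  have h2 := h1.tendsto
  simp only [neg_zero] at h2
  rw [Real.zero_rpow (by norm_num)] at h2
  exact h2.mono_left nhdsWithin_le_nhds

/-- the second blow-up -/
theorem exists_atomic {C₁ C₂ C₃ E₀ : ℝ} {v : ℝ → E3 → E3} (h : Anc C₁ C₂ C₃ E₀ v)
    (hE : 0 < sq (v (-1))) :
    ∃ v' : ℝ → E3 → E3, Anc C₁ C₂ C₃ E₀ v' ∧ 0 < sq (v' (-1)) ∧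
      ∀ R : ℝ, 0 < R → Tendsto (fun s => sqOn (Metric.ball (0 : E3) R)ᶜ (v' s)) (𝓝[<] 0) (𝓝 0) := by
  obtain ⟨x₀, c₀, hc₀, hatom⟩ := exists_atom h hE
  obtain ⟨K, -, hK⟩ := exists_cut
  obtain ⟨χ₁, hcut₁, h01₁, h1₁⟩ := hK 0 1 one_pos
  obtain ⟨A, hA, hsup⟩ := Anc_sup C₁ E₀
  obtain ⟨C, hC, hFI⟩ := FI_Anc K
  -- the family of cutoffs
  have hcut : ∀ a : E3, ∀ R : ℝ, 0 < R → Cut a R K (fun x => χ₁ (R⁻¹ • (x - a))) := by
    intro a R hR
    have h2 := cut_scale (x₀ := a) hR hcut₁ one_pos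
    rw [smul_zero, add_zero, mul_one] at h2
    exact h2
  have h01 : ∀ a : E3, ∀ R : ℝ, ∀ x, 0 ≤ χ₁ (R⁻¹ • (x - a)) ∧ χ₁ (R⁻¹ • (x - a)) ≤ 1 :=
    fun a R x => h01₁ _
  have h1 : ∀ a : E3, ∀ R : ℝ, 0 < R → ∀ x, ‖x - a‖ ≤ R / 2 → χ₁ (R⁻¹ • (x - a)) = 1 := by
    intro a R hR x hx
    apply h1₁
    rw [sub_zero, norm_smul, norm_inv, Real.norm_eq_abs, abs_of_pos hR, inv_mul_le_iff₀ hR]
    linarith
  -- the limit energies at `x₀`
  have hlim : ∀ R : ℝ, 0 < R → ∃ m : ℝ, 0 ≤ m ∧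
      Tendsto (fun s => Zf (fun x => χ₁ (R⁻¹ • (x - x₀))) (v s) ^ 2) (𝓝[<] 0) (𝓝 m) ∧
      Tendsto (fun s => sq (sm (fun x => χ₁ (R⁻¹ • (x - x₀))) (v s))) (𝓝[<] 0) (𝓝 m) :=
    fun R hR => exists_limit h (hcut x₀ R hR).cc
  choose! m hm0 hmZ hms using hlim
  have hmc : ∀ R, 0 < R → c₀ ≤ m R := by
    intro R hR
    refine hatom _ (hcut x₀ R hR).cc (h01 x₀ R) ?_ _ (hms R hR)
    filter_upwards [Metric.ball_mem_nhds x₀ (half_pos hR)] with x hx
    exact h1 x₀ R hR x (by rw [← dist_eq_norm]; exact (Metric.mem_ball.1 hx).le)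
  have hmm : ∀ R R', 0 < R' → R' ≤ R / 2 → m R' ≤ m R := by
    intro R R' hR' hRR
    have hR : 0 < R := by linarith
    refine le_of_tendsto_of_tendsto (hms R' hR') (hms R hR) ?_
    filter_upwards [self_mem_nhdsWithin] with s hs
    refine E5_sq_mono (hcut x₀ R hR).cc (hcut x₀ R' hR').cc (h01 x₀ R) (h01 x₀ R') ?_ (h.l2 s hs)
    intro x
    rcases le_or_gt R' ‖x - x₀‖ with hx | hx
    · have := (hcut x₀ R' hR').supp x hx
      rw [this]
      exact (h01 x₀ R x).1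
    · rw [h1 x₀ R hR x (by linarith)]
      exact (h01 x₀ R' x).2
  obtain ⟨e, hce, hme⟩ := E5_lim hmc hmm
  -- the blow-up sequence
  set ρ : ℕ → ℝ := fun k => 1 / ((k : ℝ) + 1) with hρdef
  have hρ : ∀ k, 0 < ρ k := fun k => by
    have : (0 : ℝ) < (k : ℝ) + 1 := by positivity
    exact one_div_pos.2 this
  have hρ0 : Tendsto ρ atTop (𝓝 0) := tendsto_one_div_add_atTop_nhds_zero_nat
  have hk : ∀ k, Anc C₁ C₂ C₃ E₀
      (fun s y => (ρ k) ^ (3 / 2 : ℝ) • v ((ρ k) ^ (5 / 2 : ℝ) * s) (x₀ + (ρ k) • y)) :=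
    fun k => h.scale x₀ (hρ k)
  obtain ⟨φ, hφ, v', hv', -, hZ⟩ := Anc.compact _ hk
  -- the estimate for the sequence
  have key : ∀ R : ℝ, 0 < R → ∀ s < 0, ∀ k,
      |m (ρ k * R) - Zf (fun x => χ₁ (R⁻¹ • (x - 0)))
        (fun y => (ρ k) ^ (3 / 2 : ℝ) • v ((ρ k) ^ (5 / 2 : ℝ) * s) (x₀ + (ρ k) • y)) ^ 2| ≤
      C / R * E₀ * A * (-s) ^ (2 / 5 : ℝ) := by
    intro R hR s hs k
    have hρR : 0 < ρ k * R := mul_pos (hρ k) hR
    have hpow : 0 < (ρ k) ^ (5 / 2 : ℝ) := Real.rpow_pos_of_pos (hρ k) _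
    -- the limit at time zero
    have hev : ∀ t < 0, Zf (fun x => χ₁ (R⁻¹ • (x - 0)))
        (fun y => (ρ k) ^ (3 / 2 : ℝ) • v ((ρ k) ^ (5 / 2 : ℝ) * t) (x₀ + (ρ k) • y)) =
        Zf (fun x => χ₁ ((ρ k * R)⁻¹ • (x - x₀))) (v ((ρ k) ^ (5 / 2 : ℝ) * t)) := by
      intro t ht
      rw [Zf_scale (hcut 0 R hR).cc (h.l2 _ (mul_neg_of_pos_of_neg hpow ht)) x₀ (hρ k)]
      congr 1
      funext x
      rw [sub_zero, smul_smul, mul_inv, mul_comm]
    have ht1 : Tendsto (fun t : ℝ => (ρ k) ^ (5 / 2 : ℝ) * t) (𝓝[<] 0) (𝓝[<] 0) := by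
      refine tendsto_nhdsWithin_iff.2 ⟨?_, ?_⟩
      · have h3 : Tendsto (fun t : ℝ => (ρ k) ^ (5 / 2 : ℝ) * t) (𝓝 0)
            (𝓝 ((ρ k) ^ (5 / 2 : ℝ) * 0)) := (continuous_const.mul continuous_id).tendsto 0
        rw [mul_zero] at h3
        exact h3.mono_left nhdsWithin_le_nhds
      · filter_upwards [self_mem_nhdsWithin] with t ht
        exact mul_neg_of_pos_of_neg hpow ht
    have ht2 : Tendsto (fun t => Zf (fun x => χ₁ (R⁻¹ • (x - 0)))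
        (fun y => (ρ k) ^ (3 / 2 : ℝ) • v ((ρ k) ^ (5 / 2 : ℝ) * t) (x₀ + (ρ k) • y)) ^ 2)
        (𝓝[<] 0) (𝓝 (m (ρ k * R))) := by
      refine Tendsto.congr' ?_ ((hmZ (ρ k * R) hρR).comp ht1)
      filter_upwards [self_mem_nhdsWithin] with t ht
      simp only [Function.comp]
      rw [hev t ht]
    have ht3 := (ht2.sub (tendsto_const_nhds (x := Zf (fun x => χ₁ (R⁻¹ • (x - 0)))
        (fun y => (ρ k) ^ (3 / 2 : ℝ) • v ((ρ k) ^ (5 / 2 : ℝ) * s) (x₀ + (ρ k) • y)) ^ 2))).abs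
    have ht4 : Tendsto (fun t : ℝ => C / R * E₀ * A * ((-s) ^ (2 / 5 : ℝ) - (-t) ^ (2 / 5 : ℝ)))
        (𝓝[<] 0) (𝓝 (C / R * E₀ * A * ((-s) ^ (2 / 5 : ℝ) - 0))) :=
      (tendsto_const_nhds.sub E5_rpow_tendsto).const_mul _
    rw [sub_zero] at ht4
    refine le_of_tendsto_of_tendsto ht3 ht4 ?_
    filter_upwards [Ioo_mem_nhdsLT hs] with t ht
    exact hFI 0 R _ hR (hcut 0 R hR) C₁ C₂ C₃ E₀ A _ (hk k) (hsup C₂ C₃ _ (hk k)) s t ht.1.le ht.2
  -- the estimate for the limit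
  have key' : ∀ R : ℝ, 0 < R → ∀ s < 0,
      |e - Zf (fun x => χ₁ (R⁻¹ • (x - 0))) (v' s) ^ 2| ≤
        C / R * E₀ * A * (-s) ^ (2 / 5 : ℝ) := by
    intro R hR s hs
    have h3 : Tendsto (fun n => m (ρ (φ n) * R)) atTop (𝓝 e) := by
      refine hme.comp ?_
      refine tendsto_nhdsWithin_iff.2 ⟨?_, ?_⟩
      · have h4 := (hρ0.comp hφ.tendsto_atTop).mul_const R
        rw [zero_mul] at h4
        exact h4
      · exact Eventually.of_forall fun n => mul_pos (hρ _) hR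
    have h5 := (hZ _ (hcut 0 R hR).cc s hs).pow 2
    exact le_of_tendsto (h3.sub h5).abs (Eventually.of_forall fun n => key R hR s hs (φ n))
  -- the energy of the limit
  have hen : ∀ s < 0, sq (v' s) = e := by
    intro s hs
    have h3 : Tendsto (fun R : ℝ => Zf (fun x => χ₁ (R⁻¹ • (x - 0))) (v' s) ^ 2) atTop
        (𝓝 (sq (v' s))) :=
      Zf_tendsto K (fun R x => χ₁ (R⁻¹ • (x - 0))) 0 (fun R hR => hcut 0 R hR)
        (fun R _ => h01 0 R) (fun R hR => h1 0 R hR) (hv'.l2 s hs) (hv'.div s hs)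
    have h4 : Tendsto (fun R : ℝ => C / R * E₀ * A * (-s) ^ (2 / 5 : ℝ)) atTop (𝓝 0) := by
      have h5 : Tendsto (fun R : ℝ => C / R) atTop (𝓝 0) := tendsto_const_nhds.div_atTop tendsto_id
      have h6 := ((h5.mul_const E₀).mul_const A).mul_const ((-s) ^ (2 / 5 : ℝ))
      simp only [zero_mul] at h6
      exact h6
    have h7 : Tendsto (fun R : ℝ => |e - Zf (fun x => χ₁ (R⁻¹ • (x - 0))) (v' s) ^ 2|) atTop
        (𝓝 |e - sq (v' s)|) := (tendsto_const_nhds.sub h3).abs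
    have h8 : |e - sq (v' s)| ≤ 0 := by
      refine le_of_tendsto_of_tendsto h7 h4 ?_
      filter_upwards [eventually_gt_atTop 0] with R hR
      exact key' R hR s hs
    have h9 := abs_nonpos_iff.1 h8
    linarith
  refine ⟨v', hv', ?_, ?_⟩
  · rw [hen (-1) (by norm_num)]
    linarith
  · intro R hR
    have h3 : Tendsto (fun s => Zf (fun x => χ₁ (R⁻¹ • (x - 0))) (v' s) ^ 2) (𝓝[<] 0) (𝓝 e) := by
      have h4 : Tendsto (fun s : ℝ => C / R * E₀ * A * (-s) ^ (2 / 5 : ℝ)) (𝓝[<] 0) (𝓝 0) := by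
        have h5 := E5_rpow_tendsto.const_mul (C / R * E₀ * A)
        rw [mul_zero] at h5
        exact h5
      have h6 : Tendsto (fun s => e - Zf (fun x => χ₁ (R⁻¹ • (x - 0))) (v' s) ^ 2) (𝓝[<] 0)
          (𝓝 0) := by
        refine squeeze_zero_norm' ?_ h4
        filter_upwards [self_mem_nhdsWithin] with s hs
        exact key' R hR s hs
      have h7 := (tendsto_const_nhds (x := e) (f := 𝓝[<] (0 : ℝ))).sub h6
      rw [sub_zero] at h7
      exact h7.congr fun s => sub_sub_cancel _ _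
    have h8 := Zf_sub_tendsto hv' (hcut 0 R hR).cc
    have h9 : Tendsto (fun s => sq (sm (fun x => χ₁ (R⁻¹ • (x - 0))) (v' s))) (𝓝[<] 0) (𝓝 e) := by
      have h10 := h3.sub h8
      rw [sub_zero] at h10
      exact h10.congr fun s => sub_sub_cancel _ _
    have h11 : Tendsto (fun s => e - sq (sm (fun x => χ₁ (R⁻¹ • (x - 0))) (v' s))) (𝓝[<] 0)
        (𝓝 0) := by
      have h12 := (tendsto_const_nhds (x := e) (f := 𝓝[<] (0 : ℝ))).sub h9
      rw [sub_self] at h12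
      exact h12
    refine squeeze_zero' (Eventually.of_forall fun s => sqOn_nonneg _ _) ?_ h11
    filter_upwards [self_mem_nhdsWithin] with s hs
    have h13 := E5_out (R := R) (hcut 0 R hR).cc (h01 0 R) (fun x hx => by
      have := (hcut 0 R hR).supp x (by rw [sub_zero]; exact hx)
      exact this) (hv'.l2 s hs)
    rw [hen s hs] at h13
    exact h13

end Pool.Agent.Helper60.EC
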