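import Pool.Agent.Helper60.EC.D3

/-! Project EC, E6: fast decay away from the atom -/

set_option autoImplicit false

open MeasureTheory Set Filter Topology
open scoped ENNReal ContDiff

noncomputable section

namespace Pool.Agent.Helper60.EC

open Pool.Agent.Helper52.NSE (E3 pd divg TestField)

/-- nested cutoffs away from the origin -/
private theorem E6_cut {χ : E3 → ℝ} (hχ : Cc χ) (hs : (0 : E3) ∉ tsupport χ) :
    ∃ (χ' : E3 → ℝ) (U : Set E3), Cc χ' ∧ (0 : E3) ∉ tsupport χ' ∧ IsOpen U ∧ tsupport χ ⊆ U ∧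
      ∀ x ∈ U, χ' x = 1 := by
  obtain ⟨t, ht, hst, ht0⟩ := exists_compact_between hχ.comp.isCompact
    (isOpen_compl_singleton (x := (0 : E3))) (fun x hx h0 => hs (by
      rw [mem_singleton_iff] at h0
      rwa [h0] at hx))
  obtain ⟨f, hf1, hf0, -⟩ := exists_contMDiffMap_one_nhds_of_subset_interior (n := (⊤ : ℕ∞))
    (modelWithCornersSelf ℝ E3) (isClosed_tsupport χ) hst
  obtain ⟨U, hU, hsU, hU1⟩ := eventually_nhdsSet_iff_exists.1 hf1
  have hsub : tsupport f ⊆ t := by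
    refine closure_minimal (fun x hx => ?_) ht.isClosed
    by_contra hxt
    exact hx (hf0 x hxt)
  refine ⟨f, U, ⟨?_, ?_⟩, ?_, hU, hsU, hU1⟩
  · exact contMDiff_iff_contDiff.1 f.contMDiff
  · exact ht.of_isClosed_subset (isClosed_tsupport f) hsub
  · intro h0
    exact ht0 (hsub h0) rfl

/-- the localised energies tend to zero -/
private theorem E6_tendsto {C₁ C₂ C₃ E₀ : ℝ} {v : ℝ → E3 → E3} (h : Anc C₁ C₂ C₃ E₀ v)
    (h0 : ∀ R : ℝ, 0 < R →
      Tendsto (fun s => sqOn (Metric.ball (0 : E3) R)ᶜ (v s)) (𝓝[<] 0) (𝓝 0))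
    (χ : E3 → ℝ) (hχ : Cc χ) (hs : (0 : E3) ∉ tsupport χ) :
    Tendsto (fun s => Zf χ (v s)) (𝓝[<] 0) (𝓝 0) := by
  obtain ⟨R, hR, hball⟩ : ∃ R > 0, Metric.ball (0 : E3) R ⊆ (tsupport χ)ᶜ :=
    Metric.isOpen_iff.1 (isClosed_tsupport χ).isOpen_compl 0 hs
  obtain ⟨C, hC, h1⟩ := Zf_le_tsupport hχ
  have h2 : Tendsto (fun s => C * Real.sqrt (sqOn (Metric.ball (0 : E3) R)ᶜ (v s))) (𝓝[<] 0)
      (𝓝 (C * Real.sqrt 0)) := ((h0 R hR).sqrt).const_mul C
  rw [Real.sqrt_zero, mul_zero] at h2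
  refine squeeze_zero' ?_ ?_ h2
  · exact eventually_nhdsWithin_of_forall fun s hs => Zf_nonneg χ hχ (h.l2 s hs)
  · refine eventually_nhdsWithin_of_forall fun s hs => (h1 (v s) (h.l2 s hs)).trans ?_
    refine mul_le_mul_of_nonneg_left (Real.sqrt_le_sqrt ?_) hC
    unfold sqOn
    refine setIntegral_mono_set ?_ (Eventually.of_forall fun x => by positivity) ?_
    · exact ((h.l2 s hs).integrable_norm_pow (by norm_num)).integrableOn
    · refine LE.le.eventuallyLE fun x hx => ?_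
      intro hxb
      exact hball hxb hx

/-- the primitive of a power -/
private theorem E6_int {q s t : ℝ} (hq : 0 < q) (hst : s ≤ t) (ht : t < 0) :
    ∫ τ in s..t, (-τ) ^ (q - 1) = ((-s) ^ q - (-t) ^ q) / q := by
  have hder : ∀ τ ∈ uIcc s t, HasDerivAt (fun τ : ℝ => -(-τ) ^ q / q) ((-τ) ^ (q - 1)) τ := by
    intro τ hτ
    rw [uIcc_of_le hst] at hτ
    have hτ0 : -τ ≠ 0 := by
      have : τ < 0 := hτ.2.trans_lt ht
      linarith
    have h1 := ((hasDerivAt_neg τ).rpow_const (p := q) (Or.inl hτ0)).neg.div_const q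
    refine h1.congr_deriv ?_
    field_simp
  have hcont : ContinuousOn (fun τ : ℝ => (-τ) ^ (q - 1)) (uIcc s t) := by
    intro τ hτ
    rw [uIcc_of_le hst] at hτ
    have hτ0 : -τ ≠ 0 := by
      have : τ < 0 := hτ.2.trans_lt ht
      linarith
    exact ((continuousAt_id.neg).rpow_const (Or.inl hτ0)).continuousWithinAt
  rw [intervalIntegral.integral_eq_sub_of_hasDerivAt hder hcont.intervalIntegrable]
  ring

/-- away from the origin the localised solenoidal energies vanish to infinite order -/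
theorem fast_decay {C₁ C₂ C₃ E₀ : ℝ} {v : ℝ → E3 → E3} (h : Anc C₁ C₂ C₃ E₀ v)
    (h0 : ∀ R : ℝ, 0 < R →
      Tendsto (fun s => sqOn (Metric.ball (0 : E3) R)ᶜ (v s)) (𝓝[<] 0) (𝓝 0))
    (χ : E3 → ℝ) (hχ : Cc χ) (hs : (0 : E3) ∉ tsupport χ) (m : ℕ) :
    ∃ C : ℝ, ∀ s ∈ Ico (-1 : ℝ) 0, Zf χ (v s) ≤ C * (-s) ^ ((m : ℝ) / 5) := by
  obtain ⟨A, hA, hsup⟩ := h.sup
  induction m generalizing χ with
  | zero =>
    obtain ⟨C, hC, h1⟩ := Zf_le_tsupport hχ
    refine ⟨C * Real.sqrt E₀, fun s hs' => ?_⟩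
    have hs0 : s < 0 := hs'.2
    have h2 : ((0 : ℕ) : ℝ) / 5 = 0 := by norm_num
    rw [h2, Real.rpow_zero, mul_one]
    refine (h1 (v s) (h.l2 s hs0)).trans ?_
    refine mul_le_mul_of_nonneg_left (Real.sqrt_le_sqrt ?_) hC
    refine le_trans ?_ (h.energy s hs0)
    unfold sqOn sq
    exact setIntegral_le_integral ((h.l2 s hs0).integrable_norm_pow (by norm_num))
      (Eventually.of_forall fun x => by positivity)
  | succ m ih =>
    obtain ⟨χ', U, hχ', hs', hU, hsU, hU1⟩ := E6_cut hχ hs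
    obtain ⟨Cm, hCm⟩ := ih χ' hχ' hs'
    obtain ⟨C, hC, hstar⟩ := star_Anc hχ hχ' hU hsU hU1
    set q : ℝ := (2 * (m : ℝ) + 2) / 5 with hq
    have hqpos : 0 < q := by positivity
    set D : ℝ := C * ((2 * A + Real.sqrt E₀) * Cm ^ 2) / q with hD
    have hD0 : 0 ≤ D := by positivity
    -- the estimate between two times
    have hst : ∀ s ∈ Ico (-1 : ℝ) 0, ∀ t, s ≤ t → t < 0 →
        Zf χ (v s) ^ 2 - Zf χ (v t) ^ 2 ≤ D * (-s) ^ q := by
      intro s hs1 t hst ht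
      have h1 := hstar C₁ C₂ C₃ E₀ A v h hsup s t hst ht
      have h2 : Zf χ (v s) ^ 2 - Zf χ (v t) ^ 2 ≤ |Zf χ (v t) ^ 2 - Zf χ (v s) ^ 2| := by
        rw [abs_sub_comm]; exact le_abs_self _
      refine (h2.trans h1).trans ?_
      have hneg : ∀ τ ∈ Icc s t, 0 < -τ ∧ -τ ≤ 1 := fun τ hτ =>
        ⟨by linarith [hτ.2], by linarith [hτ.1, hs1.1]⟩
      have hcZ : ContinuousOn (fun τ => Zf χ' (v τ)) (Icc s t) :=
        (h.contZ hχ').mono fun τ hτ => (hτ.2.trans_lt ht : τ < 0)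
      have hc1 : ContinuousOn (fun τ : ℝ => (-τ) ^ (-(3 / 5) : ℝ)) (Icc s t) := by
        intro τ hτ
        exact ((continuousAt_id.neg).rpow_const (Or.inl (hneg τ hτ).1.ne')).continuousWithinAt
      have hc2 : ContinuousOn (fun τ : ℝ => (-τ) ^ (q - 1)) (Icc s t) := by
        intro τ hτ
        exact ((continuousAt_id.neg).rpow_const (Or.inl (hneg τ hτ).1.ne')).continuousWithinAt
      have h3 : ∫ τ in s..t, (2 * A * (-τ) ^ (-(3 / 5) : ℝ) + Real.sqrt E₀) * Zf χ' (v τ) ^ 2 ≤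
          ∫ τ in s..t, (2 * A + Real.sqrt E₀) * Cm ^ 2 * (-τ) ^ (q - 1) := by
        refine intervalIntegral.integral_mono_on hst ?_ ?_ fun τ hτ => ?_
        · refine ContinuousOn.intervalIntegrable_of_Icc hst ?_
          exact ((continuousOn_const.mul hc1).add continuousOn_const).mul (hcZ.pow 2)
        · exact (continuousOn_const.mul hc2).intervalIntegrable_of_Icc hst
        · obtain ⟨hτ0, hτ1⟩ := hneg τ hτ
          have hτn : τ < 0 := by linarith
          have h4 : Zf χ' (v τ) ≤ Cm * (-τ) ^ ((m : ℝ) / 5) :=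
            hCm τ ⟨by linarith, hτn⟩
          have h5 : 0 ≤ Zf χ' (v τ) := Zf_nonneg χ' hχ' (h.l2 τ hτn)
          have h6 : Zf χ' (v τ) ^ 2 ≤ Cm ^ 2 * (-τ) ^ (2 * (m : ℝ) / 5) := by
            have h7 : Zf χ' (v τ) ^ 2 ≤ (Cm * (-τ) ^ ((m : ℝ) / 5)) ^ 2 :=
              pow_le_pow_left₀ h5 h4 2
            refine h7.trans (le_of_eq ?_)
            rw [mul_pow, ← Real.rpow_natCast ((-τ) ^ ((m : ℝ) / 5)) 2, ← Real.rpow_mul hτ0.le]
            congr 2
            push_cast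
            ring
          have h8 : 1 ≤ (-τ) ^ (-(3 / 5) : ℝ) :=
            Real.one_le_rpow_of_pos_of_le_one_of_nonpos hτ0 hτ1 (by norm_num)
          have h9 : 2 * A * (-τ) ^ (-(3 / 5) : ℝ) + Real.sqrt E₀ ≤
              (2 * A + Real.sqrt E₀) * (-τ) ^ (-(3 / 5) : ℝ) := by
            nlinarith [Real.sqrt_nonneg E₀]
          have h10 : (-τ) ^ (q - 1) = (-τ) ^ (-(3 / 5) : ℝ) * (-τ) ^ (2 * (m : ℝ) / 5) := by
            rw [← Real.rpow_add hτ0]
            congr 1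
            rw [hq]
            ring
          rw [h10]
          have h11 : 0 ≤ (2 * A + Real.sqrt E₀) * (-τ) ^ (-(3 / 5) : ℝ) := by positivity
          calc (2 * A * (-τ) ^ (-(3 / 5) : ℝ) + Real.sqrt E₀) * Zf χ' (v τ) ^ 2
              ≤ ((2 * A + Real.sqrt E₀) * (-τ) ^ (-(3 / 5) : ℝ)) *
                (Cm ^ 2 * (-τ) ^ (2 * (m : ℝ) / 5)) :=
                mul_le_mul h9 h6 (sq_nonneg _) h11
            _ = (2 * A + Real.sqrt E₀) * Cm ^ 2 *
                ((-τ) ^ (-(3 / 5) : ℝ) * (-τ) ^ (2 * (m : ℝ) / 5)) := by ring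
      rw [intervalIntegral.integral_const_mul, E6_int hqpos hst ht] at h3
      have h12 : 0 ≤ (-t) ^ q := Real.rpow_nonneg (by linarith) _
      calc C * ∫ τ in s..t, (2 * A * (-τ) ^ (-(3 / 5) : ℝ) + Real.sqrt E₀) * Zf χ' (v τ) ^ 2
          ≤ C * ((2 * A + Real.sqrt E₀) * Cm ^ 2 * (((-s) ^ q - (-t) ^ q) / q)) :=
            mul_le_mul_of_nonneg_left h3 hC
        _ ≤ C * ((2 * A + Real.sqrt E₀) * Cm ^ 2 * ((-s) ^ q / q)) := by
            gcongr
            linarith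
        _ = D * (-s) ^ q := by rw [hD]; ring
    -- the limit `t → 0`
    have hlim : ∀ s ∈ Ico (-1 : ℝ) 0, Zf χ (v s) ^ 2 ≤ D * (-s) ^ q := by
      intro s hs1
      have h1 : Tendsto (fun t => Zf χ (v s) ^ 2 - Zf χ (v t) ^ 2) (𝓝[<] 0)
          (𝓝 (Zf χ (v s) ^ 2 - 0 ^ 2)) := ((E6_tendsto h h0 χ hχ hs).pow 2).const_sub _
      have h2 : Zf χ (v s) ^ 2 - 0 ^ 2 ≤ D * (-s) ^ q := by
        refine le_of_tendsto h1 ?_
        have h3 : Ioo s 0 ∈ 𝓝[<] (0 : ℝ) := Ioo_mem_nhdsLT hs1.2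
        filter_upwards [h3] with t ht
        exact hst s hs1 t ht.1.le ht.2
      simpa using h2
    refine ⟨Real.sqrt D, fun s hs1 => ?_⟩
    have hs0 : 0 < -s := by linarith [hs1.2]
    have h1 : Zf χ (v s) ≤ Real.sqrt (D * (-s) ^ q) := Real.le_sqrt_of_sq_le (hlim s hs1)
    refine h1.trans (le_of_eq ?_)
    rw [Real.sqrt_mul hD0]
    congr 1
    rw [Real.sqrt_eq_rpow, ← Real.rpow_mul hs0.le]
    congr 1
    rw [hq]
    push_cast
    ring

end Pool.Agent.Helper60.EC
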