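import Pool.Agent.Helper60.EC.F1a

/-! Project EC, F1b: flows of Lipschitz fields, dependence on the data -/

set_option autoImplicit false

open MeasureTheory Set Filter Topology
open scoped ENNReal ContDiff

noncomputable section

namespace Pool.Agent.Helper60.EC

open Pool.Agent.Helper52.NSE (E3 pd divg TestField)

variable {a b : ℝ} {w w' : ℝ → E3 → E3} {X X' : ℝ → E3 → E3}

private theorem F1b_right {f : ℝ → E3} {f' : E3} {t : ℝ} (ht : t ∈ Ico a b)
    (h : HasDerivWithinAt f f' (Icc a b) t) : HasDerivWithinAt f f' (Ici t) t :=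
  h.mono_of_mem_nhdsWithin (Icc_mem_nhdsGE_of_mem ht)

private theorem F1b_left {f : ℝ → E3} {f' : E3} {t : ℝ} (ht : t ∈ Ioc a b)
    (h : HasDerivWithinAt f f' (Icc a b) t) : HasDerivWithinAt f f' (Iic t) t :=
  h.mono_of_mem_nhdsWithin (Icc_mem_nhdsLE_of_mem ht)

theorem IsFlow.contT (h : IsFlow a b w X) (α : E3) : ContinuousOn (fun τ => X τ α) (Icc a b) :=
  fun t ht => (h.ode α t ht).continuousWithinAt

private theorem F1b_lipOn {L : ℝ} (hL0 : 0 ≤ L)
    (hL : ∀ s ∈ Icc a b, ∀ x y, ‖w s x - w s y‖ ≤ L * ‖x - y‖) (t : ℝ) (ht : t ∈ Icc a b) :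
    LipschitzOnWith ⟨L, hL0⟩ (w t) univ := by
  refine LipschitzOnWith.of_dist_le_mul fun x _ y _ => ?_
  rw [dist_eq_norm, dist_eq_norm]
  exact hL t ht x y

/-- dependence on the initial value, from above and from below -/
theorem IsFlow.lip (h : IsFlow a b w X) {L : ℝ} (hL0 : 0 ≤ L)
    (hL : ∀ s ∈ Icc a b, ∀ x y, ‖w s x - w s y‖ ≤ L * ‖x - y‖) {s : ℝ} (hs : s ∈ Icc a b)
    (α β : E3) : ‖X s α - X s β‖ ≤ Real.exp (L * (s - a)) * ‖α - β‖ ∧
      ‖α - β‖ ≤ Real.exp (L * (s - a)) * ‖X s α - X s β‖ := by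
  constructor
  · have h1 := dist_le_of_trajectories_ODE_of_mem (v := w) (s := fun _ => univ)
      (K := ⟨L, hL0⟩) (f := fun τ => X τ α) (g := fun τ => X τ β) (a := a) (b := b)
      (δ := ‖α - β‖)
      (fun t ht => F1b_lipOn hL0 hL t (Ico_subset_Icc_self ht)) (h.contT α)
      (fun t ht => F1b_right ht (h.ode α t (Ico_subset_Icc_self ht))) (fun _ _ => mem_univ _)
      (h.contT β) (fun t ht => F1b_right ht (h.ode β t (Ico_subset_Icc_self ht)))
      (fun _ _ => mem_univ _) (by simp only [h.init]; rw [dist_eq_norm]) s hs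
    rw [dist_eq_norm] at h1
    rw [mul_comm]
    exact h1
  · -- time reversal
    have hneg : ∀ (δ : E3), ∀ t ∈ Icc (-s) (-a), HasDerivWithinAt (fun τ => X (-τ) δ)
        (-(w (-t) (X (-t) δ))) (Icc (-s) (-a)) t := by
      intro δ t ht
      have h1 : -t ∈ Icc a b := ⟨by linarith [ht.2], by linarith [ht.1, hs.2]⟩
      have h2 := h.ode δ (-t) h1
      have h3 : MapsTo (fun τ : ℝ => -τ) (Icc (-s) (-a)) (Icc a b) := fun τ hτ =>
        ⟨by linarith [hτ.2], by linarith [hτ.1, hs.2]⟩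
      have h4 := HasDerivWithinAt.scomp t h2 (hasDerivAt_neg t).hasDerivWithinAt h3
      simpa [Function.comp_def] using h4
    have hcont : ∀ δ : E3, ContinuousOn (fun τ => X (-τ) δ) (Icc (-s) (-a)) := fun δ t ht =>
      (hneg δ t ht).continuousWithinAt
    have h1 := dist_le_of_trajectories_ODE_of_mem (v := fun t x => -(w (-t) x))
      (s := fun _ => univ) (K := ⟨L, hL0⟩) (f := fun τ => X (-τ) α) (g := fun τ => X (-τ) β)
      (a := -s) (b := -a) (δ := ‖X s α - X s β‖)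
      (fun t ht => by
        refine LipschitzOnWith.of_dist_le_mul fun x _ y _ => ?_
        rw [dist_eq_norm, dist_eq_norm]
        have h1 : -t ∈ Icc a b := ⟨by linarith [ht.2], by linarith [ht.1, hs.2]⟩
        have h2 := hL (-t) h1 y x
        have h3 : -(w (-t) x) - -(w (-t) y) = w (-t) y - w (-t) x := by abel
        rw [h3, norm_sub_rev x y]
        exact h2)
      (hcont α)
      (fun t ht => F1b_right ht (hneg α t (Ico_subset_Icc_self ht))) (fun _ _ => mem_univ _)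
      (hcont β) (fun t ht => F1b_right ht (hneg β t (Ico_subset_Icc_self ht)))
      (fun _ _ => mem_univ _) (by simp only [neg_neg]; rw [dist_eq_norm]) (-a)
      ⟨by linarith [hs.1], le_rfl⟩
    simp only [neg_neg, h.init] at h1
    rw [dist_eq_norm] at h1
    have h2 : -a - -s = s - a := by ring
    rw [h2] at h1
    rw [mul_comm]
    exact h1

/-- joint continuity -/
theorem IsFlow.cont (h : IsFlow a b w X) {M L : ℝ} (hM : ∀ s ∈ Icc a b, ∀ x, ‖w s x‖ ≤ M)
    (hL : ∀ s ∈ Icc a b, ∀ x y, ‖w s x - w s y‖ ≤ L * ‖x - y‖) :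
    ContinuousOn (fun p : ℝ × E3 => X p.1 p.2) (Icc a b ×ˢ univ) := by
  have hL0 : (0 : ℝ) ≤ max L 0 := le_max_right _ _
  have hL' : ∀ s ∈ Icc a b, ∀ x y, ‖w s x - w s y‖ ≤ max L 0 * ‖x - y‖ := fun s hs x y =>
    (hL s hs x y).trans (mul_le_mul_of_nonneg_right (le_max_left _ _) (norm_nonneg _))
  refine continuousOn_prod_of_continuousOn_lipschitzOnWith' (fun p : ℝ × E3 => X p.1 p.2)
    (Real.exp (max L 0 * (b - a))).toNNReal (fun s hs => ?_) (fun α _ => h.contT α)
  refine LipschitzOnWith.of_dist_le_mul fun α _ β _ => ?_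
  rw [dist_eq_norm, dist_eq_norm, Real.coe_toNNReal _ (Real.exp_pos _).le]
  refine ((h.lip hL0 hL' hs α β).1).trans ?_
  refine mul_le_mul_of_nonneg_right (Real.exp_le_exp.2 ?_) (norm_nonneg _)
  exact mul_le_mul_of_nonneg_left (by linarith [hs.2]) hL0

/-- displacement -/
theorem IsFlow.disp (h : IsFlow a b w X) {N : ℝ → ℝ} (hN : ContinuousOn N (Icc a b))
    (hwN : ∀ s ∈ Icc a b, ∀ x, ‖w s x‖ ≤ N s) {s t : ℝ} (hs : s ∈ Icc a b) (ht : t ∈ Icc a b)
    (hst : s ≤ t) (α : E3) : ‖X t α - X s α‖ ≤ ∫ τ in s..t, N τ := by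
  have hab : a ≤ b := hs.1.trans hs.2
  set N' : ℝ → ℝ := IccExtend hab ((Icc a b).domRestrict N) with hN'
  have hN'c : Continuous N' := by
    rw [hN']
    exact (continuousOn_iff_continuous_domRestrict.1 hN).Icc_extend'
  have hN'e : ∀ τ ∈ Icc a b, N' τ = N τ := fun τ hτ => by
    rw [hN', IccExtend_of_mem hab _ hτ]
    rfl
  have hint : ∫ τ in s..t, N τ = ∫ τ in s..t, N' τ := by
    refine intervalIntegral.integral_congr fun τ hτ => ?_
    rw [uIcc_of_le hst] at hτ
    exact (hN'e τ ⟨hs.1.trans hτ.1, hτ.2.trans ht.2⟩).symm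
  rw [hint]
  have hsub : Icc s t ⊆ Icc a b := Icc_subset_Icc hs.1 ht.2
  have h1 := image_norm_le_of_norm_deriv_right_le_deriv_boundary (a := s) (b := t)
    (f := fun τ => X τ α - X s α) (f' := fun τ => w τ (X τ α)) (B := fun u => ∫ τ in s..u, N' τ)
    (B' := N') (((h.contT α).mono hsub).sub continuousOn_const)
    (fun τ hτ => by
      have h2 := F1b_right ⟨hs.1.trans hτ.1, hτ.2.trans_le ht.2⟩
        (h.ode α τ ⟨hs.1.trans hτ.1, (hτ.2.trans_le ht.2).le⟩)
      exact h2.sub_const _)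
    (by simp)
    (fun x => intervalIntegral.integral_hasDerivAt_right (hN'c.intervalIntegrable _ _)
      (hN'c.stronglyMeasurableAtFilter _ _) hN'c.continuousAt)
    (fun τ hτ => by
      have h3 : τ ∈ Icc a b := ⟨hs.1.trans hτ.1, (hτ.2.trans_le ht.2).le⟩
      rw [hN'e τ h3]
      exact hwN τ h3 _)
  exact h1 ⟨hst, le_rfl⟩

/-- comparison of the flows of two fields; `K` contains the trajectory of the second flow -/
theorem IsFlow.compare (h : IsFlow a b w X) (h' : IsFlow a b w' X') {L ε : ℝ} (hL0 : 0 ≤ L)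
    (hL : ∀ s ∈ Icc a b, ∀ x y, ‖w s x - w s y‖ ≤ L * ‖x - y‖) (hε : 0 ≤ ε) (α : E3)
    (hd : ∀ s ∈ Icc a b, ‖w s (X' s α) - w' s (X' s α)‖ ≤ ε) {s : ℝ} (hs : s ∈ Icc a b) :
    ‖X s α - X' s α‖ ≤ ε * (s - a) * Real.exp (L * (s - a)) := by
  have h1 := dist_le_of_approx_trajectories_ODE_of_mem (v := w) (s := fun _ => univ)
    (K := ⟨L, hL0⟩) (f := fun τ => X τ α) (g := fun τ => X' τ α) (a := a) (b := b)
    (f' := fun τ => w τ (X τ α)) (g' := fun τ => w' τ (X' τ α)) (εf := 0) (εg := ε)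
    (δ := 0)
    (fun t ht => F1b_lipOn hL0 hL t (Ico_subset_Icc_self ht)) (h.contT α)
    (fun t ht => F1b_right ht (h.ode α t (Ico_subset_Icc_self ht)))
    (fun t ht => by rw [dist_self]) (fun _ _ => mem_univ _)
    (h'.contT α) (fun t ht => F1b_right ht (h'.ode α t (Ico_subset_Icc_self ht)))
    (fun t ht => by
      rw [dist_eq_norm, norm_sub_rev]
      exact hd t (Ico_subset_Icc_self ht))
    (fun _ _ => mem_univ _) (by simp only [h.init, h'.init, dist_self]; exact le_rfl) s hs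
  rw [dist_eq_norm] at h1
  have h1' : ‖X s α - X' s α‖ ≤ gronwallBound 0 L (0 + ε) (s - a) := h1
  refine h1'.trans ?_
  have hsa : 0 ≤ s - a := by linarith [hs.1]
  by_cases hL1 : L = 0
  · rw [hL1, gronwallBound_K0]
    simp
  · rw [gronwallBound_of_K_ne_0 hL1]
    have hLpos : 0 < L := lt_of_le_of_ne hL0 (Ne.symm hL1)
    simp only [zero_mul, zero_add]
    have h3 : Real.exp (L * (s - a)) - 1 ≤ L * (s - a) * Real.exp (L * (s - a)) := by
      have h4 := Real.add_one_le_exp (-(L * (s - a)))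
      have h5 : Real.exp (-(L * (s - a))) * Real.exp (L * (s - a)) = 1 := by
        rw [← Real.exp_add]; simp
      nlinarith [Real.exp_pos (L * (s - a))]
    calc ε / L * (Real.exp (L * (s - a)) - 1)
        ≤ ε / L * (L * (s - a) * Real.exp (L * (s - a))) :=
          mul_le_mul_of_nonneg_left h3 (by positivity)
      _ = ε * (s - a) * Real.exp (L * (s - a)) := by field_simp

end Pool.Agent.Helper60.EC
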