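import Pool.Agent.Helper60.EC.F1b

/-! Project EC, F1c: flow maps are bijective -/

set_option autoImplicit false

open MeasureTheory Set Filter Topology
open scoped ENNReal ContDiff

noncomputable section

namespace Pool.Agent.Helper60.EC

open Pool.Agent.Helper52.NSE (E3 pd divg TestField)

variable {a b : ℝ} {w w' : ℝ → E3 → E3} {X X' : ℝ → E3 → E3}

/-- the flow maps are bijective -/
theorem IsFlow.bij (h : IsFlow a b w X)
    (hc : ContinuousOn (fun p : ℝ × E3 => w p.1 p.2) (Icc a b ×ˢ univ))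
    {M L : ℝ} (hM : ∀ s ∈ Icc a b, ∀ x, ‖w s x‖ ≤ M)
    (hL : ∀ s ∈ Icc a b, ∀ x y, ‖w s x - w s y‖ ≤ L * ‖x - y‖) {s : ℝ} (hs : s ∈ Icc a b) :
    Function.Bijective (X s) := by
  have hL0 : (0 : ℝ) ≤ max L 0 := le_max_right _ _
  have hL' : ∀ s ∈ Icc a b, ∀ x y, ‖w s x - w s y‖ ≤ max L 0 * ‖x - y‖ := fun s hs x y =>
    (hL s hs x y).trans (mul_le_mul_of_nonneg_right (le_max_left _ _) (norm_nonneg _))
  constructor
  · intro α β hαβ
    have h1 := (h.lip hL0 hL' hs α β).2
    rw [hαβ, sub_self, norm_zero, mul_zero] at h1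
    exact sub_eq_zero.1 (norm_le_zero_iff.1 h1)
  · intro y
    have hab : a ≤ b := hs.1.trans hs.2
    have hM0 : 0 ≤ M := (norm_nonneg _).trans (hM s hs 0)
    have hPL : IsPicardLindelof w (⟨s, hs⟩ : Icc a b) y (M * (b - a)).toNNReal 0 M.toNNReal
        L.toNNReal := by
      refine ⟨fun t ht => ?_, fun x _ => ?_, fun t ht x _ => ?_, ?_⟩
      · refine LipschitzOnWith.of_dist_le_mul fun x _ y _ => ?_
        rw [dist_eq_norm, dist_eq_norm]
        refine (hL t ht x y).trans ?_
        exact mul_le_mul_of_nonneg_right (Real.le_coe_toNNReal L) (norm_nonneg _)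
      · exact hc.comp (f := fun τ : ℝ => (τ, x)) (by fun_prop) fun τ hτ => ⟨hτ, mem_univ _⟩
      · exact (hM t ht x).trans (Real.le_coe_toNNReal M)
      · have h1 : max (b - s) (s - a) ≤ b - a := max_le (by linarith [hs.1]) (by linarith [hs.2])
        show (M.toNNReal : ℝ) * max (b - s) (s - a) ≤ ((M * (b - a)).toNNReal : ℝ) - ((0 : NNReal) : ℝ)
        rw [Real.coe_toNNReal M hM0, Real.coe_toNNReal _ (mul_nonneg hM0 (by linarith))]
        have := mul_le_mul_of_nonneg_left h1 hM0
        simpa using this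
    obtain ⟨γ, hγs, hγ⟩ := hPL.exists_eq_forall_mem_Icc_hasDerivWithinAt₀
    have hγc : ContinuousOn γ (Icc a b) := fun t ht => (hγ t ht).continuousWithinAt
    refine ⟨γ a, ?_⟩
    have h1 : EqOn (fun τ => X τ (γ a)) γ (Icc a b) := by
      refine ODE_solution_unique_of_mem_Icc_right (v := w) (s := fun _ => univ)
        (K := (max L 0).toNNReal) (fun t ht => ?_) (h.contT _)
        (fun t ht => (h.ode (γ a) t (Ico_subset_Icc_self ht)).mono_of_mem_nhdsWithin
          (Icc_mem_nhdsGE_of_mem ht)) (fun _ _ => mem_univ _) hγc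
        (fun t ht => (hγ t (Ico_subset_Icc_self ht)).mono_of_mem_nhdsWithin
          (Icc_mem_nhdsGE_of_mem ht)) (fun _ _ => mem_univ _) (h.init _)
      refine LipschitzOnWith.of_dist_le_mul fun x _ y _ => ?_
      rw [dist_eq_norm, dist_eq_norm, Real.coe_toNNReal _ hL0]
      exact hL' t (Ico_subset_Icc_self ht) x y
    have h2 := h1 hs
    have h3 : γ s = y := hγs
    rw [← h3]
    exact h2

end Pool.Agent.Helper60.EC
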