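import Pool.Agent.Helper60.EC.Calc1a

/-! Project EC, F1a: flows of Lipschitz fields, existence -/

set_option autoImplicit false

open MeasureTheory Set Filter Topology
open scoped ENNReal ContDiff

noncomputable section

namespace Pool.Agent.Helper60.EC

open Pool.Agent.Helper52.NSE (E3 pd divg TestField)

/-- `X` is the flow of `w`, started at the time `a` -/
structure IsFlow (a b : ℝ) (w : ℝ → E3 → E3) (X : ℝ → E3 → E3) : Prop where
  init : ∀ α, X a α = α
  ode : ∀ α, ∀ s ∈ Icc a b, HasDerivWithinAt (fun τ => X τ α) (w s (X s α)) (Icc a b) s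

variable {a b : ℝ} {w w' : ℝ → E3 → E3} {X X' : ℝ → E3 → E3}

/-- global existence for bounded Lipschitz fields -/
theorem exists_flow (hab : a ≤ b) (hc : ContinuousOn (fun p : ℝ × E3 => w p.1 p.2) (Icc a b ×ˢ univ))
    {M L : ℝ} (hM : ∀ s ∈ Icc a b, ∀ x, ‖w s x‖ ≤ M)
    (hL : ∀ s ∈ Icc a b, ∀ x y, ‖w s x - w s y‖ ≤ L * ‖x - y‖) : ∃ X, IsFlow a b w X := by
  have h0 : a ∈ Icc a b := ⟨le_rfl, hab⟩
  have hM0 : 0 ≤ M := (norm_nonneg _).trans (hM a h0 0)
  have key : ∀ α : E3, ∃ γ : ℝ → E3, γ a = α ∧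
      ∀ t ∈ Icc a b, HasDerivWithinAt γ (w t (γ t)) (Icc a b) t := by
    intro α
    have hPL : IsPicardLindelof w (⟨a, h0⟩ : Icc a b) α (M * (b - a)).toNNReal 0 M.toNNReal
        L.toNNReal := by
      refine ⟨fun t ht => ?_, fun x _ => ?_, fun t ht x _ => ?_, ?_⟩
      · refine LipschitzOnWith.of_dist_le_mul fun x _ y _ => ?_
        rw [dist_eq_norm, dist_eq_norm]
        refine (hL t ht x y).trans ?_
        exact mul_le_mul_of_nonneg_right (Real.le_coe_toNNReal L) (norm_nonneg _)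
      · exact hc.comp (f := fun τ : ℝ => (τ, x)) (by fun_prop) fun τ hτ => ⟨hτ, mem_univ _⟩
      · exact (hM t ht x).trans (Real.le_coe_toNNReal M)
      · have h1 : max (b - a) (a - a) = b - a := by
          rw [sub_self]; exact max_eq_left (by linarith)
        show (M.toNNReal : ℝ) * max (b - a) (a - a) ≤ ((M * (b - a)).toNNReal : ℝ) - ((0 : NNReal) : ℝ)
        rw [h1, Real.coe_toNNReal M hM0, Real.coe_toNNReal _ (mul_nonneg hM0 (by linarith))]
        simp
    exact hPL.exists_eq_forall_mem_Icc_hasDerivWithinAt₀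
  choose γ h1 h2 using key
  exact ⟨fun t α => γ α t, fun α => h1 α, fun α t ht => h2 α t ht⟩

end Pool.Agent.Helper60.EC
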