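import Pool.Agent.Helper60.EC.F2a

/-! Project EC, F2b: bound of the derivative -/

set_option autoImplicit false

open MeasureTheory Set Filter Topology
open scoped ENNReal ContDiff

noncomputable section

namespace Pool.Agent.Helper60.EC

open Pool.Agent.Helper52.NSE (E3 pd divg TestField)

variable {a b : ℝ} {V : ℝ → E3 → E3} {X : ℝ → E3 → E3}

/-- bound of the derivative of the flow -/
theorem IsJac.bound {J : ℝ → E3 → (E3 →L[ℝ] E3)} (hJ : IsJac a b V X J) (hb : b < 0) {Λ : ℝ}
    (hΛ : 0 ≤ Λ) (hL : ∀ s ∈ Icc a b, ∀ x y, ‖V s x - V s y‖ ≤ Λ / (-s) * ‖x - y‖) {s : ℝ}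
    (hs : s ∈ Icc a b) (α : E3) : ‖J s α‖ ≤ (a / s) ^ Λ := by
  have ha : a < 0 := (hs.1.trans hs.2).trans_lt hb
  have hs0 : s < 0 := hs.2.trans_lt hb
  have hcont : ContinuousOn (fun τ => J τ α) (Icc a b) := fun t ht =>
    (hJ.ode α t ht).continuousWithinAt
  -- the bound with `Λ + δ`
  have key : ∀ δ : ℝ, 0 < δ → ‖J s α‖ ≤ (a / s) ^ (Λ + δ) := by
    intro δ hδ
    have hderiv : ∀ x < 0, HasDerivAt (fun x : ℝ => (a / x) ^ (Λ + δ))
        ((Λ + δ) / (-x) * (a / x) ^ (Λ + δ)) x := by
      intro x hx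
      have hpos : 0 < a / x := div_pos_of_neg_of_neg ha hx
      have h1 : HasDerivAt (fun x : ℝ => a / x) (-a / x ^ 2) x := by
        have h2 := (hasDerivAt_inv hx.ne).const_mul a
        refine (h2.congr_deriv ?_).congr_of_eventuallyEq (Eventually.of_forall fun y => ?_)
        · ring
        · exact div_eq_mul_inv a y
      have h2 := h1.rpow_const (p := Λ + δ) (Or.inl hpos.ne')
      refine h2.congr_deriv ?_
      have h3 : (a / x) ^ (Λ + δ) = (a / x) ^ (Λ + δ - 1) * (a / x) := by
        rw [← Real.rpow_add_one hpos.ne']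
        congr 1
        ring
      rw [h3]
      field_simp
    have h1 := image_norm_le_of_norm_deriv_right_lt_deriv_boundary' (a := a) (b := b)
      (f := fun τ => J τ α) (f' := fun τ => (fderiv ℝ (V τ) (X τ α)).comp (J τ α))
      (B := fun x : ℝ => (a / x) ^ (Λ + δ)) (B' := fun x => (Λ + δ) / (-x) * (a / x) ^ (Λ + δ))
      hcont
      (fun t ht => (hJ.ode α t (Ico_subset_Icc_self ht)).mono_of_mem_nhdsWithin
          (Icc_mem_nhdsGE_of_mem ht))
      (by
        show ‖J a α‖ ≤ (a / a) ^ (Λ + δ)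
        rw [hJ.init, div_self ha.ne, Real.one_rpow]
        exact ContinuousLinearMap.norm_id_le)
      (fun x hx => (hderiv x (hx.2.trans_lt hb)).continuousAt.continuousWithinAt)
      (fun x hx => (hderiv x (hx.2.trans hb)).hasDerivWithinAt)
      (fun x hx hxe => by
        have hx0 : x < 0 := hx.2.trans hb
        have hpos : 0 < a / x := div_pos_of_neg_of_neg ha hx0
        have hBpos : 0 < (a / x) ^ (Λ + δ) := Real.rpow_pos_of_pos hpos _
        have h2 : ‖fderiv ℝ (V x) (X x α)‖ ≤ Λ / (-x) := by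
          have hnn : 0 ≤ Λ / (-x) := div_nonneg hΛ (by linarith)
          have h3 : LipschitzWith ⟨Λ / (-x), hnn⟩ (V x) := by
            refine LipschitzWith.of_dist_le_mul fun y z => ?_
            rw [dist_eq_norm, dist_eq_norm]
            exact hL x (Ico_subset_Icc_self hx) y z
          exact norm_fderiv_le_of_lipschitz ℝ h3
        have h3 : ‖(fderiv ℝ (V x) (X x α)).comp (J x α)‖ ≤ Λ / (-x) * (a / x) ^ (Λ + δ) := by
          refine (ContinuousLinearMap.opNorm_comp_le _ _).trans ?_
          have hxe' : ‖J x α‖ = (a / x) ^ (Λ + δ) := hxe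
          rw [hxe']
          exact mul_le_mul_of_nonneg_right h2 hBpos.le
        refine h3.trans_lt ?_
        have h4 : Λ / (-x) < (Λ + δ) / (-x) := by
          apply div_lt_div_of_pos_right (by linarith) (by linarith)
        exact mul_lt_mul_of_pos_right h4 hBpos)
    exact h1 hs
  have hpos : 0 < a / s := div_pos_of_neg_of_neg ha hs0
  have h2 : Tendsto (fun δ : ℝ => (a / s) ^ (Λ + δ)) (𝓝[>] 0) (𝓝 ((a / s) ^ (Λ + 0))) := by
    have h3 : Continuous fun δ : ℝ => (a / s) ^ (Λ + δ) := by
      refine Continuous.rpow continuous_const (by fun_prop) fun x => Or.inl hpos.ne'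
    exact (h3.tendsto 0).mono_left nhdsWithin_le_nhds
  rw [add_zero] at h2
  exact ge_of_tendsto h2 (eventually_nhdsWithin_of_forall fun δ hδ => key δ hδ)

end Pool.Agent.Helper60.EC
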