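import Pool.Agent.Helper60.EC.F1

/-! Project EC, F2a: differentiability of the flow in the initial value -/

set_option autoImplicit false

open MeasureTheory Set Filter Topology
open scoped ENNReal ContDiff

noncomputable section

namespace Pool.Agent.Helper60.EC

open Pool.Agent.Helper52.NSE (E3 pd divg TestField)

/-- the derivative of the flow -/
structure IsJac (a b : ℝ) (V : ℝ → E3 → E3) (X : ℝ → E3 → E3) (J : ℝ → E3 → (E3 →L[ℝ] E3)) :
    Prop where
  init : ∀ α, J a α = ContinuousLinearMap.id ℝ E3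
  deriv : ∀ s ∈ Icc a b, ∀ α, HasFDerivAt (X s) (J s α) α
  ode : ∀ α, ∀ s ∈ Icc a b, HasDerivWithinAt (fun τ => J τ α)
    ((fderiv ℝ (V s) (X s α)).comp (J s α)) (Icc a b) s
  cont : ContinuousOn (fun p : ℝ × E3 => J p.1 p.2) (Icc a b ×ˢ univ)

variable {a b : ℝ} {V : ℝ → E3 → E3} {X : ℝ → E3 → E3}

/-- the radial retraction to the ball of radius `R` -/
private def F2a_rho {E : Type} [NormedAddCommGroup E] [NormedSpace ℝ E] (R : ℝ) (y : E) : E :=
  (R / max R ‖y‖) • y

private theorem F2a_rho_lip {E : Type} [NormedAddCommGroup E] [NormedSpace ℝ E] {R : ℝ}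
    (hR : 0 < R) (x y : E) : ‖F2a_rho R x - F2a_rho R y‖ ≤ 2 * ‖x - y‖ := by
  have hx : 0 < max R ‖x‖ := lt_max_of_lt_left hR
  have hy : 0 < max R ‖y‖ := lt_max_of_lt_left hR
  have h1 : F2a_rho R x - F2a_rho R y =
      (R / max R ‖x‖) • (x - y) + (R / max R ‖x‖ - R / max R ‖y‖) • y := by
    unfold F2a_rho
    rw [smul_sub, sub_smul]
    abel
  rw [h1]
  refine (norm_add_le _ _).trans ?_
  have h2 : ‖(R / max R ‖x‖) • (x - y)‖ ≤ ‖x - y‖ := by
    rw [norm_smul, Real.norm_eq_abs, abs_of_pos (div_pos hR hx)]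
    have : R / max R ‖x‖ ≤ 1 := (div_le_one hx).2 (le_max_left _ _)
    nlinarith [norm_nonneg (x - y)]
  have h3 : ‖(R / max R ‖x‖ - R / max R ‖y‖) • y‖ ≤ ‖x - y‖ := by
    rw [norm_smul, Real.norm_eq_abs]
    have h4 : R / max R ‖x‖ - R / max R ‖y‖ =
        R / max R ‖x‖ * ((max R ‖y‖ - max R ‖x‖) / max R ‖y‖) := by
      field_simp
    rw [h4, abs_mul, abs_of_pos (div_pos hR hx), abs_div, abs_of_pos hy]
    have h5 : |max R ‖y‖ - max R ‖x‖| ≤ ‖x - y‖ := by
      have h6 : |max R ‖y‖ - max R ‖x‖| ≤ |‖y‖ - ‖x‖| := by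
        have := abs_max_sub_max_le_abs ‖y‖ ‖x‖ R
        rwa [max_comm ‖y‖ R, max_comm ‖x‖ R] at this
      refine h6.trans ?_
      rw [norm_sub_rev]
      exact abs_norm_sub_norm_le y x
    have h6 : R / max R ‖x‖ ≤ 1 := (div_le_one hx).2 (le_max_left _ _)
    have h7 : ‖y‖ / max R ‖y‖ ≤ 1 := (div_le_one hy).2 (le_max_right _ _)
    have h8 : 0 ≤ R / max R ‖x‖ := (div_pos hR hx).le
    have h9 : 0 ≤ ‖y‖ / max R ‖y‖ := div_nonneg (norm_nonneg _) hy.le
    calc R / max R ‖x‖ * (|max R ‖y‖ - max R ‖x‖| / max R ‖y‖) * ‖y‖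
        = (R / max R ‖x‖) * (‖y‖ / max R ‖y‖) * |max R ‖y‖ - max R ‖x‖| := by ring
      _ ≤ 1 * 1 * ‖x - y‖ := by gcongr
      _ = ‖x - y‖ := by ring
  linarith

private theorem F2a_rho_norm {E : Type} [NormedAddCommGroup E] [NormedSpace ℝ E] {R : ℝ}
    (hR : 0 < R) (y : E) : ‖F2a_rho R y‖ ≤ R ∧ ‖F2a_rho R y‖ ≤ ‖y‖ := by
  have hy : 0 < max R ‖y‖ := lt_max_of_lt_left hR
  unfold F2a_rho
  rw [norm_smul, Real.norm_eq_abs, abs_of_pos (div_pos hR hy)]
  constructor
  · rw [div_mul_eq_mul_div, div_le_iff₀ hy]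
    exact mul_le_mul_of_nonneg_left (le_max_right _ _) hR.le
  · have : R / max R ‖y‖ ≤ 1 := (div_le_one hy).2 (le_max_left _ _)
    nlinarith [norm_nonneg y]

/-- global existence for fields of linear growth -/
private theorem F2a_global {E : Type} [NormedAddCommGroup E] [NormedSpace ℝ E] [CompleteSpace E]
    {a b : ℝ} (hab : a ≤ b) (F : ℝ → E → E) {K : ℝ} (hK0 : 0 ≤ K)
    (hF0 : ∀ t ∈ Icc a b, ∀ y, ‖F t y‖ ≤ K * ‖y‖)
    (hFL : ∀ t ∈ Icc a b, ∀ x y, ‖F t x - F t y‖ ≤ K * ‖x - y‖)
    (hFc : ∀ y, ContinuousOn (fun t => F t y) (Icc a b)) (x0 : E) :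
    ∃ y : ℝ → E, y a = x0 ∧ (∀ t ∈ Icc a b, HasDerivWithinAt y (F t (y t)) (Icc a b) t) ∧
      ∀ t ∈ Icc a b, ‖y t‖ ≤ ‖x0‖ * Real.exp (K * (t - a)) := by
  set R : ℝ := ‖x0‖ * Real.exp (K * (b - a)) + 1 with hR
  have hRpos : 0 < R := by positivity
  have h0 : a ∈ Icc a b := ⟨le_rfl, hab⟩
  have hPL : IsPicardLindelof (fun t y => F t (F2a_rho R y)) (⟨a, h0⟩ : Icc a b) x0
      (K * R * (b - a)).toNNReal 0 (K * R).toNNReal (K * 2).toNNReal := by
    refine ⟨fun t ht => ?_, fun x _ => ?_, fun t ht x _ => ?_, ?_⟩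
    · refine LipschitzOnWith.of_dist_le_mul fun x _ y _ => ?_
      rw [dist_eq_norm, dist_eq_norm, Real.coe_toNNReal _ (by positivity)]
      refine (hFL t ht _ _).trans ?_
      have := mul_le_mul_of_nonneg_left (F2a_rho_lip hRpos x y) hK0
      linarith
    · exact hFc _
    · rw [Real.coe_toNNReal _ (by positivity)]
      refine (hF0 t ht _).trans ?_
      exact mul_le_mul_of_nonneg_left (F2a_rho_norm hRpos x).1 hK0
    · have h1 : max (b - a) (a - a) = b - a := by
        rw [sub_self]; exact max_eq_left (by linarith)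
      show ((K * R).toNNReal : ℝ) * max (b - a) (a - a) ≤
        ((K * R * (b - a)).toNNReal : ℝ) - ((0 : NNReal) : ℝ)
      have h2 : 0 ≤ b - a := by linarith
      rw [h1, Real.coe_toNNReal _ (by positivity), Real.coe_toNNReal _ (by positivity)]
      simp
  obtain ⟨y, hya, hy⟩ := hPL.exists_eq_forall_mem_Icc_hasDerivWithinAt₀
  have hya' : y a = x0 := hya
  have hyc : ContinuousOn y (Icc a b) := fun t ht => (hy t ht).continuousWithinAt
  have hb : ∀ t ∈ Icc a b, ‖y t‖ ≤ ‖x0‖ * Real.exp (K * (t - a)) := by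
    intro t ht
    have h1 := norm_le_gronwallBound_of_norm_deriv_right_le (f := y)
      (f' := fun t => F t (F2a_rho R (y t))) (δ := ‖x0‖) (K := K) (ε := 0) (a := a) (b := b) hyc
      (fun t ht => (hy t (Ico_subset_Icc_self ht)).mono_of_mem_nhdsWithin
        (Icc_mem_nhdsGE_of_mem ht)) (by rw [hya'])
      (fun t ht => by
        rw [add_zero]
        refine (hF0 t (Ico_subset_Icc_self ht) _).trans ?_
        exact mul_le_mul_of_nonneg_left (F2a_rho_norm hRpos _).2 hK0) t ht
    rwa [gronwallBound_ε0] at h1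
  refine ⟨y, hya', fun t ht => ?_, hb⟩
  have h1 : ‖y t‖ ≤ R := by
    refine (hb t ht).trans ?_
    have h2 : Real.exp (K * (t - a)) ≤ Real.exp (K * (b - a)) :=
      Real.exp_le_exp.2 (mul_le_mul_of_nonneg_left (by linarith [ht.2]) hK0)
    have := mul_le_mul_of_nonneg_left h2 (norm_nonneg x0)
    linarith
  have h2 : F2a_rho R (y t) = y t := by
    unfold F2a_rho
    rw [max_eq_left h1, div_self hRpos.ne', one_smul]
  have h3 := hy t ht
  rwa [h2] at h3

theorem exists_jac (hab : a ≤ b) (hV : ContDiff ℝ ∞ (fun p : ℝ × E3 => V p.1 p.2))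
    {M L : ℝ} (hM : ∀ s ∈ Icc a b, ∀ x, ‖V s x‖ ≤ M)
    (hL : ∀ s ∈ Icc a b, ∀ x y, ‖V s x - V s y‖ ≤ L * ‖x - y‖) (h : IsFlow a b V X) :
    ∃ J, IsJac a b V X J := by
  set K : ℝ := max L 0 with hKdef
  have hK0 : (0 : ℝ) ≤ K := le_max_right _ _
  have hLK : ∀ s ∈ Icc a b, ∀ x y, ‖V s x - V s y‖ ≤ K * ‖x - y‖ := fun s hs x y =>
    (hL s hs x y).trans (mul_le_mul_of_nonneg_right (le_max_left _ _) (norm_nonneg _))
  -- the spatial derivative
  have hG : Continuous (fun p : ℝ × E3 => fderiv ℝ (V p.1) p.2) := by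
    have h1 : ContDiff ℝ ∞ (Function.uncurry fun (p : ℝ × E3) (y : E3) => V p.1 y) := by
      have : (Function.uncurry fun (p : ℝ × E3) (y : E3) => V p.1 y) =
          (fun p : ℝ × E3 => V p.1 p.2) ∘ fun q : (ℝ × E3) × E3 => (q.1.1, q.2) := rfl
      rw [this]
      exact hV.comp (by fun_prop)
    have h2 : ContDiff ℝ 0 (fun p : ℝ × E3 => fderiv ℝ (V p.1) p.2) :=
      ContDiff.fderiv (f := fun (p : ℝ × E3) (y : E3) => V p.1 y) (g := Prod.snd) h1
        contDiff_snd (by simp)
    exact h2.continuous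
  have hGn : ∀ s ∈ Icc a b, ∀ x, ‖fderiv ℝ (V s) x‖ ≤ K := by
    intro s hs x
    have h3 : LipschitzWith ⟨K, hK0⟩ (V s) := by
      refine LipschitzWith.of_dist_le_mul fun y z => ?_
      rw [dist_eq_norm, dist_eq_norm]
      exact hLK s hs y z
    exact norm_fderiv_le_of_lipschitz ℝ h3
  have hVd : ∀ s, Differentiable ℝ (V s) := by
    intro s
    have h1 : V s = (fun p : ℝ × E3 => V p.1 p.2) ∘ fun x : E3 => (s, x) := rfl
    rw [h1]
    exact (hV.comp (by fun_prop)).differentiable (by simp)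
  have hXc := h.cont hM hL
  have hXT : ∀ α, ContinuousOn (fun τ => X τ α) (Icc a b) := fun α t ht =>
    (h.ode α t ht).continuousWithinAt
  have hXL : ∀ s ∈ Icc a b, ∀ α β, ‖X s α - X s β‖ ≤ Real.exp (K * (b - a)) * ‖α - β‖ := by
    intro s hs α β
    refine ((h.lip hK0 hLK hs α β).1).trans ?_
    refine mul_le_mul_of_nonneg_right (Real.exp_le_exp.2 ?_) (norm_nonneg _)
    exact mul_le_mul_of_nonneg_left (by linarith [hs.2]) hK0
  -- the linear equation
  have hex := fun α : E3 => F2a_global (E := E3 →L[ℝ] E3) hab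
    (fun t Y => (fderiv ℝ (V t) (X t α)).comp Y) hK0
    (fun t ht Y => (ContinuousLinearMap.opNorm_comp_le _ _).trans
      (mul_le_mul_of_nonneg_right (hGn t ht _) (norm_nonneg _)))
    (fun t ht Y Z => by
      rw [← ContinuousLinearMap.comp_sub]
      exact (ContinuousLinearMap.opNorm_comp_le _ _).trans
        (mul_le_mul_of_nonneg_right (hGn t ht _) (norm_nonneg _)))
    (fun Y => by
      have h1 : ContinuousOn (fun t => fderiv ℝ (V t) (X t α)) (Icc a b) :=
        hG.comp_continuousOn (f := fun t : ℝ => (t, X t α)) (continuousOn_id.prodMk (hXT α))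
      exact h1.clm_comp continuousOn_const)
    (ContinuousLinearMap.id ℝ E3)
  choose J hJa hJd hJn using hex
  have hJc : ∀ α, ContinuousOn (J α) (Icc a b) := fun α t ht => (hJd α t ht).continuousWithinAt
  set R : ℝ := Real.exp (K * (b - a)) with hR
  have hR1 : 1 ≤ R := Real.one_le_exp (mul_nonneg hK0 (by linarith))
  have hJR : ∀ α, ∀ t ∈ Icc a b, ‖J α t‖ ≤ R := by
    intro α t ht
    refine (hJn α t ht).trans ?_
    have h1 : ‖ContinuousLinearMap.id ℝ E3‖ ≤ 1 := ContinuousLinearMap.norm_id_le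
    have h2 : Real.exp (K * (t - a)) ≤ R :=
      Real.exp_le_exp.2 (mul_le_mul_of_nonneg_left (by linarith [ht.2]) hK0)
    calc ‖ContinuousLinearMap.id ℝ E3‖ * Real.exp (K * (t - a)) ≤ 1 * R := by gcongr
      _ = R := one_mul R
  -- uniform continuity of the derivative along the trajectory
  have hunif : ∀ α : E3, ∀ ε > 0, ∃ δ > 0, ∀ s ∈ Icc a b, ∀ y : E3, ‖y - X s α‖ < δ →
      ‖fderiv ℝ (V s) y - fderiv ℝ (V s) (X s α)‖ < ε := by
    intro α ε hε
    obtain ⟨ρ, hρ⟩ : ∃ ρ, ∀ s ∈ Icc a b, ‖X s α‖ ≤ ρ := by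
      obtain ⟨C, hC⟩ := (isCompact_Icc.image_of_continuousOn (hXT α)).isBounded.exists_norm_le
      exact ⟨C, fun s hs => hC _ ⟨s, hs, rfl⟩⟩
    have hcomp : IsCompact (Icc a b ×ˢ Metric.closedBall (0 : E3) (ρ + 1)) :=
      isCompact_Icc.prod (isCompact_closedBall _ _)
    have huc := hcomp.uniformContinuousOn_of_continuous hG.continuousOn
    rw [Metric.uniformContinuousOn_iff] at huc
    obtain ⟨δ, hδ, h1⟩ := huc ε hε
    refine ⟨min δ 1, lt_min hδ one_pos, fun s hs y hy => ?_⟩
    have h2 := h1 (s, y) ⟨hs, ?_⟩ (s, X s α) ⟨hs, ?_⟩ ?_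
    · rwa [dist_eq_norm] at h2
    · rw [mem_closedBall_zero_iff]
      have h3 : ‖y‖ ≤ ‖y - X s α‖ + ‖X s α‖ := by
        have := norm_add_le (y - X s α) (X s α)
        simpa using this
      have h4 := (hy.trans_le (min_le_right _ _)).le
      linarith [hρ s hs]
    · rw [mem_closedBall_zero_iff]
      linarith [hρ s hs]
    · rw [Prod.dist_eq, max_lt_iff]
      constructor
      · rw [dist_self]; exact hδ
      · rw [dist_eq_norm]
        exact hy.trans_le (min_le_left _ _)
  refine ⟨fun t α => J α t, ⟨fun α => hJa α, fun s hs α => ?_, fun α s hs => hJd α s hs, ?_⟩⟩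
  · -- the derivative
    rw [hasFDerivAt_iff_isLittleO_nhds_zero, Asymptotics.isLittleO_iff]
    intro c hc
    -- `c = ε * R * (b - a + 1) * R`
    set ε : ℝ := c / (R * (b - a + 1) * R) with hε
    have hba : 0 ≤ b - a := by linarith
    have hεpos : 0 < ε := by positivity
    obtain ⟨δ, hδ, h1⟩ := hunif α ε hεpos
    have hball : Metric.ball (0 : E3) (δ / R) ∈ 𝓝 (0 : E3) := Metric.ball_mem_nhds _ (by positivity)
    filter_upwards [hball] with k hk
    rw [mem_ball_zero_iff] at hk
    have hkR : R * ‖k‖ < δ := by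
      rw [lt_div_iff₀ (by positivity)] at hk
      linarith
    -- the remainder
    have hrem := norm_le_gronwallBound_of_norm_deriv_right_le
      (f := fun t => X t (α + k) - X t α - J α t k)
      (f' := fun t => V t (X t (α + k)) - V t (X t α) -
        ((fderiv ℝ (V t) (X t α)).comp (J α t)) k) (δ := 0) (K := K) (ε := ε * (R * ‖k‖))
      (a := a) (b := b) (((hXT (α + k)).sub (hXT α)).sub
        ((hJc α).clm_apply continuousOn_const))
      (fun t ht => by
        have h2 := ((h.ode (α + k) t (Ico_subset_Icc_self ht)).sub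
          (h.ode α t (Ico_subset_Icc_self ht))).sub
          ((hJd α t (Ico_subset_Icc_self ht)).clm_apply (hasDerivWithinAt_const t _ k))
        have h3 := h2.mono_of_mem_nhdsWithin (Icc_mem_nhdsGE_of_mem ht)
        refine h3.congr_deriv ?_
        simp)
      (by simp [h.init, hJa])
      (fun t ht => by
        have ht' : t ∈ Icc a b := Ico_subset_Icc_self ht
        have h2 : ‖X t (α + k) - X t α‖ ≤ R * ‖k‖ := by
          have := hXL t ht' (α + k) α
          simpa using this
        have h3 : ‖V t (X t (α + k)) - V t (X t α) -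
            fderiv ℝ (V t) (X t α) (X t (α + k) - X t α)‖ ≤ ε * ‖X t (α + k) - X t α‖ := by
          refine Convex.norm_image_sub_le_of_norm_fderiv_le' (𝕜 := ℝ) (s := Metric.ball (X t α) δ)
            (fun y _ => hVd t y) (fun y hy => ?_) (convex_ball _ _) (Metric.mem_ball_self hδ) ?_
          · rw [mem_ball_iff_norm] at hy
            exact (h1 t ht' y hy).le
          · rw [mem_ball_iff_norm]
            exact h2.trans_lt hkR
        have h4 : V t (X t (α + k)) - V t (X t α) - ((fderiv ℝ (V t) (X t α)).comp (J α t)) k =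
            (V t (X t (α + k)) - V t (X t α) -
              fderiv ℝ (V t) (X t α) (X t (α + k) - X t α)) +
            fderiv ℝ (V t) (X t α) (X t (α + k) - X t α - J α t k) := by
          rw [ContinuousLinearMap.comp_apply, map_sub (fderiv ℝ (V t) (X t α)) (_ - _) (J α t k)]
          abel
        rw [h4]
        refine (norm_add_le _ _).trans ?_
        have h5 : ‖fderiv ℝ (V t) (X t α) (X t (α + k) - X t α - J α t k)‖ ≤
            K * ‖X t (α + k) - X t α - J α t k‖ :=
          (ContinuousLinearMap.le_opNorm _ _).trans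
            (mul_le_mul_of_nonneg_right (hGn t ht' _) (norm_nonneg _))
        have h6 : ε * ‖X t (α + k) - X t α‖ ≤ ε * (R * ‖k‖) :=
          mul_le_mul_of_nonneg_left h2 hεpos.le
        linarith) s hs
    have hgr : gronwallBound 0 K (ε * (R * ‖k‖)) (s - a) ≤ ε * (R * ‖k‖) * (b - a + 1) * R := by
      have hsa : 0 ≤ s - a := by linarith [hs.1]
      have hE : 0 ≤ ε * (R * ‖k‖) := by positivity
      have hexp : Real.exp (K * (s - a)) ≤ R :=
        Real.exp_le_exp.2 (mul_le_mul_of_nonneg_left (by linarith [hs.2]) hK0)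
      have hstep : gronwallBound 0 K (ε * (R * ‖k‖)) (s - a) ≤
          ε * (R * ‖k‖) * (s - a) * Real.exp (K * (s - a)) := by
        by_cases hKz : K = 0
        · rw [hKz, gronwallBound_K0]; simp
        · rw [gronwallBound_of_K_ne_0 hKz]
          have hKpos : 0 < K := lt_of_le_of_ne hK0 (Ne.symm hKz)
          have h3 : Real.exp (K * (s - a)) - 1 ≤ K * (s - a) * Real.exp (K * (s - a)) := by
            have h4 := Real.add_one_le_exp (-(K * (s - a)))
            have h5 : Real.exp (-(K * (s - a))) * Real.exp (K * (s - a)) = 1 := by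
              rw [← Real.exp_add]; simp
            nlinarith [Real.exp_pos (K * (s - a))]
          calc 0 * Real.exp (K * (s - a)) + ε * (R * ‖k‖) / K * (Real.exp (K * (s - a)) - 1)
              = ε * (R * ‖k‖) / K * (Real.exp (K * (s - a)) - 1) := by ring
            _ ≤ ε * (R * ‖k‖) / K * (K * (s - a) * Real.exp (K * (s - a))) :=
              mul_le_mul_of_nonneg_left h3 (by positivity)
            _ = ε * (R * ‖k‖) * (s - a) * Real.exp (K * (s - a)) := by field_simp
      refine hstep.trans ?_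
      have : s - a ≤ b - a + 1 := by linarith [hs.2]
      gcongr
    refine (hrem.trans hgr).trans (le_of_eq ?_)
    rw [hε]
    have : b - a + 1 ≠ 0 := by positivity
    field_simp
  · -- joint continuity
    intro p hp
    obtain ⟨s, α⟩ := p
    have hs : s ∈ Icc a b := hp.1
    rw [ContinuousWithinAt, Metric.tendsto_nhdsWithin_nhds]
    intro c hc
    have hba : 0 ≤ b - a := by linarith
    set ε : ℝ := c / 2 / (R * (b - a + 1) * R) with hε
    have hεpos : 0 < ε := by positivity
    obtain ⟨δ, hδ, h1⟩ := hunif α ε hεpos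
    obtain ⟨δ', hδ', h2⟩ : ∃ δ' > 0, ∀ t ∈ Icc a b, dist t s < δ' → dist (J α t) (J α s) < c / 2 := by
      have h3 := hJc α s hs
      rw [ContinuousWithinAt, Metric.tendsto_nhdsWithin_nhds] at h3
      obtain ⟨δ', hδ', h4⟩ := h3 (c / 2) (by positivity)
      exact ⟨δ', hδ', fun t ht htd => h4 ht htd⟩
    refine ⟨min (δ / R) δ', lt_min (by positivity) hδ', fun q hq hqd => ?_⟩
    obtain ⟨t, β⟩ := q
    have ht : t ∈ Icc a b := hq.1
    rw [Prod.dist_eq, max_lt_iff] at hqd
    have hqd1 : dist t s < δ' := hqd.1.trans_le (min_le_right _ _)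
    have hqd2 : ‖β - α‖ < δ / R := by
      rw [← dist_eq_norm]; exact hqd.2.trans_le (min_le_left _ _)
    have hqR : R * ‖β - α‖ < δ := by
      rw [lt_div_iff₀ (by positivity)] at hqd2
      linarith
    have hdiff := norm_le_gronwallBound_of_norm_deriv_right_le
      (f := fun u => J β u - J α u)
      (f' := fun u => (fderiv ℝ (V u) (X u β)).comp (J β u) -
        (fderiv ℝ (V u) (X u α)).comp (J α u)) (δ := 0) (K := K) (ε := ε * R)
      (a := a) (b := b) ((hJc β).sub (hJc α))
      (fun u hu => by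
        exact ((hJd β u (Ico_subset_Icc_self hu)).sub
          (hJd α u (Ico_subset_Icc_self hu))).mono_of_mem_nhdsWithin (Icc_mem_nhdsGE_of_mem hu))
      (by simp [hJa])
      (fun u hu => by
        have hu' : u ∈ Icc a b := Ico_subset_Icc_self hu
        have h3 : (fderiv ℝ (V u) (X u β)).comp (J β u) - (fderiv ℝ (V u) (X u α)).comp (J α u) =
            (fderiv ℝ (V u) (X u β)).comp (J β u - J α u) +
            (fderiv ℝ (V u) (X u β) - fderiv ℝ (V u) (X u α)).comp (J α u) := by
          rw [ContinuousLinearMap.comp_sub, ContinuousLinearMap.sub_comp]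
          abel
        rw [h3]
        refine (norm_add_le _ _).trans ?_
        have h4 : ‖(fderiv ℝ (V u) (X u β)).comp (J β u - J α u)‖ ≤ K * ‖J β u - J α u‖ :=
          (ContinuousLinearMap.opNorm_comp_le _ _).trans
            (mul_le_mul_of_nonneg_right (hGn u hu' _) (norm_nonneg _))
        have h5 : ‖(fderiv ℝ (V u) (X u β) - fderiv ℝ (V u) (X u α)).comp (J α u)‖ ≤ ε * R := by
          refine (ContinuousLinearMap.opNorm_comp_le _ _).trans ?_
          have h6 := (h1 u hu' (X u β) ((hXL u hu' β α).trans_lt hqR)).le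
          exact mul_le_mul h6 (hJR α u hu') (norm_nonneg _) hεpos.le
        linarith) t ht
    have hgr : gronwallBound 0 K (ε * R) (t - a) < c / 2 + 0 ∨
        gronwallBound 0 K (ε * R) (t - a) ≤ c / 2 := by
      right
      have hsa : 0 ≤ t - a := by linarith [ht.1]
      have hexp : Real.exp (K * (t - a)) ≤ R :=
        Real.exp_le_exp.2 (mul_le_mul_of_nonneg_left (by linarith [ht.2]) hK0)
      have hstep : gronwallBound 0 K (ε * R) (t - a) ≤
          ε * R * (t - a) * Real.exp (K * (t - a)) := by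
        by_cases hKz : K = 0
        · rw [hKz, gronwallBound_K0]; simp
        · rw [gronwallBound_of_K_ne_0 hKz]
          have hKpos : 0 < K := lt_of_le_of_ne hK0 (Ne.symm hKz)
          have h3 : Real.exp (K * (t - a)) - 1 ≤ K * (t - a) * Real.exp (K * (t - a)) := by
            have h4 := Real.add_one_le_exp (-(K * (t - a)))
            have h5 : Real.exp (-(K * (t - a))) * Real.exp (K * (t - a)) = 1 := by
              rw [← Real.exp_add]; simp
            nlinarith [Real.exp_pos (K * (t - a))]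
          calc 0 * Real.exp (K * (t - a)) + ε * R / K * (Real.exp (K * (t - a)) - 1)
              = ε * R / K * (Real.exp (K * (t - a)) - 1) := by ring
            _ ≤ ε * R / K * (K * (t - a) * Real.exp (K * (t - a))) :=
              mul_le_mul_of_nonneg_left h3 (by positivity)
            _ = ε * R * (t - a) * Real.exp (K * (t - a)) := by field_simp
      have h7 : ε * R * (t - a) * Real.exp (K * (t - a)) ≤ ε * R * (b - a + 1) * R := by
        have : t - a ≤ b - a + 1 := by linarith [ht.2]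
        gcongr
      refine (hstep.trans h7).trans (le_of_eq ?_)
      rw [hε]
      have : b - a + 1 ≠ 0 := by positivity
      field_simp
    have hgr' : gronwallBound 0 K (ε * R) (t - a) ≤ c / 2 := by
      rcases hgr with h8 | h8
      · linarith
      · exact h8
    have h9 : dist (J β t) (J α t) ≤ c / 2 := by
      rw [dist_eq_norm]
      exact hdiff.trans hgr'
    calc dist (J β t) (J α s) ≤ dist (J β t) (J α t) + dist (J α t) (J α s) := dist_triangle _ _ _
      _ < c / 2 + c / 2 := by linarith [h2 t ht hqd1]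
      _ = c := by ring

end Pool.Agent.Helper60.EC
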