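import Pool.Agent.Helper60.EC.F3a

/-! Project EC, F3b: flows of solenoidal fields preserve the volume -/

set_option autoImplicit false

open MeasureTheory Set Filter Topology
open scoped ENNReal ContDiff

noncomputable section

namespace Pool.Agent.Helper60.EC

open Pool.Agent.Helper52.NSE (E3 pd divg TestField)

variable {a b : ℝ} {V : ℝ → E3 → E3} {X : ℝ → E3 → E3} {J : ℝ → E3 → (E3 →L[ℝ] E3)}

theorem IsJac.measurePreserving (hJ : IsJac a b V X J) (h : IsFlow a b V X)
    (hV : ContDiff ℝ ∞ (fun p : ℝ × E3 => V p.1 p.2))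
    {M L : ℝ} (hM : ∀ s ∈ Icc a b, ∀ x, ‖V s x‖ ≤ M)
    (hL : ∀ s ∈ Icc a b, ∀ x y, ‖V s x - V s y‖ ≤ L * ‖x - y‖)
    (hd : ∀ s x, divg (V s) x = 0) {s : ℝ} (hs : s ∈ Icc a b) :
    MeasurePreserving (X s) volume volume := by
  have hbij : Function.Bijective (X s) := h.bij hV.continuous.continuousOn hM hL hs
  have hcont : Continuous (X s) := continuous_iff_continuousAt.2 fun α =>
    (hJ.deriv s hs α).continuousAt
  refine ⟨hcont.measurable, ?_⟩
  ext B hB
  rw [Measure.map_apply hcont.measurable hB]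
  have hpre : MeasurableSet (X s ⁻¹' B) := hcont.measurable hB
  have h1 := lintegral_abs_det_fderiv_eq_addHaar_image volume hpre
    (fun α _ => (hJ.deriv s hs α).hasFDerivWithinAt) hbij.1.injOn
  rw [image_preimage_eq B hbij.2] at h1
  rw [← h1]
  have h2 : ∀ α, ENNReal.ofReal |(J s α).det| = 1 := fun α => by
    rw [hJ.det hV hd hs α]; simp
  simp_rw [h2]
  rw [setLIntegral_const, one_mul]

end Pool.Agent.Helper60.EC
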