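import Pool.Agent.Helper60.EC.F2

/-! Project EC, F3a: Liouville formula -/

set_option autoImplicit false

open MeasureTheory Set Filter Topology
open scoped ENNReal ContDiff

noncomputable section

namespace Pool.Agent.Helper60.EC

open Pool.Agent.Helper52.NSE (E3 pd divg TestField)

variable {a b : ℝ} {V : ℝ → E3 → E3} {X : ℝ → E3 → E3} {J : ℝ → E3 → (E3 →L[ℝ] E3)}

private theorem F3a_det (T : E3 →L[ℝ] E3) : T.det =
    (Matrix.of fun i j : Fin 3 => T (EuclideanSpace.single j (1 : ℝ)) i).det := by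
  have h1 := LinearMap.det_toMatrix (EuclideanSpace.basisFun (Fin 3) ℝ).toBasis (T : E3 →ₗ[ℝ] E3)
  show LinearMap.det (T : E3 →ₗ[ℝ] E3) = _
  rw [← h1]
  congr 1

/-- Liouville's formula -/
theorem IsJac.det (hJ : IsJac a b V X J) (hV : ContDiff ℝ ∞ (fun p : ℝ × E3 => V p.1 p.2))
    (hd : ∀ s x, divg (V s) x = 0) {s : ℝ} (hs : s ∈ Icc a b) (α : E3) : (J s α).det = 1 := by
  -- entries
  set m : Fin 3 → Fin 3 → ℝ → ℝ := fun i j τ => J τ α (EuclideanSpace.single j (1 : ℝ)) i with hm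
  set A : ℝ → Fin 3 → Fin 3 → ℝ := fun τ i k =>
    fderiv ℝ (V τ) (X τ α) (EuclideanSpace.single k (1 : ℝ)) i with hA
  have hmd : ∀ i j, ∀ τ ∈ Icc a b, HasDerivWithinAt (m i j) (∑ k, A τ i k * m k j τ)
      (Icc a b) τ := by
    intro i j τ hτ
    have h1 := (hJ.ode α τ hτ).clm_apply
      (hasDerivWithinAt_const τ (Icc a b) (EuclideanSpace.single j (1 : ℝ) : E3))
    have h2 := (EuclideanSpace.proj i : E3 →L[ℝ] ℝ).hasFDerivAt.comp_hasDerivWithinAt τ h1
    refine (h2.congr_deriv ?_)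
    have h3 : J τ α (EuclideanSpace.single j (1 : ℝ)) =
        ∑ k, m k j τ • (EuclideanSpace.single k (1 : ℝ) : E3) := by
      ext l
      simp [hm, Finset.sum_apply, Pi.single_apply]
    have h4 : ((fderiv ℝ (V τ) (X τ α)).comp (J τ α)) (EuclideanSpace.single j (1 : ℝ)) =
        ∑ k, m k j τ • fderiv ℝ (V τ) (X τ α) (EuclideanSpace.single k (1 : ℝ)) := by
      rw [ContinuousLinearMap.comp_apply, h3, map_sum]
      exact Finset.sum_congr rfl fun k _ => map_smul _ _ _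
    simp only [map_zero, add_zero]
    rw [h4, map_sum]
    refine Finset.sum_congr rfl fun k _ => ?_
    rw [map_smul]
    simp [hA, mul_comm]
  have htr : ∀ τ, A τ 0 0 + A τ 1 1 + A τ 2 2 = 0 := by
    intro τ
    have h1 := hd τ (X τ α)
    have h2 : divg (V τ) (X τ α) = ∑ i, A τ i i := rfl
    rw [h2, Fin.sum_univ_three] at h1
    exact h1
  set δ : ℝ → ℝ := fun τ => (Matrix.of fun i j : Fin 3 => m i j τ).det with hδ
  have hδe : ∀ τ, δ τ = m 0 0 τ * m 1 1 τ * m 2 2 τ - m 0 0 τ * m 1 2 τ * m 2 1 τ -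
      m 0 1 τ * m 1 0 τ * m 2 2 τ + m 0 1 τ * m 1 2 τ * m 2 0 τ + m 0 2 τ * m 1 0 τ * m 2 1 τ -
      m 0 2 τ * m 1 1 τ * m 2 0 τ := by
    intro τ
    rw [hδ]
    simp only [Matrix.det_fin_three, Matrix.of_apply]
  have hδd : ∀ τ ∈ Icc a b, HasDerivWithinAt δ 0 (Icc a b) τ := by
    intro τ hτ
    have h := fun i j => hmd i j τ hτ
    have h1 := (((((((h 0 0).mul (h 1 1)).mul (h 2 2)).sub (((h 0 0).mul (h 1 2)).mul (h 2 1))).sub
      (((h 0 1).mul (h 1 0)).mul (h 2 2))).add (((h 0 1).mul (h 1 2)).mul (h 2 0))).add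
      (((h 0 2).mul (h 1 0)).mul (h 2 1))).sub (((h 0 2).mul (h 1 1)).mul (h 2 0))
    have h2 : HasDerivWithinAt δ _ (Icc a b) τ := h1.congr_of_mem (fun t _ => hδe t) hτ
    refine h2.congr_deriv ?_
    have h3 : A τ 2 2 = -(A τ 0 0 + A τ 1 1) := by linarith [htr τ]
    simp only [Fin.sum_univ_three, Pi.mul_apply, h3]
    ring
  have hconst : δ s = δ a :=
    constant_of_has_deriv_right_zero (fun τ hτ => (hδd τ hτ).continuousWithinAt)
      (fun τ hτ => (hδd τ (Ico_subset_Icc_self hτ)).mono_of_mem_nhdsWithin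
        (Icc_mem_nhdsGE_of_mem hτ)) s hs
  have h1 : ∀ τ, (J τ α).det = δ τ := fun τ => F3a_det (J τ α)
  rw [h1 s, hconst, ← h1 a, hJ.init, ContinuousLinearMap.det]
  exact LinearMap.det_id

end Pool.Agent.Helper60.EC
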