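import Pool.Agent.Helper60.EC.F4a

/-! Project EC, F4b: transport identity -/

set_option autoImplicit false

open MeasureTheory Set Filter Topology
open scoped ENNReal ContDiff

noncomputable section

namespace Pool.Agent.Helper60.EC

open Pool.Agent.Helper52.NSE (E3 pd divg TestField)

variable {a b : ℝ} {V S : ℝ → E3 → E3} {X : ℝ → E3 → E3} {J : ℝ → E3 → (E3 →L[ℝ] E3)}

/-- the time derivative of the integrand -/
private def F4b_F (V : ℝ → E3 → E3) (X : ℝ → E3 → E3) (J : ℝ → E3 → (E3 →L[ℝ] E3)) (B : E3 → E3)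
    (s : ℝ) (α : E3) : ℝ :=
  inner ℝ (deriv (fun τ => V τ (X s α)) s + fderiv ℝ (V s) (X s α) (V s (X s α))) (J s α (B α)) +
    inner ℝ (V s (X s α)) (fderiv ℝ (V s) (X s α) (J s α (B α)))

private theorem F4b_split (hV : ContDiff ℝ ∞ (fun p : ℝ × E3 => V p.1 p.2)) (s : ℝ) (x : E3) :
    deriv (fun τ => V τ x) s = fderiv ℝ (fun p : ℝ × E3 => V p.1 p.2) (s, x) (1, 0) ∧
    ∀ y, fderiv ℝ (V s) x y = fderiv ℝ (fun p : ℝ × E3 => V p.1 p.2) (s, x) (0, y) := by
  have hd : HasFDerivAt (fun p : ℝ × E3 => V p.1 p.2)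
      (fderiv ℝ (fun p : ℝ × E3 => V p.1 p.2) (s, x)) (s, x) :=
    ((hV.differentiable (by simp)) (s, x)).hasFDerivAt
  constructor
  · have h1 : HasDerivAt (fun τ : ℝ => ((τ, x) : ℝ × E3)) ((1 : ℝ), (0 : E3)) s :=
      (hasDerivAt_id s).prodMk (hasDerivAt_const s x)
    have h2 := hd.comp_hasDerivAt s h1
    exact h2.deriv
  · intro y
    have h1 : HasFDerivAt (fun y : E3 => ((s, y) : ℝ × E3)) (ContinuousLinearMap.inr ℝ ℝ E3) x :=
      hasFDerivAt_prodMk_right s x
    have h2 : HasFDerivAt (V s) _ x := hd.comp x h1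
    rw [h2.fderiv]
    rfl

private theorem F4b_deriv (hV : ContDiff ℝ ∞ (fun p : ℝ × E3 => V p.1 p.2))
    (h : IsFlow a b V X) (hJ : IsJac a b V X J) (B : E3 → E3) {s : ℝ} (hs : s ∈ Icc a b) (α : E3) :
    HasDerivWithinAt (fun τ => inner ℝ (V τ (X τ α)) (J τ α (B α))) (F4b_F V X J B s α)
      (Icc a b) s := by
  have hd : HasFDerivAt (fun p : ℝ × E3 => V p.1 p.2)
      (fderiv ℝ (fun p : ℝ × E3 => V p.1 p.2) (s, X s α)) (s, X s α) :=
    ((hV.differentiable (by simp)) (s, X s α)).hasFDerivAt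
  have h1 : HasDerivWithinAt (fun τ : ℝ => ((τ, X τ α) : ℝ × E3)) ((1 : ℝ), V s (X s α))
      (Icc a b) s := (hasDerivAt_id s).hasDerivWithinAt.prodMk (h.ode α s hs)
  have h2 : HasDerivWithinAt (fun τ => V τ (X τ α))
      (fderiv ℝ (fun p : ℝ × E3 => V p.1 p.2) (s, X s α) (1, V s (X s α))) (Icc a b) s :=
    HasFDerivAt.comp_hasDerivWithinAt (l := fun p : ℝ × E3 => V p.1 p.2)
      (f := fun τ : ℝ => ((τ, X τ α) : ℝ × E3)) s hd h1
  have h3 : fderiv ℝ (fun p : ℝ × E3 => V p.1 p.2) (s, X s α) (1, V s (X s α)) =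
      deriv (fun τ => V τ (X s α)) s + fderiv ℝ (V s) (X s α) (V s (X s α)) := by
    rw [(F4b_split hV s (X s α)).1, (F4b_split hV s (X s α)).2, ← map_add]
    simp
  rw [h3] at h2
  have h4 : HasDerivWithinAt (fun τ => J τ α (B α))
      (((fderiv ℝ (V s) (X s α)).comp (J s α)) (B α)) (Icc a b) s := by
    have h5 := (hJ.ode α s hs).clm_apply (hasDerivWithinAt_const s (Icc a b) (B α))
    simpa using h5
  have h5 := h2.inner ℝ h4
  refine h5.congr_deriv ?_
  unfold F4b_F
  rw [add_comm]
  rfl

theorem HH_diff (hab : a ≤ b) (hSF : SF a b V S) (h : IsFlow a b V X) (hJ : IsJac a b V X J)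
    {B : E3 → E3} (hB : TestField univ B) {ε G : ℝ} (hε : 0 ≤ ε)
    (hS : ∀ s ∈ Icc a b, ∀ α ∈ tsupport B, ‖S s (X s α)‖ ≤ ε)
    (hG : ∀ s ∈ Icc a b, ∀ α, ‖J s α‖ ≤ G) :
    |HH V X J B b - HH V X J B a| ≤ (b - a) * ε * G * ∫ α, ‖B α‖ := by
  have hV := hSF.smooth
  have hG0 : 0 ≤ G := (norm_nonneg _).trans (hG a ⟨le_rfl, hab⟩ 0)
  have hBc : Continuous B := hB.smooth.continuous
  have hBi : Integrable (fun α => ‖B α‖) := hBc.norm.integrable_of_hasCompactSupport hB.compact.norm
  -- joint continuity of the flow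
  have hXc : ContinuousOn (fun p : ℝ × E3 => X p.1 p.2) (Icc a b ×ˢ tsupport B) := by
    -- the flow is Lipschitz in the space variable (bounded derivative) and continuous in time
    have h1 : ∀ s ∈ Icc a b, LipschitzOnWith G.toNNReal (fun α => X s α) univ := by
      intro s hs
      refine LipschitzOnWith.of_dist_le_mul fun α _ β _ => ?_
      rw [dist_eq_norm, dist_eq_norm, Real.coe_toNNReal _ hG0]
      have h2 := Convex.norm_image_sub_le_of_norm_hasFDerivWithin_le (𝕜 := ℝ) (f := X s)
        (f' := J s) (C := G) (s := univ) (fun x _ => (hJ.deriv s hs x).hasFDerivWithinAt)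
        (fun x _ => hG s hs x) convex_univ (mem_univ β) (mem_univ α)
      exact h2
    have h2 := continuousOn_prod_of_continuousOn_lipschitzOnWith'
      (fun p : ℝ × E3 => X p.1 p.2) G.toNNReal (s := Icc a b) (t := univ) h1
      (fun α _ t ht => (h.ode α t ht).continuousWithinAt)
    exact h2.mono (prod_mono_right (subset_univ _))
  have hJc : ContinuousOn (fun p : ℝ × E3 => J p.1 p.2) (Icc a b ×ˢ tsupport B) :=
    hJ.cont.mono (prod_mono_right (subset_univ _))
  have hcompact : IsCompact (Icc a b ×ˢ tsupport B) := isCompact_Icc.prod hB.compact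
  -- continuity of the derivative of the integrand
  have hDV : Continuous (fderiv ℝ (fun p : ℝ × E3 => V p.1 p.2)) := hV.continuous_fderiv (by simp)
  have hFc : ContinuousOn (fun p : ℝ × E3 => F4b_F V X J B p.1 p.2) (Icc a b ×ˢ tsupport B) := by
    have hpX : ContinuousOn (fun p : ℝ × E3 => ((p.1, X p.1 p.2) : ℝ × E3))
        (Icc a b ×ˢ tsupport B) := continuousOn_fst.prodMk hXc
    have hDc : ContinuousOn (fun p : ℝ × E3 => fderiv ℝ (fun p : ℝ × E3 => V p.1 p.2)
        (p.1, X p.1 p.2)) (Icc a b ×ˢ tsupport B) := hDV.comp_continuousOn hpX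
    have hVc : ContinuousOn (fun p : ℝ × E3 => V p.1 (X p.1 p.2)) (Icc a b ×ˢ tsupport B) :=
      hV.continuous.comp_continuousOn hpX
    have hJB : ContinuousOn (fun p : ℝ × E3 => J p.1 p.2 (B p.2)) (Icc a b ×ˢ tsupport B) :=
      hJc.clm_apply (hBc.comp continuous_snd).continuousOn
    have e1 : (fun p : ℝ × E3 => F4b_F V X J B p.1 p.2) = fun p : ℝ × E3 =>
        inner ℝ (fderiv ℝ (fun p : ℝ × E3 => V p.1 p.2) (p.1, X p.1 p.2) (1, 0) +
          fderiv ℝ (fun p : ℝ × E3 => V p.1 p.2) (p.1, X p.1 p.2) (0, V p.1 (X p.1 p.2)))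
          (J p.1 p.2 (B p.2)) +
        inner ℝ (V p.1 (X p.1 p.2)) (fderiv ℝ (fun p : ℝ × E3 => V p.1 p.2) (p.1, X p.1 p.2)
          (0, J p.1 p.2 (B p.2))) := by
      funext p
      unfold F4b_F
      rw [(F4b_split hV p.1 (X p.1 p.2)).1, (F4b_split hV p.1 (X p.1 p.2)).2,
        (F4b_split hV p.1 (X p.1 p.2)).2]
    rw [e1]
    exact (((hDc.clm_apply continuousOn_const).add
      (hDc.clm_apply (continuousOn_const.prodMk hVc))).inner hJB).add
      (hVc.inner (hDc.clm_apply (continuousOn_const.prodMk hJB)))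
  have hF0 : ∀ s α, α ∉ tsupport B → F4b_F V X J B s α = 0 := by
    intro s α hα
    unfold F4b_F
    rw [image_eq_zero_of_notMem_tsupport hα]
    simp
  -- integrability on the product
  have hFint : Integrable (Function.uncurry fun (α : E3) (s : ℝ) => F4b_F V X J B s α)
      (volume.prod (volume.restrict (Ioc a b))) := by
    have h1 : IntegrableOn (fun p : E3 × ℝ => F4b_F V X J B p.2 p.1)
        (tsupport B ×ˢ Icc a b) (volume.prod volume) := by
      have h2 : ContinuousOn (fun p : E3 × ℝ => F4b_F V X J B p.2 p.1) (tsupport B ×ˢ Icc a b) :=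
        hFc.comp (f := fun p : E3 × ℝ => ((p.2, p.1) : ℝ × E3)) (by fun_prop)
          fun p hp => ⟨hp.2, hp.1⟩
      exact h2.integrableOn_compact (hB.compact.isCompact.prod isCompact_Icc)
    have h2 : IntegrableOn (fun p : E3 × ℝ => F4b_F V X J B p.2 p.1)
        (univ ×ˢ Ioc a b) (volume.prod volume) := by
      refine (h1.mono_set (s := tsupport B ×ˢ Ioc a b)
        (prod_mono_right Ioc_subset_Icc_self)).of_forall_sdiff_eq_zero
        (MeasurableSet.univ.prod measurableSet_Ioc) ?_
      rintro ⟨α, s⟩ ⟨⟨-, hs⟩, hn⟩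
      exact hF0 s α fun hα => hn ⟨hα, hs⟩
    have h3 : (volume : Measure E3).prod (volume.restrict (Ioc a b)) =
        ((volume : Measure E3).prod (volume : Measure ℝ)).restrict (univ ×ˢ Ioc a b) := by
      rw [← Measure.prod_restrict, Measure.restrict_univ]
    rw [h3]
    exact h2
  -- the difference
  have hcs : ∀ s ∈ Icc a b, Integrable (fun α => inner ℝ (V s (X s α)) (J s α (B α))) := by
    intro s hs
    have hXs : Continuous (X s) := continuous_iff_continuousAt.2 fun α =>
      (hJ.deriv s hs α).continuousAt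
    have hJs : Continuous (J s) := hJ.cont.comp_continuous (f := fun α : E3 => ((s, α) : ℝ × E3))
      (by fun_prop) fun α => ⟨hs, mem_univ _⟩
    have hVs : Continuous (V s) := hV.continuous.comp (by fun_prop : Continuous fun x : E3 =>
      ((s, x) : ℝ × E3))
    refine Continuous.integrable_of_hasCompactSupport ((hVs.comp hXs).inner (hJs.clm_apply hBc)) ?_
    refine hB.compact.mono fun α hα => ?_
    rw [Function.mem_support] at hα ⊢
    intro h0
    apply hα
    rw [h0]
    simp
  have hFTC : ∀ α, inner ℝ (V b (X b α)) (J b α (B α)) - inner ℝ (V a (X a α)) (J a α (B α)) =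
      ∫ s in Ioc a b, F4b_F V X J B s α := by
    intro α
    rw [← intervalIntegral.integral_of_le hab]
    by_cases hα : α ∈ tsupport B
    · have h1 : ContinuousOn (fun s => F4b_F V X J B s α) (Icc a b) :=
        hFc.comp (f := fun s : ℝ => ((s, α) : ℝ × E3)) (by fun_prop) fun s hs => ⟨hs, hα⟩
      refine (intervalIntegral.integral_eq_sub_of_hasDerivAt_of_le hab
        (f := fun τ => inner ℝ (V τ (X τ α)) (J τ α (B α)))
        (fun s hs => (F4b_deriv hV h hJ B hs α).continuousWithinAt)
        (fun s hs => (F4b_deriv hV h hJ B (Ioo_subset_Icc_self hs) α).hasDerivAt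
          (Icc_mem_nhds hs.1 hs.2)) ?_).symm
      exact h1.intervalIntegrable_of_Icc hab
    · have h1 : B α = 0 := image_eq_zero_of_notMem_tsupport hα
      have h2 : ∀ s, F4b_F V X J B s α = 0 := fun s => hF0 s α hα
      simp only [h1, h2]
      simp
  have hdiff : HH V X J B b - HH V X J B a = ∫ s in a..b, ∫ α, F4b_F V X J B s α := by
    unfold HH
    rw [← integral_sub (hcs b ⟨hab, le_rfl⟩) (hcs a ⟨le_rfl, hab⟩)]
    simp_rw [hFTC]
    rw [integral_integral_swap hFint, intervalIntegral.integral_of_le hab]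
  -- the space integral
  have hinner : ∀ s ∈ Icc a b, |∫ α, F4b_F V X J B s α| ≤ ε * G * ∫ α, ‖B α‖ := by
    intro s hs
    obtain ⟨q, hq, hqe⟩ := hSF.eqn s hs
    have hVs : ContDiff ℝ ∞ (V s) := by
      have h1 : V s = (fun p : ℝ × E3 => V p.1 p.2) ∘ fun x : E3 => (s, x) := rfl
      rw [h1]
      exact hV.comp (by fun_prop)
    have hVd : Differentiable ℝ (V s) := hVs.differentiable (by simp)
    set Q : E3 → ℝ := fun x => q x - inner ℝ (V s x) (V s x) / 2 with hQ
    have hQs : ContDiff ℝ ∞ Q := hq.sub ((hVs.inner ℝ hVs).div_const 2)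
    have hgz := grad_flow_zero h hJ hs hQs hB
    have hXs : Continuous (X s) := continuous_iff_continuousAt.2 fun α =>
      (hJ.deriv s hs α).continuousAt
    have hJs : Continuous (J s) := hJ.cont.comp_continuous (f := fun α : E3 => ((s, α) : ℝ × E3))
      (by fun_prop) fun α => ⟨hs, mem_univ _⟩
    have hSs : Continuous (S s) := hSF.smoothS.continuous.comp (by fun_prop : Continuous fun x : E3 =>
      ((s, x) : ℝ × E3))
    have hFe : ∀ α, F4b_F V X J B s α = -inner ℝ (S s (X s α)) (J s α (B α)) -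
        inner ℝ (grad Q (X s α)) (J s α (B α)) := by
      intro α
      unfold F4b_F
      have h1 := hqe (X s α)
      have h2 : adv (V s) (V s) (X s α) = fderiv ℝ (V s) (X s α) (V s (X s α)) := by
        rw [fderiv_eq_sum]; rfl
      rw [h2] at h1
      have h3 : deriv (fun τ => V τ (X s α)) s + fderiv ℝ (V s) (X s α) (V s (X s α)) =
          -S s (X s α) - grad q (X s α) := by
        rw [eq_sub_iff_add_eq, ← sub_eq_zero]
        rw [← sub_eq_zero] at h1
        rw [← h1]
        abel
      rw [h3, F4a_inner_grad, inner_sub_left, inner_neg_left, F4a_inner_grad]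
      have h4 : fderiv ℝ Q (X s α) (J s α (B α)) = fderiv ℝ q (X s α) (J s α (B α)) -
          inner ℝ (V s (X s α)) (fderiv ℝ (V s) (X s α) (J s α (B α))) := by
        have hqd : DifferentiableAt ℝ q (X s α) := (hq.differentiable (by simp)) _
        have hin : HasFDerivAt (fun x => inner ℝ (V s x) (V s x)) _ (X s α) :=
          (hVd (X s α)).hasFDerivAt.inner ℝ (hVd (X s α)).hasFDerivAt
        have h5 : HasFDerivAt Q _ (X s α) := hqd.hasFDerivAt.sub (hin.mul_const (1 / 2 : ℝ) |>.congr_of_eventuallyEq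
          (Eventually.of_forall fun x => by simp [div_eq_mul_inv]))
        rw [h5.fderiv]
        simp only [sub_apply, smul_apply,
          ContinuousLinearMap.comp_apply, fderivInnerCLM_apply, ContinuousLinearMap.prod_apply,
          smul_eq_mul]
        rw [real_inner_comm (V s (X s α)) (fderiv ℝ (V s) (X s α) (J s α (B α)))]
        ring
      rw [h4]
      ring
    have hi1 : Integrable (fun α => -inner ℝ (S s (X s α)) (J s α (B α))) := by
      refine (Continuous.integrable_of_hasCompactSupport ((hSs.comp hXs).inner (hJs.clm_apply hBc))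
        ?_).neg
      refine hB.compact.mono fun α hα => ?_
      rw [Function.mem_support] at hα ⊢
      intro h0
      apply hα
      rw [h0]
      simp
    have hi2 : Integrable (fun α => inner ℝ (grad Q (X s α)) (J s α (B α))) := by
      have hgc : Continuous fun α => inner ℝ (grad Q (X s α)) (J s α (B α)) := by
        have h6 : (fun α => inner ℝ (grad Q (X s α)) (J s α (B α))) =
            fun α => fderiv ℝ Q (X s α) (J s α (B α)) := by
          funext α; exact F4a_inner_grad _ _ _
        rw [h6]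
        exact ((hQs.continuous_fderiv (by simp)).comp hXs).clm_apply (hJs.clm_apply hBc)
      refine hgc.integrable_of_hasCompactSupport (hB.compact.mono fun α hα => ?_)
      rw [Function.mem_support] at hα ⊢
      intro h0
      apply hα
      rw [h0]
      simp
    simp_rw [hFe]
    rw [integral_sub hi1 hi2, hgz, sub_zero, ← integral_const_mul]
    refine (abs_integral_le_integral_abs).trans ?_
    refine integral_mono_of_nonneg (Eventually.of_forall fun α => abs_nonneg _)
      (hBi.const_mul _) (Eventually.of_forall fun α => ?_)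
    show |-inner ℝ (S s (X s α)) (J s α (B α))| ≤ ε * G * ‖B α‖
    rw [abs_neg]
    by_cases hα : α ∈ tsupport B
    · refine (abs_real_inner_le_norm _ _).trans ?_
      have h6 : ‖J s α (B α)‖ ≤ G * ‖B α‖ :=
        (ContinuousLinearMap.le_opNorm _ _).trans
          (mul_le_mul_of_nonneg_right (hG s hs α) (norm_nonneg _))
      calc ‖S s (X s α)‖ * ‖J s α (B α)‖ ≤ ε * (G * ‖B α‖) :=
            mul_le_mul (hS s hs α hα) h6 (norm_nonneg _) hε
        _ = ε * G * ‖B α‖ := by ring
    · rw [image_eq_zero_of_notMem_tsupport hα]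
      simp
  rw [hdiff]
  have h7 := intervalIntegral.norm_integral_le_of_norm_le_const (a := a) (b := b)
    (f := fun s => ∫ α, F4b_F V X J B s α) (C := ε * G * ∫ α, ‖B α‖) (fun s hs => by
      rw [uIoc_of_le hab] at hs
      exact hinner s (Ioc_subset_Icc_self hs))
  rw [Real.norm_eq_abs, abs_of_nonneg (by linarith : 0 ≤ b - a)] at h7
  calc |∫ s in a..b, ∫ α, F4b_F V X J B s α| ≤ ε * G * (∫ α, ‖B α‖) * (b - a) := h7
    _ = (b - a) * ε * G * ∫ α, ‖B α‖ := by ring

end Pool.Agent.Helper60.EC
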