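import Pool.Agent.Helper60.EC.F2

/-! Project EC, F4a: gradients along the flow -/

set_option autoImplicit false

open MeasureTheory Set Filter Topology
open scoped ENNReal ContDiff

noncomputable section

namespace Pool.Agent.Helper60.EC

open Pool.Agent.Helper52.NSE (E3 pd divg TestField)

/-- `∫ V(s, X) · J B` -/
def HH (V : ℝ → E3 → E3) (X : ℝ → E3 → E3) (J : ℝ → E3 → (E3 →L[ℝ] E3)) (B : E3 → E3)
    (s : ℝ) : ℝ := ∫ α, inner ℝ (V s (X s α)) (J s α (B α))

variable {a b : ℝ} {V S : ℝ → E3 → E3} {X : ℝ → E3 → E3} {J : ℝ → E3 → (E3 →L[ℝ] E3)}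

theorem F4a_inner_grad (Q : E3 → ℝ) (y v : E3) : inner ℝ (grad Q y) v = fderiv ℝ Q y v := by
  rw [fderiv_eq_sum]
  simp only [PiLp.inner_apply, grad, Fin.sum_univ_three, smul_eq_mul]
  simp

theorem F4a_contDiff (hJ : IsJac a b V X J) {s : ℝ} (hs : s ∈ Icc a b) :
    ContDiff ℝ 1 (X s) := by
  rw [contDiff_one_iff_fderiv]
  constructor
  · intro α
    exact (hJ.deriv s hs α).differentiableAt
  · have h1 : fderiv ℝ (X s) = J s := by
      funext α
      exact (hJ.deriv s hs α).fderiv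
    rw [h1]
    have h2 : Continuous (fun α : E3 => ((s, α) : ℝ × E3)) := by fun_prop
    exact hJ.cont.comp_continuous h2 (fun α => ⟨hs, mem_univ _⟩)

/-- a gradient, composed with the flow, is orthogonal to the transported field -/
theorem grad_flow_zero (h : IsFlow a b V X) (hJ : IsJac a b V X J) {s : ℝ} (hs : s ∈ Icc a b)
    {Q : E3 → ℝ} (hQ : ContDiff ℝ ∞ Q) {B : E3 → E3} (hB : TestField univ B) :
    ∫ α, inner ℝ (grad Q (X s α)) (J s α (B α)) = 0 := by
  have hX := F4a_contDiff hJ hs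
  have hQ1 : ContDiff ℝ 1 Q := hQ.of_le (by exact_mod_cast le_top)
  have hB1 : ContDiff ℝ 1 B := hB.smooth.of_le (by exact_mod_cast le_top)
  have hc : ContDiff ℝ 1 (fun α => Q (X s α)) := hQ1.comp hX
  have key := ip_grad_zero hc hB1 hB.compact hB.div
  rw [← key]
  unfold ip
  refine integral_congr_ae (Eventually.of_forall fun α => ?_)
  simp only
  rw [F4a_inner_grad, F4a_inner_grad]
  have h1 : HasFDerivAt (fun α => Q (X s α)) ((fderiv ℝ Q (X s α)).comp (J s α)) α :=
    ((hQ1.differentiable (by norm_num)) (X s α)).hasFDerivAt.comp α (hJ.deriv s hs α)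
  rw [h1.fderiv]
  rfl

end Pool.Agent.Helper60.EC
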