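import Pool.Agent.Helper60.EC.F3
import Pool.Agent.Helper60.EC.F4

/-! Project EC, F5: the transported functional is controlled by the norm of the solenoidal part -/

set_option autoImplicit false

open MeasureTheory Set Filter Topology
open scoped ENNReal ContDiff

noncomputable section

namespace Pool.Agent.Helper60.EC

open Pool.Agent.Helper52.NSE (E3 pd divg TestField)

variable {a b : ℝ} {V : ℝ → E3 → E3} {X : ℝ → E3 → E3} {J : ℝ → E3 → (E3 →L[ℝ] E3)}

/-- Cauchy-Schwarz for the norms -/
private theorem F5_cs {f g : E3 → E3} (hf : MemLp f 2 volume) (hg : MemLp g 2 volume) :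
    ∫ x, ‖f x‖ * ‖g x‖ ≤ Real.sqrt (sq f) * Real.sqrt (sq g) := by
  have h2 : ENNReal.ofReal 2 = 2 := by norm_num
  have h1 := integral_mul_norm_le_Lp_mul_Lq (μ := (volume : Measure E3)) (p := 2) (q := 2)
    (f := f) (g := g) Real.HolderConjugate.two_two (by rw [h2]; exact hf) (by rw [h2]; exact hg)
  refine h1.trans (le_of_eq ?_)
  unfold sq
  rw [Real.sqrt_eq_rpow, Real.sqrt_eq_rpow]
  norm_num

theorem HH_bound (hab : a ≤ b) (h : IsFlow a b V X) (hJ : IsJac a b V X J)
    (hmp : MeasurePreserving (X b) volume volume) {B : E3 → E3} (hB : TestField univ B)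
    {G z : ℝ} (hG : ∀ α, ‖J b α‖ ≤ G) (hz : 0 ≤ z) {U : Set E3} (hU : IsOpen U)
    (hX : ∀ α ∈ tsupport B, X b α ∈ U) {u c : E3 → E3} {Q : E3 → ℝ} (hu : ContDiff ℝ ∞ u)
    (hc : ContDiff ℝ ∞ c) (hQ : ContDiff ℝ ∞ Q) (hu2 : MemLp u 2 volume)
    (hdec : ∀ x ∈ U, V b x = u x + c x + grad Q x) (hsu : sq u ≤ z ^ 2)
    (hcz : ∀ x ∈ U, ‖c x‖ ≤ z) :
    |HH V X J B b| ≤ G * z * (Real.sqrt (sq B) + ∫ α, ‖B α‖) := by
  have hbm : b ∈ Icc a b := ⟨hab, le_rfl⟩
  have hG0 : 0 ≤ G := (norm_nonneg _).trans (hG 0)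
  have hBc : Continuous B := hB.smooth.continuous
  have hBi : Integrable (fun α => ‖B α‖) := hBc.norm.integrable_of_hasCompactSupport hB.compact.norm
  have hB2 : MemLp B 2 volume := hBc.memLp_of_hasCompactSupport hB.compact
  have hXb : Continuous (X b) := continuous_iff_continuousAt.2 fun α =>
    (hJ.deriv b hbm α).continuousAt
  have hJb : Continuous (J b) := hJ.cont.comp_continuous (f := fun α : E3 => ((b, α) : ℝ × E3))
    (by fun_prop) fun α => ⟨hbm, mem_univ _⟩
  have hJB : Continuous fun α => J b α (B α) := hJb.clm_apply hBc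
  have hJBn : ∀ α, ‖J b α (B α)‖ ≤ G * ‖B α‖ := fun α =>
    (ContinuousLinearMap.le_opNorm _ _).trans
      (mul_le_mul_of_nonneg_right (hG α) (norm_nonneg _))
  have hint : ∀ f : E3 → E3, Continuous f →
      Integrable fun α => inner ℝ (f (X b α)) (J b α (B α)) := by
    intro f hf
    refine Continuous.integrable_of_hasCompactSupport ((hf.comp hXb).inner hJB) ?_
    refine hB.compact.mono fun α hα => ?_
    rw [Function.mem_support] at hα ⊢
    intro h0
    apply hα
    rw [h0]
    simp
  have hgc : Integrable fun α => inner ℝ (grad Q (X b α)) (J b α (B α)) := by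
    have h6 : (fun α => inner ℝ (grad Q (X b α)) (J b α (B α))) =
        fun α => fderiv ℝ Q (X b α) (J b α (B α)) := by
      funext α; exact F4a_inner_grad _ _ _
    have hcont : Continuous fun α => inner ℝ (grad Q (X b α)) (J b α (B α)) := by
      rw [h6]
      exact ((hQ.continuous_fderiv (by simp)).comp hXb).clm_apply hJB
    refine hcont.integrable_of_hasCompactSupport (hB.compact.mono fun α hα => ?_)
    rw [Function.mem_support] at hα ⊢
    intro h0
    apply hα
    rw [h0]
    simp
  have hsplit : HH V X J B b = (∫ α, inner ℝ (u (X b α)) (J b α (B α))) +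
      ∫ α, inner ℝ (c (X b α)) (J b α (B α)) := by
    have h1 := grad_flow_zero h hJ hbm hQ hB
    have h2 : HH V X J B b = ∫ α, (inner ℝ (u (X b α)) (J b α (B α)) +
        inner ℝ (c (X b α)) (J b α (B α))) + inner ℝ (grad Q (X b α)) (J b α (B α)) := by
      unfold HH
      refine integral_congr_ae (Eventually.of_forall fun α => ?_)
      simp only
      by_cases hα : α ∈ tsupport B
      · rw [hdec _ (hX α hα), inner_add_left, inner_add_left]
      · rw [image_eq_zero_of_notMem_tsupport hα]
        simp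
    have h3 : Integrable fun α => inner ℝ (u (X b α)) (J b α (B α)) +
        inner ℝ (c (X b α)) (J b α (B α)) := (hint u hu.continuous).add (hint c hc.continuous)
    rw [h2, integral_add h3 hgc, h1, add_zero,
      integral_add (hint u hu.continuous) (hint c hc.continuous)]
  -- the solenoidal part
  have huX : MemLp (fun α => u (X b α)) 2 volume := hu2.comp_measurePreserving hmp
  have hsqX : sq (fun α => u (X b α)) = sq u := by
    unfold sq
    have h1 := integral_map (μ := (volume : Measure E3)) (φ := X b) hXb.measurable.aemeasurable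
      (f := fun x => ‖u x‖ ^ 2) (hu.continuous.norm.pow 2).aestronglyMeasurable
    rw [hmp.map_eq] at h1
    exact h1.symm
  have hprod : Integrable fun α => ‖u (X b α)‖ * ‖B α‖ := by
    refine Continuous.integrable_of_hasCompactSupport
      ((hu.continuous.comp hXb).norm.mul hBc.norm) ?_
    refine hB.compact.mono fun α hα => ?_
    rw [Function.mem_support] at hα ⊢
    intro h0
    apply hα
    rw [h0]
    simp
  have h1 : |∫ α, inner ℝ (u (X b α)) (J b α (B α))| ≤ G * (z * Real.sqrt (sq B)) := by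
    refine (abs_integral_le_integral_abs).trans ?_
    have h2 : ∫ α, |inner ℝ (u (X b α)) (J b α (B α))| ≤ ∫ α, G * (‖u (X b α)‖ * ‖B α‖) := by
      refine integral_mono_of_nonneg (Eventually.of_forall fun α => abs_nonneg _)
        (hprod.const_mul G) (Eventually.of_forall fun α => ?_)
      show |inner ℝ (u (X b α)) (J b α (B α))| ≤ G * (‖u (X b α)‖ * ‖B α‖)
      refine (abs_real_inner_le_norm _ _).trans ?_
      calc ‖u (X b α)‖ * ‖J b α (B α)‖ ≤ ‖u (X b α)‖ * (G * ‖B α‖) :=
            mul_le_mul_of_nonneg_left (hJBn α) (norm_nonneg _)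
        _ = G * (‖u (X b α)‖ * ‖B α‖) := by ring
    refine h2.trans ?_
    rw [integral_const_mul]
    refine mul_le_mul_of_nonneg_left ?_ hG0
    refine (F5_cs huX hB2).trans ?_
    rw [hsqX]
    refine mul_le_mul_of_nonneg_right ?_ (Real.sqrt_nonneg _)
    exact Real.sqrt_le_iff.2 ⟨hz, hsu⟩
  have h3 : |∫ α, inner ℝ (c (X b α)) (J b α (B α))| ≤ G * (z * ∫ α, ‖B α‖) := by
    refine (abs_integral_le_integral_abs).trans ?_
    rw [← integral_const_mul, ← integral_const_mul]
    refine integral_mono_of_nonneg (Eventually.of_forall fun α => abs_nonneg _)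
      ((hBi.const_mul z).const_mul G) (Eventually.of_forall fun α => ?_)
    show |inner ℝ (c (X b α)) (J b α (B α))| ≤ G * (z * ‖B α‖)
    by_cases hα : α ∈ tsupport B
    · refine (abs_real_inner_le_norm _ _).trans ?_
      calc ‖c (X b α)‖ * ‖J b α (B α)‖ ≤ z * (G * ‖B α‖) :=
            mul_le_mul (hcz _ (hX α hα)) (hJBn α) (norm_nonneg _) hz
        _ = G * (z * ‖B α‖) := by ring
    · rw [image_eq_zero_of_notMem_tsupport hα]
      simp
  rw [hsplit]
  refine (abs_add_le _ _).trans ?_
  calc |∫ α, inner ℝ (u (X b α)) (J b α (B α))| + |∫ α, inner ℝ (c (X b α)) (J b α (B α))|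
      ≤ G * (z * Real.sqrt (sq B)) + G * (z * ∫ α, ‖B α‖) := add_le_add h1 h3
    _ = G * z * (Real.sqrt (sq B) + ∫ α, ‖B α‖) := by ring

end Pool.Agent.Helper60.EC
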