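import Pool.Agent.Helper60.EC.Z7
import Pool.Agent.Helper60.EC.P7

/-! Project EC, Z10: decomposition in a ball where the cutoff is one -/

set_option autoImplicit false

open MeasureTheory Set Filter Topology
open scoped ENNReal ContDiff

noncomputable section

namespace Pool.Agent.Helper60.EC

open Pool.Agent.Helper52.NSE (E3 pd divg TestField)

/-- in a ball inside `{χ' = 1}`: `w = u + b + ∇Q` with `u` small in `L²(ℝ³)`, `b` small in the
ball -/
theorem ball_decomp {χ' : E3 → ℝ} (hχ' : Cc χ') {a : E3} {R : ℝ} (hR : 0 < R) {U : Set E3}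
    (hU : IsOpen U) (hs : Metric.closedBall a R ⊆ U) (h1 : ∀ x ∈ U, χ' x = 1) :
    ∃ C : ℝ, 0 ≤ C ∧ ∀ w : E3 → E3, Sml w → ∃ (u b : E3 → E3) (Q : E3 → ℝ),
      ContDiff ℝ ∞ u ∧ ContDiff ℝ ∞ b ∧ ContDiff ℝ ∞ Q ∧ MemLp u 2 volume ∧
      (∀ x ∈ Metric.ball a R, w x = u x + b x + grad Q x) ∧
      sq u ≤ C * Zf χ' w ^ 2 ∧ ∀ x ∈ Metric.ball a R, ‖b x‖ ≤ C * Zf χ' w := by
  obtain ⟨C, hC, hint⟩ := uu_interior hχ' hU h1 (isCompact_closedBall a R) hs
  refine ⟨2 + R * C, by positivity, fun w hw => ?_⟩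
  obtain ⟨hus, hum, hub⟩ := uu_smooth hχ' hw
  have hid := uu_identities hχ' hw hU h1
  have hbs := (bet_smooth hχ' hw).1
  have hZ : 0 ≤ Zf χ' w := Zf_nonneg χ' hχ' hw.l2
  set δ : E3 → ℝ := divg (bet χ' w) with hδ
  have hδs : ContDiff ℝ ∞ δ := divg_smooth hbs
  have hsub : Metric.ball a R ⊆ U := Metric.ball_subset_closedBall.trans hs
  -- the field -∇δ
  have hGs : ContDiff ℝ ∞ (fun x => (-1 : ℝ) • grad δ x) :=
    (grad_smooth hδs).const_smul (-1 : ℝ)
  have hdiff : ∀ {G : Type} [NormedAddCommGroup G] [NormedSpace ℝ G] {f : E3 → G},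
      ContDiff ℝ ∞ f → ∀ x, DifferentiableAt ℝ f x := fun hf x =>
    (hf.differentiable (by simp)).differentiableAt
  have hGdiv : ∀ x ∈ Metric.ball a R, divg (fun x => (-1 : ℝ) • grad δ x) x = 0 := by
    intro x hx
    have e : (fun x => (-1 : ℝ) • grad δ x) = sm (fun _ => (-1 : ℝ)) (grad δ) := rfl
    rw [e, divg_sm (by fun_prop) (hdiff (grad_smooth hδs) x)]
    have h0 : grad (fun _ : E3 => (-1 : ℝ)) x = 0 := by
      ext i; fin_cases i <;> simp [grad, D]
    rw [h0, divg_grad (hδs.of_le ENat.LEInfty.out), (hid x (hsub hx)).2.2]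
    simp
  obtain ⟨b, hbs', hb⟩ := exists_vector_potential a R (C * Zf χ' w) hR
    (fun x => (-1 : ℝ) • grad δ x) hGs hGdiv (by
      intro x hx
      rw [norm_smul]
      simpa using (hint w hw x (Metric.ball_subset_closedBall hx)).1)
  have hgs : ContDiff ℝ ∞ (fun x => (w x - uu χ' w x) - b x) :=
    (hw.smooth.sub hus).sub hbs'
  obtain ⟨Q, hQs, hQ⟩ := exists_potential a (Metric.ball a R) Metric.isOpen_ball
    ((convex_ball a R).starConvex (Metric.mem_ball_self hR))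
    (fun x => (w x - uu χ' w x) - b x) hgs (by
      intro x hx
      rw [curl_sub (hdiff (hw.smooth.sub hus) x) (hdiff hbs' x),
        curl_sub (hdiff hw.smooth x) (hdiff hus x), (hid x (hsub hx)).1, (hb x hx).1]
      simp)
  refine ⟨uu χ' w, b, Q, hus, hbs', hQs, hum, ?_, ?_, ?_⟩
  · intro x hx
    rw [hQ x hx]
    abel
  · refine hub.trans ?_
    have : 0 ≤ R * C * Zf χ' w ^ 2 := by positivity
    nlinarith
  · intro x hx
    refine (hb x hx).2.trans ?_
    nlinarith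

end Pool.Agent.Helper60.EC
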