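import Pool.Agent.Helper60.EC.F5
import Pool.Agent.Helper60.EC.E6
import Pool.Agent.Helper60.EC.Z10

/-! Project EC, F6: the vorticity vanishes along trajectories which do not reach the atom -/

set_option autoImplicit false

open MeasureTheory Set Filter Topology
open scoped ENNReal ContDiff

noncomputable section

namespace Pool.Agent.Helper60.EC

open Pool.Agent.Helper52.NSE (E3 pd divg TestField)

/-- the displacement integral -/
theorem F6_int (A : ℝ) {a b : ℝ} (hab : a ≤ b) (hb : b < 0) :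
    ∫ τ in a..b, 2 * A * (-τ) ^ (-(3 / 5) : ℝ) =
      5 * A * ((-a) ^ (2 / 5 : ℝ) - (-b) ^ (2 / 5 : ℝ)) := by
  have h1 : ∫ τ in a..b, 2 * A * (-τ) ^ (-(3 / 5) : ℝ) =
      ∫ τ in (-b)..(-a), 2 * A * τ ^ (-(3 / 5) : ℝ) :=
    intervalIntegral.integral_comp_neg (fun τ => 2 * A * τ ^ (-(3 / 5) : ℝ))
  rw [h1, intervalIntegral.integral_const_mul, integral_rpow]
  · norm_num
    ring
  · right
    constructor
    · norm_num
    · rw [uIcc_of_le (by linarith)]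
      intro h
      linarith [h.1]

theorem F6_C1 {C₁ C₂ C₃ E₀ : ℝ} {v : ℝ → E3 → E3} (h : Anc C₁ C₂ C₃ E₀ v) : 0 ≤ C₁ := by
  have h1 := h.lip (-1) (by norm_num) 0 (EuclideanSpace.single 0 1)
  have h2 : ‖(0 : E3) - EuclideanSpace.single 0 1‖ = 1 := by simp
  rw [h2] at h1
  have := norm_nonneg (v (-1) 0 - v (-1) (EuclideanSpace.single 0 1))
  norm_num at h1
  linarith

theorem F6_A {A : ℝ} {v : ℝ → E3 → E3}
    (hA : ∀ s < 0, ∀ x, ‖v s x‖ ≤ A * (-s) ^ (-(3 / 5) : ℝ)) : 0 ≤ A := by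
  have h1 := hA (-1) (by norm_num) 0
  have := norm_nonneg (v (-1) 0)
  norm_num at h1
  linarith

theorem F6_rpow_le {s t : ℝ} (hst : s ≤ t) (ht : t < 0) :
    (-s) ^ (-(3 / 5) : ℝ) ≤ (-t) ^ (-(3 / 5) : ℝ) := by
  apply Real.rpow_le_rpow_of_nonpos <;> linarith

theorem F6_lipv {C₁ C₂ C₃ E₀ : ℝ} {v : ℝ → E3 → E3} (h : Anc C₁ C₂ C₃ E₀ v) {s : ℝ}
    (hs : s < 0) : Continuous (v s) := by
  have hC := F6_C1 h
  have h0 : 0 ≤ C₁ / (-s) := div_nonneg hC (by linarith)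
  have : LipschitzWith (Real.toNNReal (C₁ / (-s))) (v s) := by
    apply LipschitzWith.of_dist_le_mul
    intro x y
    rw [dist_eq_norm, dist_eq_norm, Real.coe_toNNReal _ h0]
    exact h.lip s hs x y
  exact this.continuous

/-- replacing `v s` by an approximation -/
theorem F6_ip {f g B : E3 → E3} (hf : Continuous f) (hg : Continuous g)
    (hB : TestField univ B) {ε : ℝ} (h : ∀ x ∈ tsupport B, ‖g x - f x‖ ≤ ε) :
    |ip f B - ip g B| ≤ ε * ∫ α, ‖B α‖ := by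
  have hBc := hB.smooth.continuous
  have i1 : Integrable (fun x => (inner ℝ (f x) (B x) : ℝ)) :=
    (hf.inner hBc).integrable_of_hasCompactSupport (hB.compact.mono (by
      intro x hx
      simp only [Function.mem_support, ne_eq] at hx ⊢
      intro h0
      apply hx
      rw [h0, inner_zero_right]))
  have i2 : Integrable (fun x => (inner ℝ (g x) (B x) : ℝ)) :=
    (hg.inner hBc).integrable_of_hasCompactSupport (hB.compact.mono (by
      intro x hx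
      simp only [Function.mem_support, ne_eq] at hx ⊢
      intro h0
      apply hx
      rw [h0, inner_zero_right]))
  have i3 : Integrable (fun x => ‖B x‖) := (hBc.integrable_of_hasCompactSupport hB.compact).norm
  unfold ip
  rw [← integral_sub i1 i2, ← integral_const_mul, ← Real.norm_eq_abs]
  apply norm_integral_le_of_norm_le (i3.const_mul ε)
  filter_upwards with x
  rw [← inner_sub_left]
  by_cases hx : x ∈ tsupport B
  · refine (norm_inner_le_norm _ _).trans ?_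
    have := h x hx
    rw [norm_sub_rev] at this
    exact mul_le_mul_of_nonneg_right this (norm_nonneg _)
  · rw [image_eq_zero_of_notMem_tsupport hx]
    simp

theorem F6_eps {C₁ C₂ C₃ E₀ A : ℝ} {v : ℝ → E3 → E3} (h : Anc C₁ C₂ C₃ E₀ v)
    (hA : ∀ s < 0, ∀ x, ‖v s x‖ ≤ A * (-s) ^ (-(3 / 5) : ℝ))
    {s σ σ' : ℝ} (hs : s < σ) (hσ : σ < σ') (hσ' : σ' < 0) {X : ℝ → E3 → E3}
    (hX : IsFlow s σ v X) (α₀ : E3)
    (hfar : 10 * A * (-σ) ^ (2 / 5 : ℝ) < ‖X σ α₀‖)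
    {δ : ℝ} (hδ : 0 < δ) (hδE : Real.exp (C₁ / (-σ) * (σ - s)) * δ ≤ ‖X σ α₀‖ / 20)
    {χ : E3 → ℝ} {a : E3} {R₁ K₁ Cz Cd : ℝ} (hR₁ : 0 < R₁) (hcut : Cut a R₁ K₁ χ)
    (hCz : ∀ w w' : E3 → E3, MemLp w 2 volume → MemLp w' 2 volume →
      |Zf χ w - Zf χ w'| ≤ Cz * Real.sqrt (sqOn (Metric.ball a R₁) (fun x => w x - w' x)))
    (hCz0 : 0 ≤ Cz) (hCd : 0 ≤ Cd)
    (hd : ∀ w : E3 → E3, Sml w → ∃ (u b : E3 → E3) (Q : E3 → ℝ),
      ContDiff ℝ ∞ u ∧ ContDiff ℝ ∞ b ∧ ContDiff ℝ ∞ Q ∧ MemLp u 2 volume ∧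
      (∀ x ∈ Metric.ball (X σ α₀) (3 / 5 * ‖X σ α₀‖), w x = u x + b x + grad Q x) ∧
      sq u ≤ Cd * Zf χ w ^ 2 ∧
      ∀ x ∈ Metric.ball (X σ α₀) (3 / 5 * ‖X σ α₀‖), ‖b x‖ ≤ Cd * Zf χ w)
    {B : E3 → E3} (hB : TestField univ B) (hBs : tsupport B ⊆ Metric.ball α₀ δ)
    {ε : ℝ} (hε : 0 < ε)
    (hεr : ε * (σ - s) * Real.exp (C₁ / (-σ) * (σ - s)) ≤ ‖X σ α₀‖ / 50) :
    |ip (v s) B| ≤ ε * (∫ α, ‖B α‖) + (σ' - s) * ε * ((s / σ') ^ (2 * C₁)) * (∫ α, ‖B α‖) +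
      (s / σ') ^ (2 * C₁) * ((Cd + 1) * (Zf χ (v σ') +
        Cz * (ε * Real.sqrt (volume.real (Metric.ball a R₁))))) *
      (Real.sqrt (sq B) + ∫ α, ‖B α‖) := by
  have hC1 := F6_C1 h
  have hA0 := F6_A hA
  have hsσ' : s < σ' := hs.trans hσ
  have hσ0 : σ < 0 := hσ.trans hσ'
  have hs0 : s < 0 := hs.trans hσ0
  have hr : 0 < ‖X σ α₀‖ := by
    have : 0 ≤ (-σ) ^ (2 / 5 : ℝ) := Real.rpow_nonneg (by linarith) _
    exact lt_of_le_of_lt (by positivity) hfar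
  set r := ‖X σ α₀‖ with hrdef
  set R := ‖α₀‖ + δ + 5 * A * (-s) ^ (2 / 5 : ℝ) + ‖a‖ + R₁ + 1 with hR
  have hpos1 : 0 ≤ 5 * A * (-s) ^ (2 / 5 : ℝ) := by
    have : 0 ≤ (-s) ^ (2 / 5 : ℝ) := Real.rpow_nonneg (by linarith) _
    positivity
  obtain ⟨V, S, hSF, hV1, hV2, hV3, hV4⟩ := exists_approx h hA hsσ'.le hσ' R ε hε
  have hN : ContinuousOn (fun τ : ℝ => 2 * A * (-τ) ^ (-(3 / 5) : ℝ)) (Icc s σ') := by
    apply ContinuousOn.mul continuousOn_const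
    apply ContinuousOn.rpow_const continuousOn_neg
    intro τ hτ
    left
    have := hτ.2
    simp only [ne_eq, neg_eq_zero]
    linarith
  have hM : ∀ τ ∈ Icc s σ', ∀ x, ‖V τ x‖ ≤ 2 * A * (-σ') ^ (-(3 / 5) : ℝ) := by
    intro τ hτ x
    refine (hV1 τ hτ x).trans ?_
    exact mul_le_mul_of_nonneg_left (F6_rpow_le hτ.2 hσ') (by positivity)
  have hL2 : ∀ τ ∈ Icc s σ', ∀ x y, ‖V τ x - V τ y‖ ≤ 2 * C₁ / (-σ') * ‖x - y‖ := by
    intro τ hτ x y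
    refine (hV3 τ hτ x y).trans ?_
    apply mul_le_mul_of_nonneg_right _ (norm_nonneg _)
    apply div_le_div_of_nonneg_left (by positivity) (by linarith) (by linarith [hτ.2])
  obtain ⟨Y, hY⟩ := exists_flow hsσ'.le hSF.smooth.continuous.continuousOn hM hL2
  obtain ⟨J, hJ⟩ := exists_jac hsσ'.le hSF.smooth hM hL2 hY
  set G := (s / σ') ^ (2 * C₁) with hGdef
  have hG : ∀ τ ∈ Icc s σ', ∀ α, ‖J τ α‖ ≤ G := by
    intro τ hτ α
    refine (hJ.bound hσ' (by positivity : (0 : ℝ) ≤ 2 * C₁) hV3 hτ α).trans ?_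
    have hτ0 : τ < 0 := lt_of_le_of_lt hτ.2 hσ'
    apply Real.rpow_le_rpow
    · exact div_nonneg_of_nonpos hs0.le hτ0.le
    · rw [← neg_div_neg_eq s τ, ← neg_div_neg_eq s σ']
      apply div_le_div_of_nonneg_left (by linarith) (by linarith) (by linarith [hτ.2])
    · positivity
  have hGnn : 0 ≤ G := Real.rpow_nonneg (div_nonneg_of_nonpos hs0.le hσ'.le) _
  have hdispl : ∀ t₁ ∈ Icc s σ', ∀ t₂ ∈ Icc s σ', t₁ ≤ t₂ → ∀ α,
      ‖Y t₂ α - Y t₁ α‖ ≤ 5 * A * (-t₁) ^ (2 / 5 : ℝ) := by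
    intro t₁ ht₁ t₂ ht₂ h12 α
    have ht20 : t₂ < 0 := lt_of_le_of_lt ht₂.2 hσ'
    refine (hY.disp hN hV1 ht₁ ht₂ h12 α).trans ?_
    rw [F6_int A h12 ht20]
    have : 0 ≤ (-t₂) ^ (2 / 5 : ℝ) := Real.rpow_nonneg (by linarith) _
    have h5 : 0 ≤ 5 * A := by positivity
    nlinarith
  have hball : ∀ τ ∈ Icc s σ', ∀ α ∈ Metric.ball α₀ δ, Y τ α ∈ Metric.ball (0 : E3) R := by
    intro τ hτ α hα
    have h1 := hdispl s (left_mem_Icc.2 hsσ'.le) τ hτ hτ.1 α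
    rw [hY.init] at h1
    have h2 : ‖α - α₀‖ < δ := mem_ball_iff_norm.1 hα
    rw [mem_ball_zero_iff]
    have h3 : ‖Y τ α‖ ≤ ‖Y τ α - α‖ + ‖α - α₀‖ + ‖α₀‖ := by
      have e : Y τ α = (Y τ α - α) + (α - α₀) + α₀ := by abel
      calc ‖Y τ α‖ = ‖(Y τ α - α) + (α - α₀) + α₀‖ := by rw [← e]
        _ ≤ ‖(Y τ α - α) + (α - α₀)‖ + ‖α₀‖ := norm_add_le _ _
        _ ≤ ‖Y τ α - α‖ + ‖α - α₀‖ + ‖α₀‖ := by linarith [norm_add_le (Y τ α - α) (α - α₀)]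
    have h4 := norm_nonneg a
    rw [hR]
    linarith
  -- the evolution of `HH`
  have hdiff := HH_diff hsσ'.le hSF hY hJ hB hε.le
    (fun τ hτ α hα => (hV4 τ hτ _ (hball τ hτ α (hBs hα))).2) hG
  have hHs : HH V Y J B s = ip (V s) B := by
    unfold HH ip
    apply integral_congr_ae
    filter_upwards with α
    rw [hY.init, hJ.init]
    rfl
  have hsub0 : Metric.ball α₀ δ ⊆ Metric.ball (0 : E3) R := by
    intro α hα
    have := hball s (left_mem_Icc.2 hsσ'.le) α hα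
    rwa [hY.init] at this
  have hVs : Continuous (V s) := hSF.smooth.continuous.comp (by fun_prop : Continuous fun x : E3 => (s, x))
  have hip := F6_ip (F6_lipv h hs0) hVs hB (ε := ε)
    (fun x hx => (hV4 s (left_mem_Icc.2 hsσ'.le) x (hsub0 (hBs hx))).1)
  -- the final time
  have hmp := hJ.measurePreserving hY hSF.smooth hM hL2 hSF.div (right_mem_Icc.2 hsσ'.le)
  have hSml : Sml (V σ') := ⟨hSF.smooth.comp (by fun_prop : ContDiff ℝ ∞ fun x : E3 => (σ', x)),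
    hSF.l2 σ' (right_mem_Icc.2 hsσ'.le), hSF.div σ'⟩
  obtain ⟨u, b, Q, hu, hb, hQ, hu2, hdec, hsu, hbz⟩ := hd (V σ') hSml
  have hZnn : 0 ≤ Zf χ (V σ') := Zf_nonneg χ hcut.cc hSml.l2
  have hpos : ∀ α ∈ tsupport B, Y σ' α ∈ Metric.ball (X σ α₀) (3 / 5 * r) := by
    intro α hα
    have hα' := hBs hα
    have hα2 : ‖α - α₀‖ < δ := mem_ball_iff_norm.1 hα'
    have hL0 : 0 ≤ C₁ / (-σ) := div_nonneg hC1 (by linarith)
    have hLv : ∀ τ ∈ Icc s σ, ∀ x y, ‖v τ x - v τ y‖ ≤ C₁ / (-σ) * ‖x - y‖ := by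
      intro τ hτ x y
      have hτ0 : τ < 0 := lt_of_le_of_lt hτ.2 hσ0
      refine (h.lip τ hτ0 x y).trans ?_
      apply mul_le_mul_of_nonneg_right _ (norm_nonneg _)
      apply div_le_div_of_nonneg_left hC1 (by linarith) (by linarith [hτ.2])
    have hY' : IsFlow s σ V Y := by
      refine ⟨hY.init, fun α τ hτ => ?_⟩
      exact (hY.ode α τ ⟨hτ.1, hτ.2.trans hσ.le⟩).mono (Icc_subset_Icc le_rfl hσ.le)
    have e1 := hdispl σ ⟨hs.le, hσ.le⟩ σ' (right_mem_Icc.2 hsσ'.le) hσ.le α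
    have e2 := hX.compare hY' hL0 hLv hε.le α (fun τ hτ => by
      rw [norm_sub_rev]
      exact (hV4 τ ⟨hτ.1, hτ.2.trans hσ.le⟩ _
        (hball τ ⟨hτ.1, hτ.2.trans hσ.le⟩ α hα')).1) (right_mem_Icc.2 hs.le)
    have e3 := (hX.lip hL0 hLv (right_mem_Icc.2 hs.le) α α₀).1
    have e4 : Real.exp (C₁ / (-σ) * (σ - s)) * ‖α - α₀‖ ≤ r / 20 := by
      refine le_trans ?_ hδE
      exact mul_le_mul_of_nonneg_left hα2.le (Real.exp_pos _).le
    rw [mem_ball_iff_norm]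
    have e5 : ‖Y σ' α - X σ α₀‖ ≤ ‖Y σ' α - Y σ α‖ + ‖X σ α - Y σ α‖ + ‖X σ α - X σ α₀‖ := by
      have e : Y σ' α - X σ α₀ = (Y σ' α - Y σ α) - (X σ α - Y σ α) + (X σ α - X σ α₀) := by abel
      rw [e]
      exact (norm_add_le _ _).trans (by linarith [norm_sub_le (Y σ' α - Y σ α) (X σ α - Y σ α)])
    have e6 : 5 * A * (-σ) ^ (2 / 5 : ℝ) < r / 2 := by linarith
    linarith
  set z := (Cd + 1) * Zf χ (V σ') with hz
  have hznn : 0 ≤ z := by positivity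
  have hsz : sq u ≤ z ^ 2 := by
    refine hsu.trans ?_
    rw [hz, mul_pow]
    apply mul_le_mul_of_nonneg_right _ (by positivity)
    nlinarith
  have hbz' : ∀ x ∈ Metric.ball (X σ α₀) (3 / 5 * r), ‖b x‖ ≤ z := by
    intro x hx
    refine (hbz x hx).trans ?_
    rw [hz]
    nlinarith
  have hHb := HH_bound hsσ'.le hY hJ hmp hB (hG σ' (right_mem_Icc.2 hsσ'.le)) hznn
    Metric.isOpen_ball hpos hu hb hQ hu2 hdec hsz hbz'
  -- Zf of the approximation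
  have hZ : Zf χ (V σ') ≤ Zf χ (v σ') + Cz * (ε * Real.sqrt (volume.real (Metric.ball a R₁))) := by
    have h1 := hCz (V σ') (v σ') hSml.l2 (h.l2 σ' hσ')
    have h2 : sqOn (Metric.ball a R₁) (fun x => V σ' x - v σ' x) ≤
        ε ^ 2 * volume.real (Metric.ball a R₁) := by
      unfold sqOn
      have h3 := norm_setIntegral_le_of_norm_le_const (μ := volume) (s := Metric.ball a R₁)
        (f := fun x => ‖V σ' x - v σ' x‖ ^ 2) (C := ε ^ 2) measure_ball_lt_top (by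
          intro x hx
          rw [Real.norm_eq_abs, abs_of_nonneg (by positivity)]
          have hx' : x ∈ Metric.ball (0 : E3) R := by
            rw [mem_ball_zero_iff]
            have hx2 : ‖x - a‖ < R₁ := mem_ball_iff_norm.1 hx
            have hx3 : ‖x‖ ≤ ‖x - a‖ + ‖a‖ := by
              have e : x = (x - a) + a := by abel
              calc ‖x‖ = ‖(x - a) + a‖ := by rw [← e]
                _ ≤ _ := norm_add_le _ _
            have := norm_nonneg α₀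
            rw [hR]
            linarith
          have := (hV4 σ' (right_mem_Icc.2 hsσ'.le) x hx').1
          exact pow_le_pow_left₀ (norm_nonneg _) this 2)
      exact (le_abs_self _).trans h3
    have h4 : Real.sqrt (sqOn (Metric.ball a R₁) (fun x => V σ' x - v σ' x)) ≤
        ε * Real.sqrt (volume.real (Metric.ball a R₁)) := by
      refine (Real.sqrt_le_sqrt h2).trans ?_
      rw [Real.sqrt_mul (by positivity), Real.sqrt_sq hε.le]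
    have h5 := (le_abs_self _).trans h1
    have h6 := mul_le_mul_of_nonneg_left h4 hCz0
    linarith
  have hIB : 0 ≤ ∫ α, ‖B α‖ := integral_nonneg fun _ => norm_nonneg _
  have hfin : |HH V Y J B σ'| ≤ G * ((Cd + 1) * (Zf χ (v σ') +
        Cz * (ε * Real.sqrt (volume.real (Metric.ball a R₁))))) *
      (Real.sqrt (sq B) + ∫ α, ‖B α‖) := by
    have hsB : 0 ≤ Real.sqrt (sq B) + ∫ α, ‖B α‖ := add_nonneg (Real.sqrt_nonneg _) hIB
    have hC1' : 0 ≤ Cd + 1 := by linarith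
    exact hHb.trans (mul_le_mul_of_nonneg_right
      (mul_le_mul_of_nonneg_left (mul_le_mul_of_nonneg_left hZ hC1') hGnn) hsB)
  rw [hHs] at hdiff
  have t1 : |ip (v s) B| ≤ |ip (v s) B - ip (V s) B| + |ip (V s) B| := by
    have := abs_add_le (ip (v s) B - ip (V s) B) (ip (V s) B)
    rwa [sub_add_cancel] at this
  have t2 : |ip (V s) B| ≤ |HH V Y J B σ' - ip (V s) B| + |HH V Y J B σ'| := by
    have := abs_sub_le (ip (V s) B) (HH V Y J B σ') 0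
    rw [sub_zero, sub_zero, abs_sub_comm (ip (V s) B)] at this
    exact this
  linarith

theorem F6_main {C₁ C₂ C₃ E₀ A : ℝ} {v : ℝ → E3 → E3} (h : Anc C₁ C₂ C₃ E₀ v)
    (hA : ∀ s < 0, ∀ x, ‖v s x‖ ≤ A * (-s) ^ (-(3 / 5) : ℝ))
    {s σ σ' : ℝ} (hs : s < σ) (hσ : σ < σ') (hσ' : σ' < 0) {X : ℝ → E3 → E3}
    (hX : IsFlow s σ v X) (α₀ : E3)
    (hfar : 10 * A * (-σ) ^ (2 / 5 : ℝ) < ‖X σ α₀‖)
    {δ : ℝ} (hδ : 0 < δ) (hδE : Real.exp (C₁ / (-σ) * (σ - s)) * δ ≤ ‖X σ α₀‖ / 20)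
    {χ : E3 → ℝ} {a : E3} {R₁ K₁ Cz Cd : ℝ} (hR₁ : 0 < R₁) (hcut : Cut a R₁ K₁ χ)
    (hCz : ∀ w w' : E3 → E3, MemLp w 2 volume → MemLp w' 2 volume →
      |Zf χ w - Zf χ w'| ≤ Cz * Real.sqrt (sqOn (Metric.ball a R₁) (fun x => w x - w' x)))
    (hCz0 : 0 ≤ Cz) (hCd : 0 ≤ Cd)
    (hd : ∀ w : E3 → E3, Sml w → ∃ (u b : E3 → E3) (Q : E3 → ℝ),
      ContDiff ℝ ∞ u ∧ ContDiff ℝ ∞ b ∧ ContDiff ℝ ∞ Q ∧ MemLp u 2 volume ∧
      (∀ x ∈ Metric.ball (X σ α₀) (3 / 5 * ‖X σ α₀‖), w x = u x + b x + grad Q x) ∧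
      sq u ≤ Cd * Zf χ w ^ 2 ∧
      ∀ x ∈ Metric.ball (X σ α₀) (3 / 5 * ‖X σ α₀‖), ‖b x‖ ≤ Cd * Zf χ w)
    {B : E3 → E3} (hB : TestField univ B) (hBs : tsupport B ⊆ Metric.ball α₀ δ) :
    |ip (v s) B| ≤ (s / σ') ^ (2 * C₁) * ((Cd + 1) * Zf χ (v σ')) *
      (Real.sqrt (sq B) + ∫ α, ‖B α‖) := by
  have hr : 0 < ‖X σ α₀‖ := by
    have h1 : 0 ≤ (-σ) ^ (2 / 5 : ℝ) := Real.rpow_nonneg (by linarith) _
    have h2 := F6_A hA
    exact lt_of_le_of_lt (by positivity) hfar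
  have hden : 0 < (σ - s) * Real.exp (C₁ / (-σ) * (σ - s)) :=
    mul_pos (by linarith) (Real.exp_pos _)
  set F : ℝ → ℝ := fun ε => ε * (∫ α, ‖B α‖) + (σ' - s) * ε * ((s / σ') ^ (2 * C₁)) *
      (∫ α, ‖B α‖) +
      (s / σ') ^ (2 * C₁) * ((Cd + 1) * (Zf χ (v σ') +
        Cz * (ε * Real.sqrt (volume.real (Metric.ball a R₁))))) *
      (Real.sqrt (sq B) + ∫ α, ‖B α‖) with hF
  have hFc : Continuous F := by
    rw [hF]; fun_prop
  have hF0 : F 0 = (s / σ') ^ (2 * C₁) * ((Cd + 1) * Zf χ (v σ')) *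
      (Real.sqrt (sq B) + ∫ α, ‖B α‖) := by
    rw [hF]; simp
  have ht : Tendsto F (𝓝[>] 0) (𝓝 (F 0)) := hFc.continuousAt.tendsto.mono_left nhdsWithin_le_nhds
  rw [← hF0]
  apply ge_of_tendsto ht
  have hev : ∀ᶠ ε : ℝ in 𝓝[>] 0,
      ε < ‖X σ α₀‖ / 50 / ((σ - s) * Real.exp (C₁ / (-σ) * (σ - s))) := by
    apply nhdsWithin_le_nhds
    exact Iio_mem_nhds (by positivity)
  filter_upwards [hev, self_mem_nhdsWithin] with ε h1 h2
  apply F6_eps h hA hs hσ hσ' hX α₀ hfar hδ hδE hR₁ hcut hCz hCz0 hCd hd hB hBs h2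
  rw [lt_div_iff₀ hden] at h1
  rw [mul_assoc]
  exact h1.le

theorem F6_tsupport_curl (ψ : E3 → E3) : tsupport (curl ψ) ⊆ tsupport ψ := by
  apply closure_minimal _ (isClosed_tsupport ψ)
  intro x hx
  by_contra hn
  apply hx
  have h1 : ψ =ᶠ[𝓝 x] fun _ => 0 := notMem_tsupport_iff_eventuallyEq.1 hn
  rw [curl_congr h1]
  unfold curl D
  ext i
  fin_cases i <;> simp

theorem local_curl_zero {C₁ C₂ C₃ E₀ A : ℝ} {v : ℝ → E3 → E3} (h : Anc C₁ C₂ C₃ E₀ v)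
    (hA : ∀ s < 0, ∀ x, ‖v s x‖ ≤ A * (-s) ^ (-(3 / 5) : ℝ))
    (h0 : ∀ R : ℝ, 0 < R →
      Tendsto (fun s => sqOn (Metric.ball (0 : E3) R)ᶜ (v s)) (𝓝[<] 0) (𝓝 0))
    {s σ : ℝ} (hs : s < σ) (hσ : σ < 0) {X : ℝ → E3 → E3} (hX : IsFlow s σ v X) (α₀ : E3)
    (hfar : 10 * A * (-σ) ^ (2 / 5 : ℝ) < ‖X σ α₀‖) :
    ∃ δ : ℝ, 0 < δ ∧ ∀ ψ : E3 → E3, Cc ψ → tsupport ψ ⊆ Metric.ball α₀ δ →
      ip (v s) (curl ψ) = 0 := by
  have hC1 := F6_C1 h
  have hr : 0 < ‖X σ α₀‖ := by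
    have h1 : 0 ≤ (-σ) ^ (2 / 5 : ℝ) := Real.rpow_nonneg (by linarith) _
    have h2 := F6_A hA
    exact lt_of_le_of_lt (by positivity) hfar
  set r := ‖X σ α₀‖ with hrdef
  set x₁ := X σ α₀ with hx₁
  -- the cutoff
  let f : ContDiffBump x₁ := ⟨7 / 10 * r, 9 / 10 * r, by positivity, by linarith⟩
  have hfcc : Cc (f : E3 → ℝ) := ⟨f.contDiff, f.hasCompactSupport⟩
  have hf0 : (0 : E3) ∉ tsupport (f : E3 → ℝ) := by
    rw [f.tsupport_eq, Metric.mem_closedBall, dist_eq_norm, zero_sub, norm_neg]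
    change ¬ (r ≤ 9 / 10 * r)
    linarith
  obtain ⟨Cd, hCd, hd⟩ := ball_decomp (χ' := (f : E3 → ℝ)) hfcc (a := x₁) (R := 3 / 5 * r)
    (by positivity) (U := Metric.ball x₁ (7 / 10 * r)) Metric.isOpen_ball
    (Metric.closedBall_subset_ball (by linarith))
    (fun x hx => f.one_of_mem_closedBall (Metric.ball_subset_closedBall hx))
  obtain ⟨R₁, K₁, hR₁, hK₁, hcut⟩ := cut_of_cc hfcc x₁
  obtain ⟨Cz, hCz0, hCz⟩ := Zf_abs_sub_le K₁
  obtain ⟨m, hm⟩ := exists_nat_ge (5 * (1 + 2 * C₁))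
  obtain ⟨Cm, hCm⟩ := fast_decay h h0 (f : E3 → ℝ) hfcc hf0 m
  refine ⟨r / 20 / Real.exp (C₁ / (-σ) * (σ - s)), by positivity, ?_⟩
  intro ψ hψ hψs
  have hB : TestField univ (curl ψ) := by
    have hc := cc_curl hψ
    refine ⟨hc.smooth, hc.comp, subset_univ _, ?_⟩
    intro x
    exact divg_curl (by exact_mod_cast contDiff_infty.1 hψ.smooth 2) x
  have hBs : tsupport (curl ψ) ⊆ Metric.ball α₀ (r / 20 / Real.exp (C₁ / (-σ) * (σ - s))) :=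
    (F6_tsupport_curl ψ).trans hψs
  have hδE : Real.exp (C₁ / (-σ) * (σ - s)) * (r / 20 / Real.exp (C₁ / (-σ) * (σ - s))) ≤
      r / 20 := by
    rw [mul_div_cancel₀ _ (Real.exp_pos _).ne']
  have hmain : ∀ σ' : ℝ, σ < σ' → σ' < 0 →
      |ip (v s) (curl ψ)| ≤ (s / σ') ^ (2 * C₁) * ((Cd + 1) * Zf (f : E3 → ℝ) (v σ')) *
        (Real.sqrt (sq (curl ψ)) + ∫ α, ‖curl ψ α‖) := by
    intro σ' h1 h2
    exact F6_main h hA hs h1 h2 hX α₀ hfar (by positivity) hδE hR₁ hcut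
      (fun w w' hw hw' => hCz x₁ R₁ _ hR₁ hcut w w' hw hw') hCz0 hCd hd hB hBs
  set K := (-s) ^ (2 * C₁) * ((Cd + 1) * |Cm|) *
    (Real.sqrt (sq (curl ψ)) + ∫ α, ‖curl ψ α‖) with hK
  have hsB : 0 ≤ Real.sqrt (sq (curl ψ)) + ∫ α, ‖curl ψ α‖ :=
    add_nonneg (Real.sqrt_nonneg _) (integral_nonneg fun _ => norm_nonneg _)
  have hbound : ∀ᶠ σ' : ℝ in 𝓝[<] 0, |ip (v s) (curl ψ)| ≤ K * (-σ') := by
    have hev : ∀ᶠ σ' : ℝ in 𝓝[<] 0, max σ (-1) < σ' := by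
      apply nhdsWithin_le_nhds
      exact Ioi_mem_nhds (max_lt hσ (by norm_num))
    filter_upwards [hev, self_mem_nhdsWithin] with σ' h1 h2
    have h2' : σ' < 0 := h2
    have h3 : σ < σ' := lt_of_le_of_lt (le_max_left _ _) h1
    have h4 : -1 < σ' := lt_of_le_of_lt (le_max_right _ _) h1
    refine (hmain σ' h3 h2').trans ?_
    have hp : 0 < -σ' := by linarith
    have hs' : 0 < -s := by linarith
    have e1 : (s / σ') ^ (2 * C₁) = (-s) ^ (2 * C₁) / (-σ') ^ (2 * C₁) := by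
      rw [← neg_div_neg_eq, Real.div_rpow hs'.le hp.le]
    have e2 : Zf (f : E3 → ℝ) (v σ') ≤ |Cm| * (-σ') ^ ((m : ℝ) / 5) :=
      (hCm σ' ⟨h4.le, h2'⟩).trans
        (mul_le_mul_of_nonneg_right (le_abs_self _) (Real.rpow_nonneg hp.le _))
    have e3 : (-σ') ^ ((m : ℝ) / 5) / (-σ') ^ (2 * C₁) ≤ -σ' := by
      rw [← Real.rpow_sub hp]
      calc (-σ') ^ ((m : ℝ) / 5 - 2 * C₁) ≤ (-σ') ^ (1 : ℝ) := by
            apply Real.rpow_le_rpow_of_exponent_ge hp (by linarith)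
            linarith
        _ = -σ' := Real.rpow_one _
    have hq : 0 < (-σ') ^ (2 * C₁) := Real.rpow_pos_of_pos hp _
    have hS : 0 ≤ (-s) ^ (2 * C₁) := Real.rpow_nonneg hs'.le _
    have hCd1 : 0 ≤ Cd + 1 := by linarith
    have e4 : (s / σ') ^ (2 * C₁) * ((Cd + 1) * Zf (f : E3 → ℝ) (v σ')) ≤
        (-s) ^ (2 * C₁) * ((Cd + 1) * |Cm|) * (-σ') := by
      rw [e1]
      calc (-s) ^ (2 * C₁) / (-σ') ^ (2 * C₁) * ((Cd + 1) * Zf (f : E3 → ℝ) (v σ'))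
          ≤ (-s) ^ (2 * C₁) / (-σ') ^ (2 * C₁) *
            ((Cd + 1) * (|Cm| * (-σ') ^ ((m : ℝ) / 5))) := by
            apply mul_le_mul_of_nonneg_left _ (div_nonneg hS hq.le)
            exact mul_le_mul_of_nonneg_left e2 hCd1
        _ = (-s) ^ (2 * C₁) * ((Cd + 1) * |Cm|) *
            ((-σ') ^ ((m : ℝ) / 5) / (-σ') ^ (2 * C₁)) := by ring
        _ ≤ _ := by
            apply mul_le_mul_of_nonneg_left e3
            exact mul_nonneg hS (mul_nonneg hCd1 (abs_nonneg _))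
    calc _ ≤ (-s) ^ (2 * C₁) * ((Cd + 1) * |Cm|) * (-σ') *
          (Real.sqrt (sq (curl ψ)) + ∫ α, ‖curl ψ α‖) := mul_le_mul_of_nonneg_right e4 hsB
      _ = K * (-σ') := by rw [hK]; ring
  have ht : Tendsto (fun σ' : ℝ => K * (-σ')) (𝓝[<] 0) (𝓝 0) := by
    have : Tendsto (fun σ' : ℝ => K * (-σ')) (𝓝 0) (𝓝 (K * (-0))) :=
      (continuous_const.mul continuous_neg).continuousAt.tendsto
    rw [neg_zero, mul_zero] at this
    exact this.mono_left nhdsWithin_le_nhds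
  have hle : |ip (v s) (curl ψ)| ≤ 0 := ge_of_tendsto ht hbound
  exact abs_eq_zero.1 (le_antisymm hle (abs_nonneg _))

end Pool.Agent.Helper60.EC
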