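import Pool.Agent.Helper60.EC.F3
import Pool.Agent.Helper60.EC.D2

/-! Project EC, F7: almost no trajectory reaches the atom -/

set_option autoImplicit false

open MeasureTheory Set Filter Topology
open scoped ENNReal ContDiff

noncomputable section

namespace Pool.Agent.Helper60.EC

open Pool.Agent.Helper52.NSE (E3 pd divg TestField)

/-- the volume of the points of a ball which the flow carries into a small ball -/
private theorem F7_vol {C₁ C₂ C₃ E₀ A : ℝ} {v : ℝ → E3 → E3} (h : Anc C₁ C₂ C₃ E₀ v)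
    (hA : ∀ s < 0, ∀ x, ‖v s x‖ ≤ A * (-s) ^ (-(3 / 5) : ℝ)) {s σ : ℝ} (hsσ : s < σ)
    (hσ : σ < 0) {X : ℝ → E3 → E3} (hX : IsFlow s σ v X) (ρ r ε : ℝ) (hε : 0 < ε) :
    volume {α : E3 | α ∈ Metric.ball (0 : E3) ρ ∧ ‖X σ α‖ ≤ r} ≤
      volume (Metric.closedBall (0 : E3) (r + ε)) := by
  have hA0 : 0 ≤ A := by
    have h1 := (norm_nonneg _).trans (hA (-1) (by norm_num) 0)
    simpa using h1
  have hC0 : 0 ≤ C₁ := by
    have h1 := (norm_nonneg _).trans (h.lip (-1) (by norm_num) (EuclideanSpace.single 0 (1 : ℝ)) 0)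
    simpa using h1
  -- bounds on the interval
  set M : ℝ := A * (-σ) ^ (-(3 / 5) : ℝ) with hM
  have hM0 : 0 ≤ M := by
    have : 0 ≤ (-σ) ^ (-(3 / 5) : ℝ) := Real.rpow_nonneg (by linarith) _
    positivity
  have hpow : ∀ τ ∈ Icc s σ, (-τ) ^ (-(3 / 5) : ℝ) ≤ (-σ) ^ (-(3 / 5) : ℝ) := fun τ hτ =>
    Real.rpow_le_rpow_of_nonpos (by linarith) (by linarith [hτ.2]) (by norm_num)
  have hvM : ∀ τ ∈ Icc s σ, ∀ x, ‖v τ x‖ ≤ M := fun τ hτ x =>
    (hA τ (hτ.2.trans_lt hσ) x).trans (mul_le_mul_of_nonneg_left (hpow τ hτ) hA0)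
  -- the approximation
  set L : ℝ := 2 * C₁ / (-σ) with hL
  have hL0 : 0 ≤ L := div_nonneg (by positivity) (by linarith)
  have hlen : 0 < σ - s := by linarith
  set ε' : ℝ := ε / ((σ - s) * Real.exp (L * (σ - s))) with hε'
  have hε'pos : 0 < ε' := by positivity
  obtain ⟨V, S, hSF, hVb, -, hVL, happ⟩ := exists_approx h hA hsσ.le hσ
    (ρ + M * (σ - s) + 1) ε' hε'pos
  have hVM : ∀ τ ∈ Icc s σ, ∀ x, ‖V τ x‖ ≤ 2 * M := by
    intro τ hτ x
    refine (hVb τ hτ x).trans ?_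
    rw [hM]
    have := mul_le_mul_of_nonneg_left (hpow τ hτ) hA0
    linarith
  have hVL' : ∀ τ ∈ Icc s σ, ∀ x y, ‖V τ x - V τ y‖ ≤ L * ‖x - y‖ := by
    intro τ hτ x y
    refine (hVL τ hτ x y).trans (mul_le_mul_of_nonneg_right ?_ (norm_nonneg _))
    exact div_le_div_of_nonneg_left (by positivity) (by linarith) (by linarith [hτ.2])
  obtain ⟨Y, hY⟩ := exists_flow hsσ.le hSF.smooth.continuous.continuousOn hVM hVL'
  obtain ⟨J, hJ⟩ := exists_jac hsσ.le hSF.smooth hVM hVL' hY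
  have hσm : σ ∈ Icc s σ := ⟨hsσ.le, le_rfl⟩
  have hmp := hJ.measurePreserving hY hSF.smooth hVM hVL' hSF.div hσm
  -- comparison
  have hsub : {α : E3 | α ∈ Metric.ball (0 : E3) ρ ∧ ‖X σ α‖ ≤ r} ⊆
      Y σ ⁻¹' (Metric.closedBall (0 : E3) (r + ε)) := by
    rintro α ⟨hα, hXα⟩
    rw [mem_ball_zero_iff] at hα
    have hin : ∀ τ ∈ Icc s σ, X τ α ∈ Metric.ball (0 : E3) (ρ + M * (σ - s) + 1) := by
      intro τ hτ
      rw [mem_ball_zero_iff]
      have h1 := hX.disp (N := fun _ => M) continuousOn_const hvM ⟨le_rfl, hsσ.le⟩ hτ hτ.1 α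
      rw [intervalIntegral.integral_const, smul_eq_mul, hX.init] at h1
      have h2 : ‖X τ α‖ ≤ ‖X τ α - α‖ + ‖α‖ := by
        have := norm_add_le (X τ α - α) α
        simpa using this
      have h3 : (τ - s) * M ≤ M * (σ - s) := by
        rw [mul_comm]
        exact mul_le_mul_of_nonneg_left (by linarith [hτ.2]) hM0
      linarith
    have h1 := hY.compare hX hL0 hVL' hε'pos.le α
      (fun τ hτ => (happ τ hτ _ (hin τ hτ)).1) hσm
    have h2 : ε' * (σ - s) * Real.exp (L * (σ - s)) = ε := by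
      rw [hε']
      field_simp
    rw [h2] at h1
    show Y σ α ∈ Metric.closedBall (0 : E3) (r + ε)
    rw [mem_closedBall_zero_iff]
    have h3 : ‖Y σ α‖ ≤ ‖Y σ α - X σ α‖ + ‖X σ α‖ := by
      have := norm_add_le (Y σ α - X σ α) (X σ α)
      simpa using this
    linarith
  refine (measure_mono hsub).trans ?_
  rw [hmp.measure_preimage measurableSet_closedBall.nullMeasurableSet]

theorem far_ae {C₁ C₂ C₃ E₀ A : ℝ} {v : ℝ → E3 → E3} (h : Anc C₁ C₂ C₃ E₀ v)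
    (hA : ∀ s < 0, ∀ x, ‖v s x‖ ≤ A * (-s) ^ (-(3 / 5) : ℝ)) {s : ℝ} (hs : s < 0) :
    ∀ᵐ α : E3, ∃ σ ∈ Ioo s 0, ∃ X, IsFlow s σ v X ∧
      10 * A * (-σ) ^ (2 / 5 : ℝ) < ‖X σ α‖ := by
  have hA0 : 0 ≤ A := by
    have h1 := (norm_nonneg _).trans (hA (-1) (by norm_num) 0)
    simpa using h1
  have hC0 : 0 ≤ C₁ := by
    have h1 := (norm_nonneg _).trans (h.lip (-1) (by norm_num) (EuclideanSpace.single 0 (1 : ℝ)) 0)
    simpa using h1
  -- the flows exist
  have hflow : ∀ σ ∈ Ioo s 0, ∃ X, IsFlow s σ v X := by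
    intro σ hσ
    refine exists_flow (M := A * (-σ) ^ (-(3 / 5) : ℝ)) (L := C₁ / (-σ)) hσ.1.le
      (h.cont.mono fun p hp => ⟨(hp.1.2.trans_lt hσ.2 : p.1 < 0), mem_univ _⟩) ?_ ?_
    · intro τ hτ x
      refine (hA τ (hτ.2.trans_lt hσ.2) x).trans (mul_le_mul_of_nonneg_left ?_ hA0)
      exact Real.rpow_le_rpow_of_nonpos (by linarith [hσ.2]) (by linarith [hτ.2]) (by norm_num)
    · intro τ hτ x y
      refine (h.lip τ (hτ.2.trans_lt hσ.2) x y).trans
        (mul_le_mul_of_nonneg_right ?_ (norm_nonneg _))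
      exact div_le_div_of_nonneg_left hC0 (by linarith [hσ.2]) (by linarith [hτ.2])
  rw [ae_iff]
  set N : Set E3 := {α : E3 | ¬∃ σ ∈ Ioo s 0, ∃ X, IsFlow s σ v X ∧
      10 * A * (-σ) ^ (2 / 5 : ℝ) < ‖X σ α‖} with hN
  have hNρ : ∀ ρ : ℕ, volume (N ∩ Metric.ball (0 : E3) ρ) = 0 := by
    intro ρ
    have hle : ∀ σ ∈ Ioo s 0, volume (N ∩ Metric.ball (0 : E3) ρ) ≤
        volume (Metric.closedBall (0 : E3) (10 * A * (-σ) ^ (2 / 5 : ℝ) + (-σ))) := by
      intro σ hσ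
      obtain ⟨X, hX⟩ := hflow σ hσ
      refine (measure_mono ?_).trans (F7_vol h hA hσ.1 hσ.2 hX ρ (10 * A * (-σ) ^ (2 / 5 : ℝ))
        (-σ) (by linarith [hσ.2]))
      rintro α ⟨hα, hαρ⟩
      refine ⟨hαρ, ?_⟩
      by_contra hcon
      exact hα ⟨σ, hσ, X, hX, not_le.1 hcon⟩
    have hr : Tendsto (fun σ : ℝ => 10 * A * (-σ) ^ (2 / 5 : ℝ) + (-σ)) (𝓝[<] 0) (𝓝 0) := by
      have h1 : Continuous fun σ : ℝ => 10 * A * (-σ) ^ (2 / 5 : ℝ) + (-σ) := by
        have h2 : Continuous fun σ : ℝ => (-σ) ^ (2 / 5 : ℝ) :=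
          continuous_neg.rpow_const fun σ => Or.inr (by norm_num)
        exact (continuous_const.mul h2).add continuous_neg
      have h2 := h1.tendsto 0
      have h3 : 10 * A * (-(0 : ℝ)) ^ (2 / 5 : ℝ) + (-(0 : ℝ)) = 0 := by
        rw [neg_zero, Real.zero_rpow (by norm_num)]
        ring
      rw [h3] at h2
      exact h2.mono_left nhdsWithin_le_nhds
    have hvol : Tendsto (fun σ : ℝ => volume (Metric.closedBall (0 : E3)
        (10 * A * (-σ) ^ (2 / 5 : ℝ) + (-σ)))) (𝓝[<] 0) (𝓝 0) := by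
      have h1 : ∀ σ : ℝ, volume (Metric.closedBall (0 : E3)
          (10 * A * (-σ) ^ (2 / 5 : ℝ) + (-σ))) ≤
          ENNReal.ofReal ((10 * A * (-σ) ^ (2 / 5 : ℝ) + (-σ)) ^ 3) *
            volume (Metric.ball (0 : E3) 1) ∨ 0 < σ := by
        intro σ
        rcases lt_or_ge 0 σ with hσ | hσ
        · exact Or.inr hσ
        · left
          have h2 : 0 ≤ 10 * A * (-σ) ^ (2 / 5 : ℝ) + (-σ) := by
            have : 0 ≤ (-σ) ^ (2 / 5 : ℝ) := Real.rpow_nonneg (by linarith) _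
            have : 0 ≤ -σ := by linarith
            positivity
          rw [Measure.addHaar_closedBall volume (0 : E3) h2]
          simp
      have h2 : Tendsto (fun σ : ℝ => ENNReal.ofReal ((10 * A * (-σ) ^ (2 / 5 : ℝ) + (-σ)) ^ 3) *
            volume (Metric.ball (0 : E3) 1)) (𝓝[<] 0) (𝓝 0) := by
        have h3 := (ENNReal.tendsto_ofReal (hr.pow 3))
        have h4 := ENNReal.Tendsto.mul_const (b := volume (Metric.ball (0 : E3) 1)) h3
          (Or.inr measure_ball_lt_top.ne)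
        simpa using h4
      refine tendsto_of_tendsto_of_tendsto_of_le_of_le' tendsto_const_nhds h2
        (Eventually.of_forall fun _ => zero_le) ?_
      refine eventually_nhdsWithin_of_forall fun σ hσ => ?_
      rcases h1 σ with h5 | h5
      · exact h5
      · exact absurd h5 (not_lt.2 (le_of_lt hσ))
    have hev : ∀ᶠ σ in 𝓝[<] (0 : ℝ), volume (N ∩ Metric.ball (0 : E3) ρ) ≤
        volume (Metric.closedBall (0 : E3) (10 * A * (-σ) ^ (2 / 5 : ℝ) + (-σ))) := by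
      have h3 : Ioo s 0 ∈ 𝓝[<] (0 : ℝ) := Ioo_mem_nhdsLT hs
      filter_upwards [h3] with σ hσ
      exact hle σ hσ
    exact le_antisymm (ge_of_tendsto hvol hev) zero_le
  have hunion : N = ⋃ ρ : ℕ, N ∩ Metric.ball (0 : E3) ρ := by
    ext α
    simp only [mem_iUnion, mem_inter_iff, mem_ball_zero_iff]
    constructor
    · intro hα
      obtain ⟨n, hn⟩ := exists_nat_gt ‖α‖
      exact ⟨n, hα, hn⟩
    · rintro ⟨n, hα, -⟩
      exact hα
  rw [hunion]
  exact measure_iUnion_null hNρ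

end Pool.Agent.Helper60.EC
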