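import Pool.Agent.Helper60.EC.Calc2

/-! Project EC, F8: localisation of the curl of a Lipschitz field -/

set_option autoImplicit false

open MeasureTheory Set Filter Topology
open scoped ENNReal ContDiff

noncomputable section

namespace Pool.Agent.Helper60.EC

open Pool.Agent.Helper52.NSE (E3 pd divg TestField)

/-- the `i`-th partial derivative of the `k`-th component of `w`, as a line derivative -/
def F8_wd (w : E3 → E3) (i k : Fin 3) (x : E3) : ℝ :=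
  lineDeriv ℝ (fun y => w y k) x (EuclideanSpace.single i (1 : ℝ))

theorem F8_lip {w : E3 → E3} {L : ℝ} (hw : ∀ x y, ‖w x - w y‖ ≤ L * ‖x - y‖) (k : Fin 3) :
    LipschitzWith L.toNNReal (fun x => w x k) := by
  apply LipschitzWith.of_dist_le'
  intro x y
  rw [dist_eq_norm, dist_eq_norm]
  refine le_trans ?_ (hw x y)
  exact PiLp.norm_apply_le (w x - w y) k

theorem F8_L0 {w : E3 → E3} {L : ℝ} (hw : ∀ x y, ‖w x - w y‖ ≤ L * ‖x - y‖) : 0 ≤ L := by
  have h := hw (EuclideanSpace.single 0 (1 : ℝ)) 0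
  rw [sub_zero, PiLp.norm_single, norm_one, mul_one] at h
  exact le_trans (norm_nonneg _) h

theorem F8_wd_le {w : E3 → E3} {L : ℝ} (hw : ∀ x y, ‖w x - w y‖ ≤ L * ‖x - y‖) (i k : Fin 3)
    (x : E3) : |F8_wd w i k x| ≤ L := by
  have h := norm_lineDeriv_le_of_lipschitz ℝ (F8_lip hw k) (x₀ := x)
    (v := EuclideanSpace.single i (1 : ℝ))
  rw [PiLp.norm_single, norm_one, mul_one, Real.coe_toNNReal _ (F8_L0 hw)] at h
  exact h

theorem F8_wd_meas {w : E3 → E3} {L : ℝ} (hw : ∀ x y, ‖w x - w y‖ ≤ L * ‖x - y‖) (i k : Fin 3) :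
    Measurable (F8_wd w i k) :=
  measurable_lineDeriv (F8_lip hw k).continuous

theorem F8_pair {w : E3 → E3} {L : ℝ} (hw : ∀ x y, ‖w x - w y‖ ≤ L * ‖x - y‖) (i k : Fin 3)
    {φ : E3 → ℝ} (hφ : Cc φ) : ∫ x, w x k * D i φ x = -∫ x, F8_wd w i k x * φ x := by
  obtain ⟨C, hC⟩ := ContDiff.lipschitzWith_of_hasCompactSupport hφ.comp hφ.smooth (by simp)
  have h := LipschitzWith.integral_lineDeriv_mul_eq (μ := volume) (F8_lip hw k) hC hφ.comp
    (EuclideanSpace.single i (1 : ℝ))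
  have h2 : ∫ x, F8_wd w i k x * φ x =
      ∫ x, lineDeriv ℝ φ x (-EuclideanSpace.single i (1 : ℝ)) * w x k := h
  rw [h2, ← integral_neg]
  refine integral_congr_ae (Eventually.of_forall fun x => ?_)
  have hd : DifferentiableAt ℝ φ x := (hφ.smooth.differentiable (by simp)) x
  show w x k * D i φ x = -(lineDeriv ℝ φ x (-EuclideanSpace.single i (1 : ℝ)) * w x k)
  rw [hd.lineDeriv_eq_fderiv, map_neg]
  unfold D
  ring

theorem F8_comp {ψ : E3 → E3} (hψ : Cc ψ) (k : Fin 3) : Cc (fun x => ψ x k) :=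
  ⟨Calc1b_coord hψ.smooth k, Calc2a_apply_comp hψ.comp k⟩

theorem F8_int {w : E3 → E3} {L : ℝ} (hw : ∀ x y, ‖w x - w y‖ ≤ L * ‖x - y‖) (i k : Fin 3)
    {φ : E3 → ℝ} (hφ : Cc φ) : Integrable (fun x => F8_wd w i k x * φ x) volume := by
  apply Integrable.bdd_mul (c := L)
  · exact hφ.smooth.continuous.integrable_of_hasCompactSupport hφ.comp
  · exact (F8_wd_meas hw i k).aestronglyMeasurable
  · exact Eventually.of_forall fun x => F8_wd_le hw i k x

theorem F8_int' {w : E3 → E3} {L : ℝ} (hw : ∀ x y, ‖w x - w y‖ ≤ L * ‖x - y‖) (i k : Fin 3)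
    {φ : E3 → ℝ} (hφ : Cc φ) : Integrable (fun x => w x k * D i φ x) volume := by
  apply Continuous.integrable_of_hasCompactSupport
  · exact (F8_lip hw k).continuous.mul (D_smooth hφ.smooth i).continuous
  · exact (Calc2a_D_comp hφ.comp i).mul_left

theorem F8_six {a1 a2 a3 a4 a5 a6 : E3 → ℝ} (h1 : Integrable a1 volume)
    (h2 : Integrable a2 volume) (h3 : Integrable a3 volume) (h4 : Integrable a4 volume)
    (h5 : Integrable a5 volume) (h6 : Integrable a6 volume) :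
    ∫ x, (((a1 x - a2 x) + (a3 x - a4 x)) + (a5 x - a6 x)) =
      (((∫ x, a1 x) - ∫ x, a2 x) + ((∫ x, a3 x) - ∫ x, a4 x)) + ((∫ x, a5 x) - ∫ x, a6 x) := by
  have k12 : Integrable (fun x => a1 x - a2 x) volume := h1.sub h2
  have k34 : Integrable (fun x => a3 x - a4 x) volume := h3.sub h4
  have k56 : Integrable (fun x => a5 x - a6 x) volume := h5.sub h6
  have k14 : Integrable (fun x => (a1 x - a2 x) + (a3 x - a4 x)) volume := k12.add k34
  rw [integral_add k14 k56, integral_add k12 k34, integral_sub h1 h2, integral_sub h3 h4,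
    integral_sub h5 h6]

/-- `∫ w · curl ψ = ∫ curl w · ψ` -/
theorem F8_curl {w : E3 → E3} {L : ℝ} (hw : ∀ x y, ‖w x - w y‖ ≤ L * ‖x - y‖) {ψ : E3 → E3}
    (hψ : Cc ψ) : ip w (curl ψ) =
      ((∫ x, F8_wd w 1 2 x * ψ x 0) - ∫ x, F8_wd w 2 1 x * ψ x 0) +
      ((∫ x, F8_wd w 2 0 x * ψ x 1) - ∫ x, F8_wd w 0 2 x * ψ x 1) +
      ((∫ x, F8_wd w 0 1 x * ψ x 2) - ∫ x, F8_wd w 1 0 x * ψ x 2) := by
  have hd : ∀ x, DifferentiableAt ℝ ψ x := fun x => (hψ.smooth.differentiable (by simp)) x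
  have e : ip w (curl ψ) = ∫ x, ((w x 0 * D 1 (fun y => ψ y 2) x - w x 0 * D 2 (fun y => ψ y 1) x) +
      (w x 1 * D 2 (fun y => ψ y 0) x - w x 1 * D 0 (fun y => ψ y 2) x)) +
      (w x 2 * D 0 (fun y => ψ y 1) x - w x 2 * D 1 (fun y => ψ y 0) x) := by
    unfold ip
    refine integral_congr_ae (Eventually.of_forall fun x => ?_)
    show (inner ℝ (w x) (curl ψ x) : ℝ) =
      ((w x 0 * D 1 (fun y => ψ y 2) x - w x 0 * D 2 (fun y => ψ y 1) x) +
      (w x 1 * D 2 (fun y => ψ y 0) x - w x 1 * D 0 (fun y => ψ y 2) x)) +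
      (w x 2 * D 0 (fun y => ψ y 1) x - w x 2 * D 1 (fun y => ψ y 0) x)
    rw [Calc2a_inner3, D_apply (hd x) 1 2, D_apply (hd x) 2 1, D_apply (hd x) 2 0,
      D_apply (hd x) 0 2, D_apply (hd x) 0 1, D_apply (hd x) 1 0]
    have c0 : curl ψ x 0 = (D 1 ψ x) 2 - (D 2 ψ x) 1 := rfl
    have c1 : curl ψ x 1 = (D 2 ψ x) 0 - (D 0 ψ x) 2 := rfl
    have c2 : curl ψ x 2 = (D 0 ψ x) 1 - (D 1 ψ x) 0 := rfl
    rw [c0, c1, c2]
    ring
  have I := fun i k j => F8_int' hw i k (F8_comp hψ j)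
  rw [e, F8_six (I 1 0 2) (I 2 0 1) (I 2 1 0) (I 0 1 2) (I 0 2 1) (I 1 2 0),
    F8_pair hw 1 0 (F8_comp hψ 2), F8_pair hw 2 0 (F8_comp hψ 1),
    F8_pair hw 2 1 (F8_comp hψ 0), F8_pair hw 0 1 (F8_comp hψ 2), F8_pair hw 0 2 (F8_comp hψ 1),
    F8_pair hw 1 2 (F8_comp hψ 0)]
  ring

theorem F8_term {w : E3 → E3} {L : ℝ} (hw : ∀ x y, ‖w x - w y‖ ≤ L * ‖x - y‖) {ψ : E3 → E3}
    (hψ : Cc ψ) (i k j : Fin 3) : |∫ x, F8_wd w i k x * ψ x j| ≤ L * ∫ x, ‖ψ x‖ := by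
  rw [← integral_const_mul]
  have h1 : |∫ x, F8_wd w i k x * ψ x j| ≤ ∫ x, |F8_wd w i k x * ψ x j| :=
    abs_integral_le_integral_abs
  refine h1.trans (integral_mono (F8_int hw i k (F8_comp hψ j)).abs ?_ fun x => ?_)
  · exact (hψ.smooth.continuous.integrable_of_hasCompactSupport hψ.comp).norm.const_mul L
  · show |F8_wd w i k x * ψ x j| ≤ L * ‖ψ x‖
    rw [abs_mul]
    exact mul_le_mul (F8_wd_le hw i k x) (PiLp.norm_apply_le (ψ x) j) (abs_nonneg _) (F8_L0 hw)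

theorem lip_curl {w : E3 → E3} {L : ℝ} (hw : ∀ x y, ‖w x - w y‖ ≤ L * ‖x - y‖) {ψ : E3 → E3}
    (hψ : Cc ψ) : |ip w (curl ψ)| ≤ 6 * L * ∫ x, ‖ψ x‖ := by
  rw [F8_curl hw hψ]
  have T := fun i k j => abs_le.1 (F8_term hw hψ i k j)
  have a1 := T 1 2 0
  have a2 := T 2 1 0
  have a3 := T 2 0 1
  have a4 := T 0 2 1
  have a5 := T 0 1 2
  have a6 := T 1 0 2
  rw [abs_le]
  constructor
  · linarith [a1.1, a2.2, a3.1, a4.2, a5.1, a6.2]
  · linarith [a1.2, a2.1, a3.2, a4.1, a5.2, a6.1]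

/-- the components of the curl -/
def F8_c (w : E3 → E3) (k : Fin 3) (x : E3) : ℝ :=
  F8_wd w (k + 1) (k + 2) x - F8_wd w (k + 2) (k + 1) x

theorem F8_curl_c {w : E3 → E3} {L : ℝ} (hw : ∀ x y, ‖w x - w y‖ ≤ L * ‖x - y‖) {ψ : E3 → E3}
    (hψ : Cc ψ) : ip w (curl ψ) = ∑ k, ∫ x, F8_c w k x * ψ x k := by
  have h : ∀ k : Fin 3, ∫ x, F8_c w k x * ψ x k =
      (∫ x, F8_wd w (k + 1) (k + 2) x * ψ x k) - ∫ x, F8_wd w (k + 2) (k + 1) x * ψ x k := by
    intro k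
    rw [← integral_sub (F8_int hw _ _ (F8_comp hψ k)) (F8_int hw _ _ (F8_comp hψ k))]
    refine integral_congr_ae (Eventually.of_forall fun x => ?_)
    show F8_c w k x * ψ x k = _
    unfold F8_c
    ring
  rw [Fin.sum_univ_three, h, h, h, F8_curl hw hψ]
  rfl

/-- a scalar test function in the direction `k` -/
theorem F8_vec {g : E3 → ℝ} (hg : Cc g) (k : Fin 3) :
    Cc (fun x => g x • (EuclideanSpace.single k (1 : ℝ) : E3)) ∧
      tsupport (fun x => g x • (EuclideanSpace.single k (1 : ℝ) : E3)) ⊆ tsupport g := by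
  have hs : tsupport (fun x => g x • (EuclideanSpace.single k (1 : ℝ) : E3)) ⊆ tsupport g :=
    closure_mono fun x hx => by
      intro h0
      apply hx
      show g x • (EuclideanSpace.single k (1 : ℝ) : E3) = 0
      rw [h0, zero_smul]
  refine ⟨⟨hg.smooth.smul contDiff_const, ?_⟩, hs⟩
  exact hg.comp.of_isClosed_subset (isClosed_tsupport _) hs

theorem F8_local {w : E3 → E3} {L : ℝ} (hw : ∀ x y, ‖w x - w y‖ ≤ L * ‖x - y‖) {α : E3} {δ : ℝ}
    (h : ∀ ψ : E3 → E3, Cc ψ → tsupport ψ ⊆ Metric.ball α δ → ip w (curl ψ) = 0) (k : Fin 3) :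
    ∀ᵐ x : E3, x ∈ Metric.ball α δ → F8_c w k x = 0 := by
  apply IsOpen.ae_eq_zero_of_integral_contDiff_smul_eq_zero Metric.isOpen_ball
  · apply LocallyIntegrable.locallyIntegrableOn
    exact ((F8_lip hw _).locallyIntegrable_lineDeriv _).sub
      ((F8_lip hw _).locallyIntegrable_lineDeriv _)
  · intro g hg hgc hgs
    have hcc : Cc g := ⟨hg, hgc⟩
    obtain ⟨h1, h2⟩ := F8_vec hcc k
    have h3 := h _ h1 (h2.trans hgs)
    rw [F8_curl_c hw h1, Finset.sum_eq_single k] at h3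
    · rw [← h3]
      refine integral_congr_ae (Eventually.of_forall fun x => ?_)
      show g x • F8_c w k x = F8_c w k x * (g x • (EuclideanSpace.single k (1 : ℝ) : E3)) k
      rw [PiLp.smul_apply, PiLp.single_apply, if_pos rfl]
      simp [mul_comm]
    · intro j _ hj
      rw [← integral_zero E3 ℝ]
      refine integral_congr_ae (Eventually.of_forall fun x => ?_)
      show F8_c w j x * (g x • (EuclideanSpace.single k (1 : ℝ) : E3)) j = 0
      rw [PiLp.smul_apply, PiLp.single_apply, if_neg hj, smul_zero, mul_zero]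
    · intro hk
      exact absurd (Finset.mem_univ _) hk

/-- if the curl of a Lipschitz field vanishes near almost every point, it vanishes -/
theorem curl_zero_of_local {w : E3 → E3} {L : ℝ} (hw : ∀ x y, ‖w x - w y‖ ≤ L * ‖x - y‖)
    (h0 : ∀ᵐ α : E3, ∃ δ : ℝ, 0 < δ ∧ ∀ ψ : E3 → E3, Cc ψ → tsupport ψ ⊆ Metric.ball α δ →
      ip w (curl ψ) = 0) (ψ : E3 → E3) (hψ : Cc ψ) : ip w (curl ψ) = 0 := by
  rw [F8_curl_c hw hψ]
  apply Finset.sum_eq_zero
  intro k _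
  have hk : ∀ᵐ x : E3, F8_c w k x = 0 := by
    have hnull : volume {x : E3 | (∃ δ : ℝ, 0 < δ ∧ ∀ ψ : E3 → E3, Cc ψ →
        tsupport ψ ⊆ Metric.ball x δ → ip w (curl ψ) = 0) ∧ F8_c w k x ≠ 0} = 0 := by
      apply measure_null_of_locally_null
      rintro x ⟨⟨δ, hδ, hx⟩, _⟩
      refine ⟨Metric.ball x δ ∩ {y | F8_c w k y ≠ 0}, ?_, ?_⟩
      · rw [mem_nhdsWithin]
        refine ⟨Metric.ball x δ, Metric.isOpen_ball, Metric.mem_ball_self hδ, ?_⟩
        rintro y ⟨hy1, hy2⟩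
        exact ⟨hy1, hy2.2⟩
      · have h1 := F8_local hw hx k
        rw [ae_iff] at h1
        convert h1 using 2
        ext y
        simp
    filter_upwards [h0, compl_mem_ae_iff.2 hnull] with x hx1 hx2
    by_contra hne
    exact hx2 ⟨hx1, hne⟩
  rw [← integral_zero E3 ℝ]
  apply integral_congr_ae
  filter_upwards [hk] with x hx
  rw [hx, zero_mul]

end Pool.Agent.Helper60.EC
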