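import Pool.Agent.Helper60.EC.GDefs
import Pool.Agent.Helper60.EC.D1a
import Pool.Agent.Helper60.EC.Mol

/-! Project EC, G1a: Lipschitz representatives -/

set_option autoImplicit false

open MeasureTheory Set Filter Topology
open scoped ENNReal ContDiff

noncomputable section

namespace Pool.Agent.Helper60.EC

open Pool.Agent.Helper52.NSE (E3 pd divg TestField IsSmoothBoundedDomain MemH1s MemL2s
  IsWeakSolution gradSq)

open scoped Convolution

theorem G1a_ei (v : E3) : v = ∑ i, v i • EuclideanSpace.single i (1 : ℝ) := by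
  ext j
  simp [Pi.single_apply]

theorem G1a_abs_sum (v : E3) : ∑ i, |v i| ≤ Real.sqrt 3 * ‖v‖ := by
  refine abs_le_of_sq_le_sq' ?_ (by positivity) |>.2
  rw [mul_pow, Real.sq_sqrt (by norm_num), EuclideanSpace.norm_sq_eq]
  have := sq_sum_le_card_mul_sum_sq (s := (Finset.univ : Finset (Fin 3))) (f := fun i => |v i|)
  simpa using this

theorem G1a_opNorm (A : E3 →L[ℝ] E3) {L : ℝ} (hL : 0 ≤ L)
    (h : ∀ i, ‖A (EuclideanSpace.single i 1)‖ ≤ L) : ‖A‖ ≤ Real.sqrt 3 * L := by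
  refine A.opNorm_le_bound (by positivity) fun v => ?_
  have e2 : A v = ∑ i, v i • A (EuclideanSpace.single i 1) := by
    conv_lhs => rw [G1a_ei v]
    rw [map_sum]
    refine Finset.sum_congr rfl fun i _ => ?_
    rw [map_smul]
  rw [e2]
  calc ‖∑ i, v i • A (EuclideanSpace.single i 1)‖
      ≤ ∑ i, ‖v i • A (EuclideanSpace.single i 1)‖ := norm_sum_le _ _
    _ ≤ ∑ i, |v i| * L := by
        refine Finset.sum_le_sum fun i _ => ?_
        rw [norm_smul, Real.norm_eq_abs]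
        exact mul_le_mul_of_nonneg_left (h i) (abs_nonneg _)
    _ = (∑ i, |v i|) * L := by rw [Finset.sum_mul]
    _ ≤ (Real.sqrt 3 * ‖v‖) * L := mul_le_mul_of_nonneg_right (G1a_abs_sum v) hL
    _ = Real.sqrt 3 * L * ‖v‖ := by ring

/-- the mollified smooth field is Lipschitz -/
theorem G1a_conv_lip {η : E3 → ℝ} (hη : Continuous η) {φ : E3 → E3} (hφ : ContDiff ℝ ∞ φ)
    (hc : HasCompactSupport φ) {L : ℝ} (hL : 0 ≤ L)
    (h : ∀ i z, ‖(η ⋆[ContinuousLinearMap.lsmul ℝ ℝ, volume] (pd φ i)) z‖ ≤ L) (x y : E3) :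
    ‖(η ⋆[ContinuousLinearMap.lsmul ℝ ℝ, volume] φ) x -
      (η ⋆[ContinuousLinearMap.lsmul ℝ ℝ, volume] φ) y‖ ≤ Real.sqrt 3 * L * ‖x - y‖ := by
  have hηl : LocallyIntegrable η volume := hη.locallyIntegrable
  have hd : ∀ z, HasFDerivAt (η ⋆[ContinuousLinearMap.lsmul ℝ ℝ, volume] φ)
      ((η ⋆[(ContinuousLinearMap.lsmul ℝ ℝ).precompR E3, volume] fderiv ℝ φ) z) z := fun z =>
    hc.hasFDerivAt_convolution_right _ hηl (hφ.of_le (by norm_num)) z
  have hb : ∀ z, ‖(η ⋆[(ContinuousLinearMap.lsmul ℝ ℝ).precompR E3, volume] fderiv ℝ φ) z‖ ≤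
      Real.sqrt 3 * L := by
    intro z
    refine G1a_opNorm _ hL fun i => ?_
    rw [convolution_precompR_apply _ hηl (hc.fderiv ℝ) (hφ.continuous_fderiv (by norm_num))]
    exact h i z
  exact Convex.norm_image_sub_le_of_norm_hasFDerivWithin_le (s := univ)
    (fun z _ => (hd z).hasFDerivWithinAt) (fun z _ => hb z) convex_univ (mem_univ y) (mem_univ x)

theorem G1a_int {η : E3 → ℝ} (hη : Continuous η) {M : ℝ} (hM : ∀ x, |η x| ≤ M) {g : E3 → E3}
    (hg : Integrable g volume) (x : E3) : Integrable (fun t => η t • g (x - t)) volume := by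
  exact Integrable.bdd_smul (hg.comp_sub_left x) M hη.aestronglyMeasurable
    (Eventually.of_forall fun t => by rw [Real.norm_eq_abs]; exact hM t)

theorem G1a_conv_sub {η : E3 → ℝ} (hη : Continuous η) {M : ℝ} (hM : ∀ x, |η x| ≤ M)
    {g g' : E3 → E3} (hg : Integrable g volume) (hg' : Integrable g' volume) (x : E3) :
    ‖(η ⋆[ContinuousLinearMap.lsmul ℝ ℝ, volume] g) x -
      (η ⋆[ContinuousLinearMap.lsmul ℝ ℝ, volume] g') x‖ ≤ M * ∫ y, ‖g y - g' y‖ := by
  simp only [convolution_def, ContinuousLinearMap.lsmul_apply]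
  rw [← integral_sub (G1a_int hη hM hg x) (G1a_int hη hM hg' x)]
  have e : ∫ y, ‖g y - g' y‖ = ∫ t, ‖g (x - t) - g' (x - t)‖ :=
    (integral_sub_left_eq_self (fun y => ‖g y - g' y‖) volume x).symm
  rw [e, ← integral_const_mul]
  refine norm_integral_le_of_norm_le ?_ (Eventually.of_forall fun t => ?_)
  · exact (((hg.sub hg').norm).comp_sub_left x).const_mul M
  · rw [← smul_sub, norm_smul, Real.norm_eq_abs]
    exact mul_le_mul_of_nonneg_right (hM t) (norm_nonneg _)

theorem G1a_conv_bd {η : E3 → ℝ} (hη : Continuous η) {M : ℝ} (hM : ∀ x, |η x| ≤ M)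
    (h0 : ∀ x, 0 ≤ η x) (hηi : Integrable η volume) (h1 : ∫ x, η x = 1)
    {g : E3 → E3} (hg : Integrable g volume) {L : ℝ} (hL : ∀ᵐ x, ‖g x‖ ≤ L) (x : E3) :
    ‖(η ⋆[ContinuousLinearMap.lsmul ℝ ℝ, volume] g) x‖ ≤ L := by
  simp only [convolution_def, ContinuousLinearMap.lsmul_apply]
  have e : L = ∫ t, η t * L := by
    rw [integral_mul_const, h1, one_mul]
  rw [e]
  refine norm_integral_le_of_norm_le (hηi.mul_const L) ?_
  have h2 : ∀ᵐ t, ‖g (x - t)‖ ≤ L :=
    (volume.measurePreserving_sub_left x).quasiMeasurePreserving.ae hL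
  filter_upwards [h2] with t ht
  rw [norm_smul, Real.norm_eq_abs, abs_of_nonneg (h0 t)]
  exact mul_le_mul_of_nonneg_left ht (h0 t)

theorem G1a_l1 {Ω : Set E3} (hO : IsOpen Ω) {f g : E3 → E3}
    (hf : AEStronglyMeasurable f (volume.restrict Ω)) (hg : Continuous g)
    (hz : ∀ x, x ∉ Ω → g x = 0) {δ : ℝ} {ε : ℝ≥0∞}
    (he : ε * (volume Ω) ^ (1 / 2 : ℝ) ≤ ENNReal.ofReal δ) (hδ : 0 ≤ δ)
    (h : eLpNorm (fun x => f x - g x) 2 (volume.restrict Ω) < ε) :
    ∫ x, ‖Ω.indicator f x - g x‖ ≤ δ := by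
  have hm : AEStronglyMeasurable (fun x => f x - g x) (volume.restrict Ω) :=
    hf.sub hg.aestronglyMeasurable
  have e1 : (fun x => ‖Ω.indicator f x - g x‖) = Ω.indicator (fun x => ‖f x - g x‖) := by
    funext x
    by_cases hx : x ∈ Ω
    · rw [indicator_of_mem hx, indicator_of_mem hx]
    · rw [indicator_of_notMem hx, indicator_of_notMem hx, hz x hx]
      simp
  rw [e1, integral_indicator hO.measurableSet, integral_norm_eq_lintegral_enorm hm]
  refine ENNReal.toReal_le_of_le_ofReal hδ ?_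
  rw [← eLpNorm_one_eq_lintegral_enorm]
  refine (eLpNorm_le_eLpNorm_mul_rpow_measure_univ (p := 1) (q := 2) (by norm_num) hm).trans ?_
  refine le_trans ?_ he
  have e2 : (1 / (1 : ℝ≥0∞).toReal - 1 / (2 : ℝ≥0∞).toReal) = (1 / 2 : ℝ) := by
    norm_num
  rw [e2, Measure.restrict_apply_univ]
  gcongr

theorem G1a_tf_zero {Ω : Set E3} {φ : E3 → E3} (hφ : TestField Ω φ) {x : E3} (hx : x ∉ Ω) :
    φ x = 0 := image_eq_zero_of_notMem_tsupport fun h => hx (hφ.supp h)

theorem G1a_pd_cont {Ω : Set E3} {φ : E3 → E3} (hφ : TestField Ω φ) (i : Fin 3) :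
    Continuous (pd φ i) :=
  (hφ.smooth.continuous_fderiv (by norm_num)).clm_apply continuous_const

theorem G1a_pd_zero {Ω : Set E3} {φ : E3 → E3} (hφ : TestField Ω φ) (i : Fin 3) {x : E3}
    (hx : x ∉ Ω) : pd φ i x = 0 := by
  have h1 : x ∉ tsupport (fderiv ℝ φ) := fun h => hx (hφ.supp (tsupport_fderiv_subset ℝ h))
  unfold pd
  rw [image_eq_zero_of_notMem_tsupport h1]
  rfl

theorem G1a_pd_supp {Ω : Set E3} {φ : E3 → E3} (hφ : TestField Ω φ) (i : Fin 3) :
    HasCompactSupport (pd φ i) := by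
  refine (hφ.compact.fderiv ℝ).mono fun x hx => ?_
  simp only [Function.mem_support, ne_eq] at hx ⊢
  intro h
  apply hx
  unfold pd
  rw [h]
  rfl

theorem G1a_approx {Ω : Set E3} (hO : IsOpen Ω) (hb : Bornology.IsBounded Ω) {w : E3 → E3}
    {G : Fin 3 → E3 → E3} (h : MemH1s Ω w G) {δ : ℝ} (hδ : 0 < δ) :
    ∃ φ, TestField Ω φ ∧ ∫ x, ‖Ω.indicator w x - φ x‖ ≤ δ ∧
      ∀ i, ∫ x, ‖Ω.indicator (G i) x - pd φ i x‖ ≤ δ := by
  have hV : volume Ω ≠ ⊤ := hb.measure_lt_top.ne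
  set B : ℝ≥0∞ := (volume Ω) ^ (1 / 2 : ℝ) with hB
  have hBt : B ≠ ⊤ := ENNReal.rpow_ne_top_of_nonneg (by norm_num) hV
  have hδ' : ENNReal.ofReal δ ≠ 0 := by simpa using hδ
  obtain ⟨φ, hφ, h1, h2⟩ := h.2.2 (ENNReal.ofReal δ / (B + 1))
    (ENNReal.div_pos hδ' (by finiteness))
  have he : ENNReal.ofReal δ / (B + 1) * B ≤ ENNReal.ofReal δ := by
    calc ENNReal.ofReal δ / (B + 1) * B ≤ ENNReal.ofReal δ / (B + 1) * (B + 1) := by
          gcongr
          exact le_self_add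
      _ = ENNReal.ofReal δ := ENNReal.div_mul_cancel (by simp) (by finiteness)
  exact ⟨φ, hφ, G1a_l1 hO h.1 hφ.smooth.continuous (fun x hx => G1a_tf_zero hφ hx) he hδ.le h1,
    fun i => G1a_l1 hO (h.2.1 i) (G1a_pd_cont hφ i) (fun x hx => G1a_pd_zero hφ i hx) he hδ.le
      (h2 i)⟩

theorem G1a_integrable {Ω : Set E3} (hO : IsOpen Ω) (hb : Bornology.IsBounded Ω) {w : E3 → E3}
    {G : Fin 3 → E3 → E3} (h : MemH1s Ω w G) : Integrable (Ω.indicator w) volume ∧
      ∀ i, Integrable (Ω.indicator (G i)) volume := by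
  have : IsFiniteMeasure (volume.restrict Ω) := ⟨by
    rw [Measure.restrict_apply_univ]
    exact hb.measure_lt_top⟩
  obtain ⟨φ, hφ, h1, h2⟩ := h.2.2 1 one_pos
  have key : ∀ f g : E3 → E3, AEStronglyMeasurable f (volume.restrict Ω) → Continuous g →
      HasCompactSupport g → eLpNorm (fun x => f x - g x) 2 (volume.restrict Ω) < 1 →
      Integrable (Ω.indicator f) volume := by
    intro f g hf hg hc hlt
    rw [integrable_indicator_iff hO.measurableSet]
    have e1 : MemLp (fun x => f x - g x) 2 (volume.restrict Ω) :=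
      ⟨hf.sub hg.aestronglyMeasurable, hlt.trans ENNReal.one_lt_top⟩
    have e2 : MemLp g 2 (volume.restrict Ω) := (hg.memLp_of_hasCompactSupport hc).restrict Ω
    have e3 := e1.add e2
    have e4 : (fun x => f x - g x) + g = f := by
      funext x
      simp
    rw [e4] at e3
    exact e3.integrable (by norm_num)
  exact ⟨key w φ h.1 hφ.smooth.continuous hφ.compact h1, fun i =>
    key (G i) (pd φ i) (h.2.1 i) (G1a_pd_cont hφ i) (G1a_pd_supp hφ i) (h2 i)⟩

theorem G1a_K {Ω : Set E3} (hO : IsOpen Ω) (hb : Bornology.IsBounded Ω) {w : E3 → E3}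
    {G : Fin 3 → E3 → E3} (h : MemH1s Ω w G) {L : ℝ} (hL0 : 0 ≤ L)
    (hL : ∀ᵐ x ∂(volume.restrict Ω), ∀ i, ‖G i x‖ ≤ L) {η : E3 → ℝ} (hη : Continuous η)
    {M : ℝ} (hM : ∀ x, |η x| ≤ M) (h0 : ∀ x, 0 ≤ η x) (hηi : Integrable η volume)
    (h1 : ∫ x, η x = 1) (x y : E3) :
    ‖(η ⋆[ContinuousLinearMap.lsmul ℝ ℝ, volume] (Ω.indicator w)) x -
      (η ⋆[ContinuousLinearMap.lsmul ℝ ℝ, volume] (Ω.indicator w)) y‖ ≤
        Real.sqrt 3 * L * ‖x - y‖ := by
  have hM0 : 0 ≤ M := (abs_nonneg _).trans (hM 0)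
  have key : ∀ δ : ℝ, 0 < δ → ‖(η ⋆[ContinuousLinearMap.lsmul ℝ ℝ, volume] (Ω.indicator w)) x -
      (η ⋆[ContinuousLinearMap.lsmul ℝ ℝ, volume] (Ω.indicator w)) y‖ ≤
        Real.sqrt 3 * (L + M * δ) * ‖x - y‖ + 2 * (M * δ) := by
    intro δ hδ
    obtain ⟨φ, hφ, ha, hbb⟩ := G1a_approx hO hb h hδ
    have hint := G1a_integrable hO hb h
    have hφi : Integrable φ volume :=
      hφ.smooth.continuous.integrable_of_hasCompactSupport hφ.compact
    have hLip := G1a_conv_lip hη hφ.smooth hφ.compact (L := L + M * δ) (by positivity) (by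
      intro i z
      have hpi : Integrable (pd φ i) volume :=
        (G1a_pd_cont hφ i).integrable_of_hasCompactSupport (G1a_pd_supp hφ i)
      have e1 := G1a_conv_sub hη hM (hint.2 i) hpi z
      have e2 : ∀ᵐ x, ‖Ω.indicator (G i) x‖ ≤ L := by
        rw [ae_restrict_iff' hO.measurableSet] at hL
        filter_upwards [hL] with x hx
        by_cases hxO : x ∈ Ω
        · rw [indicator_of_mem hxO]
          exact hx hxO i
        · rw [indicator_of_notMem hxO]
          simpa using hL0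
      have e3 := G1a_conv_bd hη hM h0 hηi h1 (hint.2 i) e2 z
      have e4 : M * ∫ y, ‖Ω.indicator (G i) y - pd φ i y‖ ≤ M * δ :=
        mul_le_mul_of_nonneg_left (hbb i) hM0
      have e5 := norm_sub_norm_le
        ((η ⋆[ContinuousLinearMap.lsmul ℝ ℝ, volume] (pd φ i)) z)
        ((η ⋆[ContinuousLinearMap.lsmul ℝ ℝ, volume] (Ω.indicator (G i))) z)
      rw [norm_sub_rev] at e5
      linarith) x y
    have ex := G1a_conv_sub hη hM hint.1 hφi x
    have ey := G1a_conv_sub hη hM hint.1 hφi y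
    have e4 : M * ∫ y, ‖Ω.indicator w y - φ y‖ ≤ M * δ :=
      mul_le_mul_of_nonneg_left ha hM0
    set a := (η ⋆[ContinuousLinearMap.lsmul ℝ ℝ, volume] (Ω.indicator w)) x
    set b := (η ⋆[ContinuousLinearMap.lsmul ℝ ℝ, volume] (Ω.indicator w)) y
    set a' := (η ⋆[ContinuousLinearMap.lsmul ℝ ℝ, volume] φ) x
    set b' := (η ⋆[ContinuousLinearMap.lsmul ℝ ℝ, volume] φ) y
    have e6 : a - b = (a - a') + (a' - b') - (b - b') := by abel
    have e7 : ‖a - b‖ ≤ ‖a - a'‖ + ‖a' - b'‖ + ‖b - b'‖ := by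
      rw [e6]
      exact (norm_sub_le _ _).trans (add_le_add (norm_add_le _ _) le_rfl)
    linarith
  have hT : Tendsto (fun δ : ℝ => Real.sqrt 3 * (L + M * δ) * ‖x - y‖ + 2 * (M * δ)) (𝓝[>] 0)
      (𝓝 (Real.sqrt 3 * (L + M * 0) * ‖x - y‖ + 2 * (M * 0))) := by
    refine (Continuous.tendsto ?_ 0).mono_left nhdsWithin_le_nhds
    fun_prop
  have h3 := ge_of_tendsto hT (by
    filter_upwards [self_mem_nhdsWithin] with δ hδ
    exact key δ hδ)
  simpa using h3

theorem G1a_zero {Ω : Set E3} (hΩ : IsSmoothBoundedDomain Ω) {w U : E3 → E3}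
    (hU : Continuous U) (hae : U =ᵐ[volume] Ω.indicator w) {x : E3} (hx : x ∉ Ω) : U x = 0 := by
  obtain ⟨r, hr, hΩr, hdr⟩ := hΩ.defining
  have hrc : Continuous r := hr.continuous
  have hpos : ∀ y, 0 < r y → U y = 0 := by
    intro y hy
    by_contra hne
    have hW : IsOpen ({z | 0 < r z} ∩ {z | U z ≠ 0}) :=
      (isOpen_lt continuous_const hrc).inter (isOpen_ne_fun hU continuous_const)
    have hWp := hW.measure_pos volume ⟨y, hy, hne⟩
    have hsub : ({z | 0 < r z} ∩ {z | U z ≠ 0}) ⊆ {z | ¬ U z = Ω.indicator w z} := by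
      rintro z ⟨h1, h2⟩ h3
      have h4 : z ∉ Ω := by
        rw [hΩr]
        simp only [mem_setOf_eq, not_lt]
        exact le_of_lt h1
      rw [indicator_of_notMem h4] at h3
      exact h2 h3
    have h0 : volume {z | ¬ U z = Ω.indicator w z} = 0 := hae
    exact hWp.ne' (measure_mono_null hsub h0)
  have hrx : 0 ≤ r x := by
    rw [hΩr] at hx
    simpa using hx
  rcases hrx.lt_or_eq with hlt | heq
  · exact hpos x hlt
  · have hne := hdr x heq.symm
    obtain ⟨v, hv⟩ : ∃ v, 0 < fderiv ℝ r x v := by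
      by_contra hcon
      push Not at hcon
      apply hne
      ext v
      have h1 := hcon v
      have h2 := hcon (-v)
      rw [map_neg] at h2
      simp only [ContinuousLinearMap.zero_apply]
      linarith
    have hd : HasDerivAt (fun t : ℝ => r (x + t • v)) (fderiv ℝ r x v) 0 := by
      have h1 : HasFDerivAt r (fderiv ℝ r x) (x + (0 : ℝ) • v) := by
        rw [zero_smul, add_zero]
        exact (hr.differentiable (by norm_num) x).hasFDerivAt
      have h2 : HasDerivAt (fun t : ℝ => x + t • v) v 0 := by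
        simpa using ((hasDerivAt_id (0 : ℝ)).smul_const v).const_add x
      exact h1.comp_hasDerivAt 0 h2
    have hs := (hasDerivAt_iff_tendsto_slope.1 hd).mono_left
      (nhdsWithin_mono (0 : ℝ) (fun t (ht : t ∈ Ioi (0 : ℝ)) => (ne_of_gt ht : t ≠ 0)))
    have hev : ∀ᶠ t : ℝ in 𝓝[>] 0, U (x + t • v) = 0 := by
      filter_upwards [hs.eventually (lt_mem_nhds hv), self_mem_nhdsWithin] with t ht htp
      apply hpos
      have htp' : 0 < t := htp
      simp only [slope, sub_zero, zero_smul, add_zero, vsub_eq_sub, smul_eq_mul] at ht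
      rw [← heq, sub_zero] at ht
      exact (mul_pos_iff_of_pos_left (inv_pos.2 htp')).1 ht
    have hlim : Tendsto (fun t : ℝ => U (x + t • v)) (𝓝[>] 0) (𝓝 (U x)) := by
      have hc : Continuous (fun t : ℝ => U (x + t • v)) := by fun_prop
      have h1 := (hc.tendsto 0).mono_left (nhdsWithin_le_nhds (s := Ioi (0 : ℝ)))
      simpa using h1
    have hlim0 : Tendsto (fun t : ℝ => U (x + t • v)) (𝓝[>] 0) (𝓝 0) :=
      tendsto_const_nhds.congr' (by
        filter_upwards [hev] with t ht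
        exact ht.symm)
    exact tendsto_nhds_unique hlim hlim0

theorem lip_rep {Ω : Set E3} (hΩ : IsSmoothBoundedDomain Ω) {w : E3 → E3} {G : Fin 3 → E3 → E3}
    (h : MemH1s Ω w G) {L : ℝ} (hL : ∀ᵐ x ∂(volume.restrict Ω), ∀ i, ‖G i x‖ ≤ L) :
    ∃ U : E3 → E3, U =ᵐ[volume.restrict Ω] w ∧ (∀ x, x ∉ Ω → U x = 0) ∧
      ∀ x y, ‖U x - U y‖ ≤ 3 * L * ‖x - y‖ := by
  have hO : IsOpen Ω := hΩ.isOpen
  have hb := hΩ.bdd
  have hL0 : 0 ≤ L := by
    obtain ⟨x0, hx0⟩ := hΩ.conn.nonempty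
    have hne : volume.restrict Ω ≠ 0 := by
      intro h0
      rw [Measure.restrict_eq_zero] at h0
      exact (hO.measure_pos volume ⟨x0, hx0⟩).ne' h0
    have : (ae (volume.restrict Ω)).NeBot := ae_neBot.2 hne
    obtain ⟨x, hx⟩ := hL.exists
    exact (norm_nonneg _).trans (hx 0)
  have hint := (G1a_integrable hO hb h).1
  have hp : ∀ k : ℕ, (0 : ℝ) < 1 / ((k : ℝ) + 1) := fun k => by positivity
  set φ : ℕ → ContDiffBump (0 : E3) := fun k =>
    ⟨1 / ((k : ℝ) + 1) / 2, 1 / ((k : ℝ) + 1), half_pos (hp k), half_lt_self (hp k)⟩ with hφ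
  have hrout : Tendsto (fun k => (φ k).rOut) atTop (𝓝 0) :=
    tendsto_one_div_add_atTop_nhds_zero_nat
  have hratio : ∀ᶠ k in (atTop : Filter ℕ), (φ k).rOut ≤ 2 * (φ k).rIn :=
    Eventually.of_forall fun k => by
      simp only [hφ]
      linarith
  have hae := ContDiffBump.ae_convolution_tendsto_right_of_locallyIntegrable (μ := volume)
    hrout hratio hint.locallyIntegrable
  set S : Set E3 := {x | Tendsto (fun k => (((φ k).normed volume)
    ⋆[ContinuousLinearMap.lsmul ℝ ℝ, volume] (Ω.indicator w)) x) atTop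
      (𝓝 (Ω.indicator w x))} with hS
  have hLipS : ∀ x ∈ S, ∀ y ∈ S, ‖Ω.indicator w x - Ω.indicator w y‖ ≤
      Real.sqrt 3 * L * ‖x - y‖ := by
    intro x hx y hy
    refine le_of_tendsto ((hx.sub hy).norm) (Eventually.of_forall fun k => ?_)
    obtain ⟨M, hM⟩ := (φ k).continuous_normed.bounded_above_of_compact_support
      ((φ k).hasCompactSupport_normed (μ := volume))
    exact G1a_K hO hb h hL0 hL (φ k).continuous_normed (M := M)
      (fun z => by simpa using hM z) (fun z => (φ k).nonneg_normed z)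
      (φ k).integrable_normed (φ k).integral_normed x y
  have hK0 : 0 ≤ Real.sqrt 3 * L := by positivity
  have hLi : ∀ i : Fin 3, LipschitzOnWith (Real.toNNReal (Real.sqrt 3 * L))
      (fun x => (Ω.indicator w x) i) S := by
    intro i
    refine LipschitzOnWith.of_dist_le_mul fun x hx y hy => ?_
    rw [Real.coe_toNNReal _ hK0, dist_eq_norm, dist_eq_norm]
    refine le_trans ?_ (hLipS x hx y hy)
    exact PiLp.norm_apply_le (Ω.indicator w x - Ω.indicator w y) i
  choose g hg1 hg2 using fun i => (hLi i).extend_real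
  set U : E3 → E3 := fun x => WithLp.toLp 2 (fun i => g i x) with hUdef
  have hUS : ∀ x ∈ S, U x = Ω.indicator w x := by
    intro x hx
    ext i
    exact (hg2 i hx).symm
  have hULip : ∀ x y, ‖U x - U y‖ ≤ 3 * L * ‖x - y‖ := by
    intro x y
    refine abs_le_of_sq_le_sq' ?_ (by positivity) |>.2
    rw [EuclideanSpace.norm_sq_eq]
    have h1 : ∀ i, ‖(U x - U y) i‖ ^ 2 ≤ (Real.sqrt 3 * L * ‖x - y‖) ^ 2 := by
      intro i
      have h2 := (hg1 i).dist_le_mul x y
      rw [Real.coe_toNNReal _ hK0, dist_eq_norm, dist_eq_norm] at h2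
      exact pow_le_pow_left₀ (norm_nonneg _) h2 2
    calc ∑ i, ‖(U x - U y) i‖ ^ 2 ≤ ∑ _i : Fin 3, (Real.sqrt 3 * L * ‖x - y‖) ^ 2 :=
          Finset.sum_le_sum fun i _ => h1 i
      _ = (3 * L * ‖x - y‖) ^ 2 := by
          rw [Finset.sum_const, Finset.card_univ, Fintype.card_fin, nsmul_eq_mul, mul_pow,
            mul_pow, Real.sq_sqrt (by norm_num)]
          push_cast
          ring
  have hUc : Continuous U := by
    have : LipschitzWith (Real.toNNReal (3 * L)) U := LipschitzWith.of_dist_le_mul fun x y => by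
      rw [Real.coe_toNNReal _ (by positivity), dist_eq_norm, dist_eq_norm]
      exact hULip x y
    exact this.continuous
  have hUae : U =ᵐ[volume] Ω.indicator w := by
    filter_upwards [hae] with x hx
    exact hUS x hx
  refine ⟨U, ?_, fun x hx => G1a_zero hΩ hUc hUae hx, hULip⟩
  have h1 : Ω.indicator w =ᵐ[volume.restrict Ω] w := indicator_ae_eq_restrict hO.measurableSet
  have h2 : U =ᵐ[volume.restrict Ω] Ω.indicator w := ae_restrict_of_ae hUae
  exact h2.trans h1

end Pool.Agent.Helper60.EC
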