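import Pool.Agent.Helper60.EC.GDefs
import Pool.Agent.Helper60.EC.Calc2

/-! Project EC, G1b: the extension by zero of a field in H¹₀ -/

set_option autoImplicit false

open MeasureTheory Set Filter Topology
open scoped ENNReal ContDiff

noncomputable section

namespace Pool.Agent.Helper60.EC

open Pool.Agent.Helper52.NSE (E3 pd divg TestField IsSmoothBoundedDomain MemH1s MemL2s
  IsWeakSolution gradSq)

theorem G1b_sq {f : E3 → E3} {μ : Measure E3} (hf : MemLp f 2 μ) :
    ∫ x, ‖f x‖ ^ 2 ∂μ = (eLpNorm f 2 μ).toReal ^ 2 := by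
  have h := hf.eLpNorm_eq_integral_rpow_norm two_ne_zero ENNReal.ofNat_ne_top
  rw [h]
  have h0 : 0 ≤ ∫ x, ‖f x‖ ^ (2 : ℝ≥0∞).toReal ∂μ := integral_nonneg fun x => by positivity
  rw [ENNReal.toReal_ofReal (by positivity), ← Real.rpow_natCast, ← Real.rpow_mul h0]
  simp

theorem G1b_pt {φ : E3 → E3} (hφ : ContDiff ℝ 1 φ) (h x : E3) :
    ‖φ (x + h) - φ x‖ ^ 2 ≤ ∫ t in (0 : ℝ)..1, ‖fderiv ℝ φ (x + t • h) h‖ ^ 2 := by
  obtain ⟨g, hg⟩ : ∃ g : ℝ → E3, g = fun t => fderiv ℝ φ (x + t • h) h := ⟨_, rfl⟩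
  have hc : Continuous g := by
    rw [hg]
    have h1 : Continuous (fderiv ℝ φ) := hφ.continuous_fderiv (by norm_num)
    have h2 : Continuous fun t : ℝ => x + t • h := by fun_prop
    exact (h1.comp h2).clm_apply continuous_const
  have h1 : ∫ t in (0 : ℝ)..1, g t = φ (x + h) - φ x := by
    have h2 : ∀ t ∈ uIcc (0 : ℝ) 1, HasDerivAt (fun t : ℝ => φ (x + t • h)) (g t) t := by
      intro t _
      have h3 : HasFDerivAt φ (fderiv ℝ φ (x + t • h)) (x + t • h) :=
        (hφ.differentiable (by norm_num) _).hasFDerivAt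
      have h4 : HasDerivAt (fun t : ℝ => x + t • h) h t := by
        have := ((hasDerivAt_id t).smul_const h).const_add x
        simpa using this
      have h5 := h3.comp_hasDerivAt t h4
      rw [hg]
      exact h5
    rw [intervalIntegral.integral_eq_sub_of_hasDerivAt h2 (hc.intervalIntegrable 0 1)]
    simp
  have h2 : ‖∫ t in (0 : ℝ)..1, g t‖ ≤ ∫ t in (0 : ℝ)..1, ‖g t‖ :=
    intervalIntegral.norm_integral_le_integral_norm zero_le_one
  obtain ⟨c, hcd⟩ : ∃ c : ℝ, c = ∫ t in (0 : ℝ)..1, ‖g t‖ := ⟨_, rfl⟩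
  have h3 : 0 ≤ ∫ t in (0 : ℝ)..1, (‖g t‖ - c) ^ 2 :=
    intervalIntegral.integral_nonneg zero_le_one (fun t _ => sq_nonneg _)
  have h4 : ∫ t in (0 : ℝ)..1, (‖g t‖ - c) ^ 2 =
      (∫ t in (0 : ℝ)..1, ‖g t‖ ^ 2) - 2 * c * c + c ^ 2 := by
    have e1 : ∀ t, (‖g t‖ - c) ^ 2 = (‖g t‖ ^ 2 - 2 * c * ‖g t‖) + c ^ 2 := fun t => by ring
    simp_rw [e1]
    have i1 : IntervalIntegrable (fun t => ‖g t‖ ^ 2) volume 0 1 :=
      (hc.norm.pow 2).intervalIntegrable 0 1
    have i2 : IntervalIntegrable (fun t => 2 * c * ‖g t‖) volume 0 1 :=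
      (continuous_const.mul hc.norm).intervalIntegrable 0 1
    rw [intervalIntegral.integral_add (i1.sub i2) (by simp), intervalIntegral.integral_sub i1 i2,
      intervalIntegral.integral_const_mul, ← hcd]
    simp
  rw [h1] at h2
  rw [← hcd] at h2
  have h5 : ‖φ (x + h) - φ x‖ ^ 2 ≤ c ^ 2 := by
    have := norm_nonneg (φ (x + h) - φ x)
    nlinarith
  have h6 : c ^ 2 ≤ ∫ t in (0 : ℝ)..1, ‖g t‖ ^ 2 := by nlinarith
  rw [hg] at h6
  exact h5.trans h6

theorem G1b_tr {φ : E3 → E3} (hφ : Cc φ) (h : E3) :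
    ∫ x, ‖φ (x + h) - φ x‖ ^ 2 ≤ ‖h‖ ^ 2 * gsq φ := by
  have hφ1 : ContDiff ℝ 1 φ := hφ.smooth.of_le (by exact_mod_cast le_top)
  have hfc : Continuous (fderiv ℝ φ) := hφ1.continuous_fderiv (by norm_num)
  have hDc : Continuous fun x => ‖fderiv ℝ φ x h‖ ^ 2 :=
    ((hfc.clm_apply continuous_const).norm).pow 2
  have hDs : HasCompactSupport fun x => ‖fderiv ℝ φ x h‖ ^ 2 := by
    have h1 : HasCompactSupport fun x => fderiv ℝ φ x := hφ.comp.fderiv ℝ
    exact h1.comp_left (g := fun L : E3 →L[ℝ] E3 => ‖L h‖ ^ 2) (by simp)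
  have hDi : Integrable fun x => ‖fderiv ℝ φ x h‖ ^ 2 := hDc.integrable_of_hasCompactSupport hDs
  have hφc : Continuous φ := hφ.smooth.continuous
  have hLc : Continuous fun x => ‖φ (x + h) - φ x‖ ^ 2 := by fun_prop
  have hLs : HasCompactSupport fun x => ‖φ (x + h) - φ x‖ ^ 2 := by
    have h1 : HasCompactSupport fun x => φ (x + h) :=
      hφ.comp.comp_homeomorph (Homeomorph.addRight h)
    have h2 : HasCompactSupport fun x => φ (x + h) - φ x := h1.sub hφ.comp
    exact h2.comp_left (g := fun v : E3 => ‖v‖ ^ 2) (by simp)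
  have hLi : Integrable fun x => ‖φ (x + h) - φ x‖ ^ 2 := hLc.integrable_of_hasCompactSupport hLs
  -- the inequality with the lower integral
  have key : ∫⁻ x, ENNReal.ofReal (‖φ (x + h) - φ x‖ ^ 2) ≤
      ∫⁻ x, ENNReal.ofReal (‖fderiv ℝ φ x h‖ ^ 2) := by
    calc ∫⁻ x, ENNReal.ofReal (‖φ (x + h) - φ x‖ ^ 2)
        ≤ ∫⁻ x, ∫⁻ t in Ioc (0 : ℝ) 1, ENNReal.ofReal (‖fderiv ℝ φ (x + t • h) h‖ ^ 2) := by
          apply lintegral_mono
          intro x
          show ENNReal.ofReal (‖φ (x + h) - φ x‖ ^ 2) ≤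
            ∫⁻ t in Ioc (0 : ℝ) 1, ENNReal.ofReal (‖fderiv ℝ φ (x + t • h) h‖ ^ 2)
          have h1 := G1b_pt hφ1 h x
          rw [intervalIntegral.integral_of_le zero_le_one] at h1
          have hc : Continuous fun t : ℝ => ‖fderiv ℝ φ (x + t • h) h‖ ^ 2 :=
            hDc.comp (by fun_prop : Continuous fun t : ℝ => x + t • h)
          have hi : Integrable (fun t : ℝ => ‖fderiv ℝ φ (x + t • h) h‖ ^ 2)
              (volume.restrict (Ioc (0 : ℝ) 1)) :=
            (hc.integrableOn_Icc (a := 0) (b := 1)).mono_set Ioc_subset_Icc_self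
          rw [← ofReal_integral_eq_lintegral_ofReal hi (ae_of_all _ fun t => by positivity)]
          exact ENNReal.ofReal_le_ofReal h1
      _ = ∫⁻ t in Ioc (0 : ℝ) 1, ∫⁻ x, ENNReal.ofReal (‖fderiv ℝ φ (x + t • h) h‖ ^ 2) := by
          apply lintegral_lintegral_swap
          apply Measurable.aemeasurable
          apply Measurable.ennreal_ofReal
          apply Continuous.measurable
          exact hDc.comp (by fun_prop : Continuous fun q : E3 × ℝ => q.1 + q.2 • h)
      _ = ∫⁻ _t in Ioc (0 : ℝ) 1, ∫⁻ x, ENNReal.ofReal (‖fderiv ℝ φ x h‖ ^ 2) := by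
          congr 1
          funext t
          exact lintegral_add_right_eq_self
            (fun x => ENNReal.ofReal (‖fderiv ℝ φ x h‖ ^ 2)) (t • h)
      _ = ∫⁻ x, ENNReal.ofReal (‖fderiv ℝ φ x h‖ ^ 2) := by
          rw [lintegral_const]
          simp
  have key2 : ∫ x, ‖φ (x + h) - φ x‖ ^ 2 ≤ ∫ x, ‖fderiv ℝ φ x h‖ ^ 2 := by
    rw [← ofReal_integral_eq_lintegral_ofReal hLi (ae_of_all _ fun t => by positivity),
      ← ofReal_integral_eq_lintegral_ofReal hDi (ae_of_all _ fun t => by positivity)] at key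
    rwa [ENNReal.ofReal_le_ofReal_iff (integral_nonneg fun x => by positivity)] at key
  refine key2.trans ?_
  unfold gsq
  rw [← integral_const_mul]
  have hGc : ∀ i, Cc (D i φ) := fun i => cc_D hφ i
  have hGi : Integrable fun x => ‖h‖ ^ 2 * ∑ i, ‖D i φ x‖ ^ 2 := by
    apply Integrable.const_mul
    apply integrable_finset_sum
    intro i _
    apply Continuous.integrable_of_hasCompactSupport
    · exact ((hGc i).smooth.continuous.norm).pow 2
    · exact (hGc i).comp.comp_left (g := fun v : E3 => ‖v‖ ^ 2) (by simp)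
  apply integral_mono hDi hGi
  intro x
  show ‖fderiv ℝ φ x h‖ ^ 2 ≤ ‖h‖ ^ 2 * ∑ i, ‖D i φ x‖ ^ 2
  rw [fderiv_eq_sum]
  have h1 : ‖∑ i, h i • D i φ x‖ ≤ ∑ i, |h i| * ‖D i φ x‖ := by
    refine (norm_sum_le _ _).trans (le_of_eq ?_)
    apply Finset.sum_congr rfl
    intro i _
    rw [norm_smul, Real.norm_eq_abs]
  have h2 : (∑ i, |h i| * ‖D i φ x‖) ^ 2 ≤ (∑ i, |h i| ^ 2) * ∑ i, ‖D i φ x‖ ^ 2 :=
    Finset.sum_mul_sq_le_sq_mul_sq _ _ _
  have h3 : ‖h‖ ^ 2 = ∑ i, |h i| ^ 2 := by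
    rw [EuclideanSpace.norm_sq_eq]
    rfl
  rw [h3]
  have h4 := norm_nonneg (∑ i, h i • D i φ x)
  calc ‖∑ i, h i • D i φ x‖ ^ 2 ≤ (∑ i, |h i| * ‖D i φ x‖) ^ 2 := by
        exact pow_le_pow_left₀ h4 h1 2
    _ ≤ _ := h2

theorem G1b_int {f g : E3 → E3} (hf : MemLp f 2 volume) (hg : MemLp g 2 volume) :
    Integrable (fun x => (inner ℝ (f x) (g x) : ℝ)) := by
  refine (L2.integrable_inner (𝕜 := ℝ) (hf.toLp f) (hg.toLp g)).congr ?_
  filter_upwards [hf.coeFn_toLp, hg.coeFn_toLp] with x h1 h2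
  rw [h1, h2]

theorem G1b_cc {Ω : Set E3} {φ : E3 → E3} (h : TestField Ω φ) : Cc φ := ⟨h.smooth, h.compact⟩

theorem G1b_off {Ω : Set E3} {F : Type} [Zero F] {φ : E3 → F} (h : tsupport φ ⊆ Ω) {x : E3}
    (hx : x ∉ Ω) : φ x = 0 := image_eq_zero_of_notMem_tsupport fun hx' => hx (h hx')

/-- the norm of the difference to a test field -/
theorem G1b_ext {Ω : Set E3} (hO : IsOpen Ω) {w U φ : E3 → E3}
    (hU : U =ᵐ[volume.restrict Ω] w) (h0 : ∀ x, x ∉ Ω → U x = 0) (hφ : ∀ x, x ∉ Ω → φ x = 0) :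
    eLpNorm (fun x => U x - φ x) 2 volume =
      eLpNorm (fun x => w x - φ x) 2 (volume.restrict Ω) := by
  have h1 : (fun x => U x - φ x) = Ω.indicator fun x => U x - φ x := by
    funext x
    by_cases hx : x ∈ Ω
    · rw [indicator_of_mem hx]
    · rw [indicator_of_notMem hx, h0 x hx, hφ x hx, sub_zero]
  rw [h1, eLpNorm_indicator_eq_eLpNorm_restrict hO.measurableSet]
  apply eLpNorm_congr_ae
  filter_upwards [hU] with x hx
  rw [hx]

theorem G1b_memLp {Ω : Set E3} (hO : IsOpen Ω) {w U : E3 → E3}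
    (hw : MemLp w 2 (volume.restrict Ω))
    (hU : U =ᵐ[volume.restrict Ω] w) (h0 : ∀ x, x ∉ Ω → U x = 0) : MemLp U 2 volume := by
  have h1 : U = Ω.indicator U := by
    funext x
    by_cases hx : x ∈ Ω
    · rw [indicator_of_mem hx]
    · rw [indicator_of_notMem hx, h0 x hx]
  rw [h1, memLp_indicator_iff_restrict hO.measurableSet]
  exact (memLp_congr_ae hU).2 hw

theorem G1b_memw {Ω : Set E3} {w φ : E3 → E3} {ε : ℝ≥0∞}
    (hm : AEStronglyMeasurable w (volume.restrict Ω)) (hφ : MemLp φ 2 (volume.restrict Ω))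
    (h : eLpNorm (fun x => w x - φ x) 2 (volume.restrict Ω) < ε) :
    MemLp w 2 (volume.restrict Ω) := by
  have h1 : MemLp (fun x => w x - φ x) 2 (volume.restrict Ω) :=
    ⟨hm.sub hφ.1, h.trans_le le_top⟩
  have h2 := h1.add hφ
  have h3 : ((fun x => w x - φ x) + φ) = w := by
    funext x; simp
  rwa [h3] at h2

theorem l2_ext {Ω : Set E3} (hO : IsOpen Ω) {w U : E3 → E3} (h : MemL2s Ω w)
    (hU : U =ᵐ[volume.restrict Ω] w) (h0 : ∀ x, x ∉ Ω → U x = 0) :
    MemLp U 2 volume ∧ sq U = ∫ x in Ω, ‖w x‖ ^ 2 ∧ WDiv U := by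
  obtain ⟨hm, happ⟩ := h
  have hwL : MemLp w 2 (volume.restrict Ω) := by
    obtain ⟨φ, hφ, h1⟩ := happ 1 one_pos
    exact G1b_memw hm ((cc_memLp (G1b_cc hφ) 2).restrict Ω) h1
  have hUL : MemLp U 2 volume := G1b_memLp hO hwL hU h0
  refine ⟨hUL, ?_, ?_⟩
  · unfold sq
    rw [← setIntegral_eq_integral_of_forall_compl_eq_zero (s := Ω)]
    · apply integral_congr_ae
      filter_upwards [hU] with x hx
      rw [hx]
    · intro x hx
      rw [h0 x hx]; simp
  · intro η hη
    have hgr : MemLp (grad η) 2 volume := cc_memLp (cc_grad hη) 2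
    have key : ∀ ε : ℝ, 0 < ε → |ip U (grad η)| ≤ ε * Real.sqrt (sq (grad η)) := by
      intro ε hε
      obtain ⟨φ, hφ, h1⟩ := happ (ENNReal.ofReal ε) (ENNReal.ofReal_pos.2 hε)
      have hφL : MemLp φ 2 volume := cc_memLp (G1b_cc hφ) 2
      have hd : MemLp (fun x => U x - φ x) 2 volume := hUL.sub hφL
      have h2 : ip φ (grad η) = 0 := wdiv_of_divg hφ.smooth hφ.div η hη
      have h3 : ip U (grad η) = ip (fun x => U x - φ x) (grad η) := by
        have h4 : ip (fun x => U x - φ x) (grad η) = ip U (grad η) - ip φ (grad η) := by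
          unfold ip
          rw [← integral_sub]
          · apply integral_congr_ae
            filter_upwards with x
            rw [inner_sub_left]
          · exact G1b_int hUL hgr
          · exact G1b_int hφL hgr
        rw [h4, h2, sub_zero]
      rw [h3]
      refine (ip_le hd hgr).trans ?_
      apply mul_le_mul_of_nonneg_right _ (Real.sqrt_nonneg _)
      have h5 : sq (fun x => U x - φ x) = (eLpNorm (fun x => U x - φ x) 2 volume).toReal ^ 2 :=
        G1b_sq hd
      rw [h5, Real.sqrt_sq ENNReal.toReal_nonneg,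
        G1b_ext hO hU h0 (fun x hx => G1b_off hφ.supp hx)]
      have h6 := ENNReal.toReal_mono ENNReal.ofReal_ne_top h1.le
      rwa [ENNReal.toReal_ofReal hε.le] at h6
    have h7 : |ip U (grad η)| ≤ 0 := by
      have h8 : Tendsto (fun ε : ℝ => ε * Real.sqrt (sq (grad η))) (𝓝[>] 0)
          (𝓝 (0 * Real.sqrt (sq (grad η)))) :=
        ((continuous_id.mul continuous_const).tendsto 0).mono_left nhdsWithin_le_nhds
      rw [zero_mul] at h8
      apply ge_of_tendsto h8
      filter_upwards [self_mem_nhdsWithin] with ε hε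
      exact key ε hε
    exact abs_eq_zero.1 (le_antisymm h7 (abs_nonneg _))

theorem h1_ext {Ω : Set E3} (hO : IsOpen Ω) {w U : E3 → E3} {G : Fin 3 → E3 → E3}
    (h : MemH1s Ω w G) (hU : U =ᵐ[volume.restrict Ω] w) (h0 : ∀ x, x ∉ Ω → U x = 0) :
    MemLp U 2 volume ∧ sq U = ∫ x in Ω, ‖w x‖ ^ 2 ∧ WDiv U ∧
      ∀ h : E3, sq (fun x => U (x + h) - U x) ≤ gradSq Ω G * ‖h‖ ^ 2 := by
  obtain ⟨hm, hmG, happ⟩ := h
  have hL : MemL2s Ω w := by
    refine ⟨hm, fun ε hε => ?_⟩
    obtain ⟨φ, hφ, h1, _⟩ := happ ε hε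
    exact ⟨φ, hφ, h1⟩
  obtain ⟨hUL, hsq, hdiv⟩ := l2_ext hO hL hU h0
  refine ⟨hUL, hsq, hdiv, ?_⟩
  intro h
  have hGL : ∀ i, MemLp (G i) 2 (volume.restrict Ω) := by
    intro i
    obtain ⟨φ, hφ, _, h1⟩ := happ 1 one_pos
    exact G1b_memw (hmG i) ((cc_memLp (cc_D (G1b_cc hφ) i) 2).restrict Ω) (h1 i)
  have hgrad : gradSq Ω G = ∑ i, (eLpNorm (G i) 2 (volume.restrict Ω)).toReal ^ 2 := by
    unfold gradSq
    rw [integral_finset_sum]
    · apply Finset.sum_congr rfl
      intro i _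
      exact G1b_sq (hGL i)
    · intro i _
      exact (hGL i).integrable_norm_pow (by norm_num)
  have hshift : ∀ {f : E3 → E3}, MemLp f 2 volume → MemLp (fun x => f (x + h)) 2 volume := by
    intro f hf
    exact hf.comp_measurePreserving (measurePreserving_add_right volume h)
  have hshn : ∀ {f : E3 → E3}, MemLp f 2 volume →
      eLpNorm (fun x => f (x + h)) 2 volume = eLpNorm f 2 volume := by
    intro f hf
    exact eLpNorm_comp_measurePreserving hf.1 (measurePreserving_add_right volume h)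
  have hUh : MemLp (fun x => U (x + h) - U x) 2 volume := (hshift hUL).sub hUL
  have hX : sq (fun x => U (x + h) - U x) =
      (eLpNorm (fun x => U (x + h) - U x) 2 volume).toReal ^ 2 := G1b_sq hUh
  -- the estimate with ε
  have key : ∀ ε : ℝ, 0 < ε → (eLpNorm (fun x => U (x + h) - U x) 2 volume).toReal ≤
      2 * ε + ‖h‖ * Real.sqrt (∑ i, ((eLpNorm (G i) 2 (volume.restrict Ω)).toReal + ε) ^ 2) := by
    intro ε hε
    obtain ⟨φ, hφ, h1, h2⟩ := happ (ENNReal.ofReal ε) (ENNReal.ofReal_pos.2 hε)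
    simp only [pd_eq] at h2
    have hcc := G1b_cc hφ
    have hφL : MemLp φ 2 volume := cc_memLp hcc 2
    have hd : MemLp (fun x => U x - φ x) 2 volume := hUL.sub hφL
    have hdn : (eLpNorm (fun x => U x - φ x) 2 volume).toReal ≤ ε := by
      rw [G1b_ext hO hU h0 (fun x hx => G1b_off hφ.supp hx)]
      have h6 := ENNReal.toReal_mono ENNReal.ofReal_ne_top h1.le
      rwa [ENNReal.toReal_ofReal hε.le] at h6
    have hφh : MemLp (fun x => φ (x + h) - φ x) 2 volume := (hshift hφL).sub hφL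
    have e1 : (eLpNorm (fun x => U (x + h) - U x) 2 volume).toReal ≤
        (eLpNorm (fun x => φ (x + h) - φ x) 2 volume).toReal + 2 * ε := by
      have h3 : (fun x => U (x + h) - U x) = (fun x => φ (x + h) - φ x) +
          ((fun x => (fun y => U y - φ y) (x + h)) - fun x => U x - φ x) := by
        funext x
        simp only [Pi.add_apply, Pi.sub_apply]
        abel
      have hdh : MemLp (fun x => (fun y => U y - φ y) (x + h)) 2 volume := hshift hd
      have h4 : eLpNorm (fun x => U (x + h) - U x) 2 volume ≤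
          eLpNorm (fun x => φ (x + h) - φ x) 2 volume +
          (eLpNorm (fun x => U x - φ x) 2 volume + eLpNorm (fun x => U x - φ x) 2 volume) := by
        rw [h3]
        refine (eLpNorm_add_le hφh.1 (hdh.1.sub hd.1) (by norm_num)).trans ?_
        refine add_le_add le_rfl ?_
        refine (eLpNorm_sub_le hdh.1 hd.1 (by norm_num)).trans ?_
        rw [hshn hd]
      have h5 := ENNReal.toReal_mono (ENNReal.add_ne_top.2 ⟨hφh.2.ne,
        ENNReal.add_ne_top.2 ⟨hd.2.ne, hd.2.ne⟩⟩) h4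
      rw [ENNReal.toReal_add hφh.2.ne (ENNReal.add_ne_top.2 ⟨hd.2.ne, hd.2.ne⟩),
        ENNReal.toReal_add hd.2.ne hd.2.ne] at h5
      linarith
    have e2 : (eLpNorm (fun x => φ (x + h) - φ x) 2 volume).toReal ≤
        ‖h‖ * Real.sqrt (∑ i, ((eLpNorm (G i) 2 (volume.restrict Ω)).toReal + ε) ^ 2) := by
      have h3 := G1b_tr hcc h
      rw [G1b_sq hφh] at h3
      have h4 : gsq φ ≤ ∑ i, ((eLpNorm (G i) 2 (volume.restrict Ω)).toReal + ε) ^ 2 := by
        unfold gsq
        rw [integral_finset_sum]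
        · apply Finset.sum_le_sum
          intro i _
          have hDc := cc_D hcc i
          have hDL : MemLp (D i φ) 2 volume := cc_memLp hDc 2
          have h5 : ∫ x, ‖D i φ x‖ ^ 2 = (eLpNorm (D i φ) 2 (volume.restrict Ω)).toReal ^ 2 := by
            rw [← G1b_sq (hDL.restrict Ω)]
            rw [setIntegral_eq_integral_of_forall_compl_eq_zero]
            intro x hx
            rw [G1b_off ((D_tsupport φ i).trans hφ.supp) hx]
            simp
          rw [h5]
          apply pow_le_pow_left₀ ENNReal.toReal_nonneg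
          have hdG : MemLp (fun x => G i x - D i φ x) 2 (volume.restrict Ω) :=
            (hGL i).sub (hDL.restrict Ω)
          have h6 : eLpNorm (D i φ) 2 (volume.restrict Ω) ≤
              eLpNorm (G i) 2 (volume.restrict Ω) +
              eLpNorm (fun x => G i x - D i φ x) 2 (volume.restrict Ω) := by
            have h7 : D i φ = G i - fun x => G i x - D i φ x := by
              funext x; simp
            conv_lhs => rw [h7]
            exact eLpNorm_sub_le (hGL i).1 hdG.1 (by norm_num)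
          have h8 := ENNReal.toReal_mono (ENNReal.add_ne_top.2 ⟨(hGL i).2.ne, hdG.2.ne⟩) h6
          rw [ENNReal.toReal_add (hGL i).2.ne hdG.2.ne] at h8
          have h9 := ENNReal.toReal_mono ENNReal.ofReal_ne_top (h2 i).le
          rw [ENNReal.toReal_ofReal hε.le] at h9
          have h10 : (eLpNorm (fun x => G i x - D i φ x) 2 (volume.restrict Ω)).toReal ≤ ε := h9
          linarith
        · intro i _
          exact (cc_memLp (cc_D hcc i) 2).integrable_norm_pow (by norm_num)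
      have h5 : (eLpNorm (fun x => φ (x + h) - φ x) 2 volume).toReal ^ 2 ≤
          ‖h‖ ^ 2 * ∑ i, ((eLpNorm (G i) 2 (volume.restrict Ω)).toReal + ε) ^ 2 :=
        h3.trans (mul_le_mul_of_nonneg_left h4 (by positivity))
      have h6 := Real.sqrt_le_sqrt h5
      rwa [Real.sqrt_sq ENNReal.toReal_nonneg, Real.sqrt_mul (by positivity),
        Real.sqrt_sq (norm_nonneg _)] at h6
    linarith
  have hlim : (eLpNorm (fun x => U (x + h) - U x) 2 volume).toReal ≤
      ‖h‖ * Real.sqrt (gradSq Ω G) := by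
    have h8 : Tendsto (fun ε : ℝ => 2 * ε + ‖h‖ *
        Real.sqrt (∑ i, ((eLpNorm (G i) 2 (volume.restrict Ω)).toReal + ε) ^ 2)) (𝓝[>] 0)
        (𝓝 (2 * 0 + ‖h‖ *
        Real.sqrt (∑ i, ((eLpNorm (G i) 2 (volume.restrict Ω)).toReal + 0) ^ 2))) := by
      apply Tendsto.mono_left _ nhdsWithin_le_nhds
      apply Continuous.tendsto
      fun_prop
    simp only [mul_zero, zero_add, add_zero] at h8
    rw [← hgrad] at h8
    apply ge_of_tendsto h8
    filter_upwards [self_mem_nhdsWithin] with ε hε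
    exact key ε hε
  rw [hX]
  have h9 := pow_le_pow_left₀ ENNReal.toReal_nonneg hlim 2
  have h10 : 0 ≤ gradSq Ω G := by
    rw [hgrad]; exact Finset.sum_nonneg fun i _ => sq_nonneg _
  rw [mul_pow, Real.sq_sqrt h10] at h9
  linarith

end Pool.Agent.Helper60.EC
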