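import Pool.Agent.Helper60.EC.G1a
import Pool.Agent.Helper60.EC.G1b

/-! Project EC, G2a: supremum bounds and continuity in time at generic times -/

set_option autoImplicit false

open MeasureTheory Set Filter Topology
open scoped ENNReal ContDiff

noncomputable section

namespace Pool.Agent.Helper60.EC

open Pool.Agent.Helper52.NSE (E3 pd divg TestField IsSmoothBoundedDomain MemH1s MemL2s
  IsWeakSolution gradSq)

/-- the supremum of a field with the critical gradient bound -/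
theorem sup_generic (C K : ℝ) : ∃ A : ℝ, 0 < A ∧ ∀ (U : E3 → E3) (t₀ s : ℝ), s < t₀ →
    (∀ x y, ‖U x - U y‖ ≤ C / (t₀ - s) * ‖x - y‖) → MemLp U 2 volume → sq U ≤ K →
      ∀ x, ‖U x‖ ≤ A * (t₀ - s) ^ (-(3 / 5) : ℝ) := by
  obtain ⟨c, hc, hsup⟩ := sup_le_energy
  set B : ℝ := (|C| + 1) ^ 3 * |K| / c + 1 with hB
  have hB0 : 0 < B := by positivity
  refine ⟨B ^ (1 / 5 : ℝ), by positivity, ?_⟩
  intro U t₀ s hs hlip0 hm hE x
  have hs' : 0 < t₀ - s := by linarith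
  set L : ℝ := (|C| + 1) / (t₀ - s) with hLdef
  have hL : 0 < L := by positivity
  have hlip : ∀ x y, ‖U x - U y‖ ≤ L * ‖x - y‖ := fun x y =>
    (hlip0 x y).trans (mul_le_mul_of_nonneg_right (by
      rw [hLdef]
      exact div_le_div_of_nonneg_right (by linarith [le_abs_self C]) hs'.le) (norm_nonneg _))
  have h1 := hsup U L hL hlip hm x
  have h2 : sqOn (Metric.ball x (‖U x‖ / (2 * L))) U ≤ |K| :=
    (sqOn_le_sq _ hm).trans (hE.trans (le_abs_self _))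
  have h3 : c * ‖U x‖ ^ 5 ≤ L ^ 3 * |K| :=
    h1.trans (mul_le_mul_of_nonneg_left h2 (by positivity))
  have h4 : ‖U x‖ ^ 5 ≤ B * ((t₀ - s) ^ 3)⁻¹ := by
    have h5 : ‖U x‖ ^ 5 ≤ L ^ 3 * |K| / c := by
      rw [le_div_iff₀ hc]; linarith
    refine h5.trans ?_
    have h6 : L ^ 3 * |K| / c = ((|C| + 1) ^ 3 * |K| / c) * ((t₀ - s) ^ 3)⁻¹ := by
      rw [hLdef]; field_simp
    rw [h6]
    exact mul_le_mul_of_nonneg_right (by rw [hB]; linarith) (by positivity)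
  have h7 : (B ^ (1 / 5 : ℝ) * (t₀ - s) ^ (-(3 / 5) : ℝ)) ^ 5 = B * ((t₀ - s) ^ 3)⁻¹ := by
    rw [mul_pow]
    congr 1
    · rw [← Real.rpow_natCast (B ^ (1 / 5 : ℝ)) 5, ← Real.rpow_mul hB0.le]
      norm_num
    · rw [← Real.rpow_natCast ((t₀ - s) ^ (-(3 / 5) : ℝ)) 5, ← Real.rpow_mul hs'.le]
      have : (-(3 / 5) : ℝ) * ((5 : ℕ) : ℝ) = -((3 : ℕ) : ℝ) := by norm_num
      rw [this, Real.rpow_neg hs'.le, Real.rpow_natCast]
  rw [← h7] at h4
  exact le_of_pow_le_pow_left₀ (by norm_num) (by positivity) h4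

/-- the trilinear form with a bounded field -/
theorem G2a_Bf_le {Ω : Set E3} {v : E3 → E3} {A : Fin 3 → E3 → E3} {S : ℝ} (hS : 0 ≤ S)
    (hv : MemLp v 2 (volume.restrict Ω)) (hA : ∀ i, MemLp (A i) 2 (volume.restrict Ω))
    (hb : ∀ᵐ x ∂(volume.restrict Ω), ‖v x‖ ≤ S) :
    |Pool.Agent.Helper7.NT.Bf Ω v A v| ≤
      S * Pool.Agent.Helper52.NSE.nm Ω v * Real.sqrt (Pool.Agent.Helper52.NSE.gsq Ω A) := by
  set W : E3 → E3 := fun x => ∑ i, (v x) i • A i x with hW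
  have hpt : ∀ x, ‖W x‖ ^ 2 ≤ ‖v x‖ ^ 2 * ∑ i, ‖A i x‖ ^ 2 := by
    intro x
    have h1 : ‖W x‖ ≤ ∑ i, ‖(v x) i‖ * ‖A i x‖ := by
      refine (norm_sum_le _ _).trans (le_of_eq ?_)
      exact Finset.sum_congr rfl fun i _ => norm_smul _ _
    have h2 := Real.sum_mul_le_sqrt_mul_sqrt Finset.univ (fun i => ‖(v x) i‖) (fun i => ‖A i x‖)
    have h3 : Real.sqrt (∑ i, ‖(v x) i‖ ^ 2) = ‖v x‖ := (EuclideanSpace.norm_eq (v x)).symm
    rw [h3] at h2
    have h4 := h1.trans h2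
    have h5 := pow_le_pow_left₀ (norm_nonneg _) h4 2
    rwa [mul_pow, Real.sq_sqrt (Finset.sum_nonneg fun i _ => by positivity)] at h5
  have hWm : AEStronglyMeasurable W (volume.restrict Ω) := by
    have : ∀ i ∈ (Finset.univ : Finset (Fin 3)),
        AEStronglyMeasurable (fun x => (v x) i • A i x) (volume.restrict Ω) := by
      intro i _
      have h1 : AEStronglyMeasurable (fun x => (v x) i) (volume.restrict Ω) :=
        (EuclideanSpace.proj (𝕜 := ℝ) i).continuous.comp_aestronglyMeasurable hv.1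
      exact h1.smul (hA i).1
    exact Finset.aestronglyMeasurable_fun_sum _ this
  have hAint : Integrable (fun x => ∑ i, ‖A i x‖ ^ 2) (volume.restrict Ω) :=
    integrable_finsetSum _ fun i _ => Pool.Agent.Helper52.NSE.sq_int (hA i)
  have hae : ∀ᵐ x ∂(volume.restrict Ω), ‖W x‖ ^ 2 ≤ S ^ 2 * ∑ i, ‖A i x‖ ^ 2 := by
    filter_upwards [hb] with x hx
    refine (hpt x).trans (mul_le_mul_of_nonneg_right ?_ (Finset.sum_nonneg fun i _ => by positivity))
    exact pow_le_pow_left₀ (norm_nonneg _) hx 2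
  have hWi : Integrable (fun x => ‖W x‖ ^ 2) (volume.restrict Ω) := by
    refine Integrable.mono' (hAint.const_mul (S ^ 2)) (hWm.norm.pow 2) ?_
    filter_upwards [hae] with x hx
    rw [Real.norm_eq_abs, abs_of_nonneg (by positivity)]
    exact hx
  have hW2 : MemLp W 2 (volume.restrict Ω) := (memLp_two_iff_integrable_sq_norm hWm).2 hWi
  have hnm : Pool.Agent.Helper52.NSE.nm Ω W ≤
      S * Real.sqrt (Pool.Agent.Helper52.NSE.gsq Ω A) := by
    unfold Pool.Agent.Helper52.NSE.nm Pool.Agent.Helper52.NSE.gsq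
    rw [← Real.sqrt_sq hS, ← Real.sqrt_mul (by positivity)]
    apply Real.sqrt_le_sqrt
    rw [← integral_const_mul]
    exact integral_mono_ae hWi (hAint.const_mul _) hae
  have hB : Pool.Agent.Helper7.NT.Bf Ω v A v = ∫ x in Ω, inner ℝ (v x) (W x) := by
    unfold Pool.Agent.Helper7.NT.Bf
    refine integral_congr_ae (Eventually.of_forall fun x => ?_)
    simp only [hW]
    rw [inner_sum]
    refine Finset.sum_congr rfl fun i _ => ?_
    rw [inner_smul_right]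
  rw [hB]
  refine (Pool.Agent.Helper52.NSE.cs hv hW2).trans ?_
  have := mul_le_mul_of_nonneg_left hnm (Pool.Agent.Helper52.NSE.nm_nonneg Ω v)
  linarith

/-- the equations, tested with `u(t) - u(s)` -/
theorem time_generic {Ω : Set E3} {ν T : ℝ} {u₀ : E3 → E3} {f u : ℝ → E3 → E3}
    {G : ℝ → Fin 3 → E3 → E3} (hΩ : IsSmoothBoundedDomain Ω) (hν : 0 < ν)
    (h : IsWeakSolution Ω ν T u₀ f u G) {t₀ : ℝ} (ht₀ : t₀ ∈ Ioc 0 T) (C : ℝ) :
    ∃ C' : ℝ, 0 < C' ∧ ∀ p q : ℝ, 0 ≤ p → p < q → q < t₀ →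
      (∀ᵐ s ∂(volume.restrict (Ioo p q)), RateAt Ω G t₀ C s) →
      ∀ s ∈ Ioo p q, ∀ t ∈ Ioo p q, s < t → MemH1s Ω (u s) (G s) → MemH1s Ω (u t) (G t) →
        RateAt Ω G t₀ C s → RateAt Ω G t₀ C t →
          (∫ x in Ω, ‖u t x - u s x‖ ^ 2) ≤
            C' * (t - s) / (t₀ - t) + C' * ∫ τ in s..t, fn Ω f τ := by
  obtain ⟨K₀, hK₀⟩ := h.bound
  set K : ℝ := |K₀| with hK
  have hKb : ∀ t ∈ Icc 0 T, ∫ x in Ω, ‖u t x‖ ^ 2 ≤ K := fun t ht =>
    (hK₀ t ht).trans (le_abs_self _)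
  have hK0 : 0 ≤ K := abs_nonneg _
  obtain ⟨A₀, hA₀, hsup⟩ := sup_generic (3 * C) K
  have hO : IsOpen Ω := hΩ.isOpen
  have hT : 0 < T := ht₀.1.trans_le ht₀.2
  set Cb : ℝ := |C| with hCb
  have hCb0 : 0 ≤ Cb := abs_nonneg _
  set C1 : ℝ := 2 * ν * Cb * T ^ (1 / 5 : ℝ) + 2 * A₀ * Real.sqrt K * Real.sqrt Cb with hC1
  have hC10 : 0 ≤ C1 := by positivity
  set C2 : ℝ := 2 * Real.sqrt K with hC2
  have hC20 : 0 ≤ C2 := by positivity
  refine ⟨C1 + C2 + 1, by positivity, ?_⟩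
  intro p q hp hpq hq hrate s hs t ht hst hms hmt hrs hrt
  have hs0 : 0 ≤ s := hp.trans hs.1.le
  have htt : t < t₀ := ht.2.trans hq
  have htT : t ≤ T := htt.le.trans ht₀.2
  set R : ℝ := t₀ - t with hR
  have hR0 : 0 < R := by rw [hR]; linarith
  have hRT : R ≤ T := by rw [hR]; linarith [ht₀.2, hs0, hst.le]
  set a : E3 → E3 := fun x => u t x - u s x with ha
  set A : Fin 3 → E3 → E3 := fun i x => G t i x - G s i x with hA
  have haA : MemH1s Ω a A := Pool.Agent.Helper7.NT.memH1s_sub hmt hms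
  have ha2 := haA.toL2.memLp
  have hA2 := haA.grad_memLp
  have hut := (h.mem t ⟨hs0.trans hst.le, htT⟩).memLp
  have hus := (h.mem s ⟨hs0, hst.le.trans htT⟩).memLp
  have hweak := Pool.Agent.Helper7.NT.weak_ext hO hΩ.bdd h haA hs0 hst.le htT
  have hlhs : (∫ x in Ω, inner ℝ (u t x) (a x)) - (∫ x in Ω, inner ℝ (u s x) (a x)) =
      ∫ x in Ω, ‖u t x - u s x‖ ^ 2 := by
    rw [← integral_sub (Pool.Agent.Helper52.NSE.inner_int hut ha2)
      (Pool.Agent.Helper52.NSE.inner_int hus ha2)]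
    refine integral_congr_ae (Eventually.of_forall fun x => ?_)
    simp only [ha]
    rw [← inner_sub_left, real_inner_self_eq_norm_sq]
  rw [hlhs] at hweak
  -- size of the gradients
  set X : ℝ := R ^ (-(2 / 5) : ℝ) with hX
  have hX0 : 0 < X := Real.rpow_pos_of_pos hR0 _
  have hX2 : X ^ 2 = R ^ (-(4 / 5) : ℝ) := by
    rw [hX, ← Real.rpow_natCast, ← Real.rpow_mul hR0.le]
    norm_num
  have hg : ∀ τ, τ ≤ t → RateAt Ω G t₀ C τ →
      Pool.Agent.Helper52.NSE.gsq Ω (G τ) ≤ Cb * X ^ 2 := by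
    intro τ hτ hr
    have h1 : gradSq Ω (G τ) ≤ C * (t₀ - τ) ^ (-(4 / 5) : ℝ) := hr.2
    have h2 : R ≤ t₀ - τ := by rw [hR]; linarith
    have h3 : (t₀ - τ) ^ (-(4 / 5) : ℝ) ≤ R ^ (-(4 / 5) : ℝ) :=
      Real.rpow_le_rpow_of_nonpos hR0 h2 (by norm_num)
    have h4 : 0 ≤ (t₀ - τ) ^ (-(4 / 5) : ℝ) := Real.rpow_nonneg (by linarith) _
    rw [hX2]
    calc Pool.Agent.Helper52.NSE.gsq Ω (G τ) = gradSq Ω (G τ) := rfl
      _ ≤ C * (t₀ - τ) ^ (-(4 / 5) : ℝ) := h1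
      _ ≤ Cb * (t₀ - τ) ^ (-(4 / 5) : ℝ) := mul_le_mul_of_nonneg_right (le_abs_self _) h4
      _ ≤ _ := mul_le_mul_of_nonneg_left h3 hCb0
  have hgA : Real.sqrt (Pool.Agent.Helper52.NSE.gsq Ω A) ≤ 2 * Real.sqrt Cb * X := by
    have h1 := Pool.Agent.Helper7.NT.gsq_sub_le hmt.grad_memLp hms.grad_memLp
    have h2 := hg t le_rfl hrt
    have h3 := hg s hst.le hrs
    rw [show 2 * Real.sqrt Cb * X = Real.sqrt ((2 * Real.sqrt Cb * X) ^ 2) from
      (Real.sqrt_sq (by positivity)).symm]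
    apply Real.sqrt_le_sqrt
    rw [mul_pow, mul_pow, Real.sq_sqrt hCb0]
    refine h1.trans ?_
    linarith
  have hna : Pool.Agent.Helper52.NSE.nm Ω a ≤ C2 := by
    rw [hC2]
    unfold Pool.Agent.Helper52.NSE.nm
    rw [show 2 * Real.sqrt K = Real.sqrt ((2 * Real.sqrt K) ^ 2) from
      (Real.sqrt_sq (by positivity)).symm]
    apply Real.sqrt_le_sqrt
    rw [mul_pow, Real.sq_sqrt hK0]
    have i1 := Pool.Agent.Helper52.NSE.sq_int hut
    have i2 := Pool.Agent.Helper52.NSE.sq_int hus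
    have h1 : ∫ x in Ω, ‖a x‖ ^ 2 ≤ ∫ x in Ω, (2 * ‖u t x‖ ^ 2 + 2 * ‖u s x‖ ^ 2) := by
      refine integral_mono (Pool.Agent.Helper52.NSE.sq_int ha2)
        ((i1.const_mul 2).add (i2.const_mul 2)) fun x => ?_
      simp only [ha]
      have h1 := norm_sub_le (u t x) (u s x)
      have h2 := norm_nonneg (u t x - u s x)
      nlinarith [sq_nonneg (‖u t x‖ - ‖u s x‖), norm_nonneg (u t x), norm_nonneg (u s x)]
    rw [integral_add (i1.const_mul 2) (i2.const_mul 2), integral_const_mul,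
      integral_const_mul] at h1
    have h2 := hKb t ⟨hs0.trans hst.le, htT⟩
    have h3 := hKb s ⟨hs0, hst.le.trans htT⟩
    linarith
  -- the bound of the right-hand side
  have hX2R : X ^ 2 ≤ T ^ (1 / 5 : ℝ) / R := by
    rw [hX2, le_div_iff₀ hR0]
    have h1 : R ^ (-(4 / 5) : ℝ) * R = R ^ (1 / 5 : ℝ) := by
      nth_rewrite 2 [← Real.rpow_one R]
      rw [← Real.rpow_add hR0]
      norm_num
    rw [h1]
    exact Real.rpow_le_rpow hR0.le hRT (by norm_num)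
  have hXR : R ^ (-(3 / 5) : ℝ) * X = 1 / R := by
    rw [hX, ← Real.rpow_add hR0, show (-(3 / 5) + -(2 / 5) : ℝ) = -1 by norm_num,
      Real.rpow_neg_one, one_div]
  have hbd : ∀ᵐ τ ∂volume, τ ∈ Ioc s t →
      ‖Pool.Agent.Helper7.NT.rhsE Ω ν (f τ) (u τ) (G τ) a A‖ ≤ C1 / R + C2 * fn Ω f τ := by
    have g1 := (ae_restrict_iff' measurableSet_Icc).1 h.grad_mem
    have g2 := (ae_restrict_iff' measurableSet_Icc).1 h.force_mem
    have g3 := (ae_restrict_iff' measurableSet_Ioo).1 hrate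
    filter_upwards [g1, g2, g3] with τ h1 h2 h3 hτ
    have hτT : τ ∈ Icc 0 T := ⟨hs0.trans hτ.1.le, hτ.2.trans htT⟩
    have hm := h1 hτT
    have hf := (h2 hτT).memLp
    have hr := h3 ⟨hs.1.trans hτ.1, hτ.2.trans_lt ht.2⟩
    have hu2 := (h.mem τ hτT).memLp
    have hτ0 : τ < t₀ := hτ.2.trans_lt htt
    have hRτ : R ≤ t₀ - τ := by rw [hR]; linarith [hτ.2]
    -- supremum
    obtain ⟨U, hU1, hU2, hU3⟩ := lip_rep hΩ hm hr.1
    obtain ⟨hU4, hU5, _, _⟩ := h1_ext hO hm hU1 hU2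
    have hUs : ∀ x, ‖U x‖ ≤ A₀ * (t₀ - τ) ^ (-(3 / 5) : ℝ) := by
      refine hsup U t₀ τ hτ0 (fun x y => ?_) hU4 (by rw [hU5]; exact hKb τ hτT)
      refine (hU3 x y).trans (le_of_eq ?_)
      ring
    have hRr : (t₀ - τ) ^ (-(3 / 5) : ℝ) ≤ R ^ (-(3 / 5) : ℝ) :=
      Real.rpow_le_rpow_of_nonpos hR0 hRτ (by norm_num)
    have hub : ∀ᵐ x ∂(volume.restrict Ω), ‖u τ x‖ ≤ A₀ * R ^ (-(3 / 5) : ℝ) := by
      filter_upwards [hU1] with x hx
      rw [← hx]
      exact (hUs x).trans (mul_le_mul_of_nonneg_left hRr hA₀.le)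
    have hnu : Pool.Agent.Helper52.NSE.nm Ω (u τ) ≤ Real.sqrt K :=
      Real.sqrt_le_sqrt (hKb τ hτT)
    have b1 : |Pool.Agent.Helper7.NT.Bf Ω (u τ) A (u τ)| ≤
        2 * A₀ * Real.sqrt K * Real.sqrt Cb / R := by
      have hR35 : 0 ≤ R ^ (-(3 / 5) : ℝ) := Real.rpow_nonneg hR0.le _
      refine (G2a_Bf_le (by positivity) hu2 hA2 hub).trans ?_
      have h4 : A₀ * R ^ (-(3 / 5) : ℝ) * Pool.Agent.Helper52.NSE.nm Ω (u τ) *
          Real.sqrt (Pool.Agent.Helper52.NSE.gsq Ω A) ≤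
          A₀ * R ^ (-(3 / 5) : ℝ) * Real.sqrt K * (2 * Real.sqrt Cb * X) :=
        mul_le_mul (mul_le_mul_of_nonneg_left hnu (by positivity)) hgA (Real.sqrt_nonneg _)
          (by positivity)
      refine h4.trans (le_of_eq ?_)
      calc A₀ * R ^ (-(3 / 5) : ℝ) * Real.sqrt K * (2 * Real.sqrt Cb * X) =
          2 * A₀ * Real.sqrt K * Real.sqrt Cb * (R ^ (-(3 / 5) : ℝ) * X) := by ring
        _ = _ := by rw [hXR]; ring
    have b2 : |(-ν) * Pool.Agent.Helper7.NT.gp Ω (G τ) A| ≤ 2 * ν * Cb * T ^ (1 / 5 : ℝ) / R := by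
      rw [abs_mul, abs_neg, abs_of_pos hν]
      have h4 := Pool.Agent.Helper7.NT.gp_le hm.grad_memLp hA2
      have h5 : Real.sqrt (Pool.Agent.Helper52.NSE.gsq Ω (G τ)) ≤ Real.sqrt Cb * X := by
        rw [show Real.sqrt Cb * X = Real.sqrt ((Real.sqrt Cb * X) ^ 2) from
          (Real.sqrt_sq (by positivity)).symm]
        apply Real.sqrt_le_sqrt
        rw [mul_pow, Real.sq_sqrt hCb0]
        exact hg τ hτ.2 hr
      have h6 : |Pool.Agent.Helper7.NT.gp Ω (G τ) A| ≤ (Real.sqrt Cb * X) * (2 * Real.sqrt Cb * X) :=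
        h4.trans (mul_le_mul h5 hgA (Real.sqrt_nonneg _) (by positivity))
      have h7 : (Real.sqrt Cb * X) * (2 * Real.sqrt Cb * X) = 2 * Cb * X ^ 2 := by
        have := Real.mul_self_sqrt hCb0
        calc (Real.sqrt Cb * X) * (2 * Real.sqrt Cb * X) =
            2 * (Real.sqrt Cb * Real.sqrt Cb) * X ^ 2 := by ring
          _ = _ := by rw [this]
      rw [h7] at h6
      have h8 : ν * |Pool.Agent.Helper7.NT.gp Ω (G τ) A| ≤ ν * (2 * Cb * (T ^ (1 / 5 : ℝ) / R)) :=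
        mul_le_mul_of_nonneg_left (h6.trans (mul_le_mul_of_nonneg_left hX2R (by positivity))) hν.le
      refine h8.trans (le_of_eq ?_)
      ring
    have b3 : |∫ x in Ω, inner ℝ (f τ x) (a x)| ≤ C2 * fn Ω f τ := by
      refine (Pool.Agent.Helper52.NSE.cs hf ha2).trans ?_
      have h4 := mul_le_mul_of_nonneg_left hna (Pool.Agent.Helper52.NSE.nm_nonneg Ω (f τ))
      refine h4.trans (le_of_eq ?_)
      rw [mul_comm]
      rfl
    unfold Pool.Agent.Helper7.NT.rhsE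
    rw [Real.norm_eq_abs]
    refine (abs_add_le _ _).trans ((add_le_add ((abs_add_le _ _).trans (add_le_add b2 b1))
      b3).trans (le_of_eq ?_))
    rw [hC1]
    ring
  have ifn : IntervalIntegrable (fun τ => fn Ω f τ) volume s t :=
    Pool.Agent.Helper52.NSE.ii_of h.nmf_int hs0 hst.le htT
  have hfin := intervalIntegral.norm_integral_le_of_norm_le hst.le hbd
    ((intervalIntegrable_const (c := C1 / R)).add (ifn.const_mul C2))
  rw [← hweak, intervalIntegral.integral_add intervalIntegrable_const (ifn.const_mul C2),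
    intervalIntegral.integral_const, intervalIntegral.integral_const_mul, smul_eq_mul] at hfin
  have hfn0 : 0 ≤ ∫ τ in s..t, fn Ω f τ :=
    intervalIntegral.integral_nonneg hst.le fun τ _ => Real.sqrt_nonneg _
  refine (le_abs_self _).trans ((Real.norm_eq_abs _ ▸ hfin).trans ?_)
  have e1 : (t - s) * (C1 / R) ≤ (C1 + C2 + 1) * (t - s) / R := by
    rw [mul_div_assoc', mul_comm (t - s) C1]
    apply div_le_div_of_nonneg_right _ hR0.le
    apply mul_le_mul_of_nonneg_right _ (by linarith)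
    linarith
  have e2 : C2 * ∫ τ in s..t, fn Ω f τ ≤ (C1 + C2 + 1) * ∫ τ in s..t, fn Ω f τ :=
    mul_le_mul_of_nonneg_right (by linarith) hfn0
  linarith

end Pool.Agent.Helper60.EC
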