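import Pool.Agent.Helper60.EC.G2a

/-! Project EC, G2b: Lipschitz representatives at all times of a window -/

set_option autoImplicit false

open MeasureTheory Set Filter Topology
open scoped ENNReal ContDiff

noncomputable section

namespace Pool.Agent.Helper60.EC

open Pool.Agent.Helper52.NSE (E3 pd divg TestField IsSmoothBoundedDomain MemH1s MemL2s
  IsWeakSolution gradSq)

/-- convergence of the energies under pointwise bounded convergence -/
theorem G2b_lim {w : ℕ → E3 → E3} {w₀ : E3 → E3} {R M : ℝ} (hc : ∀ k, Continuous (w k))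
    (hb : ∀ k x, ‖w k x‖ ≤ M) (hs : ∀ k x, R ≤ ‖x‖ → w k x = 0)
    (hl : ∀ x, Tendsto (fun k => w k x) atTop (𝓝 (w₀ x))) :
    Tendsto (fun k => sq (w k)) atTop (𝓝 (sq w₀)) := by
  unfold sq
  apply tendsto_integral_of_dominated_convergence
    ((Metric.ball (0 : E3) R).indicator (fun _ => M ^ 2))
  · intro k
    exact ((hc k).norm.pow 2).aestronglyMeasurable
  · rw [integrable_indicator_iff Metric.isOpen_ball.measurableSet]
    exact integrableOn_const (measure_ball_lt_top.ne)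
  · intro k
    refine Eventually.of_forall fun x => ?_
    by_cases hx : R ≤ ‖x‖
    · rw [hs k x hx, norm_zero]
      simp only [ne_eq, OfNat.ofNat_ne_zero, not_false_eq_true, zero_pow, norm_zero]
      exact indicator_nonneg (fun _ _ => sq_nonneg M) x
    · rw [indicator_of_mem (by simpa using hx), Real.norm_eq_abs, abs_of_nonneg (by positivity)]
      exact pow_le_pow_left₀ (norm_nonneg _) (hb k x) 2
  · exact Eventually.of_forall fun x => (hl x).norm.pow 2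

/-- convergence of the pairings under pointwise bounded convergence -/
theorem G2b_inner {Ω : Set E3} {w : ℕ → E3 → E3} {w₀ φ : E3 → E3} {M : ℝ}
    (hφ : Integrable φ (volume.restrict Ω)) (hc : ∀ k, Continuous (w k))
    (hb : ∀ k x, ‖w k x‖ ≤ M) (hl : ∀ x, Tendsto (fun k => w k x) atTop (𝓝 (w₀ x))) :
    Tendsto (fun k => ∫ x in Ω, (inner ℝ (w k x) (φ x) : ℝ)) atTop
      (𝓝 (∫ x in Ω, (inner ℝ (w₀ x) (φ x) : ℝ))) := by
  apply tendsto_integral_of_dominated_convergence (fun x => M * ‖φ x‖)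
  · intro k
    exact (hc k).aestronglyMeasurable.inner hφ.1
  · exact hφ.norm.const_mul M
  · intro k
    refine Eventually.of_forall fun x => ?_
    exact (norm_inner_le_norm _ _).trans
      (mul_le_mul_of_nonneg_right (hb k x) (norm_nonneg _))
  · exact Eventually.of_forall fun x => (hl x).inner tendsto_const_nhds

/-- representatives at generic times -/
structure G2b_Gen (Ω : Set E3) (t₀ C : ℝ) (u : ℝ → E3 → E3) (σ : ℝ) (V : E3 → E3) : Prop where
  rep : V =ᵐ[volume.restrict Ω] u σ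
  off : ∀ x, x ∉ Ω → V x = 0
  lip : ∀ x y, ‖V x - V y‖ ≤ 3 * (C / (t₀ - σ)) * ‖x - y‖
  l2 : MemLp V 2 volume
  grad : ∀ h : E3, sq (fun x => V (x + h) - V x) ≤ C * (t₀ - σ) ^ (-(4 / 5) : ℝ) * ‖h‖ ^ 2

theorem G2b_gen {Ω : Set E3} (hΩ : IsSmoothBoundedDomain Ω) {t₀ C σ : ℝ} {u : ℝ → E3 → E3}
    {G : ℝ → Fin 3 → E3 → E3} (hm : MemH1s Ω (u σ) (G σ)) (hr : RateAt Ω G t₀ C σ) :
    ∃ V, G2b_Gen Ω t₀ C u σ V := by
  obtain ⟨V, h1, h2, h3⟩ := lip_rep hΩ hm hr.1
  obtain ⟨h4, _, _, h5⟩ := h1_ext hΩ.isOpen hm h1 h2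
  exact ⟨V, h1, h2, h3, h4, fun h => (h5 h).trans
    (mul_le_mul_of_nonneg_right hr.2 (by positivity))⟩

theorem G2b_Gen.cont {Ω : Set E3} {t₀ C : ℝ} {u : ℝ → E3 → E3} {σ : ℝ} {V : E3 → E3}
    (h : G2b_Gen Ω t₀ C u σ V) : Continuous V := by
  have : LipschitzWith (3 * (C / (t₀ - σ))).toNNReal V := by
    apply LipschitzWith.of_dist_le'
    intro x y
    rw [dist_eq_norm, dist_eq_norm]
    exact h.lip x y
  exact this.continuous

theorem G2b_diff {Ω : Set E3} {t₀ C : ℝ} {u : ℝ → E3 → E3} {σ τ : ℝ} {V W : E3 → E3}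
    (hV : G2b_Gen Ω t₀ C u σ V) (hW : G2b_Gen Ω t₀ C u τ W) :
    sq (fun x => W x - V x) = ∫ x in Ω, ‖u τ x - u σ x‖ ^ 2 := by
  unfold sq
  have h1 : ∫ x, ‖W x - V x‖ ^ 2 = ∫ x in Ω, ‖W x - V x‖ ^ 2 := by
    symm
    apply setIntegral_eq_integral_of_forall_compl_eq_zero
    intro x hx
    rw [hV.off x hx, hW.off x hx]
    simp
  rw [h1]
  apply integral_congr_ae
  filter_upwards [hV.rep, hW.rep] with x a b
  rw [a, b]

theorem exists_rep {Ω : Set E3} {ν T : ℝ} {u₀ : E3 → E3} {f u : ℝ → E3 → E3}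
    {G : ℝ → Fin 3 → E3 → E3} (hΩ : IsSmoothBoundedDomain Ω) (hν : 0 < ν)
    (h : IsWeakSolution Ω ν T u₀ f u G) {t₀ : ℝ} (ht₀ : t₀ ∈ Ioc 0 T) (C : ℝ) :
    ∃ C' : ℝ, 0 < C' ∧ ∀ p q : ℝ, 0 ≤ p → p < q → q < t₀ →
      (∀ᵐ s ∂(volume.restrict (Ioo p q)), RateAt Ω G t₀ C s) → ∃ U : ℝ → E3 → E3,
        (∀ s ∈ Ioo p q, U s =ᵐ[volume.restrict Ω] u s) ∧
        (∀ s ∈ Ioo p q, ∀ x, x ∉ Ω → U s x = 0) ∧
        (∀ s ∈ Ioo p q, ∀ x y, ‖U s x - U s y‖ ≤ C' / (t₀ - s) * ‖x - y‖) ∧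
        (∀ s ∈ Ioo p q, ∀ h : E3,
          sq (fun x => U s (x + h) - U s x) ≤ C' * (t₀ - s) ^ (-(4 / 5) : ℝ) * ‖h‖ ^ 2) ∧
        (∀ s t, p < s → s < t → t < q →
          sq (fun x => U t x - U s x) ≤ C' * (t - s) / (t₀ - t) + C' * ∫ τ in s..t, fn Ω f τ) := by
  obtain ⟨C₁, hC₁, htime⟩ := time_generic hΩ hν h ht₀ C
  obtain ⟨c, hc, hsup⟩ := sup_le_energy
  obtain ⟨R, hR⟩ := hΩ.bdd.subset_ball (0 : E3)
  have hCC : C ≤ |C| := le_abs_self C
  have hC0 : 0 ≤ |C| := abs_nonneg C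
  refine ⟨C₁ + 3 * |C| + 1, by positivity, ?_⟩
  intro p q hp hpq hq hrate
  have hTq : q < T := lt_of_lt_of_le hq ht₀.2
  have hsub : Ioo p q ⊆ Icc 0 T := fun s hs => ⟨hp.trans hs.1.le, (hs.2.trans hTq).le⟩
  set 𝒢 : Set ℝ := {σ | MemH1s Ω (u σ) (G σ) ∧ RateAt Ω G t₀ C σ} with h𝒢def
  have h𝒢 : ∀ᵐ s : ℝ, s ∈ Ioo p q → s ∈ 𝒢 := by
    have h1 : ∀ᵐ t ∂(volume.restrict (Ioo p q)), MemH1s Ω (u t) (G t) :=
      ae_restrict_of_ae_restrict_of_subset hsub h.grad_mem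
    have h2 := h1.and hrate
    rw [ae_restrict_iff' measurableSet_Ioo] at h2
    exact h2
  have hdense : ∀ s ∈ Ioo p q, ∃ σ : ℕ → ℝ, (∀ k, σ k ∈ Ioo p q ∧ σ k ∈ 𝒢) ∧
      Tendsto σ atTop (𝓝 s) := by
    intro s hs
    have hd : Dense {s : ℝ | s ∈ Ioo p q → s ∈ 𝒢} := Measure.dense_of_ae h𝒢
    have h3 := hd.open_subset_closure_inter isOpen_Ioo hs
    rw [mem_closure_iff_seq_limit] at h3
    obtain ⟨σ, h1, h2⟩ := h3
    exact ⟨σ, fun k => ⟨(h1 k).1, (h1 k).2 (h1 k).1⟩, h2⟩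
  have hgen : ∀ σ : ℝ, ∃ V, σ ∈ 𝒢 → G2b_Gen Ω t₀ C u σ V := by
    intro σ
    by_cases hσ : σ ∈ 𝒢
    · obtain ⟨V, hV⟩ := G2b_gen hΩ hσ.1 hσ.2
      exact ⟨V, fun _ => hV⟩
    · exact ⟨0, fun h => absurd h hσ⟩
  choose V hV using hgen
  -- the force term
  have hfi : IntegrableOn (fun τ => fn Ω f τ) (Icc 0 T) := h.nmf_int
  have hfn : ∀ τ, 0 ≤ fn Ω f τ := fun τ => Real.sqrt_nonneg _
  set F : ℝ → ℝ := fun t => ∫ τ in (0)..t, fn Ω f τ with hF
  have h0T : (0 : ℝ) ≤ T := ht₀.1.le.trans ht₀.2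
  have hFc : ContinuousOn F (Icc 0 T) := by
    have := intervalIntegral.continuousOn_primitive_interval (a := 0) (b := T) (μ := volume)
      (f := fun τ => fn Ω f τ) (by rw [uIcc_of_le h0T]; exact hfi)
    rwa [uIcc_of_le h0T] at this
  have hFd : ∀ s t, 0 ≤ s → s ≤ t → t ≤ T → ∫ τ in s..t, fn Ω f τ = F t - F s := by
    intro s t hs hst ht
    rw [hF]
    rw [intervalIntegral.integral_interval_sub_left]
    · exact Pool.Agent.Helper52.NSE.ii_of hfi le_rfl (hs.trans hst) ht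
    · exact Pool.Agent.Helper52.NSE.ii_of hfi le_rfl hs (hst.trans ht)
  set δ : ℝ := t₀ - q with hδ
  have hδ0 : 0 < δ := sub_pos.2 hq
  set Ψ : ℝ → ℝ := fun t => C₁ * t / δ + C₁ * F t with hΨ
  have hΨc : ContinuousOn Ψ (Icc 0 T) := by
    apply ContinuousOn.add
    · fun_prop
    · exact hFc.const_mul C₁ |> fun h => by simpa [smul_eq_mul] using h
  -- the key estimate
  have hlt : ∀ σ τ, σ ∈ Ioo p q → τ ∈ Ioo p q → σ ∈ 𝒢 → τ ∈ 𝒢 → σ < τ →
      sq (fun x => V τ x - V σ x) ≤ C₁ * (τ - σ) / (t₀ - τ) + C₁ * (F τ - F σ) := by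
    intro σ τ hσ hτ hσ' hτ' hστ
    rw [G2b_diff (hV σ hσ') (hV τ hτ')]
    refine (htime p q hp hpq hq hrate σ hσ τ hτ hστ hσ'.1 hτ'.1 hσ'.2 hτ'.2).trans ?_
    rw [hFd σ τ (hsub hσ).1 hστ.le (hsub hτ).2]
  have hlt' : ∀ σ τ, σ ∈ Ioo p q → τ ∈ Ioo p q → σ ∈ 𝒢 → τ ∈ 𝒢 → σ < τ →
      sq (fun x => V τ x - V σ x) ≤ |Ψ τ - Ψ σ| := by
    intro σ τ hσ hτ hσ' hτ' hστ
    refine (hlt σ τ hσ hτ hσ' hτ' hστ).trans (le_trans ?_ (le_abs_self _))
    have e1 : C₁ * (τ - σ) / (t₀ - τ) ≤ C₁ * (τ - σ) / δ := by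
      apply div_le_div_of_nonneg_left (mul_nonneg hC₁.le (by linarith)) hδ0
      rw [hδ]; linarith [hτ.2]
    have e2 : Ψ τ - Ψ σ = C₁ * (τ - σ) / δ + C₁ * (F τ - F σ) := by
      rw [hΨ]; ring
    rw [e2]
    linarith
  have hkey : ∀ σ τ, σ ∈ Ioo p q → τ ∈ Ioo p q → σ ∈ 𝒢 → τ ∈ 𝒢 →
      sq (fun x => V τ x - V σ x) ≤ |Ψ τ - Ψ σ| := by
    intro σ τ hσ hτ hσ' hτ'
    rcases lt_trichotomy σ τ with h1 | h1 | h1
    · exact hlt' σ τ hσ hτ hσ' hτ' h1
    · subst h1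
      have : sq (fun x => V σ x - V σ x) = 0 := by
        unfold sq; simp
      rw [this]; positivity
    · have h2 := hlt' τ σ hτ hσ hτ' hσ' h1
      have : sq (fun x => V τ x - V σ x) = sq (fun x => V σ x - V τ x) := by
        unfold sq
        refine integral_congr_ae (Eventually.of_forall fun x => ?_)
        show ‖V τ x - V σ x‖ ^ 2 = ‖V σ x - V τ x‖ ^ 2
        rw [norm_sub_rev]
      rw [this, abs_sub_comm]
      exact h2
  set L : ℝ := 6 * (|C| + 1) / δ with hL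
  have hL0 : 0 < L := by positivity
  have hLip : ∀ σ, σ ∈ Ioo p q → σ ∈ 𝒢 → ∀ x y, ‖V σ x - V σ y‖ ≤ L / 2 * ‖x - y‖ := by
    intro σ hσ hσ' x y
    refine ((hV σ hσ').lip x y).trans (mul_le_mul_of_nonneg_right ?_ (norm_nonneg _))
    have hd : δ ≤ t₀ - σ := by rw [hδ]; linarith [hσ.2]
    have hd0 : 0 < t₀ - σ := lt_of_lt_of_le hδ0 hd
    have e1 : C / (t₀ - σ) ≤ (|C| + 1) / δ := by
      calc C / (t₀ - σ) ≤ (|C| + 1) / (t₀ - σ) := by
            apply div_le_div_of_nonneg_right _ hd0.le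
            linarith
        _ ≤ (|C| + 1) / δ := div_le_div_of_nonneg_left (by positivity) hδ0 hd
    have e2 : L / 2 = 3 * ((|C| + 1) / δ) := by rw [hL]; ring
    rw [e2]
    linarith
  have h5 : ∀ σ τ, σ ∈ Ioo p q → τ ∈ Ioo p q → σ ∈ 𝒢 → τ ∈ 𝒢 → ∀ x,
      c * ‖V τ x - V σ x‖ ^ 5 ≤ L ^ 3 * |Ψ τ - Ψ σ| := by
    intro σ τ hσ hτ hσ' hτ' x
    have hl2 : MemLp (fun x => V τ x - V σ x) 2 volume := (hV τ hτ').l2.sub (hV σ hσ').l2
    have h6 := hsup (fun x => V τ x - V σ x) L hL0 ?_ hl2 x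
    · refine h6.trans (mul_le_mul_of_nonneg_left ?_ (by positivity))
      exact (sqOn_le_sq _ hl2).trans (hkey σ τ hσ hτ hσ' hτ')
    · intro x y
      have a1 := hLip τ hτ hτ' x y
      have a2 := hLip σ hσ hσ' x y
      have e : V τ x - V σ x - (V τ y - V σ y) = (V τ x - V τ y) - (V σ x - V σ y) := by abel
      show ‖V τ x - V σ x - (V τ y - V σ y)‖ ≤ L * ‖x - y‖
      rw [e]
      refine (norm_sub_le _ _).trans ?_
      linarith
  -- the limits
  have hlim : ∀ s ∈ Ioo p q, ∃ σ : ℕ → ℝ, ∃ W : E3 → E3, (∀ k, σ k ∈ Ioo p q ∧ σ k ∈ 𝒢) ∧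
      Tendsto σ atTop (𝓝 s) ∧ ∀ x, Tendsto (fun k => V (σ k) x) atTop (𝓝 (W x)) := by
    intro s hs
    obtain ⟨σ, h1, h2⟩ := hdense s hs
    have hΨt : Tendsto (fun k => Ψ (σ k)) atTop (𝓝 (Ψ s)) := by
      have : Tendsto σ atTop (𝓝[Icc 0 T] s) :=
        tendsto_nhdsWithin_iff.2 ⟨h2, Eventually.of_forall fun k => hsub (h1 k).1⟩
      exact (hΨc s (hsub hs)).tendsto.comp this
    have hcs : ∀ x, CauchySeq (fun k => V (σ k) x) := by
      intro x
      rw [Metric.cauchySeq_iff]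
      intro ε hε
      have hcΨ := hΨt.cauchySeq
      rw [Metric.cauchySeq_iff] at hcΨ
      obtain ⟨n₀, hn₀⟩ := hcΨ (c * ε ^ 5 / L ^ 3) (by positivity)
      refine ⟨n₀, fun m hm n hn => ?_⟩
      have h3 := hn₀ m hm n hn
      have h4 := h5 (σ n) (σ m) (h1 n).1 (h1 m).1 (h1 n).2 (h1 m).2 x
      rw [dist_eq_norm]
      rw [Real.dist_eq] at h3
      by_contra hcon
      rw [not_lt] at hcon
      have h7 : ε ^ 5 ≤ ‖V (σ m) x - V (σ n) x‖ ^ 5 := pow_le_pow_left₀ hε.le hcon 5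
      have h8 : c * ε ^ 5 ≤ c * ‖V (σ m) x - V (σ n) x‖ ^ 5 := mul_le_mul_of_nonneg_left h7 hc.le
      rw [lt_div_iff₀ (by positivity)] at h3
      nlinarith
    choose W hW using fun x => cauchySeq_tendsto_of_complete (hcs x)
    exact ⟨σ, W, h1, h2, hW⟩
  choose! σ W h1 h2 h3 using hlim
  -- uniform bound
  have hR0 : ∀ x : E3, |R| + 1 ≤ ‖x‖ → x ∉ Ω := by
    intro x hx hxΩ
    have := hR hxΩ
    rw [Metric.mem_ball, dist_zero_right] at this
    linarith [le_abs_self R]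
  set y₀ : E3 := EuclideanSpace.single 0 (|R| + 1) with hy₀
  have hy₀n : ‖y₀‖ = |R| + 1 := by
    rw [hy₀, PiLp.norm_single, Real.norm_eq_abs, abs_of_nonneg (by positivity)]
  set M : ℝ := L / 2 * (2 * (|R| + 1)) with hM
  have hM0 : 0 ≤ M := by positivity
  have hbd : ∀ τ, τ ∈ Ioo p q → τ ∈ 𝒢 → ∀ x, ‖V τ x‖ ≤ M := by
    intro τ hτ hτ' x
    by_cases hx : |R| + 1 ≤ ‖x‖
    · rw [(hV τ hτ').off x (hR0 x hx), norm_zero]
      exact hM0
    · rw [not_le] at hx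
      have e1 := hLip τ hτ hτ' x y₀
      rw [(hV τ hτ').off y₀ (hR0 y₀ hy₀n.ge), sub_zero] at e1
      refine e1.trans (mul_le_mul_of_nonneg_left ?_ (by positivity))
      refine (norm_sub_le _ _).trans ?_
      rw [hy₀n]
      linarith
  have hpos : ∀ s ∈ Ioo p q, 0 < t₀ - s := fun s hs => by linarith [hs.2]
  -- the Lipschitz bound
  have hlipW : ∀ s ∈ Ioo p q, ∀ x y, ‖W s x - W s y‖ ≤ (C₁ + 3 * |C| + 1) / (t₀ - s) * ‖x - y‖ := by
    intro s hs x y
    have e1 : Tendsto (fun k => ‖V (σ s k) x - V (σ s k) y‖) atTop (𝓝 ‖W s x - W s y‖) :=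
      ((h3 s hs x).sub (h3 s hs y)).norm
    have e2 : Tendsto (fun k => 3 * (C / (t₀ - σ s k)) * ‖x - y‖) atTop
        (𝓝 (3 * (C / (t₀ - s)) * ‖x - y‖)) := by
      apply Tendsto.mul_const
      apply Tendsto.const_mul
      exact Tendsto.div tendsto_const_nhds (tendsto_const_nhds.sub (h2 s hs)) (hpos s hs).ne'
    have e3 := le_of_tendsto_of_tendsto' e1 e2 fun k => (hV _ (h1 s hs k).2).lip x y
    refine e3.trans (mul_le_mul_of_nonneg_right ?_ (norm_nonneg _))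
    rw [← mul_div_assoc]
    apply div_le_div_of_nonneg_right _ (hpos s hs).le
    linarith
  have hWc : ∀ s ∈ Ioo p q, Continuous (W s) := by
    intro s hs
    have : LipschitzWith ((C₁ + 3 * |C| + 1) / (t₀ - s)).toNNReal (W s) := by
      apply LipschitzWith.of_dist_le'
      intro x y
      rw [dist_eq_norm, dist_eq_norm]
      exact hlipW s hs x y
    exact this.continuous
  have hWoff : ∀ s ∈ Ioo p q, ∀ x, x ∉ Ω → W s x = 0 := by
    intro s hs x hx
    have e1 : (fun k => V (σ s k) x) = fun _ => (0 : E3) := by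
      funext k
      exact (hV _ (h1 s hs k).2).off x hx
    have e2 := h3 s hs x
    rw [e1] at e2
    exact tendsto_nhds_unique e2 tendsto_const_nhds
  have hWbd : ∀ s ∈ Ioo p q, ∀ x, ‖W s x‖ ≤ M := by
    intro s hs x
    exact le_of_tendsto' (h3 s hs x).norm fun k => hbd _ (h1 s hs k).1 (h1 s hs k).2 x
  haveI hfin : IsFiniteMeasure (volume.restrict Ω) := by
    constructor
    rw [Measure.restrict_apply_univ]
    exact lt_of_le_of_lt (measure_mono hR) measure_ball_lt_top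
  refine ⟨W, ?_, hWoff, hlipW, ?_, ?_⟩
  · intro s hs
    have hW2 : MemLp (W s) 2 (volume.restrict Ω) :=
      MemLp.of_bound (hWc s hs).aestronglyMeasurable M (Eventually.of_forall (hWbd s hs))
    have hu2 : MemLp (u s) 2 (volume.restrict Ω) := (h.mem s (hsub hs)).memLp
    have hφ : MemLp (fun x => W s x - u s x) 2 (volume.restrict Ω) := hW2.sub hu2
    have hφi : Integrable (fun x => W s x - u s x) (volume.restrict Ω) :=
      hφ.integrable (by norm_num)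
    have a1 := G2b_inner hφi (fun k => (hV _ (h1 s hs k).2).cont)
      (fun k => hbd _ (h1 s hs k).1 (h1 s hs k).2) (h3 s hs)
    have a2 : Tendsto (fun k => ∫ x in Ω, (inner ℝ (u (σ s k) x) (W s x - u s x) : ℝ)) atTop
        (𝓝 (∫ x in Ω, (inner ℝ (u s x) (W s x - u s x) : ℝ))) := by
      have b1 := h.weak_cont _ hφ s (hsub hs)
      have b2 : Tendsto (σ s) atTop (𝓝[Icc 0 T] s) :=
        tendsto_nhdsWithin_iff.2 ⟨h2 s hs, Eventually.of_forall fun k => hsub (h1 s hs k).1⟩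
      exact b1.tendsto.comp b2
    have a3 : (fun k => ∫ x in Ω, (inner ℝ (V (σ s k) x) (W s x - u s x) : ℝ)) =
        fun k => ∫ x in Ω, (inner ℝ (u (σ s k) x) (W s x - u s x) : ℝ) := by
      funext k
      apply integral_congr_ae
      filter_upwards [(hV _ (h1 s hs k).2).rep] with x hx
      rw [hx]
    rw [a3] at a1
    have a4 := tendsto_nhds_unique a1 a2
    have a5 : ∫ x in Ω, ‖W s x - u s x‖ ^ 2 = 0 := by
      have i1 : Integrable (fun x => (inner ℝ (W s x) (W s x - u s x) : ℝ))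
          (volume.restrict Ω) := Pool.Agent.Helper52.NSE.inner_int hW2 hφ
      have i2 : Integrable (fun x => (inner ℝ (u s x) (W s x - u s x) : ℝ))
          (volume.restrict Ω) := Pool.Agent.Helper52.NSE.inner_int hu2 hφ
      have : ∫ x in Ω, ‖W s x - u s x‖ ^ 2 = (∫ x in Ω, (inner ℝ (W s x) (W s x - u s x) : ℝ)) -
          ∫ x in Ω, (inner ℝ (u s x) (W s x - u s x) : ℝ) := by
        rw [← integral_sub i1 i2]
        refine integral_congr_ae (Eventually.of_forall fun x => ?_)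
        show ‖W s x - u s x‖ ^ 2 = (inner ℝ (W s x) (W s x - u s x) : ℝ) -
          inner ℝ (u s x) (W s x - u s x)
        rw [← inner_sub_left, real_inner_self_eq_norm_sq]
      rw [this, a4, sub_self]
    rw [integral_eq_zero_iff_of_nonneg (fun x => by positivity)
      (Pool.Agent.Helper52.NSE.sq_int hφ)] at a5
    filter_upwards [a5] with x hx
    have : ‖W s x - u s x‖ ^ 2 = 0 := hx
    rw [sq_eq_zero_iff, norm_eq_zero, sub_eq_zero] at this
    exact this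
  · intro s hs hh
    have e1 : Tendsto (fun k => sq (fun x => V (σ s k) (x + hh) - V (σ s k) x)) atTop
        (𝓝 (sq (fun x => W s (x + hh) - W s x))) := by
      apply G2b_lim (R := |R| + 1 + ‖hh‖) (M := 2 * M)
      · intro k
        have := (hV _ (h1 s hs k).2).cont
        fun_prop
      · intro k x
        refine (norm_sub_le _ _).trans ?_
        linarith [hbd _ (h1 s hs k).1 (h1 s hs k).2 x, hbd _ (h1 s hs k).1 (h1 s hs k).2 (x + hh)]
      · intro k x hx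
        have g1 : |R| + 1 ≤ ‖x‖ := by linarith [norm_nonneg hh]
        have g2 : |R| + 1 ≤ ‖x + hh‖ := by
          have : ‖x‖ ≤ ‖x + hh‖ + ‖hh‖ := by
            have := norm_sub_le (x + hh) hh
            rwa [add_sub_cancel_right] at this
          linarith
        rw [(hV _ (h1 s hs k).2).off _ (hR0 _ g1), (hV _ (h1 s hs k).2).off _ (hR0 _ g2), sub_zero]
      · intro x
        exact (h3 s hs (x + hh)).sub (h3 s hs x)
    have e2 : Tendsto (fun k => C * (t₀ - σ s k) ^ (-(4 / 5) : ℝ) * ‖hh‖ ^ 2) atTop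
        (𝓝 (C * (t₀ - s) ^ (-(4 / 5) : ℝ) * ‖hh‖ ^ 2)) := by
      apply Tendsto.mul_const
      apply Tendsto.const_mul
      exact (tendsto_const_nhds.sub (h2 s hs)).rpow_const (Or.inl (hpos s hs).ne')
    have e3 := le_of_tendsto_of_tendsto' e1 e2 fun k => (hV _ (h1 s hs k).2).grad hh
    refine e3.trans (mul_le_mul_of_nonneg_right (mul_le_mul_of_nonneg_right ?_ ?_) (by positivity))
    · linarith
    · exact Real.rpow_nonneg (hpos s hs).le _
  · intro s t hps hst htq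
    have hs : s ∈ Ioo p q := ⟨hps, hst.trans htq⟩
    have ht : t ∈ Ioo p q := ⟨hps.trans hst, htq⟩
    have e1 : Tendsto (fun k => sq (fun x => V (σ t k) x - V (σ s k) x)) atTop
        (𝓝 (sq (fun x => W t x - W s x))) := by
      apply G2b_lim (R := |R| + 1) (M := 2 * M)
      · intro k
        exact (hV _ (h1 t ht k).2).cont.sub (hV _ (h1 s hs k).2).cont
      · intro k x
        refine (norm_sub_le _ _).trans ?_
        linarith [hbd _ (h1 s hs k).1 (h1 s hs k).2 x, hbd _ (h1 t ht k).1 (h1 t ht k).2 x]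
      · intro k x hx
        rw [(hV _ (h1 s hs k).2).off _ (hR0 _ hx), (hV _ (h1 t ht k).2).off _ (hR0 _ hx), sub_zero]
      · intro x
        exact (h3 t ht x).sub (h3 s hs x)
    have hFt : ∀ r ∈ Ioo p q, Tendsto (fun k => F (σ r k)) atTop (𝓝 (F r)) := by
      intro r hr
      have b2 : Tendsto (σ r) atTop (𝓝[Icc 0 T] r) :=
        tendsto_nhdsWithin_iff.2 ⟨h2 r hr, Eventually.of_forall fun k => hsub (h1 r hr k).1⟩
      exact (hFc r (hsub hr)).tendsto.comp b2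
    have e2 : Tendsto (fun k => C₁ * (σ t k - σ s k) / (t₀ - σ t k) + C₁ * (F (σ t k) - F (σ s k)))
        atTop (𝓝 (C₁ * (t - s) / (t₀ - t) + C₁ * (F t - F s))) := by
      apply Tendsto.add
      · apply Tendsto.div
        · exact ((h2 t ht).sub (h2 s hs)).const_mul C₁
        · exact tendsto_const_nhds.sub (h2 t ht)
        · exact (hpos t ht).ne'
      · exact ((hFt t ht).sub (hFt s hs)).const_mul C₁
    have hev : ∀ᶠ k in atTop, σ s k < σ t k := (h2 s hs).eventually_lt (h2 t ht) hst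
    have e3 := le_of_tendsto_of_tendsto e1 e2 (by
      filter_upwards [hev] with k hk
      exact hlt _ _ (h1 s hs k).1 (h1 t ht k).1 (h1 s hs k).2 (h1 t ht k).2 hk)
    have h0s : 0 ≤ s := (hsub hs).1
    rw [hFd s t h0s hst.le (hsub ht).2]
    have hF0 : 0 ≤ F t - F s := by
      rw [← hFd s t h0s hst.le (hsub ht).2]
      exact intervalIntegral.integral_nonneg hst.le fun τ _ => hfn τ
    refine e3.trans (add_le_add ?_ (mul_le_mul_of_nonneg_right (by linarith) hF0))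
    apply div_le_div_of_nonneg_right _ (hpos t ht).le
    exact mul_le_mul_of_nonneg_right (by linarith) (by linarith)

end Pool.Agent.Helper60.EC
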