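import Pool.Agent.Helper60.EC.G2b

/-! Project EC, G2c: windows -/

set_option autoImplicit false

open MeasureTheory Set Filter Topology
open scoped ENNReal ContDiff

noncomputable section

namespace Pool.Agent.Helper60.EC

open Pool.Agent.Helper52.NSE (E3 pd divg TestField IsSmoothBoundedDomain MemH1s MemL2s
  IsWeakSolution gradSq nm nm_nonneg nm_sq cs inner_int ii_of sqrt_cs sq_int sqrt_int)
open Pool.Agent.Helper7.NT (gp Bf gp_le gp_time pair_time Bf_time)

theorem G2c_zero {Ω : Set E3} {φ : E3 → E3} (hφ : TestField Ω φ) {x : E3} (hx : x ∉ Ω) :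
    φ x = 0 := image_eq_zero_of_notMem_tsupport fun h => hx (hφ.supp h)

theorem G2c_pd_zero {Ω : Set E3} {φ : E3 → E3} (hφ : TestField Ω φ) {x : E3} (hx : x ∉ Ω)
    (i : Fin 3) : D i φ x = 0 :=
  image_eq_zero_of_notMem_tsupport fun h => hx (hφ.supp (D_tsupport φ i h))

theorem G2c_gsq {Ω : Set E3} {φ : E3 → E3} (hφ : TestField Ω φ) :
    Pool.Agent.Helper52.NSE.gsq Ω (pd φ) = gsq φ := by
  unfold Pool.Agent.Helper52.NSE.gsq gsq
  have h := setIntegral_eq_integral_of_forall_compl_eq_zero (μ := (volume : Measure E3))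
    (s := Ω) (f := fun x => ∑ i, ‖D i φ x‖ ^ 2) (fun x hx =>
      Finset.sum_eq_zero fun i _ => by rw [G2c_pd_zero hφ hx i]; simp)
  exact h

theorem G2c_nm {Ω : Set E3} {φ : E3 → E3} (hφ : TestField Ω φ) :
    nm Ω φ = Real.sqrt (sq φ) := by
  unfold nm sq
  congr 1
  exact setIntegral_eq_integral_of_forall_compl_eq_zero (μ := (volume : Measure E3))
    (s := Ω) (f := fun x => ‖φ x‖ ^ 2) (fun x hx => by rw [G2c_zero hφ hx]; simp)

theorem G2c_ip {Ω : Set E3} {φ U w : E3 → E3} (hφ : TestField Ω φ)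
    (hU : U =ᵐ[volume.restrict Ω] w) : ip U φ = ∫ x in Ω, inner ℝ (w x) (φ x) := by
  unfold ip
  have h := setIntegral_eq_integral_of_forall_compl_eq_zero (μ := (volume : Measure E3))
    (s := Ω) (f := fun x => (inner ℝ (U x) (φ x) : ℝ)) (fun x hx => by
      rw [G2c_zero hφ hx, inner_zero_right])
  rw [← h]
  apply integral_congr_ae
  filter_upwards [hU] with x hx
  rw [hx]

theorem G2c_nl {Ω : Set E3} {φ U w : E3 → E3} (hφ : TestField Ω φ)
    (hU : U =ᵐ[volume.restrict Ω] w) : nl φ U = Bf Ω w (pd φ) w := by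
  unfold nl Bf
  have h := setIntegral_eq_integral_of_forall_compl_eq_zero (μ := (volume : Measure E3))
    (s := Ω) (f := fun x => ∑ i, (U x) i * (inner ℝ (U x) (D i φ x) : ℝ)) (fun x hx =>
      Finset.sum_eq_zero fun i _ => by
        rw [G2c_pd_zero hφ hx i, inner_zero_right, mul_zero])
  rw [← h]
  apply integral_congr_ae
  filter_upwards [hU] with x hx
  rw [hx]
  rfl

theorem G2c_split {Ω : Set E3} {ν T : ℝ} {u₀ : E3 → E3} {f u : ℝ → E3 → E3}
    {G : ℝ → Fin 3 → E3 → E3} (hΩ : IsSmoothBoundedDomain Ω)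
    (h : IsWeakSolution Ω ν T u₀ f u G) {φ : E3 → E3} (hφ : TestField Ω φ) {s t : ℝ}
    (hs : 0 ≤ s) (hst : s ≤ t) (ht : t ≤ T) :
    (∫ x in Ω, inner ℝ (u t x) (φ x)) - (∫ x in Ω, inner ℝ (u s x) (φ x)) -
        ∫ τ in s..t, Bf Ω (u τ) (pd φ) (u τ) =
      (∫ τ in s..t, -ν * gp Ω (G τ) (pd φ)) + ∫ τ in s..t, ∫ x in Ω, inner ℝ (f τ x) (φ x) := by
  have hA : ∀ i, MemLp (pd φ i) 2 (volume.restrict Ω) := fun i => hφ.pd_memLp i _ 2
  have igp := (ii_of (gp_time h hA) hs hst ht).const_mul (-ν)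
  have ipair := ii_of (pair_time h (hφ.memLp _ 2)) hs hst ht
  have iBf : IntervalIntegrable (fun τ => Bf Ω (u τ) (pd φ) (u τ)) volume s t := by
    have h0 : MemLp (fun _ : E3 => (0 : E3)) 6 (volume.restrict Ω) := MemLp.zero
    have := ii_of (Bf_time hΩ.isOpen hΩ.bdd h h0 hA) hs hst ht
    simpa using this
  have e1 := h.eqn φ hφ s t hs hst ht
  have e2 : ∫ τ in s..t, Pool.Agent.Helper52.NSE.rhs Ω ν (f τ) (u τ) (G τ) φ =
      ∫ τ in s..t, (-ν * gp Ω (G τ) (pd φ) + Bf Ω (u τ) (pd φ) (u τ) +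
        ∫ x in Ω, inner ℝ (f τ x) (φ x)) := rfl
  rw [e2, intervalIntegral.integral_add (igp.add iBf) ipair,
    intervalIntegral.integral_add igp iBf] at e1
  rw [e1]
  ring

theorem G2c_force {Ω : Set E3} {ν T : ℝ} {u₀ : E3 → E3} {f u : ℝ → E3 → E3}
    {G : ℝ → Fin 3 → E3 → E3} (h : IsWeakSolution Ω ν T u₀ f u G) {φ : E3 → E3}
    (hφ : TestField Ω φ) {s t : ℝ} (hs : 0 ≤ s) (hst : s ≤ t) (ht : t ≤ T) :
    |∫ τ in s..t, ∫ x in Ω, inner ℝ (f τ x) (φ x)| ≤
      Real.sqrt (sq φ) * ∫ τ in s..t, fn Ω f τ := by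
  have hi : IntervalIntegrable (fun τ => fn Ω f τ) volume s t := ii_of h.nmf_int hs hst ht
  rw [← intervalIntegral.integral_const_mul, ← Real.norm_eq_abs]
  refine intervalIntegral.norm_integral_le_of_norm_le hst ?_ (hi.const_mul _)
  have h1 := (ae_restrict_iff' measurableSet_Icc).mp h.force_mem
  filter_upwards [h1] with τ hτ hτ'
  have h2 : τ ∈ Icc 0 T := ⟨hs.trans hτ'.1.le, hτ'.2.trans ht⟩
  rw [Real.norm_eq_abs]
  refine (cs (hτ h2).memLp (hφ.memLp _ 2)).trans ?_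
  rw [G2c_nm hφ, mul_comm]
  exact le_rfl

/-- the viscous term, with a bound `g` of the norm of the gradient -/
theorem G2c_visc {Ω : Set E3} {ν T : ℝ} {u₀ : E3 → E3} {f u : ℝ → E3 → E3}
    {G : ℝ → Fin 3 → E3 → E3} (hν : 0 < ν) (h : IsWeakSolution Ω ν T u₀ f u G) {φ : E3 → E3}
    (hφ : TestField Ω φ) {s t : ℝ} (hs : 0 ≤ s) (hst : s ≤ t) (ht : t ≤ T) {g : ℝ → ℝ}
    (hg : IntervalIntegrable g volume s t)
    (hb : ∀ᵐ τ ∂volume, τ ∈ Ioc s t → Real.sqrt (gradSq Ω (G τ)) ≤ g τ) :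
    |∫ τ in s..t, -ν * gp Ω (G τ) (pd φ)| ≤ ν * Real.sqrt (gsq φ) * ∫ τ in s..t, g τ := by
  rw [← intervalIntegral.integral_const_mul, ← Real.norm_eq_abs]
  refine intervalIntegral.norm_integral_le_of_norm_le hst ?_ (hg.const_mul _)
  have h1 := (ae_restrict_iff' measurableSet_Icc).mp h.grad_mem
  filter_upwards [h1, hb] with τ hτ hτb hτ'
  have h2 : τ ∈ Icc 0 T := ⟨hs.trans hτ'.1.le, hτ'.2.trans ht⟩
  rw [norm_mul, Real.norm_eq_abs, Real.norm_eq_abs, abs_neg, abs_of_pos hν, mul_assoc]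
  refine mul_le_mul_of_nonneg_left ?_ hν.le
  refine (gp_le (hτ h2).grad_memLp (fun i => hφ.pd_memLp i _ 2)).trans ?_
  rw [G2c_gsq hφ, mul_comm]
  exact mul_le_mul_of_nonneg_left (hτb hτ') (Real.sqrt_nonneg _)

theorem G2c_Bf {Ω : Set E3} {φ w : E3 → E3} (hw : MemLp w 2 (volume.restrict Ω)) {M : ℝ}
    (hM : ∀ x, ∑ i, ‖D i φ x‖ ≤ M) :
    |Bf Ω w (pd φ) w| ≤ M * ∫ x in Ω, ‖w x‖ ^ 2 := by
  unfold Bf
  rw [← integral_const_mul, ← Real.norm_eq_abs]
  refine norm_integral_le_of_norm_le ((sq_int hw).const_mul M) (Eventually.of_forall fun x => ?_)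
  refine (norm_sum_le _ _).trans ?_
  have h1 : ∀ i : Fin 3, ‖(w x) i * (inner ℝ (w x) (pd φ i x) : ℝ)‖ ≤ ‖w x‖ ^ 2 * ‖D i φ x‖ := by
    intro i
    rw [norm_mul, pow_two, mul_assoc]
    refine mul_le_mul (PiLp.norm_apply_le (w x) i) (norm_inner_le_norm _ _) (norm_nonneg _)
      (norm_nonneg _)
  refine (Finset.sum_le_sum fun i _ => h1 i).trans ?_
  rw [← Finset.mul_sum, mul_comm]
  exact mul_le_mul_of_nonneg_right (hM x) (by positivity)

theorem exists_win {Ω : Set E3} {ν T : ℝ} {u₀ : E3 → E3} {f u : ℝ → E3 → E3}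
    {G : ℝ → Fin 3 → E3 → E3} (hΩ : IsSmoothBoundedDomain Ω) (hν : 0 < ν)
    (h : IsWeakSolution Ω ν T u₀ f u G) {t₀ : ℝ} (ht₀ : t₀ ∈ Ioc 0 T) (C : ℝ) :
    ∃ C' : ℝ, 0 < C' ∧ ∀ p q : ℝ, 0 ≤ p → p < q → q < t₀ →
      (∀ᵐ s ∂(volume.restrict (Ioo p q)), RateAt Ω G t₀ C s) →
        ∃ U : ℝ → E3 → E3, Win Ω t₀ f u G C' p q U := by
  obtain ⟨C₀, hC₀, hrep⟩ := exists_rep hΩ hν h ht₀ C
  obtain ⟨K, hK⟩ := h.bound
  have hp1 : 0 ≤ Real.sqrt |C| := Real.sqrt_nonneg _
  have hp2 : 0 ≤ ν * Real.sqrt |C| := mul_nonneg hν.le hp1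
  refine ⟨C₀ + |K| + ν + ν * Real.sqrt |C|, by positivity, ?_⟩
  set C' := C₀ + |K| + ν + ν * Real.sqrt |C| with hC'
  have hle0 : C₀ ≤ C' := by have := abs_nonneg K; linarith
  have hleK : K ≤ C' := by have := le_abs_self K; linarith
  have hleν : ν ≤ C' := by have := abs_nonneg K; linarith
  have hleν' : ν * Real.sqrt |C| ≤ C' := by have := abs_nonneg K; linarith
  intro p q hp hpq hq hrate
  obtain ⟨U, h1, h2, h3, h4, h5⟩ := hrep p q hp hpq hq hrate
  have hT : ∀ s ∈ Ioo p q, s ∈ Icc 0 T := fun s hs =>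
    ⟨hp.trans hs.1.le, (hs.2.le.trans hq.le).trans ht₀.2⟩
  have hext : ∀ s ∈ Ioo p q, MemLp (U s) 2 volume ∧ sq (U s) = ∫ x in Ω, ‖u s x‖ ^ 2 ∧
      WDiv (U s) := fun s hs => l2_ext hΩ.isOpen (h.mem s (hT s hs)) (h1 s hs) (h2 s hs)
  have hrate' := (ae_restrict_iff' measurableSet_Ioo).mp hrate
  refine ⟨U, ?_⟩
  exact {
    rep := h1
    off := h2
    lip := fun s hs x y => by
      refine (h3 s hs x y).trans (mul_le_mul_of_nonneg_right ?_ (norm_nonneg _))
      exact div_le_div_of_nonneg_right hle0 (by linarith [hs.2])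
    l2 := fun s hs => (hext s hs).1
    energy := fun s hs => by
      rw [(hext s hs).2.1]
      exact (hK s (hT s hs)).trans hleK
    div := fun s hs => (hext s hs).2.2
    grad := fun s hs y => by
      refine (h4 s hs y).trans (mul_le_mul_of_nonneg_right ?_ (by positivity))
      exact mul_le_mul_of_nonneg_right hle0 (Real.rpow_nonneg (by linarith [hs.2]) _)
    time := fun s t hs hst ht => by
      refine (h5 s t hs hst ht).trans (add_le_add ?_ ?_)
      · apply div_le_div_of_nonneg_right _ (by linarith)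
        exact mul_le_mul_of_nonneg_right hle0 (by linarith)
      · apply mul_le_mul_of_nonneg_right hle0
        exact intervalIntegral.integral_nonneg hst.le fun τ _ => Real.sqrt_nonneg _
    eqn := fun φ hφ s t hs hst ht => by
      have hsI : s ∈ Ioo p q := ⟨hs, hst.trans ht⟩
      have htI : t ∈ Ioo p q := ⟨hs.trans hst, ht⟩
      have hs0 : 0 ≤ s := (hT s hsI).1
      have htT : t ≤ T := (hT t htI).2
      have e1 := G2c_split hΩ h hφ hs0 hst.le htT
      have e2 : ∫ τ in s..t, nl φ (U τ) = ∫ τ in s..t, Bf Ω (u τ) (pd φ) (u τ) := by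
        apply intervalIntegral.integral_congr
        intro τ hτ
        rw [uIcc_of_le hst.le] at hτ
        exact G2c_nl hφ (h1 τ ⟨hs.trans_le hτ.1, hτ.2.trans_lt ht⟩)
      rw [G2c_ip hφ (h1 t htI), G2c_ip hφ (h1 s hsI), e2, e1]
      have hcont : ContinuousOn (fun τ : ℝ => Real.sqrt |C| * (t₀ - τ) ^ (-(2 / 5) : ℝ))
          (uIcc s t) := by
        rw [uIcc_of_le hst.le]
        apply continuousOn_const.mul
        apply ContinuousOn.rpow_const (continuousOn_const.sub continuousOn_id)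
        intro τ hτ
        left
        have : τ < t₀ := hτ.2.trans_lt (ht.trans hq)
        show t₀ - τ ≠ 0
        linarith
      have e3 := G2c_visc hν h hφ hs0 hst.le htT hcont.intervalIntegrable (by
        filter_upwards [hrate'] with τ hτ hτ'
        have hτI : τ ∈ Ioo p q := ⟨hs.trans hτ'.1, hτ'.2.trans_lt ht⟩
        have h6 := (hτ hτI).2
        have hpos : 0 < t₀ - τ := by linarith [hτI.2]
        have h7 : gradSq Ω (G τ) ≤ |C| * ((t₀ - τ) ^ (-(2 / 5) : ℝ)) ^ 2 := by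
          rw [← Real.rpow_natCast, ← Real.rpow_mul hpos.le]
          refine h6.trans ?_
          have e : (-(2 / 5) : ℝ) * ((2 : ℕ) : ℝ) = -(4 / 5) := by push_cast; ring
          rw [e]
          exact mul_le_mul_of_nonneg_right (le_abs_self C) (Real.rpow_nonneg hpos.le _)
        refine (Real.sqrt_le_sqrt h7).trans (le_of_eq ?_)
        rw [Real.sqrt_mul (abs_nonneg C), Real.sqrt_sq (Real.rpow_nonneg hpos.le _)])
      have e4 := G2c_force h hφ hs0 hst.le htT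
      have e3' : ∫ τ in s..t, Real.sqrt |C| * (t₀ - τ) ^ (-(2 / 5) : ℝ) =
          Real.sqrt |C| * ∫ τ in s..t, (t₀ - τ) ^ (-(2 / 5) : ℝ) :=
        intervalIntegral.integral_const_mul _ _
      rw [e3'] at e3
      have hI : 0 ≤ ∫ τ in s..t, (t₀ - τ) ^ (-(2 / 5) : ℝ) := by
        apply intervalIntegral.integral_nonneg hst.le
        intro τ hτ
        exact Real.rpow_nonneg (by linarith [hτ.2]) _
      have h8 : ν * Real.sqrt (gsq φ) *
          (Real.sqrt |C| * ∫ τ in s..t, (t₀ - τ) ^ (-(2 / 5) : ℝ)) ≤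
          C' * Real.sqrt (gsq φ) * ∫ τ in s..t, (t₀ - τ) ^ (-(2 / 5) : ℝ) := by
        have h9 : 0 ≤ Real.sqrt (gsq φ) * ∫ τ in s..t, (t₀ - τ) ^ (-(2 / 5) : ℝ) :=
          mul_nonneg (Real.sqrt_nonneg _) hI
        have h10 := mul_le_mul_of_nonneg_right hleν' h9
        nlinarith
      refine (abs_add_le _ _).trans ?_
      linarith
    fin := fun φ hφ M hM s hs => by
      have hs0 : 0 ≤ s := (hT s hs).1
      have hst : s < t₀ := hs.2.trans hq
      have htT : t₀ ≤ T := ht₀.2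
      have hM0 : 0 ≤ M := (Finset.sum_nonneg fun i _ => norm_nonneg _).trans (hM 0)
      have e1 := G2c_split hΩ h hφ hs0 hst.le htT
      have e3 := G2c_visc hν h hφ hs0 hst.le htT (g := fun τ => Real.sqrt (gradSq Ω (G τ)))
        (ii_of (sqrt_int h.grad_int fun t => Pool.Agent.Helper52.NSE.gsq_nonneg Ω (G t))
          hs0 hst.le htT) (Eventually.of_forall fun τ _ => le_rfl)
      have e4 := G2c_force h hφ hs0 hst.le htT
      have e5 : |∫ τ in s..t₀, Bf Ω (u τ) (pd φ) (u τ)| ≤ M * |K| * (t₀ - s) := by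
        have := intervalIntegral.norm_integral_le_of_norm_le_const (a := s) (b := t₀)
          (C := M * |K|) (f := fun τ => Bf Ω (u τ) (pd φ) (u τ)) (by
            intro τ hτ
            rw [uIoc_of_le hst.le] at hτ
            have hτT : τ ∈ Icc 0 T := ⟨hs0.trans hτ.1.le, hτ.2.trans htT⟩
            rw [Real.norm_eq_abs]
            refine (G2c_Bf (h.mem τ hτT).memLp hM).trans ?_
            exact mul_le_mul_of_nonneg_left ((hK τ hτT).trans (le_abs_self K)) hM0)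
        rw [Real.norm_eq_abs, abs_of_nonneg (by linarith : 0 ≤ t₀ - s)] at this
        exact this
      have e6 := sqrt_cs (g := fun τ => gradSq Ω (G τ)) h.grad_int
        (fun t => Pool.Agent.Helper52.NSE.gsq_nonneg Ω (G t)) hs0 hst htT
      rw [G2c_ip hφ (h1 s hs)]
      have e7 : (∫ x in Ω, inner ℝ (u s x) (φ x)) - (∫ x in Ω, inner ℝ (u t₀ x) (φ x)) =
          -((∫ τ in s..t₀, -ν * gp Ω (G τ) (pd φ)) + (∫ τ in s..t₀, ∫ x in Ω,
            inner ℝ (f τ x) (φ x)) + ∫ τ in s..t₀, Bf Ω (u τ) (pd φ) (u τ)) := by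
        rw [← e1]
        ring
      rw [e7, abs_neg]
      have a1 := abs_add_le ((∫ τ in s..t₀, -ν * gp Ω (G τ) (pd φ)) + (∫ τ in s..t₀, ∫ x in Ω,
            inner ℝ (f τ x) (φ x))) (∫ τ in s..t₀, Bf Ω (u τ) (pd φ) (u τ))
      have a2 := abs_add_le (∫ τ in s..t₀, -ν * gp Ω (G τ) (pd φ)) (∫ τ in s..t₀, ∫ x in Ω,
            inner ℝ (f τ x) (φ x))
      have b1 : M * |K| * (t₀ - s) ≤ C' * M * (t₀ - s) := by
        have hKC : |K| ≤ C' := by linarith
        have h9 : 0 ≤ M * (t₀ - s) := mul_nonneg hM0 (by linarith)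
        have h10 := mul_le_mul_of_nonneg_right hKC h9
        nlinarith
      have b2 : ν * Real.sqrt (gsq φ) * ∫ τ in s..t₀, Real.sqrt (gradSq Ω (G τ)) ≤
          C' * Real.sqrt (gsq φ) * Real.sqrt (t₀ - s) *
            Real.sqrt (∫ τ in s..t₀, gradSq Ω (G τ)) := by
        have h9 : 0 ≤ ν * Real.sqrt (gsq φ) := mul_nonneg hν.le (Real.sqrt_nonneg _)
        have h10 := mul_le_mul_of_nonneg_left e6 h9
        have h11 : 0 ≤ Real.sqrt (gsq φ) * (Real.sqrt (t₀ - s) *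
            Real.sqrt (∫ τ in s..t₀, gradSq Ω (G τ))) := by positivity
        have h12 := mul_le_mul_of_nonneg_right hleν h11
        nlinarith
      linarith }

end Pool.Agent.Helper60.EC
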