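import Pool.Agent.Helper60.EC.G2c

/-! Project EC, G3a: the drop of the energy -/

set_option autoImplicit false

open MeasureTheory Set Filter Topology
open scoped ENNReal ContDiff

noncomputable section

namespace Pool.Agent.Helper60.EC

open Pool.Agent.Helper52.NSE (E3 pd divg TestField IsSmoothBoundedDomain MemH1s MemL2s
  IsWeakSolution gradSq)

/-- the trilinear form with a bounded gradient -/
theorem G3a_Bf_le {Ω : Set E3} {v : E3 → E3} {A : Fin 3 → E3 → E3} {L K : ℝ} (hL : 0 ≤ L)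
    (hv : MemLp v 2 (volume.restrict Ω))
    (hb : ∀ᵐ x ∂(volume.restrict Ω), ∀ i, ‖A i x‖ ≤ L) (hK : ∫ x in Ω, ‖v x‖ ^ 2 ≤ K) :
    |Pool.Agent.Helper7.NT.Bf Ω v A v| ≤ 3 * L * K := by
  have h1 : ‖Pool.Agent.Helper7.NT.Bf Ω v A v‖ ≤ ∫ x in Ω, 3 * L * ‖v x‖ ^ 2 := by
    unfold Pool.Agent.Helper7.NT.Bf
    refine norm_integral_le_of_norm_le ((Pool.Agent.Helper52.NSE.sq_int hv).const_mul (3 * L)) ?_
    filter_upwards [hb] with x hx
    refine (norm_sum_le _ _).trans ?_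
    have h2 : ∀ i ∈ (Finset.univ : Finset (Fin 3)),
        ‖(v x) i * inner ℝ (v x) (A i x)‖ ≤ L * ‖v x‖ ^ 2 := by
      intro i _
      rw [norm_mul]
      have h3 : ‖(v x) i‖ ≤ ‖v x‖ := PiLp.norm_apply_le (v x) i
      have h4 : ‖(inner ℝ (v x) (A i x) : ℝ)‖ ≤ ‖v x‖ * L :=
        (norm_inner_le_norm _ _).trans (mul_le_mul_of_nonneg_left (hx i) (norm_nonneg _))
      calc ‖(v x) i‖ * ‖(inner ℝ (v x) (A i x) : ℝ)‖ ≤ ‖v x‖ * (‖v x‖ * L) :=
            mul_le_mul h3 h4 (norm_nonneg _) (norm_nonneg _)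
        _ = L * ‖v x‖ ^ 2 := by ring
    refine (Finset.sum_le_sum h2).trans (le_of_eq ?_)
    simp
    ring
  rw [integral_const_mul, Real.norm_eq_abs] at h1
  exact h1.trans (mul_le_mul_of_nonneg_left hK (by positivity))

/-- the equations between `s` and `t₀`, tested with `u(s)` -/
theorem drop_ineq {Ω : Set E3} {ν T : ℝ} {u₀ : E3 → E3} {f u : ℝ → E3 → E3}
    {G : ℝ → Fin 3 → E3 → E3} (hΩ : IsSmoothBoundedDomain Ω) (hν : 0 < ν)
    (h : IsWeakSolution Ω ν T u₀ f u G) {t₀ : ℝ} (ht₀ : t₀ ∈ Ioc 0 T) {K : ℝ}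
    (hK : ∀ t ∈ Icc 0 T, ∫ x in Ω, ‖u t x‖ ^ 2 ≤ K) {C C' p q : ℝ} (hp : 0 ≤ p) (hq : q < t₀)
    {U : ℝ → E3 → E3} (hU : Win Ω t₀ f u G C' p q U) {s : ℝ} (hs : s ∈ Ioo p q)
    (hm : MemH1s Ω (u s) (G s)) (hr : RateAt Ω G t₀ C s) {N : ℝ → ℝ}
    (hN : IntegrableOn N (Ioo s q)) (hUN : ∀ τ ∈ Ioo s q, ∀ x, ‖U τ x‖ ≤ N τ) :
    (∫ x in Ω, ‖u s x‖ ^ 2) - (∫ x in Ω, inner ℝ (u t₀ x) (u s x)) ≤
      Real.sqrt K * Real.sqrt (gradSq Ω (G s)) * (∫ τ in Ioo s q, N τ) +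
        3 * (C / (t₀ - s)) * K * (t₀ - q) +
        ν * Real.sqrt (gradSq Ω (G s)) * Real.sqrt (t₀ - s) *
          Real.sqrt (∫ τ in s..t₀, gradSq Ω (G τ)) +
        Real.sqrt K * ∫ τ in s..t₀, fn Ω f τ := by
  have hO : IsOpen Ω := hΩ.isOpen
  have hs0 : 0 ≤ s := hp.trans hs.1.le
  have hsq : s < q := hs.2
  have hst : s < t₀ := hsq.trans hq
  have htT : t₀ ≤ T := ht₀.2
  have hq0 : 0 ≤ q := hs0.trans hsq.le
  have hqT : q ≤ T := hq.le.trans htT
  have ha2 := hm.toL2.memLp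
  have hA2 := hm.grad_memLp
  have hut := (h.mem t₀ ⟨hs0.trans hst.le, htT⟩).memLp
  have hweak := Pool.Agent.Helper7.NT.weak_ext hO hΩ.bdd h hm hs0 hst.le htT
  have hself : (∫ x in Ω, inner ℝ (u s x) (u s x)) = ∫ x in Ω, ‖u s x‖ ^ 2 := by
    refine integral_congr_ae (Eventually.of_forall fun x => ?_)
    exact real_inner_self_eq_norm_sq _
  rw [hself] at hweak
  set g0 : ℝ := Real.sqrt (gradSq Ω (G s)) with hg0
  have hg00 : 0 ≤ g0 := Real.sqrt_nonneg _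
  have hK0 : 0 ≤ K := (integral_nonneg fun x => by positivity).trans (hK s ⟨hs0, hst.le.trans htT⟩)
  have hna : Pool.Agent.Helper52.NSE.nm Ω (u s) ≤ Real.sqrt K :=
    Real.sqrt_le_sqrt (hK s ⟨hs0, hst.le.trans htT⟩)
  set L : ℝ := C / (t₀ - s) with hL
  have hL0 : 0 ≤ L := by
    have hne : (volume.restrict Ω) ≠ 0 := by
      intro h0
      have h1 : 0 < volume Ω := hO.measure_pos volume hΩ.conn.nonempty
      rw [Measure.restrict_eq_zero] at h0
      exact h1.ne' h0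
    have : (ae (volume.restrict Ω)).NeBot := ae_neBot.2 hne
    obtain ⟨x, hx⟩ := hr.1.exists
    exact (norm_nonneg _).trans (hx 0)
  -- common part of the bounds
  have igs : IntervalIntegrable (fun τ => Real.sqrt (gradSq Ω (G τ))) volume s t₀ :=
    Pool.Agent.Helper52.NSE.ii_of
      (Pool.Agent.Helper52.NSE.sqrt_int h.gsq_int fun t => Pool.Agent.Helper52.NSE.gsq_nonneg Ω _)
      hs0 hst.le htT
  have ifn : IntervalIntegrable (fun τ => fn Ω f τ) volume s t₀ :=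
    Pool.Agent.Helper52.NSE.ii_of h.nmf_int hs0 hst.le htT
  set b : ℝ → ℝ := fun τ => ν * g0 * Real.sqrt (gradSq Ω (G τ)) + Real.sqrt K * fn Ω f τ with hb
  have ib : IntervalIntegrable b volume s t₀ := (igs.const_mul (ν * g0)).add (ifn.const_mul _)
  have ib1 : IntervalIntegrable b volume s q :=
    ib.mono_set (by rw [uIcc_of_le hsq.le, uIcc_of_le hst.le]; exact Icc_subset_Icc_right hq.le)
  have ib2 : IntervalIntegrable b volume q t₀ :=
    ib.mono_set (by rw [uIcc_of_le hq.le, uIcc_of_le hst.le]; exact Icc_subset_Icc_left hsq.le)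
  have g1 := (ae_restrict_iff' measurableSet_Icc).1 h.grad_mem
  have g2 := (ae_restrict_iff' measurableSet_Icc).1 h.force_mem
  have hcommon : ∀ᵐ τ ∂volume, τ ∈ Ioc s t₀ →
      ‖Pool.Agent.Helper7.NT.rhsE Ω ν (f τ) (u τ) (G τ) (u s) (G s)‖ ≤
        b τ + |Pool.Agent.Helper7.NT.Bf Ω (u τ) (G s) (u τ)| := by
    filter_upwards [g1, g2] with τ h1 h2 hτ
    have hτT : τ ∈ Icc 0 T := ⟨hs0.trans hτ.1.le, hτ.2.trans htT⟩
    have hmτ := h1 hτT
    have hf := (h2 hτT).memLp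
    have b2 : |(-ν) * Pool.Agent.Helper7.NT.gp Ω (G τ) (G s)| ≤
        ν * g0 * Real.sqrt (gradSq Ω (G τ)) := by
      rw [abs_mul, abs_neg, abs_of_pos hν]
      have h4 := Pool.Agent.Helper7.NT.gp_le hmτ.grad_memLp hA2
      refine (mul_le_mul_of_nonneg_left h4 hν.le).trans (le_of_eq ?_)
      rw [hg0]
      unfold gradSq Pool.Agent.Helper52.NSE.gsq
      ring
    have b3 : |∫ x in Ω, inner ℝ (f τ x) (u s x)| ≤ Real.sqrt K * fn Ω f τ := by
      refine (Pool.Agent.Helper52.NSE.cs hf ha2).trans ?_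
      have h4 := mul_le_mul_of_nonneg_left hna (Pool.Agent.Helper52.NSE.nm_nonneg Ω (f τ))
      refine h4.trans (le_of_eq ?_)
      rw [mul_comm]
      rfl
    unfold Pool.Agent.Helper7.NT.rhsE
    rw [Real.norm_eq_abs]
    refine (abs_add_le _ _).trans ((add_le_add ((abs_add_le _ _).trans (add_le_add b2 le_rfl))
      b3).trans (le_of_eq ?_))
    rw [hb]
    ring
  -- first interval
  have i1 := Pool.Agent.Helper7.NT.Ext_rhs_int hO hΩ.bdd h ha2 hA2 hs0 hsq.le hqT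
  have i2 := Pool.Agent.Helper7.NT.Ext_rhs_int hO hΩ.bdd h ha2 hA2 hq0 hq.le htT
  have iN : IntervalIntegrable N volume s q := by
    rw [intervalIntegrable_iff_integrableOn_Ioo_of_le hsq.le]
    exact hN
  have hneq : ∀ᵐ τ : ℝ ∂volume, τ ≠ q := by
    have := (countable_singleton q).ae_notMem (volume : Measure ℝ)
    filter_upwards [this] with τ hτ
    simpa using hτ
  have hb1 : ∀ᵐ τ ∂volume, τ ∈ Ioc s q →
      ‖Pool.Agent.Helper7.NT.rhsE Ω ν (f τ) (u τ) (G τ) (u s) (G s)‖ ≤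
        b τ + Real.sqrt K * g0 * N τ := by
    filter_upwards [hcommon, hneq] with τ h1 h2 hτ
    have hτ' : τ ∈ Ioo s q := ⟨hτ.1, lt_of_le_of_ne hτ.2 h2⟩
    have hτT : τ ∈ Icc 0 T := ⟨hs0.trans hτ.1.le, hτ.2.trans hqT⟩
    refine (h1 ⟨hτ.1, hτ.2.trans hq.le⟩).trans (add_le_add le_rfl ?_)
    have hu2 := (h.mem τ hτT).memLp
    have hN0 : 0 ≤ N τ := (norm_nonneg _).trans (hUN τ hτ' 0)
    have hub : ∀ᵐ x ∂(volume.restrict Ω), ‖u τ x‖ ≤ N τ := by
      filter_upwards [hU.rep τ ⟨hs.1.trans hτ'.1, hτ'.2⟩] with x hx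
      rw [← hx]
      exact hUN τ hτ' x
    have hnu : Pool.Agent.Helper52.NSE.nm Ω (u τ) ≤ Real.sqrt K :=
      Real.sqrt_le_sqrt (hK τ hτT)
    refine (G2a_Bf_le hN0 hu2 hA2 hub).trans ?_
    have h3 : N τ * Pool.Agent.Helper52.NSE.nm Ω (u τ) ≤ N τ * Real.sqrt K :=
      mul_le_mul_of_nonneg_left hnu hN0
    have h4 : N τ * Pool.Agent.Helper52.NSE.nm Ω (u τ) *
        Real.sqrt (Pool.Agent.Helper52.NSE.gsq Ω (G s)) ≤ N τ * Real.sqrt K * g0 :=
      mul_le_mul_of_nonneg_right h3 hg00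
    refine h4.trans (le_of_eq ?_)
    ring
  have hb2 : ∀ᵐ τ ∂volume, τ ∈ Ioc q t₀ →
      ‖Pool.Agent.Helper7.NT.rhsE Ω ν (f τ) (u τ) (G τ) (u s) (G s)‖ ≤
        b τ + 3 * L * K := by
    filter_upwards [hcommon] with τ h1 hτ
    have hτT : τ ∈ Icc 0 T := ⟨hq0.trans hτ.1.le, hτ.2.trans htT⟩
    refine (h1 ⟨hsq.trans hτ.1, hτ.2⟩).trans (add_le_add le_rfl ?_)
    exact G3a_Bf_le hL0 (h.mem τ hτT).memLp hr.1 (hK τ hτT)
  have hI1 := intervalIntegral.norm_integral_le_of_norm_le hsq.le hb1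
    (ib1.add (iN.const_mul (Real.sqrt K * g0)))
  have hI2 := intervalIntegral.norm_integral_le_of_norm_le hq.le hb2
    (ib2.add (intervalIntegrable_const (c := 3 * L * K)))
  rw [intervalIntegral.integral_add ib1 (iN.const_mul (Real.sqrt K * g0)),
    intervalIntegral.integral_const_mul, Real.norm_eq_abs] at hI1
  rw [intervalIntegral.integral_add ib2 intervalIntegrable_const,
    intervalIntegral.integral_const, Real.norm_eq_abs, smul_eq_mul] at hI2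
  have hNeq : ∫ τ in s..q, N τ = ∫ τ in Ioo s q, N τ := by
    rw [intervalIntegral.integral_of_le hsq.le, integral_Ioc_eq_integral_Ioo]
  rw [hNeq] at hI1
  have hsplit := intervalIntegral.integral_add_adjacent_intervals i1 i2
  have hbs := intervalIntegral.integral_add_adjacent_intervals ib1 ib2
  have hbi : ∫ τ in s..t₀, b τ = ν * g0 * (∫ τ in s..t₀, Real.sqrt (gradSq Ω (G τ))) +
      Real.sqrt K * ∫ τ in s..t₀, fn Ω f τ := by
    rw [hb, intervalIntegral.integral_add (igs.const_mul (ν * g0)) (ifn.const_mul _),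
      intervalIntegral.integral_const_mul, intervalIntegral.integral_const_mul]
  have hcs := Pool.Agent.Helper52.NSE.sqrt_cs h.gsq_int
    (fun t => Pool.Agent.Helper52.NSE.gsq_nonneg Ω _) hs0 hst htT
  have hcs' : ν * g0 * (∫ τ in s..t₀, Real.sqrt (gradSq Ω (G τ))) ≤
      ν * g0 * (Real.sqrt (t₀ - s) * Real.sqrt (∫ τ in s..t₀, gradSq Ω (G τ))) :=
    mul_le_mul_of_nonneg_left hcs (by positivity)
  have e1 := neg_abs_le (∫ τ in s..q,
    Pool.Agent.Helper7.NT.rhsE Ω ν (f τ) (u τ) (G τ) (u s) (G s))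
  have e2 := neg_abs_le (∫ τ in q..t₀,
    Pool.Agent.Helper7.NT.rhsE Ω ν (f τ) (u τ) (G τ) (u s) (G s))
  rw [← hsplit] at hweak
  have e3 : ν * g0 * (Real.sqrt (t₀ - s) * Real.sqrt (∫ τ in s..t₀, gradSq Ω (G τ))) =
      ν * g0 * Real.sqrt (t₀ - s) * Real.sqrt (∫ τ in s..t₀, gradSq Ω (G τ)) := by ring
  have e4 : (t₀ - q) * (3 * L * K) = 3 * L * K * (t₀ - q) := by ring
  rw [e3] at hcs'
  rw [e4] at hI2
  linarith

end Pool.Agent.Helper60.EC
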