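import Pool.Agent.Helper60.EC.G3a

/-! Project EC, G3b: concentration before a loss of energy -/

set_option autoImplicit false

open MeasureTheory Set Filter Topology
open scoped ENNReal ContDiff

noncomputable section

namespace Pool.Agent.Helper60.EC

open Pool.Agent.Helper52.NSE (E3 pd divg TestField IsSmoothBoundedDomain MemH1s MemL2s
  IsWeakSolution gradSq)

open Pool.Agent.Helper52.NSE in
theorem G3b_kin {Ω : Set E3} {a b : E3 → E3} (ha : MemLp a 2 (volume.restrict Ω))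
    (hb : MemLp b 2 (volume.restrict Ω)) :
    kin Ω a - kin Ω b ≤ (∫ x in Ω, ‖a x‖ ^ 2) - ∫ x in Ω, inner ℝ (b x) (a x) := by
  have h := kin_sub_le ha hb ha
  have h1 : nm Ω (fun x => a x - a x) ^ 2 / 2 = 0 := by
    rw [nm_sq]
    simp
  have h2 : (∫ x in Ω, inner ℝ (a x) (a x)) = ∫ x in Ω, ‖a x‖ ^ 2 := by
    refine integral_congr_ae (Eventually.of_forall fun x => ?_)
    exact real_inner_self_eq_norm_sq _
  rw [h1, h2, add_zero] at h
  exact h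

theorem G3b_int {t₀ b : ℝ} (hb : b < t₀) :
    IntegrableOn (fun τ => (t₀ - τ) ^ (-(3 / 5) : ℝ)) (Ioo b t₀) ∧
      ∫ τ in Ioo b t₀, (t₀ - τ) ^ (-(3 / 5) : ℝ) = 5 / 2 * (t₀ - b) ^ (2 / 5 : ℝ) := by
  constructor
  · have h1 := (intervalIntegral.intervalIntegrable_rpow' (a := t₀ - b) (b := 0)
      (r := (-(3 / 5) : ℝ)) (by norm_num)).comp_sub_left t₀
    simp only [sub_sub_cancel, sub_zero] at h1
    rw [intervalIntegrable_iff_integrableOn_Ioo_of_le hb.le] at h1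
    exact h1
  · have h2 : ∫ τ in Ioo b t₀, (t₀ - τ) ^ (-(3 / 5) : ℝ) =
        ∫ τ in b..t₀, (t₀ - τ) ^ (-(3 / 5) : ℝ) := by
      rw [intervalIntegral.integral_of_le hb.le, integral_Ioc_eq_integral_Ioo]
    rw [h2, intervalIntegral.integral_comp_sub_left (fun x => x ^ (-(3 / 5) : ℝ)) t₀, sub_self,
      integral_rpow (Or.inl (by norm_num))]
    norm_num
    ring

theorem G3b_fn_int {Ω : Set E3} {ν T : ℝ} {u₀ : E3 → E3} {f u : ℝ → E3 → E3}
    {G : ℝ → Fin 3 → E3 → E3} (h : IsWeakSolution Ω ν T u₀ f u G) :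
    IntegrableOn (fun τ => fn Ω f τ) (Icc 0 T) := h.nmf_int

theorem G3b_small {Ω : Set E3} {ν T : ℝ} {u₀ : E3 → E3} {f u : ℝ → E3 → E3}
    {G : ℝ → Fin 3 → E3 → E3} (h : IsWeakSolution Ω ν T u₀ f u G) {t₀ : ℝ} (ht₀ : t₀ ∈ Ioc 0 T)
    {ε : ℝ} (hε : 0 < ε) :
    ∃ δ : ℝ, 0 < δ ∧ ∀ s, 0 ≤ s → s < t₀ → t₀ - s < δ → ∫ τ in s..t₀, fn Ω f τ < ε := by
  have hT : 0 ≤ T := ht₀.1.le.trans ht₀.2
  have c1 : ContinuousOn (fun t => ∫ τ in (0)..t, fn Ω f τ) (Icc 0 T) := by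
    have := intervalIntegral.continuousOn_primitive_interval (μ := volume)
      (f := fun τ => fn Ω f τ) (a := 0) (b := T)
      (by rw [uIcc_of_le hT]; exact G3b_fn_int h)
    rwa [uIcc_of_le hT] at this
  obtain ⟨δ, hδ, hc⟩ := Metric.continuousWithinAt_iff.mp (c1 t₀ ⟨ht₀.1.le, ht₀.2⟩) ε hε
  refine ⟨δ, hδ, fun s hs0 hs hd => ?_⟩
  have h3 := hc (x := s) ⟨hs0, hs.le.trans ht₀.2⟩ (by
    rw [Real.dist_eq, abs_lt]
    constructor <;> linarith)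
  rw [Real.dist_eq] at h3
  have h4 := intervalIntegral.integral_add_adjacent_intervals
    (Pool.Agent.Helper52.NSE.ii_of (G3b_fn_int h) le_rfl hs0 (hs.le.trans ht₀.2))
    (Pool.Agent.Helper52.NSE.ii_of (G3b_fn_int h) hs0 hs.le ht₀.2)
  have h5 := (abs_lt.mp h3).1
  linarith

theorem G3b_pow {c ε : ℝ} (hε : 0 < ε) :
    ∃ δ : ℝ, 0 < δ ∧ ∀ d, 0 < d → d < δ → c * d ^ (1 / 10 : ℝ) < ε := by
  have h1 : ContinuousAt (fun d : ℝ => c * d ^ (1 / 10 : ℝ)) 0 :=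
    continuousAt_const.mul (continuousAt_id.rpow_const (Or.inr (by norm_num)))
  obtain ⟨δ, hδ, h2⟩ := Metric.continuousAt_iff.1 h1 ε hε
  refine ⟨δ, hδ, fun d hd hd' => ?_⟩
  have h3 := h2 (x := d) (by rw [Real.dist_eq, sub_zero, abs_of_pos hd]; exact hd')
  rw [Real.dist_eq, Real.zero_rpow (by norm_num), mul_zero, sub_zero] at h3
  exact (abs_lt.1 h3).2

open Pool.Agent.Helper7.NT in
theorem conc {Ω : Set E3} {ν T : ℝ} {u₀ : E3 → E3} {f u : ℝ → E3 → E3}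
    {G : ℝ → Fin 3 → E3 → E3} (hΩ : IsSmoothBoundedDomain Ω) (hν : 0 < ν)
    (h : IsWeakSolution Ω ν T u₀ f u G) {t₀ : ℝ} (ht₀ : t₀ ∈ Ioc 0 T)
    (hloss : ¬ NoLoss Ω u t₀) (hcr : CriticalRate Ω G t₀) :
    ∃ C c : ℝ, 0 < C ∧ 0 < c ∧ ∀ N η : ℝ, 0 < η → ∃ (p q σ : ℝ) (x : E3) (U : ℝ → E3 → E3),
      0 ≤ p ∧ q < t₀ ∧ Win Ω t₀ f u G C p q U ∧ σ ∈ Ioo p q ∧ t₀ - p < η ∧
      N * (t₀ - σ) ≤ t₀ - p ∧ N * (t₀ - q) ≤ t₀ - σ ∧ c * (t₀ - σ) ^ (-(3 / 5) : ℝ) ≤ ‖U σ x‖ := by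
  obtain ⟨η₀, δ₀, hη₀, hδ₀, hno⟩ : ∃ η₀ δ₀ : ℝ, 0 < η₀ ∧ 0 < δ₀ ∧ ∀ s ∈ Ioo (t₀ - δ₀) t₀, 0 ≤ s →
      Pool.Agent.Helper52.NSE.kin Ω (u t₀) + η₀ < Pool.Agent.Helper52.NSE.kin Ω (u s) := by
    unfold NoLoss at hloss
    push Not at hloss
    exact hloss
  obtain ⟨C₀, hC₀⟩ := hcr
  obtain ⟨K₀, hK₀⟩ := h.bound
  obtain ⟨K, hKdef⟩ : ∃ K, K = |K₀| + 1 := ⟨_, rfl⟩
  have hKpos : 0 < K := by rw [hKdef]; positivity
  have hK : ∀ t ∈ Icc 0 T, ∫ x in Ω, ‖u t x‖ ^ 2 ≤ K := fun t ht => by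
    rw [hKdef]
    linarith [hK₀ t ht, le_abs_self K₀]
  obtain ⟨C', hC', hwin⟩ := exists_win hΩ hν h ht₀ C₀
  obtain ⟨A, hA, hsup⟩ := sup_generic C' C'
  have hsK : 0 < Real.sqrt K := Real.sqrt_pos.2 hKpos
  have hsC : 0 ≤ Real.sqrt |C₀| := Real.sqrt_nonneg _
  obtain ⟨B, hBdef⟩ : ∃ B, B = Real.sqrt K * Real.sqrt |C₀| * (5 / 2) + 1 := ⟨_, rfl⟩
  have hB : 0 < B := by rw [hBdef]; positivity
  obtain ⟨c, hcdef⟩ : ∃ c, c = η₀ / (8 * B) := ⟨_, rfl⟩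
  have hc : 0 < c := by rw [hcdef]; positivity
  obtain ⟨lam, hlamdef⟩ : ∃ lam, lam = (η₀ / (8 * B * A)) ^ (5 / 2 : ℝ) := ⟨_, rfl⟩
  have hlam : 0 < lam := by rw [hlamdef]; positivity
  have hlam2 : lam ^ (2 / 5 : ℝ) = η₀ / (8 * B * A) := by
    rw [hlamdef, ← Real.rpow_mul (by positivity)]
    norm_num
  obtain ⟨J, hJdef⟩ : ∃ J, J = ∫ τ in (0)..T, gradSq Ω (G τ) := ⟨_, rfl⟩
  refine ⟨C', c, hC', hc, ?_⟩
  intro N η hη
  by_contra hcon
  push Not at hcon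
  obtain ⟨m, hmdef⟩ : ∃ m, m = max 1 (max (|N| / lam) (24 * |C₀| * K / η₀)) := ⟨_, rfl⟩
  have hm1 : 1 ≤ m := by rw [hmdef]; exact le_max_left _ _
  have hm2 : |N| ≤ lam * m := by
    have : |N| / lam ≤ m := by
      rw [hmdef]; exact (le_max_left _ _).trans (le_max_right _ _)
    rw [div_le_iff₀ hlam] at this
    linarith
  have hm3 : 24 * |C₀| * K ≤ m * η₀ := by
    have : 24 * |C₀| * K / η₀ ≤ m := by
      rw [hmdef]; exact (le_max_right _ _).trans (le_max_right _ _)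
    rwa [div_le_iff₀ hη₀] at this
  have hm0 : 0 < m := by linarith
  obtain ⟨M, hMdef⟩ : ∃ M, M = 2 * m * (|N| + 1) := ⟨_, rfl⟩
  have hN0 : 0 ≤ |N| := abs_nonneg N
  have hNm : 0 ≤ |N| * (2 * m) := mul_nonneg hN0 (by linarith)
  have hMe : M = |N| * (2 * m) + 2 * m := by rw [hMdef]; ring
  have hM1 : 2 * m ≤ M := by rw [hMe]; exact le_add_of_nonneg_left hNm
  have hM2 : |N| * (2 * m) ≤ M := by rw [hMe]; exact le_add_of_nonneg_right (by linarith only [hm0])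
  have hM0 : 0 < M := by linarith
  obtain ⟨δ₁, hδ₁, hsm1⟩ := G3b_small h ht₀ (ε := η₀ / (8 * Real.sqrt K)) (by positivity)
  obtain ⟨δ₂, hδ₂, hsm2⟩ := G3b_pow (c := ν * Real.sqrt |C₀| * Real.sqrt J) (ε := η₀ / 8)
    (by positivity)
  obtain ⟨δ, hδ, hd0, hdt, hdη, hd1, hd2⟩ : ∃ δ : ℝ, 0 < δ ∧ δ ≤ δ₀ ∧ δ ≤ t₀ ∧ δ ≤ η ∧ δ ≤ δ₁ ∧
      δ ≤ δ₂ := by
    refine ⟨min (min δ₀ t₀) (min η (min δ₁ δ₂)), ?_, ?_, ?_, ?_, ?_, ?_⟩
    · exact lt_min (lt_min hδ₀ ht₀.1) (lt_min hη (lt_min hδ₁ hδ₂))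
    · exact (min_le_left _ _).trans (min_le_left _ _)
    · exact (min_le_left _ _).trans (min_le_right _ _)
    · exact (min_le_right _ _).trans (min_le_left _ _)
    · exact (min_le_right _ _).trans ((min_le_right _ _).trans (min_le_left _ _))
    · exact (min_le_right _ _).trans ((min_le_right _ _).trans (min_le_right _ _))
  obtain ⟨τ, hτ, hτ1, hrate⟩ := hC₀ M (δ / M) (by positivity)
  have hMτ : M * τ < δ := by
    rw [lt_div_iff₀ hM0] at hτ1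
    linarith
  have h2mτ : 2 * m * τ ≤ M * τ := mul_le_mul_of_nonneg_right hM1 hτ.le
  have hmτ : 1 * τ ≤ m * τ := mul_le_mul_of_nonneg_right hm1 hτ.le
  have hmτ0 : 0 < m * τ := by positivity
  have hp : 0 ≤ t₀ - M * τ := by linarith
  have hpq : t₀ - M * τ < t₀ - τ := by linarith
  have hq : t₀ - τ < t₀ := by linarith
  have hrate' : ∀ᵐ s ∂(volume.restrict (Ioo (t₀ - M * τ) (t₀ - τ))), RateAt Ω G t₀ C₀ s := by
    filter_upwards [hrate, ae_restrict_mem measurableSet_Ioo] with s h1 h2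
    exact h1 (hp.trans h2.1.le)
  obtain ⟨U, hU⟩ := hwin _ _ hp hpq hq hrate'
  -- a generic time
  obtain ⟨s, hs1, hs2, hs3⟩ : ∃ s, s ∈ Ioo (t₀ - 2 * m * τ) (t₀ - m * τ) ∧
      MemH1s Ω (u s) (G s) ∧ RateAt Ω G t₀ C₀ s := by
    have hne : (ae (volume.restrict (Ioo (t₀ - 2 * m * τ) (t₀ - m * τ)))).NeBot := by
      rw [ae_restrict_neBot, Real.volume_Ioo]
      simp only [ne_eq, ENNReal.ofReal_eq_zero, not_le]
      linarith
    have e1 : ∀ᵐ s ∂(volume.restrict (Ioo (t₀ - 2 * m * τ) (t₀ - m * τ))),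
        RateAt Ω G t₀ C₀ s :=
      ae_restrict_of_ae_restrict_of_subset
        (show Ioo (t₀ - 2 * m * τ) (t₀ - m * τ) ⊆ Ioo (t₀ - M * τ) (t₀ - τ) from
          fun x hx => ⟨by linarith [hx.1], by linarith [hx.2]⟩) hrate'
    have e2 : ∀ᵐ s ∂(volume.restrict (Ioo (t₀ - 2 * m * τ) (t₀ - m * τ))),
        MemH1s Ω (u s) (G s) :=
      ae_restrict_of_ae_restrict_of_subset
        (show Ioo (t₀ - 2 * m * τ) (t₀ - m * τ) ⊆ Icc 0 T from
          fun x hx => ⟨by linarith [hx.1], by linarith [hx.2, ht₀.2]⟩) h.grad_mem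
    have e3 := ae_restrict_mem (μ := (volume : Measure ℝ))
      (measurableSet_Ioo (a := t₀ - 2 * m * τ) (b := t₀ - m * τ))
    obtain ⟨s, ha, hb, hc'⟩ := (e3.and (e2.and e1)).exists
    exact ⟨s, ha, hb, hc'⟩
  obtain ⟨d, hddef⟩ : ∃ d, d = t₀ - s := ⟨_, rfl⟩
  have hdm : m * τ < d := by rw [hddef]; linarith [hs1.2]
  have hd2m : d < 2 * m * τ := by rw [hddef]; linarith [hs1.1]
  have hdpos : 0 < d := by linarith
  have hst : s < t₀ := by linarith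
  have hs0 : 0 ≤ s := by linarith
  have hspq : s ∈ Ioo (t₀ - M * τ) (t₀ - τ) := ⟨by linarith, by linarith⟩
  have hdδ : d < δ := by linarith
  have hsq : s < t₀ - τ := hspq.2
  -- the comparison function
  obtain ⟨g, hgdef⟩ : ∃ g : ℝ → ℝ, g = fun σ => (t₀ - σ) ^ (-(3 / 5) : ℝ) := ⟨_, rfl⟩
  have hg0 : ∀ σ, σ < t₀ → 0 ≤ g σ := fun σ hσ => by
    rw [hgdef]
    exact Real.rpow_nonneg (by linarith) _
  obtain ⟨a, hadef⟩ : ∃ a, a = t₀ - lam * d := ⟨_, rfl⟩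
  have hat : a < t₀ := by
    rw [hadef]
    have : 0 < lam * d := by positivity
    linarith
  have hgs : IntegrableOn g (Ioo s t₀) ∧ ∫ σ in Ioo s t₀, g σ = 5 / 2 * d ^ (2 / 5 : ℝ) := by
    rw [hgdef, hddef]
    exact G3b_int hst
  have hga : IntegrableOn g (Ioo a t₀) ∧
      ∫ σ in Ioo a t₀, g σ = 5 / 2 * (lam ^ (2 / 5 : ℝ) * d ^ (2 / 5 : ℝ)) := by
    have := G3b_int hat
    rw [hadef] at this ⊢
    rw [sub_sub_cancel, Real.mul_rpow hlam.le hdpos.le] at this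
    rw [hgdef]
    exact this
  have hsub : Ioo s (t₀ - τ) ⊆ Ioo s t₀ := Ioo_subset_Ioo_right hq.le
  have hI1 : IntegrableOn (fun σ => c * g σ) (Ioo s t₀) := hgs.1.const_mul c
  have hI2 : IntegrableOn ((Ioi a).indicator fun σ => A * g σ) (Ioo s t₀) :=
    (hgs.1.const_mul A).indicator measurableSet_Ioi
  obtain ⟨F, hFdef⟩ : ∃ F : ℝ → ℝ, F = fun σ => c * g σ + (Ioi a).indicator (fun σ => A * g σ) σ :=
    ⟨_, rfl⟩
  have hFi : IntegrableOn F (Ioo s t₀) := by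
    rw [hFdef]
    exact hI1.add hI2
  have hind0 : ∀ σ, σ < t₀ → 0 ≤ (Ioi a).indicator (fun σ => A * g σ) σ := fun σ hσ => by
    by_cases hσa : σ ∈ Ioi a
    · rw [indicator_of_mem hσa]
      exact mul_nonneg hA.le (hg0 σ hσ)
    · rw [indicator_of_notMem hσa]
  have hF0 : ∀ σ, σ < t₀ → 0 ≤ F σ := fun σ hσ => by
    rw [hFdef]
    exact add_nonneg (mul_nonneg hc.le (hg0 σ hσ)) (hind0 σ hσ)
  have hFint : ∫ σ in Ioo s (t₀ - τ), F σ ≤
      c * (5 / 2 * d ^ (2 / 5 : ℝ)) + A * (5 / 2 * (lam ^ (2 / 5 : ℝ) * d ^ (2 / 5 : ℝ))) := by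
    have e1 : ∫ σ in Ioo s (t₀ - τ), F σ ≤ ∫ σ in Ioo s t₀, F σ := by
      refine setIntegral_mono_set hFi ?_ hsub.eventuallyLE
      filter_upwards [ae_restrict_mem measurableSet_Ioo] with σ hσ
      exact hF0 σ hσ.2
    have e2 : ∫ σ in Ioo s t₀, F σ = (∫ σ in Ioo s t₀, c * g σ) +
        ∫ σ in Ioo s t₀, (Ioi a).indicator (fun σ => A * g σ) σ := by
      rw [hFdef]
      exact integral_add hI1 hI2
    have e3 : ∫ σ in Ioo s t₀, c * g σ = c * (5 / 2 * d ^ (2 / 5 : ℝ)) := by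
      rw [integral_const_mul, hgs.2]
    have e4 : ∫ σ in Ioo s t₀, (Ioi a).indicator (fun σ => A * g σ) σ ≤
        A * (5 / 2 * (lam ^ (2 / 5 : ℝ) * d ^ (2 / 5 : ℝ))) := by
      rw [setIntegral_indicator measurableSet_Ioi, ← hga.2, ← integral_const_mul]
      refine setIntegral_mono_set (hga.1.const_mul A) ?_ ?_
      · filter_upwards [ae_restrict_mem measurableSet_Ioo] with σ hσ
        exact mul_nonneg hA.le (hg0 σ hσ.2)
      · refine LE.le.eventuallyLE ?_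
        intro σ hσ
        exact ⟨hσ.2, hσ.1.2⟩
    rw [e2, e3] at e1
    linarith
  -- the supremum bounds
  have hUF : ∀ σ ∈ Ioo s (t₀ - τ), ∀ x, ‖U σ x‖ ≤ F σ := by
    intro σ hσ x
    have hσt : σ < t₀ := by linarith [hσ.2]
    have hσpq : σ ∈ Ioo (t₀ - M * τ) (t₀ - τ) := ⟨hspq.1.trans hσ.1, hσ.2⟩
    by_cases hσa : σ ∈ Ioi a
    · have h1 := hsup (U σ) t₀ σ hσt (hU.lip σ hσpq) (hU.l2 σ hσpq) (hU.energy σ hσpq) x
      rw [hFdef]
      show _ ≤ c * g σ + _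
      rw [indicator_of_mem hσa]
      have h2 : g σ = (t₀ - σ) ^ (-(3 / 5) : ℝ) := by rw [hgdef]
      rw [← h2] at h1
      have h3 := mul_nonneg hc.le (hg0 σ hσt)
      linarith
    · have hσa' : σ ≤ a := not_lt.1 hσa
      have h1 := hcon (t₀ - M * τ) (t₀ - τ) σ x U hp hq hU hσpq (by linarith) ?_ ?_
      · rw [hFdef]
        show _ ≤ c * g σ + _
        rw [indicator_of_notMem hσa, add_zero, hgdef]
        exact h1.le
      · have e1 : N * (t₀ - σ) ≤ |N| * (t₀ - σ) :=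
          mul_le_mul_of_nonneg_right (le_abs_self N) (by linarith)
        have e2 : |N| * (t₀ - σ) ≤ |N| * (2 * m * τ) :=
          mul_le_mul_of_nonneg_left (by linarith [hσ.1]) hN0
        have e3 : |N| * (2 * m) * τ ≤ M * τ := mul_le_mul_of_nonneg_right hM2 hτ.le
        have e4 : |N| * (2 * m * τ) = |N| * (2 * m) * τ := by ring
        have e5 : t₀ - (t₀ - M * τ) = M * τ := by ring
        rw [e5]
        linarith only [e1, e2, e3, e4]
      · have e1 : N * τ ≤ |N| * τ := mul_le_mul_of_nonneg_right (le_abs_self N) hτ.le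
        have e2 : |N| * τ ≤ lam * m * τ := mul_le_mul_of_nonneg_right hm2 hτ.le
        have e3 : lam * (m * τ) ≤ lam * d := mul_le_mul_of_nonneg_left hdm.le hlam.le
        rw [sub_sub_cancel]
        rw [hadef] at hσa'
        have e4 : lam * m * τ = lam * (m * τ) := by ring
        linarith only [e1, e2, e3, e4, hσa']
  have hdrop := drop_ineq hΩ hν h ht₀ hK hp hq hU hspq hs2 hs3 (hFi.mono_set hsub) hUF
  -- lower bound
  have hlow : η₀ < (∫ x in Ω, ‖u s x‖ ^ 2) - ∫ x in Ω, inner ℝ (u t₀ x) (u s x) := by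
    have e1 := hno s ⟨by linarith, hst⟩ hs0
    have e2 := G3b_kin (h.mem s ⟨hs0, by linarith [ht₀.2]⟩).memLp
      (h.mem t₀ ⟨ht₀.1.le, ht₀.2⟩).memLp
    linarith
  -- the gradient
  obtain ⟨X, hXdef⟩ : ∃ X, X = Real.sqrt (gradSq Ω (G s)) := ⟨_, rfl⟩
  have hX0 : 0 ≤ X := by rw [hXdef]; exact Real.sqrt_nonneg _
  obtain ⟨Q, hQdef⟩ : ∃ Q, Q = d ^ (-(2 / 5) : ℝ) := ⟨_, rfl⟩
  have hQ0 : 0 < Q := by rw [hQdef]; exact Real.rpow_pos_of_pos hdpos _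
  obtain ⟨P, hPdef⟩ : ∃ P, P = d ^ (2 / 5 : ℝ) := ⟨_, rfl⟩
  have hP0 : 0 < P := by rw [hPdef]; exact Real.rpow_pos_of_pos hdpos _
  have hPQ : Q * P = 1 := by
    rw [hQdef, hPdef, ← Real.rpow_add hdpos]
    norm_num
  have hX : X ≤ Real.sqrt |C₀| * Q := by
    rw [hXdef]
    refine Real.sqrt_le_iff.2 ⟨by positivity, ?_⟩
    have e1 := hs3.2
    rw [← hddef] at e1
    have e2 : Q ^ 2 = d ^ (-(4 / 5) : ℝ) := by
      rw [hQdef, ← Real.rpow_natCast, ← Real.rpow_mul hdpos.le]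
      norm_num
    rw [mul_pow, Real.sq_sqrt (abs_nonneg _), e2]
    exact e1.trans (mul_le_mul_of_nonneg_right (le_abs_self _) (Real.rpow_nonneg hdpos.le _))
  rw [← hXdef, ← hddef] at hdrop
  -- first term
  have hFnn : 0 ≤ ∫ σ in Ioo s (t₀ - τ), F σ := by
    refine setIntegral_nonneg measurableSet_Ioo fun σ hσ => hF0 σ (by linarith [hσ.2])
  have t1 : Real.sqrt K * X * (∫ σ in Ioo s (t₀ - τ), F σ) ≤ η₀ / 4 := by
    rw [← hPdef, hlam2] at hFint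
    have e1 : Real.sqrt K * X ≤ Real.sqrt K * (Real.sqrt |C₀| * Q) :=
      mul_le_mul_of_nonneg_left hX hsK.le
    have e2 : Real.sqrt K * X * (∫ σ in Ioo s (t₀ - τ), F σ) ≤
        Real.sqrt K * (Real.sqrt |C₀| * Q) * (c * (5 / 2 * P) +
          A * (5 / 2 * (η₀ / (8 * B * A) * P))) :=
      mul_le_mul e1 hFint hFnn (by positivity)
    have e3 : Real.sqrt K * (Real.sqrt |C₀| * Q) * (c * (5 / 2 * P) +
          A * (5 / 2 * (η₀ / (8 * B * A) * P))) =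
        (Real.sqrt K * Real.sqrt |C₀| * (5 / 2)) * (c + A * (η₀ / (8 * B * A))) * (Q * P) := by
      ring
    have e4 : A * (η₀ / (8 * B * A)) = η₀ / (8 * B) := by
      field_simp
    rw [e3, hPQ, mul_one, e4, hcdef] at e2
    have e5 : Real.sqrt K * Real.sqrt |C₀| * (5 / 2) * (η₀ / (8 * B) + η₀ / (8 * B)) ≤
        B * (η₀ / (8 * B) + η₀ / (8 * B)) := by
      refine mul_le_mul_of_nonneg_right ?_ (by positivity)
      rw [hBdef]
      linarith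
    have e6 : B * (η₀ / (8 * B) + η₀ / (8 * B)) = η₀ / 4 := by
      field_simp
      norm_num
    linarith
  -- second term
  have t2 : 3 * (C₀ / d) * K * (t₀ - (t₀ - τ)) ≤ η₀ / 8 := by
    rw [sub_sub_cancel]
    have e1 : 3 * (C₀ / d) * K * τ ≤ 3 * |C₀| * K * τ / d := by
      have : 3 * (C₀ / d) * K * τ = 3 * C₀ * K * τ / d := by ring
      rw [this]
      refine div_le_div_of_nonneg_right ?_ hdpos.le
      have e0 : 0 ≤ 3 * (K * τ) := by positivity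
      have e1 : C₀ * (3 * (K * τ)) ≤ |C₀| * (3 * (K * τ)) :=
        mul_le_mul_of_nonneg_right (le_abs_self C₀) e0
      linarith only [e1]
    refine e1.trans ?_
    rw [div_le_iff₀ hdpos]
    have e2 : 24 * |C₀| * K * τ ≤ m * η₀ * τ := mul_le_mul_of_nonneg_right hm3 hτ.le
    have e3 : η₀ * (m * τ) ≤ η₀ * d := mul_le_mul_of_nonneg_left hdm.le hη₀.le
    linarith only [e2, e3]
  -- third term
  have t3 : ν * X * Real.sqrt d * Real.sqrt (∫ σ in s..t₀, gradSq Ω (G σ)) < η₀ / 8 := by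
    have e1 : ∫ σ in s..t₀, gradSq Ω (G σ) ≤ J := by
      rw [hJdef]
      have hT : 0 ≤ T := ht₀.1.le.trans ht₀.2
      have gi : IntegrableOn (fun σ => gradSq Ω (G σ)) (Icc 0 T) := h.grad_int
      have g0 : ∀ σ, 0 ≤ gradSq Ω (G σ) := fun σ =>
        integral_nonneg fun x => Finset.sum_nonneg fun i _ => by positivity
      exact intervalIntegral.integral_mono_interval hs0 hst.le ht₀.2
        (Eventually.of_forall g0) (Pool.Agent.Helper52.NSE.ii_of gi le_rfl hT le_rfl)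
    have e2 : Real.sqrt (∫ σ in s..t₀, gradSq Ω (G σ)) ≤ Real.sqrt J := Real.sqrt_le_sqrt e1
    have e3 : ν * X * Real.sqrt d ≤ ν * (Real.sqrt |C₀| * Q) * Real.sqrt d :=
      mul_le_mul_of_nonneg_right (mul_le_mul_of_nonneg_left hX hν.le) (Real.sqrt_nonneg _)
    have e4 : Q * Real.sqrt d = d ^ (1 / 10 : ℝ) := by
      rw [hQdef, Real.sqrt_eq_rpow, ← Real.rpow_add hdpos]
      norm_num
    have e5 : ν * X * Real.sqrt d * Real.sqrt (∫ σ in s..t₀, gradSq Ω (G σ)) ≤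
        ν * (Real.sqrt |C₀| * Q) * Real.sqrt d * Real.sqrt J :=
      mul_le_mul e3 e2 (Real.sqrt_nonneg _) (by positivity)
    have e6 : ν * (Real.sqrt |C₀| * Q) * Real.sqrt d * Real.sqrt J =
        ν * Real.sqrt |C₀| * Real.sqrt J * (Q * Real.sqrt d) := by ring
    rw [e6, e4] at e5
    exact e5.trans_lt (hsm2 d hdpos (by linarith))
  -- fourth term
  have t4 : Real.sqrt K * ∫ σ in s..t₀, fn Ω f σ < η₀ / 8 := by
    have e1 := hsm1 s hs0 hst (by linarith)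
    have e2 := mul_lt_mul_of_pos_left e1 hsK
    have e3 : Real.sqrt K * (η₀ / (8 * Real.sqrt K)) = η₀ / 8 := by
      field_simp
    linarith
  linarith

end Pool.Agent.Helper60.EC
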