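import Pool.Agent.Helper60.EC.GDefs
import Pool.Agent.Helper60.EC.Calc2

/-! Project EC, G4a: rescaling of one window -/

set_option autoImplicit false

open MeasureTheory Set Filter Topology
open scoped ENNReal ContDiff

noncomputable section

namespace Pool.Agent.Helper60.EC

open Pool.Agent.Helper52.NSE (E3 pd divg TestField IsSmoothBoundedDomain MemH1s MemL2s
  IsWeakSolution gradSq)

/-- change of variables -/
theorem G4a_cov (f : E3 → ℝ) (x₀ : E3) {r : ℝ} (hr : 0 < r) :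
    ∫ y, f (x₀ + r • y) = (r ^ 3)⁻¹ * ∫ x, f x := by
  have h1 := Measure.integral_comp_smul (volume : Measure E3) (fun z => f (x₀ + z)) r
  rw [h1, integral_add_left_eq_self f x₀]
  rw [finrank_euclideanSpace, Fintype.card_fin, abs_of_pos (by positivity), smul_eq_mul]

theorem G4a_cov' (f : E3 → ℝ) (x₀ : E3) {r : ℝ} (hr : 0 < r) :
    ∫ x, f (r⁻¹ • (x - x₀)) = r ^ 3 * ∫ x, f x := by
  have h := G4a_cov (fun x => f (r⁻¹ • (x - x₀))) x₀ hr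
  have h2 : ∀ y : E3, r⁻¹ • (x₀ + r • y - x₀) = y := by
    intro y
    rw [add_sub_cancel_left, smul_smul, inv_mul_cancel₀ hr.ne', one_smul]
  simp only [h2] at h
  rw [h]
  field_simp

theorem G4a_inv (x₀ : E3) {r : ℝ} (hr : 0 < r) (y : E3) : r⁻¹ • (x₀ + r • y - x₀) = y := by
  rw [add_sub_cancel_left, smul_smul, inv_mul_cancel₀ hr.ne', one_smul]

section
variable {F : Type} [NormedAddCommGroup F] [InnerProductSpace ℝ F]

theorem G4a_hasFDeriv {φ : E3 → F} (hφ : ContDiff ℝ ∞ φ) (x₀ : E3) (r : ℝ) (c : ℝ) (x : E3) :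
    HasFDerivAt (fun x => c • φ (r⁻¹ • (x - x₀)))
      (c • ((fderiv ℝ φ (r⁻¹ • (x - x₀))).comp (r⁻¹ • ContinuousLinearMap.id ℝ E3))) x := by
  have h1 : HasFDerivAt (fun x : E3 => r⁻¹ • (x - x₀)) (r⁻¹ • ContinuousLinearMap.id ℝ E3) x :=
    ((hasFDerivAt_id x).sub_const x₀).const_smul r⁻¹
  have h2 : HasFDerivAt φ (fderiv ℝ φ (r⁻¹ • (x - x₀))) (r⁻¹ • (x - x₀)) :=
    ((hφ.differentiable (by simp)) _).hasFDerivAt
  exact (h2.comp x h1).const_smul c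

theorem G4a_D {φ : E3 → F} (hφ : ContDiff ℝ ∞ φ) (x₀ : E3) (r : ℝ) (c : ℝ) (i : Fin 3) (x : E3) :
    D i (fun x => c • φ (r⁻¹ • (x - x₀))) x = (c * r⁻¹) • D i φ (r⁻¹ • (x - x₀)) := by
  unfold D
  rw [(G4a_hasFDeriv hφ x₀ r c x).fderiv]
  simp [smul_smul]

theorem G4a_smooth {φ : E3 → F} (hφ : ContDiff ℝ ∞ φ) (x₀ : E3) (r : ℝ) (c : ℝ) :
    ContDiff ℝ ∞ (fun x => c • φ (r⁻¹ • (x - x₀))) :=
  (hφ.comp ((contDiff_id.sub contDiff_const).const_smul r⁻¹)).const_smul c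

/-- the homeomorphism `x ↦ r⁻¹ (x - x₀)` -/
def G4a_homeo (x₀ : E3) (r : ℝ) (hr : 0 < r) : E3 ≃ₜ E3 :=
  (Homeomorph.subRight x₀).trans (Homeomorph.smulOfNeZero r⁻¹ (inv_ne_zero hr.ne'))

theorem G4a_comp {φ : E3 → F} (hφ : HasCompactSupport φ) (x₀ : E3) {r : ℝ} (hr : 0 < r) (c : ℝ) :
    HasCompactSupport (fun x => c • φ (r⁻¹ • (x - x₀))) := by
  have h1 : HasCompactSupport (φ ∘ (G4a_homeo x₀ r hr)) := hφ.comp_homeomorph _
  exact h1.comp_left (g := fun z : F => c • z) (smul_zero c)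

theorem G4a_tsupport {φ : E3 → F} (x₀ : E3) {r : ℝ} (hr : 0 < r) (c : ℝ) :
    tsupport (fun x => c • φ (r⁻¹ • (x - x₀))) ⊆ {x | r⁻¹ • (x - x₀) ∈ tsupport φ} := by
  apply closure_minimal
  · intro x hx
    apply subset_tsupport
    intro h0
    apply hx
    simp only
    rw [h0, smul_zero]
  · exact (isClosed_tsupport φ).preimage (by fun_prop)

end

theorem G4a_rpow1 {r : ℝ} (hr : 0 < r) : r ^ (3 / 2 : ℝ) * r ^ (3 / 2 : ℝ) = r ^ 3 := by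
  rw [← Real.rpow_add hr, ← Real.rpow_natCast]
  norm_num

theorem G4a_rpow2 {r : ℝ} (hr : 0 < r) : r ^ (-(3 / 2) : ℝ) * r ^ (-(3 / 2) : ℝ) = (r ^ 3)⁻¹ := by
  rw [← Real.rpow_add hr, ← Real.rpow_natCast, ← Real.rpow_neg hr.le]
  norm_num

theorem G4a_rpow3 {r : ℝ} (hr : 0 < r) : (r ^ 3)⁻¹ * r ^ (3 / 2 : ℝ) = r ^ (-(3 / 2) : ℝ) := by
  rw [← Real.rpow_natCast, ← Real.rpow_neg hr.le, ← Real.rpow_add hr]
  norm_num

theorem G4a_rpow4 {r : ℝ} (hr : 0 < r) : r ^ (-(3 / 2) : ℝ) * r⁻¹ = r ^ (-(5 / 2) : ℝ) := by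
  rw [← Real.rpow_neg_one, ← Real.rpow_add hr]
  norm_num

theorem G4a_rpow5 {r : ℝ} (hr : 0 < r) : r ^ (5 / 2 : ℝ) * r ^ (-(5 / 2) : ℝ) = 1 := by
  rw [← Real.rpow_add hr]
  norm_num

theorem G4a_rpow6 {r : ℝ} (hr : 0 < r) :
    r ^ (-(5 / 2) : ℝ) * r ^ (-(5 / 2) : ℝ) * r ^ 3 = r⁻¹ ^ 2 := by
  rw [← Real.rpow_add hr, ← Real.rpow_natCast r 3, ← Real.rpow_add hr, inv_pow,
    ← Real.rpow_natCast r 2, ← Real.rpow_neg hr.le]
  norm_num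

/-- scaling of norms and of the nonlinear form -/
theorem scale_norms {w φ : E3 → E3} (x₀ : E3) {r : ℝ} (hr : 0 < r) (hw : MemLp w 2 volume)
    (hφ : Cc φ) :
    sq (fun y => r ^ (3 / 2 : ℝ) • w (x₀ + r • y)) = sq w ∧
    ip (fun y => r ^ (3 / 2 : ℝ) • w (x₀ + r • y)) φ =
      ip w (fun x => r ^ (-(3 / 2) : ℝ) • φ (r⁻¹ • (x - x₀))) ∧
    nl φ (fun y => r ^ (3 / 2 : ℝ) • w (x₀ + r • y)) =
      r ^ (5 / 2 : ℝ) * nl (fun x => r ^ (-(3 / 2) : ℝ) • φ (r⁻¹ • (x - x₀))) w ∧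
    sq (fun x => r ^ (-(3 / 2) : ℝ) • φ (r⁻¹ • (x - x₀))) = sq φ ∧
    gsq (fun x => r ^ (-(3 / 2) : ℝ) • φ (r⁻¹ • (x - x₀))) = r⁻¹ ^ 2 * gsq φ ∧
    ∀ i x, ‖D i (fun x => r ^ (-(3 / 2) : ℝ) • φ (r⁻¹ • (x - x₀))) x‖ =
      r ^ (-(5 / 2) : ℝ) * ‖D i φ (r⁻¹ • (x - x₀))‖ := by
  have hr3 : (0 : ℝ) < r ^ 3 := by positivity
  have hp1 : (0 : ℝ) < r ^ (3 / 2 : ℝ) := Real.rpow_pos_of_pos hr _
  have hp2 : (0 : ℝ) < r ^ (-(3 / 2) : ℝ) := Real.rpow_pos_of_pos hr _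
  have hp3 : (0 : ℝ) < r ^ (-(5 / 2) : ℝ) := Real.rpow_pos_of_pos hr _
  have hD : ∀ i x, D i (fun x => r ^ (-(3 / 2) : ℝ) • φ (r⁻¹ • (x - x₀))) x =
      r ^ (-(5 / 2) : ℝ) • D i φ (r⁻¹ • (x - x₀)) := by
    intro i x
    rw [G4a_D hφ.smooth, G4a_rpow4 hr]
  refine ⟨?_, ?_, ?_, ?_, ?_, ?_⟩
  · unfold sq
    have h1 : ∀ y : E3, ‖r ^ (3 / 2 : ℝ) • w (x₀ + r • y)‖ ^ 2 =
        r ^ 3 * ‖w (x₀ + r • y)‖ ^ 2 := by
      intro y
      rw [norm_smul, Real.norm_of_nonneg hp1.le, mul_pow, pow_two, G4a_rpow1 hr]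
    simp only [h1]
    rw [integral_const_mul, G4a_cov (fun x => ‖w x‖ ^ 2) x₀ hr, ← mul_assoc,
      mul_inv_cancel₀ hr3.ne', one_mul]
  · unfold ip
    have h1 : ∀ y : E3, inner ℝ (r ^ (3 / 2 : ℝ) • w (x₀ + r • y)) (φ y) =
        r ^ (3 / 2 : ℝ) * (fun x => inner ℝ (w x) (φ (r⁻¹ • (x - x₀)))) (x₀ + r • y) := by
      intro y
      simp only
      rw [G4a_inv x₀ hr, real_inner_smul_left]
    simp only [h1]
    rw [integral_const_mul, G4a_cov (fun x => inner ℝ (w x) (φ (r⁻¹ • (x - x₀)))) x₀ hr,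
      ← mul_assoc, mul_comm (r ^ (3 / 2 : ℝ)), G4a_rpow3 hr, ← integral_const_mul]
    congr 1
    ext x
    rw [real_inner_smul_right]
  · unfold nl
    simp only [hD]
    have h1 : ∀ y : E3, ∑ i, (r ^ (3 / 2 : ℝ) • w (x₀ + r • y)) i *
        inner ℝ (r ^ (3 / 2 : ℝ) • w (x₀ + r • y)) (D i φ y) =
        r ^ 3 * (fun x => ∑ i, (w x) i * inner ℝ (w x) (D i φ (r⁻¹ • (x - x₀)))) (x₀ + r • y) := by
      intro y
      simp only
      rw [G4a_inv x₀ hr, Finset.mul_sum]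
      refine Finset.sum_congr rfl fun i _ => ?_
      rw [real_inner_smul_left, PiLp.smul_apply, smul_eq_mul, ← G4a_rpow1 hr]
      ring
    simp only [h1]
    rw [integral_const_mul, G4a_cov (fun x => ∑ i, (w x) i * inner ℝ (w x)
      (D i φ (r⁻¹ • (x - x₀)))) x₀ hr, ← mul_assoc, mul_inv_cancel₀ hr3.ne', one_mul]
    have h2 : ∀ x : E3, ∑ i, (w x) i * inner ℝ (w x) (r ^ (-(5 / 2) : ℝ) •
        D i φ (r⁻¹ • (x - x₀))) = r ^ (-(5 / 2) : ℝ) *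
        ∑ i, (w x) i * inner ℝ (w x) (D i φ (r⁻¹ • (x - x₀))) := by
      intro x
      rw [Finset.mul_sum]
      refine Finset.sum_congr rfl fun i _ => ?_
      rw [real_inner_smul_right]
      ring
    simp only [h2]
    rw [integral_const_mul, ← mul_assoc, G4a_rpow5 hr, one_mul]
  · unfold sq
    have h1 : ∀ x : E3, ‖r ^ (-(3 / 2) : ℝ) • φ (r⁻¹ • (x - x₀))‖ ^ 2 =
        (r ^ 3)⁻¹ * (fun z => ‖φ z‖ ^ 2) (r⁻¹ • (x - x₀)) := by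
      intro x
      simp only
      rw [norm_smul, Real.norm_of_nonneg hp2.le, mul_pow, pow_two (r ^ (-(3 / 2) : ℝ)), G4a_rpow2 hr]
    simp only [h1]
    rw [integral_const_mul, G4a_cov' (fun z => ‖φ z‖ ^ 2) x₀ hr, ← mul_assoc,
      inv_mul_cancel₀ hr3.ne', one_mul]
  · unfold gsq
    simp only [hD]
    have h1 : ∀ x : E3, ∑ i, ‖r ^ (-(5 / 2) : ℝ) • D i φ (r⁻¹ • (x - x₀))‖ ^ 2 =
        r ^ (-(5 / 2) : ℝ) * r ^ (-(5 / 2) : ℝ) *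
          (fun z => ∑ i, ‖D i φ z‖ ^ 2) (r⁻¹ • (x - x₀)) := by
      intro x
      simp only
      rw [Finset.mul_sum]
      refine Finset.sum_congr rfl fun i _ => ?_
      rw [norm_smul, Real.norm_of_nonneg hp3.le, mul_pow, pow_two (r ^ (-(5 / 2) : ℝ))]
    simp only [h1]
    rw [integral_const_mul, G4a_cov' (fun z => ∑ i, ‖D i φ z‖ ^ 2) x₀ hr, ← mul_assoc,
      G4a_rpow6 hr]
  · intro i x
    rw [hD, norm_smul, Real.norm_of_nonneg hp3.le]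

theorem testField_scale {Ω : Set E3} {φ : E3 → E3} (x₀ : E3) {r : ℝ} (hr : 0 < r)
    (hφ : TestField {y | x₀ + r • y ∈ Ω} φ) :
    TestField Ω (fun x => r ^ (-(3 / 2) : ℝ) • φ (r⁻¹ • (x - x₀))) := by
  refine ⟨G4a_smooth hφ.smooth _ _ _, G4a_comp hφ.compact _ hr _, ?_, ?_⟩
  · intro x hx
    have h1 := hφ.supp (G4a_tsupport x₀ hr _ hx)
    change x₀ + r • (r⁻¹ • (x - x₀)) ∈ Ω at h1
    rw [smul_smul, mul_inv_cancel₀ hr.ne', one_smul, add_sub_cancel] at h1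
    exact h1
  · intro x
    have h1 := hφ.div (r⁻¹ • (x - x₀))
    unfold divg at *
    have h2 : ∀ i, pd (fun x => r ^ (-(3 / 2) : ℝ) • φ (r⁻¹ • (x - x₀))) i x =
        (r ^ (-(3 / 2) : ℝ) * r⁻¹) • pd φ i (r⁻¹ • (x - x₀)) := fun i =>
      G4a_D hφ.smooth x₀ r _ i x
    simp only [h2, PiLp.smul_apply, smul_eq_mul]
    rw [← Finset.mul_sum, h1, mul_zero]

theorem wdiv_scale {w : E3 → E3} (x₀ : E3) {r : ℝ} (hr : 0 < r) (hw : WDiv w) :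
    WDiv (fun y => r ^ (3 / 2 : ℝ) • w (x₀ + r • y)) := by
  intro φ hφ
  have hψ : Cc (fun x => (1 : ℝ) • φ (r⁻¹ • (x - x₀))) :=
    ⟨G4a_smooth hφ.smooth _ _ _, G4a_comp hφ.comp _ hr _⟩
  have h0 := hw _ hψ
  have hg : ∀ x, grad (fun x => (1 : ℝ) • φ (r⁻¹ • (x - x₀))) x =
      r⁻¹ • grad φ (r⁻¹ • (x - x₀)) := by
    intro x
    unfold grad
    rw [G4a_D hφ.smooth, G4a_D hφ.smooth, G4a_D hφ.smooth]
    ext j
    fin_cases j <;> simp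
  simp only [hg, real_inner_smul_right] at h0
  rw [integral_const_mul] at h0
  have h1 : ∫ x, inner ℝ (w x) (grad φ (r⁻¹ • (x - x₀))) = 0 := by
    rcases mul_eq_zero.1 h0 with h | h
    · exact absurd h (inv_ne_zero hr.ne')
    · exact h
  have h2 : ∀ y : E3, inner ℝ (r ^ (3 / 2 : ℝ) • w (x₀ + r • y)) (grad φ y) =
      r ^ (3 / 2 : ℝ) * (fun x => inner ℝ (w x) (grad φ (r⁻¹ • (x - x₀)))) (x₀ + r • y) := by
    intro y
    simp only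
    rw [G4a_inv x₀ hr, real_inner_smul_left]
  simp only [h2]
  rw [integral_const_mul, G4a_cov (fun x => inner ℝ (w x) (grad φ (r⁻¹ • (x - x₀)))) x₀ hr, h1,
    mul_zero, mul_zero]

end Pool.Agent.Helper60.EC
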