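import Pool.Agent.Helper60.EC.G4a
import Pool.Agent.Helper60.EC.G3b

/-! Project EC, G4b: the sequence of rescaled flows -/

set_option autoImplicit false

open MeasureTheory Set Filter Topology
open scoped ENNReal ContDiff

noncomputable section

namespace Pool.Agent.Helper60.EC

open Pool.Agent.Helper52.NSE (E3 pd divg TestField IsSmoothBoundedDomain MemH1s MemL2s
  IsWeakSolution gradSq)

/-- the rescaled flow -/
def G4b_v (U : ℝ → E3 → E3) (t₀ : ℝ) (x₀ : E3) (r : ℝ) (s : ℝ) (y : E3) : E3 :=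
  r ^ (3 / 2 : ℝ) • U (t₀ + r ^ (5 / 2 : ℝ) * s) (x₀ + r • y)

theorem G4b_pow1 {r : ℝ} (hr : 0 < r) : r ^ (3 / 2 : ℝ) * r = r ^ (5 / 2 : ℝ) := by
  nth_rewrite 2 [← Real.rpow_one r]
  rw [← Real.rpow_add hr]
  norm_num

theorem G4b_pow2 {r a : ℝ} (hr : 0 < r) (ha : 0 < a) :
    (r ^ (5 / 2 : ℝ) * a) ^ (-(4 / 5) : ℝ) * r ^ 2 = a ^ (-(4 / 5) : ℝ) := by
  rw [Real.mul_rpow (Real.rpow_nonneg hr.le _) ha.le, ← Real.rpow_mul hr.le,
    ← Real.rpow_natCast r 2, mul_right_comm, ← Real.rpow_add hr]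
  norm_num

theorem G4b_pow3 {r a : ℝ} (hr : 0 < r) (ha : 0 < a) :
    r ^ (5 / 2 : ℝ) * (r ^ (5 / 2 : ℝ) * a) ^ (-(2 / 5) : ℝ) = r ^ (3 / 2 : ℝ) * a ^ (-(2 / 5) : ℝ) := by
  rw [Real.mul_rpow (Real.rpow_nonneg hr.le _) ha.le, ← Real.rpow_mul hr.le, ← mul_assoc,
    ← Real.rpow_add hr]
  norm_num

theorem G4b_memLp {w : E3 → E3} (x₀ : E3) {r : ℝ} (hr : 0 < r) (c : ℝ) (hw : MemLp w 2 volume) :
    MemLp (fun y => c • w (x₀ + r • y)) 2 volume := by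
  have h1 : AEStronglyMeasurable (fun y => w (x₀ + r • y)) volume := by
    have h2 : AEStronglyMeasurable (fun y => w (x₀ + y)) volume :=
      hw.1.comp_quasiMeasurePreserving (quasiMeasurePreserving_add_left volume x₀)
    exact h2.comp_quasiMeasurePreserving (Measure.quasiMeasurePreserving_smul volume hr.ne')
  have h3 : MemLp (fun y => w (x₀ + r • y)) 2 volume := by
    rw [memLp_two_iff_integrable_sq_norm h1]
    have h4 := (memLp_two_iff_integrable_sq_norm hw.1).1 hw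
    exact (h4.comp_add_left x₀).comp_smul hr.ne'
  exact h3.const_smul c

theorem G4b_sq (w : E3 → E3) (x₀ : E3) {r : ℝ} (hr : 0 < r) :
    sq (fun y => r ^ (3 / 2 : ℝ) • w (x₀ + r • y)) = sq w := by
  have hr3 : (0 : ℝ) < r ^ 3 := by positivity
  have hp1 : (0 : ℝ) < r ^ (3 / 2 : ℝ) := Real.rpow_pos_of_pos hr _
  unfold sq
  have h1 : ∀ y : E3, ‖r ^ (3 / 2 : ℝ) • w (x₀ + r • y)‖ ^ 2 =
      r ^ 3 * ‖w (x₀ + r • y)‖ ^ 2 := by
    intro y
    rw [norm_smul, Real.norm_of_nonneg hp1.le, mul_pow, pow_two, G4a_rpow1 hr]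
  simp only [h1]
  rw [integral_const_mul, G4a_cov (fun x => ‖w x‖ ^ 2) x₀ hr, ← mul_assoc,
    mul_inv_cancel₀ hr3.ne', one_mul]

section window

variable {Ω : Set E3} {t₀ : ℝ} {f u : ℝ → E3 → E3} {G : ℝ → Fin 3 → E3 → E3} {C p q : ℝ}
  {U : ℝ → E3 → E3}

theorem G4b_off (h : Win Ω t₀ f u G C p q U) (x₀ : E3) {r : ℝ} {s : ℝ}
    (hs : t₀ + r ^ (5 / 2 : ℝ) * s ∈ Ioo p q) {y : E3} (hy : x₀ + r • y ∉ Ω) :
    G4b_v U t₀ x₀ r s y = 0 := by
  unfold G4b_v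
  rw [h.off _ hs _ hy, smul_zero]

theorem G4b_lip (h : Win Ω t₀ f u G C p q U) (x₀ : E3) {r : ℝ} (hr : 0 < r) {s : ℝ} (hs0 : s < 0)
    (hs : t₀ + r ^ (5 / 2 : ℝ) * s ∈ Ioo p q) (x y : E3) :
    ‖G4b_v U t₀ x₀ r s x - G4b_v U t₀ x₀ r s y‖ ≤ C / (-s) * ‖x - y‖ := by
  unfold G4b_v
  have hp1 : (0 : ℝ) < r ^ (3 / 2 : ℝ) := Real.rpow_pos_of_pos hr _
  have hp2 : (0 : ℝ) < r ^ (5 / 2 : ℝ) := Real.rpow_pos_of_pos hr _
  have h1 := h.lip _ hs (x₀ + r • x) (x₀ + r • y)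
  rw [← smul_sub, norm_smul, Real.norm_of_nonneg hp1.le]
  have h2 : (x₀ + r • x) - (x₀ + r • y) = r • (x - y) := by
    rw [smul_sub]; abel
  rw [h2, norm_smul, Real.norm_of_nonneg hr.le] at h1
  have h3 : t₀ - (t₀ + r ^ (5 / 2 : ℝ) * s) = r ^ (5 / 2 : ℝ) * (-s) := by ring
  rw [h3] at h1
  refine (mul_le_mul_of_nonneg_left h1 hp1.le).trans (le_of_eq ?_)
  have hs' : (-s) ≠ 0 := by linarith
  have h4 := G4b_pow1 hr
  calc r ^ (3 / 2 : ℝ) * (C / (r ^ (5 / 2 : ℝ) * (-s)) * (r * ‖x - y‖))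
      = (r ^ (3 / 2 : ℝ) * r) / r ^ (5 / 2 : ℝ) * (C / (-s) * ‖x - y‖) := by
        field_simp
    _ = C / (-s) * ‖x - y‖ := by rw [h4, div_self hp2.ne', one_mul]

theorem G4b_diff (U : ℝ → E3 → E3) (t₀ : ℝ) (x₀ : E3) {r : ℝ} (hr : 0 < r) (s t : ℝ) :
    sq (fun x => G4b_v U t₀ x₀ r t x - G4b_v U t₀ x₀ r s x) =
      sq (fun x => U (t₀ + r ^ (5 / 2 : ℝ) * t) x - U (t₀ + r ^ (5 / 2 : ℝ) * s) x) := by
  rw [← G4b_sq (fun x => U (t₀ + r ^ (5 / 2 : ℝ) * t) x - U (t₀ + r ^ (5 / 2 : ℝ) * s) x) x₀ hr]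
  congr 1
  ext x : 1
  unfold G4b_v
  rw [smul_sub]

theorem G4b_grad (h : Win Ω t₀ f u G C p q U) (x₀ : E3) {r : ℝ} (hr : 0 < r) {s : ℝ} (hs0 : s < 0)
    (hs : t₀ + r ^ (5 / 2 : ℝ) * s ∈ Ioo p q) (k : E3) :
    sq (fun x => G4b_v U t₀ x₀ r s (x + k) - G4b_v U t₀ x₀ r s x) ≤
      C * (-s) ^ (-(4 / 5) : ℝ) * ‖k‖ ^ 2 := by
  have h1 := h.grad _ hs (r • k)
  have h2 : sq (fun x => G4b_v U t₀ x₀ r s (x + k) - G4b_v U t₀ x₀ r s x) =
      sq (fun x => U (t₀ + r ^ (5 / 2 : ℝ) * s) (x + r • k) - U (t₀ + r ^ (5 / 2 : ℝ) * s) x) := by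
    rw [← G4b_sq (fun x => U (t₀ + r ^ (5 / 2 : ℝ) * s) (x + r • k) -
      U (t₀ + r ^ (5 / 2 : ℝ) * s) x) x₀ hr]
    congr 1
    ext x : 1
    unfold G4b_v
    rw [smul_sub, smul_add, ← add_assoc]
  rw [h2]
  refine h1.trans (le_of_eq ?_)
  have h3 : t₀ - (t₀ + r ^ (5 / 2 : ℝ) * s) = r ^ (5 / 2 : ℝ) * (-s) := by ring
  rw [h3, norm_smul, Real.norm_of_nonneg hr.le, mul_pow, ← G4b_pow2 hr (by linarith : 0 < -s)]
  ring

theorem G4b_cov_time (g : ℝ → ℝ) (t₀ : ℝ) {r : ℝ} (hr : 0 < r) (s t : ℝ) :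
    ∫ τ in s..t, r ^ (5 / 2 : ℝ) * g (t₀ + r ^ (5 / 2 : ℝ) * τ) =
      ∫ τ in (t₀ + r ^ (5 / 2 : ℝ) * s)..(t₀ + r ^ (5 / 2 : ℝ) * t), g τ := by
  have hp2 : (0 : ℝ) < r ^ (5 / 2 : ℝ) := Real.rpow_pos_of_pos hr _
  rw [intervalIntegral.integral_const_mul, intervalIntegral.integral_comp_add_mul g hp2.ne' t₀,
    smul_eq_mul, ← mul_assoc, mul_inv_cancel₀ hp2.ne', one_mul]

theorem G4b_eqn (h : Win Ω t₀ f u G C p q U) (x₀ : E3) {r : ℝ} (hr : 0 < r) {φ : E3 → E3}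
    (hφ : TestField {y | x₀ + r • y ∈ Ω} φ) {s t : ℝ} (ht0 : t < 0) (hst : s < t)
    (hs : t₀ + r ^ (5 / 2 : ℝ) * s ∈ Ioo p q) (ht : t₀ + r ^ (5 / 2 : ℝ) * t ∈ Ioo p q) :
    |ip (G4b_v U t₀ x₀ r t) φ - ip (G4b_v U t₀ x₀ r s) φ -
      ∫ τ in s..t, nl φ (G4b_v U t₀ x₀ r τ)| ≤
      C * r ^ (1 / 2 : ℝ) * Real.sqrt (gsq φ) * (∫ τ in s..t, (-τ) ^ (-(2 / 5) : ℝ)) +
        Real.sqrt (sq φ) *
          ∫ τ in (t₀ + r ^ (5 / 2 : ℝ) * s)..(t₀ + r ^ (5 / 2 : ℝ) * t), fn Ω f τ := by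
  have hp1 : (0 : ℝ) < r ^ (3 / 2 : ℝ) := Real.rpow_pos_of_pos hr _
  have hp2 : (0 : ℝ) < r ^ (5 / 2 : ℝ) := Real.rpow_pos_of_pos hr _
  have hφc : Cc φ := ⟨hφ.smooth, hφ.compact⟩
  have hst' : t₀ + r ^ (5 / 2 : ℝ) * s < t₀ + r ^ (5 / 2 : ℝ) * t := by
    have := mul_lt_mul_of_pos_left hst hp2
    linarith
  have h1 := h.eqn _ (testField_scale x₀ hr hφ) _ _ hs.1 hst' ht.2
  have hip : ∀ τ, t₀ + r ^ (5 / 2 : ℝ) * τ ∈ Ioo p q → ip (G4b_v U t₀ x₀ r τ) φ =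
      ip (U (t₀ + r ^ (5 / 2 : ℝ) * τ)) (fun x => r ^ (-(3 / 2) : ℝ) • φ (r⁻¹ • (x - x₀))) := by
    intro τ hτ
    exact (scale_norms x₀ hr (h.l2 _ hτ) hφc).2.1
  have hnl : ∫ τ in s..t, nl φ (G4b_v U t₀ x₀ r τ) =
      ∫ τ in (t₀ + r ^ (5 / 2 : ℝ) * s)..(t₀ + r ^ (5 / 2 : ℝ) * t),
        nl (fun x => r ^ (-(3 / 2) : ℝ) • φ (r⁻¹ • (x - x₀))) (U τ) := by
    rw [← G4b_cov_time _ t₀ hr]
    apply intervalIntegral.integral_congr
    intro τ hτ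
    rw [uIcc_of_le hst.le] at hτ
    have hτ' : t₀ + r ^ (5 / 2 : ℝ) * τ ∈ Ioo p q := by
      constructor
      · have := mul_le_mul_of_nonneg_left hτ.1 hp2.le
        have := hs.1
        linarith
      · have := mul_le_mul_of_nonneg_left hτ.2 hp2.le
        have := ht.2
        linarith
    exact (scale_norms x₀ hr (h.l2 _ hτ') hφc).2.2.1
  rw [hip t ht, hip s hs, hnl]
  refine h1.trans (le_of_eq ?_)
  have hsn := scale_norms x₀ hr (h.l2 _ ht) hφc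
  rw [hsn.2.2.2.1, hsn.2.2.2.2.1, Real.sqrt_mul (by positivity), Real.sqrt_sq (by positivity),
    ← G4b_cov_time (fun τ => (t₀ - τ) ^ (-(2 / 5) : ℝ)) t₀ hr]
  congr 1
  have h5 : ∫ τ in s..t, r ^ (5 / 2 : ℝ) * (t₀ - (t₀ + r ^ (5 / 2 : ℝ) * τ)) ^ (-(2 / 5) : ℝ) =
      ∫ τ in s..t, r ^ (3 / 2 : ℝ) * (-τ) ^ (-(2 / 5) : ℝ) := by
    apply intervalIntegral.integral_congr
    intro τ hτ
    rw [uIcc_of_le hst.le] at hτ
    have h3 : t₀ - (t₀ + r ^ (5 / 2 : ℝ) * τ) = r ^ (5 / 2 : ℝ) * (-τ) := by ring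
    simp only
    rw [h3, G4b_pow3 hr (by linarith [hτ.2] : 0 < -τ)]
  rw [h5, intervalIntegral.integral_const_mul]
  have h6 : r⁻¹ * r ^ (3 / 2 : ℝ) = r ^ (1 / 2 : ℝ) := by
    rw [← Real.rpow_neg_one, ← Real.rpow_add hr]
    norm_num
  rw [← h6]
  ring

theorem G4b_time (h : Win Ω t₀ f u G C p q U) (x₀ : E3) {r : ℝ} (hr : 0 < r) {s t : ℝ}
    (ht0 : t < 0) (hst : s < t) (hs : t₀ + r ^ (5 / 2 : ℝ) * s ∈ Ioo p q)
    (ht : t₀ + r ^ (5 / 2 : ℝ) * t ∈ Ioo p q) :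
    sq (fun x => G4b_v U t₀ x₀ r t x - G4b_v U t₀ x₀ r s x) ≤
      C * (t - s) / (-t) +
        C * ∫ τ in (t₀ + r ^ (5 / 2 : ℝ) * s)..(t₀ + r ^ (5 / 2 : ℝ) * t), fn Ω f τ := by
  have hp2 : (0 : ℝ) < r ^ (5 / 2 : ℝ) := Real.rpow_pos_of_pos hr _
  have hst' : t₀ + r ^ (5 / 2 : ℝ) * s < t₀ + r ^ (5 / 2 : ℝ) * t := by
    have := mul_lt_mul_of_pos_left hst hp2
    linarith
  have h1 := h.time _ _ hs.1 hst' ht.2
  rw [G4b_diff U t₀ x₀ hr]
  refine h1.trans (le_of_eq ?_)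
  congr 1
  have h3 : t₀ - (t₀ + r ^ (5 / 2 : ℝ) * t) = r ^ (5 / 2 : ℝ) * (-t) := by ring
  have h4 : (t₀ + r ^ (5 / 2 : ℝ) * t) - (t₀ + r ^ (5 / 2 : ℝ) * s) =
      r ^ (5 / 2 : ℝ) * (t - s) := by ring
  rw [h3, h4]
  have : (-t) ≠ 0 := by linarith
  field_simp

theorem G4b_fin (h : Win Ω t₀ f u G C p q U) (hΩ : MeasurableSet Ω)
    (hu : MemLp (u t₀) 2 (volume.restrict Ω)) (x₀ : E3) {r : ℝ} (hr : 0 < r) {φ : E3 → E3}
    (hφ : TestField {y | x₀ + r • y ∈ Ω} φ) {M ρ : ℝ} (hM : ∀ x, ∑ i, ‖D i φ x‖ ≤ M)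
    (hρ : tsupport φ ⊆ Metric.ball 0 ρ) {s : ℝ} (hs0 : s < 0)
    (hs : t₀ + r ^ (5 / 2 : ℝ) * s ∈ Ioo p q) :
    |ip (G4b_v U t₀ x₀ r s) φ| ≤ C * M * (-s) + C * r ^ (1 / 4 : ℝ) *
      Real.sqrt (∫ τ in (t₀ + r ^ (5 / 2 : ℝ) * s)..t₀, gradSq Ω (G τ)) * Real.sqrt (gsq φ) *
        Real.sqrt (-s) + Real.sqrt (sq φ) * ((∫ τ in (t₀ + r ^ (5 / 2 : ℝ) * s)..t₀, fn Ω f τ) +
          Real.sqrt (∫ x in Ω ∩ Metric.ball x₀ (r * ρ), ‖u t₀ x‖ ^ 2)) := by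
  have hp1 : (0 : ℝ) < r ^ (3 / 2 : ℝ) := Real.rpow_pos_of_pos hr _
  have hp2 : (0 : ℝ) < r ^ (5 / 2 : ℝ) := Real.rpow_pos_of_pos hr _
  have hp3 : (0 : ℝ) < r ^ (-(5 / 2) : ℝ) := Real.rpow_pos_of_pos hr _
  have hφc : Cc φ := ⟨hφ.smooth, hφ.compact⟩
  have hsn := scale_norms x₀ hr (h.l2 _ hs) hφc
  obtain ⟨-, hip, -, hsq, hgsq, hD⟩ := hsn
  have hT := testField_scale x₀ hr hφ
  set Φ : E3 → E3 := fun x => r ^ (-(3 / 2) : ℝ) • φ (r⁻¹ • (x - x₀)) with hΦ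
  have h1 := h.fin Φ hT (r ^ (-(5 / 2) : ℝ) * M) (fun x => by
    simp only [hD]
    rw [← Finset.mul_sum]
    exact mul_le_mul_of_nonneg_left (hM _) hp3.le) _ hs
  have h3 : t₀ - (t₀ + r ^ (5 / 2 : ℝ) * s) = r ^ (5 / 2 : ℝ) * (-s) := by ring
  rw [h3, hsq, hgsq] at h1
  have h2 : ip (G4b_v U t₀ x₀ r s) φ = ip (U (t₀ + r ^ (5 / 2 : ℝ) * s)) Φ := hip
  -- the value at the time `t₀`
  have hΦ0 : ∀ x, x ∉ Metric.ball x₀ (r * ρ) → Φ x = 0 := by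
    intro x hx
    by_contra hne
    have h5 : r⁻¹ • (x - x₀) ∈ tsupport φ := by
      apply subset_tsupport
      intro h0
      apply hne
      simp only [hΦ, h0, smul_zero]
    have h6 := hρ h5
    rw [mem_ball_zero_iff, norm_smul, norm_inv, Real.norm_of_nonneg hr.le] at h6
    apply hx
    rw [Metric.mem_ball, dist_eq_norm]
    rwa [inv_mul_lt_iff₀ hr] at h6
  have hmB : MeasurableSet (Ω ∩ Metric.ball x₀ (r * ρ)) := hΩ.inter Metric.isOpen_ball.measurableSet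
  have h4 : ∫ x in Ω, inner ℝ (u t₀ x) (Φ x) =
      ∫ x in Ω ∩ Metric.ball x₀ (r * ρ), inner ℝ (u t₀ x) (Φ x) := by
    refine setIntegral_eq_of_subset_of_forall_sdiff_eq_zero hΩ inter_subset_left ?_
    intro x hx
    rw [hΦ0 x (fun hh => hx.2 ⟨hx.1, hh⟩), inner_zero_right]
  have hΦm : MemLp Φ 2 volume :=
    hT.smooth.continuous.memLp_of_hasCompactSupport hT.compact
  have h5 := Pool.Agent.Helper52.NSE.cs (Ω := Ω ∩ Metric.ball x₀ (r * ρ)) (f := u t₀) (g := Φ)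
    (hu.mono_measure (Measure.restrict_mono inter_subset_left le_rfl)) (hΦm.restrict _)
  have h6 : Pool.Agent.Helper52.NSE.nm (Ω ∩ Metric.ball x₀ (r * ρ)) Φ ≤ Real.sqrt (sq φ) := by
    unfold Pool.Agent.Helper52.NSE.nm
    apply Real.sqrt_le_sqrt
    rw [← hsq]
    unfold sq
    refine setIntegral_le_integral ?_ (Eventually.of_forall fun x => by positivity)
    exact (memLp_two_iff_integrable_sq_norm hΦm.1).1 hΦm
  have h7 : |∫ x in Ω, inner ℝ (u t₀ x) (Φ x)| ≤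
      Real.sqrt (∫ x in Ω ∩ Metric.ball x₀ (r * ρ), ‖u t₀ x‖ ^ 2) * Real.sqrt (sq φ) := by
    rw [h4]
    exact h5.trans (mul_le_mul_of_nonneg_left h6 (Real.sqrt_nonneg _))
  have h8 : |ip (U (t₀ + r ^ (5 / 2 : ℝ) * s)) Φ| ≤
      |ip (U (t₀ + r ^ (5 / 2 : ℝ) * s)) Φ - ∫ x in Ω, inner ℝ (u t₀ x) (Φ x)| +
        |∫ x in Ω, inner ℝ (u t₀ x) (Φ x)| := by
    have := abs_add_le (ip (U (t₀ + r ^ (5 / 2 : ℝ) * s)) Φ - ∫ x in Ω, inner ℝ (u t₀ x) (Φ x))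
      (∫ x in Ω, inner ℝ (u t₀ x) (Φ x))
    rwa [sub_add_cancel] at this
  rw [h2]
  refine h8.trans ((add_le_add h1 h7).trans (le_of_eq ?_))
  have e1 : r ^ (-(5 / 2) : ℝ) * r ^ (5 / 2 : ℝ) = 1 := by
    rw [mul_comm]; exact G4a_rpow5 hr
  have e2 : Real.sqrt (r ^ (5 / 2 : ℝ)) = r ^ (5 / 4 : ℝ) := by
    rw [Real.sqrt_eq_rpow, ← Real.rpow_mul hr.le]
    norm_num
  have e3 : r⁻¹ * r ^ (5 / 4 : ℝ) = r ^ (1 / 4 : ℝ) := by
    rw [← Real.rpow_neg_one, ← Real.rpow_add hr]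
    norm_num
  rw [Real.sqrt_mul (by positivity), Real.sqrt_sq (by positivity), Real.sqrt_mul hp2.le, e2, ← e3]
  have e4 : C * (r ^ (-(5 / 2) : ℝ) * M) * (r ^ (5 / 2 : ℝ) * -s) =
      (r ^ (-(5 / 2) : ℝ) * r ^ (5 / 2 : ℝ)) * (C * M * (-s)) := by ring
  rw [e4, e1]
  ring

end window

theorem G4b_ball {Ω : Set E3} {w : E3 → E3} (hw : MemLp w 2 (volume.restrict Ω)) (x : ℕ → E3)
    {r : ℕ → ℝ} (hr : Tendsto r atTop (𝓝 0)) (hr0 : ∀ j, 0 < r j) (ρ : ℝ) :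
    Tendsto (fun j => Real.sqrt (∫ x in Ω ∩ Metric.ball (x j) (r j * ρ), ‖w x‖ ^ 2)) atTop
      (𝓝 0) := by
  have h1 : Integrable (fun x => ‖w x‖ ^ 2) (volume.restrict Ω) :=
    (memLp_two_iff_integrable_sq_norm hw.1).1 hw
  have h2 : Tendsto (fun j => (volume.restrict Ω) (Metric.ball (x j) (r j * ρ))) atTop (𝓝 0) := by
    have h3 : ∀ j, (volume.restrict Ω) (Metric.ball (x j) (r j * ρ)) ≤
        ENNReal.ofReal ((r j * |ρ|) ^ 3) * volume (Metric.ball (0 : E3) 1) := by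
      intro j
      refine (Measure.restrict_apply_le _ _).trans ?_
      have h4 : Metric.ball (x j) (r j * ρ) ⊆ Metric.closedBall (x j) (r j * |ρ|) := by
        refine Metric.ball_subset_closedBall.trans (Metric.closedBall_subset_closedBall ?_)
        exact mul_le_mul_of_nonneg_left (le_abs_self ρ) (hr0 j).le
      refine (measure_mono h4).trans (le_of_eq ?_)
      rw [Measure.addHaar_closedBall volume (x j) (mul_nonneg (hr0 j).le (abs_nonneg ρ)),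
        finrank_euclideanSpace, Fintype.card_fin]
    refine tendsto_of_tendsto_of_tendsto_of_le_of_le tendsto_const_nhds ?_ (fun _ => zero_le) h3
    have h5 : Tendsto (fun j => (r j * |ρ|) ^ 3) atTop (𝓝 0) := by
      have := (hr.mul_const |ρ|).pow 3
      simpa using this
    have h6 := ENNReal.tendsto_ofReal h5
    rw [ENNReal.ofReal_zero] at h6
    have h7 := ENNReal.Tendsto.mul_const (b := volume (Metric.ball (0 : E3) 1)) h6
      (Or.inr (measure_ball_lt_top.ne))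
    rwa [zero_mul] at h7
  have h3 := h1.tendsto_setIntegral_nhds_zero (s := fun j => Metric.ball (x j) (r j * ρ)) h2
  have h4 : ∀ j, ∫ y in Metric.ball (x j) (r j * ρ), ‖w y‖ ^ 2 ∂(volume.restrict Ω) =
      ∫ x in Ω ∩ Metric.ball (x j) (r j * ρ), ‖w x‖ ^ 2 := by
    intro j
    rw [Measure.restrict_restrict Metric.isOpen_ball.measurableSet, inter_comm]
  simp only [h4] at h3
  have h5 := (Real.continuous_sqrt.tendsto 0).comp h3
  rwa [Real.sqrt_zero] at h5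

theorem G4b_fn_nonneg (Ω : Set E3) (f : ℝ → E3 → E3) (τ : ℝ) : 0 ≤ fn Ω f τ := Real.sqrt_nonneg _

/-- continuity in time of the bound -/
theorem G4b_cont {T : ℝ} {g : ℝ → ℝ} (hg : IntegrableOn g (Icc 0 T)) {a b : ℝ} (hb : 0 < b)
    {W : Set ℝ} (hW : ∀ t ∈ W, a + b * t ∈ Icc 0 T) {s : ℝ} (hs : s ∈ W) :
    Tendsto (fun t => ∫ τ in (a + b * s)..(a + b * t), g τ) (𝓝[W] s) (𝓝 0) := by
  have hT : 0 ≤ T := (hW s hs).1.trans (hW s hs).2
  have c1 : ContinuousOn (fun t => ∫ τ in (0)..t, g τ) (Icc 0 T) := by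
    have := intervalIntegral.continuousOn_primitive_interval (μ := volume) (f := g) (a := 0)
      (b := T) (by rw [uIcc_of_le hT]; exact hg)
    rwa [uIcc_of_le hT] at this
  have c2 : ContinuousOn (fun t => ∫ τ in (0)..(a + b * t), g τ) W :=
    c1.comp (by fun_prop) hW
  have h1 : ∀ t ∈ W, ∫ τ in (a + b * s)..(a + b * t), g τ =
      (∫ τ in (0)..(a + b * t), g τ) - ∫ τ in (0)..(a + b * s), g τ := by
    intro t ht
    rw [intervalIntegral.integral_interval_sub_left]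
    · exact Pool.Agent.Helper52.NSE.ii_of hg le_rfl (hW t ht).1 (hW t ht).2
    · exact Pool.Agent.Helper52.NSE.ii_of hg le_rfl (hW s hs).1 (hW s hs).2
  have h2 : Tendsto (fun t => (∫ τ in (0)..(a + b * t), g τ) - ∫ τ in (0)..(a + b * s), g τ)
      (𝓝[W] s) (𝓝 ((∫ τ in (0)..(a + b * s), g τ) - ∫ τ in (0)..(a + b * s), g τ)) :=
    (c2 s hs).sub_const _
  rw [sub_self] at h2
  refine h2.congr' ?_
  filter_upwards [self_mem_nhdsWithin] with t ht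
  rw [h1 t ht]

open Pool.Agent.Helper7.NT in
theorem exists_bseq {Ω : Set E3} {ν T : ℝ} {u₀ : E3 → E3} {f u : ℝ → E3 → E3}
    {G : ℝ → Fin 3 → E3 → E3} (hΩ : IsSmoothBoundedDomain Ω) (hν : 0 < ν)
    (h : IsWeakSolution Ω ν T u₀ f u G) {t₀ : ℝ} (ht₀ : t₀ ∈ Ioc 0 T)
    (hloss : ¬ NoLoss Ω u t₀) (hcr : CriticalRate Ω G t₀) :
    ∃ (x : ℕ → E3) (r : ℕ → ℝ) (v : ℕ → ℝ → E3 → E3) (C c : ℝ) (e : ℕ → ℝ) (g : ℕ → ℝ → ℝ),
      (∀ j, x j ∈ Ω) ∧ (∀ j, 0 < r j) ∧ Tendsto r atTop (𝓝 0) ∧ 0 < C ∧ 0 < c ∧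
        BSeq (fun j => {y | x j + r j • y ∈ Ω}) v C c e g := by
  obtain ⟨C, c, hC, hc, H⟩ := conc hΩ hν h ht₀ hloss hcr
  have hηj : ∀ j : ℕ, 0 < 1 / ((j : ℝ) + 1) := fun j => by positivity
  choose p q σ x U hp0 hqt hW hσ hpη hN1 hN2 hlow using
    fun j : ℕ => H ((j : ℝ) + 1) (1 / ((j : ℝ) + 1)) (hηj j)
  have hfi : IntegrableOn (fun τ => fn Ω f τ) (Icc 0 T) := G3b_fn_int h
  have hgi : IntegrableOn (fun τ => gradSq Ω (G τ)) (Icc 0 T) := h.grad_int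
  have hg0 : ∀ τ, 0 ≤ gradSq Ω (G τ) := fun τ =>
    integral_nonneg fun x => Finset.sum_nonneg fun i _ => by positivity
  have hdσ : ∀ j, 0 < t₀ - σ j := fun j => by linarith [(hσ j).2, hqt j]
  have hpσ : ∀ j, p j < t₀ := fun j => by linarith [(hσ j).1, (hσ j).2, hqt j]
  have hΩm : MeasurableSet Ω := hΩ.isOpen.measurableSet
  have hu : MemLp (u t₀) 2 (volume.restrict Ω) := (h.mem t₀ ⟨ht₀.1.le, ht₀.2⟩).memLp
  set r : ℕ → ℝ := fun j => (t₀ - σ j) ^ (2 / 5 : ℝ) with hr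
  have hr0 : ∀ j, 0 < r j := fun j => Real.rpow_pos_of_pos (hdσ j) _
  have hr5 : ∀ j, r j ^ (5 / 2 : ℝ) = t₀ - σ j := by
    intro j
    rw [hr]
    simp only
    rw [← Real.rpow_mul (hdσ j).le]
    norm_num
  have hd0 : Tendsto (fun j => t₀ - σ j) atTop (𝓝 0) := by
    refine tendsto_of_tendsto_of_tendsto_of_le_of_le tendsto_const_nhds
      tendsto_one_div_add_atTop_nhds_zero_nat (fun j => (hdσ j).le) (fun j => ?_)
    have := hpη j
    have := (hσ j).1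
    simp only
    linarith
  have hrt : Tendsto r atTop (𝓝 0) := by
    have h1 : ContinuousAt (fun d : ℝ => d ^ (2 / 5 : ℝ)) 0 :=
      continuousAt_id.rpow_const (Or.inr (by norm_num))
    have h2 := h1.tendsto.comp hd0
    rw [Real.zero_rpow (by norm_num)] at h2
    exact h2
  -- the windows
  have hwin : ∀ j, ∀ s ∈ WW j, s < 0 ∧ t₀ + r j ^ (5 / 2 : ℝ) * s ∈ Ioo (p j) (q j) := by
    intro j s hs
    have hj1 : (0 : ℝ) < (j : ℝ) + 1 := by positivity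
    have h1 : -((j : ℝ) + 1) < s := hs.1
    have h2 : s < -(1 / ((j : ℝ) + 1)) := hs.2
    have h3 := hdσ j
    have h4 := hN1 j
    have h5 := hN2 j
    rw [hr5]
    refine ⟨by linarith [hηj j], ?_, ?_⟩
    · nlinarith
    · have h6 : t₀ - q j ≤ (t₀ - σ j) * (1 / ((j : ℝ) + 1)) := by
        rw [mul_one_div, le_div_iff₀ hj1]
        linarith
      nlinarith
  set J : ℕ → ℝ := fun j => ∫ τ in (p j)..t₀, fn Ω f τ with hJ
  have hJ0 : ∀ j, 0 ≤ J j := fun j =>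
    intervalIntegral.integral_nonneg (hpσ j).le fun τ _ => G4b_fn_nonneg Ω f τ
  have hJle : ∀ j s t, p j ≤ s → s ≤ t → t ≤ t₀ → ∫ τ in s..t, fn Ω f τ ≤ J j := by
    intro j s t h1 h2 h3
    have i1 := Pool.Agent.Helper52.NSE.ii_of hfi (hp0 j) h1 (h2.trans (h3.trans ht₀.2))
    have i2 := Pool.Agent.Helper52.NSE.ii_of hfi ((hp0 j).trans h1) h2 (h3.trans ht₀.2)
    have i3 := Pool.Agent.Helper52.NSE.ii_of hfi ((hp0 j).trans (h1.trans h2)) h3 ht₀.2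
    have e1 := intervalIntegral.integral_add_adjacent_intervals i1 i2
    have e2 := intervalIntegral.integral_add_adjacent_intervals (i1.trans i2) i3
    have n1 : 0 ≤ ∫ τ in (p j)..s, fn Ω f τ :=
      intervalIntegral.integral_nonneg h1 fun τ _ => G4b_fn_nonneg Ω f τ
    have n2 : 0 ≤ ∫ τ in t..t₀, fn Ω f τ :=
      intervalIntegral.integral_nonneg h3 fun τ _ => G4b_fn_nonneg Ω f τ
    simp only [hJ]
    linarith
  have hJt : Tendsto J atTop (𝓝 0) := by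
    rw [Metric.tendsto_atTop]
    intro ε hε
    obtain ⟨δ, hδ, h1⟩ := G3b_small h ht₀ hε
    obtain ⟨n, hn⟩ := exists_nat_one_div_lt hδ
    refine ⟨n, fun j hj => ?_⟩
    rw [Real.dist_eq, sub_zero, abs_of_nonneg (hJ0 j)]
    apply h1 _ (hp0 j) (hpσ j)
    have h2 : 1 / ((j : ℝ) + 1) ≤ 1 / ((n : ℝ) + 1) := by
      apply one_div_le_one_div_of_le (by positivity)
      have : (n : ℝ) ≤ j := by exact_mod_cast hj
      linarith
    have := hpη j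
    linarith
  set I : ℝ := ∫ τ in (0)..t₀, gradSq Ω (G τ) with hI
  have hIle : ∀ s, 0 ≤ s → s ≤ t₀ → ∫ τ in s..t₀, gradSq Ω (G τ) ≤ I := by
    intro s h1 h2
    have i1 := Pool.Agent.Helper52.NSE.ii_of hgi le_rfl h1 (h2.trans ht₀.2)
    have i2 := Pool.Agent.Helper52.NSE.ii_of hgi h1 h2 ht₀.2
    have e1 := intervalIntegral.integral_add_adjacent_intervals i1 i2
    have n1 : 0 ≤ ∫ τ in (0)..s, gradSq Ω (G τ) :=
      intervalIntegral.integral_nonneg h1 fun τ _ => hg0 τ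
    rw [hI, ← e1]
    linarith
  refine ⟨x, r, fun j => G4b_v (U j) t₀ (x j) (r j), C, c,
    fun j => C * (r j) ^ (1 / 2 : ℝ) + C * (r j) ^ (1 / 4 : ℝ) * Real.sqrt I + (C + 1) * J j,
    fun j ρ => J j + Real.sqrt (∫ y in Ω ∩ Metric.ball (x j) (r j * ρ), ‖u t₀ y‖ ^ 2),
    ?_, hr0, hrt, hC, hc, ?_⟩
  · intro j
    by_contra hx
    have h1 := hlow j
    rw [(hW j).off _ (hσ j) _ hx, norm_zero] at h1
    have h2 : 0 < c * (t₀ - σ j) ^ (-(3 / 5) : ℝ) := mul_pos hc (Real.rpow_pos_of_pos (hdσ j) _)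
    linarith
  have hrp : ∀ j (a : ℝ), 0 ≤ r j ^ a := fun j a => Real.rpow_nonneg (hr0 j).le _
  have hsI : 0 ≤ Real.sqrt I := Real.sqrt_nonneg _
  constructor
  · -- e0
    have h1 : ContinuousAt (fun d : ℝ => C * d ^ (1 / 2 : ℝ) + C * d ^ (1 / 4 : ℝ) *
        Real.sqrt I) 0 := by
      have c1 : ContinuousAt (fun d : ℝ => d ^ (1 / 2 : ℝ)) 0 :=
        continuousAt_id.rpow_const (Or.inr (by norm_num))
      have c2 : ContinuousAt (fun d : ℝ => d ^ (1 / 4 : ℝ)) 0 :=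
        continuousAt_id.rpow_const (Or.inr (by norm_num))
      exact (c1.const_mul C).add ((c2.const_mul C).mul_const _)
    have h2 := (h1.tendsto.comp hrt).add (hJt.const_mul (C + 1))
    simpa using h2
  · -- g0
    intro ρ
    have h1 := hJt.add (G4b_ball hu x hrt hr0 ρ)
    rwa [add_zero] at h1
  · -- off
    intro j s hs y hy
    exact G4b_off (hW j) (x j) (hwin j s hs).2 hy
  · -- lip
    intro j s hs y z
    exact G4b_lip (hW j) (x j) (hr0 j) (hwin j s hs).1 (hwin j s hs).2 y z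
  · -- l2
    intro j s hs
    exact G4b_memLp (x j) (hr0 j) _ ((hW j).l2 _ (hwin j s hs).2)
  · -- energy
    intro j s hs
    have h1 := G4b_sq (U j (t₀ + r j ^ (5 / 2 : ℝ) * s)) (x j) (hr0 j)
    exact h1.le.trans ((hW j).energy _ (hwin j s hs).2)
  · -- div
    intro j s hs
    exact wdiv_scale (x j) (hr0 j) ((hW j).div _ (hwin j s hs).2)
  · -- grad
    intro j s hs k
    exact G4b_grad (hW j) (x j) (hr0 j) (hwin j s hs).1 (hwin j s hs).2 k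
  · -- time
    intro j s hs t ht hst
    have h1 := G4b_time (hW j) (x j) (hr0 j) (hwin j t ht).1 hst (hwin j s hs).2 (hwin j t ht).2
    have hs2 := (hwin j s hs).2
    have ht2 := (hwin j t ht).2
    have hp2 : (0 : ℝ) < r j ^ (5 / 2 : ℝ) := Real.rpow_pos_of_pos (hr0 j) _
    have h2 := hJle j _ _ hs2.1.le (by
      have := mul_le_mul_of_nonneg_left hst.le hp2.le
      linarith) (ht2.2.le.trans (hqt j).le)
    refine h1.trans ?_
    have h3 := mul_le_mul_of_nonneg_left h2 hC.le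
    have h4 := mul_nonneg hC.le (hrp j (1 / 2))
    have h5 := mul_nonneg (mul_nonneg hC.le (hrp j (1 / 4))) hsI
    have h6 := hJ0 j
    linarith
  · -- cont
    intro j s hs
    have hp2 : (0 : ℝ) < r j ^ (5 / 2 : ℝ) := Real.rpow_pos_of_pos (hr0 j) _
    have hWT : ∀ t ∈ WW j, t₀ + r j ^ (5 / 2 : ℝ) * t ∈ Icc 0 T := by
      intro t ht
      have := (hwin j t ht).2
      exact ⟨(hp0 j).trans this.1.le, this.2.le.trans ((hqt j).le.trans ht₀.2)⟩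
    have c1 := G4b_cont hfi hp2 hWT hs
    have c2 : Tendsto (fun t => C * |t - s| * ((j : ℝ) + 1) + C *
        |∫ τ in (t₀ + r j ^ (5 / 2 : ℝ) * s)..(t₀ + r j ^ (5 / 2 : ℝ) * t), fn Ω f τ|)
        (𝓝[WW j] s) (𝓝 0) := by
      have d1 : Tendsto (fun t => C * |t - s| * ((j : ℝ) + 1)) (𝓝[WW j] s) (𝓝 0) := by
        have : Continuous fun t : ℝ => C * |t - s| * ((j : ℝ) + 1) := by fun_prop
        have := this.tendsto s
        simp only [sub_self, abs_zero, mul_zero, zero_mul] at this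
        exact this.mono_left nhdsWithin_le_nhds
      have d2 := (c1.abs.const_mul C)
      rw [abs_zero, mul_zero] at d2
      have d3 := d1.add d2
      rwa [add_zero] at d3
    refine squeeze_zero' (Eventually.of_forall fun t => sq_nonneg' _) ?_ c2
    filter_upwards [self_mem_nhdsWithin] with t ht
    have hj1 : (0 : ℝ) < (j : ℝ) + 1 := by positivity
    have hinv : ∀ t ∈ WW j, 1 ≤ (-t) * ((j : ℝ) + 1) := by
      intro t ht
      have h2 : t < -(1 / ((j : ℝ) + 1)) := ht.2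
      have h3 : 1 / ((j : ℝ) + 1) < -t := by linarith
      rw [div_lt_iff₀ hj1] at h3
      exact h3.le
    have key : ∀ s ∈ WW j, ∀ t ∈ WW j, s < t →
        sq (fun y => G4b_v (U j) t₀ (x j) (r j) t y - G4b_v (U j) t₀ (x j) (r j) s y) ≤
          C * |t - s| * ((j : ℝ) + 1) + C *
            |∫ τ in (t₀ + r j ^ (5 / 2 : ℝ) * s)..(t₀ + r j ^ (5 / 2 : ℝ) * t), fn Ω f τ| := by
      intro s hs t ht hst
      have h1 := G4b_time (hW j) (x j) (hr0 j) (hwin j t ht).1 hst (hwin j s hs).2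
        (hwin j t ht).2
      refine h1.trans (add_le_add ?_ (mul_le_mul_of_nonneg_left (le_abs_self _) hC.le))
      have h2 := hinv t ht
      have h3 : 0 < -t := by linarith [(hwin j t ht).1]
      rw [div_le_iff₀ h3, abs_of_pos (by linarith)]
      have h4 : 0 ≤ C * (t - s) := mul_nonneg hC.le (by linarith)
      nlinarith
    rcases lt_trichotomy s t with hst | hst | hst
    · exact key s hs t ht hst
    · subst hst
      have : sq (fun y => G4b_v (U j) t₀ (x j) (r j) s y - G4b_v (U j) t₀ (x j) (r j) s y) =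
          0 := by
        unfold sq
        simp
      rw [this]
      positivity
    · have h1 := key t ht s hs hst
      have h2 : sq (fun y => G4b_v (U j) t₀ (x j) (r j) t y - G4b_v (U j) t₀ (x j) (r j) s y) =
          sq (fun y => G4b_v (U j) t₀ (x j) (r j) s y - G4b_v (U j) t₀ (x j) (r j) t y) := by
        unfold sq
        congr 1
        ext y
        rw [norm_sub_rev]
      rw [h2, abs_sub_comm, intervalIntegral.integral_symm, abs_neg]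
      exact h1
  · -- eqn
    intro j φ hφ s hs t ht hst
    have h1 := G4b_eqn (hW j) (x j) (hr0 j) hφ (hwin j t ht).1 hst (hwin j s hs).2 (hwin j t ht).2
    have hs2 := (hwin j s hs).2
    have ht2 := (hwin j t ht).2
    have hp2 : (0 : ℝ) < r j ^ (5 / 2 : ℝ) := Real.rpow_pos_of_pos (hr0 j) _
    have h2 := hJle j _ _ hs2.1.le (by
      have := mul_le_mul_of_nonneg_left hst.le hp2.le
      linarith) (ht2.2.le.trans (hqt j).le)
    have h4 := mul_nonneg hC.le (hrp j (1 / 2))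
    have h5 := mul_nonneg (mul_nonneg hC.le (hrp j (1 / 4))) hsI
    have h6 := hJ0 j
    have h7 : 0 ≤ ∫ τ in s..t, (-τ) ^ (-(2 / 5) : ℝ) := by
      refine intervalIntegral.integral_nonneg hst.le fun τ hτ => Real.rpow_nonneg ?_ _
      have := (hwin j t ht).1
      linarith [hτ.2]
    refine h1.trans (add_le_add ?_ ?_)
    · refine mul_le_mul_of_nonneg_right (mul_le_mul_of_nonneg_right ?_ (Real.sqrt_nonneg _)) h7
      have : 0 ≤ (C + 1) * J j := by positivity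
      linarith
    · rw [mul_comm]
      refine mul_le_mul_of_nonneg_right ?_ (Real.sqrt_nonneg _)
      have : 0 ≤ C * J j := by positivity
      linarith
  · -- fin
    intro j φ hφ M ρ hM hρ s hs
    have h1 := G4b_fin (hW j) hΩm hu (x j) (hr0 j) hφ hM hρ (hwin j s hs).1 (hwin j s hs).2
    have hs2 := (hwin j s hs).2
    have hs3 : t₀ + r j ^ (5 / 2 : ℝ) * s ≤ t₀ := hs2.2.le.trans (hqt j).le
    have h2 := hJle j _ _ hs2.1.le hs3 le_rfl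
    have h3 := hIle _ ((hp0 j).trans hs2.1.le) hs3
    have h4 := mul_nonneg hC.le (hrp j (1 / 2))
    have h5 := mul_nonneg hC.le (hrp j (1 / 4))
    have h6 := hJ0 j
    refine h1.trans (add_le_add (add_le_add le_rfl ?_) ?_)
    · refine mul_le_mul_of_nonneg_right (mul_le_mul_of_nonneg_right ?_ (Real.sqrt_nonneg _))
        (Real.sqrt_nonneg _)
      have h7 := mul_le_mul_of_nonneg_left (Real.sqrt_le_sqrt h3) h5
      have : 0 ≤ (C + 1) * J j := by positivity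
      linarith
    · refine mul_le_mul_of_nonneg_left ?_ (Real.sqrt_nonneg _)
      linarith
  · -- conc
    intro j
    unfold G4b_v
    have e1 : t₀ + r j ^ (5 / 2 : ℝ) * (-1) = σ j := by rw [hr5]; ring
    rw [e1, smul_zero, add_zero, norm_smul, Real.norm_of_nonneg (hrp j _)]
    have h1 := hlow j
    have h2 : r j ^ (3 / 2 : ℝ) * (t₀ - σ j) ^ (-(3 / 5) : ℝ) = 1 := by
      rw [hr]
      simp only
      rw [← Real.rpow_mul (hdσ j).le, ← Real.rpow_add (hdσ j)]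
      norm_num
    have h3 := mul_le_mul_of_nonneg_left h1 (hrp j (3 / 2))
    have h4 : r j ^ (3 / 2 : ℝ) * (c * (t₀ - σ j) ^ (-(3 / 5) : ℝ)) = c := by
      rw [mul_left_comm, h2, mul_one]
    rw [h4] at h3
    exact h3

end Pool.Agent.Helper60.EC
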