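import Pool.Agent.Helper60.EC.GDefs
import Pool.Agent.Helper52.NSE.Geom

/-! Project EC, G5: blow-up limits of a smooth domain -/

set_option autoImplicit false

open MeasureTheory Set Filter Topology
open scoped ENNReal ContDiff

noncomputable section

namespace Pool.Agent.Helper60.EC

open Pool.Agent.Helper52.NSE (E3 pd divg TestField IsSmoothBoundedDomain MemH1s MemL2s
  IsWeakSolution gradSq)

/-- Second-order Taylor bound for the defining function, near a bounded set -/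
theorem G5_taylor {q : E3 → ℝ} (hq : ContDiff ℝ ∞ q) {Ω : Set E3}
    (hb : Bornology.IsBounded Ω) :
    ∃ M L : ℝ, 0 ≤ M ∧ 0 ≤ L ∧ (∀ x ∈ Ω, ‖fderiv ℝ q x‖ ≤ M) ∧
      ∀ x ∈ Ω, ∀ (t : ℝ), 0 < t → ∀ y : E3, t * ‖y‖ ≤ 1 →
        |q (x + t • y) - q x - t * fderiv ℝ q x y| ≤ L * (t * ‖y‖) ^ 2 := by
  obtain ⟨R, hR⟩ := hb.subset_closedBall (0 : E3)
  have hBc : IsCompact (Metric.closedBall (0 : E3) (R + 1)) := isCompact_closedBall _ _
  obtain ⟨M, hM⟩ := hBc.exists_bound_of_continuousOn (f := fderiv ℝ q)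
    (hq.continuous_fderiv (by simp)).continuousOn
  obtain ⟨L, hL⟩ := hBc.exists_bound_of_continuousOn (f := fderiv ℝ (fderiv ℝ q))
    ((hq.fderiv_right (m := ∞) (by simp)).continuous_fderiv (by simp)).continuousOn
  refine ⟨max M 0, max L 0, le_max_right _ _, le_max_right _ _, ?_, ?_⟩
  · intro x hx
    refine (hM x ?_).trans (le_max_left _ _)
    exact Metric.closedBall_subset_closedBall (by linarith) (hR hx)
  · intro x hx t ht y hy
    have hx0 : ‖x‖ ≤ R := by simpa using hR hx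
    have hx1 : x ∈ Metric.closedBall (0 : E3) (R + 1) :=
      Metric.closedBall_subset_closedBall (by linarith) (hR hx)
    have hn : ‖t • y‖ = t * ‖y‖ := by rw [norm_smul, Real.norm_of_nonneg ht.le]
    have hy1 : x + t • y ∈ Metric.closedBall (0 : E3) (R + 1) := by
      rw [mem_closedBall_zero_iff]
      calc ‖x + t • y‖ ≤ ‖x‖ + ‖t • y‖ := norm_add_le _ _
        _ ≤ R + 1 := by rw [hn]; linarith
    have hL1 : ∀ x ∈ Metric.closedBall (0 : E3) (R + 1),
        ∀ y ∈ Metric.closedBall (0 : E3) (R + 1),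
        ‖fderiv ℝ q x - fderiv ℝ q y‖ ≤ (max L 0) * ‖x - y‖ := by
      intro x hx y hy
      exact (convex_closedBall (0 : E3) (R + 1)).norm_image_sub_le_of_norm_fderiv_le
        (f := fderiv ℝ q) (fun z _ => ((hq.fderiv_right (m := ∞) (by simp)).differentiable
          (by simp)) z) (fun z hz => (hL z hz).trans (le_max_left _ _)) hy hx
    have h := Pool.Agent.Helper52.NSE.taylor_bound hq (convex_closedBall (0 : E3) (R + 1))
      (le_max_right L 0) hL1 hx1 hy1
    have e : x + t • y - x = t • y := by abel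
    rw [e, hn, map_smul, smul_eq_mul, Real.norm_eq_abs] at h
    exact h

theorem domains {Ω : Set E3} (hΩ : IsSmoothBoundedDomain Ω) (x : ℕ → E3) (r : ℕ → ℝ)
    (hx : ∀ j, x j ∈ Ω) (hr : ∀ j, 0 < r j) (hr0 : Tendsto r atTop (𝓝 0)) :
    ∃ φ : ℕ → ℕ, StrictMono φ ∧
      ((∀ K : Set E3, IsCompact K → ∀ᶠ j in atTop, ∀ y ∈ K, x (φ j) + r (φ j) • y ∈ Ω) ∨
      ∃ (n : E3) (d : ℝ), ‖n‖ = 1 ∧
        (∀ K : Set E3, IsCompact K → K ⊆ Hs n d →
          ∀ᶠ j in atTop, ∀ y ∈ K, x (φ j) + r (φ j) • y ∈ Ω) ∧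
        ∀ y, d < inner ℝ n y → ∀ᶠ j in atTop, x (φ j) + r (φ j) • y ∉ Ω) := by
  obtain ⟨q, hq, hΩq, hq0⟩ := hΩ.defining
  obtain ⟨M, L, hM0, hL0, hM, hT⟩ := G5_taylor hq hΩ.bdd
  have hmem : ∀ z, z ∈ Ω ↔ q z < 0 := by intro z; rw [hΩq]; rfl
  set a : ℕ → ℝ := fun j => -q (x j) / r j with ha
  have ha0 : ∀ j, 0 ≤ a j := by
    intro j
    have := (hmem _).1 (hx j)
    exact div_nonneg (by linarith) (hr j).le
  have haq : ∀ j, q (x j) = -(a j * r j) := by
    intro j
    simp only [ha]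
    rw [div_mul_cancel₀ _ (hr j).ne']
    ring
  by_cases hA : ∀ A : ℕ, ∃ᶠ k in atTop, (A : ℝ) < a k
  · obtain ⟨φ, hφ, hφa⟩ := Filter.extraction_forall_of_frequently hA
    refine ⟨φ, hφ, Or.inl ?_⟩
    intro K hK
    obtain ⟨N, hN⟩ := hK.isBounded.exists_norm_le
    have hr1 : Tendsto (fun j => r (φ j)) atTop (𝓝 0) := hr0.comp hφ.tendsto_atTop
    have e1 : ∀ᶠ j in atTop, r (φ j) * (max N 0) < 1 := by
      have : Tendsto (fun j => r (φ j) * (max N 0)) atTop (𝓝 (0 * max N 0)) := hr1.mul_const _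
      rw [zero_mul] at this
      exact this.eventually (gt_mem_nhds one_pos)
    have e2 : ∀ᶠ j : ℕ in atTop, M * (max N 0) + L * (max N 0) < (j : ℝ) :=
      tendsto_natCast_atTop_atTop.eventually (eventually_gt_atTop _)
    filter_upwards [e1, e2] with j h1 h2 y hy
    rw [hmem]
    have hyN : ‖y‖ ≤ max N 0 := (hN y hy).trans (le_max_left _ _)
    have hN0 : 0 ≤ max N 0 := le_max_right _ _
    have hrj := hr (φ j)
    have hty : r (φ j) * ‖y‖ ≤ 1 := (mul_le_mul_of_nonneg_left hyN hrj.le).trans h1.le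
    have h3 := (abs_le.1 (hT _ (hx (φ j)) _ hrj y hty)).2
    have h4 : fderiv ℝ q (x (φ j)) y ≤ M * max N 0 := by
      calc fderiv ℝ q (x (φ j)) y ≤ ‖fderiv ℝ q (x (φ j)) y‖ := Real.le_norm_self _
        _ ≤ ‖fderiv ℝ q (x (φ j))‖ * ‖y‖ := ContinuousLinearMap.le_opNorm _ _
        _ ≤ M * max N 0 := mul_le_mul (hM _ (hx _)) hyN (norm_nonneg _) hM0
    have h5 : (r (φ j) * ‖y‖) ^ 2 ≤ r (φ j) * max N 0 := by
      have h6 : 0 ≤ r (φ j) * ‖y‖ := by positivity
      calc (r (φ j) * ‖y‖) ^ 2 = (r (φ j) * ‖y‖) * (r (φ j) * ‖y‖) := by ring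
        _ ≤ 1 * (r (φ j) * ‖y‖) := mul_le_mul_of_nonneg_right hty h6
        _ ≤ r (φ j) * max N 0 := by
          rw [one_mul]; exact mul_le_mul_of_nonneg_left hyN hrj.le
    have h7 : M * (max N 0) + L * (max N 0) < a (φ j) := h2.trans (hφa j)
    have h8 := haq (φ j)
    have h9 : r (φ j) * fderiv ℝ q (x (φ j)) y ≤ r (φ j) * (M * max N 0) :=
      mul_le_mul_of_nonneg_left h4 hrj.le
    have h10 : L * (r (φ j) * ‖y‖) ^ 2 ≤ L * (r (φ j) * max N 0) :=
      mul_le_mul_of_nonneg_left h5 hL0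
    have h11 : 0 < r (φ j) * (a (φ j) - (M * (max N 0) + L * (max N 0))) :=
      mul_pos hrj (by linarith)
    nlinarith [h3, h8, h9, h10, h11]
  · push Not at hA
    obtain ⟨A, hA⟩ := hA
    have hb : IsCompact (closure Ω ×ˢ Icc (0 : ℝ) A) :=
      hΩ.bdd.isCompact_closure.prod isCompact_Icc
    have hfr : ∃ᶠ k in atTop, (x k, a k) ∈ closure Ω ×ˢ Icc (0 : ℝ) A := by
      refine Eventually.frequently ?_
      filter_upwards [hA] with k hk
      exact ⟨subset_closure (hx k), ha0 k, hk⟩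
    obtain ⟨⟨xs, as⟩, -, φ, hφ, hlim⟩ := hb.tendsto_subseq' hfr
    have hlx : Tendsto (fun j => x (φ j)) atTop (𝓝 xs) :=
      (continuous_fst.tendsto _).comp hlim
    have hla : Tendsto (fun j => a (φ j)) atTop (𝓝 as) :=
      (continuous_snd.tendsto _).comp hlim
    have hr1 : Tendsto (fun j => r (φ j)) atTop (𝓝 0) := hr0.comp hφ.tendsto_atTop
    have hqx : q xs = 0 := by
      have h1 : Tendsto (fun j => q (x (φ j))) atTop (𝓝 (q xs)) :=
        (hq.continuous.tendsto _).comp hlx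
      have h2 : Tendsto (fun j => q (x (φ j))) atTop (𝓝 (-(as * 0))) := by
        have : (fun j => q (x (φ j))) = fun j => -(a (φ j) * r (φ j)) := by
          funext j; exact haq _
        rw [this]
        exact (hla.mul hr1).neg
      simpa using tendsto_nhds_unique h1 h2
    have hne := hq0 xs hqx
    set z := fderiv ℝ q xs with hz
    set g : E3 := (InnerProductSpace.toDual ℝ E3).symm z with hg
    have hgi : ∀ v, inner ℝ g v = z v := by
      intro v
      rw [hg, InnerProductSpace.toDual_symm_apply]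
    have hgn : ‖g‖ = ‖z‖ := LinearIsometryEquiv.norm_map _ _
    have hg0 : 0 < ‖g‖ := by rw [hgn]; exact norm_pos_iff.2 hne
    have hDz : Tendsto (fun j => ‖fderiv ℝ q (x (φ j)) - z‖) atTop (𝓝 0) := by
      have h1 : Tendsto (fun j => fderiv ℝ q (x (φ j))) atTop (𝓝 z) :=
        ((hq.continuous_fderiv (by simp)).tendsto _).comp hlx
      simpa using (h1.sub_const z).norm
    have hin : ∀ y, inner ℝ (‖g‖⁻¹ • g) y = ‖g‖⁻¹ * z y := by
      intro y
      rw [inner_smul_left, hgi]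
      simp
    refine ⟨φ, hφ, Or.inr ⟨‖g‖⁻¹ • g, ‖g‖⁻¹ * as, ?_, ?_, ?_⟩⟩
    · rw [norm_smul, norm_inv, norm_norm, inv_mul_cancel₀ hg0.ne']
    · intro K hK hKs
      rcases K.eq_empty_or_nonempty with rfl | hKn
      · simp
      obtain ⟨y0, hy0, hmax⟩ := hK.exists_isMaxOn hKn (f := fun y => z y)
        z.continuous.continuousOn
      have hlt : z y0 < as := by
        have h1 := hKs hy0
        simp only [Hs, mem_setOf_eq] at h1
        rw [hin] at h1
        exact lt_of_mul_lt_mul_left h1 (by positivity)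
      obtain ⟨N, hN⟩ := hK.isBounded.exists_norm_le
      have hN0 : 0 ≤ max N 0 := le_max_right _ _
      have e1 : ∀ᶠ j in atTop, r (φ j) * (max N 0) < 1 := by
        have : Tendsto (fun j => r (φ j) * (max N 0)) atTop (𝓝 (0 * max N 0)) := hr1.mul_const _
        rw [zero_mul] at this
        exact this.eventually (gt_mem_nhds one_pos)
      have e2 : ∀ᶠ j in atTop, -a (φ j) + z y0 + ‖fderiv ℝ q (x (φ j)) - z‖ * max N 0
          + L * r (φ j) * (max N 0) ^ 2 < 0 := by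
        have h1 : Tendsto (fun j => -a (φ j) + z y0 + ‖fderiv ℝ q (x (φ j)) - z‖ * max N 0
          + L * r (φ j) * (max N 0) ^ 2) atTop
            (𝓝 (-as + z y0 + 0 * max N 0 + L * 0 * (max N 0) ^ 2)) :=
          (((hla.neg).add_const _).add (hDz.mul_const _)).add
            ((hr1.const_mul L).mul_const _)
        refine h1.eventually (gt_mem_nhds ?_)
        simp only [zero_mul, mul_zero, add_zero]
        linarith
      filter_upwards [e1, e2] with j h1 h2 y hy
      rw [hmem]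
      have hyN : ‖y‖ ≤ max N 0 := (hN y hy).trans (le_max_left _ _)
      have hrj := hr (φ j)
      have hty : r (φ j) * ‖y‖ ≤ 1 := (mul_le_mul_of_nonneg_left hyN hrj.le).trans h1.le
      have h3 := (abs_le.1 (hT _ (hx (φ j)) _ hrj y hty)).2
      have h4 : fderiv ℝ q (x (φ j)) y ≤ z y0 + ‖fderiv ℝ q (x (φ j)) - z‖ * max N 0 := by
        have h5 : (fderiv ℝ q (x (φ j)) - z) y ≤ ‖fderiv ℝ q (x (φ j)) - z‖ * max N 0 :=
          calc (fderiv ℝ q (x (φ j)) - z) y ≤ ‖(fderiv ℝ q (x (φ j)) - z) y‖ :=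
                Real.le_norm_self _
            _ ≤ ‖fderiv ℝ q (x (φ j)) - z‖ * ‖y‖ := ContinuousLinearMap.le_opNorm _ _
            _ ≤ _ := mul_le_mul_of_nonneg_left hyN (norm_nonneg _)
        have h6 : z y ≤ z y0 := hmax hy
        rw [ContinuousLinearMap.sub_apply] at h5
        linarith
      have h5 : (r (φ j) * ‖y‖) ^ 2 ≤ r (φ j) * (r (φ j) * (max N 0) ^ 2) := by
        have h6 : ‖y‖ ^ 2 ≤ (max N 0) ^ 2 := pow_le_pow_left₀ (norm_nonneg _) hyN 2
        have h7 : r (φ j) ^ 2 * ‖y‖ ^ 2 ≤ r (φ j) ^ 2 * (max N 0) ^ 2 :=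
          mul_le_mul_of_nonneg_left h6 (by positivity)
        nlinarith [h7]
      have h8 := haq (φ j)
      have h9 := mul_le_mul_of_nonneg_left h4 hrj.le
      have h10 := mul_le_mul_of_nonneg_left h5 hL0
      have h11 := mul_neg_of_pos_of_neg hrj h2
      nlinarith [h3, h8, h9, h10, h11]
    · intro y hy
      rw [hin] at hy
      have hlt : as < z y := lt_of_mul_lt_mul_left hy (by positivity)
      have e1 : ∀ᶠ j in atTop, r (φ j) * ‖y‖ < 1 := by
        have : Tendsto (fun j => r (φ j) * ‖y‖) atTop (𝓝 (0 * ‖y‖)) := hr1.mul_const _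
        rw [zero_mul] at this
        exact this.eventually (gt_mem_nhds one_pos)
      have e2 : ∀ᶠ j in atTop, 0 < -a (φ j) + z y - ‖fderiv ℝ q (x (φ j)) - z‖ * ‖y‖
          - L * r (φ j) * ‖y‖ ^ 2 := by
        have h1 : Tendsto (fun j => -a (φ j) + z y - ‖fderiv ℝ q (x (φ j)) - z‖ * ‖y‖
          - L * r (φ j) * ‖y‖ ^ 2) atTop
            (𝓝 (-as + z y - 0 * ‖y‖ - L * 0 * ‖y‖ ^ 2)) :=
          (((hla.neg).add_const _).sub (hDz.mul_const _)).sub
            ((hr1.const_mul L).mul_const _)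
        refine h1.eventually (lt_mem_nhds ?_)
        simp only [zero_mul, mul_zero, sub_zero]
        linarith
      filter_upwards [e1, e2] with j h1 h2
      rw [hmem, not_lt]
      have hrj := hr (φ j)
      have h3 := (abs_le.1 (hT _ (hx (φ j)) _ hrj y h1.le)).1
      have h4 : z y - ‖fderiv ℝ q (x (φ j)) - z‖ * ‖y‖ ≤ fderiv ℝ q (x (φ j)) y := by
        have h5 : -((fderiv ℝ q (x (φ j)) - z) y) ≤ ‖fderiv ℝ q (x (φ j)) - z‖ * ‖y‖ :=
          calc -((fderiv ℝ q (x (φ j)) - z) y) ≤ ‖(fderiv ℝ q (x (φ j)) - z) y‖ :=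
                neg_le_abs _
            _ ≤ ‖fderiv ℝ q (x (φ j)) - z‖ * ‖y‖ := ContinuousLinearMap.le_opNorm _ _
        rw [ContinuousLinearMap.sub_apply] at h5
        linarith
      have h8 := haq (φ j)
      have h9 := mul_le_mul_of_nonneg_left h4 hrj.le
      have h11 := mul_pos hrj h2
      nlinarith [h3, h8, h9, h11]

end Pool.Agent.Helper60.EC
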