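import Pool.Agent.Helper60.EC.GDefs
import Pool.Agent.Helper60.EC.D1
import Pool.Agent.Helper60.EC.Cpt

/-! Project EC, G6: the limit of the rescaled flows -/

set_option autoImplicit false

open MeasureTheory Set Filter Topology
open scoped ENNReal ContDiff

noncomputable section

namespace Pool.Agent.Helper60.EC

open Pool.Agent.Helper52.NSE (E3 pd divg TestField IsSmoothBoundedDomain MemH1s MemL2s
  IsWeakSolution gradSq)

theorem G6_neg {j : ℕ} {s : ℝ} (h : s ∈ WW j) : s < 0 := by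
  have h1 : 0 < 1 / ((j : ℝ) + 1) := by positivity
  have := h.2
  linarith

theorem G6_mono {j k : ℕ} (h : j ≤ k) : WW j ⊆ WW k := by
  have h1 : (j : ℝ) ≤ k := by exact_mod_cast h
  refine Ioo_subset_Ioo (by linarith) ?_
  have h2 : 1 / ((k : ℝ) + 1) ≤ 1 / ((j : ℝ) + 1) :=
    one_div_le_one_div_of_le (by positivity) (by linarith)
  linarith

theorem G6_ev {s : ℝ} (hs : s < 0) : ∃ n : ℕ, ∀ j, n ≤ j → s ∈ WW j := by
  obtain ⟨n1, hn1⟩ := exists_nat_gt (-s)
  obtain ⟨n2, hn2⟩ := exists_nat_gt (1 / (-s))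
  refine ⟨max n1 n2, fun j hj => ?_⟩
  have h1 : (n1 : ℝ) ≤ j := by exact_mod_cast (le_max_left _ _).trans hj
  have h2 : (n2 : ℝ) ≤ j := by exact_mod_cast (le_max_right _ _).trans hj
  constructor
  · linarith
  · have h3 : 1 / ((j : ℝ) + 1) < -s := by
      rw [div_lt_iff₀ (by positivity)]
      have h4 : 1 / (-s) < (j : ℝ) + 1 := by linarith
      rw [div_lt_iff₀ (by linarith)] at h4
      linarith
    linarith

theorem BSeq.sub {O : ℕ → Set E3} {v : ℕ → ℝ → E3 → E3} {C c : ℝ} {e : ℕ → ℝ}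
    {g : ℕ → ℝ → ℝ} (h : BSeq O v C c e g) {φ : ℕ → ℕ} (hφ : StrictMono φ) :
    BSeq (fun j => O (φ j)) (fun j => v (φ j)) C c (fun j => e (φ j)) (fun j => g (φ j)) := by
  have hW : ∀ j, WW j ⊆ WW (φ j) := fun j => G6_mono (hφ.id_le j)
  refine ⟨h.e0.comp hφ.tendsto_atTop, fun ρ => (h.g0 ρ).comp hφ.tendsto_atTop,
    fun j s hs => h.off _ s (hW j hs), fun j s hs => h.lip _ s (hW j hs),
    fun j s hs => h.l2 _ s (hW j hs), fun j s hs => h.energy _ s (hW j hs),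
    fun j s hs => h.div _ s (hW j hs), fun j s hs => h.grad _ s (hW j hs),
    fun j s hs t ht => h.time _ s (hW j hs) t (hW j ht),
    fun j s hs => (h.cont _ s (hW j hs)).mono_left (nhdsWithin_mono _ (hW j)),
    fun j ψ hψ s hs t ht => h.eqn _ ψ hψ s (hW j hs) t (hW j ht),
    fun j ψ hψ M ρ hM hρ s hs => h.fin _ ψ hψ M ρ hM hρ s (hW j hs), fun j => h.conc _⟩

theorem G6_sup : ∃ c : ℝ, 0 < c ∧ ∀ (w : E3 → E3) (L : ℝ), 0 < L →
    (∀ x y, ‖w x - w y‖ ≤ L * ‖x - y‖) → MemLp w 2 volume →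
      ∀ x, ‖w x‖ ^ 5 ≤ L ^ 3 * sq w / c := by
  obtain ⟨c, hc, h⟩ := sup_le_energy
  refine ⟨c, hc, fun w L hL hw h2 x => ?_⟩
  rw [le_div_iff₀ hc, mul_comm]
  refine (h w L hL hw h2 x).trans ?_
  exact mul_le_mul_of_nonneg_left (sqOn_le_sq _ h2) (by positivity)

theorem G6_pow {y Q : ℝ} (hy : 0 ≤ y) (h : y ^ 5 ≤ Q) : y ≤ 1 + Q := by
  rcases le_total y 1 with h1 | h1
  · have : 0 ≤ Q := (pow_nonneg hy 5).trans h
    linarith
  · have : y ≤ y ^ 5 := le_self_pow₀ h1 (by norm_num)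
    linarith

/-- Fatou -/
theorem G6_fatou {f : ℕ → E3 → E3} {g : E3 → E3} {b : ℕ → ℝ} {B : ℝ}
    (hf : ∀ᶠ j in atTop, MemLp (f j) 2 volume ∧ sq (f j) ≤ b j)
    (hb : Tendsto b atTop (𝓝 B)) (hlim : ∀ x, Tendsto (fun j => f j x) atTop (𝓝 (g x))) :
    MemLp g 2 volume ∧ sq g ≤ B := by
  obtain ⟨n, hn⟩ := eventually_atTop.1 hf
  set f' : ℕ → E3 → E3 := fun j => f (j + n) with hf'
  have h1 : ∀ j, MemLp (f' j) 2 volume ∧ sq (f' j) ≤ b (j + n) := fun j => hn _ (by omega)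
  have hlim' : ∀ x, Tendsto (fun j => f' j x) atTop (𝓝 (g x)) := fun x =>
    (tendsto_add_atTop_iff_nat n).2 (hlim x)
  have hb' : Tendsto (fun j => b (j + n)) atTop (𝓝 B) := (tendsto_add_atTop_iff_nat n).2 hb
  have hB : 0 ≤ B := ge_of_tendsto' hb' fun j => (sq_nonneg' _).trans (h1 j).2
  have hgm : AEStronglyMeasurable g volume :=
    aestronglyMeasurable_of_tendsto_ae atTop (fun j => (h1 j).1.1) (ae_of_all _ hlim')
  have hsq : ∀ u : E3 → E3, MemLp u 2 volume →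
      eLpNorm u 2 volume = ENNReal.ofReal (Real.sqrt (sq u)) := by
    intro u hu
    rw [hu.eLpNorm_eq_integral_rpow_norm (by norm_num) (by norm_num)]
    congr 1
    unfold sq
    rw [Real.sqrt_eq_rpow]
    simp
  have h2 : eLpNorm g 2 volume ≤ ENNReal.ofReal (Real.sqrt B) := by
    refine (Lp.eLpNorm_lim_le_liminf_eLpNorm (fun j => (h1 j).1.1) g
      (ae_of_all _ hlim')).trans ?_
    have h3 : Tendsto (fun j => ENNReal.ofReal (Real.sqrt (b (j + n)))) atTop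
        (𝓝 (ENNReal.ofReal (Real.sqrt B))) :=
      ENNReal.tendsto_ofReal ((Real.continuous_sqrt.tendsto B).comp hb')
    rw [← h3.liminf_eq]
    refine liminf_le_liminf (Eventually.of_forall fun j => ?_)
    rw [hsq _ (h1 j).1]
    exact ENNReal.ofReal_le_ofReal (Real.sqrt_le_sqrt (h1 j).2)
  have hg : MemLp g 2 volume := ⟨hgm, h2.trans_lt ENNReal.ofReal_lt_top⟩
  refine ⟨hg, ?_⟩
  rw [hsq g hg, ENNReal.ofReal_le_ofReal_iff (Real.sqrt_nonneg _)] at h2
  exact (Real.sqrt_le_sqrt_iff hB).1 h2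

theorem G6_cc {Ω : Set E3} {φ : E3 → E3} (h : TestField Ω φ) : Cc φ := ⟨h.smooth, h.compact⟩

theorem G6_bd {φ : E3 → E3} (hφ : Cc φ) : ∃ M : ℝ, 0 ≤ M ∧ ∀ i x, ‖D i φ x‖ ≤ M := by
  have h : ∀ i, ∃ M : ℝ, ∀ x, ‖D i φ x‖ ≤ M := fun i =>
    (cc_D hφ i).smooth.continuous.bounded_above_of_compact_support (cc_D hφ i).comp
  choose M hM using h
  refine ⟨∑ i, |M i|, Finset.sum_nonneg fun i _ => abs_nonneg _, fun i x => ?_⟩
  exact (hM i x).trans ((le_abs_self _).trans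
    (Finset.single_le_sum (f := fun i => |M i|) (fun i _ => abs_nonneg _) (Finset.mem_univ i)))

/-- the integrand of `nl` -/
theorem G6_nlm {φ w : E3 → E3} (hφ : Cc φ) (hw : AEStronglyMeasurable w volume) :
    AEStronglyMeasurable (fun x => ∑ i, (w x) i * inner ℝ (w x) (D i φ x)) volume := by
  refine Finset.aestronglyMeasurable_fun_sum _ fun i _ => ?_
  have h1 : AEStronglyMeasurable (fun x => (w x) i) volume :=
    (EuclideanSpace.proj (𝕜 := ℝ) i : E3 →L[ℝ] ℝ).continuous.comp_aestronglyMeasurable hw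
  exact h1.mul (hw.inner (cc_D hφ i).smooth.continuous.aestronglyMeasurable)

theorem G6_pt (a a' : E3) (d : Fin 3 → E3) {M : ℝ} (hM : ∀ i, ‖d i‖ ≤ M) :
    |(∑ i, a i * inner ℝ a (d i)) - ∑ i, a' i * inner ℝ a' (d i)| ≤
      3 * M * (‖a - a'‖ * (‖a‖ + ‖a'‖)) := by
  rw [← Finset.sum_sub_distrib]
  refine (Finset.abs_sum_le_sum_abs _ _).trans ?_
  have h1 : ∀ i : Fin 3, |a i * inner ℝ a (d i) - a' i * inner ℝ a' (d i)| ≤
      M * (‖a - a'‖ * (‖a‖ + ‖a'‖)) := by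
    intro i
    have e : a i * inner ℝ a (d i) - a' i * inner ℝ a' (d i) =
        (a - a') i * inner ℝ a (d i) + a' i * inner ℝ (a - a') (d i) := by
      rw [inner_sub_left, PiLp.sub_apply]; ring
    have hi : ∀ z : E3, |z i| ≤ ‖z‖ := fun z => by
      have := PiLp.norm_apply_le z i
      simpa using this
    rw [e]
    refine (abs_add_le _ _).trans ?_
    rw [abs_mul, abs_mul]
    have h2 := abs_real_inner_le_norm a (d i)
    have h3 := abs_real_inner_le_norm (a - a') (d i)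
    have h4 : |(a - a') i| * |inner ℝ a (d i)| ≤ ‖a - a'‖ * (‖a‖ * M) :=
      mul_le_mul (hi _) (h2.trans (mul_le_mul_of_nonneg_left (hM i) (norm_nonneg _)))
        (abs_nonneg _) (norm_nonneg _)
    have h5 : |a' i| * |inner ℝ (a - a') (d i)| ≤ ‖a'‖ * (‖a - a'‖ * M) :=
      mul_le_mul (hi _) (h3.trans (mul_le_mul_of_nonneg_left (hM i) (norm_nonneg _)))
        (abs_nonneg _) (norm_nonneg _)
    linarith
  refine (Finset.sum_le_sum fun i _ => h1 i).trans (le_of_eq ?_)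
  rw [Fin.sum_const]
  simp
  ring

theorem G6_nli {φ w : E3 → E3} (hφ : Cc φ) (hw : MemLp w 2 volume) :
    Integrable (fun x => ∑ i, (w x) i * inner ℝ (w x) (D i φ x)) volume := by
  obtain ⟨M, hM0, hM⟩ := G6_bd hφ
  refine Integrable.mono' (hw.integrable_norm_pow (by norm_num) |>.const_mul (3 * M))
    (G6_nlm hφ hw.1) (ae_of_all _ fun x => ?_)
  have := G6_pt (w x) 0 (fun i => D i φ x) (fun i => hM i x)
  simp only [PiLp.zero_apply, zero_mul, Finset.sum_const_zero, sub_zero, norm_zero, add_zero]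
    at this
  rw [Real.norm_eq_abs]
  refine this.trans (le_of_eq ?_)
  simp [pow_two]

/-- `nl` is Lipschitz on bounded sets of `L²` -/
theorem G6_nl_sub {φ w w' : E3 → E3} (hφ : Cc φ) {M : ℝ} (hM0 : 0 ≤ M)
    (hM : ∀ i x, ‖D i φ x‖ ≤ M) (hw : MemLp w 2 volume) (hw' : MemLp w' 2 volume) :
    |nl φ w - nl φ w'| ≤ 3 * M * (Real.sqrt (sq (fun x => w x - w' x)) *
      (Real.sqrt (sq w) + Real.sqrt (sq w'))) := by
  have hd : MemLp (fun x => w x - w' x) 2 volume := hw.sub hw'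
  have hn : MemLp (fun x => ‖w x - w' x‖) 2 volume := hd.norm
  have hs : MemLp (fun x => ‖w x‖ + ‖w' x‖) 2 volume := hw.norm.add hw'.norm
  have e1 : sq (fun x => ‖w x - w' x‖) = sq (fun x => w x - w' x) := by
    unfold sq; simp
  have e2 : sq (fun x => ‖w x‖) = sq w := by unfold sq; simp
  have e3 : sq (fun x => ‖w' x‖) = sq w' := by unfold sq; simp
  have h1 : nl φ w - nl φ w' = ∫ x, ((∑ i, (w x) i * inner ℝ (w x) (D i φ x)) -
      ∑ i, (w' x) i * inner ℝ (w' x) (D i φ x)) := by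
    unfold nl
    rw [integral_sub (G6_nli hφ hw) (G6_nli hφ hw')]
  have hint : Integrable (fun x => ‖w x - w' x‖ * (‖w x‖ + ‖w' x‖)) volume :=
    hn.integrable_mul hs
  have h2 : |nl φ w - nl φ w'| ≤ ∫ x, 3 * M * (‖w x - w' x‖ * (‖w x‖ + ‖w' x‖)) := by
    rw [h1]
    refine (abs_integral_le_integral_abs).trans ?_
    refine integral_mono ((G6_nli hφ hw).sub (G6_nli hφ hw')).abs (hint.const_mul _) fun x => ?_
    exact G6_pt (w x) (w' x) (fun i => D i φ x) (fun i => hM i x)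
  rw [integral_const_mul] at h2
  refine h2.trans (mul_le_mul_of_nonneg_left ?_ (by positivity))
  have h3 := ip_le hn hs
  have h4 : ip (fun x => ‖w x - w' x‖) (fun x => ‖w x‖ + ‖w' x‖) =
      ∫ x, ‖w x - w' x‖ * (‖w x‖ + ‖w' x‖) := by
    unfold ip
    congr 1
    funext x
    simp [mul_comm]
  rw [h4, e1] at h3
  refine ((le_abs_self _).trans h3).trans (mul_le_mul_of_nonneg_left ?_ (Real.sqrt_nonneg _))
  have h5 := sqrt_sq_add_le hw.norm hw'.norm
  rwa [e2, e3] at h5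

theorem G6_nl_cont {O : ℕ → Set E3} {v : ℕ → ℝ → E3 → E3} {C c : ℝ} {e : ℕ → ℝ}
    {g : ℕ → ℝ → ℝ} (h : BSeq O v C c e g) (j : ℕ) {φ : E3 → E3} (hφ : Cc φ) :
    ContinuousOn (fun τ => nl φ (v j τ)) (WW j) := by
  obtain ⟨M, hM0, hM⟩ := G6_bd hφ
  intro s hs
  have h1 : Tendsto (fun t => 3 * M * (Real.sqrt (sq (fun x => v j t x - v j s x)) *
      (Real.sqrt C + Real.sqrt C))) (𝓝[WW j] s) (𝓝 (3 * M * (Real.sqrt 0 *
      (Real.sqrt C + Real.sqrt C)))) :=
    (((Real.continuous_sqrt.tendsto 0).comp (h.cont j s hs)).mul_const _).const_mul _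
  rw [Real.sqrt_zero, zero_mul, mul_zero] at h1
  have h2 : Tendsto (fun t => nl φ (v j t) - nl φ (v j s)) (𝓝[WW j] s) (𝓝 0) := by
    refine squeeze_zero_norm' ?_ h1
    filter_upwards [self_mem_nhdsWithin] with t ht
    rw [Real.norm_eq_abs]
    refine (G6_nl_sub hφ hM0 hM (h.l2 j t ht) (h.l2 j s hs)).trans ?_
    have h3 := Real.sqrt_le_sqrt (h.energy j t ht)
    have h4 := Real.sqrt_le_sqrt (h.energy j s hs)
    gcongr
  have h3 := h2.add_const (nl φ (v j s))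
  simpa [ContinuousWithinAt] using h3

/-- bounds of the differences in time -/
theorem G6_time {O : ℕ → Set E3} {v : ℕ → ℝ → E3 → E3} {C c : ℝ} {e : ℕ → ℝ}
    {g : ℕ → ℝ → ℝ} (h : BSeq O v C c e g) (hC : 0 < C) {c0 : ℝ} (hc0 : 0 < c0)
    (hsup : ∀ (w : E3 → E3) (L : ℝ), 0 < L →
    (∀ x y, ‖w x - w y‖ ≤ L * ‖x - y‖) → MemLp w 2 volume →
      ∀ x, ‖w x‖ ^ 5 ≤ L ^ 3 * sq w / c0) {r : ℝ} (hr : r < 0) (j : ℕ)
    {s t : ℝ} (hs : s ∈ WW j) (ht : t ∈ WW j) (hsr : s ≤ r) (htr : t ≤ r) (x : E3) :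
    ‖v j t x - v j s x‖ ^ 5 ≤ (2 * C / (-r)) ^ 3 * (C * |t - s| / (-r) + |e j|) / c0 := by
  -- the case `s < t`
  have key : ∀ s t : ℝ, s ∈ WW j → t ∈ WW j → s ≤ r → t ≤ r → s < t →
      ‖v j t x - v j s x‖ ^ 5 ≤ (2 * C / (-r)) ^ 3 * (C * |t - s| / (-r) + |e j|) / c0 := by
    intro s t hs ht hsr htr hst
    have hr' : 0 < -r := by linarith
    have hL : 0 < 2 * C / (-r) := by positivity
    have hlip : ∀ a b, ‖(v j t a - v j s a) - (v j t b - v j s b)‖ ≤ 2 * C / (-r) * ‖a - b‖ := by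
      intro a b
      have h1 := h.lip j t ht a b
      have h2 := h.lip j s hs a b
      have e1 : (v j t a - v j s a) - (v j t b - v j s b) =
          (v j t a - v j t b) - (v j s a - v j s b) := by abel
      rw [e1]
      refine (norm_sub_le _ _).trans ?_
      have h3 : C / (-t) ≤ C / (-r) := div_le_div_of_nonneg_left hC.le hr' (by linarith)
      have h4 : C / (-s) ≤ C / (-r) := div_le_div_of_nonneg_left hC.le hr' (by linarith)
      have h5 := mul_le_mul_of_nonneg_right h3 (norm_nonneg (a - b))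
      have h6 := mul_le_mul_of_nonneg_right h4 (norm_nonneg (a - b))
      have e2 : 2 * C / (-r) * ‖a - b‖ = C / (-r) * ‖a - b‖ + C / (-r) * ‖a - b‖ := by ring
      rw [e2]
      linarith
    have h1 := hsup (fun x => v j t x - v j s x) _ hL hlip ((h.l2 j t ht).sub (h.l2 j s hs)) x
    refine h1.trans ?_
    have h2 := h.time j s hs t ht hst
    have h3 : sq (fun x => v j t x - v j s x) ≤ C * |t - s| / (-r) + |e j| := by
      refine h2.trans (add_le_add ?_ (le_abs_self _))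
      rw [abs_of_pos (by linarith)]
      exact div_le_div_of_nonneg_left (mul_nonneg hC.le (by linarith)) hr' (by linarith)
    have h4 : 0 ≤ (2 * C / (-r)) ^ 3 := by positivity
    exact div_le_div_of_nonneg_right (mul_le_mul_of_nonneg_left h3 h4) hc0.le
  rcases lt_trichotomy s t with hst | hst | hst
  · exact key s t hs ht hsr htr hst
  · rw [hst]
    have hr' : 0 < -r := by linarith
    simp only [sub_self, norm_zero, abs_zero, mul_zero, zero_div, zero_add]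
    norm_num
    positivity
  · rw [norm_sub_rev, abs_sub_comm]
    exact key t s ht hs htr hsr hst

theorem G6_subseq {O : ℕ → Set E3} {v : ℕ → ℝ → E3 → E3} {C c : ℝ} {e : ℕ → ℝ}
    {g : ℕ → ℝ → ℝ} (h : BSeq O v C c e g) (hC : 0 < C) {c0 : ℝ} (hc0 : 0 < c0)
    (hsup : ∀ (w : E3 → E3) (L : ℝ), 0 < L →
    (∀ x y, ‖w x - w y‖ ≤ L * ‖x - y‖) → MemLp w 2 volume →
      ∀ x, ‖w x‖ ^ 5 ≤ L ^ 3 * sq w / c0) :
    ∃ φ : ℕ → ℕ, StrictMono φ ∧ ∃ v' : ℝ → E3 → E3,
      ∀ s < 0, ∀ x, Tendsto (fun j => v (φ j) s x) atTop (𝓝 (v' s x)) := by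
  classical
  set f : ℕ → (Iio (0 : ℝ)) × E3 → E3 := fun n p =>
    if (p.1 : ℝ) ∈ WW n then v n p.1 p.2 else 0 with hf
  have hb : ∀ p, ∃ M : ℝ, ∀ n, ‖f n p‖ ≤ M := by
    rintro ⟨⟨s, hs⟩, x⟩
    have hs' : 0 < -s := by have : s < 0 := hs; linarith
    refine ⟨1 + (C / (-s)) ^ 3 * C / c0, fun n => ?_⟩
    simp only [hf]
    split_ifs with hn
    · refine G6_pow (norm_nonneg _) ((hsup (v n s) (C / (-s)) (by positivity)
        (h.lip n s hn) (h.l2 n s hn) x).trans ?_)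
      refine div_le_div_of_nonneg_right (mul_le_mul_of_nonneg_left (h.energy n s hn) ?_) hc0.le
      positivity
    · rw [norm_zero]; positivity
  have he : ∀ p, ∀ ε : ℝ, 0 < ε → ∃ U ∈ 𝓝 p, ∃ n₀ : ℕ, ∀ n, n₀ ≤ n → ∀ y ∈ U,
      ‖f n y - f n p‖ ≤ ε := by
    rintro ⟨⟨s, hs⟩, x⟩ ε hε
    have hs0 : s < 0 := hs
    set r : ℝ := s / 2 with hr
    have hr0 : r < 0 := by rw [hr]; linarith
    have hr' : 0 < -r := by linarith
    set K : ℝ := (2 * C / (-r)) ^ 3 / c0 with hK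
    have hK0 : 0 < K := by positivity
    -- choice of the neighbourhood
    set η : ℝ := (ε / 2) ^ 5 / (2 * K) with hη
    have hη0 : 0 < η := by positivity
    set δ : ℝ := min (-s / 2) (η * (-r) / C) with hδ
    have hδ0 : 0 < δ := lt_min (by linarith) (by positivity)
    set δ' : ℝ := ε * (-r) / (2 * C) with hδ'
    have hδ'0 : 0 < δ' := by positivity
    obtain ⟨n1, hn1⟩ := G6_ev (s := 3 * s / 2) (by linarith)
    obtain ⟨n2, hn2⟩ := G6_ev hr0
    have he0 : ∀ᶠ n in atTop, |e n| < η := by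
      have := (tendsto_zero_iff_abs_tendsto_zero _).1 h.e0
      exact this.eventually_lt_const hη0
    obtain ⟨n3, hn3⟩ := eventually_atTop.1 he0
    refine ⟨{p | |(p.1 : ℝ) - s| < δ ∧ ‖p.2 - x‖ < δ'}, ?_, max n1 (max n2 n3), ?_⟩
    · have hopen : IsOpen {p : (Iio (0 : ℝ)) × E3 | |(p.1 : ℝ) - s| < δ ∧ ‖p.2 - x‖ < δ'} := by
        have c1 : Continuous fun p : (Iio (0 : ℝ)) × E3 => |(p.1 : ℝ) - s| := by fun_prop
        have c2 : Continuous fun p : (Iio (0 : ℝ)) × E3 => ‖p.2 - x‖ := by fun_prop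
        exact (isOpen_lt c1 continuous_const).inter (isOpen_lt c2 continuous_const)
      refine hopen.mem_nhds ?_
      simp [hδ0, hδ'0]
    · rintro n hn ⟨⟨t, ht⟩, y⟩ ⟨h1, h2⟩
      simp only at h1 h2
      have hn1' := hn1 n ((le_max_left _ _).trans hn)
      have hn2' := hn2 n ((le_max_left _ _).trans ((le_max_right _ _).trans hn))
      have hn3' := hn3 n ((le_max_right _ _).trans ((le_max_right _ _).trans hn))
      have h3 : |t - s| < -s / 2 := h1.trans_le (min_le_left _ _)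
      have h4 : |t - s| < η * (-r) / C := h1.trans_le (min_le_right _ _)
      rw [abs_lt] at h3
      have hsW : s ∈ WW n := ⟨by have := hn1'.1; linarith, by have := hn2'.2; linarith⟩
      have htW : t ∈ WW n := ⟨by have := hn1'.1; linarith, by have := hn2'.2; linarith⟩
      simp only [hf]
      rw [if_pos htW, if_pos hsW]
      have h5 := G6_time h hC hc0 hsup hr0 n hsW htW (by linarith) (by linarith) x
      have h6 : (2 * C / (-r)) ^ 3 * (C * |t - s| / (-r) + |e n|) / c0 ≤ (ε / 2) ^ 5 := by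
        have h7 : C * |t - s| / (-r) ≤ η := by
          rw [div_le_iff₀ hr']
          rw [lt_div_iff₀ hC] at h4
          linarith
        have h8 : C * |t - s| / (-r) + |e n| ≤ 2 * η := by linarith
        calc (2 * C / (-r)) ^ 3 * (C * |t - s| / (-r) + |e n|) / c0
            = K * (C * |t - s| / (-r) + |e n|) := by rw [hK]; ring
          _ ≤ K * (2 * η) := mul_le_mul_of_nonneg_left h8 hK0.le
          _ = (ε / 2) ^ 5 := by rw [hη]; field_simp
      have h9 : ‖v n t x - v n s x‖ ≤ ε / 2 :=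
        le_of_pow_le_pow_left₀ (by norm_num) (by positivity) (h5.trans h6)
      have h10 : ‖v n t y - v n t x‖ ≤ ε / 2 := by
        refine (h.lip n t htW y x).trans ?_
        have h11 : C / (-t) ≤ C / (-r) := div_le_div_of_nonneg_left hC.le hr' (by linarith)
        calc C / (-t) * ‖y - x‖ ≤ C / (-r) * δ' :=
              mul_le_mul h11 h2.le (norm_nonneg _) (by positivity)
          _ = ε / 2 := by
              rw [hδ']
              have h12 : r ≠ 0 := hr0.ne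
              field_simp
      have e1 : v n t y - v n s x = (v n t y - v n t x) + (v n t x - v n s x) := by abel
      rw [e1]
      refine (norm_add_le _ _).trans ?_
      linarith
  obtain ⟨φ, hφ, g', hg'⟩ := exists_subseq f hb he
  · refine ⟨φ, hφ, fun s x => if hs : s < 0 then g' (⟨s, hs⟩, x) else 0, fun s hs x => ?_⟩
    simp only [hs, dif_pos]
    refine (hg' (⟨s, hs⟩, x)).congr' ?_
    obtain ⟨n, hn⟩ := G6_ev hs
    filter_upwards [eventually_ge_atTop n] with j hj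
    have : s ∈ WW (φ j) := hn _ (hj.trans (hφ.id_le j))
    simp only [hf]
    rw [if_pos this]

theorem G6_ptb (a : E3) (d : Fin 3 → E3) {A : ℝ} (hA : ‖a‖ ≤ A) :
    |∑ i, a i * inner ℝ a (d i)| ≤ A ^ 2 * ∑ i, ‖d i‖ := by
  have hA0 : 0 ≤ A := (norm_nonneg _).trans hA
  refine (Finset.abs_sum_le_sum_abs _ _).trans ?_
  rw [Finset.mul_sum]
  refine Finset.sum_le_sum fun i _ => ?_
  rw [abs_mul]
  have h1 : |a i| ≤ A := by
    have := PiLp.norm_apply_le a i
    rw [Real.norm_eq_abs] at this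
    exact this.trans hA
  have h2 : |inner ℝ a (d i)| ≤ A * ‖d i‖ :=
    (abs_real_inner_le_norm _ _).trans (mul_le_mul_of_nonneg_right hA (norm_nonneg _))
  calc |a i| * |inner ℝ a (d i)| ≤ A * (A * ‖d i‖) :=
        mul_le_mul h1 h2 (abs_nonneg _) hA0
    _ = _ := by ring

/-- uniform bound for the rescaled flows -/
theorem G6_unif {O : ℕ → Set E3} {v : ℕ → ℝ → E3 → E3} {C c : ℝ} {e : ℕ → ℝ}
    {g : ℕ → ℝ → ℝ} (h : BSeq O v C c e g) (hC : 0 < C) {c0 : ℝ} (hc0 : 0 < c0)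
    (hsup : ∀ (w : E3 → E3) (L : ℝ), 0 < L →
    (∀ x y, ‖w x - w y‖ ≤ L * ‖x - y‖) → MemLp w 2 volume →
      ∀ x, ‖w x‖ ^ 5 ≤ L ^ 3 * sq w / c0) {r : ℝ} (hr : r < 0) (j : ℕ)
    {s : ℝ} (hs : s ∈ WW j) (hsr : s ≤ r) (x : E3) :
    ‖v j s x‖ ≤ 1 + (C / (-r)) ^ 3 * C / c0 := by
  have hs0 := G6_neg hs
  refine G6_pow (norm_nonneg _) ((hsup (v j s) (C / (-s)) (div_pos hC (by linarith))
    (h.lip j s hs) (h.l2 j s hs) x).trans ?_)
  refine div_le_div_of_nonneg_right (mul_le_mul ?_ (h.energy j s hs) (sq_nonneg' _) ?_) hc0.le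
  · refine pow_le_pow_left₀ (div_nonneg hC.le (by linarith)) ?_ 3
    exact div_le_div_of_nonneg_left hC.le (by linarith) (by linarith)
  · have : 0 < -r := by linarith
    positivity

theorem G6_ip {O : ℕ → Set E3} {v : ℕ → ℝ → E3 → E3} {C c : ℝ} {e : ℕ → ℝ}
    {g : ℕ → ℝ → ℝ} (h : BSeq O v C c e g) (hC : 0 < C) {c0 : ℝ} (hc0 : 0 < c0)
    (hsup : ∀ (w : E3 → E3) (L : ℝ), 0 < L →
    (∀ x y, ‖w x - w y‖ ≤ L * ‖x - y‖) → MemLp w 2 volume →
      ∀ x, ‖w x‖ ^ 5 ≤ L ^ 3 * sq w / c0) {s : ℝ} (hs : s < 0) {w : E3 → E3}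
    (hlim : ∀ x, Tendsto (fun j => v j s x) atTop (𝓝 (w x))) {ψ : E3 → E3} (hψ : Cc ψ) :
    Tendsto (fun j => ip (v j s) ψ) atTop (𝓝 (ip w ψ)) := by
  obtain ⟨n, hn⟩ := G6_ev hs
  have hψi : Integrable ψ volume := hψ.smooth.continuous.integrable_of_hasCompactSupport hψ.comp
  unfold ip
  refine tendsto_integral_filter_of_dominated_convergence
    (fun x => (1 + (C / (-s)) ^ 3 * C / c0) * ‖ψ x‖) ?_ ?_ (hψi.norm.const_mul _) ?_
  · filter_upwards [eventually_ge_atTop n] with j hj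
    exact (h.l2 j s (hn j hj)).1.inner hψi.1
  · filter_upwards [eventually_ge_atTop n] with j hj
    refine ae_of_all _ fun x => ?_
    rw [Real.norm_eq_abs]
    exact (abs_real_inner_le_norm _ _).trans (mul_le_mul_of_nonneg_right
      (G6_unif h hC hc0 hsup hs j (hn j hj) le_rfl x) (norm_nonneg _))
  · exact ae_of_all _ fun x => (hlim x).inner tendsto_const_nhds

theorem G6_nl {O : ℕ → Set E3} {v : ℕ → ℝ → E3 → E3} {C c : ℝ} {e : ℕ → ℝ}
    {g : ℕ → ℝ → ℝ} (h : BSeq O v C c e g) (hC : 0 < C) {c0 : ℝ} (hc0 : 0 < c0)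
    (hsup : ∀ (w : E3 → E3) (L : ℝ), 0 < L →
    (∀ x y, ‖w x - w y‖ ≤ L * ‖x - y‖) → MemLp w 2 volume →
      ∀ x, ‖w x‖ ^ 5 ≤ L ^ 3 * sq w / c0) {s : ℝ} (hs : s < 0) {w : E3 → E3}
    (hlim : ∀ x, Tendsto (fun j => v j s x) atTop (𝓝 (w x))) {ψ : E3 → E3} (hψ : Cc ψ) :
    Tendsto (fun j => nl ψ (v j s)) atTop (𝓝 (nl ψ w)) := by
  obtain ⟨n, hn⟩ := G6_ev hs
  have hi : Integrable (fun x => ∑ i, ‖D i ψ x‖) volume :=
    integrable_finsetSum _ fun i _ => ((cc_D hψ i).smooth.continuous.integrable_of_hasCompactSupport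
      (cc_D hψ i).comp).norm
  unfold nl
  refine tendsto_integral_filter_of_dominated_convergence
    (fun x => (1 + (C / (-s)) ^ 3 * C / c0) ^ 2 * ∑ i, ‖D i ψ x‖) ?_ ?_ (hi.const_mul _) ?_
  · filter_upwards [eventually_ge_atTop n] with j hj
    exact G6_nlm hψ (h.l2 j s (hn j hj)).1
  · filter_upwards [eventually_ge_atTop n] with j hj
    refine ae_of_all _ fun x => ?_
    rw [Real.norm_eq_abs]
    exact G6_ptb _ (fun i => D i ψ x) (G6_unif h hC hc0 hsup hs j (hn j hj) le_rfl x)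
  · refine ae_of_all _ fun x => tendsto_finsetSum _ fun i _ => ?_
    have h1 : Tendsto (fun j => (v j s x) i) atTop (𝓝 ((w x) i)) :=
      ((EuclideanSpace.proj (𝕜 := ℝ) i : E3 →L[ℝ] ℝ).continuous.tendsto _).comp (hlim x)
    exact h1.mul ((hlim x).inner tendsto_const_nhds)

theorem G6_nlb {O : ℕ → Set E3} {v : ℕ → ℝ → E3 → E3} {C c : ℝ} {e : ℕ → ℝ}
    {g : ℕ → ℝ → ℝ} (h : BSeq O v C c e g) (hC : 0 < C) {c0 : ℝ} (hc0 : 0 < c0)
    (hsup : ∀ (w : E3 → E3) (L : ℝ), 0 < L →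
    (∀ x y, ‖w x - w y‖ ≤ L * ‖x - y‖) → MemLp w 2 volume →
      ∀ x, ‖w x‖ ^ 5 ≤ L ^ 3 * sq w / c0) {r : ℝ} (hr : r < 0) {ψ : E3 → E3} (hψ : Cc ψ)
    (j : ℕ) {s : ℝ} (hs : s ∈ WW j) (hsr : s ≤ r) :
    |nl ψ (v j s)| ≤ ∫ x, (1 + (C / (-r)) ^ 3 * C / c0) ^ 2 * ∑ i, ‖D i ψ x‖ := by
  have hi : Integrable (fun x => ∑ i, ‖D i ψ x‖) volume :=
    integrable_finsetSum _ fun i _ => ((cc_D hψ i).smooth.continuous.integrable_of_hasCompactSupport
      (cc_D hψ i).comp).norm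
  unfold nl
  refine (abs_integral_le_integral_abs).trans ?_
  refine integral_mono (G6_nli hψ (h.l2 j s hs)).abs (hi.const_mul _) fun x => ?_
  exact G6_ptb _ (fun i => D i ψ x) (G6_unif h hC hc0 hsup hr j hs hsr x)

theorem BSeq.limit {O : ℕ → Set E3} {v : ℕ → ℝ → E3 → E3} {C c : ℝ} {e : ℕ → ℝ}
    {g : ℕ → ℝ → ℝ} (h : BSeq O v C c e g) (hC : 0 < C) :
    ∃ φ : ℕ → ℕ, StrictMono φ ∧ ∃ v' : ℝ → E3 → E3, Pre C v' ∧ c ≤ ‖v' (-1) 0‖ ∧
      (∀ s < 0, ∀ x, Tendsto (fun j => v (φ j) s x) atTop (𝓝 (v' s x))) ∧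
      ∀ H : Set E3, (∀ K : Set E3, IsCompact K → K ⊆ H → ∀ᶠ j in atTop, K ⊆ O (φ j)) →
        EqIn H C v' := by
  obtain ⟨c0, hc0, hsup⟩ := G6_sup
  obtain ⟨φ, hφ, v', hlim⟩ := G6_subseq h hC hc0 hsup
  have hB := h.sub hφ
  have hW : ∀ s < 0, ∀ᶠ j in atTop, s ∈ WW j := fun s hs => by
    obtain ⟨n, hn⟩ := G6_ev hs
    exact eventually_atTop.2 ⟨n, hn⟩
  have hml : ∀ s < 0, MemLp (v' s) 2 volume ∧ sq (v' s) ≤ C := fun s hs => by
    refine G6_fatou (f := fun j => v (φ j) s) (b := fun _ => C) ?_ tendsto_const_nhds (hlim s hs)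
    filter_upwards [hW s hs] with j hj
    exact ⟨hB.l2 j s hj, hB.energy j s hj⟩
  refine ⟨φ, hφ, v', ⟨?_, fun s hs => (hml s hs).1, fun s hs => (hml s hs).2, ?_, ?_, ?_⟩,
    ?_, hlim, ?_⟩
  · intro s hs x y
    refine le_of_tendsto ((hlim s hs x).sub (hlim s hs y)).norm ?_
    filter_upwards [hW s hs] with j hj
    exact hB.lip j s hj x y
  · intro s hs ψ hψ
    have h1 := G6_ip hB hC hc0 hsup hs (hlim s hs) (cc_grad hψ)
    have h2 : Tendsto (fun j => ip (v (φ j) s) (Pool.Agent.Helper60.EC.grad ψ)) atTop (𝓝 0) := by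
      refine tendsto_const_nhds.congr' ?_
      filter_upwards [hW s hs] with j hj
      exact (hB.div j s hj ψ hψ).symm
    exact tendsto_nhds_unique h1 h2
  · intro s hs k
    refine (G6_fatou (f := fun j x => v (φ j) s (x + k) - v (φ j) s x)
      (b := fun _ => C * (-s) ^ (-(4 / 5) : ℝ) * ‖k‖ ^ 2) ?_ tendsto_const_nhds
      (fun x => (hlim s hs (x + k)).sub (hlim s hs x))).2
    filter_upwards [hW s hs] with j hj
    refine ⟨?_, hB.grad j s hj k⟩
    have h1 := hB.l2 j s hj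
    exact (h1.comp_measurePreserving (measurePreserving_add_right volume k)).sub h1
  · intro s t hst ht
    have hs : s < 0 := hst.trans ht
    have hb : Tendsto (fun j => C * (t - s) / (-t) + e (φ j)) atTop
        (𝓝 (C * (t - s) / (-t) + 0)) := tendsto_const_nhds.add hB.e0
    rw [add_zero] at hb
    refine (G6_fatou (f := fun j x => v (φ j) t x - v (φ j) s x) ?_ hb
      (fun x => (hlim t ht x).sub (hlim s hs x))).2
    filter_upwards [hW s hs, hW t ht] with j hj1 hj2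
    exact ⟨(hB.l2 j t hj2).sub (hB.l2 j s hj1), hB.time j s hj1 t hj2 hst⟩
  · exact ge_of_tendsto' (hlim (-1) (by norm_num) 0).norm fun j => hB.conc j
  · intro H hH
    have hO : ∀ ψ, TestField H ψ → ∀ᶠ j in atTop, TestField (O (φ j)) ψ := by
      intro ψ hψ
      filter_upwards [hH (tsupport ψ) hψ.compact hψ.supp] with j hj
      exact ⟨hψ.smooth, hψ.compact, hj, hψ.div⟩
    refine ⟨?_, ?_⟩
    · intro ψ hψ s t hst ht
      have hs : s < 0 := hst.trans ht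
      have hcc := G6_cc hψ
      have l1 := G6_ip hB hC hc0 hsup ht (hlim t ht) hcc
      have l2 := G6_ip hB hC hc0 hsup hs (hlim s hs) hcc
      have l3 : Tendsto (fun j => ∫ τ in s..t, nl ψ (v (φ j) τ)) atTop
          (𝓝 (∫ τ in s..t, nl ψ (v' τ))) := by
        refine intervalIntegral.tendsto_integral_filter_of_dominated_convergence
          (fun _ => ∫ x, (1 + (C / (-t)) ^ 3 * C / c0) ^ 2 * ∑ i, ‖D i ψ x‖) ?_ ?_
          intervalIntegrable_const ?_
        · filter_upwards [hW s hs, hW t ht] with j hj1 hj2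
          have h1 : uIoc s t ⊆ WW j := by
            rw [uIoc_of_le hst.le]
            intro τ hτ
            exact ⟨hj1.1.trans hτ.1, hτ.2.trans_lt hj2.2⟩
          exact ((G6_nl_cont hB j hcc).mono h1).aestronglyMeasurable measurableSet_uIoc
        · filter_upwards [hW s hs, hW t ht] with j hj1 hj2
          refine ae_of_all _ fun τ hτ => ?_
          rw [uIoc_of_le hst.le] at hτ
          rw [Real.norm_eq_abs]
          exact G6_nlb hB hC hc0 hsup ht hcc j ⟨hj1.1.trans hτ.1, hτ.2.trans_lt hj2.2⟩ hτ.2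
        · refine ae_of_all _ fun τ hτ => ?_
          rw [uIoc_of_le hst.le] at hτ
          have hτ0 : τ < 0 := hτ.2.trans_lt ht
          exact G6_nl hB hC hc0 hsup hτ0 (hlim τ hτ0) hcc
      have l4 : Tendsto (fun j => |ip (v (φ j) t) ψ - ip (v (φ j) s) ψ -
          ∫ τ in s..t, nl ψ (v (φ j) τ)|) atTop
          (𝓝 |ip (v' t) ψ - ip (v' s) ψ - ∫ τ in s..t, nl ψ (v' τ)|) :=
        ((l1.sub l2).sub l3).abs
      have l5 : Tendsto (fun j => e (φ j) * Real.sqrt (gsq ψ) *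
          (∫ τ in s..t, (-τ) ^ (-(2 / 5) : ℝ)) + e (φ j) * Real.sqrt (sq ψ)) atTop
          (𝓝 (0 * Real.sqrt (gsq ψ) * (∫ τ in s..t, (-τ) ^ (-(2 / 5) : ℝ)) +
            0 * Real.sqrt (sq ψ))) :=
        ((hB.e0.mul_const _).mul_const _).add (hB.e0.mul_const _)
      rw [zero_mul, zero_mul, zero_mul, add_zero] at l5
      have l6 : |ip (v' t) ψ - ip (v' s) ψ - ∫ τ in s..t, nl ψ (v' τ)| ≤ 0 := by
        refine le_of_tendsto_of_tendsto l4 l5 ?_
        filter_upwards [hW s hs, hW t ht, hO ψ hψ] with j hj1 hj2 hj3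
        exact hB.eqn j ψ hj3 s hj1 t hj2 hst
      have l7 := abs_eq_zero.1 (le_antisymm l6 (abs_nonneg _))
      linarith
    · intro ψ hψ M hM s hs
      have hcc := G6_cc hψ
      obtain ⟨ρ, hρ⟩ := hψ.compact.isBounded.subset_ball 0
      have l1 := (G6_ip hB hC hc0 hsup hs (hlim s hs) hcc).abs
      have l2 : Tendsto (fun j => C * M * (-s) + e (φ j) * Real.sqrt (gsq ψ) * Real.sqrt (-s) +
          Real.sqrt (sq ψ) * g (φ j) ρ) atTop (𝓝 (C * M * (-s) +
            0 * Real.sqrt (gsq ψ) * Real.sqrt (-s) + Real.sqrt (sq ψ) * 0)) :=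
        (tendsto_const_nhds.add ((hB.e0.mul_const _).mul_const _)).add ((hB.g0 ρ).const_mul _)
      rw [zero_mul, zero_mul, mul_zero, add_zero, add_zero] at l2
      refine le_of_tendsto_of_tendsto l1 l2 ?_
      filter_upwards [hW s hs, hO ψ hψ] with j hj1 hj3
      exact hB.fin j ψ hj3 M ρ hM hρ s hj1

end Pool.Agent.Helper60.EC
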