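import Pool.Agent.Helper60.EC.GDefs
import Pool.Agent.Helper60.EC.Calc2
import Pool.Agent.Helper60.EC.D1a

/-! Project EC, G7a: solenoidal test fields in a half-space -/

set_option autoImplicit false

open MeasureTheory Set Filter Topology
open scoped ENNReal ContDiff

noncomputable section

namespace Pool.Agent.Helper60.EC

open Pool.Agent.Helper52.NSE (E3 pd divg TestField IsSmoothBoundedDomain MemH1s MemL2s
  IsWeakSolution gradSq)

/-- mollifiers -/
theorem G7a_kernel : ∃ C : ℝ, 0 ≤ C ∧ ∀ ε : ℝ, 0 < ε → ∃ k : E3 → ℝ, Cc k ∧ (∀ z, 0 ≤ k z) ∧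
    (∀ z, ε ≤ ‖z‖ → k z = 0) ∧ ∫ z, k z = 1 ∧ ∀ i, ∫ z, ‖D i k z‖ ≤ C / ε := by
  let b : ContDiffBump (0 : E3) := ⟨1 / 2, 1, by norm_num, by norm_num⟩
  let η : E3 → ℝ := b.normed volume
  have hη : ContDiff ℝ ∞ η := b.contDiff_normed
  have hηd : Differentiable ℝ η := hη.differentiable (by norm_num)
  have hη1 : ∫ z, η z = 1 := b.integral_normed
  have hsupp : ∀ z, 1 ≤ ‖z‖ → η z = 0 := by
    intro z hz
    by_contra h
    have h' : z ∈ Function.support (b.normed volume) := h
    rw [b.support_normed_eq, mem_ball_zero_iff] at h'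
    exact absurd h' (not_lt.2 hz)
  have hd : Module.finrank ℝ E3 = 3 := by simp [E3]
  refine ⟨∑ i, ∫ z, ‖D i η z‖, Finset.sum_nonneg fun i _ => integral_nonneg fun z => norm_nonneg _,
    fun ε hε => ?_⟩
  have hc : 0 < ε⁻¹ := inv_pos.2 hε
  have hdk : Differentiable ℝ (fun z : E3 => η (0 + ε⁻¹ • z)) := by
    refine hηd.comp ?_
    fun_prop
  have hk : ContDiff ℝ ∞ (fun z : E3 => (ε ^ 3)⁻¹ • η (0 + ε⁻¹ • z)) := by
    refine ContDiff.const_smul _ (hη.comp ?_)
    exact contDiff_const.add (contDiff_id.const_smul _)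
  have hk0 : ∀ z : E3, ε ≤ ‖z‖ → (ε ^ 3)⁻¹ • η (0 + ε⁻¹ • z) = 0 := by
    intro z hz
    have : 1 ≤ ‖0 + ε⁻¹ • z‖ := by
      rw [zero_add, norm_smul, Real.norm_of_nonneg hc.le]
      calc (1:ℝ) = ε⁻¹ * ε := (inv_mul_cancel₀ hε.ne').symm
        _ ≤ ε⁻¹ * ‖z‖ := mul_le_mul_of_nonneg_left hz hc.le
    rw [hsupp _ this, smul_zero]
  refine ⟨fun z => (ε ^ 3)⁻¹ • η (0 + ε⁻¹ • z), ⟨hk, ?_⟩, ?_, hk0, ?_, ?_⟩
  · refine HasCompactSupport.intro (isCompact_closedBall 0 ε) fun z hz => ?_
    refine hk0 z ?_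
    rw [mem_closedBall_zero_iff, not_le] at hz
    exact hz.le
  · intro z
    exact mul_nonneg (by positivity) (b.nonneg_normed _)
  · rw [integral_smul]
    simp only [zero_add]
    rw [Measure.integral_comp_smul, hη1, hd]
    have : |((ε⁻¹) ^ 3)⁻¹| = ε ^ 3 := by
      rw [inv_pow, inv_inv, abs_of_pos (by positivity)]
    rw [this, smul_eq_mul, smul_eq_mul, mul_one, inv_mul_cancel₀ (by positivity)]
  · intro i
    have e : ∀ z : E3, ‖D i (fun z : E3 => (ε ^ 3)⁻¹ • η (0 + ε⁻¹ • z)) z‖ =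
        ((ε ^ 3)⁻¹ * ε⁻¹) * ‖D i η (ε⁻¹ • z)‖ := by
      intro z
      rw [D_const_smul (hdk z), D_comp_affine hηd ε⁻¹ 0 i z, norm_smul, norm_smul, zero_add,
        Real.norm_of_nonneg (by positivity), Real.norm_of_nonneg hc.le]
      ring
    simp_rw [e]
    rw [integral_const_mul, Measure.integral_comp_smul (volume : Measure E3)
      (fun z => ‖D i η z‖) ε⁻¹, hd]
    have : |((ε⁻¹) ^ 3)⁻¹| = ε ^ 3 := by
      rw [inv_pow, inv_inv, abs_of_pos (by positivity)]
    rw [this, smul_eq_mul, div_eq_inv_mul]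
    have h1 : ∫ z, ‖D i η z‖ ≤ ∑ i, ∫ z, ‖D i η z‖ :=
      Finset.single_le_sum (f := fun i => ∫ z, ‖D i η z‖)
        (fun j _ => integral_nonneg fun z => norm_nonneg _) (Finset.mem_univ i)
    have h2 : (ε ^ 3)⁻¹ * ε⁻¹ * (ε ^ 3 * ∫ z, ‖D i η z‖) = ε⁻¹ * ∫ z, ‖D i η z‖ := by
      field_simp
    rw [h2]
    exact mul_le_mul_of_nonneg_left h1 hc.le

/-- smooth fields of compact support are Lipschitz -/
theorem G7a_lip {f : E3 → E3} (hf : Cc f) : ∃ L : ℝ, 0 ≤ L ∧ ∀ x y, ‖f x - f y‖ ≤ L * ‖x - y‖ := by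
  obtain ⟨C, hC⟩ := ContDiff.lipschitzWith_of_hasCompactSupport hf.comp hf.smooth (by norm_num)
  refine ⟨C, C.2, fun x y => ?_⟩
  have := hC.dist_le_mul x y
  rwa [dist_eq_norm, dist_eq_norm] at this

theorem G7a_bd {f : E3 → E3} (hf : Cc f) : ∃ M : ℝ, 0 ≤ M ∧ ∀ x, ‖f x‖ ≤ M := by
  obtain ⟨M, hM⟩ := hf.comp.exists_bound_of_continuous hf.smooth.continuous
  exact ⟨M, (norm_nonneg _).trans (hM 0), hM⟩

/-- the normal component of a symmetric field -/
theorem G7a_normal {n : E3} (hn : ‖n‖ = 1) (d : ℝ) {Φ : E3 → E3}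
    (hs : ∀ y, Φ y = refl0 n (Φ (refl n d y))) {L : ℝ}
    (hL : ∀ x y, ‖Φ x - Φ y‖ ≤ L * ‖x - y‖) (y : E3) :
    |(inner ℝ n (Φ y) : ℝ)| ≤ L * |inner ℝ n y - d| := by
  have hnn : (inner ℝ n n : ℝ) = 1 := by rw [real_inner_self_eq_norm_sq, hn, one_pow]
  have h1 : (inner ℝ n (Φ y) : ℝ) = -inner ℝ n (Φ (refl n d y)) := by
    conv_lhs => rw [hs y]
    unfold refl0
    rw [inner_sub_right, real_inner_smul_right, hnn]
    ring
  have h2 : (2 : ℝ) * inner ℝ n (Φ y) = inner ℝ n (Φ y - Φ (refl n d y)) := by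
    rw [inner_sub_right]; linarith
  have h3 : ‖y - refl n d y‖ = 2 * |inner ℝ n y - d| := by
    unfold refl
    rw [sub_sub_cancel, norm_smul, hn, mul_one, Real.norm_eq_abs, abs_mul, abs_two]
  have h4 : |(2 : ℝ) * inner ℝ n (Φ y)| ≤ L * (2 * |inner ℝ n y - d|) := by
    rw [h2, ← h3]
    refine (abs_real_inner_le_norm _ _).trans ?_
    rw [hn, one_mul]
    exact hL _ _
  rw [abs_mul, abs_two] at h4
  linarith

/-- derivative of the smooth transition -/
theorem G7a_trans : ∃ S : ℝ, 0 ≤ S ∧ (∀ t, |deriv Real.smoothTransition t| ≤ S) ∧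
    (∀ t, t < 0 ∨ 1 < t → deriv Real.smoothTransition t = 0) := by
  have hz : ∀ t : ℝ, t < 0 ∨ 1 < t → deriv Real.smoothTransition t = 0 := by
    intro t ht
    rcases ht with ht | ht
    · have : Real.smoothTransition =ᶠ[𝓝 t] fun _ => 0 := by
        filter_upwards [Iio_mem_nhds ht] with s hs
        exact Real.smoothTransition.zero_of_nonpos (le_of_lt hs)
      rw [this.deriv_eq, deriv_const]
    · have : Real.smoothTransition =ᶠ[𝓝 t] fun _ => 1 := by
        filter_upwards [Ioi_mem_nhds ht] with s hs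
        exact Real.smoothTransition.one_of_one_le (le_of_lt hs)
      rw [this.deriv_eq, deriv_const]
  have hc : Continuous (deriv Real.smoothTransition) :=
    (Real.smoothTransition.contDiff (n := 1)).continuous_deriv (by norm_num)
  obtain ⟨S, hS⟩ := isCompact_Icc.exists_bound_of_continuousOn (s := Icc (0:ℝ) 1) hc.continuousOn
  have hS0 : 0 ≤ S := (norm_nonneg _).trans (hS 0 ⟨le_rfl, zero_le_one⟩)
  refine ⟨S, hS0, fun t => ?_, hz⟩
  by_cases ht : t < 0 ∨ 1 < t
  · rw [hz t ht, abs_zero]; exact hS0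
  · push Not at ht
    exact hS t ht

theorem G7a_Hs_open (n : E3) (d : ℝ) : IsOpen (Hs n d) := by
  unfold Hs
  exact isOpen_lt (by fun_prop) continuous_const

/-- the cut-off field is weakly solenoidal -/
theorem G7a_weak {n : E3} (hn : ‖n‖ = 1) (d : ℝ) {Φ : E3 → E3} (hΦ : TestField univ Φ)
    (hs : ∀ y, Φ y = refl0 n (Φ (refl n d y))) {φ : E3 → ℝ} (hφ : Cc φ) :
    ∫ x in Hs n d, (inner ℝ (grad φ x) (Φ x) : ℝ) = 0 := by
  have hΦc : Cc Φ := ⟨hΦ.smooth, hΦ.compact⟩
  obtain ⟨L, hL0, hL⟩ := G7a_lip hΦc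
  obtain ⟨M, hM0, hM⟩ := G7a_bd hΦc
  obtain ⟨S, hS0, hS, hSz⟩ := G7a_trans
  have hH := G7a_Hs_open n d
  have hdφ : ∀ y, DifferentiableAt ℝ φ y := fun y => hφ.smooth.differentiable (by norm_num) y
  -- cutoff
  let κ : ℕ → E3 → ℝ := fun m y => Real.smoothTransition (((m : ℝ) + 1) * (d - inner ℝ n y))
  have hκs : ∀ m, ContDiff ℝ ∞ (κ m) := by
    intro m
    refine (Real.smoothTransition.contDiff (n := ⊤)).comp ?_
    exact contDiff_const.mul (contDiff_const.sub (contDiff_const.inner ℝ contDiff_id))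
  have hκd : ∀ m y, DifferentiableAt ℝ (κ m) y :=
    fun m y => (hκs m).differentiable (by norm_num) y
  have hκ' : ∀ m y v, fderiv ℝ (κ m) y v =
      deriv Real.smoothTransition (((m : ℝ) + 1) * (d - inner ℝ n y)) *
        (-(((m : ℝ) + 1) * inner ℝ n v)) := by
    intro m y v
    have h1 : HasFDerivAt (fun y : E3 => ((m : ℝ) + 1) * (d - inner ℝ n y))
        (((m : ℝ) + 1) • (-(innerSL ℝ n))) y := by
      have h0 : HasFDerivAt (fun y : E3 => (inner ℝ n y : ℝ)) (innerSL ℝ n) y :=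
        (innerSL ℝ n).hasFDerivAt
      exact (h0.const_sub d).const_mul ((m : ℝ) + 1)
    have h2 : HasDerivAt Real.smoothTransition
        (deriv Real.smoothTransition (((m : ℝ) + 1) * (d - inner ℝ n y)))
        (((m : ℝ) + 1) * (d - inner ℝ n y)) :=
      ((Real.smoothTransition.contDiff (n := 1)).differentiable (by norm_num) _).hasDerivAt
    have h3 := h2.comp_hasFDerivAt y h1
    have h4 : HasFDerivAt (κ m) _ y := h3
    rw [h4.fderiv]
    simp
  -- integrals vanish
  have hzero : ∀ m, ∫ x, (inner ℝ (grad (fun y => κ m y * φ y) x) (Φ x) : ℝ) = 0 := by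
    intro m
    have hp : ContDiff ℝ ∞ (fun y => κ m y * φ y) := (hκs m).mul hφ.smooth
    exact ip_grad_zero (hp.of_le (by norm_num)) (hΦ.smooth.of_le (by norm_num)) hΦ.compact hΦ.div
  have hexp : ∀ m x, (inner ℝ (grad (fun y => κ m y * φ y) x) (Φ x) : ℝ) =
      κ m x * inner ℝ (grad φ x) (Φ x) + φ x *
        (deriv Real.smoothTransition (((m : ℝ) + 1) * (d - inner ℝ n x)) *
          (-(((m : ℝ) + 1) * inner ℝ n (Φ x)))) := by
    intro m x
    rw [inner_grad, fderiv_fun_mul (hκd m x) (hdφ x)]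
    simp only [add_apply, smul_apply, smul_eq_mul]
    rw [hκ', inner_grad]
  -- bound of the second term
  have hb2 : ∀ (m : ℕ) (x : E3), |deriv Real.smoothTransition (((m : ℝ) + 1) * (d - inner ℝ n x)) *
          (-(((m : ℝ) + 1) * inner ℝ n (Φ x)))| ≤ S * L := by
    intro m x
    have hm : (0 : ℝ) < (m : ℝ) + 1 := by positivity
    rw [abs_mul, abs_neg, abs_mul, abs_of_pos hm]
    by_cases ht : ((m : ℝ) + 1) * (d - inner ℝ n x) < 0 ∨ 1 < ((m : ℝ) + 1) * (d - inner ℝ n x)
    · rw [hSz _ ht, abs_zero, zero_mul]; exact mul_nonneg hS0 hL0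
    · push Not at ht
      have hdn : 0 ≤ d - inner ℝ n x := by
        by_contra hcon
        push Not at hcon
        have := mul_neg_of_pos_of_neg hm hcon
        linarith [ht.1]
      have h1 := G7a_normal hn d hs hL x
      rw [abs_sub_comm, abs_of_nonneg hdn] at h1
      have h2 : ((m : ℝ) + 1) * |(inner ℝ n (Φ x) : ℝ)| ≤ L := by
        calc ((m : ℝ) + 1) * |(inner ℝ n (Φ x) : ℝ)| ≤ ((m : ℝ) + 1) * (L * (d - inner ℝ n x)) :=
              mul_le_mul_of_nonneg_left h1 hm.le
          _ = L * (((m : ℝ) + 1) * (d - inner ℝ n x)) := by ring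
          _ ≤ L * 1 := mul_le_mul_of_nonneg_left ht.2 hL0
          _ = L := mul_one L
      exact mul_le_mul (hS _) h2 (by positivity) hS0
  have hlim : Tendsto (fun m => ∫ x, (inner ℝ (grad (fun y => κ m y * φ y) x) (Φ x) : ℝ)) atTop
      (𝓝 (∫ x, (Hs n d).indicator (fun x => (inner ℝ (grad φ x) (Φ x) : ℝ)) x)) := by
    refine tendsto_integral_of_dominated_convergence
      (fun x => ‖grad φ x‖ * M + ‖φ x‖ * (S * L)) ?_ ?_ ?_ ?_
    · intro m
      have hp : ContDiff ℝ ∞ (fun y => κ m y * φ y) := (hκs m).mul hφ.smooth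
      exact ((grad_smooth hp).continuous.inner hΦ.smooth.continuous).aestronglyMeasurable
    · have h1 := (cc_grad hφ)
      have i1 : Integrable (fun x => ‖grad φ x‖) volume :=
        (h1.smooth.continuous.integrable_of_hasCompactSupport h1.comp).norm
      have i2 : Integrable (fun x => ‖φ x‖) volume :=
        (hφ.smooth.continuous.integrable_of_hasCompactSupport hφ.comp).norm
      exact (i1.mul_const _).add (i2.mul_const _)
    · intro m
      refine Eventually.of_forall fun x => ?_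
      rw [hexp]
      refine (norm_add_le _ _).trans ?_
      rw [norm_mul, norm_mul]
      refine add_le_add ?_ (mul_le_mul_of_nonneg_left (hb2 m x) (norm_nonneg _))
      have h1 : ‖κ m x‖ ≤ 1 := by
        rw [Real.norm_of_nonneg (Real.smoothTransition.nonneg _)]
        exact Real.smoothTransition.le_one _
      have h2 : ‖(inner ℝ (grad φ x) (Φ x) : ℝ)‖ ≤ ‖grad φ x‖ * M :=
        (norm_inner_le_norm _ _).trans (mul_le_mul_of_nonneg_left (hM x) (norm_nonneg _))
      calc ‖κ m x‖ * ‖(inner ℝ (grad φ x) (Φ x) : ℝ)‖ ≤ 1 * (‖grad φ x‖ * M) :=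
            mul_le_mul h1 h2 (norm_nonneg _) zero_le_one
        _ = _ := one_mul _
    · refine Eventually.of_forall fun x => ?_
      simp_rw [hexp]
      by_cases hx : x ∈ Hs n d
      · rw [indicator_of_mem hx]
        have hx' : 0 < d - inner ℝ n x := sub_pos.2 hx
        refine tendsto_const_nhds.congr' ?_
        obtain ⟨N, hN⟩ := exists_nat_gt ((d - inner ℝ n x)⁻¹)
        filter_upwards [eventually_ge_atTop N] with m hm
        have hm' : (N : ℝ) ≤ m := by exact_mod_cast hm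
        have h1 : 1 < ((m : ℝ) + 1) * (d - inner ℝ n x) := by
          have h0 : (d - inner ℝ n x)⁻¹ < (m : ℝ) + 1 := by linarith
          have := mul_lt_mul_of_pos_right h0 hx'
          rwa [inv_mul_cancel₀ hx'.ne'] at this
        rw [hSz _ (Or.inr h1), zero_mul, mul_zero, add_zero]
        show _ = Real.smoothTransition (((m : ℝ) + 1) * (d - inner ℝ n x)) * _
        rw [Real.smoothTransition.one_of_one_le h1.le, one_mul]
      · rw [indicator_of_notMem hx]
        have hx' : d - inner ℝ n x ≤ 0 := by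
          have : ¬ (inner ℝ n x < d) := hx
          linarith [not_lt.1 this]
        refine tendsto_const_nhds.congr fun m => ?_
        have hm : (0 : ℝ) < (m : ℝ) + 1 := by positivity
        have h1 : ((m : ℝ) + 1) * (d - inner ℝ n x) ≤ 0 := mul_nonpos_of_nonneg_of_nonpos hm.le hx'
        show _ = Real.smoothTransition (((m : ℝ) + 1) * (d - inner ℝ n x)) * _ + _
        rw [Real.smoothTransition.zero_of_nonpos h1, zero_mul, zero_add]
        rcases hx'.lt_or_eq with h2 | h2
        · rw [hSz _ (Or.inl (mul_neg_of_pos_of_neg hm h2)), zero_mul, mul_zero]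
        · have h3 := G7a_normal hn d hs hL x
          have h4 : inner ℝ n x - d = 0 := by linarith
          rw [h4, abs_zero, mul_zero] at h3
          have h5 : (inner ℝ n (Φ x) : ℝ) = 0 := abs_eq_zero.1 (le_antisymm h3 (abs_nonneg _))
          rw [h5]; ring
  simp_rw [hzero] at hlim
  rw [integral_indicator hH.measurableSet] at hlim
  exact (tendsto_nhds_unique hlim tendsto_const_nhds)


/-- the cut-off field -/
def G7a_g (n : E3) (d : ℝ) (Φ : E3 → E3) : E3 → E3 := (Hs n d).indicator Φ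

/-- translated mollification -/
def G7a_Phi (n : E3) (d : ℝ) (Φ : E3 → E3) (k : E3 → ℝ) (a : E3) (y : E3) : E3 :=
  ∫ t, k (y + a - t) • G7a_g n d Φ t

section

variable {n : E3} {d : ℝ} {Φ : E3 → E3} {k : E3 → ℝ}

theorem G7a_g_li (n : E3) (d : ℝ) (hΦ : Cc Φ) : LocallyIntegrable (G7a_g n d Φ) volume :=
  ((hΦ.smooth.continuous.integrable_of_hasCompactSupport hΦ.comp).indicator
    (G7a_Hs_open n d).measurableSet).locallyIntegrable

theorem G7a_conv (Ψ : E3 → E3) (k : E3 → ℝ) (y : E3) :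
    ∫ t, k (y - t) • Ψ t = convolution Ψ k
      (ContinuousLinearMap.lsmul ℝ ℝ : ℝ →L[ℝ] E3 →L[ℝ] E3).flip volume y := rfl

theorem G7a_Phi_eq (n : E3) (d : ℝ) (Φ : E3 → E3) (k : E3 → ℝ) (a : E3) :
    G7a_Phi n d Φ k a = fun y => convolution (G7a_g n d Φ) k
      (ContinuousLinearMap.lsmul ℝ ℝ : ℝ →L[ℝ] E3 →L[ℝ] E3).flip volume (a + (1 : ℝ) • y) := by
  funext y
  rw [one_smul, add_comm a y]
  rfl

theorem G7a_Phi_smooth (hΦ : Cc Φ) (hk : Cc k) (a : E3) :
    ContDiff ℝ ∞ (G7a_Phi n d Φ k a) := by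
  rw [G7a_Phi_eq]
  have h := hk.comp.contDiff_convolution_right
    (ContinuousLinearMap.lsmul ℝ ℝ : ℝ →L[ℝ] E3 →L[ℝ] E3).flip
    (G7a_g_li n d hΦ) hk.smooth
  exact h.comp (by fun_prop)

theorem G7a_D_Phi (hΦ : Cc Φ) (hk : Cc k) (a : E3) (i : Fin 3) (y : E3) :
    D i (G7a_Phi n d Φ k a) y = ∫ t, D i k (y + a - t) • G7a_g n d Φ t := by
  rw [G7a_Phi_eq]
  have h := hk.comp.contDiff_convolution_right
    (ContinuousLinearMap.lsmul ℝ ℝ : ℝ →L[ℝ] E3 →L[ℝ] E3).flip
    (G7a_g_li n d hΦ) hk.smooth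
  rw [D_comp_affine (h.differentiable (by norm_num)) 1 a i y, one_smul]
  have h1 := hk.comp.hasFDerivAt_convolution_right
    (ContinuousLinearMap.lsmul ℝ ℝ : ℝ →L[ℝ] E3 →L[ℝ] E3).flip
    (G7a_g_li n d hΦ) (hk.smooth.of_le (by exact_mod_cast le_top)) (a + (1 : ℝ) • y)
  unfold D
  rw [h1.fderiv]
  rw [convolution_precompR_apply _ (G7a_g_li n d hΦ) (hk.comp.fderiv ℝ)
    (hk.smooth.continuous_fderiv (by simp))]
  rw [one_smul, add_comm a y]
  rfl

theorem G7a_D_Phi_le (hΦ : Cc Φ) (hk : Cc k) (a : E3) (i : Fin 3) (y : E3) {M K : ℝ}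
    (hM : ∀ x, ‖Φ x‖ ≤ M) (hK : ∫ z, ‖D i k z‖ ≤ K) :
    ‖D i (G7a_Phi n d Φ k a) y‖ ≤ M * K := by
  have hM0 : 0 ≤ M := (norm_nonneg _).trans (hM 0)
  rw [G7a_D_Phi hΦ hk]
  have hc := cc_D hk i
  have hi : Integrable (fun z => ‖D i k z‖) volume :=
    (hc.smooth.continuous.integrable_of_hasCompactSupport hc.comp).norm
  have h1 : ∀ t, ‖D i k (y + a - t) • G7a_g n d Φ t‖ ≤ M * ‖D i k (y + a - t)‖ := by
    intro t
    rw [norm_smul, mul_comm]
    refine mul_le_mul_of_nonneg_right ?_ (norm_nonneg _)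
    unfold G7a_g
    exact (norm_indicator_le_norm_self _ _).trans (hM t)
  refine (norm_integral_le_of_norm_le ((hi.comp_sub_left (y + a)).const_mul M)
    (Eventually.of_forall h1)).trans ?_
  rw [integral_const_mul, integral_sub_left_eq_self (fun z => ‖D i k z‖) volume (y + a)]
  exact mul_le_mul_of_nonneg_left hK hM0

theorem G7a_Phi_le (hk : Cc k) (hk0 : ∀ z, 0 ≤ k z) (hk1 : ∫ z, k z = 1) (a : E3)
    (y : E3) {M : ℝ} (hM : ∀ x, ‖Φ x‖ ≤ M) : ‖G7a_Phi n d Φ k a y‖ ≤ M := by
  have hM0 : 0 ≤ M := (norm_nonneg _).trans (hM 0)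
  have hi : Integrable k volume :=
    (hk.smooth.continuous.integrable_of_hasCompactSupport hk.comp)
  have h1 : ∀ t, ‖k (y + a - t) • G7a_g n d Φ t‖ ≤ M * k (y + a - t) := by
    intro t
    rw [norm_smul, mul_comm, Real.norm_of_nonneg (hk0 _)]
    refine mul_le_mul_of_nonneg_right ?_ (hk0 _)
    unfold G7a_g
    exact (norm_indicator_le_norm_self _ _).trans (hM t)
  refine (norm_integral_le_of_norm_le ((hi.comp_sub_left (y + a)).const_mul M)
    (Eventually.of_forall h1)).trans ?_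
  rw [integral_const_mul, integral_sub_left_eq_self k volume (y + a), hk1, mul_one]

/-- averages -/
theorem G7a_avg {F : E3 → E3} (hF : Cc F) (hk : Cc k) (hk0 : ∀ z, 0 ≤ k z) {ε : ℝ}
    (hkε : ∀ z, ε ≤ ‖z‖ → k z = 0) (hk1 : ∫ z, k z = 1) (x y : E3) {c : ℝ}
    (hc : ∀ z, ‖x - z‖ ≤ ε → ‖F z - F y‖ ≤ c) :
    ‖(∫ t, k (x - t) • F t) - F y‖ ≤ c := by
  have hi : Integrable k volume :=
    (hk.smooth.continuous.integrable_of_hasCompactSupport hk.comp)
  have hi' : Integrable (fun t => k (x - t)) volume := hi.comp_sub_left x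
  have h1 : ∫ t, k (x - t) = 1 := by rw [integral_sub_left_eq_self k volume x, hk1]
  have hF1 : Integrable (fun t => k (x - t) • F t) volume := by
    obtain ⟨M, hM0, hM⟩ := G7a_bd hF
    refine (hi'.norm.const_mul M).mono'
      ((hk.smooth.continuous.comp (continuous_const.sub continuous_id)).smul
        hF.smooth.continuous).aestronglyMeasurable (Eventually.of_forall fun t => ?_)
    show ‖k (x - t) • F t‖ ≤ _
    rw [norm_smul, mul_comm]
    exact mul_le_mul_of_nonneg_right (hM t) (norm_nonneg _)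
  have e : F y = ∫ t, k (x - t) • F y := by
    rw [integral_smul_const, h1, one_smul]
  conv_lhs => rw [e]
  rw [← integral_sub hF1 (hi'.smul_const _)]
  have hb : ∀ t, ‖k (x - t) • F t - k (x - t) • F y‖ ≤ c * k (x - t) := by
    intro t
    rw [← smul_sub, norm_smul, Real.norm_of_nonneg (hk0 _), mul_comm]
    rcases le_total (‖x - t‖) ε with h | h
    · exact mul_le_mul_of_nonneg_right (hc t h) (hk0 _)
    · rw [hkε _ h, mul_zero, mul_zero]
  refine (norm_integral_le_of_norm_le (hi'.const_mul c) (Eventually.of_forall hb)).trans ?_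
  rw [integral_const_mul, h1, mul_one]

/-- derivative of the full convolution -/
theorem G7a_D_full {F : E3 → E3} (hF : Cc F) (hk : Cc k) (i : Fin 3) (x : E3) :
    D i (fun y => ∫ t, k (y - t) • F t) x = ∫ t, k (x - t) • D i F t := by
  have e : ∀ Ψ : E3 → E3, (fun y => ∫ t, k (y - t) • Ψ t) = convolution k Ψ
      (ContinuousLinearMap.lsmul ℝ ℝ : ℝ →L[ℝ] E3 →L[ℝ] E3) volume := by
    intro Ψ
    funext y
    rw [← integral_sub_left_eq_self (fun t : E3 => k (y - t) • Ψ t) volume y]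
    simp only [sub_sub_cancel]
    rfl
  have hkl : LocallyIntegrable k volume :=
    (hk.smooth.continuous.integrable_of_hasCompactSupport hk.comp).locallyIntegrable
  have h1 := hF.comp.hasFDerivAt_convolution_right
    (ContinuousLinearMap.lsmul ℝ ℝ : ℝ →L[ℝ] E3 →L[ℝ] E3)
    hkl (hF.smooth.of_le (by exact_mod_cast le_top)) x
  have h2 := congrFun (e (D i F)) x
  rw [e, h2]
  unfold D
  rw [h1.fderiv]
  rw [convolution_precompR_apply _ hkl (hF.comp.fderiv ℝ)
    (hF.smooth.continuous_fderiv (by simp))]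

/-- inside the half-space nothing is cut off -/
theorem G7a_local (hn : ‖n‖ = 1) {ε : ℝ} (hkε : ∀ z, ε ≤ ‖z‖ → k z = 0) {y : E3}
    (hy : inner ℝ n y < d - 3 * ε) :
    G7a_Phi n d Φ k ((2 * ε) • n) y = ∫ t, k (y + (2 * ε) • n - t) • Φ t := by
  have hnn : (inner ℝ n n : ℝ) = 1 := by rw [real_inner_self_eq_norm_sq, hn, one_pow]
  unfold G7a_Phi G7a_g
  congr 1
  funext t
  rcases le_or_gt ε (‖y + (2 * ε) • n - t‖) with h | h
  · rw [hkε _ h, zero_smul, zero_smul]
  · have ht : t ∈ Hs n d := by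
      show inner ℝ n t < d
      have h1 : (inner ℝ n (y + (2 * ε) • n - t) : ℝ) = inner ℝ n y + 2 * ε - inner ℝ n t := by
        rw [inner_sub_right, inner_add_right, real_inner_smul_right, hnn, mul_one]
      have h2 : |(inner ℝ n (y + (2 * ε) • n - t) : ℝ)| ≤ ‖y + (2 * ε) • n - t‖ := by
        refine (abs_real_inner_le_norm _ _).trans ?_
        rw [hn, one_mul]
      rw [h1] at h2
      have := (abs_le.1 h2).1
      linarith
    rw [indicator_of_mem ht]

theorem G7a_local_D (hΦ : Cc Φ) (hk : Cc k) (hn : ‖n‖ = 1) {ε : ℝ}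
    (hkε : ∀ z, ε ≤ ‖z‖ → k z = 0) {y : E3}
    (hy : inner ℝ n y < d - 3 * ε) (i : Fin 3) :
    D i (G7a_Phi n d Φ k ((2 * ε) • n)) y = ∫ t, k (y + (2 * ε) • n - t) • D i Φ t := by
  have hnb : {z : E3 | inner ℝ n z < d - 3 * ε} ∈ 𝓝 y :=
    (isOpen_lt (by fun_prop) continuous_const).mem_nhds hy
  have h1 : G7a_Phi n d Φ k ((2 * ε) • n) =ᶠ[𝓝 y]
      fun y => (fun z => ∫ t, k (z - t) • Φ t) ((2 * ε) • n + (1 : ℝ) • y) := by
    filter_upwards [hnb] with z hz
    rw [G7a_local hn hkε hz, one_smul, add_comm z]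
  rw [D_congr h1 i]
  have hdiff : Differentiable ℝ (fun z => ∫ t, k (z - t) • Φ t) := by
    have h := hk.comp.contDiff_convolution_right
      (ContinuousLinearMap.lsmul ℝ ℝ : ℝ →L[ℝ] E3 →L[ℝ] E3).flip
      (f := Φ) (μ := volume)
      (hΦ.smooth.continuous.locallyIntegrable) hk.smooth
    exact h.differentiable (by norm_num)
  rw [D_comp_affine hdiff 1 ((2 * ε) • n) i y, one_smul, G7a_D_full hΦ hk i, one_smul,
    add_comm ((2 * ε) • n) y]

/-- the divergence -/
theorem G7a_div (hn : ‖n‖ = 1) (hΦ : TestField univ Φ)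
    (hs : ∀ y, Φ y = refl0 n (Φ (refl n d y))) (hk : Cc k) (a : E3) (y : E3) :
    divg (G7a_Phi n d Φ k a) y = 0 := by
  have hΦc : Cc Φ := ⟨hΦ.smooth, hΦ.compact⟩
  -- the test function `t ↦ k (y + a - t)`
  have e0 : (fun t => k (y + a - t)) = fun t => k ((y + a) + (-1 : ℝ) • t) := by
    funext t; rw [neg_one_smul, sub_eq_add_neg]
  have hφ : Cc (fun t => k (y + a - t)) := by
    refine ⟨hk.smooth.comp (by fun_prop), ?_⟩
    exact hk.comp.comp_homeomorph (Homeomorph.subLeft (y + a))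
  have hD : ∀ i t, D i (fun t => k (y + a - t)) t = -D i k (y + a - t) := by
    intro i t
    rw [e0, D_comp_affine (hk.smooth.differentiable (by norm_num)) (-1) (y + a) i t, neg_one_smul,
      neg_one_smul, sub_eq_add_neg]
  have hint : ∀ i, Integrable (fun t => D i k (y + a - t) • G7a_g n d Φ t) volume := by
    intro i
    have hc := cc_D hk i
    have h := hc.comp.convolutionExists_right
      (ContinuousLinearMap.lsmul ℝ ℝ : ℝ →L[ℝ] E3 →L[ℝ] E3).flip
      (G7a_g_li n d hΦc) hc.smooth.continuous (y + a)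
    exact h
  have h1 : ∀ i, (D i (G7a_Phi n d Φ k a) y) i = ∫ t, D i k (y + a - t) * (G7a_g n d Φ t) i := by
    intro i
    rw [G7a_D_Phi hΦc hk]
    have h := (EuclideanSpace.proj (𝕜 := ℝ) i : E3 →L[ℝ] ℝ).integral_comp_comm (hint i)
    refine Eq.trans h.symm ?_
    congr 1
  have hint2 : ∀ i, Integrable (fun t => D i k (y + a - t) * (G7a_g n d Φ t) i) volume := by
    intro i
    exact (EuclideanSpace.proj (𝕜 := ℝ) i : E3 →L[ℝ] ℝ).integrable_comp (hint i)
  have h2 := G7a_weak hn d hΦ hs hφ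
  rw [← integral_indicator (G7a_Hs_open n d).measurableSet] at h2
  have h3 : ∀ t, (Hs n d).indicator (fun x => (inner ℝ (grad (fun t => k (y + a - t)) x) (Φ x) : ℝ)) t
      = -∑ i, D i k (y + a - t) * (G7a_g n d Φ t) i := by
    intro t
    by_cases ht : t ∈ Hs n d
    · unfold G7a_g
      rw [indicator_of_mem ht, indicator_of_mem ht, Calc3b_inner, Calc3b_grad, Calc3b_grad,
        Calc3b_grad, hD, hD, hD, Fin.sum_univ_three]
      ring
    · unfold G7a_g
      rw [indicator_of_notMem ht, indicator_of_notMem ht]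
      simp
  simp_rw [h3] at h2
  rw [integral_neg, neg_eq_zero, integral_finsetSum _ fun i _ => hint2 i] at h2
  unfold divg
  rw [← h2]
  exact Finset.sum_congr rfl fun i _ => h1 i

/-- the support -/
theorem G7a_supp (hn : ‖n‖ = 1) {ε R : ℝ} (hε : 0 < ε) (hkε : ∀ z, ε ≤ ‖z‖ → k z = 0)
    (hR : ∀ x, R < ‖x‖ → Φ x = 0) {y : E3}
    (hy : G7a_Phi n d Φ k ((2 * ε) • n) y ≠ 0) : inner ℝ n y ≤ d - ε ∧ ‖y‖ ≤ R + 3 * ε := by
  have hnn : (inner ℝ n n : ℝ) = 1 := by rw [real_inner_self_eq_norm_sq, hn, one_pow]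
  have hex : ∃ t, k (y + (2 * ε) • n - t) • G7a_g n d Φ t ≠ 0 := by
    by_contra h
    push Not at h
    apply hy
    unfold G7a_Phi
    simp_rw [h]
    exact integral_zero _ _
  obtain ⟨t, ht⟩ := hex
  have h1 : ‖y + (2 * ε) • n - t‖ < ε := by
    by_contra h
    push Not at h
    exact ht (by rw [hkε _ h, zero_smul])
  have h2 : t ∈ Hs n d := by
    by_contra h
    exact ht (by unfold G7a_g; rw [indicator_of_notMem h, smul_zero])
  have h2' : inner ℝ n t < d := h2
  have h3 : ‖t‖ ≤ R := by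
    by_contra h
    push Not at h
    exact ht (by unfold G7a_g; rw [indicator_of_mem h2, hR t h, smul_zero])
  have h4 : (inner ℝ n (y + (2 * ε) • n - t) : ℝ) = inner ℝ n y + 2 * ε - inner ℝ n t := by
    rw [inner_sub_right, inner_add_right, real_inner_smul_right, hnn, mul_one]
  have h5 : |(inner ℝ n (y + (2 * ε) • n - t) : ℝ)| ≤ ‖y + (2 * ε) • n - t‖ := by
    refine (abs_real_inner_le_norm _ _).trans ?_
    rw [hn, one_mul]
  rw [h4] at h5
  constructor
  · linarith [(abs_le.1 h5).2]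
  · have e : y = (y + (2 * ε) • n - t) + t - (2 * ε) • n := by abel
    have h6 : ‖(2 * ε) • n‖ = 2 * ε := by
      rw [norm_smul, hn, mul_one, Real.norm_of_nonneg (by positivity)]
    rw [e]
    refine (norm_sub_le _ _).trans ?_
    rw [h6]
    linarith [norm_add_le (y + (2 * ε) • n - t) t]

end

/-- a solenoidal test field which is symmetric with respect to the boundary of a half-space is
approximated by solenoidal test fields supported in the half-space -/
theorem half_approx {n : E3} (hn : ‖n‖ = 1) (d : ℝ) {Φ : E3 → E3} (hΦ : TestField univ Φ)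
    (hs : ∀ y, Φ y = refl0 n (Φ (refl n d y))) :
    ∃ Φk : ℕ → E3 → E3, (∀ k, TestField (Hs n d) (Φk k)) ∧
      Tendsto (fun k => sqOn (Hs n d) (fun y => Φk k y - Φ y)) atTop (𝓝 0) ∧
      ∃ B : ℝ, ∀ (w : E3 → E3) (L : ℝ), 0 ≤ L → (∀ x y, ‖w x - w y‖ ≤ L * ‖x - y‖) →
        (∀ y, d ≤ inner ℝ n y → w y = 0) → MemLp w 2 volume →
          Tendsto (fun k => nl (Φk k) w) atTop (𝓝 (∫ y in Hs n d, ∑ i, (w y) i * inner ℝ (w y) (D i Φ y))) ∧
          ∀ k, |nl (Φk k) w| ≤ B * (L ^ 2 + sq w) := by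
  have hΦc : Cc Φ := ⟨hΦ.smooth, hΦ.compact⟩
  have hnn : (inner ℝ n n : ℝ) = 1 := by rw [real_inner_self_eq_norm_sq, hn, one_pow]
  have hHo := G7a_Hs_open n d
  obtain ⟨M, hM0, hM⟩ := G7a_bd hΦc
  obtain ⟨L0, hL00, hL0⟩ := G7a_lip hΦc
  choose M1 hM10 hM1 using fun i => G7a_bd (cc_D hΦc i)
  choose L1 hL10 hL1 using fun i => G7a_lip (cc_D hΦc i)
  obtain ⟨C, hC0, hC⟩ := G7a_kernel
  let ε : ℕ → ℝ := fun m => 1 / ((m : ℝ) + 1)
  have hε : ∀ m, 0 < ε m := fun m => by positivity
  have hε1 : ∀ m, ε m ≤ 1 := by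
    intro m
    show 1 / ((m : ℝ) + 1) ≤ 1
    rw [div_le_one (by positivity)]
    linarith [(Nat.cast_nonneg m : (0:ℝ) ≤ m)]
  have hεt : Tendsto ε atTop (𝓝 0) := tendsto_one_div_add_atTop_nhds_zero_nat
  choose k hk hk0 hkε hk1 hkD using fun m => hC (ε m) (hε m)
  obtain ⟨R, hR⟩ : ∃ R : ℝ, ∀ x, R < ‖x‖ → Φ x = 0 := by
    obtain ⟨r, hr⟩ := hΦ.compact.isCompact.isBounded.subset_closedBall (0 : E3)
    refine ⟨r, fun x hx => ?_⟩
    by_contra h
    have := hr (subset_tsupport _ h)
    rw [mem_closedBall_zero_iff] at this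
    linarith
  let Φk : ℕ → E3 → E3 := fun m => G7a_Phi n d Φ (k m) ((2 * ε m) • n)
  have hsm : ∀ m, ContDiff ℝ ∞ (Φk m) := fun m => G7a_Phi_smooth hΦc (hk m) _
  have hsupp : ∀ m y, Φk m y ≠ 0 → inner ℝ n y ≤ d - ε m ∧ ‖y‖ ≤ R + 3 := by
    intro m y hy
    obtain ⟨h1, h2⟩ := G7a_supp hn (hε m) (hkε m) hR hy
    exact ⟨h1, by linarith [hε1 m]⟩
  have hts : ∀ m, tsupport (Φk m) ⊆ {y | inner ℝ n y ≤ d - ε m} ∩ Metric.closedBall 0 (R + 3) := by
    intro m
    refine closure_minimal ?_ ((isClosed_le (by fun_prop) continuous_const).inter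
      Metric.isClosed_closedBall)
    intro y hy
    obtain ⟨h1, h2⟩ := hsupp m y hy
    exact ⟨h1, mem_closedBall_zero_iff.2 h2⟩
  have hcs : ∀ m, HasCompactSupport (Φk m) := by
    intro m
    exact (isCompact_closedBall (0:E3) (R + 3)).of_isClosed_subset (isClosed_tsupport _)
      ((hts m).trans inter_subset_right)
  have hcc : ∀ m, Cc (Φk m) := fun m => ⟨hsm m, hcs m⟩
  -- distances
  have hdist : ∀ m y z, ‖y + (2 * ε m) • n - z‖ ≤ ε m → ‖z - y‖ ≤ 3 * ε m := by
    intro m y z hz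
    have e : z - y = (2 * ε m) • n - (y + (2 * ε m) • n - z) := by abel
    have h6 : ‖(2 * ε m) • n‖ = 2 * ε m := by
      rw [norm_smul, hn, mul_one, Real.norm_of_nonneg (by have := hε m; positivity)]
    rw [e]
    refine (norm_sub_le _ _).trans ?_
    rw [h6]; linarith
  have hev : ∀ y ∈ Hs n d, ∀ᶠ m in atTop, inner ℝ n y < d - 3 * ε m := by
    intro y hy
    have hy' : 0 < d - inner ℝ n y := sub_pos.2 hy
    have h3 : Tendsto (fun m => 3 * ε m) atTop (𝓝 (3 * 0)) := hεt.const_mul 3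
    rw [mul_zero] at h3
    filter_upwards [h3.eventually (Iio_mem_nhds hy')] with m hm
    have : 3 * ε m < d - inner ℝ n y := hm
    linarith
  have hconv : ∀ y ∈ Hs n d, Tendsto (fun m => Φk m y) atTop (𝓝 (Φ y)) := by
    intro y hy
    rw [tendsto_iff_norm_sub_tendsto_zero]
    have h3 : Tendsto (fun m => L0 * (3 * ε m)) atTop (𝓝 (L0 * (3 * 0))) :=
      (hεt.const_mul 3).const_mul L0
    rw [mul_zero, mul_zero] at h3
    refine squeeze_zero' (Eventually.of_forall fun m => norm_nonneg _) ?_ h3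
    filter_upwards [hev y hy] with m hm
    show ‖G7a_Phi n d Φ (k m) ((2 * ε m) • n) y - Φ y‖ ≤ _
    rw [G7a_local hn (hkε m) hm]
    refine G7a_avg hΦc (hk m) (hk0 m) (hkε m) (hk1 m) _ _ fun z hz => ?_
    exact (hL0 z y).trans (mul_le_mul_of_nonneg_left (hdist m y z hz) hL00)
  have hconvD : ∀ i, ∀ y ∈ Hs n d, Tendsto (fun m => D i (Φk m) y) atTop (𝓝 (D i Φ y)) := by
    intro i y hy
    rw [tendsto_iff_norm_sub_tendsto_zero]
    have h3 : Tendsto (fun m => L1 i * (3 * ε m)) atTop (𝓝 (L1 i * (3 * 0))) :=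
      (hεt.const_mul 3).const_mul (L1 i)
    rw [mul_zero, mul_zero] at h3
    refine squeeze_zero' (Eventually.of_forall fun m => norm_nonneg _) ?_ h3
    filter_upwards [hev y hy] with m hm
    show ‖D i (G7a_Phi n d Φ (k m) ((2 * ε m) • n)) y - D i Φ y‖ ≤ _
    rw [G7a_local_D hΦc (hk m) hn (hkε m) hm]
    refine G7a_avg (cc_D hΦc i) (hk m) (hk0 m) (hkε m) (hk1 m) _ _ fun z hz => ?_
    exact (hL1 i z y).trans (mul_le_mul_of_nonneg_left (hdist m y z hz) (hL10 i))
  have hbΦ : ∀ m y, ‖Φk m y‖ ≤ M := fun m y => G7a_Phi_le (hk m) (hk0 m) (hk1 m) _ y hM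
  have hbD : ∀ m i y, inner ℝ n y < d - 3 * ε m → ‖D i (Φk m) y‖ ≤ M1 i := by
    intro m i y hy
    show ‖D i (G7a_Phi n d Φ (k m) ((2 * ε m) • n)) y‖ ≤ _
    rw [G7a_local_D hΦc (hk m) hn (hkε m) hy]
    have hi : Integrable (k m) volume :=
      ((hk m).smooth.continuous.integrable_of_hasCompactSupport (hk m).comp)
    have h1 : ∀ t, ‖(k m) (y + (2 * ε m) • n - t) • D i Φ t‖ ≤
        M1 i * (k m) (y + (2 * ε m) • n - t) := by
      intro t
      rw [norm_smul, mul_comm, Real.norm_of_nonneg (hk0 m _)]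
      exact mul_le_mul_of_nonneg_right (hM1 i t) (hk0 m _)
    refine (norm_integral_le_of_norm_le ((hi.comp_sub_left (y + (2 * ε m) • n)).const_mul (M1 i))
      (Eventually.of_forall h1)).trans ?_
    rw [integral_const_mul, integral_sub_left_eq_self (k m) volume (y + (2 * ε m) • n), hk1 m,
      mul_one]
  have hbD' : ∀ m i y, ‖D i (Φk m) y‖ ≤ M * (C / ε m) := fun m i y =>
    G7a_D_Phi_le hΦc (hk m) _ i y hM (hkD m i)
  refine ⟨Φk, fun m => ⟨hsm m, hcs m, ?_, fun x => G7a_div hn hΦ hs (hk m) _ x⟩, ?_, ?_⟩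
  · intro y hy
    have h1 : inner ℝ n y ≤ d - ε m := ((hts m) hy).1
    show inner ℝ n y < d
    linarith [hε m]
  · -- convergence in `L²`
    have hlim : Tendsto (fun m => sqOn (Hs n d) (fun y => Φk m y - Φ y)) atTop
        (𝓝 (∫ _ in Hs n d, (0 : ℝ))) := by
      unfold sqOn
      refine tendsto_integral_of_dominated_convergence
        ((Metric.closedBall (0:E3) (R + 3)).indicator fun _ => (2 * M) ^ 2) ?_ ?_ ?_ ?_
      · intro m
        exact (((hsm m).continuous.sub hΦ.smooth.continuous).norm.pow 2).aestronglyMeasurable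
      · refine Integrable.restrict ?_
        rw [integrable_indicator_iff Metric.isClosed_closedBall.measurableSet]
        exact integrableOn_const (isCompact_closedBall (0:E3) (R + 3)).measure_lt_top.ne
      · intro m
        refine Eventually.of_forall fun y => ?_
        rw [Real.norm_of_nonneg (by positivity)]
        by_cases hy : y ∈ Metric.closedBall (0:E3) (R + 3)
        · rw [indicator_of_mem hy]
          refine pow_le_pow_left₀ (norm_nonneg _) ?_ 2
          refine (norm_sub_le _ _).trans ?_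
          linarith [hbΦ m y, hM y]
        · rw [indicator_of_notMem hy]
          rw [mem_closedBall_zero_iff, not_le] at hy
          have h1 : Φk m y = 0 := by
            by_contra h
            exact absurd (hsupp m y h).2 (not_le.2 hy)
          show ‖Φk m y - Φ y‖ ^ 2 ≤ 0
          rw [h1, hR y (by linarith), sub_zero, norm_zero]
          norm_num
      · refine (ae_restrict_iff' hHo.measurableSet).2 (Eventually.of_forall fun y hy => ?_)
        have h := ((hconv y hy).sub_const (Φ y)).norm.pow 2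
        rwa [sub_self, norm_zero, zero_pow two_ne_zero] at h
    simpa using hlim
  · -- the nonlinear term
    set K1 : ℝ := ∑ i, M1 i
    have hK1 : ∀ i, M1 i ≤ K1 := fun i =>
      Finset.single_le_sum (f := M1) (fun j _ => hM10 j) (Finset.mem_univ i)
    have hK10 : 0 ≤ K1 := Finset.sum_nonneg fun i _ => hM10 i
    set V : ℝ := (volume (Metric.closedBall (0:E3) (R + 3))).toReal
    have hV : 0 ≤ V := ENNReal.toReal_nonneg
    refine ⟨3 * K1 + 27 * M * C * V, fun w L hL hw hw0 hw2 => ?_⟩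
    have hwc : Continuous w := by
      have : LipschitzWith ⟨L, hL⟩ w := LipschitzWith.of_dist_le_mul fun x y => by
        rw [dist_eq_norm, dist_eq_norm]; exact hw x y
      exact this.continuous
    have hwi : Integrable (fun x => ‖w x‖ ^ 2) volume := hw2.integrable_norm_pow (by norm_num)
    -- `w` near the boundary
    have hwb : ∀ y ∈ Hs n d, ‖w y‖ ≤ L * (d - inner ℝ n y) := by
      intro y hy
      have hy' : 0 < d - inner ℝ n y := sub_pos.2 hy
      have h1 : w (y + (d - inner ℝ n y) • n) = 0 := by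
        apply hw0
        rw [inner_add_right, real_inner_smul_right, hnn]
        linarith
      have h2 := hw y (y + (d - inner ℝ n y) • n)
      rw [h1, sub_zero] at h2
      have h3 : ‖y - (y + (d - inner ℝ n y) • n)‖ = d - inner ℝ n y := by
        rw [sub_add_cancel_left, norm_neg, norm_smul, hn, mul_one, Real.norm_of_nonneg hy'.le]
      rwa [h3] at h2
    -- the general bound
    have hgen : ∀ m y (c : ℝ), 0 ≤ c → (∀ i, ‖D i (Φk m) y‖ ≤ c) →
        |∑ i, (w y) i * inner ℝ (w y) (D i (Φk m) y)| ≤ 3 * c * ‖w y‖ ^ 2 := by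
      intro m y c hc h
      have h1 : ∀ i, |(w y) i * inner ℝ (w y) (D i (Φk m) y)| ≤ c * ‖w y‖ ^ 2 := by
        intro i
        rw [abs_mul]
        have a1 : |(w y) i| ≤ ‖w y‖ := PiLp.norm_apply_le (w y) i
        have a2 : |(inner ℝ (w y) (D i (Φk m) y) : ℝ)| ≤ ‖w y‖ * c :=
          (abs_real_inner_le_norm _ _).trans (mul_le_mul_of_nonneg_left (h i) (norm_nonneg _))
        calc |(w y) i| * |(inner ℝ (w y) (D i (Φk m) y) : ℝ)| ≤ ‖w y‖ * (‖w y‖ * c) :=
              mul_le_mul a1 a2 (abs_nonneg _) (norm_nonneg _)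
          _ = _ := by ring
      refine (Finset.abs_sum_le_sum_abs _ _).trans ?_
      rw [Fin.sum_univ_three]
      linarith [h1 0, h1 1, h1 2]
    have hpt : ∀ m y, |∑ i, (w y) i * inner ℝ (w y) (D i (Φk m) y)| ≤
        3 * K1 * ‖w y‖ ^ 2 +
          (Metric.closedBall (0:E3) (R + 3)).indicator (fun _ => 27 * M * C * L ^ 2) y := by
      intro m y
      have hε' := hε m
      have hnonneg : 0 ≤ (Metric.closedBall (0:E3) (R + 3)).indicator
          (fun _ => 27 * M * C * L ^ 2) y := indicator_nonneg (fun _ _ => by positivity) y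
      by_cases hy : y ∈ Hs n d
      · by_cases hy2 : inner ℝ n y < d - 3 * ε m
        · have := hgen m y K1 hK10 fun i => (hbD m i y hy2).trans (hK1 i)
          linarith
        · push Not at hy2
          by_cases hy3 : y ∈ Metric.closedBall (0:E3) (R + 3)
          · rw [indicator_of_mem hy3]
            have h1 := hgen m y (M * (C / ε m)) (by positivity) fun i => hbD' m i y
            have h2 : ‖w y‖ ≤ L * (3 * ε m) :=
              (hwb y hy).trans (mul_le_mul_of_nonneg_left (by linarith) hL)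
            have h3 : ‖w y‖ ^ 2 ≤ (L * (3 * ε m)) ^ 2 := pow_le_pow_left₀ (norm_nonneg _) h2 2
            have h4 : 3 * (M * (C / ε m)) * ‖w y‖ ^ 2 ≤ 3 * (M * (C / ε m)) * (L * (3 * ε m)) ^ 2 :=
              mul_le_mul_of_nonneg_left h3 (by positivity)
            have h5 : 3 * (M * (C / ε m)) * (L * (3 * ε m)) ^ 2 = 27 * M * C * L ^ 2 * ε m := by
              field_simp
              ring
            have h6 : 27 * M * C * L ^ 2 * ε m ≤ 27 * M * C * L ^ 2 * 1 :=
              mul_le_mul_of_nonneg_left (hε1 m) (by positivity)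
            have h7 : 0 ≤ 3 * K1 * ‖w y‖ ^ 2 := by positivity
            linarith
          · have h0 : ∀ i, D i (Φk m) y = 0 := by
              intro i
              refine Calc1b_D0 ?_ i
              intro h
              exact hy3 ((hts m) h).2
            have : ∑ i, (w y) i * inner ℝ (w y) (D i (Φk m) y) = 0 :=
              Finset.sum_eq_zero fun i _ => by rw [h0 i, inner_zero_right, mul_zero]
            rw [this, abs_zero]
            positivity
      · have hw' : w y = 0 := hw0 y (by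
          have : ¬ (inner ℝ n y < d) := hy
          exact not_lt.1 this)
        have : ∑ i, (w y) i * inner ℝ (w y) (D i (Φk m) y) = 0 :=
          Finset.sum_eq_zero fun i _ => by rw [hw', inner_zero_left, mul_zero]
        rw [this, abs_zero]
        positivity
    have hgi : Integrable (fun y => 3 * K1 * ‖w y‖ ^ 2 +
        (Metric.closedBall (0:E3) (R + 3)).indicator (fun _ => 27 * M * C * L ^ 2) y) volume := by
      refine (hwi.const_mul _).add ?_
      rw [integrable_indicator_iff Metric.isClosed_closedBall.measurableSet]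
      exact integrableOn_const (isCompact_closedBall (0:E3) (R + 3)).measure_lt_top.ne
    constructor
    · rw [← integral_indicator hHo.measurableSet]
      unfold nl
      refine tendsto_integral_of_dominated_convergence _ ?_ hgi
        (fun m => Eventually.of_forall fun y => hpt m y) ?_
      · intro m
        refine Continuous.aestronglyMeasurable ?_
        refine continuous_finsetSum _ fun i _ => ?_
        exact ((EuclideanSpace.proj (𝕜 := ℝ) i : E3 →L[ℝ] ℝ).continuous.comp hwc).mul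
          (hwc.inner (cc_D (hcc m) i).smooth.continuous)
      · refine Eventually.of_forall fun y => ?_
        by_cases hy : y ∈ Hs n d
        · rw [indicator_of_mem hy]
          refine tendsto_finsetSum _ fun i _ => ?_
          exact (tendsto_const_nhds.inner (hconvD i y hy)).const_mul _
        · rw [indicator_of_notMem hy]
          have hw' : w y = 0 := hw0 y (by
            have : ¬ (inner ℝ n y < d) := hy
            exact not_lt.1 this)
          refine tendsto_const_nhds.congr fun m => ?_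
          exact (Finset.sum_eq_zero fun i _ => by rw [hw', inner_zero_left, mul_zero]).symm
    · intro m
      have h1 : |nl (Φk m) w| ≤ ∫ y, (3 * K1 * ‖w y‖ ^ 2 +
          (Metric.closedBall (0:E3) (R + 3)).indicator (fun _ => 27 * M * C * L ^ 2) y) :=
        norm_integral_le_of_norm_le (f := fun y => ∑ i, (w y) i * inner ℝ (w y) (D i (Φk m) y))
          hgi (Eventually.of_forall fun y => hpt m y)
      have h2 : ∫ y, (3 * K1 * ‖w y‖ ^ 2 +
          (Metric.closedBall (0:E3) (R + 3)).indicator (fun _ => 27 * M * C * L ^ 2) y) =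
          3 * K1 * sq w + V * (27 * M * C * L ^ 2) := by
        rw [integral_add (hwi.const_mul _), integral_const_mul,
          integral_indicator Metric.isClosed_closedBall.measurableSet, setIntegral_const]
        · rfl
        · rw [integrable_indicator_iff Metric.isClosed_closedBall.measurableSet]
          exact integrableOn_const (isCompact_closedBall (0:E3) (R + 3)).measure_lt_top.ne
      rw [h2] at h1
      have h3 : 0 ≤ sq w := sq_nonneg' w
      have h4 : 0 ≤ 27 * M * C * V := by positivity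
      have h5 : 0 ≤ L ^ 2 := sq_nonneg L
      nlinarith [mul_nonneg h4 h3, mul_nonneg hK10 h5]

end Pool.Agent.Helper60.EC
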