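import Pool.Agent.Helper60.EC.GDefs
import Pool.Agent.Helper60.EC.Calc2
import Pool.Agent.Helper60.EC.Calc1
import Pool.Agent.Helper60.EC.Calc3b

/-! Project EC, G7b: identities for the reflection -/

set_option autoImplicit false

open MeasureTheory Set Filter Topology
open scoped ENNReal ContDiff

noncomputable section

namespace Pool.Agent.Helper60.EC

open Pool.Agent.Helper52.NSE (E3 pd divg TestField IsSmoothBoundedDomain MemH1s MemL2s
  IsWeakSolution gradSq)

variable {n : E3} {d : ℝ} {w : E3 → E3} {φ : E3 → E3}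

theorem G7b_nn (hn : ‖n‖ = 1) : inner ℝ n n = (1 : ℝ) := by
  rw [real_inner_self_eq_norm_sq, hn]; norm_num

theorem G7b_inner_refl (hn : ‖n‖ = 1) (d : ℝ) (y : E3) :
    inner ℝ n (refl n d y) = 2 * d - inner ℝ n y := by
  unfold refl
  rw [inner_sub_right, inner_smul_right, G7b_nn hn]
  ring

theorem refl_invol (hn : ‖n‖ = 1) (d : ℝ) (y : E3) : refl n d (refl n d y) = y := by
  have h1 := G7b_inner_refl hn d y
  have h2 : refl n d (refl n d y) = refl n d y - (2 * (inner ℝ n (refl n d y) - d)) • n := rfl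
  rw [h2, h1]
  unfold refl
  module

theorem refl0_norm (hn : ‖n‖ = 1) (a : E3) : ‖refl0 n a‖ = ‖a‖ ∧ refl0 n (refl0 n a) = a := by
  have h1 : ∀ b : E3, inner ℝ n (refl0 n b) = -(inner ℝ n b : ℝ) := by
    intro b
    unfold refl0
    rw [inner_sub_right, inner_smul_right, G7b_nn hn]
    ring
  constructor
  · have h2 : ‖refl0 n a‖ ^ 2 = ‖a‖ ^ 2 := by
      unfold refl0
      rw [norm_sub_sq_real, inner_smul_right, norm_smul, hn, real_inner_comm n a]
      rw [Real.norm_eq_abs, mul_one, sq_abs]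
      ring
    exact (pow_left_inj₀ (norm_nonneg _) (norm_nonneg _) two_ne_zero).mp h2
  · have h2 : refl0 n (refl0 n a) = refl0 n a - (2 * inner ℝ n (refl0 n a)) • n := rfl
    rw [h2, h1]
    unfold refl0
    module

theorem G7b_int {f g : E3 → E3} (hf : MemLp f 2 volume) (hg : MemLp g 2 volume) :
    Integrable (fun y => (inner ℝ (f y) (g y) : ℝ)) volume := by
  have h1 : Integrable (fun y => ‖f y‖ ^ 2 + ‖g y‖ ^ 2) volume :=
    (hf.integrable_norm_pow (by norm_num)).add (hg.integrable_norm_pow (by norm_num))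
  refine h1.mono' (hf.aestronglyMeasurable.inner hg.aestronglyMeasurable)
    (Eventually.of_forall fun y => ?_)
  refine (norm_inner_le_norm _ _).trans ?_
  nlinarith [sq_nonneg (‖f y‖ - ‖g y‖), sq_nonneg ‖f y‖, sq_nonneg ‖g y‖]

/-- the linear part as a continuous linear map -/
def G7b_L (n : E3) : E3 →L[ℝ] E3 :=
  ContinuousLinearMap.id ℝ E3 - (2 : ℝ) • (innerSL ℝ n).smulRight n

theorem G7b_L_apply (n a : E3) : G7b_L n a = refl0 n a := by
  unfold G7b_L refl0
  simp [mul_smul]

theorem G7b_self (_hn : ‖n‖ = 1) (a b : E3) :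
    (inner ℝ (refl0 n a) b : ℝ) = inner ℝ a (refl0 n b) := by
  unfold refl0
  rw [inner_sub_left, inner_sub_right, real_inner_smul_left, real_inner_smul_right,
    real_inner_comm n a]
  ring

/-- the linear part as an isometry -/
def G7b_iso (hn : ‖n‖ = 1) : E3 ≃ₗᵢ[ℝ] E3 where
  toFun := G7b_L n
  map_add' := map_add _
  map_smul' := map_smul _
  invFun := G7b_L n
  left_inv := fun a => by rw [G7b_L_apply, G7b_L_apply]; exact (refl0_norm hn a).2
  right_inv := fun a => by rw [G7b_L_apply, G7b_L_apply]; exact (refl0_norm hn a).2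
  norm_map' := fun a => by
    change ‖G7b_L n a‖ = ‖a‖
    rw [G7b_L_apply]
    exact (refl0_norm hn a).1

theorem G7b_refl_eq (n : E3) (d : ℝ) (y : E3) : refl n d y = refl0 n y + (2 * d) • n := by
  unfold refl refl0
  module

theorem refl_mp (hn : ‖n‖ = 1) (d : ℝ) : MeasurePreserving (refl n d) volume volume := by
  have h1 : MeasurePreserving (G7b_iso hn) volume volume := (G7b_iso hn).measurePreserving
  have h2 : MeasurePreserving (fun y : E3 => y + (2 * d) • n) volume volume :=
    measurePreserving_add_right volume _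
  have h3 := h2.comp h1
  have h4 : (fun y : E3 => y + (2 * d) • n) ∘ (G7b_iso hn) = refl n d := by
    funext y
    rw [G7b_refl_eq]
    change G7b_L n y + _ = _
    rw [G7b_L_apply]
  rwa [h4] at h3

theorem G7b_refl_cont (n : E3) (d : ℝ) : Continuous (refl n d) := by
  have h : refl n d = fun y => G7b_L n y + (2 * d) • n := by
    funext y; rw [G7b_refl_eq, G7b_L_apply]
  rw [h]; fun_prop

theorem G7b_refl_smooth (n : E3) (d : ℝ) : ContDiff ℝ ∞ (refl n d) := by
  have h : refl n d = fun y => G7b_L n y + (2 * d) • n := by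
    funext y; rw [G7b_refl_eq, G7b_L_apply]
  rw [h]; fun_prop

theorem G7b_refl_fderiv (n : E3) (d : ℝ) (y : E3) : HasFDerivAt (refl n d) (G7b_L n) y := by
  have h : refl n d = fun y => G7b_L n y + (2 * d) • n := by
    funext y; rw [G7b_refl_eq, G7b_L_apply]
  rw [h]
  exact (G7b_L n).hasFDerivAt.add_const _

/-- the reflection as a homeomorphism -/
def G7b_homeo (hn : ‖n‖ = 1) (d : ℝ) : E3 ≃ₜ E3 where
  toFun := refl n d
  invFun := refl n d
  left_inv := refl_invol hn d
  right_inv := refl_invol hn d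
  continuous_toFun := G7b_refl_cont n d
  continuous_invFun := G7b_refl_cont n d

/-- change of variables -/
theorem G7b_cov (hn : ‖n‖ = 1) (d : ℝ) (g : E3 → ℝ) : ∫ y, g (refl n d y) = ∫ y, g y :=
  (refl_mp hn d).integral_comp (G7b_homeo hn d).measurableEmbedding g

theorem G7b_ref_fderiv {f : E3 → E3} (hf : Differentiable ℝ f) (n : E3) (d : ℝ) (y : E3) :
    HasFDerivAt (fun z => refl0 n (f (refl n d z)))
      ((G7b_L n).comp ((fderiv ℝ f (refl n d y)).comp (G7b_L n))) y := by
  have h1 : (fun z => refl0 n (f (refl n d z))) = fun z => G7b_L n (f (refl n d z)) := by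
    funext z; rw [G7b_L_apply]
  rw [h1]
  exact (G7b_L n).hasFDerivAt.comp y ((hf _).hasFDerivAt.comp y (G7b_refl_fderiv n d y))

theorem G7b_divg (f : E3 → E3) (x : E3) :
    divg f x = LinearMap.trace ℝ E3 (fderiv ℝ f x : E3 →ₗ[ℝ] E3) := by
  rw [LinearMap.trace_eq_sum_inner _ (EuclideanSpace.basisFun (Fin 3) ℝ)]
  unfold divg pd
  refine Finset.sum_congr rfl fun i _ => ?_
  rw [EuclideanSpace.basisFun_apply, EuclideanSpace.inner_single_left]
  simp

theorem G7b_smooth_ref {f : E3 → E3} (hf : ContDiff ℝ ∞ f) (n : E3) (d : ℝ) :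
    ContDiff ℝ ∞ (fun z => refl0 n (f (refl n d z))) := by
  have h1 : (fun z => refl0 n (f (refl n d z))) = fun z => G7b_L n (f (refl n d z)) := by
    funext z; rw [G7b_L_apply]
  rw [h1]
  exact (G7b_L n).contDiff.comp (hf.comp (G7b_refl_smooth n d))

/-- the symmetrised test field -/
theorem symm_test (hn : ‖n‖ = 1) (hφ : TestField univ φ) :
    TestField univ (fun y => φ y + refl0 n (φ (refl n d y))) ∧
    ∀ y, φ y + refl0 n (φ (refl n d y)) =
      refl0 n (φ (refl n d y) + refl0 n (φ (refl n d (refl n d y)))) := by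
  have hdf : Differentiable ℝ φ := hφ.smooth.differentiable (by simp)
  refine ⟨⟨?_, ?_, subset_univ _, ?_⟩, ?_⟩
  · exact hφ.smooth.add (G7b_smooth_ref hφ.smooth n d)
  · have h1 : HasCompactSupport (fun y => φ (refl n d y)) :=
      hφ.compact.comp_homeomorph (G7b_homeo hn d)
    have h2 : HasCompactSupport (fun y => refl0 n (φ (refl n d y))) := by
      refine h1.mono ?_
      intro y hy
      rw [Function.mem_support] at hy ⊢
      intro h0
      apply hy
      rw [h0]
      unfold refl0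
      simp
    exact hφ.compact.add h2
  · intro x
    rw [G7b_divg]
    have h1 := (hdf x).hasFDerivAt.add (G7b_ref_fderiv hdf n d x)
    have h2 : fderiv ℝ (fun y => φ y + refl0 n (φ (refl n d y))) x =
        fderiv ℝ φ x + (G7b_L n).comp ((fderiv ℝ φ (refl n d x)).comp (G7b_L n)) := h1.fderiv
    rw [h2]
    have h3 : ((fderiv ℝ φ x + (G7b_L n).comp ((fderiv ℝ φ (refl n d x)).comp (G7b_L n)) :
        E3 →L[ℝ] E3) : E3 →ₗ[ℝ] E3) = (fderiv ℝ φ x : E3 →ₗ[ℝ] E3) +
        (G7b_L n : E3 →ₗ[ℝ] E3) * ((fderiv ℝ φ (refl n d x) : E3 →ₗ[ℝ] E3) *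
          (G7b_L n : E3 →ₗ[ℝ] E3)) := rfl
    rw [h3, map_add, LinearMap.trace_mul_comm, mul_assoc]
    have h4 : (G7b_L n : E3 →ₗ[ℝ] E3) * (G7b_L n : E3 →ₗ[ℝ] E3) = 1 := by
      ext1 a
      change G7b_L n (G7b_L n a) = a
      rw [G7b_L_apply, G7b_L_apply]
      exact (refl0_norm hn a).2
    rw [h4, mul_one, ← G7b_divg, ← G7b_divg, hφ.div, hφ.div, add_zero]
  · intro y
    rw [refl_invol hn]
    have h1 : ∀ a b : E3, refl0 n (a + b) = refl0 n a + refl0 n b := by
      intro a b
      rw [← G7b_L_apply, map_add, G7b_L_apply, G7b_L_apply]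
    rw [h1, (refl0_norm hn _).2]
    exact add_comm _ _

theorem G7b_memLp_ref (hn : ‖n‖ = 1) (hw : MemLp w 2 volume) :
    MemLp (fun y => refl0 n (w (refl n d y))) 2 volume := by
  have h1 : MemLp (fun y => w (refl n d y)) 2 volume :=
    hw.comp_measurePreserving (refl_mp hn d)
  have h2 := (G7b_L n).comp_memLp' h1
  refine h2.congr_norm ?_ ?_
  · have h3 : (fun y => refl0 n (w (refl n d y))) = (G7b_L n) ∘ (fun y => w (refl n d y)) := by
      funext z; simp only [Function.comp_apply]; rw [G7b_L_apply]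
    rw [h3]
    exact h2.aestronglyMeasurable
  · refine Eventually.of_forall fun y => ?_
    simp only [Function.comp_apply]
    rw [G7b_L_apply]

theorem rf_ip (hn : ‖n‖ = 1) (hw : MemLp w 2 volume) (h0 : ∀ y, d ≤ inner ℝ n y → w y = 0)
    (hφ : TestField univ φ) :
    ip (rf n d w) φ = ∫ y in Hs n d, inner ℝ (w y) (φ y + refl0 n (φ (refl n d y))) := by
  have hφ2 : MemLp φ 2 volume := cc_memLp ⟨hφ.smooth, hφ.compact⟩ 2
  have hφ2' : MemLp (fun y => refl0 n (φ (refl n d y))) 2 volume := G7b_memLp_ref hn hφ2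
  have hw' : MemLp (fun y => refl0 n (w (refl n d y))) 2 volume := G7b_memLp_ref hn hw
  have hi1 : Integrable (fun y => (inner ℝ (w y) (φ y) : ℝ)) volume := G7b_int hw hφ2
  have hi2 : Integrable (fun y => (inner ℝ (refl0 n (w (refl n d y))) (φ y) : ℝ)) volume :=
    G7b_int hw' hφ2
  have hi3 : Integrable (fun y => (inner ℝ (w y) (refl0 n (φ (refl n d y))) : ℝ)) volume :=
    G7b_int hw hφ2'
  have e1 : ip (rf n d w) φ = (∫ y, (inner ℝ (w y) (φ y) : ℝ)) +
      ∫ y, (inner ℝ (refl0 n (w (refl n d y))) (φ y) : ℝ) := by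
    rw [← integral_add hi1 hi2]
    unfold ip rf
    simp only [inner_add_left]
  have e2 : ∫ y, (inner ℝ (refl0 n (w (refl n d y))) (φ y) : ℝ) =
      ∫ y, (inner ℝ (w y) (refl0 n (φ (refl n d y))) : ℝ) := by
    rw [← G7b_cov hn d (fun y => (inner ℝ (w y) (refl0 n (φ (refl n d y))) : ℝ))]
    refine integral_congr_ae (Eventually.of_forall fun y => ?_)
    simp only
    rw [G7b_self hn, refl_invol hn]
  have e3 : ∫ y in Hs n d, (inner ℝ (w y) (φ y + refl0 n (φ (refl n d y))) : ℝ) =
      ∫ y, (inner ℝ (w y) (φ y + refl0 n (φ (refl n d y))) : ℝ) := by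
    refine setIntegral_eq_integral_of_forall_compl_eq_zero fun y hy => ?_
    rw [h0 y (not_lt.mp hy), inner_zero_left]
  rw [e1, e2, e3, ← integral_add hi1 hi3]
  simp only [inner_add_right]

theorem G7b_Q (f : E3 → E3) (x a : E3) :
    ∑ i, a i * inner ℝ a (D i f x) = (inner ℝ a (fderiv ℝ f x a) : ℝ) := by
  rw [fderiv_eq_sum f x a, inner_sum]
  simp only [inner_smul_right]

theorem rf_nl (hn : ‖n‖ = 1) (hw : MemLp w 2 volume) (h0 : ∀ y, d ≤ inner ℝ n y → w y = 0)
    (hφ : TestField univ φ) :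
    nl φ (rf n d w) = ∫ y in Hs n d, ∑ i, (w y) i *
      inner ℝ (w y) (D i (fun z => φ z + refl0 n (φ (refl n d z))) y) := by
  have hdf : Differentiable ℝ φ := hφ.smooth.differentiable (by simp)
  have hcc : Cc φ := ⟨hφ.smooth, hφ.compact⟩
  obtain ⟨M, hM⟩ : ∃ M : ℝ, ∀ x, ‖fderiv ℝ φ x‖ ≤ M := by
    have h1 : Continuous (fderiv ℝ φ) := hφ.smooth.continuous_fderiv (by simp)
    have h2 : HasCompactSupport (fderiv ℝ φ) := hφ.compact.fderiv (𝕜 := ℝ)
    obtain ⟨M, hM⟩ := h2.exists_bound_of_continuous h1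
    exact ⟨M, hM⟩
  have hmeas : Continuous (fderiv ℝ φ) := hφ.smooth.continuous_fderiv (by simp)
  -- integrability of quadratic forms
  have hQ : ∀ {v : E3 → E3}, MemLp v 2 volume →
      Integrable (fun y => (inner ℝ (v y) (fderiv ℝ φ y (v y)) : ℝ)) volume := by
    intro v hv
    have hsq : Integrable (fun y => M * ‖v y‖ ^ 2) volume :=
      (hv.integrable_norm_pow (by norm_num)).const_mul M
    refine hsq.mono' ?_ (Eventually.of_forall fun y => ?_)
    · refine AEStronglyMeasurable.inner hv.aestronglyMeasurable ?_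
      have h1 : AEStronglyMeasurable (fun y => (fderiv ℝ φ y, v y)) volume :=
        hmeas.aestronglyMeasurable.prodMk hv.aestronglyMeasurable
      exact (isBoundedBilinearMap_apply (𝕜 := ℝ) (E := E3) (F := E3)).continuous.comp_aestronglyMeasurable h1
    · refine (norm_inner_le_norm _ _).trans ?_
      calc ‖v y‖ * ‖fderiv ℝ φ y (v y)‖ ≤ ‖v y‖ * (‖fderiv ℝ φ y‖ * ‖v y‖) :=
            mul_le_mul_of_nonneg_left ((fderiv ℝ φ y).le_opNorm _) (norm_nonneg _)
        _ ≤ ‖v y‖ * (M * ‖v y‖) := by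
            refine mul_le_mul_of_nonneg_left ?_ (norm_nonneg _)
            exact mul_le_mul_of_nonneg_right (hM y) (norm_nonneg _)
        _ = M * ‖v y‖ ^ 2 := by ring
  have hw' : MemLp (fun y => refl0 n (w (refl n d y))) 2 volume := G7b_memLp_ref hn hw
  have hi1 := hQ hw
  have hi2 := hQ hw'
  -- one of the two fields vanishes
  have hz : ∀ y, w y = 0 ∨ refl0 n (w (refl n d y)) = 0 := by
    intro y
    rcases le_or_gt d (inner ℝ n y) with h | h
    · exact Or.inl (h0 y h)
    · right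
      have h1 : d ≤ inner ℝ n (refl n d y) := by
        rw [G7b_inner_refl hn]; linarith
      rw [h0 _ h1]
      unfold refl0
      simp
  have e1 : nl φ (rf n d w) = (∫ y, (inner ℝ (w y) (fderiv ℝ φ y (w y)) : ℝ)) +
      ∫ y, (inner ℝ (refl0 n (w (refl n d y))) (fderiv ℝ φ y (refl0 n (w (refl n d y)))) : ℝ) := by
    rw [← integral_add hi1 hi2]
    unfold nl
    refine integral_congr_ae (Eventually.of_forall fun y => ?_)
    simp only
    rw [G7b_Q]
    unfold rf
    rcases hz y with h | h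
    · rw [h]; simp
    · rw [h]; simp
  -- the reflected quadratic form
  have e2 : ∫ y, (inner ℝ (refl0 n (w (refl n d y))) (fderiv ℝ φ y (refl0 n (w (refl n d y)))) : ℝ) =
      ∫ y, (inner ℝ (w y) (refl0 n (fderiv ℝ φ (refl n d y) (refl0 n (w y)))) : ℝ) := by
    rw [← G7b_cov hn d
      (fun y => (inner ℝ (w y) (refl0 n (fderiv ℝ φ (refl n d y) (refl0 n (w y)))) : ℝ))]
    refine integral_congr_ae (Eventually.of_forall fun y => ?_)
    simp only
    rw [G7b_self hn, refl_invol hn]
  have hi3 : Integrable (fun y =>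
      (inner ℝ (w y) (refl0 n (fderiv ℝ φ (refl n d y) (refl0 n (w y)))) : ℝ)) volume := by
    have h1 := ((refl_mp hn d).integrable_comp_emb (G7b_homeo hn d).measurableEmbedding).mpr hi2
    refine h1.congr (Eventually.of_forall fun y => ?_)
    simp only [Function.comp_apply]
    rw [G7b_self hn, refl_invol hn]
  have e3 : ∫ y in Hs n d, ∑ i, (w y) i *
      (inner ℝ (w y) (D i (fun z => φ z + refl0 n (φ (refl n d z))) y) : ℝ) =
      ∫ y, ∑ i, (w y) i *
      (inner ℝ (w y) (D i (fun z => φ z + refl0 n (φ (refl n d z))) y) : ℝ) := by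
    refine setIntegral_eq_integral_of_forall_compl_eq_zero fun y hy => ?_
    rw [h0 y (not_lt.mp hy)]
    simp
  rw [e1, e2, e3, ← integral_add hi1 hi3]
  refine integral_congr_ae (Eventually.of_forall fun y => ?_)
  simp only
  rw [G7b_Q]
  have h1 := (hdf y).hasFDerivAt.add (G7b_ref_fderiv hdf n d y)
  have h2 : fderiv ℝ (fun y => φ y + refl0 n (φ (refl n d y))) y =
      fderiv ℝ φ y + (G7b_L n).comp ((fderiv ℝ φ (refl n d y)).comp (G7b_L n)) := h1.fderiv
  rw [h2, add_apply, inner_add_right, ContinuousLinearMap.comp_apply,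
    ContinuousLinearMap.comp_apply, G7b_L_apply, G7b_L_apply]

theorem G7b_sq_ref (hn : ‖n‖ = 1) (w : E3 → E3) :
    sq (fun y => refl0 n (w (refl n d y))) = sq w := by
  unfold sq
  rw [← G7b_cov hn d (fun y => ‖w y‖ ^ 2)]
  refine integral_congr_ae (Eventually.of_forall fun y => ?_)
  simp only
  rw [(refl0_norm hn _).1]

theorem G7b_sq_add {f g : E3 → E3} (hf : MemLp f 2 volume) (hg : MemLp g 2 volume) :
    sq (fun y => f y + g y) ≤ 2 * sq f + 2 * sq g := by
  unfold sq
  have h1 : Integrable (fun y => ‖f y‖ ^ 2) volume := hf.integrable_norm_pow (by norm_num)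
  have h2 : Integrable (fun y => ‖g y‖ ^ 2) volume := hg.integrable_norm_pow (by norm_num)
  rw [← integral_const_mul, ← integral_const_mul, ← integral_add (h1.const_mul 2) (h2.const_mul 2)]
  refine integral_mono ((hf.add hg).integrable_norm_pow (by norm_num))
    ((h1.const_mul 2).add (h2.const_mul 2)) fun y => ?_
  have h3 := norm_add_le (f y) (g y)
  have h4 := pow_le_pow_left₀ (norm_nonneg _) h3 2
  simp only
  nlinarith [sq_nonneg (‖f y‖ - ‖g y‖)]

theorem rf_basic (hn : ‖n‖ = 1) (hw : MemLp w 2 volume) :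
    MemLp (rf n d w) 2 volume ∧ sq (rf n d w) ≤ 4 * sq w ∧
    (∀ L : ℝ, (∀ x y, ‖w x - w y‖ ≤ L * ‖x - y‖) →
      ∀ x y, ‖rf n d w x - rf n d w y‖ ≤ 2 * L * ‖x - y‖) ∧
    (∀ L : ℝ, (∀ h : E3, sq (fun x => w (x + h) - w x) ≤ L * ‖h‖ ^ 2) →
      ∀ h : E3, sq (fun x => rf n d w (x + h) - rf n d w x) ≤ 4 * L * ‖h‖ ^ 2) := by
  have hw' : MemLp (fun y => refl0 n (w (refl n d y))) 2 volume := G7b_memLp_ref hn hw
  have hsub : ∀ a b : E3, refl0 n a - refl0 n b = refl0 n (a - b) := by
    intro a b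
    rw [← G7b_L_apply, ← G7b_L_apply, ← map_sub, G7b_L_apply]
  refine ⟨hw.add hw', ?_, ?_, ?_⟩
  · refine (G7b_sq_add hw hw').trans (le_of_eq ?_)
    rw [G7b_sq_ref hn]
    ring
  · intro L hL x y
    have h1 : rf n d w x - rf n d w y =
        (w x - w y) + refl0 n (w (refl n d x) - w (refl n d y)) := by
      rw [← hsub]
      unfold rf
      abel
    rw [h1]
    refine (norm_add_le _ _).trans ?_
    rw [(refl0_norm hn _).1]
    have h2 := hL x y
    have h3 := hL (refl n d x) (refl n d y)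
    have h4 : ‖refl n d x - refl n d y‖ = ‖x - y‖ := by
      rw [G7b_refl_eq, G7b_refl_eq, add_sub_add_right_eq_sub, hsub, (refl0_norm hn _).1]
    rw [h4] at h3
    linarith
  · intro L hL h
    have h1 : (fun x => rf n d w (x + h) - rf n d w x) = fun x => (w (x + h) - w x) +
        refl0 n ((fun z => w (z + refl0 n h) - w z) (refl n d x)) := by
      funext x
      have h2 : refl n d (x + h) = refl n d x + refl0 n h := by
        rw [G7b_refl_eq, G7b_refl_eq, ← G7b_L_apply, ← G7b_L_apply, ← G7b_L_apply, map_add]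
        abel
      simp only
      rw [← hsub]
      unfold rf
      rw [h2]
      abel
    rw [h1]
    have hA : ∀ a : E3, MemLp (fun x => w (x + a) - w x) 2 volume := fun a =>
      (hw.comp_measurePreserving (measurePreserving_add_right volume a)).sub hw
    refine (G7b_sq_add (hA h) (G7b_memLp_ref (d := d) hn (hA (refl0 n h)))).trans ?_
    rw [G7b_sq_ref (d := d) hn (fun x => w (x + refl0 n h) - w x)]
    have h2 := hL h
    have h3 := hL (refl0 n h)
    rw [(refl0_norm hn h).1] at h3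
    linarith

theorem rf_wdiv (hn : ‖n‖ = 1) (hw : MemLp w 2 volume) (hd : WDiv w) : WDiv (rf n d w) := by
  intro φ hφ
  have hg : MemLp (grad φ) 2 volume := cc_memLp (cc_grad hφ) 2
  have hw' : MemLp (fun y => refl0 n (w (refl n d y))) 2 volume := G7b_memLp_ref hn hw
  have hi1 : Integrable (fun y => (inner ℝ (w y) (grad φ y) : ℝ)) volume := G7b_int hw hg
  have hi2 : Integrable (fun y => (inner ℝ (refl0 n (w (refl n d y))) (grad φ y) : ℝ)) volume :=
    G7b_int hw' hg
  have hψ : Cc (fun y => φ (refl n d y)) :=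
    ⟨hφ.smooth.comp (G7b_refl_smooth n d), hφ.comp.comp_homeomorph (G7b_homeo hn d)⟩
  have hgr : ∀ y, refl0 n (grad φ (refl n d y)) = grad (fun z => φ (refl n d z)) y := by
    intro y
    refine ext_inner_right ℝ fun a => ?_
    rw [G7b_self hn, inner_grad, inner_grad]
    have h1 : fderiv ℝ (fun z => φ (refl n d z)) y =
        (fderiv ℝ φ (refl n d y)).comp (G7b_L n) :=
      (((hφ.smooth.differentiable (by simp)) _).hasFDerivAt.comp y (G7b_refl_fderiv n d y)).fderiv
    rw [h1, ContinuousLinearMap.comp_apply, G7b_L_apply]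
  have e1 : ∫ y, (inner ℝ (rf n d w y) (grad φ y) : ℝ) = (∫ y, (inner ℝ (w y) (grad φ y) : ℝ)) +
      ∫ y, (inner ℝ (refl0 n (w (refl n d y))) (grad φ y) : ℝ) := by
    rw [← integral_add hi1 hi2]
    unfold rf
    simp only [inner_add_left]
  have e2 : ∫ y, (inner ℝ (refl0 n (w (refl n d y))) (grad φ y) : ℝ) =
      ∫ y, (inner ℝ (w y) (grad (fun z => φ (refl n d z)) y) : ℝ) := by
    rw [← G7b_cov hn d (fun y => (inner ℝ (w y) (grad (fun z => φ (refl n d z)) y) : ℝ))]
    refine integral_congr_ae (Eventually.of_forall fun y => ?_)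
    simp only
    rw [G7b_self hn, ← hgr, refl_invol hn]
  rw [e1, e2, hd φ hφ, hd _ hψ, add_zero]

end Pool.Agent.Helper60.EC
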