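import Pool.Agent.Helper60.EC.G7a
import Pool.Agent.Helper60.EC.G7b

/-! Project EC, G7c: the reflected flow belongs to the class Anc -/

set_option autoImplicit false

open MeasureTheory Set Filter Topology
open scoped ENNReal ContDiff

noncomputable section

namespace Pool.Agent.Helper60.EC

open Pool.Agent.Helper52.NSE (E3 pd divg TestField IsSmoothBoundedDomain MemH1s MemL2s
  IsWeakSolution gradSq)

theorem G7c_refl0_sub (n a b : E3) : refl0 n (a - b) = refl0 n a - refl0 n b := by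
  unfold refl0
  rw [inner_sub_right]
  module

theorem G7c_rf_sub (n : E3) (d : ℝ) (w₁ w₂ : E3 → E3) (x : E3) :
    rf n d w₁ x - rf n d w₂ x = rf n d (fun y => w₁ y - w₂ y) x := by
  unfold rf
  rw [G7c_refl0_sub]
  exact add_sub_add_comm _ _ _ _

theorem G7c_int_inner {f g : E3 → E3} (hf : MemLp f 2 volume) (hg : MemLp g 2 volume) :
    Integrable (fun x => (inner ℝ (f x) (g x) : ℝ)) volume := by
  have h1 : MemLp (fun x => ‖f x‖) 2 volume := hf.norm
  have h2 : MemLp (fun x => ‖g x‖) 2 volume := hg.norm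
  have h3 : Integrable (fun x => ‖f x‖ * ‖g x‖) volume := h1.integrable_mul h2
  exact h3.mono' (hf.1.inner hg.1) (Eventually.of_forall fun x => norm_inner_le_norm _ _)

theorem G7c_bdd {φ : E3 → E3} (hs : ContDiff ℝ ∞ φ) (hc : HasCompactSupport φ) :
    ∃ M : ℝ, 0 ≤ M ∧ ∀ i x, ‖D i φ x‖ ≤ M := by
  have h : ∀ i : Fin 3, ∃ C : ℝ, ∀ x, ‖D i φ x‖ ≤ C := fun i =>
    (cc_D ⟨hs, hc⟩ i).comp.exists_bound_of_continuous (cc_D ⟨hs, hc⟩ i).smooth.continuous
  choose C hC using h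
  refine ⟨∑ i, |C i|, Finset.sum_nonneg fun i _ => abs_nonneg _, fun i x => ?_⟩
  refine ((hC i x).trans (le_abs_self _)).trans ?_
  exact Finset.single_le_sum (f := fun i => |C i|) (fun i _ => abs_nonneg _) (Finset.mem_univ i)

theorem G7c_term_meas {φ w : E3 → E3} (hs : ContDiff ℝ ∞ φ) (hw : MemLp w 2 volume) :
    AEStronglyMeasurable (fun x => ∑ i, (w x) i * inner ℝ (w x) (D i φ x)) volume := by
  have h1 : AEStronglyMeasurable w volume := hw.1
  refine Finset.aestronglyMeasurable_fun_sum _ fun i _ => ?_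
  refine AEStronglyMeasurable.mul ?_ ?_
  · exact (EuclideanSpace.proj (𝕜 := ℝ) i : E3 →L[ℝ] ℝ).continuous.comp_aestronglyMeasurable h1
  · exact h1.inner (D_smooth hs i).continuous.aestronglyMeasurable

theorem G7c_nl_int {φ w : E3 → E3} (hs : ContDiff ℝ ∞ φ) (hc : HasCompactSupport φ)
    (hw : MemLp w 2 volume) :
    Integrable (fun x => ∑ i, (w x) i * inner ℝ (w x) (D i φ x)) volume := by
  obtain ⟨M, hM0, hM⟩ := G7c_bdd hs hc
  have h2 : Integrable (fun x => 3 * M * ‖w x‖ ^ 2) volume :=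
    (hw.integrable_norm_pow (by norm_num)).const_mul _
  refine h2.mono' (G7c_term_meas hs hw) (Eventually.of_forall fun x => ?_)
  refine (norm_sum_le _ _).trans ?_
  have h3 : ∀ i : Fin 3, ‖(w x) i * inner ℝ (w x) (D i φ x)‖ ≤ M * ‖w x‖ ^ 2 := by
    intro i
    rw [norm_mul]
    have h4 : ‖(w x) i‖ ≤ ‖w x‖ := PiLp.norm_apply_le (w x) i
    have h5 : ‖(inner ℝ (w x) (D i φ x) : ℝ)‖ ≤ ‖w x‖ * M :=
      (norm_inner_le_norm _ _).trans (mul_le_mul_of_nonneg_left (hM i x) (norm_nonneg _))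
    calc ‖(w x) i‖ * ‖(inner ℝ (w x) (D i φ x) : ℝ)‖ ≤ ‖w x‖ * (‖w x‖ * M) :=
          mul_le_mul h4 h5 (norm_nonneg _) (norm_nonneg _)
      _ = M * ‖w x‖ ^ 2 := by ring
  refine (Finset.sum_le_sum fun i _ => h3 i).trans ?_
  simp only [Finset.sum_const, Finset.card_univ, Fintype.card_fin, nsmul_eq_mul]
  norm_num
  linarith

theorem G7c_nl_sub {φ w₁ w₂ : E3 → E3} (hs : ContDiff ℝ ∞ φ) (hc : HasCompactSupport φ)
    {M : ℝ} (hM : ∀ i x, ‖D i φ x‖ ≤ M) (h₁ : MemLp w₁ 2 volume) (h₂ : MemLp w₂ 2 volume) :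
    |nl φ w₁ - nl φ w₂| ≤ 3 * M * ((Real.sqrt (sq w₁) + Real.sqrt (sq w₂)) *
      Real.sqrt (sq (fun x => w₁ x - w₂ x))) := by
  have hM0 : 0 ≤ M := (norm_nonneg _).trans (hM 0 0)
  have h12 : MemLp (fun x => w₁ x - w₂ x) 2 volume := h₁.sub h₂
  have e1 : nl φ w₁ - nl φ w₂ = ∫ x, ((∑ i, (w₁ x) i * inner ℝ (w₁ x) (D i φ x)) -
      ∑ i, (w₂ x) i * inner ℝ (w₂ x) (D i φ x)) :=
    (integral_sub (G7c_nl_int hs hc h₁) (G7c_nl_int hs hc h₂)).symm
  have n1 : MemLp (fun x => ‖w₁ x‖) 2 volume := h₁.norm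
  have n2 : MemLp (fun x => ‖w₂ x‖) 2 volume := h₂.norm
  have n12 : MemLp (fun x => ‖w₁ x - w₂ x‖) 2 volume := h12.norm
  have i1 : Integrable (fun x => ‖w₁ x‖ * ‖w₁ x - w₂ x‖) volume := n1.integrable_mul n12
  have i2 : Integrable (fun x => ‖w₂ x‖ * ‖w₁ x - w₂ x‖) volume := n2.integrable_mul n12
  have c1 : ∫ x, ‖w₁ x‖ * ‖w₁ x - w₂ x‖ ≤
      Real.sqrt (sq w₁) * Real.sqrt (sq (fun x => w₁ x - w₂ x)) := by
    have h := (le_abs_self _).trans (ip_le n1 n12)
    simp only [ip, sq, norm_norm] at h ⊢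
    refine le_trans (le_of_eq ?_) h
    refine integral_congr_ae (Eventually.of_forall fun x => ?_)
    simp [mul_comm]
  have c2 : ∫ x, ‖w₂ x‖ * ‖w₁ x - w₂ x‖ ≤
      Real.sqrt (sq w₂) * Real.sqrt (sq (fun x => w₁ x - w₂ x)) := by
    have h := (le_abs_self _).trans (ip_le n2 n12)
    simp only [ip, sq, norm_norm] at h ⊢
    refine le_trans (le_of_eq ?_) h
    refine integral_congr_ae (Eventually.of_forall fun x => ?_)
    simp [mul_comm]
  have hp : ∀ x, ‖(∑ i, (w₁ x) i * inner ℝ (w₁ x) (D i φ x)) -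
      ∑ i, (w₂ x) i * inner ℝ (w₂ x) (D i φ x)‖ ≤
      3 * M * (‖w₁ x‖ * ‖w₁ x - w₂ x‖ + ‖w₂ x‖ * ‖w₁ x - w₂ x‖) := by
    intro x
    rw [← Finset.sum_sub_distrib]
    refine (norm_sum_le _ _).trans ?_
    have h3 : ∀ i : Fin 3, ‖(w₁ x) i * inner ℝ (w₁ x) (D i φ x) -
        (w₂ x) i * inner ℝ (w₂ x) (D i φ x)‖ ≤
        M * (‖w₁ x‖ * ‖w₁ x - w₂ x‖ + ‖w₂ x‖ * ‖w₁ x - w₂ x‖) := by
      intro i
      have e : (w₁ x) i * inner ℝ (w₁ x) (D i φ x) - (w₂ x) i * inner ℝ (w₂ x) (D i φ x) =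
          (w₁ x - w₂ x) i * inner ℝ (w₁ x) (D i φ x) +
          (w₂ x) i * inner ℝ (w₁ x - w₂ x) (D i φ x) := by
        rw [inner_sub_left, PiLp.sub_apply]
        ring
      rw [e]
      refine (norm_add_le _ _).trans ?_
      rw [norm_mul, norm_mul]
      have a1 : ‖(w₁ x - w₂ x) i‖ ≤ ‖w₁ x - w₂ x‖ := PiLp.norm_apply_le (w₁ x - w₂ x) i
      have a2 : ‖(w₂ x) i‖ ≤ ‖w₂ x‖ := PiLp.norm_apply_le (w₂ x) i
      have a3 : ‖(inner ℝ (w₁ x) (D i φ x) : ℝ)‖ ≤ ‖w₁ x‖ * M :=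
        (norm_inner_le_norm _ _).trans (mul_le_mul_of_nonneg_left (hM i x) (norm_nonneg _))
      have a4 : ‖(inner ℝ (w₁ x - w₂ x) (D i φ x) : ℝ)‖ ≤ ‖w₁ x - w₂ x‖ * M :=
        (norm_inner_le_norm _ _).trans (mul_le_mul_of_nonneg_left (hM i x) (norm_nonneg _))
      have b1 := mul_le_mul a1 a3 (norm_nonneg _) (norm_nonneg _)
      have b2 := mul_le_mul a2 a4 (norm_nonneg _) (norm_nonneg _)
      calc _ ≤ ‖w₁ x - w₂ x‖ * (‖w₁ x‖ * M) + ‖w₂ x‖ * (‖w₁ x - w₂ x‖ * M) := add_le_add b1 b2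
        _ = _ := by ring
    refine (Finset.sum_le_sum fun i _ => h3 i).trans ?_
    simp only [Finset.sum_const, Finset.card_univ, Fintype.card_fin, nsmul_eq_mul]
    norm_num
    linarith
  rw [e1, ← Real.norm_eq_abs]
  refine (norm_integral_le_of_norm_le ((i1.add i2).const_mul (3 * M))
    (Eventually.of_forall hp)).trans ?_
  simp only [Pi.add_apply]
  rw [integral_const_mul, integral_add i1 i2]
  refine mul_le_mul_of_nonneg_left ?_ (by positivity)
  rw [add_mul]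
  exact add_le_add c1 c2

theorem G7c_nl_contOn {C : ℝ} {v : ℝ → E3 → E3} (hv : Pre C v) {φ : E3 → E3}
    (hs : ContDiff ℝ ∞ φ) (hc : HasCompactSupport φ) :
    ContinuousOn (fun τ => nl φ (v τ)) (Iio 0) := by
  obtain ⟨M, hM0, hM⟩ := G7c_bdd hs hc
  have key : ∀ s t : ℝ, s < t → t < 0 → |nl φ (v t) - nl φ (v s)| ≤
      3 * M * ((Real.sqrt C + Real.sqrt C) * Real.sqrt (C * (t - s) / (-t))) := by
    intro s t hst ht
    refine (G7c_nl_sub hs hc hM (hv.l2 t ht) (hv.l2 s (hst.trans ht))).trans ?_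
    refine mul_le_mul_of_nonneg_left ?_ (by positivity)
    have a1 := Real.sqrt_le_sqrt (hv.energy t ht)
    have a2 := Real.sqrt_le_sqrt (hv.energy s (hst.trans ht))
    have a3 := Real.sqrt_le_sqrt (hv.time s t hst ht)
    exact mul_le_mul (add_le_add a1 a2) a3 (Real.sqrt_nonneg _) (by positivity)
  have hC : 0 ≤ C := (sq_nonneg' (v (-1))).trans (hv.energy (-1) (by norm_num))
  intro t₀ ht₀
  have ht₀' : t₀ < 0 := ht₀
  refine ContinuousAt.continuousWithinAt ?_
  have hb : ∀ τ : ℝ, |τ - t₀| < -t₀ / 2 → |nl φ (v τ) - nl φ (v t₀)| ≤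
      3 * M * ((Real.sqrt C + Real.sqrt C) * Real.sqrt (C * |τ - t₀| / (-t₀ / 2))) := by
    intro τ hτ
    rw [abs_lt] at hτ
    rcases lt_trichotomy τ t₀ with h | h | h
    · rw [abs_sub_comm]
      refine (key τ t₀ h ht₀').trans ?_
      refine mul_le_mul_of_nonneg_left (mul_le_mul_of_nonneg_left (Real.sqrt_le_sqrt ?_)
        (by positivity)) (by positivity)
      rw [abs_sub_comm τ t₀, abs_of_pos (by linarith)]
      refine div_le_div_of_nonneg_left (mul_nonneg hC (by linarith)) (by linarith) (by linarith)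
    · subst h
      simp only [sub_self, abs_zero]
      positivity
    · have hτ0 : τ < 0 := by linarith [hτ.2]
      refine (key t₀ τ h hτ0).trans ?_
      refine mul_le_mul_of_nonneg_left (mul_le_mul_of_nonneg_left (Real.sqrt_le_sqrt ?_)
        (by positivity)) (by positivity)
      rw [abs_of_pos (by linarith)]
      refine div_le_div_of_nonneg_left (mul_nonneg hC (by linarith)) (by linarith)
        (by linarith [hτ.2])
  have hlim : Tendsto (fun τ : ℝ => 3 * M * ((Real.sqrt C + Real.sqrt C) *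
      Real.sqrt (C * |τ - t₀| / (-t₀ / 2)))) (𝓝 t₀) (𝓝 0) := by
    have h : Continuous (fun τ : ℝ => 3 * M * ((Real.sqrt C + Real.sqrt C) *
      Real.sqrt (C * |τ - t₀| / (-t₀ / 2)))) := by fun_prop
    have h2 := h.tendsto t₀
    simpa using h2
  rw [ContinuousAt, tendsto_iff_norm_sub_tendsto_zero]
  refine squeeze_zero' (Eventually.of_forall fun _ => norm_nonneg _) ?_ hlim
  have hn : ∀ᶠ τ in 𝓝 t₀, |τ - t₀| < -t₀ / 2 := by
    have h := Metric.ball_mem_nhds t₀ (show 0 < -t₀ / 2 by linarith)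
    filter_upwards [h] with τ hτ
    rwa [Metric.mem_ball, Real.dist_eq] at hτ
  filter_upwards [hn] with τ hτ
  rw [Real.norm_eq_abs]
  exact hb τ hτ

theorem G7c_ip {n : E3} {d C : ℝ} {v : ℝ → E3 → E3}
    (hv : Pre C v) (hoff : ∀ s < 0, ∀ y, d ≤ inner ℝ n y → v s y = 0)
    {Φ Ψ : E3 → E3} (hΦ : TestField univ Φ) (hΨ : TestField (Hs n d) Ψ) (s : ℝ) (hs : s < 0) :
    |ip (v s) Ψ - ∫ y in Hs n d, inner ℝ (v s y) (Φ y)| ≤
      Real.sqrt (sqOn (Hs n d) (fun y => Ψ y - Φ y)) * Real.sqrt C := by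
  have hz : ∀ x, x ∉ Hs n d → v s x = 0 := fun x hx => hoff s hs x (not_lt.1 hx)
  have e1 : ∫ y in Hs n d, inner ℝ (v s y) (Φ y) = ip (v s) Φ := by
    refine setIntegral_eq_integral_of_forall_compl_eq_zero fun x hx => ?_
    rw [hz x hx, inner_zero_left]
  have cΦ : Cc Φ := ⟨hΦ.smooth, hΦ.compact⟩
  have cΨ : Cc Ψ := ⟨hΨ.smooth, hΨ.compact⟩
  have mΦ : MemLp Φ 2 volume := cc_memLp cΦ 2
  have mΨ : MemLp Ψ 2 volume := cc_memLp cΨ 2
  have mv := hv.l2 s hs
  have i1 : Integrable (fun x => (inner ℝ (v s x) (Ψ x) : ℝ)) volume := G7c_int_inner mv mΨ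
  have i2 : Integrable (fun x => (inner ℝ (v s x) (Φ x) : ℝ)) volume := G7c_int_inner mv mΦ
  have e2 : ip (v s) Ψ - ip (v s) Φ = ip (fun y => Ψ y - Φ y) (v s) := by
    rw [ip_comm (fun y => Ψ y - Φ y) (v s)]
    unfold ip
    rw [← integral_sub i1 i2]
    refine integral_congr_ae (Eventually.of_forall fun x => ?_)
    simp only [inner_sub_right]
  have hmeas : MeasurableSet (Hs n d) := by
    have : IsOpen (Hs n d) := isOpen_lt (by fun_prop) continuous_const
    exact this.measurableSet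
  rw [e1, e2]
  refine (ip_le_on hmeas ((mΨ.sub mΦ).restrict _) mv hz).trans ?_
  exact mul_le_mul_of_nonneg_left (Real.sqrt_le_sqrt (hv.energy s hs)) (Real.sqrt_nonneg _)

theorem reflected {n : E3} (hn : ‖n‖ = 1) (d C : ℝ) (hC : 0 < C) {v : ℝ → E3 → E3}
    (hv : Pre C v) (hoff : ∀ s < 0, ∀ y, d ≤ inner ℝ n y → v s y = 0)
    (he : EqIn (Hs n d) C v) :
    Anc (2 * C) (4 * C) (4 * C) (4 * C) (fun s => rf n d (v s)) := by
  refine ⟨?_, ?_, ?_, ?_, ?_, ?_, ?_, ?_⟩
  · intro s hs x y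
    have h := (rf_basic (d := d) hn (hv.l2 s hs)).2.2.1 _ (hv.lip s hs) x y
    refine h.trans (le_of_eq ?_)
    ring
  · intro s hs
    exact (rf_basic (d := d) hn (hv.l2 s hs)).1
  · intro s hs
    have h := (rf_basic (d := d) hn (hv.l2 s hs)).2.1
    linarith [hv.energy s hs]
  · intro s hs
    exact rf_wdiv hn (hv.l2 s hs) (hv.div s hs)
  · intro s hs h
    have h1 := (rf_basic (d := d) hn (hv.l2 s hs)).2.2.2 _ (hv.grad s hs) h
    refine h1.trans (le_of_eq ?_)
    ring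
  · intro s t hst ht
    have hs : s < 0 := hst.trans ht
    have h1 := (rf_basic (d := d) hn ((hv.l2 t ht).sub (hv.l2 s hs))).2.1
    have h2 := hv.time s t hst ht
    have e : (fun x => rf n d (v t) x - rf n d (v s) x) = rf n d (v t - v s) := by
      funext x
      exact G7c_rf_sub n d (v t) (v s) x
    have e2 : 4 * C * (t - s) / (-t) = 4 * (C * (t - s) / (-t)) := by ring
    show sq (fun x => rf n d (v t) x - rf n d (v s) x) ≤ _
    rw [e, e2]
    refine h1.trans (mul_le_mul_of_nonneg_left h2 (by norm_num))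
  · intro φ hφ s t hst ht
    obtain ⟨hΦ, hsym⟩ := symm_test (d := d) hn hφ
    obtain ⟨Φk, hk, hL2, B, hB⟩ := half_approx hn d hΦ hsym
    have hs : s < 0 := hst.trans ht
    have h0 : ∀ s < 0, Tendsto (fun k => ip (v s) (Φk k)) atTop
        (𝓝 (ip (rf n d (v s)) φ)) := by
      intro s hs
      rw [rf_ip hn (hv.l2 s hs) (hoff s hs) hφ, tendsto_iff_norm_sub_tendsto_zero]
      refine squeeze_zero (fun _ => norm_nonneg _)
        (fun k => G7c_ip hv hoff hΦ (hk k) s hs) ?_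
      have h := ((Real.continuous_sqrt.tendsto _).comp hL2).mul_const (Real.sqrt C)
      simpa using h
    have hlhs : Tendsto (fun k => ip (v t) (Φk k) - ip (v s) (Φk k)) atTop
        (𝓝 (ip (rf n d (v t)) φ - ip (rf n d (v s)) φ)) := (h0 t ht).sub (h0 s hs)
    have hsub : ∀ τ ∈ uIoc s t, s < τ ∧ τ ≤ t := by
      intro τ hτ
      rw [uIoc_of_le hst.le] at hτ
      exact hτ
    have hrhs : Tendsto (fun k => ∫ τ in s..t, nl (Φk k) (v τ)) atTop
        (𝓝 (∫ τ in s..t, nl φ (rf n d (v τ)))) := by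
      refine intervalIntegral.tendsto_integral_filter_of_dominated_convergence
        (fun _ => |B| * ((C / (-t)) ^ 2 + C)) ?_ ?_ ?_ ?_
      · refine Eventually.of_forall fun k => ?_
        have hcont := G7c_nl_contOn hv (hk k).smooth (hk k).compact
        refine ContinuousOn.aestronglyMeasurable (hcont.mono fun τ hτ => ?_) measurableSet_uIoc
        exact lt_of_le_of_lt (hsub τ hτ).2 ht
      · refine Eventually.of_forall fun k => Eventually.of_forall fun τ hτ => ?_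
        have hτ0 : τ < 0 := lt_of_le_of_lt (hsub τ hτ).2 ht
        have hL : ∀ x y, ‖v τ x - v τ y‖ ≤ C / (-t) * ‖x - y‖ := by
          intro x y
          refine (hv.lip τ hτ0 x y).trans (mul_le_mul_of_nonneg_right ?_ (norm_nonneg _))
          exact div_le_div_of_nonneg_left hC.le (by linarith) (by linarith [(hsub τ hτ).2])
        have h1 := (hB (v τ) (C / (-t)) (div_nonneg hC.le (by linarith)) hL
          (hoff τ hτ0) (hv.l2 τ hτ0)).2 k
        rw [Real.norm_eq_abs]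
        refine h1.trans ?_
        have h2 : 0 ≤ (C / (-t)) ^ 2 + sq (v τ) := add_nonneg (sq_nonneg _) (sq_nonneg' _)
        refine (mul_le_mul_of_nonneg_right (le_abs_self B) h2).trans ?_
        exact mul_le_mul_of_nonneg_left (by linarith [hv.energy τ hτ0]) (abs_nonneg _)
      · exact intervalIntegrable_const
      · refine Eventually.of_forall fun τ hτ => ?_
        have hτ0 : τ < 0 := lt_of_le_of_lt (hsub τ hτ).2 ht
        have h1 := (hB (v τ) (C / (-τ)) (div_nonneg hC.le (by linarith)) (hv.lip τ hτ0)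
          (hoff τ hτ0) (hv.l2 τ hτ0)).1
        rw [rf_nl hn (hv.l2 τ hτ0) (hoff τ hτ0) hφ]
        exact h1
    have heq : (fun k => ip (v t) (Φk k) - ip (v s) (Φk k)) =
        fun k => ∫ τ in s..t, nl (Φk k) (v τ) := by
      funext k
      exact he.eqn (Φk k) (hk k) s t hst ht
    rw [heq] at hlhs
    exact tendsto_nhds_unique hlhs hrhs
  · intro φ hφ
    obtain ⟨hΦ, hsym⟩ := symm_test (d := d) hn hφ
    obtain ⟨Φk, hk, hL2, B, hB⟩ := half_approx hn d hΦ hsym
    rw [Metric.tendsto_nhds]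
    intro ε hε
    have hlim : Tendsto (fun k => Real.sqrt (sqOn (Hs n d) (fun y => Φk k y -
        (φ y + refl0 n (φ (refl n d y))))) * Real.sqrt C) atTop (𝓝 0) := by
      have h := ((Real.continuous_sqrt.tendsto _).comp hL2).mul_const (Real.sqrt C)
      simpa using h
    obtain ⟨k, hkε⟩ := (hlim.eventually_lt_const (half_pos hε)).exists
    obtain ⟨M, hM0, hM⟩ := G7c_bdd (hk k).smooth (hk k).compact
    have hM3 : ∀ x, ∑ i, ‖D i (Φk k) x‖ ≤ 3 * M := by
      intro x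
      refine (Finset.sum_le_sum fun i _ => hM i x).trans (le_of_eq ?_)
      simp
    have hlim2 : Tendsto (fun s : ℝ => C * (3 * M) * (-s)) (𝓝[<] 0) (𝓝 0) := by
      have h : Continuous (fun s : ℝ => C * (3 * M) * (-s)) := by fun_prop
      have h2 := (h.tendsto 0).mono_left (nhdsWithin_le_nhds (s := Iio 0))
      simpa using h2
    filter_upwards [self_mem_nhdsWithin, hlim2.eventually_lt_const (half_pos hε)] with s hs hs2
    have hs0 : s < 0 := hs
    rw [Real.dist_eq, sub_zero, rf_ip hn (hv.l2 s hs0) (hoff s hs0) hφ]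
    have h1 := G7c_ip hv hoff hΦ (hk k) s hs0
    have h2 := he.fin (Φk k) (hk k) (3 * M) hM3 s hs0
    have h3 : |∫ y in Hs n d, inner ℝ (v s y) (φ y + refl0 n (φ (refl n d y)))| ≤
        |ip (v s) (Φk k) - ∫ y in Hs n d, inner ℝ (v s y) (φ y + refl0 n (φ (refl n d y)))| +
        |ip (v s) (Φk k)| := by
      have h4 := abs_sub_abs_le_abs_sub
        (∫ y in Hs n d, inner ℝ (v s y) (φ y + refl0 n (φ (refl n d y)))) (ip (v s) (Φk k))
      rw [abs_sub_comm (∫ y in Hs n d, inner ℝ (v s y) (φ y + refl0 n (φ (refl n d y))))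
        (ip (v s) (Φk k))] at h4
      linarith
    linarith

end Pool.Agent.Helper60.EC
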