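import Pool.Agent.Helper60.EC.F6
import Pool.Agent.Helper60.EC.F7
import Pool.Agent.Helper60.EC.F8
import Pool.Agent.Helper60.EC.E5

/-! Project EC, the Liouville theorem -/

set_option autoImplicit false

open MeasureTheory Set Filter Topology
open scoped ENNReal ContDiff

noncomputable section

namespace Pool.Agent.Helper60.EC

open Pool.Agent.Helper52.NSE (E3 pd divg TestField)

/-- Liouville theorem for ancient Euler flows at the energy-critical rate -/
theorem liouville {C₁ C₂ C₃ E₀ : ℝ} {v : ℝ → E3 → E3} (h : Anc C₁ C₂ C₃ E₀ v) {s : ℝ}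
    (hs : s < 0) (x : E3) : v s x = 0 := by
  have hE : sq (v (-1)) = 0 := by
    by_contra hne
    have hpos : 0 < sq (v (-1)) := lt_of_le_of_ne (sq_nonneg' _) (Ne.symm hne)
    obtain ⟨v', h', hp', h0⟩ := exists_atomic h hpos
    obtain ⟨A, hA0, hA⟩ := h'.sup
    have hz : ∀ ψ : E3 → E3, Cc ψ → ip (v' (-1)) (curl ψ) = 0 := by
      refine curl_zero_of_local (L := C₁ / (-(-1))) (h'.lip (-1) (by norm_num)) ?_
      filter_upwards [far_ae h' hA (s := -1) (by norm_num)] with α hα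
      obtain ⟨σ, hσ, X, hX, hfar⟩ := hα
      exact local_curl_zero h' hA h0 hσ.1 hσ.2 hX α hfar
    have := eq_zero_of_curl (h'.l2 (-1) (by norm_num)) (h'.div (-1) (by norm_num)) hz
    linarith
  have hs0 : sq (v s) = 0 := by
    rw [energy_const h hs (show (-1 : ℝ) < 0 by norm_num), hE]
  obtain ⟨c, hc, h1⟩ := sup_le_energy
  by_contra hx
  have hL : ∀ x y, ‖v s x - v s y‖ ≤ (|C₁| / (-s) + 1) * ‖x - y‖ := by
    intro x y
    refine (h.lip s hs x y).trans (mul_le_mul_of_nonneg_right ?_ (norm_nonneg _))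
    have : C₁ / (-s) ≤ |C₁| / (-s) := div_le_div_of_nonneg_right (le_abs_self _) (by linarith)
    linarith
  have hLp : 0 < |C₁| / (-s) + 1 := by
    have : 0 ≤ |C₁| / (-s) := div_nonneg (abs_nonneg _) (by linarith)
    linarith
  have h2 := h1 (v s) _ hLp hL (h.l2 s hs) x
  have h3 : sqOn (Metric.ball x (‖v s x‖ / (2 * (|C₁| / (-s) + 1)))) (v s) ≤ sq (v s) :=
    sqOn_le_sq _ (h.l2 s hs)
  have h4 : 0 < c * ‖v s x‖ ^ 5 := by
    have : 0 < ‖v s x‖ := norm_pos_iff.2 hx
    positivity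
  have h5 : (|C₁| / (-s) + 1) ^ 3 *
      sqOn (Metric.ball x (‖v s x‖ / (2 * (|C₁| / (-s) + 1)))) (v s) ≤ 0 := by
    rw [hs0] at h3
    exact mul_nonpos_of_nonneg_of_nonpos (by positivity) h3
  linarith

end Pool.Agent.Helper60.EC
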