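import Pool.Agent.Helper60.EC.G4b
import Pool.Agent.Helper60.EC.G5
import Pool.Agent.Helper60.EC.G6
import Pool.Agent.Helper60.EC.G7c
import Pool.Agent.Helper60.EC.Liouville

/-! Project EC, G8: no loss of energy at the critical rate -/

set_option autoImplicit false

open MeasureTheory Set Filter Topology
open scoped ENNReal ContDiff

noncomputable section

namespace Pool.Agent.Helper60.EC

open Pool.Agent.Helper52.NSE (E3 pd divg TestField IsSmoothBoundedDomain MemH1s MemL2s
  IsWeakSolution gradSq)

theorem G8_bound (φ : E3 → E3) (hφ : TestField univ φ) :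
    ∃ M : ℝ, 0 ≤ M ∧ ∀ x, ∑ i, ‖D i φ x‖ ≤ M := by
  have hc : Cc φ := ⟨hφ.smooth, hφ.compact⟩
  have h1 : ∀ i, ∃ M : ℝ, ∀ x, ‖D i φ x‖ ≤ M := by
    intro i
    have h2 := cc_D hc i
    obtain ⟨M, hM⟩ := h2.smooth.continuous.bounded_above_of_compact_support h2.comp
    exact ⟨M, hM⟩
  choose M hM using h1
  refine ⟨∑ i, M i, Finset.sum_nonneg fun i _ => (norm_nonneg _).trans (hM i 0), fun x => ?_⟩
  exact Finset.sum_le_sum fun i _ => hM i x

theorem anc_of_pre {C : ℝ} {v : ℝ → E3 → E3} (_hC : 0 < C) (hv : Pre C v) (he : EqIn univ C v) :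
    Anc C C C C v where
  lip := hv.lip
  l2 := hv.l2
  energy := hv.energy
  div := hv.div
  grad := hv.grad
  time := hv.time
  eqn := he.eqn
  zero := by
    intro φ hφ
    obtain ⟨M, _, hM⟩ := G8_bound φ hφ
    have h1 := he.fin φ hφ M hM
    have h2 : Tendsto (fun s : ℝ => C * M * (-s)) (𝓝[<] 0) (𝓝 0) := by
      have : Tendsto (fun s : ℝ => C * M * (-s)) (𝓝 0) (𝓝 (C * M * (-0))) := by
        exact (continuous_const.mul continuous_neg).tendsto 0
      simp only [neg_zero, mul_zero] at this
      exact this.mono_left nhdsWithin_le_nhds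
    refine squeeze_zero_norm' ?_ h2
    filter_upwards [self_mem_nhdsWithin] with s hs
    exact h1 s hs

theorem bseq_false {Ω : Set E3} (hΩ : IsSmoothBoundedDomain Ω) (x : ℕ → E3) (r : ℕ → ℝ)
    (hx : ∀ j, x j ∈ Ω) (hr : ∀ j, 0 < r j) (hr0 : Tendsto r atTop (𝓝 0))
    {v : ℕ → ℝ → E3 → E3} {C c : ℝ} {e : ℕ → ℝ} {g : ℕ → ℝ → ℝ} (hC : 0 < C) (hc : 0 < c)
    (h : BSeq (fun j => {y | x j + r j • y ∈ Ω}) v C c e g) : False := by
  obtain ⟨φ, hφ, hdom⟩ := domains hΩ x r hx hr hr0
  have hs := h.sub hφ
  obtain ⟨ψ, hψ, v', hpre, hcv, hlim, hEq⟩ := hs.limit hC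
  rcases hdom with hA | ⟨n, d, hn, hB1, hB2⟩
  · have he : EqIn univ C v' := hEq univ fun K hK _ =>
      hψ.tendsto_atTop.eventually (hA K hK)
    have hanc := anc_of_pre hC hpre he
    have h0 := liouville hanc (s := -1) (by norm_num) 0
    rw [h0, norm_zero] at hcv
    linarith
  · have he : EqIn (Hs n d) C v' := hEq (Hs n d) fun K hK hKH =>
      hψ.tendsto_atTop.eventually (hB1 K hK hKH)
    have hoff1 : ∀ s < 0, ∀ y, d < inner ℝ n y → v' s y = 0 := by
      intro s hs0 y hy
      have h1 := hlim s hs0 y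
      have h2 : ∀ᶠ j in atTop, v (φ (ψ j)) s y = 0 := by
        have h3 := hψ.tendsto_atTop.eventually (hB2 y hy)
        have h4 : ∀ᶠ j : ℕ in atTop, s ∈ WW (φ (ψ j)) := by
          have h5 : Tendsto (fun j => φ (ψ j)) atTop atTop :=
            hφ.tendsto_atTop.comp hψ.tendsto_atTop
          refine h5.eventually (p := fun j => s ∈ WW j) ?_
          obtain ⟨N, hN⟩ := exists_nat_gt (max (-s) (1 / (-s)))
          filter_upwards [eventually_ge_atTop N] with j hj
          have hjN : (N : ℝ) ≤ (j : ℝ) := by exact_mod_cast hj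
          have hs1 : 0 < -s := by linarith
          have a1 : -s < (j : ℝ) + 1 := by
            have := (le_max_left (-s) (1 / (-s))).trans_lt hN
            linarith
          have a2 : 1 / (-s) < (j : ℝ) + 1 := by
            have := (le_max_right (-s) (1 / (-s))).trans_lt hN
            linarith
          refine ⟨by linarith, ?_⟩
          have hj1 : (0 : ℝ) < (j : ℝ) + 1 := by positivity
          have a3 : 1 / ((j : ℝ) + 1) < -s := by
            rw [div_lt_iff₀ hs1] at a2
            rw [div_lt_iff₀ hj1]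
            linarith
          linarith
        filter_upwards [h3, h4] with j hj3 hj4
        exact h.off (φ (ψ j)) s hj4 y hj3
      have h6 : Tendsto (fun j => v (φ (ψ j)) s y) atTop (𝓝 0) := by
        refine tendsto_const_nhds.congr' ?_
        filter_upwards [h2] with j hj
        exact hj.symm
      exact tendsto_nhds_unique h1 h6
    have hoff : ∀ s < 0, ∀ y, d ≤ inner ℝ n y → v' s y = 0 := by
      intro s hs0 y hy
      have hcont : Continuous (v' s) := by
        have hL := hpre.lip s hs0
        have : LipschitzWith (Real.toNNReal (C / (-s))) (v' s) := by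
          refine LipschitzWith.of_dist_le_mul fun a b => ?_
          rw [dist_eq_norm, dist_eq_norm, Real.coe_toNNReal _ (div_nonneg hC.le (by linarith))]
          exact hL a b
        exact this.continuous
      have hseq : Tendsto (fun k : ℕ => y + (1 / ((k : ℝ) + 1)) • n) atTop (𝓝 y) := by
        have h1 : Tendsto (fun k : ℕ => (1 / ((k : ℝ) + 1)) • n) atTop (𝓝 ((0 : ℝ) • n)) :=
          tendsto_one_div_add_atTop_nhds_zero_nat.smul_const n
        rw [zero_smul] at h1
        have h2 := (tendsto_const_nhds (x := y)).add h1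
        rwa [add_zero] at h2
      have h7 := (hcont.tendsto y).comp hseq
      have h8 : (v' s ∘ fun k : ℕ => y + (1 / ((k : ℝ) + 1)) • n) = fun _ => 0 := by
        funext k
        refine hoff1 s hs0 _ ?_
        rw [inner_add_right, inner_smul_right, real_inner_self_eq_norm_sq, hn]
        have : (0 : ℝ) < 1 / ((k : ℝ) + 1) := by positivity
        nlinarith
      rw [h8] at h7
      exact tendsto_nhds_unique tendsto_const_nhds h7 |>.symm
    have hanc := reflected hn d C hC hpre hoff he
    have h0 := liouville hanc (s := -1) (by norm_num) 0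
    -- `v'(-1, 0) ≠ 0`, so the origin is inside
    have hne : v' (-1) 0 ≠ 0 := by
      intro h9
      rw [h9, norm_zero] at hcv
      linarith
    have hin : (inner ℝ n (0 : E3) : ℝ) < d := by
      by_contra hge
      exact hne (hoff (-1) (by norm_num) 0 (not_lt.1 hge))
    have hout : v' (-1) (refl n d 0) = 0 := by
      refine hoff (-1) (by norm_num) _ ?_
      unfold refl
      rw [inner_zero_right] at hin ⊢
      rw [inner_sub_right, inner_smul_right, real_inner_self_eq_norm_sq, hn, inner_zero_right]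
      linarith
    simp only [rf] at h0
    rw [hout] at h0
    have hz : refl0 n (0 : E3) = 0 := by
      simp [refl0]
    rw [hz, add_zero] at h0
    exact hne h0

open Pool.Agent.Helper7.NT in
/-- no kinetic energy is lost at a time approached at the energy-critical rate -/
theorem noLoss_of_criticalRate {Ω : Set E3} {ν T : ℝ} {u₀ : E3 → E3} {f u : ℝ → E3 → E3}
    {G : ℝ → Fin 3 → E3 → E3} (hΩ : IsSmoothBoundedDomain Ω) (hν : 0 < ν)
    (h : IsWeakSolution Ω ν T u₀ f u G) {t₀ : ℝ} (ht₀ : t₀ ∈ Ioc 0 T)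
    (hcr : CriticalRate Ω G t₀) : NoLoss Ω u t₀ := by
  by_contra hloss
  obtain ⟨x, r, v, C, c, e, g, hx, hr, hr0, hC, hc, hb⟩ := exists_bseq hΩ hν h ht₀ hloss hcr
  exact bseq_false hΩ x r hx hr hr0 hC hc hb

end Pool.Agent.Helper60.EC
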