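import Pool.Agent.Helper52.NSE.Public

/-!
The energy-critical rate: definitions.
-/

set_option autoImplicit false

open MeasureTheory Set

namespace Pool.Agent.Helper60.EC

open Pool.Agent.Helper52.NSE (E3 gradSq)

/-- The bounds `|∇u(s)| ≤ C / (t₀ - s)` and `‖∇u(s)‖² ≤ C (t₀ - s)^(-4/5)` at a time `s`. -/
def RateAt (Ω : Set E3) (G : ℝ → Fin 3 → E3 → E3) (t₀ C s : ℝ) : Prop :=
  (∀ᵐ x ∂(volume.restrict Ω), ∀ i, ‖G s i x‖ ≤ C / (t₀ - s)) ∧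
    gradSq Ω (G s) ≤ C * (t₀ - s) ^ (-(4 / 5) : ℝ)

/-- The time `t₀` is approached at the energy-critical rate, on long windows of times: for every
`M` there are arbitrarily small `τ > 0` with `RateAt` for almost all
`s ∈ (t₀ - M τ, t₀ - τ)`. -/
def CriticalRate (Ω : Set E3) (G : ℝ → Fin 3 → E3 → E3) (t₀ : ℝ) : Prop :=
  ∃ C : ℝ, ∀ M η : ℝ, 0 < η → ∃ τ : ℝ, 0 < τ ∧ τ < η ∧
    ∀ᵐ s ∂(volume.restrict (Ioo (t₀ - M * τ) (t₀ - τ))), 0 ≤ s → RateAt Ω G t₀ C s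

end Pool.Agent.Helper60.EC
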