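import Pool.Agent.Helper60.EC.Defs
import Pool.Agent.Helper7.NU.Fin
import Pool.Agent.Helper60.EC.Rate

/-!
# Project EC, part G: definitions for the Navier-Stokes level
-/

set_option autoImplicit false

open MeasureTheory Set Filter Topology
open scoped ENNReal ContDiff

noncomputable section

namespace Pool.Agent.Helper60.EC

open Pool.Agent.Helper52.NSE (E3 pd divg TestField IsSmoothBoundedDomain MemH1s MemL2s
  IsWeakSolution gradSq)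

/-- the norm of the force in `L²(Ω)` -/
def fn (Ω : Set E3) (f : ℝ → E3 → E3) (τ : ℝ) : ℝ := Real.sqrt (∫ x in Ω, ‖f τ x‖ ^ 2)

/-- Lipschitz representatives of a weak solution on a window `(p, q)` of times before `t₀`,
extended by zero -/
structure Win (Ω : Set E3) (t₀ : ℝ) (f u : ℝ → E3 → E3) (G : ℝ → Fin 3 → E3 → E3)
    (C p q : ℝ) (U : ℝ → E3 → E3) : Prop where
  rep : ∀ s ∈ Ioo p q, U s =ᵐ[volume.restrict Ω] u s
  off : ∀ s ∈ Ioo p q, ∀ x, x ∉ Ω → U s x = 0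
  lip : ∀ s ∈ Ioo p q, ∀ x y, ‖U s x - U s y‖ ≤ C / (t₀ - s) * ‖x - y‖
  l2 : ∀ s ∈ Ioo p q, MemLp (U s) 2 volume
  energy : ∀ s ∈ Ioo p q, sq (U s) ≤ C
  div : ∀ s ∈ Ioo p q, WDiv (U s)
  grad : ∀ s ∈ Ioo p q, ∀ h : E3,
    sq (fun x => U s (x + h) - U s x) ≤ C * (t₀ - s) ^ (-(4 / 5) : ℝ) * ‖h‖ ^ 2
  time : ∀ s t, p < s → s < t → t < q →
    sq (fun x => U t x - U s x) ≤ C * (t - s) / (t₀ - t) + C * ∫ τ in s..t, fn Ω f τ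
  eqn : ∀ φ, TestField Ω φ → ∀ s t, p < s → s < t → t < q →
    |ip (U t) φ - ip (U s) φ - ∫ τ in s..t, nl φ (U τ)| ≤
      C * Real.sqrt (gsq φ) * (∫ τ in s..t, (t₀ - τ) ^ (-(2 / 5) : ℝ)) +
        Real.sqrt (sq φ) * ∫ τ in s..t, fn Ω f τ
  fin : ∀ φ, TestField Ω φ → ∀ M : ℝ, (∀ x, ∑ i, ‖D i φ x‖ ≤ M) → ∀ s ∈ Ioo p q,
    |ip (U s) φ - ∫ x in Ω, inner ℝ (u t₀ x) (φ x)| ≤
      C * M * (t₀ - s) + C * Real.sqrt (gsq φ) * Real.sqrt (t₀ - s) *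
        Real.sqrt (∫ τ in s..t₀, gradSq Ω (G τ)) + Real.sqrt (sq φ) * ∫ τ in s..t₀, fn Ω f τ

/-- the time window of the `j`-th rescaled flow -/
def WW (j : ℕ) : Set ℝ := Ioo (-((j : ℝ) + 1)) (-(1 / ((j : ℝ) + 1)))

/-- a sequence of rescaled flows in the domains `O j` -/
structure BSeq (O : ℕ → Set E3) (v : ℕ → ℝ → E3 → E3) (C c : ℝ) (e : ℕ → ℝ)
    (g : ℕ → ℝ → ℝ) : Prop where
  e0 : Tendsto e atTop (𝓝 0)
  g0 : ∀ ρ, Tendsto (fun j => g j ρ) atTop (𝓝 0)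
  off : ∀ j, ∀ s ∈ WW j, ∀ y, y ∉ O j → v j s y = 0
  lip : ∀ j, ∀ s ∈ WW j, ∀ x y, ‖v j s x - v j s y‖ ≤ C / (-s) * ‖x - y‖
  l2 : ∀ j, ∀ s ∈ WW j, MemLp (v j s) 2 volume
  energy : ∀ j, ∀ s ∈ WW j, sq (v j s) ≤ C
  div : ∀ j, ∀ s ∈ WW j, WDiv (v j s)
  grad : ∀ j, ∀ s ∈ WW j, ∀ h : E3,
    sq (fun x => v j s (x + h) - v j s x) ≤ C * (-s) ^ (-(4 / 5) : ℝ) * ‖h‖ ^ 2
  time : ∀ j, ∀ s ∈ WW j, ∀ t ∈ WW j, s < t →
    sq (fun x => v j t x - v j s x) ≤ C * (t - s) / (-t) + e j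
  cont : ∀ j, ∀ s ∈ WW j,
    Tendsto (fun t => sq (fun x => v j t x - v j s x)) (𝓝[WW j] s) (𝓝 0)
  eqn : ∀ j φ, TestField (O j) φ → ∀ s ∈ WW j, ∀ t ∈ WW j, s < t →
    |ip (v j t) φ - ip (v j s) φ - ∫ τ in s..t, nl φ (v j τ)| ≤
      e j * Real.sqrt (gsq φ) * (∫ τ in s..t, (-τ) ^ (-(2 / 5) : ℝ)) + e j * Real.sqrt (sq φ)
  fin : ∀ j φ, TestField (O j) φ → ∀ M ρ : ℝ, (∀ x, ∑ i, ‖D i φ x‖ ≤ M) →
    tsupport φ ⊆ Metric.ball 0 ρ → ∀ s ∈ WW j,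
      |ip (v j s) φ| ≤ C * M * (-s) + e j * Real.sqrt (gsq φ) * Real.sqrt (-s) +
        Real.sqrt (sq φ) * g j ρ
  conc : ∀ j, c ≤ ‖v j (-1) 0‖

/-- what the limit of the rescaled flows satisfies in every case -/
structure Pre (C : ℝ) (v : ℝ → E3 → E3) : Prop where
  lip : ∀ s < 0, ∀ x y, ‖v s x - v s y‖ ≤ C / (-s) * ‖x - y‖
  l2 : ∀ s < 0, MemLp (v s) 2 volume
  energy : ∀ s < 0, sq (v s) ≤ C
  div : ∀ s < 0, WDiv (v s)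
  grad : ∀ s < 0, ∀ h : E3, sq (fun x => v s (x + h) - v s x) ≤ C * (-s) ^ (-(4 / 5) : ℝ) * ‖h‖ ^ 2
  time : ∀ s t, s < t → t < 0 → sq (fun x => v t x - v s x) ≤ C * (t - s) / (-t)

/-- the Euler equations and the vanishing at the time `0`, for test fields supported in `H` -/
structure EqIn (H : Set E3) (C : ℝ) (v : ℝ → E3 → E3) : Prop where
  eqn : ∀ φ, TestField H φ → ∀ s t, s < t → t < 0 →
    ip (v t) φ - ip (v s) φ = ∫ τ in s..t, nl φ (v τ)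
  fin : ∀ φ, TestField H φ → ∀ M : ℝ, (∀ x, ∑ i, ‖D i φ x‖ ≤ M) → ∀ s < 0,
    |ip (v s) φ| ≤ C * M * (-s)

/-- the half-space `⟨n, y⟩ < d` -/
def Hs (n : E3) (d : ℝ) : Set E3 := {y | inner ℝ n y < d}

/-- the reflection at the boundary of the half-space -/
def refl (n : E3) (d : ℝ) (y : E3) : E3 := y - (2 * (inner ℝ n y - d)) • n

/-- the linear part of the reflection -/
def refl0 (n : E3) (a : E3) : E3 := a - (2 * inner ℝ n a) • n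

/-- the reflected field -/
def rf (n : E3) (d : ℝ) (w : E3 → E3) (y : E3) : E3 := w y + refl0 n (w (refl n d y))

end Pool.Agent.Helper60.EC
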