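import Pool.Agent.Helper70.EC.St

set_option autoImplicit false

namespace Pool.Agent.Helper60.EC

open Finset
open Pool.Agent.Helper1.PFS (G uu mm cor inf')
open Pool.Agent.Helper70.EC

theorem hS1 (hBP : StBP) : StS1 := by
  intro p _ x y f a b hf
  obtain ⟨h1, -, -, h4, h5, -⟩ := hBP p x y
  have hp0 : (p : ℝ) ≠ 0 := Nat.cast_ne_zero.2 (Fact.out : p.Prime).ne_zero
  have hon : ∀ c s, bp x y c s • x = y := fun c s => (h1 _).2 ⟨c, s, rfl⟩
  have hF : ∀ (u : G p) (v : G p → ℝ), ∑ w : G p, v (u * w) = ∑ w : G p, v w :=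
    fun u v => Equiv.sum_comp (Equiv.mulLeft u) v
  set C : (ZMod p)ˣ → ZMod p → ℝ := fun c s =>
    cor (fun w => a (kk x * w)) (fun w => b (kk y * w)) c s with hC
  have hPhi : ∀ c s, ∑ z : G p, a z * b (bp x y c s * z) = C c s := by
    intro c s
    rw [hC]
    simp only [cor]
    rw [← hF (kk x) (fun z => a z * b (bp x y c s * z))]
    refine Finset.sum_congr rfl fun w _ => ?_
    congr 2
    unfold bp
    group
  have hav : ∀ c s, av x y f (bp x y c s) = (1 / (p : ℝ)) * ∑ s' : ZMod p, f (bp x y c s') := by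
    intro c s
    unfold av
    rw [if_pos (hon c s)]
    congr 1
    rw [← Equiv.sum_comp (Equiv.addLeft s) (fun s' => f (bp x y c s'))]
    refine Finset.sum_congr rfl fun s' _ => ?_
    rw [h4]
    rfl
  have hTT : TT (fun g => f g - av x y f g) a b =
      ∑ c : (ZMod p)ˣ, ∑ s : ZMod p, f (bp x y c s) *
        (C c s - (1 / p : ℝ) * ∑ s' : ZMod p, C c s') := by
    have e1 : TT (fun g => f g - av x y f g) a b =
        ∑ g : G p, (f g - av x y f g) * ∑ z : G p, a z * b (g * z) := by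
      unfold TT
      refine Finset.sum_congr rfl fun g _ => ?_
      rw [Finset.mul_sum]
      exact Finset.sum_congr rfl fun z _ => by ring
    rw [e1, h5 (fun g => (f g - av x y f g) * ∑ z : G p, a z * b (g * z)) (by
      intro g hg
      have e2 : av x y f g = 0 := by unfold av; rw [if_neg hg]
      simp only [hf g hg, e2, sub_zero, zero_mul])]
    refine Finset.sum_congr rfl fun c _ => ?_
    simp only [hPhi, hav, sub_mul, mul_sub, Finset.sum_sub_distrib]
    congr 1
    rw [← Finset.mul_sum, ← Finset.sum_mul]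
    ring
  rw [hTT]
  have hcs : (∑ c : (ZMod p)ˣ, ∑ s : ZMod p, f (bp x y c s) *
      (C c s - (1 / p : ℝ) * ∑ s' : ZMod p, C c s')) ^ 2 ≤
      (∑ c : (ZMod p)ˣ, ∑ s : ZMod p, f (bp x y c s) ^ 2) *
      (∑ c : (ZMod p)ˣ, ∑ s : ZMod p, (C c s - (1 / p : ℝ) * ∑ s' : ZMod p, C c s') ^ 2) := by
    rw [← Finset.sum_product', ← Finset.sum_product', ← Finset.sum_product']
    exact Finset.sum_mul_sq_le_sq_mul_sq _ _ _
  have hn : ∑ c : (ZMod p)ˣ, ∑ s : ZMod p, f (bp x y c s) ^ 2 = nsq f := by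
    rw [nsq, h5 (fun g => f g ^ 2) (fun g hg => by simp only [hf g hg]; norm_num)]
  have hB := Pool.Agent.Helper1.PFS.pB p (fun w => a (kk x * w)) (fun w => b (kk y * w))
  have hna : ∑ w : G p, a (kk x * w) ^ 2 = nsq a := hF (kk x) (fun w => a w ^ 2)
  have hnb : ∑ w : G p, b (kk y * w) ^ 2 = nsq b := hF (kk y) (fun w => b w ^ 2)
  rw [hna, hnb] at hB
  have hnf : 0 ≤ nsq f := Finset.sum_nonneg fun g _ => sq_nonneg _
  calc _ ≤ _ := hcs
    _ = nsq f * _ := by rw [hn]
    _ ≤ nsq f * (2 * p * nsq a * nsq b) := mul_le_mul_of_nonneg_left hB hnf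
    _ = 2 * p * nsq f * nsq a * nsq b := by ring

end Pool.Agent.Helper60.EC
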