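import Pool.Agent.Helper60.EC.P1a
import Pool.Agent.Helper60.EC.Calc3b

/-! Project EC, P1b: linearity of the Newton potential -/

set_option autoImplicit false

open MeasureTheory Set Filter Topology
open scoped ENNReal ContDiff

noncomputable section

namespace Pool.Agent.Helper60.EC

open Pool.Agent.Helper52.NSE (E3 pd divg TestField)

variable {F : Type} [NormedAddCommGroup F] [InnerProductSpace ℝ F] [FiniteDimensional ℝ F]
variable {f g : E3 → F} {a b w : E3 → E3} {h : E3 → ℝ}

theorem NP_add (hf : Cc f) (hg : Cc g) (x : E3) :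
    NP (fun y => f y + g y) x = NP f x + NP g x := by
  unfold NP
  rw [← integral_add (NP_integrable hf x) (NP_integrable hg x)]
  congr 1
  funext y
  rw [smul_add]

theorem NP_sub (hf : Cc f) (hg : Cc g) (x : E3) :
    NP (fun y => f y - g y) x = NP f x - NP g x := by
  unfold NP
  rw [← integral_sub (NP_integrable hf x) (NP_integrable hg x)]
  congr 1
  funext y
  rw [smul_sub]

theorem NP_const_smul (c : ℝ) (f : E3 → F) (x : E3) : NP (fun y => c • f y) x = c • NP f x := by
  unfold NP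
  rw [← integral_smul]
  congr 1
  funext y
  rw [smul_comm]

theorem NP_neg (f : E3 → F) (x : E3) : NP (fun y => -f y) x = -NP f x := by
  unfold NP
  rw [← integral_neg]
  congr 1
  funext y
  rw [smul_neg]

theorem NP_apply (hw : Cc w) (k : Fin 3) (x : E3) : NP w x k = NP (fun y => w y k) x := by
  unfold NP
  have h := (EuclideanSpace.proj (𝕜 := ℝ) k : E3 →L[ℝ] ℝ).integral_comp_comm (NP_integrable hw x)
  refine Eq.trans h.symm ?_
  congr 1

theorem P1b_cc_apply (hw : Cc w) (k : Fin 3) : Cc (fun y => w y k) :=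
  Calc1b_cc hw.comp (Calc1b_coord hw.smooth k) fun x hx => by
    rw [image_eq_zero_of_notMem_tsupport hx]
    rfl

theorem P1b_D_apply (hw : Cc w) (i k : Fin 3) (x : E3) :
    (D i (NP w) x) k = NP (fun y => (D i w y) k) x := by
  rw [D_NP hw, NP_apply (cc_D hw i)]

theorem curl_NP (hw : Cc w) (x : E3) : curl (NP w) x = NP (curl w) x := by
  have hc := fun i k => P1b_cc_apply (cc_D hw i) k
  apply Calc3b_ext
  · rw [Calc3b_curl0, NP_apply (cc_curl hw), P1b_D_apply hw, P1b_D_apply hw,
      ← NP_sub (hc 1 2) (hc 2 1)]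
    rfl
  · rw [Calc3b_curl1, NP_apply (cc_curl hw), P1b_D_apply hw, P1b_D_apply hw,
      ← NP_sub (hc 2 0) (hc 0 2)]
    rfl
  · rw [Calc3b_curl2, NP_apply (cc_curl hw), P1b_D_apply hw, P1b_D_apply hw,
      ← NP_sub (hc 0 1) (hc 1 0)]
    rfl

theorem divg_NP (hw : Cc w) (x : E3) : divg (NP w) x = NP (divg w) x := by
  have hc := fun i k => P1b_cc_apply (cc_D hw i) k
  have e : divg w = fun y => ((D 0 w y) 0 + (D 1 w y) 1) + (D 2 w y) 2 := by
    funext y
    exact Calc3b_divg w y
  rw [Calc3b_divg, P1b_D_apply hw, P1b_D_apply hw, P1b_D_apply hw, e,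
    NP_add (cc_add (hc 0 0) (hc 1 1)) (hc 2 2), NP_add (hc 0 0) (hc 1 1)]

theorem grad_NP (hh : Cc h) (x : E3) : grad (NP h) x = NP (grad h) x := by
  ext i
  rw [Calc3b_grad, D_NP hh, NP_apply (cc_grad hh)]
  congr 1
  funext y
  rw [Calc3b_grad]

theorem lap_NP (hf : Cc f) (x : E3) : lap (NP f) x = NP (lap f) x := by
  have hc := fun i => cc_D (cc_D hf i) i
  have e : lap f = fun y => (D 0 (D 0 f) y + D 1 (D 1 f) y) + D 2 (D 2 f) y := by
    funext y
    unfold lap
    rw [Fin.sum_univ_three]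
  have h1 : ∀ i, D i (D i (NP f)) x = NP (D i (D i f)) x := by
    intro i
    rw [D_NP' hf i, D_NP (cc_D hf i)]
  rw [e, NP_add (cc_add (hc 0) (hc 1)) (hc 2), NP_add (hc 0) (hc 1)]
  unfold lap
  rw [Fin.sum_univ_three, h1, h1, h1]

end Pool.Agent.Helper60.EC
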