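import Pool.Agent.Helper60.EC.Calc1

/-! Project EC, P1a: regularity of the Newton potential -/

set_option autoImplicit false

open MeasureTheory Set Filter Topology
open scoped ENNReal ContDiff

noncomputable section

namespace Pool.Agent.Helper60.EC

open Pool.Agent.Helper52.NSE (E3 pd divg TestField)

variable {F : Type} [NormedAddCommGroup F] [InnerProductSpace ℝ F] [FiniteDimensional ℝ F]
variable {f g : E3 → F} {a b w : E3 → E3} {h : E3 → ℝ}

/-- the kernel is integrable on balls -/
theorem P1a_ball (r : ℝ) :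
    IntegrableOn (fun y : E3 => (4 * Real.pi * ‖y‖)⁻¹) (Metric.ball 0 r) volume := by
  rw [integrableOn_fun_norm_addHaar (μ := (volume : Measure E3))
    (f := fun t : ℝ => (4 * Real.pi * t)⁻¹)]
  have hd : Module.finrank ℝ E3 = 3 := by simp [E3]
  rw [hd]
  have h1 : IntegrableOn (fun y : ℝ => y * (4 * Real.pi)⁻¹) (Ioo 0 r) volume := by
    have : IntegrableOn (fun y : ℝ => y * (4 * Real.pi)⁻¹) (Icc 0 r) volume :=
      (by fun_prop : Continuous fun y : ℝ => y * (4 * Real.pi)⁻¹).integrableOn_Icc
    exact this.mono_set Ioo_subset_Icc_self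
  refine h1.congr_fun ?_ measurableSet_Ioo
  intro y hy
  have hy0 : y ≠ 0 := hy.1.ne'
  have hp : Real.pi ≠ 0 := Real.pi_ne_zero
  simp only [smul_eq_mul]
  norm_num
  field_simp

/-- the kernel is locally integrable -/
theorem kernel_locallyIntegrable :
    LocallyIntegrable (fun y : E3 => (4 * Real.pi * ‖y‖)⁻¹) volume := by
  intro x
  refine ⟨Metric.ball 0 (‖x‖ + 1), ?_, P1a_ball _⟩
  apply Metric.isOpen_ball.mem_nhds
  rw [mem_ball_zero_iff]
  linarith

/-- the Newton potential as a convolution -/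
theorem P1a_conv (f : E3 → F) :
    NP f = convolution (fun y : E3 => (4 * Real.pi * ‖y‖)⁻¹) f
      (ContinuousLinearMap.lsmul ℝ ℝ) volume := by
  funext x
  rfl

theorem NP_integrable (hf : Cc f) (x : E3) :
    Integrable (fun y : E3 => (4 * Real.pi * ‖y‖)⁻¹ • f (x - y)) volume := by
  exact (hf.comp.convolutionExists_right (ContinuousLinearMap.lsmul ℝ ℝ)
    kernel_locallyIntegrable hf.smooth.continuous x)

/-- the other form of the convolution -/
theorem NP_eq (f : E3 → F) (x : E3) : NP f x = ∫ y, (4 * Real.pi * ‖x - y‖)⁻¹ • f y := by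
  unfold NP
  rw [← integral_sub_left_eq_self (fun y : E3 => (4 * Real.pi * ‖y‖)⁻¹ • f (x - y)) volume x]
  simp

theorem NP_smooth (hf : Cc f) : ContDiff ℝ ∞ (NP f) := by
  haveI := FiniteDimensional.complete ℝ F
  rw [P1a_conv]
  exact hf.comp.contDiff_convolution_right (ContinuousLinearMap.lsmul ℝ ℝ)
    kernel_locallyIntegrable hf.smooth

theorem D_NP (hf : Cc f) (i : Fin 3) (x : E3) : D i (NP f) x = NP (D i f) x := by
  haveI := FiniteDimensional.complete ℝ F
  have h1 := hf.comp.hasFDerivAt_convolution_right (ContinuousLinearMap.lsmul ℝ ℝ)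
    kernel_locallyIntegrable (hf.smooth.of_le (by exact_mod_cast le_top)) x
  unfold D
  rw [P1a_conv, h1.fderiv]
  rw [convolution_precompR_apply _ kernel_locallyIntegrable (hf.comp.fderiv ℝ)
    (hf.smooth.continuous_fderiv (by simp))]
  rfl

theorem D_NP' (hf : Cc f) (i : Fin 3) : D i (NP f) = NP (D i f) := funext (D_NP hf i)

end Pool.Agent.Helper60.EC
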