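import Pool.Agent.Helper60.EC.P1

/-! Project EC, P2: the Newton potential inverts the Laplacian -/

set_option autoImplicit false

open MeasureTheory Set Filter Topology
open scoped ENNReal ContDiff

noncomputable section

namespace Pool.Agent.Helper60.EC

open Pool.Agent.Helper52.NSE (E3 pd divg TestField)

variable {F : Type} [NormedAddCommGroup F] [InnerProductSpace ℝ F] [FiniteDimensional ℝ F]
variable {f : E3 → F} {w : E3 → E3}

/-- regularised norm -/
def P2_s (ε : ℝ) (y : E3) : ℝ := √(‖y‖ ^ 2 + ε ^ 2)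

theorem P2_arg_pos {ε : ℝ} (hε : 0 < ε) (y : E3) : 0 < ‖y‖ ^ 2 + ε ^ 2 := by positivity

theorem P2_s_pos {ε : ℝ} (hε : 0 < ε) (y : E3) : 0 < P2_s ε y :=
  Real.sqrt_pos.2 (P2_arg_pos hε y)

theorem P2_s_sq {ε : ℝ} (hε : 0 < ε) (y : E3) : P2_s ε y ^ 2 = ‖y‖ ^ 2 + ε ^ 2 :=
  Real.sq_sqrt (P2_arg_pos hε y).le

theorem P2_s_smooth {ε : ℝ} (hε : 0 < ε) : ContDiff ℝ ∞ (P2_s ε) := by
  unfold P2_s
  exact ((contDiff_norm_sq ℝ).add contDiff_const).sqrt fun y => (P2_arg_pos hε y).ne'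

/-- chain rule for functions of the regularised norm -/
theorem P2_D_comp {ε : ℝ} (hε : 0 < ε) (φ : ℝ → ℝ) (φ' : ℝ) (y : E3)
    (h : HasDerivAt φ φ' (P2_s ε y)) (i : Fin 3) :
    D i (fun z => φ (P2_s ε z)) y = φ' * (y i / P2_s ε y) := by
  have h1 : HasFDerivAt (fun z : E3 => ‖z‖ ^ 2 + ε ^ 2) (2 • (innerSL ℝ y)) y :=
    (hasStrictFDerivAt_norm_sq y).hasFDerivAt.add_const _
  have h2 : HasFDerivAt (P2_s ε) ((1 / (2 * √(‖y‖ ^ 2 + ε ^ 2))) • (2 • (innerSL ℝ y))) y :=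
    h1.sqrt (P2_arg_pos hε y).ne'
  have h3 := h.comp_hasFDerivAt y h2
  unfold D
  have h4 : fderiv ℝ (fun z => φ (P2_s ε z)) y =
      φ' • ((1 / (2 * √(‖y‖ ^ 2 + ε ^ 2))) • (2 • (innerSL ℝ y))) := h3.fderiv
  rw [h4]
  have h5 : √(‖y‖ ^ 2 + ε ^ 2) = P2_s ε y := rfl
  rw [h5]
  have h6 := (P2_s_pos hε y).ne'
  have h7 : ((2 : ℕ) • (innerSL ℝ y)) (EuclideanSpace.single i (1 : ℝ)) = 2 * y i := by
    simp [two_smul, EuclideanSpace.inner_single_right]
    ring
  have h8 : (φ' • ((1 / (2 * P2_s ε y)) • (2 • (innerSL ℝ y)))) (EuclideanSpace.single i (1 : ℝ))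
      = φ' * ((1 / (2 * P2_s ε y)) * (2 * y i)) := by
    rw [← h7]
    rfl
  rw [h8]
  field_simp

/-- regularised kernel -/
def P2_N (ε : ℝ) (y : E3) : ℝ := (4 * Real.pi)⁻¹ * (P2_s ε y)⁻¹

/-- approximate identity -/
def P2_d (ε : ℝ) (y : E3) : ℝ := (4 * Real.pi)⁻¹ * (3 * ε ^ 2 * ((P2_s ε y)⁻¹) ^ 5)

theorem P2_N_smooth {ε : ℝ} (hε : 0 < ε) : ContDiff ℝ ∞ (P2_N ε) := by
  unfold P2_N
  exact contDiff_const.mul ((P2_s_smooth hε).inv fun y => (P2_s_pos hε y).ne')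

theorem P2_d_cont {ε : ℝ} (hε : 0 < ε) : Continuous (P2_d ε) := by
  unfold P2_d
  exact continuous_const.mul (continuous_const.mul
    (((P2_s_smooth hε).continuous.inv₀ fun y => (P2_s_pos hε y).ne').pow 5))

theorem P2_D_coord (i : Fin 3) (y : E3) : D i (fun z : E3 => z i) y = 1 := by
  have h := D_clm (EuclideanSpace.proj (𝕜 := ℝ) i : E3 →L[ℝ] ℝ) (f := fun z : E3 => z)
    (x := y) differentiableAt_fun_id i
  have h1 : D i (fun z : E3 => z) y = EuclideanSpace.single i (1 : ℝ) := by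
    unfold D
    rw [fderiv_fun_id]
    rfl
  rw [h1] at h
  have h2 : (EuclideanSpace.proj (𝕜 := ℝ) i : E3 →L[ℝ] ℝ) (EuclideanSpace.single i (1 : ℝ))
      = 1 := by simp
  rw [h2] at h
  exact h

theorem P2_D_N {ε : ℝ} (hε : 0 < ε) (i : Fin 3) :
    D i (P2_N ε) = fun y => -(4 * Real.pi)⁻¹ * (y i * ((P2_s ε y)⁻¹) ^ 3) := by
  funext y
  have hs := (P2_s_pos hε y).ne'
  have h1 : HasDerivAt (fun t : ℝ => (4 * Real.pi)⁻¹ * t⁻¹)
      ((4 * Real.pi)⁻¹ * (-(P2_s ε y ^ 2)⁻¹)) (P2_s ε y) :=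
    (hasDerivAt_inv hs).const_mul _
  have h2 := P2_D_comp hε _ _ y h1 i
  have h3 : D i (P2_N ε) y = D i (fun z => (4 * Real.pi)⁻¹ * (P2_s ε z)⁻¹) y := rfl
  rw [h3, h2]
  field_simp

theorem P2_DD_N {ε : ℝ} (hε : 0 < ε) (i : Fin 3) (y : E3) :
    D i (D i (P2_N ε)) y =
      -(4 * Real.pi)⁻¹ * (((P2_s ε y)⁻¹) ^ 3 - 3 * (y i) ^ 2 * ((P2_s ε y)⁻¹) ^ 5) := by
  have hs := (P2_s_pos hε y).ne'
  rw [P2_D_N hε]
  have h1 : HasDerivAt (fun t : ℝ => (t⁻¹) ^ 3)
      (3 * ((P2_s ε y)⁻¹) ^ 2 * (-(P2_s ε y ^ 2)⁻¹)) (P2_s ε y) := by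
    have := (hasDerivAt_inv hs).fun_pow 3
    simpa using this
  have h2 := P2_D_comp hε _ _ y h1 i
  have hd1 : DifferentiableAt ℝ (fun z : E3 => z i) y :=
    (EuclideanSpace.proj (𝕜 := ℝ) i : E3 →L[ℝ] ℝ).differentiableAt
  have hd2 : DifferentiableAt ℝ (fun z : E3 => ((P2_s ε z)⁻¹) ^ 3) y :=
    ((((P2_s_smooth hε).inv fun y => (P2_s_pos hε y).ne').pow 3).differentiable
      (by simp)) y
  have h4 := D_mul (χ := fun z : E3 => z i) (h := fun z : E3 => ((P2_s ε z)⁻¹) ^ 3) hd1 hd2 i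
  rw [P2_D_coord, h2] at h4
  have h5 := D_const_smul (f := fun z : E3 => z i * ((P2_s ε z)⁻¹) ^ 3) (x := y)
    (hd1.mul hd2) (-(4 * Real.pi)⁻¹) i
  simp only [smul_eq_mul] at h5
  rw [h5, h4]
  field_simp
  ring

theorem P2_norm_sq (y : E3) : ‖y‖ ^ 2 = y 0 ^ 2 + y 1 ^ 2 + y 2 ^ 2 := by
  rw [EuclideanSpace.real_norm_sq_eq, Fin.sum_univ_three]

theorem P2_lap_N {ε : ℝ} (hε : 0 < ε) (y : E3) : lap (P2_N ε) y = -P2_d ε y := by
  have hs := (P2_s_pos hε y).ne'
  unfold lap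
  rw [Fin.sum_univ_three, P2_DD_N hε, P2_DD_N hε, P2_DD_N hε]
  unfold P2_d
  have h1 := P2_s_sq hε y
  rw [P2_norm_sq] at h1
  have h2 : ((P2_s ε y)⁻¹) ^ 3 = (y 0 ^ 2 + y 1 ^ 2 + y 2 ^ 2 + ε ^ 2) * ((P2_s ε y)⁻¹) ^ 5 := by
    rw [← h1]
    field_simp
  rw [h2]
  ring

/-- integration by parts against a smooth scalar function -/
theorem P2_ibp {φ : E3 → ℝ} (hφ : ContDiff ℝ ∞ φ) {g : E3 → F} (hg : Cc g) :
    ∫ y, φ y • lap g y = ∫ y, lap φ y • g y := by
  have hc : ∀ i, Cc (fun y => sm φ (D i g) y - sm (D i φ) g y) := fun i =>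
    cc_sub (cc_sm' hφ (cc_D hg i)) (cc_sm' (D_smooth hφ i) hg)
  have h0 : ∀ i, ∫ y, D i (fun y => sm φ (D i g) y - sm (D i φ) g y) y = 0 := fun i =>
    integral_D_eq_zero ((hc i).smooth.of_le (by norm_num)) (hc i).comp i
  have hφd : Differentiable ℝ φ := hφ.differentiable (by simp)
  have hDφd : ∀ i, Differentiable ℝ (D i φ) := fun i => (D_smooth hφ i).differentiable (by simp)
  have hgd : Differentiable ℝ g := hg.smooth.differentiable (by simp)
  have hDgd : ∀ i, Differentiable ℝ (D i g) := fun i =>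
    (D_smooth hg.smooth i).differentiable (by simp)
  have h1 : ∀ i y, D i (fun y => sm φ (D i g) y - sm (D i φ) g y) y
      = φ y • D i (D i g) y - D i (D i φ) y • g y := by
    intro i y
    rw [D_sub (f := sm φ (D i g)) (g := sm (D i φ) g)
      ((hφd y).smul (hDgd i y)) ((hDφd i y).smul (hgd y)),
      D_sm (hφd y) (hDgd i y), D_sm (hDφd i y) (hgd y)]
    abel
  have i1 : ∀ i, Integrable (fun y => φ y • D i (D i g) y) volume := fun i =>
    Calc2a_int (hφ.continuous.smul (cc_D (cc_D hg i) i).smooth.continuous)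
      ((cc_D (cc_D hg i) i).comp.smul_left)
  have i2 : ∀ i, Integrable (fun y => D i (D i φ) y • g y) volume := fun i =>
    Calc2a_int ((D_smooth (D_smooth hφ i) i).continuous.smul hg.smooth.continuous)
      (hg.comp.smul_left)
  have h2 : ∀ i, ∫ y, φ y • D i (D i g) y = ∫ y, D i (D i φ) y • g y := by
    intro i
    have h3 := h0 i
    simp_rw [h1 i] at h3
    rw [integral_sub (i1 i) (i2 i)] at h3
    exact sub_eq_zero.1 h3
  have e1 : ∀ y, φ y • lap g y = ∑ i, φ y • D i (D i g) y := by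
    intro y
    unfold lap
    rw [Finset.smul_sum]
  have e2 : ∀ y, lap φ y • g y = ∑ i, D i (D i φ) y • g y := by
    intro y
    unfold lap
    rw [Finset.sum_smul]
  simp_rw [e1, e2]
  rw [integral_finsetSum _ fun i _ => i1 i, integral_finsetSum _ fun i _ => i2 i]
  exact Finset.sum_congr rfl fun i _ => h2 i

omit [NormedAddCommGroup F] [InnerProductSpace ℝ F] [FiniteDimensional ℝ F] in
theorem P2_refl_eq (f : E3 → F) (x : E3) :
    (fun y => f (x - y)) = fun y => f (x + (-1 : ℝ) • y) := by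
  funext y
  rw [neg_one_smul, sub_eq_add_neg]

omit [FiniteDimensional ℝ F] in
theorem P2_cc_refl (hf : Cc f) (x : E3) : Cc (fun y => f (x - y)) :=
  ⟨hf.smooth.comp (contDiff_const.sub contDiff_id),
    hf.comp.comp_homeomorph (Homeomorph.subLeft x)⟩

omit [FiniteDimensional ℝ F] in
theorem P2_lap_refl (hf : Cc f) (x y : E3) : lap (fun y => f (x - y)) y = lap f (x - y) := by
  have h1 : ∀ {g : E3 → F}, ContDiff ℝ ∞ g → ∀ i, D i (fun y => g (x - y))
      = fun y => (-1 : ℝ) • D i g (x - y) := by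
    intro g hg i
    funext z
    have e : x - z = x + (-1 : ℝ) • z := by rw [neg_one_smul, sub_eq_add_neg]
    rw [P2_refl_eq, D_comp_affine (hg.differentiable (by simp)) (-1) x i z, e]
  unfold lap
  refine Finset.sum_congr rfl fun i _ => ?_
  rw [h1 hf.smooth i]
  have h2 : DifferentiableAt ℝ (fun y => D i f (x - y)) y := by
    have := (P2_cc_refl (cc_D hf i) x).smooth.differentiable (by simp)
    exact this y
  rw [D_const_smul h2, h1 (D_smooth hf.smooth i) i]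
  simp

theorem P2_key (hf : Cc f) (x : E3) {ε : ℝ} (hε : 0 < ε) :
    ∫ y, P2_N ε y • lap f (x - y) = -∫ y, P2_d ε y • f (x - y) := by
  have h := P2_ibp (P2_N_smooth hε) (P2_cc_refl hf x)
  simp_rw [P2_lap_refl hf x, P2_lap_N hε] at h
  rw [h, ← integral_neg]
  exact integral_congr_ae (Eventually.of_forall fun y => by simp [neg_smul])

theorem P2_left (hf : Cc f) (x : E3) :
    Tendsto (fun ε : ℝ => ∫ y, P2_N ε y • f (x - y)) (𝓝[>] 0) (𝓝 (NP f x)) := by
  unfold NP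
  have hne : ∀ᵐ y : E3 ∂volume, y ≠ 0 := by
    rw [ae_iff]
    simp
  refine tendsto_integral_filter_of_dominated_convergence
    (fun y => ‖(4 * Real.pi * ‖y‖)⁻¹ • f (x - y)‖) ?_ ?_ (NP_integrable hf x).norm ?_
  · filter_upwards [self_mem_nhdsWithin] with ε hε
    exact ((P2_N_smooth hε).continuous.smul
      (P2_cc_refl hf x).smooth.continuous).aestronglyMeasurable
  · filter_upwards [self_mem_nhdsWithin] with ε hε
    filter_upwards [hne] with y hy
    have hy' : 0 < ‖y‖ := norm_pos_iff.2 hy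
    have hpi := Real.pi_pos
    rw [norm_smul, norm_smul]
    refine mul_le_mul_of_nonneg_right ?_ (norm_nonneg _)
    have hs := P2_s_pos hε y
    have h1 : ‖y‖ ≤ P2_s ε y := by
      unfold P2_s
      apply Real.le_sqrt_of_sq_le
      nlinarith [sq_nonneg ε]
    unfold P2_N
    rw [← mul_inv, norm_inv, norm_inv, Real.norm_of_nonneg (by positivity),
      Real.norm_of_nonneg (by positivity)]
    gcongr
  · filter_upwards [hne] with y hy
    have hy' : 0 < ‖y‖ := norm_pos_iff.2 hy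
    refine Tendsto.smul_const ?_ _
    have h1 : ContinuousAt (fun ε : ℝ => P2_N ε y) 0 := by
      unfold P2_N P2_s
      refine continuousAt_const.mul (ContinuousAt.inv₀ ?_ ?_)
      · fun_prop
      · rw [Real.sqrt_ne_zero']
        positivity
    have h2 : P2_N 0 y = (4 * Real.pi * ‖y‖)⁻¹ := by
      unfold P2_N P2_s
      rw [zero_pow two_ne_zero, add_zero, Real.sqrt_sq (norm_nonneg _), mul_inv (4 * Real.pi)]
    rw [← h2]
    exact h1.tendsto.mono_left nhdsWithin_le_nhds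

/-- the radial profile -/
theorem P2_radial : IntegrableOn (fun r : ℝ => 3 * r ^ 2 * ((√(r ^ 2 + 1))⁻¹) ^ 5) (Ioi 0) volume ∧
    ∫ r in Ioi (0 : ℝ), 3 * r ^ 2 * ((√(r ^ 2 + 1))⁻¹) ^ 5 = 1 := by
  have hpos : ∀ r : ℝ, 0 < r ^ 2 + 1 := fun r => by positivity
  have hder : ∀ r ∈ Ici (0 : ℝ), HasDerivAt (fun r : ℝ => (r * (√(r ^ 2 + 1))⁻¹) ^ 3)
      (3 * r ^ 2 * ((√(r ^ 2 + 1))⁻¹) ^ 5) r := by
    intro r _
    have hs : 0 < √(r ^ 2 + 1) := Real.sqrt_pos.2 (hpos r)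
    have h1 : HasDerivAt (fun r : ℝ => r ^ 2 + 1) (2 * r) r := by
      simpa using (hasDerivAt_pow 2 r).add_const 1
    have h2 := h1.sqrt (hpos r).ne'
    have h3 := ((hasDerivAt_id' r).fun_mul (h2.fun_inv hs.ne')).fun_pow 3
    refine h3.congr_deriv ?_
    have h4 : √(r ^ 2 + 1) ^ 2 = r ^ 2 + 1 := Real.sq_sqrt (hpos r).le
    have h6 : (√(r ^ 2 + 1))⁻¹ = (r ^ 2 + 1) * ((√(r ^ 2 + 1))⁻¹) ^ 3 := by
      have h0 := hs.ne'
      have h9 : (√(r ^ 2 + 1))⁻¹ = √(r ^ 2 + 1) ^ 2 * ((√(r ^ 2 + 1))⁻¹) ^ 3 := by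
        field_simp
      rwa [h4] at h9
    set s := √(r ^ 2 + 1) with hsdef
    have hs' := hs.ne'
    have h7 : (1 : ℝ) * s⁻¹ + r * (-(2 * r / (2 * s)) / s ^ 2) = s⁻¹ ^ 3 := by
      have e1 : r * (-(2 * r / (2 * s)) / s ^ 2) = - r ^ 2 * s⁻¹ ^ 3 := by
        field_simp
      rw [e1, one_mul]
      nth_rewrite 1 [h6]
      ring
    rw [h7]
    push_cast
    ring
  have hnn : ∀ r ∈ Ioi (0 : ℝ), 0 ≤ 3 * r ^ 2 * ((√(r ^ 2 + 1))⁻¹) ^ 5 := fun r _ => by positivity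
  have hlim : Tendsto (fun r : ℝ => (r * (√(r ^ 2 + 1))⁻¹) ^ 3) atTop (𝓝 1) := by
    have h1 : Tendsto (fun r : ℝ => (r ^ 2 + 1)⁻¹) atTop (𝓝 0) := by
      apply Tendsto.inv_tendsto_atTop
      apply tendsto_atTop_add_const_right
      exact tendsto_pow_atTop two_ne_zero
    have h2 : Tendsto (fun r : ℝ => √(1 - (r ^ 2 + 1)⁻¹) ^ 3) atTop (𝓝 (√(1 - 0) ^ 3)) :=
      ((Real.continuous_sqrt.tendsto _).comp (tendsto_const_nhds.sub h1)).pow 3
    rw [sub_zero, Real.sqrt_one, one_pow] at h2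
    refine h2.congr' ?_
    filter_upwards [eventually_ge_atTop 0] with r hr
    congr 1
    have h3 : 1 - (r ^ 2 + 1)⁻¹ = r ^ 2 / (r ^ 2 + 1) := by
      have := (hpos r).ne'
      field_simp
      ring
    rw [h3, Real.sqrt_div (sq_nonneg r), Real.sqrt_sq hr, div_eq_mul_inv]
  refine ⟨integrableOn_Ioi_deriv_of_nonneg' hder hnn hlim, ?_⟩
  rw [integral_Ioi_of_hasDerivAt_of_nonneg' hder hnn hlim]
  simp

theorem P2_d1 : Integrable (P2_d 1) (volume : Measure E3) ∧ ∫ y, P2_d 1 y = 1 := by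
  obtain ⟨h1, h2⟩ := P2_radial
  have hpi := Real.pi_pos
  have hfr : Module.finrank ℝ E3 = 3 := by simp [E3]
  set d : ℝ → ℝ := fun r => (4 * Real.pi)⁻¹ * (3 * 1 ^ 2 * ((√(r ^ 2 + 1 ^ 2))⁻¹) ^ 5) with hd
  have hdn : P2_d 1 = fun y : E3 => d ‖y‖ := rfl
  have hcongr : (fun y : ℝ => y ^ (Module.finrank ℝ E3 - 1) • d y)
      = fun y => (4 * Real.pi)⁻¹ * (3 * y ^ 2 * ((√(y ^ 2 + 1))⁻¹) ^ 5) := by
    funext y
    rw [hfr, hd]
    simp only [smul_eq_mul, one_pow]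
    ring
  constructor
  · rw [hdn]
    rw [integrable_fun_norm_addHaar (μ := (volume : Measure E3)) (f := d), hcongr]
    exact h1.const_mul _
  · rw [hdn, integral_fun_norm_addHaar (μ := (volume : Measure E3)) d, hcongr,
      integral_const_mul, h2, hfr, Measure.real, EuclideanSpace.volume_ball_fin_three]
    rw [ENNReal.ofReal_one, one_pow, one_mul, ENNReal.toReal_ofReal (by positivity)]
    simp only [smul_eq_mul, nsmul_eq_mul]
    push_cast
    field_simp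

omit [FiniteDimensional ℝ F] in
theorem P2_scale (f : E3 → F) (x : E3) {ε : ℝ} (hε : 0 < ε) :
    ∫ y, P2_d ε y • f (x - y) = ∫ z, P2_d 1 z • f (x - ε • z) := by
  have hfr : Module.finrank ℝ E3 = 3 := by simp [E3]
  have h := Measure.integral_comp_smul (volume : Measure E3) (fun y => P2_d ε y • f (x - y)) ε
  rw [hfr] at h
  have h1 : ∀ z : E3, P2_d ε (ε • z) • f (x - ε • z)
      = (ε ^ 3)⁻¹ • (P2_d 1 z • f (x - ε • z)) := by
    intro z
    rw [smul_smul]
    congr 1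
    have hs : P2_s ε (ε • z) = ε * P2_s 1 z := by
      unfold P2_s
      rw [norm_smul, Real.norm_of_nonneg hε.le]
      have : (ε * ‖z‖) ^ 2 + ε ^ 2 = ε ^ 2 * (‖z‖ ^ 2 + 1 ^ 2) := by ring
      rw [this, Real.sqrt_mul (sq_nonneg _), Real.sqrt_sq hε.le]
    have hs1 := (P2_s_pos one_pos z).ne'
    unfold P2_d
    rw [hs]
    field_simp
  simp_rw [h1] at h
  rw [integral_smul, abs_of_pos (by positivity)] at h
  have h2 : (ε ^ 3)⁻¹ ≠ 0 := by positivity
  exact (smul_right_injective F h2 h).symm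

theorem P2_right (hf : Cc f) (x : E3) :
    Tendsto (fun ε : ℝ => ∫ y, P2_d ε y • f (x - y)) (𝓝[>] 0) (𝓝 (f x)) := by
  obtain ⟨hint, hone⟩ := P2_d1
  obtain ⟨C, hC⟩ := hf.smooth.continuous.bounded_above_of_compact_support hf.comp
  have h1 : Tendsto (fun ε : ℝ => ∫ z, P2_d 1 z • f (x - ε • z)) (𝓝[>] 0)
      (𝓝 (∫ z, P2_d 1 z • f x)) := by
    refine tendsto_integral_filter_of_dominated_convergence (fun z => ‖P2_d 1 z‖ * C) ?_ ?_
      (hint.norm.mul_const C) ?_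
    · refine Eventually.of_forall fun ε => ?_
      have hin : Continuous fun z : E3 => x - ε • z := by fun_prop
      have hco : Continuous fun z : E3 => f (x - ε • z) := hf.smooth.continuous.comp hin
      exact ((P2_d_cont one_pos).smul hco).aestronglyMeasurable
    · refine Eventually.of_forall fun ε => Eventually.of_forall fun z => ?_
      rw [norm_smul]
      exact mul_le_mul_of_nonneg_left (hC _) (norm_nonneg _)
    · refine Eventually.of_forall fun z => ?_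
      refine Tendsto.const_smul ?_ _
      have hin : Continuous fun ε : ℝ => x - ε • z := by fun_prop
      have hco : Continuous fun ε : ℝ => f (x - ε • z) := hf.smooth.continuous.comp hin
      have h2 : ContinuousAt (fun ε : ℝ => f (x - ε • z)) 0 := hco.continuousAt
      have h3 : f x = f (x - (0 : ℝ) • z) := by simp
      rw [h3]
      exact h2.tendsto.mono_left nhdsWithin_le_nhds
  rw [integral_smul_const, hone, one_smul] at h1
  refine h1.congr' ?_
  filter_upwards [self_mem_nhdsWithin] with ε hε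
  exact (P2_scale f x hε).symm

/-- `(-Δ) (f * 1/(4π|x|)) = f` -/
theorem NP_lap (hf : Cc f) (x : E3) : NP (lap f) x = -f x := by
  have h1 := P2_left (cc_lap hf) x
  have h2 := (P2_right hf x).neg
  refine tendsto_nhds_unique (h1.congr' ?_) h2
  filter_upwards [self_mem_nhdsWithin] with ε hε
  exact P2_key hf x hε

theorem lap_NP' (hf : Cc f) (x : E3) : lap (NP f) x = -f x := by
  rw [lap_NP hf, NP_lap hf]

/-- Helmholtz decomposition -/
theorem helmholtz (hw : Cc w) (x : E3) :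
    w x = curl (NP (curl w)) x - grad (NP (divg w)) x := by
  have h1 := NP_lap hw x
  have h2 : lap w = fun y => grad (divg w) y - curl (curl w) y := by
    funext y
    have h3 : ContDiff ℝ 2 w := by exact_mod_cast (contDiff_infty.1 hw.smooth 2)
    have := curl_curl h3 y
    rw [this]
    abel
  rw [h2, NP_sub (cc_grad (cc_divg hw)) (cc_curl (cc_curl hw)), ← grad_NP (cc_divg hw),
    ← curl_NP (cc_curl hw)] at h1
  have h3 : w x = -(-w x) := (neg_neg _).symm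
  rw [h3, ← h1]
  abel

end Pool.Agent.Helper60.EC
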