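import Pool.Agent.Helper60.EC.P3a

/-! Project EC, P3b: square integrability -/

set_option autoImplicit false

open MeasureTheory Set Filter Topology
open scoped ENNReal ContDiff

noncomputable section

namespace Pool.Agent.Helper60.EC

open Pool.Agent.Helper52.NSE (E3 pd divg TestField)

variable {F : Type} [NormedAddCommGroup F] [InnerProductSpace ℝ F] [FiniteDimensional ℝ F]
variable {f : E3 → F}

/-- square integrability of the derivatives of a decaying function -/
theorem Decay.D_memLp (hs : ContDiff ℝ 1 f) (hd : Decay f) (i : Fin 3) :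
    MemLp (D i f) 2 volume := by
  obtain ⟨C, hC⟩ := hd
  have hcont : Continuous (D i f) := by
    unfold D
    exact (hs.continuous_fderiv one_ne_zero).clm_apply continuous_const
  rw [memLp_two_iff_integrable_sq_norm hcont.aestronglyMeasurable]
  have hd3 : (Module.finrank ℝ E3 : ℝ) < 4 := by simp [E3]; norm_num
  have hint := (integrable_one_add_norm (E := E3) (μ := volume) (r := 4) hd3).const_mul (C ^ 2)
  refine hint.mono' (hcont.norm.pow 2).aestronglyMeasurable (Filter.Eventually.of_forall ?_)
  intro x
  have h0 : (0 : ℝ) < 1 + ‖x‖ := by positivity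
  have h1 := (hC x).2 i
  rw [Real.norm_of_nonneg (by positivity)]
  have h2 : ‖D i f x‖ ^ 2 ≤ (C / (1 + ‖x‖) ^ 2) ^ 2 := pow_le_pow_left₀ (norm_nonneg _) h1 2
  refine h2.trans (le_of_eq ?_)
  rw [Real.rpow_neg h0.le]
  have h3 : (1 + ‖x‖) ^ (4 : ℝ) = (1 + ‖x‖) ^ 4 := by
    rw [← Real.rpow_natCast]; norm_num
  rw [h3]
  field_simp

end Pool.Agent.Helper60.EC
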