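import Pool.Agent.Helper60.EC.P1

/-! Project EC, P3a: decay of the Newton potential -/

set_option autoImplicit false

open MeasureTheory Set Filter Topology
open scoped ENNReal ContDiff

noncomputable section

namespace Pool.Agent.Helper60.EC

open Pool.Agent.Helper52.NSE (E3 pd divg TestField)

variable {F : Type} [NormedAddCommGroup F] [InnerProductSpace ℝ F] [FiniteDimensional ℝ F]
variable {f : E3 → F}

theorem P3a_int (hf : Cc f) (x : E3) :
    Integrable (fun y : E3 => (4 * Real.pi * ‖x - y‖)⁻¹ • f y) volume := by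
  have h := (NP_integrable hf x).comp_sub_left x
  simpa only [sub_sub_cancel] using h

/-- far away -/
theorem P3a_far (hf : Cc f) {R : ℝ} (hR : 1 ≤ R) (hs : ∀ y, R < ‖y‖ → f y = 0) {x : E3}
    (hx : 2 * R ≤ ‖x‖) : ‖NP f x‖ ≤ (∫ y, ‖f y‖) / (1 + ‖x‖) := by
  have hpi : 3 < Real.pi := Real.pi_gt_three
  have hx0 : 0 < ‖x‖ := by linarith
  have hfi : Integrable (fun y => ‖f y‖) volume :=
    (Calc2a_int hf.smooth.continuous hf.comp).norm
  have hI : 0 ≤ ∫ y, ‖f y‖ := integral_nonneg fun y => norm_nonneg _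
  rw [NP_eq]
  have hb : ‖∫ y, (4 * Real.pi * ‖x - y‖)⁻¹ • f y‖ ≤ ∫ y, (1 + ‖x‖)⁻¹ * ‖f y‖ := by
    refine norm_integral_le_of_norm_le (hfi.const_mul _) (Eventually.of_forall fun y => ?_)
    by_cases hy : R < ‖y‖
    · rw [hs y hy]; simp
    · push Not at hy
      rw [norm_smul]
      refine mul_le_mul_of_nonneg_right ?_ (norm_nonneg _)
      have h1 : ‖x‖ / 2 ≤ ‖x - y‖ := by
        have := norm_sub_norm_le x y
        linarith
      have h2 : 1 + ‖x‖ ≤ 4 * Real.pi * ‖x - y‖ := by nlinarith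
      rw [Real.norm_eq_abs, abs_of_nonneg (inv_nonneg.2 (by positivity))]
      exact inv_anti₀ (by positivity) h2
  rw [integral_const_mul] at hb
  rw [div_eq_inv_mul]
  exact hb

/-- far away, for functions with mean value zero -/
theorem P3a_far' (hf : Cc f) {R : ℝ} (hR : 1 ≤ R) (hs : ∀ y, R < ‖y‖ → f y = 0)
    (h0 : ∫ y, f y = 0) {x : E3}
    (hx : 2 * R ≤ ‖x‖) : ‖NP f x‖ ≤ (R * ∫ y, ‖f y‖) / (1 + ‖x‖) ^ 2 := by
  have hpi : 3 < Real.pi := Real.pi_gt_three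
  have hx0 : 0 < ‖x‖ := by linarith
  have hfi : Integrable f volume := Calc2a_int hf.smooth.continuous hf.comp
  have hI : 0 ≤ ∫ y, ‖f y‖ := integral_nonneg fun y => norm_nonneg _
  have e1 : NP f x = ∫ y, ((4 * Real.pi * ‖x - y‖)⁻¹ - (4 * Real.pi * ‖x‖)⁻¹) • f y := by
    rw [NP_eq]
    have h2 : ∫ y, (4 * Real.pi * ‖x‖)⁻¹ • f y = 0 := by
      rw [integral_smul, h0, smul_zero]
    have h3 : ∫ y, ((4 * Real.pi * ‖x - y‖)⁻¹ • f y - (4 * Real.pi * ‖x‖)⁻¹ • f y) =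
        (∫ y, (4 * Real.pi * ‖x - y‖)⁻¹ • f y) - ∫ y, (4 * Real.pi * ‖x‖)⁻¹ • f y :=
      integral_sub (P3a_int hf x) (hfi.smul _)
    rw [h2, sub_zero] at h3
    rw [← h3]
    refine integral_congr_ae (Eventually.of_forall fun y => ?_)
    simp only [sub_smul]
  rw [e1]
  have hb : ‖∫ y, ((4 * Real.pi * ‖x - y‖)⁻¹ - (4 * Real.pi * ‖x‖)⁻¹) • f y‖ ≤
      ∫ y, (R / (1 + ‖x‖) ^ 2) * ‖f y‖ := by
    refine norm_integral_le_of_norm_le (hfi.norm.const_mul _) (Eventually.of_forall fun y => ?_)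
    by_cases hy : R < ‖y‖
    · rw [hs y hy]; simp
    · push Not at hy
      rw [norm_smul]
      refine mul_le_mul_of_nonneg_right ?_ (norm_nonneg _)
      have h1 : ‖x‖ / 2 ≤ ‖x - y‖ := by
        have := norm_sub_norm_le x y
        linarith
      have hxy : 0 < ‖x - y‖ := by linarith
      have h4 : |‖x‖ - ‖x - y‖| ≤ R := by
        have := abs_norm_sub_norm_le x (x - y)
        rw [sub_sub_cancel] at this
        linarith
      have e2 : (4 * Real.pi * ‖x - y‖)⁻¹ - (4 * Real.pi * ‖x‖)⁻¹ =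
          (‖x‖ - ‖x - y‖) / (4 * Real.pi * (‖x - y‖ * ‖x‖)) := by
        field_simp
      rw [e2, Real.norm_eq_abs, abs_div, abs_of_pos (show 0 < 4 * Real.pi * (‖x - y‖ * ‖x‖) by
        positivity)]
      rw [div_le_div_iff₀ (by positivity) (by positivity)]
      have h5 : ‖x‖ / 2 * ‖x‖ ≤ ‖x - y‖ * ‖x‖ := mul_le_mul_of_nonneg_right h1 hx0.le
      have h6 : (1 + ‖x‖) ^ 2 ≤ 4 * ‖x‖ ^ 2 := by nlinarith
      have h7 : (1 + ‖x‖) ^ 2 ≤ 4 * Real.pi * (‖x - y‖ * ‖x‖) := by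
        have h8 : 12 * (‖x‖ / 2 * ‖x‖) ≤ 4 * Real.pi * (‖x - y‖ * ‖x‖) := by
          apply mul_le_mul (by linarith) h5 (by positivity) (by positivity)
        nlinarith
      exact mul_le_mul h4 h7 (by positivity) (by linarith)
  rw [integral_const_mul] at hb
  refine hb.trans (le_of_eq ?_)
  ring

theorem NP_decay (hf : Cc f) : Decay (NP f) := by
  -- the support
  obtain ⟨R₀, hR₀⟩ := hf.comp.isCompact.isBounded.subset_closedBall (0 : E3)
  set R : ℝ := max R₀ 1 with hRdef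
  have hR1 : 1 ≤ R := le_max_right _ _
  have hts : ∀ y, R < ‖y‖ → y ∉ tsupport f := by
    intro y hy hmem
    have := hR₀ hmem
    rw [mem_closedBall_zero_iff] at this
    have : ‖y‖ ≤ R := this.trans (le_max_left _ _)
    linarith
  have hsf : ∀ y, R < ‖y‖ → f y = 0 := fun y hy => image_eq_zero_of_notMem_tsupport (hts y hy)
  have hsD : ∀ i y, R < ‖y‖ → D i f y = 0 := fun i y hy => Calc1b_D0 (hts y hy) i
  -- near the origin
  have hcpt : IsCompact (Metric.closedBall (0 : E3) (2 * R)) := isCompact_closedBall _ _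
  obtain ⟨M, hM⟩ := hcpt.exists_bound_of_continuousOn (NP_smooth hf).continuous.continuousOn
  have hMi : ∀ i, ∃ M' : ℝ, ∀ x ∈ Metric.closedBall (0 : E3) (2 * R), ‖NP (D i f) x‖ ≤ M' :=
    fun i => hcpt.exists_bound_of_continuousOn (NP_smooth (cc_D hf i)).continuous.continuousOn
  choose M' hM' using hMi
  have hM0 : 0 ≤ M := (norm_nonneg _).trans (hM 0 (by
    rw [mem_closedBall_zero_iff, norm_zero]; linarith))
  have hM0' : ∀ i, 0 ≤ M' i := fun i => (norm_nonneg _).trans (hM' i 0 (by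
    rw [mem_closedBall_zero_iff, norm_zero]; linarith))
  have hI : 0 ≤ ∫ y, ‖f y‖ := integral_nonneg fun y => norm_nonneg _
  have hIi : ∀ i, 0 ≤ R * ∫ y, ‖D i f y‖ := fun i =>
    mul_nonneg (by linarith) (integral_nonneg fun y => norm_nonneg _)
  have hS1 : 0 ≤ ∑ i, M' i := Finset.sum_nonneg fun i _ => hM0' i
  have hS2 : 0 ≤ ∑ i, (R * ∫ y, ‖D i f y‖) := Finset.sum_nonneg fun i _ => hIi i
  have hS1' : ∀ i, M' i ≤ ∑ i, M' i := fun i =>
    Finset.single_le_sum (fun i _ => hM0' i) (Finset.mem_univ i)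
  have hS2' : ∀ i, (R * ∫ y, ‖D i f y‖) ≤ ∑ i, (R * ∫ y, ‖D i f y‖) := fun i =>
    Finset.single_le_sum (f := fun i => R * ∫ y, ‖D i f y‖) (fun i _ => hIi i) (Finset.mem_univ i)
  set S1 := ∑ i, M' i
  set S2 := ∑ i, (R * ∫ y, ‖D i f y‖)
  refine ⟨(∫ y, ‖f y‖) + S2 + (M + S1) * (1 + 2 * R) ^ 2, fun x => ?_⟩
  have hx1 : 0 < 1 + ‖x‖ := by positivity
  have hbig : 0 ≤ (M + S1) * (1 + 2 * R) ^ 2 := by positivity
  rcases le_or_gt (2 * R) ‖x‖ with hx | hx
  · refine ⟨(P3a_far hf hR1 hsf hx).trans ?_, fun i => ?_⟩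
    · exact div_le_div_of_nonneg_right (by linarith) hx1.le
    · rw [D_NP hf i x]
      refine (P3a_far' (cc_D hf i) hR1 (hsD i)
        (integral_D_eq_zero (hf.smooth.of_le (by norm_num)) hf.comp i) hx).trans ?_
      exact div_le_div_of_nonneg_right (by linarith [hS2' i]) (by positivity)
  · have hxb : x ∈ Metric.closedBall (0 : E3) (2 * R) := by
      rw [mem_closedBall_zero_iff]; exact hx.le
    have hle : (1 + ‖x‖) ^ 2 ≤ (1 + 2 * R) ^ 2 := by
      apply pow_le_pow_left₀ hx1.le; linarith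
    have hle1 : (1 + ‖x‖) ≤ (1 + ‖x‖) ^ 2 := by nlinarith [norm_nonneg x]
    refine ⟨?_, fun i => ?_⟩
    · rw [le_div_iff₀ hx1]
      have h1 := hM x hxb
      have h2 : ‖NP f x‖ * (1 + ‖x‖) ≤ M * (1 + 2 * R) ^ 2 :=
        mul_le_mul h1 (hle1.trans hle) hx1.le hM0
      have h3 : 0 ≤ S1 * (1 + 2 * R) ^ 2 := by positivity
      nlinarith
    · rw [D_NP hf i x, le_div_iff₀ (by positivity)]
      have h1 := (hM' i x hxb).trans (hS1' i)
      have h2 : ‖NP (D i f) x‖ * (1 + ‖x‖) ^ 2 ≤ S1 * (1 + 2 * R) ^ 2 :=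
        mul_le_mul h1 hle (by positivity) hS1
      have h3 : 0 ≤ M * (1 + 2 * R) ^ 2 := by positivity
      nlinarith

end Pool.Agent.Helper60.EC
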