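import Pool.Agent.Helper60.EC.P2
import Pool.Agent.Helper60.EC.P3
import Pool.Agent.Helper60.EC.Calc2a

/-! Project EC, P4: the energy identity of the Newton potential and the Hessian identity -/

set_option autoImplicit false

open MeasureTheory Set Filter Topology
open scoped ENNReal ContDiff

noncomputable section

namespace Pool.Agent.Helper60.EC

open Pool.Agent.Helper52.NSE (E3 pd divg TestField)

variable {F : Type} [NormedAddCommGroup F] [InnerProductSpace ℝ F] [FiniteDimensional ℝ F]
variable {f g β : E3 → F}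

omit [FiniteDimensional ℝ F] in
theorem P4_decay_pos (hd : Decay β) : ∃ C : ℝ, 0 ≤ C ∧
    ∀ x, ‖β x‖ ≤ C / (1 + ‖x‖) ∧ ∀ i, ‖D i β x‖ ≤ C / (1 + ‖x‖) ^ 2 := by
  obtain ⟨C, hC⟩ := hd
  refine ⟨C, ?_, hC⟩
  have h := (hC 0).1
  rw [norm_zero, add_zero, div_one] at h
  exact (norm_nonneg _).trans h

theorem P4_integrable : Integrable (fun x : E3 => ((1 + ‖x‖) ^ 4)⁻¹) volume := by
  have h := integrable_one_add_norm (E := E3) (μ := volume) (r := 4) (by
    rw [finrank_euclideanSpace_fin]; norm_num)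
  refine h.congr (Filter.Eventually.of_forall fun x => ?_)
  show (1 + ‖x‖) ^ (-(4 : ℝ)) = ((1 + ‖x‖) ^ 4)⁻¹
  rw [Real.rpow_neg (by positivity)]
  norm_cast

/-- Green's identity for a decaying function and a Newton potential -/
theorem NP_green (hf : Cc f) (hβ : ContDiff ℝ 1 β) (hd : Decay β) :
    ∫ x, ∑ i, inner ℝ (D i (NP f) x) (D i β x) = ip f β := by
  obtain ⟨C, hC0, hC⟩ := P4_decay_pos hd
  obtain ⟨C', hC0', hC'⟩ := P4_decay_pos (NP_decay hf)
  obtain ⟨K, hK0, hK⟩ := exists_cut
  have hN : ContDiff ℝ ∞ (NP f) := NP_smooth hf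
  have hdβ : ∀ x, DifferentiableAt ℝ β x := fun x => hβ.differentiable (by norm_num) x
  choose χ hcut hb h1 using fun n : ℕ => hK 0 ((n : ℝ) + 1) (by positivity)
  have hdχ : ∀ n x, DifferentiableAt ℝ (χ n) x := fun n x =>
    (hcut n).cc.smooth.differentiable (by norm_num) x
  -- the derivative of the cutoff
  have hDχ : ∀ n i x, |D i (χ n) x| ≤ 2 * K / (1 + ‖x‖) := by
    intro n i x
    have hR : (0 : ℝ) < (n : ℝ) + 1 := by positivity
    rcases le_or_gt ‖x‖ ((n : ℝ) + 1) with hx | hx
    · refine ((hcut n).d1 i x).trans ?_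
      rw [div_le_div_iff₀ hR (by positivity)]
      have : 1 + ‖x‖ ≤ 2 * ((n : ℝ) + 1) := by
        have : (0 : ℝ) ≤ n := Nat.cast_nonneg n
        linarith
      nlinarith
    · have h0 : χ n =ᶠ[𝓝 x] fun _ => (0 : ℝ) := by
        have ho : {y : E3 | (n : ℝ) + 1 < ‖y‖} ∈ 𝓝 x :=
          (isOpen_lt continuous_const continuous_norm).mem_nhds hx
        filter_upwards [ho] with y hy
        exact (hcut n).supp y (by rw [sub_zero]; exact le_of_lt hy)
      rw [D_congr h0]
      have : D i (fun _ : E3 => (0 : ℝ)) x = 0 := by simp [D]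
      rw [this, abs_zero]
      positivity
  have hev : ∀ x : E3, ∀ᶠ n : ℕ in atTop, χ n =ᶠ[𝓝 x] fun _ => (1 : ℝ) := by
    intro x
    have h2 : ∀ᶠ n : ℕ in atTop, 2 * (‖x‖ + 1) ≤ (n : ℝ) :=
      tendsto_natCast_atTop_atTop.eventually_ge_atTop _
    filter_upwards [h2] with n hn
    have ho : {y : E3 | ‖y‖ < ‖x‖ + 1} ∈ 𝓝 x :=
      (isOpen_lt continuous_norm continuous_const).mem_nhds (by simp)
    filter_upwards [ho] with y hy
    refine h1 n y ?_
    rw [sub_zero]
    have : ‖y‖ < ‖x‖ + 1 := hy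
    linarith
  -- Green's identity with the cutoff
  have hgreen : ∀ n, ∫ x, ∑ i, inner ℝ (D i (NP f) x) (D i (sm (χ n) β) x) =
      ip f (sm (χ n) β) := by
    intro n
    have hs : ContDiff ℝ 1 (sm (χ n) β) := ((hcut n).cc.smooth.of_le (by norm_num)).smul hβ
    have hc : HasCompactSupport (sm (χ n) β) := (hcut n).cc.comp.smul_right
    have h := ip_lap (f := NP f) (g := sm (χ n) β) (contDiff_infty.1 hN 2) hs (Or.inr hc)
    have h' : ip (lap (NP f)) (sm (χ n) β) = -ip f (sm (χ n) β) := by
      unfold ip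
      rw [← integral_neg]
      refine integral_congr_ae (Filter.Eventually.of_forall fun x => ?_)
      show inner ℝ (lap (NP f) x) (sm (χ n) β x) = -inner ℝ (f x) (sm (χ n) β x)
      rw [lap_NP' hf, inner_neg_left]
    rw [h'] at h
    linarith
  -- the left-hand side converges
  have hlim : Tendsto (fun n => ∫ x, ∑ i, inner ℝ (D i (NP f) x) (D i (sm (χ n) β) x)) atTop
      (𝓝 (∫ x, ∑ i, inner ℝ (D i (NP f) x) (D i β x))) := by
    refine tendsto_integral_of_dominated_convergence
      (fun x => 3 * (C' * (2 * K * C + C)) * ((1 + ‖x‖) ^ 4)⁻¹) ?_ (P4_integrable.const_mul _) ?_ ?_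
    · intro n
      have hs : ContDiff ℝ 1 (sm (χ n) β) := ((hcut n).cc.smooth.of_le (by norm_num)).smul hβ
      refine Continuous.aestronglyMeasurable ?_
      exact continuous_finsetSum _ fun i _ =>
        (D_smooth hN i).continuous.inner (D_contDiff (m := 0) hs (by norm_num) i).continuous
    · intro n
      refine Filter.Eventually.of_forall fun x => ?_
      have hx : 0 < 1 + ‖x‖ := by positivity
      have hterm : ∀ i : Fin 3, ‖(inner ℝ (D i (NP f) x) (D i (sm (χ n) β) x) : ℝ)‖ ≤
          C' * (2 * K * C + C) * ((1 + ‖x‖) ^ 4)⁻¹ := by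
        intro i
        refine (norm_inner_le_norm _ _).trans ?_
        have e1 : ‖D i (sm (χ n) β) x‖ ≤ (2 * K * C + C) / (1 + ‖x‖) ^ 2 := by
          rw [D_sm (hdχ n x) (hdβ x)]
          refine (norm_add_le _ _).trans ?_
          rw [norm_smul, norm_smul, Real.norm_eq_abs, Real.norm_eq_abs]
          have a1 : |D i (χ n) x| * ‖β x‖ ≤ 2 * K / (1 + ‖x‖) * (C / (1 + ‖x‖)) :=
            mul_le_mul (hDχ n i x) (hC x).1 (norm_nonneg _) (by positivity)
          have a2 : |χ n x| * ‖D i β x‖ ≤ 1 * (C / (1 + ‖x‖) ^ 2) := by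
            refine mul_le_mul ?_ ((hC x).2 i) (norm_nonneg _) zero_le_one
            rw [abs_of_nonneg (hb n x).1]
            exact (hb n x).2
          refine (add_le_add a1 a2).trans (le_of_eq ?_)
          field_simp
        have e2 := (hC' x).2 i
        calc ‖D i (NP f) x‖ * ‖D i (sm (χ n) β) x‖
            ≤ C' / (1 + ‖x‖) ^ 2 * ((2 * K * C + C) / (1 + ‖x‖) ^ 2) :=
              mul_le_mul e2 e1 (norm_nonneg _) (by positivity)
          _ = C' * (2 * K * C + C) * ((1 + ‖x‖) ^ 4)⁻¹ := by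
              field_simp
      refine (norm_sum_le _ _).trans ?_
      refine (Finset.sum_le_sum fun i _ => hterm i).trans (le_of_eq ?_)
      simp
      ring
    · refine Filter.Eventually.of_forall fun x => ?_
      refine tendsto_const_nhds.congr' ?_
      filter_upwards [hev x] with n hn
      refine Finset.sum_congr rfl fun i _ => ?_
      have e : sm (χ n) β =ᶠ[𝓝 x] β := by
        filter_upwards [hn] with y hy
        simp [sm, hy]
      rw [D_congr e]
  -- the right-hand side is eventually constant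
  have hrhs : ∀ᶠ n : ℕ in atTop, ip f (sm (χ n) β) = ip f β := by
    obtain ⟨R, hR⟩ := hf.comp.isBounded.exists_norm_le
    have h2 : ∀ᶠ n : ℕ in atTop, 2 * R ≤ (n : ℝ) :=
      tendsto_natCast_atTop_atTop.eventually_ge_atTop _
    filter_upwards [h2] with n hn
    unfold ip
    refine integral_congr_ae (Filter.Eventually.of_forall fun x => ?_)
    show inner ℝ (f x) (sm (χ n) β x) = inner ℝ (f x) (β x)
    by_cases hx : x ∈ tsupport f
    · have : χ n x = 1 := h1 n x (by rw [sub_zero]; have := hR x hx; linarith)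
      simp [sm, this]
    · rw [image_eq_zero_of_notMem_tsupport hx]
      simp
  refine tendsto_nhds_unique hlim ?_
  refine tendsto_const_nhds.congr' ?_
  filter_upwards [hrhs] with n hn
  rw [hgreen n, hn]

theorem NP_energy (hf : Cc f) : gsq (NP f) = ip f (NP f) := by
  rw [← NP_green hf ((NP_smooth hf).of_le (by norm_num)) (NP_decay hf)]
  unfold gsq
  simp_rw [real_inner_self_eq_norm_sq]

theorem NP_symm (hf : Cc f) (hg : Cc g) : ip f (NP g) = ip g (NP f) := by
  rw [← NP_green hf ((NP_smooth hg).of_le (by norm_num)) (NP_decay hg),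
    ← NP_green hg ((NP_smooth hf).of_le (by norm_num)) (NP_decay hf)]
  refine integral_congr_ae (Filter.Eventually.of_forall fun x => ?_)
  exact Finset.sum_congr rfl fun i _ => real_inner_comm _ _

/-- `‖∇² NP f‖ = ‖f‖` -/
theorem NP_hess (hf : Cc f) : ∑ i, gsq (D i (NP f)) = sq f := by
  have hN : ContDiff ℝ ∞ (NP f) := NP_smooth hf
  have h1 : ∀ i, gsq (D i (NP f)) = -∫ x, inner ℝ (f x) (D i (D i (NP f)) x) := by
    intro i
    rw [D_NP' hf i, NP_energy (cc_D hf i)]
    have h := ibp (f := f) (g := NP (D i f)) (hf.smooth.of_le (by norm_num))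
      ((NP_smooth (cc_D hf i)).of_le (by norm_num)) (Or.inl hf.comp) i
    exact h
  simp_rw [h1]
  rw [Finset.sum_neg_distrib, ← integral_finsetSum]
  · unfold sq
    rw [← integral_neg]
    refine integral_congr_ae (Filter.Eventually.of_forall fun x => ?_)
    show -(∑ i, (inner ℝ (f x) (D i (D i (NP f)) x) : ℝ)) = ‖f x‖ ^ 2
    rw [← inner_sum]
    have h2 : ∑ i, D i (D i (NP f)) x = -f x := lap_NP' hf x
    rw [h2, inner_neg_right, neg_neg, real_inner_self_eq_norm_sq]
  · intro i _
    have hc : Continuous (fun x => (inner ℝ (f x) (D i (D i (NP f)) x) : ℝ)) :=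
      hf.smooth.continuous.inner (D_smooth (D_smooth hN i) i).continuous
    exact Calc2a_int hc (Calc2a_inner_comp (Or.inl hf.comp))

end Pool.Agent.Helper60.EC
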