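import Pool.Agent.Helper60.EC.P5a

/-! Project EC, P5b: decay of test functions -/

set_option autoImplicit false

open MeasureTheory Set Filter Topology
open scoped ENNReal ContDiff

noncomputable section

namespace Pool.Agent.Helper60.EC

open Pool.Agent.Helper52.NSE (E3 pd divg TestField)

variable {F : Type} [NormedAddCommGroup F] [InnerProductSpace ℝ F] [FiniteDimensional ℝ F]
variable {β : E3 → F}

omit [FiniteDimensional ℝ F] in
theorem P5b_bound {f : E3 → F} (hf : Continuous f) (hc : HasCompactSupport f) (n : ℕ) :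
    ∃ C : ℝ, 0 ≤ C ∧ ∀ x, ‖f x‖ ≤ C / (1 + ‖x‖) ^ n := by
  have hcont : Continuous (fun x : E3 => ((1 + ‖x‖) ^ n : ℝ) • f x) := by fun_prop
  have hs : HasCompactSupport (fun x : E3 => ((1 + ‖x‖) ^ n : ℝ) • f x) := hc.smul_left
  obtain ⟨C, hC⟩ := hs.exists_bound_of_continuous hcont
  refine ⟨C, (norm_nonneg _).trans (hC 0), fun x => ?_⟩
  have hx : (0 : ℝ) < (1 + ‖x‖) ^ n := by positivity
  rw [le_div_iff₀ hx]
  have h := hC x
  rw [norm_smul, Real.norm_of_nonneg hx.le] at h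
  rw [mul_comm]
  exact h

theorem decay_of_cc (hβ : Cc β) : Decay β := by
  obtain ⟨C0, h0, hC0⟩ := P5b_bound hβ.smooth.continuous hβ.comp 1
  have h1 : ∀ i : Fin 3, ∃ C : ℝ, 0 ≤ C ∧ ∀ x, ‖D i β x‖ ≤ C / (1 + ‖x‖) ^ 2 := fun i =>
    P5b_bound (D_smooth hβ.smooth i).continuous
      (hβ.comp.of_isClosed_subset (isClosed_tsupport _) (D_tsupport β i)) 2
  choose C1 h1 hC1 using h1
  have hs1 : ∀ i, C1 i ≤ ∑ i, C1 i := fun i =>
    Finset.single_le_sum (f := C1) (fun j _ => h1 j) (Finset.mem_univ i)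
  have hn1 : 0 ≤ ∑ i, C1 i := Finset.sum_nonneg fun i _ => h1 i
  refine ⟨C0 + ∑ i, C1 i, fun x => ⟨?_, fun i => ?_⟩⟩
  · refine (hC0 x).trans ?_
    rw [pow_one]
    exact div_le_div_of_nonneg_right (by linarith) (by positivity)
  · refine (hC1 i x).trans ?_
    exact div_le_div_of_nonneg_right (by linarith [hs1 i]) (by positivity)

end Pool.Agent.Helper60.EC
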