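import Pool.Agent.Helper60.EC.Calc2

/-! Project EC, P5a: the inequality of Hardy -/

set_option autoImplicit false

open MeasureTheory Set Filter Topology
open scoped ENNReal ContDiff

noncomputable section

namespace Pool.Agent.Helper60.EC

open Pool.Agent.Helper52.NSE (E3 pd divg TestField)

variable {F : Type} [NormedAddCommGroup F] [InnerProductSpace ℝ F] [FiniteDimensional ℝ F]
variable {β : E3 → F}

/-- the regularised squared distance -/
private def P5a_q (a : E3) (ε : ℝ) (x : E3) : ℝ := ‖x - a‖ ^ 2 + ε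

private lemma P5a_q_pos (a : E3) {ε : ℝ} (hε : 0 < ε) (x : E3) : 0 < P5a_q a ε x := by
  unfold P5a_q; positivity

private lemma P5a_nsq (y : E3) : ‖y‖ ^ 2 = ∑ i, (y i) ^ 2 := by
  rw [EuclideanSpace.norm_sq_eq]
  simp

private lemma P5a_jb {r : ℝ} (hr : 3 < r) : Integrable (fun x : E3 => (1 + ‖x‖) ^ (-r)) :=
  integrable_one_add_norm (by simpa using hr)

/-- comparison of the weights -/
private lemma P5a_cmp (a : E3) {ε : ℝ} (hε : 0 < ε) :
    ∃ M : ℝ, 0 < M ∧ ∀ (s : ℝ), 0 ≤ s → ∀ x : E3,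
      (P5a_q a ε x) ^ (-s) ≤ M ^ s * (1 + ‖x‖) ^ (-(2 * s)) := by
  refine ⟨2 * (1 + ‖a‖) ^ 2 / ε + 2, by positivity, fun s hs x => ?_⟩
  set M : ℝ := 2 * (1 + ‖a‖) ^ 2 / ε + 2 with hM
  have hMpos : 0 < M := by positivity
  have hJ : 0 < 1 + ‖x‖ := by positivity
  have hq := P5a_q_pos a hε x
  have h1 : (1 + ‖x‖) ^ 2 ≤ M * P5a_q a ε x := by
    have h2 : ‖x‖ ≤ ‖a‖ + ‖x - a‖ := by
      calc ‖x‖ = ‖a + (x - a)‖ := by congr 1; abel
        _ ≤ _ := norm_add_le _ _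
    have h3 : (1 + ‖x‖) ^ 2 ≤ 2 * (1 + ‖a‖) ^ 2 + 2 * ‖x - a‖ ^ 2 := by
      have h4 : (1 + ‖x‖) ^ 2 ≤ ((1 + ‖a‖) + ‖x - a‖) ^ 2 := by
        apply pow_le_pow_left₀ hJ.le; linarith
      nlinarith [sq_nonneg ((1 + ‖a‖) - ‖x - a‖)]
    have h5 : M * P5a_q a ε x = 2 * (1 + ‖a‖) ^ 2 / ε * ‖x - a‖ ^ 2 + 2 * (1 + ‖a‖) ^ 2
        + 2 * ‖x - a‖ ^ 2 + 2 * ε := by
      rw [hM]; unfold P5a_q; field_simp; ring
    rw [h5]
    have h6 : 0 ≤ 2 * (1 + ‖a‖) ^ 2 / ε * ‖x - a‖ ^ 2 := by positivity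
    linarith
  have h2 : (1 + ‖x‖) ^ 2 / M ≤ P5a_q a ε x := by rw [div_le_iff₀ hMpos]; linarith
  have h3 : (P5a_q a ε x) ^ (-s) ≤ ((1 + ‖x‖) ^ 2 / M) ^ (-s) :=
    Real.rpow_le_rpow_of_nonpos (by positivity) h2 (by linarith)
  refine h3.trans (le_of_eq ?_)
  rw [Real.div_rpow (by positivity) hMpos.le, ← Real.rpow_natCast (1 + ‖x‖) 2,
    ← Real.rpow_mul hJ.le, Real.rpow_neg hMpos.le, div_inv_eq_mul, mul_comm]
  congr 2
  push_cast
  ring

/-- the vector field, and its partial derivatives -/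
private lemma P5a_deriv (a : E3) {ε : ℝ} (hε : 0 < ε) (s : ℝ) (i : Fin 3) (x : E3) :
    HasFDerivAt (fun x : E3 => (x i - a i) * (P5a_q a ε x) ^ (-s))
      ((x i - a i) • ((-s * (P5a_q a ε x) ^ (-s - 1)) • ((2 : ℝ) • innerSL ℝ (x - a)))
        + (P5a_q a ε x) ^ (-s) • (EuclideanSpace.proj i : E3 →L[ℝ] ℝ)) x := by
  have h1 : HasFDerivAt (fun x : E3 => P5a_q a ε x) ((2 : ℝ) • innerSL ℝ (x - a)) x := by
    have h2 : HasFDerivAt (fun x : E3 => x - a) (ContinuousLinearMap.id ℝ E3) x :=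
      (hasFDerivAt_id x).sub_const a
    have h3 := (h2.norm_sq).add_const ε
    refine h3.congr_fderiv ?_
    ext y
    simp
  have h4 : HasFDerivAt (fun x : E3 => (P5a_q a ε x) ^ (-s))
      ((-s * (P5a_q a ε x) ^ (-s - 1)) • ((2 : ℝ) • innerSL ℝ (x - a))) x :=
    h1.rpow_const (Or.inl (P5a_q_pos a hε x).ne')
  have h5 : HasFDerivAt (fun x : E3 => x i - a i) (EuclideanSpace.proj i : E3 →L[ℝ] ℝ) x :=
    ((EuclideanSpace.proj i : E3 →L[ℝ] ℝ).hasFDerivAt).sub_const (a i)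
  exact h5.mul h4

private lemma P5a_fderiv (a : E3) {ε : ℝ} (hε : 0 < ε) (s : ℝ) (i : Fin 3) (x : E3) :
    fderiv ℝ (fun x : E3 => (x i - a i) * (P5a_q a ε x) ^ (-s)) x
      (EuclideanSpace.single i (1 : ℝ)) =
      (P5a_q a ε x) ^ (-s) - 2 * s * (x i - a i) ^ 2 * (P5a_q a ε x) ^ (-s - 1) := by
  rw [(P5a_deriv a hε s i x).fderiv]
  have h : inner ℝ (x - a) (EuclideanSpace.single i (1 : ℝ)) = x i - a i := by
    rw [EuclideanSpace.inner_single_right]; simp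
  have h2 : (EuclideanSpace.proj i : E3 →L[ℝ] ℝ) (EuclideanSpace.single i (1 : ℝ)) = 1 := by
    simp
  simp only [add_apply, smul_apply, innerSL_apply_apply, h, h2, smul_eq_mul]
  ring

/-- Hardy's inequality with a weight -/
private lemma P5a_main (hβ : ContDiff ℝ 1 β) (hd : Decay β) (a : E3) {ε s : ℝ} (hε : 0 < ε)
    (hs1 : 1 < s) (hs2 : s < 3 / 2) :
    Integrable (fun x => ‖β x‖ ^ 2 * (P5a_q a ε x) ^ (-s)) ∧
    ∫ x, ‖β x‖ ^ 2 * (P5a_q a ε x) ^ (-s) ≤ 4 / (3 - 2 * s) ^ 2 * (ε ^ (1 - s) * gsq β) := by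
  obtain ⟨C, hC⟩ := hd
  have hJ : ∀ x : E3, 0 < 1 + ‖x‖ := fun x => by positivity
  have hC0 : 0 ≤ C := by
    have := (norm_nonneg _).trans (hC 0).1
    simpa using this
  have hβ0 : Continuous β := hβ.continuous
  have hDc : ∀ i, Continuous (D i β) := fun i => (D_contDiff (m := 0) hβ (by norm_num) i).continuous
  have hβd : Differentiable ℝ β := hβ.differentiable (by norm_num)
  obtain ⟨M, hM, hcmp⟩ := P5a_cmp a hε
  have hs0 : 0 ≤ s := by linarith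
  have hqc : Continuous (fun x : E3 => P5a_q a ε x) := by unfold P5a_q; fun_prop
  have hWc : Continuous (fun x : E3 => (P5a_q a ε x) ^ (-s)) :=
    hqc.rpow_const fun x => Or.inl (P5a_q_pos a hε x).ne'
  have hW1c : Continuous (fun x : E3 => (P5a_q a ε x) ^ (-s - 1)) :=
    hqc.rpow_const fun x => Or.inl (P5a_q_pos a hε x).ne'
  have hW0 : ∀ x, 0 < (P5a_q a ε x) ^ (-s) := fun x => Real.rpow_pos_of_pos (P5a_q_pos a hε x) _
  have hW : ∀ x, (P5a_q a ε x) ^ (-s) ≤ M ^ s * (1 + ‖x‖) ^ (-(2 * s)) := hcmp s hs0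
  -- sizes
  have hu : ∀ x, ‖β x‖ ^ 2 ≤ C ^ 2 * (1 + ‖x‖) ^ (-2 : ℝ) := by
    intro x
    have h1 := pow_le_pow_left₀ (norm_nonneg _) (hC x).1 2
    refine h1.trans (le_of_eq ?_)
    rw [div_pow, Real.rpow_neg (hJ x).le, Real.rpow_two, div_eq_mul_inv]
  have hy : ∀ (i : Fin 3) (x : E3), |x i - a i| ≤ (1 + ‖a‖) * (1 + ‖x‖) := by
    intro i x
    have h1 : |x i - a i| ≤ ‖x - a‖ := by
      have := PiLp.norm_apply_le (x - a) i
      simpa using this
    have h2 := norm_sub_le x a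
    nlinarith [norm_nonneg x, norm_nonneg a]
  have hyq : ∀ (i : Fin 3) (x : E3), (x i - a i) ^ 2 ≤ P5a_q a ε x := by
    intro i x
    unfold P5a_q
    rw [P5a_nsq]
    have h1 : (x i - a i) ^ 2 ≤ ∑ j, ((x - a) j) ^ 2 :=
      Finset.single_le_sum (f := fun j => ((x - a) j) ^ 2) (fun j _ => sq_nonneg _)
        (Finset.mem_univ i)
    linarith
  have hDb : ∀ (i : Fin 3) (x : E3), ‖β x‖ * ‖D i β x‖ ≤ C ^ 2 * (1 + ‖x‖) ^ (-3 : ℝ) := by
    intro i x
    have h1 := mul_le_mul (hC x).1 ((hC x).2 i) (norm_nonneg _) (div_nonneg hC0 (hJ x).le)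
    refine h1.trans (le_of_eq ?_)
    rw [Real.rpow_neg (hJ x).le, show (3 : ℝ) = ((3 : ℕ) : ℝ) by norm_num, Real.rpow_natCast]
    have := (hJ x).ne'
    field_simp
  -- integrability
  have i1 : Integrable (fun x => ‖β x‖ ^ 2 * (P5a_q a ε x) ^ (-s)) := by
    refine Integrable.mono' ((P5a_jb (r := 2 + 2 * s) (by linarith)).const_mul (C ^ 2 * M ^ s))
      ((hβ0.norm.pow 2).mul hWc).aestronglyMeasurable (ae_of_all _ fun x => ?_)
    rw [Real.norm_of_nonneg (mul_nonneg (sq_nonneg _) (hW0 x).le)]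
    refine (mul_le_mul (hu x) (hW x) (hW0 x).le (by positivity)).trans (le_of_eq ?_)
    rw [show -(2 + 2 * s) = -2 + -(2 * s) by ring, Real.rpow_add (hJ x)]
    ring
  have hfu : ∀ (i : Fin 3) (x : E3), fderiv ℝ (fun x => ‖β x‖ ^ 2) x
      (EuclideanSpace.single i (1 : ℝ)) = 2 * inner ℝ (β x) (D i β x) := by
    intro i x
    have h1 := ((hβd x).hasFDerivAt.norm_sq).fderiv
    rw [h1]
    simp [D]
  have hfX := P5a_fderiv a hε s
  have hUd : Differentiable ℝ (fun x => ‖β x‖ ^ 2) := hβd.norm_sq ℝ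
  have i2 : ∀ i, Integrable (fun x => fderiv ℝ (fun x => ‖β x‖ ^ 2) x
      (EuclideanSpace.single i (1 : ℝ)) * ((x i - a i) * (P5a_q a ε x) ^ (-s))) := by
    intro i
    simp only [hfu]
    refine Integrable.mono' ((P5a_jb (r := 2 + 2 * s) (by linarith)).const_mul
      (2 * C ^ 2 * (1 + ‖a‖) * M ^ s)) ?_ (ae_of_all _ fun x => ?_)
    · exact (((hβ0.inner (hDc i)).const_mul 2).mul
        (((by fun_prop : Continuous fun x : E3 => x i - a i)).mul hWc)).aestronglyMeasurable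
    · rw [Real.norm_eq_abs, abs_mul, abs_mul, abs_mul, abs_of_pos (hW0 x),
        abs_of_pos (two_pos : (0 : ℝ) < 2)]
      have h1 : |inner ℝ (β x) (D i β x)| ≤ C ^ 2 * (1 + ‖x‖) ^ (-3 : ℝ) :=
        (abs_real_inner_le_norm _ _).trans (hDb i x)
      have h2 : |x i - a i| * (P5a_q a ε x) ^ (-s) ≤
          ((1 + ‖a‖) * (1 + ‖x‖)) * (M ^ s * (1 + ‖x‖) ^ (-(2 * s))) :=
        mul_le_mul (hy i x) (hW x) (hW0 x).le (by positivity)
      have h3 := mul_le_mul (mul_le_mul_of_nonneg_left h1 (two_pos : (0 : ℝ) < 2).le) h2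
        (mul_nonneg (abs_nonneg _) (hW0 x).le) (by positivity)
      refine h3.trans (le_of_eq ?_)
      rw [show -(2 + 2 * s) = (-3 + 1) + -(2 * s) by ring, Real.rpow_add (hJ x),
        Real.rpow_add (hJ x), Real.rpow_one]
      ring
  have i3 : ∀ i, Integrable (fun x => ‖β x‖ ^ 2 * fderiv ℝ (fun x : E3 => (x i - a i) *
      (P5a_q a ε x) ^ (-s)) x (EuclideanSpace.single i (1 : ℝ))) := by
    intro i
    simp only [hfX]
    refine Integrable.mono' (i1.const_mul (1 + 2 * s)) ?_ (ae_of_all _ fun x => ?_)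
    · exact ((hβ0.norm.pow 2).mul (hWc.sub ((continuous_const.mul
        ((by fun_prop : Continuous fun x : E3 => x i - a i).pow 2)).mul hW1c))).aestronglyMeasurable
    · have hqp := P5a_q_pos a hε x
      have h1 : (P5a_q a ε x) * (P5a_q a ε x) ^ (-s - 1) = (P5a_q a ε x) ^ (-s) := by
        rw [← Real.rpow_one_add' hqp.le (by linarith)]; congr 1; ring
      have h0 : 0 < (P5a_q a ε x) ^ (-s - 1) := Real.rpow_pos_of_pos hqp _
      have h2 : (x i - a i) ^ 2 * (P5a_q a ε x) ^ (-s - 1) ≤ (P5a_q a ε x) ^ (-s) := by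
        rw [← h1]; exact mul_le_mul_of_nonneg_right (hyq i x) h0.le
      have h3 : 0 ≤ (x i - a i) ^ 2 * (P5a_q a ε x) ^ (-s - 1) := by positivity
      rw [Real.norm_eq_abs, abs_mul, abs_of_nonneg (sq_nonneg ‖β x‖)]
      have h4 : |(P5a_q a ε x) ^ (-s) - 2 * s * (x i - a i) ^ 2 * (P5a_q a ε x) ^ (-s - 1)| ≤
          (1 + 2 * s) * (P5a_q a ε x) ^ (-s) := by
        rw [abs_le]
        constructor <;> nlinarith [hW0 x]
      calc ‖β x‖ ^ 2 * _ ≤ ‖β x‖ ^ 2 * ((1 + 2 * s) * (P5a_q a ε x) ^ (-s)) :=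
            mul_le_mul_of_nonneg_left h4 (sq_nonneg _)
        _ = _ := by ring
  have i4 : ∀ i, Integrable (fun x => ‖β x‖ ^ 2 * ((x i - a i) * (P5a_q a ε x) ^ (-s))) := by
    intro i
    refine Integrable.mono' ((P5a_jb (r := 1 + 2 * s) (by linarith)).const_mul
      (C ^ 2 * (1 + ‖a‖) * M ^ s)) ?_ (ae_of_all _ fun x => ?_)
    · exact ((hβ0.norm.pow 2).mul (((by fun_prop : Continuous fun x : E3 => x i - a i)).mul
        hWc)).aestronglyMeasurable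
    · rw [Real.norm_eq_abs, abs_mul, abs_mul, abs_of_pos (hW0 x), abs_of_nonneg (sq_nonneg ‖β x‖)]
      have h2 : |x i - a i| * (P5a_q a ε x) ^ (-s) ≤
          ((1 + ‖a‖) * (1 + ‖x‖)) * (M ^ s * (1 + ‖x‖) ^ (-(2 * s))) :=
        mul_le_mul (hy i x) (hW x) (hW0 x).le (by positivity)
      have h3 := mul_le_mul (hu x) h2
        (mul_nonneg (abs_nonneg _) (hW0 x).le) (by positivity)
      refine h3.trans (le_of_eq ?_)
      rw [show -(1 + 2 * s) = (-2 + 1) + -(2 * s) by ring, Real.rpow_add (hJ x),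
        Real.rpow_add (hJ x), Real.rpow_one]
      ring
  have i5 : Integrable (fun x => ∑ i, ‖D i β x‖ ^ 2) := by
    refine Integrable.mono' ((P5a_jb (r := 4) (by norm_num)).const_mul (3 * C ^ 2))
      (continuous_finsetSum _ fun i _ => (hDc i).norm.pow 2).aestronglyMeasurable
      (ae_of_all _ fun x => ?_)
    rw [Real.norm_of_nonneg (Finset.sum_nonneg fun i _ => sq_nonneg _)]
    have h1 : ∀ i, ‖D i β x‖ ^ 2 ≤ C ^ 2 * (1 + ‖x‖) ^ (-4 : ℝ) := by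
      intro i
      have h1 := pow_le_pow_left₀ (norm_nonneg _) ((hC x).2 i) 2
      refine h1.trans (le_of_eq ?_)
      rw [div_pow, Real.rpow_neg (hJ x).le, show (4 : ℝ) = ((4 : ℕ) : ℝ) by norm_num,
        Real.rpow_natCast, div_eq_mul_inv, ← pow_mul]
    refine (Finset.sum_le_sum fun i _ => h1 i).trans (le_of_eq ?_)
    rw [Fin.sum_const]
    simp
    ring
  refine ⟨i1, ?_⟩
  -- integration by parts
  have ibp' : ∀ i, ∫ x, ‖β x‖ ^ 2 * fderiv ℝ (fun x : E3 => (x i - a i) *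
      (P5a_q a ε x) ^ (-s)) x (EuclideanSpace.single i (1 : ℝ)) =
      - ∫ x, fderiv ℝ (fun x => ‖β x‖ ^ 2) x
      (EuclideanSpace.single i (1 : ℝ)) * ((x i - a i) * (P5a_q a ε x) ^ (-s)) := fun i =>
    integral_mul_fderiv_eq_neg_fderiv_mul_of_integrable (i2 i) (i3 i) (i4 i)
      (fun x _ => hUd x) (fun x _ => (P5a_deriv a hε s i x).differentiableAt)
  set lam : ℝ := (3 - 2 * s) / 2 with hlam
  have hlam0 : 0 < lam := by rw [hlam]; linarith
  have lower : ∀ x, (3 - 2 * s) * (‖β x‖ ^ 2 * (P5a_q a ε x) ^ (-s)) ≤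
      ∑ i, ‖β x‖ ^ 2 * fderiv ℝ (fun x : E3 => (x i - a i) *
      (P5a_q a ε x) ^ (-s)) x (EuclideanSpace.single i (1 : ℝ)) := by
    intro x
    simp only [hfX]
    rw [← Finset.mul_sum, Finset.sum_sub_distrib, Fin.sum_const]
    have hqp := P5a_q_pos a hε x
    have h1 : (P5a_q a ε x) * (P5a_q a ε x) ^ (-s - 1) = (P5a_q a ε x) ^ (-s) := by
      rw [← Real.rpow_one_add' hqp.le (by linarith)]; congr 1; ring
    have h0 : 0 < (P5a_q a ε x) ^ (-s - 1) := Real.rpow_pos_of_pos hqp _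
    have h2 : ∑ i, 2 * s * (x i - a i) ^ 2 * (P5a_q a ε x) ^ (-s - 1) =
        2 * s * (‖x - a‖ ^ 2 * (P5a_q a ε x) ^ (-s - 1)) := by
      rw [P5a_nsq, Finset.sum_mul, Finset.mul_sum]
      refine Finset.sum_congr rfl fun i _ => ?_
      rw [PiLp.sub_apply]; ring
    have h3 : ‖x - a‖ ^ 2 * (P5a_q a ε x) ^ (-s - 1) ≤ (P5a_q a ε x) ^ (-s) := by
      rw [← h1]
      refine mul_le_mul_of_nonneg_right ?_ h0.le
      unfold P5a_q; linarith
    rw [h2]
    have h4 : (3 - 2 * s) * (P5a_q a ε x) ^ (-s) ≤ 3 • (P5a_q a ε x) ^ (-s) -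
        2 * s * (‖x - a‖ ^ 2 * (P5a_q a ε x) ^ (-s - 1)) := by
      rw [nsmul_eq_mul]
      push_cast
      nlinarith
    calc (3 - 2 * s) * (‖β x‖ ^ 2 * (P5a_q a ε x) ^ (-s))
        = ‖β x‖ ^ 2 * ((3 - 2 * s) * (P5a_q a ε x) ^ (-s)) := by ring
      _ ≤ _ := mul_le_mul_of_nonneg_left h4 (sq_nonneg _)
  have upper : ∀ x, -∑ i, fderiv ℝ (fun x => ‖β x‖ ^ 2) x
      (EuclideanSpace.single i (1 : ℝ)) * ((x i - a i) * (P5a_q a ε x) ^ (-s)) ≤
      lam * (‖β x‖ ^ 2 * (P5a_q a ε x) ^ (-s)) +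
        lam⁻¹ * (ε ^ (1 - s) * ∑ i, ‖D i β x‖ ^ 2) := by
    intro x
    simp only [hfu]
    have hqp := P5a_q_pos a hε x
    have h1 : -∑ i, 2 * inner ℝ (β x) (D i β x) * ((x i - a i) * (P5a_q a ε x) ^ (-s)) ≤
        (2 * ‖β x‖ * ∑ i, ‖D i β x‖ * |x i - a i|) * (P5a_q a ε x) ^ (-s) := by
      rw [← Finset.sum_neg_distrib, Finset.mul_sum, Finset.sum_mul]
      refine Finset.sum_le_sum fun i _ => ?_
      have h2 := abs_real_inner_le_norm (β x) (D i β x)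
      have h3 : -(inner ℝ (β x) (D i β x) * (x i - a i)) ≤
          ‖β x‖ * ‖D i β x‖ * |x i - a i| := by
        refine (neg_le_abs _).trans ?_
        rw [abs_mul]
        exact mul_le_mul_of_nonneg_right h2 (abs_nonneg _)
      have h4 := mul_le_mul_of_nonneg_right h3 (hW0 x).le
      linarith
    set S : ℝ := ∑ i, ‖D i β x‖ * |x i - a i| with hS
    have h5 : S ^ 2 ≤ (∑ i, ‖D i β x‖ ^ 2) * ‖x - a‖ ^ 2 := by
      have h6 := Finset.sum_mul_sq_le_sq_mul_sq Finset.univ (fun i => ‖D i β x‖)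
        (fun i => |x i - a i|)
      rw [P5a_nsq]
      simpa [sq_abs] using h6
    have h7 : 2 * ‖β x‖ * S ≤ lam * ‖β x‖ ^ 2 + lam⁻¹ * S ^ 2 := by
      have h8 : 0 ≤ lam⁻¹ * (lam * ‖β x‖ - S) ^ 2 := by positivity
      have h9 : lam⁻¹ * (lam * ‖β x‖ - S) ^ 2 =
          lam * ‖β x‖ ^ 2 - 2 * ‖β x‖ * S + lam⁻¹ * S ^ 2 := by
        field_simp
        ring
      linarith
    have h10 : ‖x - a‖ ^ 2 * (P5a_q a ε x) ^ (-s) ≤ ε ^ (1 - s) := by
      have h11 : ‖x - a‖ ^ 2 * (P5a_q a ε x) ^ (-s) ≤ (P5a_q a ε x) ^ (1 - s) := by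
        rw [show 1 - s = 1 + -s by ring, Real.rpow_add hqp, Real.rpow_one]
        refine mul_le_mul_of_nonneg_right ?_ (hW0 x).le
        unfold P5a_q; linarith
      refine h11.trans (Real.rpow_le_rpow_of_nonpos hε ?_ (by linarith))
      unfold P5a_q
      have := sq_nonneg ‖x - a‖
      linarith
    have hG0 : 0 ≤ ∑ i, ‖D i β x‖ ^ 2 := Finset.sum_nonneg fun i _ => sq_nonneg _
    calc _ ≤ (2 * ‖β x‖ * S) * (P5a_q a ε x) ^ (-s) := h1
      _ ≤ (lam * ‖β x‖ ^ 2 + lam⁻¹ * S ^ 2) * (P5a_q a ε x) ^ (-s) :=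
          mul_le_mul_of_nonneg_right h7 (hW0 x).le
      _ ≤ (lam * ‖β x‖ ^ 2 + lam⁻¹ * ((∑ i, ‖D i β x‖ ^ 2) * ‖x - a‖ ^ 2)) *
          (P5a_q a ε x) ^ (-s) := by
          refine mul_le_mul_of_nonneg_right ?_ (hW0 x).le
          have := mul_le_mul_of_nonneg_left h5 (inv_pos.2 hlam0).le
          linarith
      _ = lam * (‖β x‖ ^ 2 * (P5a_q a ε x) ^ (-s)) +
          lam⁻¹ * ((‖x - a‖ ^ 2 * (P5a_q a ε x) ^ (-s)) * ∑ i, ‖D i β x‖ ^ 2) := by ring
      _ ≤ _ := by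
          have := mul_le_mul_of_nonneg_right h10 hG0
          have := mul_le_mul_of_nonneg_left this (inv_pos.2 hlam0).le
          linarith
  have h1 : (3 - 2 * s) * ∫ x, ‖β x‖ ^ 2 * (P5a_q a ε x) ^ (-s) ≤
      lam * (∫ x, ‖β x‖ ^ 2 * (P5a_q a ε x) ^ (-s)) + lam⁻¹ * (ε ^ (1 - s) * gsq β) := by
    calc (3 - 2 * s) * ∫ x, ‖β x‖ ^ 2 * (P5a_q a ε x) ^ (-s)
        = ∫ x, (3 - 2 * s) * (‖β x‖ ^ 2 * (P5a_q a ε x) ^ (-s)) :=
          (integral_const_mul _ _).symm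
      _ ≤ ∫ x, ∑ i, ‖β x‖ ^ 2 * fderiv ℝ (fun x : E3 => (x i - a i) *
          (P5a_q a ε x) ^ (-s)) x (EuclideanSpace.single i (1 : ℝ)) :=
          integral_mono (i1.const_mul _) (integrable_finsetSum _ fun i _ => i3 i) lower
      _ = ∑ i, ∫ x, ‖β x‖ ^ 2 * fderiv ℝ (fun x : E3 => (x i - a i) *
          (P5a_q a ε x) ^ (-s)) x (EuclideanSpace.single i (1 : ℝ)) :=
          integral_finsetSum _ fun i _ => i3 i
      _ = -∑ i, ∫ x, fderiv ℝ (fun x => ‖β x‖ ^ 2) x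
          (EuclideanSpace.single i (1 : ℝ)) * ((x i - a i) * (P5a_q a ε x) ^ (-s)) := by
          rw [← Finset.sum_neg_distrib]
          exact Finset.sum_congr rfl fun i _ => ibp' i
      _ = ∫ x, -∑ i, fderiv ℝ (fun x => ‖β x‖ ^ 2) x
          (EuclideanSpace.single i (1 : ℝ)) * ((x i - a i) * (P5a_q a ε x) ^ (-s)) := by
          rw [integral_neg, integral_finsetSum _ fun i _ => i2 i]
      _ ≤ ∫ x, (lam * (‖β x‖ ^ 2 * (P5a_q a ε x) ^ (-s)) +
          lam⁻¹ * (ε ^ (1 - s) * ∑ i, ‖D i β x‖ ^ 2)) :=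
          integral_mono (integrable_finsetSum _ fun i _ => i2 i).neg
            ((i1.const_mul _).add ((i5.const_mul _).const_mul _)) upper
      _ = _ := by
          rw [integral_add (i1.const_mul _) ((i5.const_mul _).const_mul _),
            integral_const_mul, integral_const_mul, integral_const_mul]
          rfl
  have h2 : (∫ x, ‖β x‖ ^ 2 * (P5a_q a ε x) ^ (-s)) * lam ≤ lam⁻¹ * (ε ^ (1 - s) * gsq β) := by
    have : (3 - 2 * s) = 2 * lam := by rw [hlam]; ring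
    rw [this] at h1
    linarith
  have h3 : 4 / (3 - 2 * s) ^ 2 = lam⁻¹ * lam⁻¹ := by
    have : (3 - 2 * s) = 2 * lam := by rw [hlam]; ring
    rw [this]
    field_simp
    norm_num
  rw [h3, mul_assoc]
  calc ∫ x, ‖β x‖ ^ 2 * (P5a_q a ε x) ^ (-s)
      = lam⁻¹ * ((∫ x, ‖β x‖ ^ 2 * (P5a_q a ε x) ^ (-s)) * lam) := by
        field_simp
    _ ≤ _ := mul_le_mul_of_nonneg_left h2 (inv_pos.2 hlam0).le

/-- Hardy's inequality, in the form of a Poincaré inequality on balls -/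
theorem hardy (hβ : ContDiff ℝ 1 β) (hd : Decay β) (a : E3) {R : ℝ} (hR : 0 < R) :
    sqOn (Metric.ball a R) β ≤ 4 * R ^ 2 * gsq β := by
  have hβ0 : Continuous β := hβ.continuous
  have step : ∀ (ε s : ℝ), 0 < ε → 1 < s → s < 3 / 2 → sqOn (Metric.ball a R) β ≤
      (R ^ 2 + ε) ^ s * (4 / (3 - 2 * s) ^ 2 * (ε ^ (1 - s) * gsq β)) := by
    intro ε s hε hs1 hs2
    obtain ⟨i1, h1⟩ := P5a_main hβ hd a hε hs1 hs2
    have hRε : 0 < R ^ 2 + ε := by positivity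
    have h2 : sqOn (Metric.ball a R) β ≤
        ∫ x in Metric.ball a R, (R ^ 2 + ε) ^ s * (‖β x‖ ^ 2 * (P5a_q a ε x) ^ (-s)) := by
      unfold sqOn
      refine setIntegral_mono_on ?_ (i1.const_mul _).integrableOn measurableSet_ball ?_
      · exact ((hβ0.norm.pow 2).continuousOn.integrableOn_compact
          (isCompact_closedBall a R)).mono_set Metric.ball_subset_closedBall
      · intro x hx
        have hqp := P5a_q_pos a hε x
        have h3 : P5a_q a ε x ≤ R ^ 2 + ε := by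
          unfold P5a_q
          rw [Metric.mem_ball, dist_eq_norm] at hx
          have := pow_le_pow_left₀ (norm_nonneg _) hx.le 2
          linarith
        have h4 : (R ^ 2 + ε) ^ (-s) ≤ (P5a_q a ε x) ^ (-s) :=
          Real.rpow_le_rpow_of_nonpos hqp h3 (by linarith)
        have h5 : (R ^ 2 + ε) ^ s * (R ^ 2 + ε) ^ (-s) = 1 := by
          rw [← Real.rpow_add hRε, add_neg_cancel, Real.rpow_zero]
        have h6 : 0 < (R ^ 2 + ε) ^ s := Real.rpow_pos_of_pos hRε _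
        calc ‖β x‖ ^ 2 = ‖β x‖ ^ 2 * ((R ^ 2 + ε) ^ s * (R ^ 2 + ε) ^ (-s)) := by
              rw [h5, mul_one]
          _ ≤ ‖β x‖ ^ 2 * ((R ^ 2 + ε) ^ s * (P5a_q a ε x) ^ (-s)) :=
              mul_le_mul_of_nonneg_left (mul_le_mul_of_nonneg_left h4 h6.le) (sq_nonneg _)
          _ = _ := by ring
    refine h2.trans ?_
    rw [integral_const_mul]
    refine mul_le_mul_of_nonneg_left ?_ (Real.rpow_pos_of_pos hRε _).le
    refine le_trans (setIntegral_le_integral i1 (ae_of_all _ fun x => ?_)) h1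
    exact mul_nonneg (sq_nonneg _) (Real.rpow_pos_of_pos (P5a_q_pos a hε x) _).le
  have step2 : ∀ ε : ℝ, 0 < ε → sqOn (Metric.ball a R) β ≤ 4 * (R ^ 2 + ε) * gsq β := by
    intro ε hε
    have hRε : 0 < R ^ 2 + ε := by positivity
    have hc : ContinuousAt (fun s : ℝ => (R ^ 2 + ε) ^ s *
        (4 / (3 - 2 * s) ^ 2 * (ε ^ (1 - s) * gsq β))) 1 := by
      have e1 : ContinuousAt (fun s : ℝ => (R ^ 2 + ε) ^ s) 1 :=
        (Real.continuousAt_const_rpow hRε.ne')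
      have e2 : ContinuousAt (fun s : ℝ => ε ^ (1 - s)) 1 :=
        (Real.continuousAt_const_rpow hε.ne').comp (by fun_prop)
      have e3 : ContinuousAt (fun s : ℝ => 4 / (3 - 2 * s) ^ 2) 1 := by
        refine ContinuousAt.div continuousAt_const (by fun_prop) (by norm_num)
      exact e1.mul (e3.mul (e2.mul continuousAt_const))
    have hv : (R ^ 2 + ε) ^ (1 : ℝ) * (4 / (3 - 2 * (1 : ℝ)) ^ 2 * (ε ^ (1 - (1 : ℝ)) * gsq β)) =
        4 * (R ^ 2 + ε) * gsq β := by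
      rw [Real.rpow_one, sub_self, Real.rpow_zero]
      norm_num
      ring
    have ht : Tendsto (fun s : ℝ => (R ^ 2 + ε) ^ s *
        (4 / (3 - 2 * s) ^ 2 * (ε ^ (1 - s) * gsq β))) (𝓝[>] 1)
        (𝓝 (4 * (R ^ 2 + ε) * gsq β)) := by
      rw [← hv]
      exact hc.tendsto.mono_left nhdsWithin_le_nhds
    refine ge_of_tendsto ht ?_
    have : Ioo (1 : ℝ) (3 / 2) ∈ 𝓝[>] (1 : ℝ) := Ioo_mem_nhdsGT (by norm_num)
    filter_upwards [this] with s hs
    exact step ε s hε hs.1 hs.2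
  have ht : Tendsto (fun ε : ℝ => 4 * (R ^ 2 + ε) * gsq β) (𝓝[>] 0)
      (𝓝 (4 * (R ^ 2 + 0) * gsq β)) := by
    have : Continuous (fun ε : ℝ => 4 * (R ^ 2 + ε) * gsq β) := by fun_prop
    exact (this.tendsto 0).mono_left nhdsWithin_le_nhds
  rw [add_zero] at ht
  refine ge_of_tendsto ht ?_
  filter_upwards [self_mem_nhdsWithin] with ε hε
  exact step2 ε hε

end Pool.Agent.Helper60.EC
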