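import Pool.Agent.Helper60.EC.P2
import Pool.Agent.Helper60.EC.P3
import Pool.Agent.Helper60.EC.Calc2

/-! Project EC, P6: interior estimates for harmonic functions -/

set_option autoImplicit false

open MeasureTheory Set Filter Topology
open scoped ENNReal ContDiff

noncomputable section

namespace Pool.Agent.Helper60.EC

open Pool.Agent.Helper52.NSE (E3 pd divg TestField)

/-- a radial kernel -/
theorem P6_kernel : ∃ φ Φ : E3 → ℝ, ContDiff ℝ ∞ φ ∧ ContDiff ℝ 1 Φ ∧
    (∀ z, 3 / 4 ≤ ‖z‖ → φ z = 0) ∧ (∀ z, 3 / 4 ≤ ‖z‖ → Φ z = 0) ∧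
    (∀ i z, D i Φ z = φ z * z i) ∧ 0 < ∫ z, φ z := by
  let b : ContDiffBump (0 : ℝ) := ⟨1 / 4, 1 / 2, by norm_num, by norm_num⟩
  have hbc : Continuous b := b.continuous
  let g : ℝ → ℝ := fun s => (1 / 2) * ∫ u in (1 : ℝ)..s, b u
  have hg : ∀ s, HasDerivAt g (b s / 2) s := by
    intro s
    have h1 : HasDerivAt (fun s => ∫ u in (1 : ℝ)..s, b u) (b s) s :=
      intervalIntegral.integral_hasDerivAt_right (hbc.intervalIntegrable _ _)
        (hbc.stronglyMeasurableAtFilter _ _) hbc.continuousAt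
    have h2 := h1.const_mul (1 / 2 : ℝ)
    have e : b s / 2 = 1 / 2 * b s := by ring
    rw [e]
    exact h2
  have hg1 : ContDiff ℝ 1 g := by
    rw [contDiff_one_iff_deriv]
    refine ⟨fun s => (hg s).differentiableAt, ?_⟩
    have e : deriv g = fun s => b s / 2 := by
      funext s; exact (hg s).deriv
    rw [e]
    exact hbc.div_const 2
  have hb0 : ∀ s : ℝ, 1 / 2 ≤ s → b s = 0 := by
    intro s hs
    refine b.zero_of_le_dist ?_
    rw [dist_zero_right, Real.norm_of_nonneg (by linarith)]
    exact hs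
  have hg0 : ∀ s : ℝ, 1 / 2 ≤ s → g s = 0 := by
    intro s hs
    change (1 / 2) * ∫ u in (1 : ℝ)..s, b u = 0
    have : ∫ u in (1 : ℝ)..s, b u = ∫ u in (1 : ℝ)..s, (0 : ℝ) := by
      refine intervalIntegral.integral_congr fun u hu => ?_
      refine hb0 u ?_
      rcases le_total 1 s with h | h
      · rw [uIcc_of_le h] at hu; linarith [hu.1]
      · rw [uIcc_of_ge h] at hu; linarith [hu.1]
    rw [this]
    simp
  have hsq : ∀ z : E3, 3 / 4 ≤ ‖z‖ → 1 / 2 ≤ ‖z‖ ^ 2 := by
    intro z hz
    nlinarith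
  have hφs : ContDiff ℝ ∞ (fun z : E3 => b (‖z‖ ^ 2)) := b.contDiff.comp (contDiff_norm_sq ℝ)
  refine ⟨fun z => b (‖z‖ ^ 2), fun z => g (‖z‖ ^ 2), hφs,
    hg1.comp (contDiff_norm_sq ℝ), fun z hz => hb0 _ (hsq z hz),
    fun z hz => hg0 _ (hsq z hz), ?_, ?_⟩
  · intro i z
    have h1 : HasFDerivAt (fun z : E3 => ‖z‖ ^ 2) (2 • (innerSL ℝ z)) z :=
      (hasStrictFDerivAt_norm_sq z).hasFDerivAt
    have h2 := (hg (‖z‖ ^ 2)).hasFDerivAt.comp z h1
    unfold D
    have h3 : fderiv ℝ (fun z : E3 => g (‖z‖ ^ 2)) z = _ := h2.fderiv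
    rw [h3]
    have h4 : (inner ℝ z (EuclideanSpace.single i (1 : ℝ)) : ℝ) = z i := by
      rw [EuclideanSpace.inner_single_right]
      simp
    simp [h4]
    ring
  · refine Continuous.integral_pos_of_hasCompactSupport_nonneg_nonzero (x := (0 : E3))
      hφs.continuous ?_ ?_ ?_
    · refine HasCompactSupport.intro (isCompact_closedBall (0 : E3) 1) fun y hy => ?_
      refine hb0 _ (hsq y ?_)
      rw [mem_closedBall_zero_iff, not_le] at hy
      linarith
    · intro z
      exact b.nonneg
    · have : b ((‖(0 : E3)‖) ^ 2) = 1 := by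
        refine b.one_of_mem_closedBall ?_
        rw [norm_zero, zero_pow two_ne_zero]
        exact Metric.mem_closedBall_self b.rIn_pos.le
      rw [this]
      exact one_ne_zero

section aux

variable {F : Type} [NormedAddCommGroup F] [InnerProductSpace ℝ F] [FiniteDimensional ℝ F]

theorem P6_comp {φ : E3 → ℝ} (h : ∀ z, 3 / 4 ≤ ‖z‖ → φ z = 0) : HasCompactSupport φ := by
  refine HasCompactSupport.intro (isCompact_closedBall (0 : E3) 1) fun y hy => ?_
  refine h _ ?_
  rw [mem_closedBall_zero_iff, not_le] at hy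
  linarith

theorem P6_comp_D {φ : E3 → ℝ} (h : HasCompactSupport φ) (i : Fin 3) :
    HasCompactSupport (D i φ) :=
  h.of_isClosed_subset (isClosed_tsupport _) (D_tsupport φ i)

/-- integration by parts, scalar times vector -/
theorem P6_ibp {Φ : E3 → ℝ} {h : E3 → F} (hΦ : ContDiff ℝ 1 Φ) (hh : ContDiff ℝ 1 h)
    (hc : HasCompactSupport Φ) (i : Fin 3) :
    ∫ z, D i Φ z • h z = -∫ z, Φ z • D i h z := by
  have h1 : ∫ z, D i (sm Φ h) z = 0 := by
    refine integral_D_eq_zero ?_ ?_ i
    · exact hΦ.smul hh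
    · exact hc.smul_right
  have e : ∀ z, D i (sm Φ h) z = D i Φ z • h z + Φ z • D i h z := fun z =>
    D_sm (hΦ.differentiable (by norm_num) z) (hh.differentiable (by norm_num) z) i
  simp_rw [e] at h1
  rw [integral_add] at h1
  · exact eq_neg_of_add_eq_zero_left h1
  · refine Continuous.integrable_of_hasCompactSupport ?_ ?_
    · exact (D_contDiff (m := 0) hΦ (by norm_num) i).continuous.smul hh.continuous
    · exact (P6_comp_D hc i).smul_right
  · refine Continuous.integrable_of_hasCompactSupport ?_ ?_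
    · exact hΦ.continuous.smul (D_contDiff (m := 0) hh (by norm_num) i).continuous
    · exact hc.smul_right

/-- the mean value property -/
theorem P6_mean {φ Φ : E3 → ℝ} (hφ : ContDiff ℝ ∞ φ) (hΦ : ContDiff ℝ 1 Φ)
    (hφ0 : ∀ z, 3 / 4 ≤ ‖z‖ → φ z = 0) (hΦ0 : ∀ z, 3 / 4 ≤ ‖z‖ → Φ z = 0)
    (hΦφ : ∀ i z, D i Φ z = φ z * z i) {h : E3 → F} (hh : ContDiff ℝ ∞ h) (x : E3) {r : ℝ}
    (hr : 0 < r) (hl : ∀ y, ‖y - x‖ < r → lap h y = 0) :
    ∫ z, φ z • h (x + r • z) = (∫ z, φ z) • h x := by
  have := FiniteDimensional.complete ℝ F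
  have hhd : Differentiable ℝ h := hh.differentiable (by simp)
  let F' : ℝ → E3 → F := fun s z => φ z • fderiv ℝ h (x + s • z) z
  have hF'c : Continuous (fun p : ℝ × E3 => F' p.1 p.2) := by
    have h1 : Continuous (fderiv ℝ h) := hh.continuous_fderiv (by simp)
    have h2 : Continuous (fun p : ℝ × E3 => x + p.1 • p.2) := by fun_prop
    exact (hφ.continuous.comp continuous_snd).smul ((h1.comp h2).clm_apply continuous_snd)
  have hJ : ∀ s, HasDerivAt (fun s => ∫ z, φ z • h (x + s • z)) (∫ z, F' s z) s := by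
    intro s
    obtain ⟨M, hM⟩ := ((isCompact_closedBall s 1).prod
      (isCompact_closedBall (0 : E3) 1)).exists_bound_of_continuousOn hF'c.continuousOn
    have hcont : ∀ s : ℝ, Continuous (fun z => φ z • h (x + s • z)) := by
      intro s
      have h2 : Continuous (fun z : E3 => x + s • z) := by fun_prop
      exact hφ.continuous.smul (hh.continuous.comp h2)
    have hcont' : Continuous (F' s) := hF'c.comp (continuous_const.prodMk continuous_id)
    refine (hasDerivAt_integral_of_dominated_loc_of_deriv_le (μ := volume)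
      (F := fun s z => φ z • h (x + s • z)) (F' := F') (x₀ := s)
      (s := Metric.closedBall s 1) (bound := indicator (Metric.closedBall (0 : E3) 1) fun _ => M)
      (Metric.closedBall_mem_nhds s zero_lt_one)
      (Eventually.of_forall fun y => (hcont y).aestronglyMeasurable) ?_
      hcont'.aestronglyMeasurable ?_ ?_ ?_).2
    · exact (hcont s).integrable_of_hasCompactSupport (P6_comp hφ0).smul_right
    · refine Eventually.of_forall fun z y hy => ?_
      by_cases hz : z ∈ Metric.closedBall (0 : E3) 1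
      · rw [indicator_of_mem hz]
        exact hM (y, z) ⟨hy, hz⟩
      · rw [indicator_of_notMem hz]
        have : φ z = 0 := by
          refine hφ0 z ?_
          rw [mem_closedBall_zero_iff, not_le] at hz
          linarith
        simp only [F', this, zero_smul, norm_zero, le_refl]
    · rw [integrable_indicator_iff Metric.isClosed_closedBall.measurableSet]
      exact integrableOn_const (measure_closedBall_lt_top).ne
    · refine Eventually.of_forall fun z y _ => ?_
      have h1 : HasDerivAt (fun s : ℝ => x + s • z) z y := by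
        have := ((hasDerivAt_id y).smul_const z).const_add x
        simpa using this
      have h2 := (hhd (x + y • z)).hasFDerivAt.comp_hasDerivAt y h1
      exact h2.const_smul (φ z)
  have hz : ∀ s ∈ uIcc (0 : ℝ) r, ∫ z, F' s z = 0 := by
    intro s hs
    rw [uIcc_of_le hr.le] at hs
    have e1 : ∀ z, F' s z = ∑ i, D i Φ z • D i h (x + s • z) := by
      intro z
      simp only [F']
      rw [fderiv_eq_sum, Finset.smul_sum]
      refine Finset.sum_congr rfl fun i _ => ?_
      rw [hΦφ, mul_smul]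
    have hDc : ∀ i, Continuous (D i Φ) := fun i => (D_contDiff (m := 0) hΦ (by norm_num) i).continuous
    have haff : ContDiff ℝ ∞ (fun z : E3 => x + s • z) :=
      contDiff_const.add (contDiff_id.const_smul s)
    simp_rw [e1]
    rw [integral_finsetSum]
    · have e2 : ∀ i : Fin 3, ∫ z, D i Φ z • D i h (x + s • z) =
          -∫ z, Φ z • (s • D i (D i h) (x + s • z)) := by
        intro i
        have hib := P6_ibp (h := fun z => D i h (x + s • z)) hΦ
          (((D_smooth hh i).comp haff).of_le (by norm_num)) (P6_comp hΦ0) i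
        rw [hib]
        congr 2
        funext z
        congr 1
        exact D_comp_affine ((D_smooth hh i).differentiable (by simp)) s x i z
      simp_rw [e2]
      rw [Finset.sum_neg_distrib, ← integral_finsetSum]
      · rw [neg_eq_zero]
        rw [← integral_zero E3 F]
        congr 1
        funext z
        rw [← Finset.smul_sum, ← Finset.smul_sum]
        by_cases hz : 3 / 4 ≤ ‖z‖
        · rw [hΦ0 z hz, zero_smul]
        · have hl' : lap h (x + s • z) = 0 := by
            refine hl _ ?_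
            rw [add_sub_cancel_left, norm_smul, Real.norm_of_nonneg hs.1]
            push Not at hz
            calc s * ‖z‖ ≤ r * ‖z‖ := mul_le_mul_of_nonneg_right hs.2 (norm_nonneg _)
              _ < r * 1 := mul_lt_mul_of_pos_left (by linarith) hr
              _ = r := mul_one r
          have hl'' : ∑ i, D i (D i h) (x + s • z) = 0 := hl'
          rw [hl'', smul_zero, smul_zero]
      · intro i _
        refine Continuous.integrable_of_hasCompactSupport ?_ (P6_comp hΦ0).smul_right
        exact hΦ.continuous.smul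
          (((D_smooth (D_smooth hh i) i).continuous.comp haff.continuous).const_smul s)
    · intro i _
      refine Continuous.integrable_of_hasCompactSupport ?_ ?_
      · exact (hDc i).smul ((D_smooth hh i).continuous.comp haff.continuous)
      · exact (P6_comp_D (P6_comp hΦ0) i).smul_right
  have hconst := constant_of_has_deriv_right_zero (f := fun s => ∫ z, φ z • h (x + s • z))
    (a := 0) (b := r) (fun s _ => (hJ s).continuousAt.continuousWithinAt)
    (fun s hs => by
      have h1 := hJ s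
      rw [hz s (by rw [uIcc_of_le hr.le]; exact ⟨hs.1, hs.2.le⟩)] at h1
      exact h1.hasDerivWithinAt) r ⟨hr.le, le_refl r⟩
  have e0 : ∫ z, φ z • h (x + (0 : ℝ) • z) = (∫ z, φ z) • h x := by
    simp only [zero_smul, add_zero]
    rw [integral_smul_const]
  rw [← e0]
  exact hconst

theorem P6_integrableOn {h : E3 → F} (hh : Continuous h) {U : Set E3}
    (hb : Bornology.IsBounded U) : IntegrableOn (fun y => ‖h y‖ ^ 2) U volume := by
  obtain ⟨R, hR⟩ := hb.subset_closedBall (0 : E3)
  exact ((hh.norm.pow 2).continuousOn.integrableOn_compact (isCompact_closedBall (0 : E3) R)).mono_set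
    hR

theorem P6_change {h : E3 → F} (x : E3) {δ : ℝ} (hδ : 0 < δ) :
    ∫ z in Metric.ball (0 : E3) 1, ‖h (x + δ • z)‖ ^ 2 =
      (δ ^ 3)⁻¹ * ∫ y in Metric.ball x δ, ‖h y‖ ^ 2 := by
  rw [← integral_indicator Metric.isOpen_ball.measurableSet,
    ← integral_indicator Metric.isOpen_ball.measurableSet]
  have e : ∀ z : E3, indicator (Metric.ball (0 : E3) 1) (fun z => ‖h (x + δ • z)‖ ^ 2) z =
      (fun y => indicator (Metric.ball x δ) (fun y => ‖h y‖ ^ 2) (x + y)) (δ • z) := by
    intro z
    have hiff : z ∈ Metric.ball (0 : E3) 1 ↔ x + δ • z ∈ Metric.ball x δ := by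
      rw [mem_ball_zero_iff, Metric.mem_ball, dist_eq_norm, add_sub_cancel_left, norm_smul,
        Real.norm_of_nonneg hδ.le]
      constructor
      · intro h; nlinarith
      · intro h
        by_contra hc
        push Not at hc
        nlinarith
    by_cases hz : z ∈ Metric.ball (0 : E3) 1
    · simp only [indicator_of_mem hz, indicator_of_mem (hiff.1 hz)]
    · simp only [indicator_of_notMem hz, indicator_of_notMem (fun h => hz (hiff.2 h))]
  rw [integral_congr_ae (Eventually.of_forall e)]
  rw [Measure.integral_comp_smul_of_nonneg volume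
      (fun y => indicator (Metric.ball x δ) (fun y => ‖h y‖ ^ 2) (x + y)) δ (hR := hδ.le),
    integral_add_left_eq_self (μ := (volume : Measure E3))
      (indicator (Metric.ball x δ) fun y => ‖h y‖ ^ 2) x]
  rw [finrank_euclideanSpace_fin, smul_eq_mul]

theorem P6_bound {k : E3 → ℝ} (hk : Continuous k) (hk0 : ∀ z, 1 ≤ ‖z‖ → k z = 0)
    {h : E3 → F} (hh : Continuous h) {U : Set E3} (hb : Bornology.IsBounded U)
    (x : E3) {δ : ℝ} (hδ : 0 < δ) (hU : Metric.ball x δ ⊆ U) :
    ‖∫ z, k z • h (x + δ • z)‖ ≤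
      Real.sqrt ((δ ^ 3)⁻¹) * Real.sqrt (sq k) * Real.sqrt (sqOn U h) := by
  have haff : Continuous (fun z : E3 => x + δ • z) := by fun_prop
  have hcomp : HasCompactSupport k := by
    refine HasCompactSupport.intro (isCompact_closedBall (0 : E3) 1) fun y hy => ?_
    refine hk0 _ ?_
    rw [mem_closedBall_zero_iff, not_le] at hy
    exact hy.le
  let f : E3 → ℝ := fun z => ‖h (x + δ • z)‖
  let g : E3 → ℝ := fun z => ‖k z‖
  have hfc : Continuous f := (hh.comp haff).norm
  have hgc : Continuous g := hk.norm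
  have hf : MemLp f 2 (volume.restrict (Metric.ball (0 : E3) 1)) := by
    rw [memLp_two_iff_integrable_sq_norm hfc.aestronglyMeasurable]
    exact P6_integrableOn hfc Metric.isBounded_ball
  have hg : MemLp g 2 volume := hgc.memLp_of_hasCompactSupport hcomp.norm
  have hg0 : ∀ z, z ∉ Metric.ball (0 : E3) 1 → g z = 0 := by
    intro z hz
    rw [mem_ball_zero_iff, not_lt] at hz
    simp only [g, hk0 z hz, norm_zero]
  have h1 := ip_le_on Metric.isOpen_ball.measurableSet hf hg hg0
  have h2 : ‖∫ z, k z • h (x + δ • z)‖ ≤ ip f g := by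
    refine (norm_integral_le_integral_norm _).trans (le_of_eq ?_)
    unfold ip
    congr 1
    funext z
    rw [norm_smul]
    simp only [f, g]
    rfl
  have h3 : sqOn (Metric.ball (0 : E3) 1) f ≤ (δ ^ 3)⁻¹ * sqOn U h := by
    unfold sqOn
    simp only [f, norm_norm]
    rw [P6_change x hδ]
    refine mul_le_mul_of_nonneg_left ?_ (by positivity)
    exact setIntegral_mono_set (P6_integrableOn hh hb)
      (Eventually.of_forall fun y => by positivity) hU.eventuallyLE
  have h4 : sq g = sq k := by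
    unfold sq
    simp only [g, norm_norm]
  calc ‖∫ z, k z • h (x + δ • z)‖ ≤ ip f g := h2
    _ ≤ |ip f g| := le_abs_self _
    _ ≤ Real.sqrt (sqOn (Metric.ball (0 : E3) 1) f) * Real.sqrt (sq g) := h1
    _ ≤ Real.sqrt ((δ ^ 3)⁻¹ * sqOn U h) * Real.sqrt (sq k) := by
        rw [h4]
        exact mul_le_mul_of_nonneg_right (Real.sqrt_le_sqrt h3) (Real.sqrt_nonneg _)
    _ = Real.sqrt ((δ ^ 3)⁻¹) * Real.sqrt (sq k) * Real.sqrt (sqOn U h) := by
        rw [Real.sqrt_mul (by positivity)]
        ring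

theorem P6_lap_D {h : E3 → F} (hh : ContDiff ℝ ∞ h) {U : Set E3} (hU : IsOpen U)
    (hl : ∀ x ∈ U, lap h x = 0) (i : Fin 3) : ∀ x ∈ U, lap (D i h) x = 0 := by
  intro x hx
  have e1 : ∀ j, D j (D j (D i h)) x = D i (D j (D j h)) x := by
    intro j
    have h1 : D j (D i h) = D i (D j h) := by
      funext y
      exact D_comm (hh.of_le (by norm_cast)) j i y
    rw [h1]
    exact D_comm ((D_smooth hh j).of_le (by norm_cast)) j i x
  have e2 : lap (D i h) x = ∑ j, D i (D j (D j h)) x := by
    unfold lap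
    exact Finset.sum_congr rfl fun j _ => e1 j
  have e3 : D i (lap h) x = ∑ j, D i (D j (D j h)) x := by
    unfold D lap
    rw [fderiv_fun_sum]
    · simp only [_root_.sum_apply]
      rfl
    · intro j _
      exact (D_smooth (D_smooth hh j) j).differentiable (by simp) x
  rw [e2, ← e3]
  have h4 : lap h =ᶠ[𝓝 x] fun _ => (0 : F) := by
    filter_upwards [hU.mem_nhds hx] with y hy
    exact hl y hy
  rw [D_congr h4]
  simp [D]

end aux

/-- interior estimates: the values and the first derivatives of a harmonic function are bounded by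
its `L²` norm -/
theorem interior (F : Type) [NormedAddCommGroup F] [InnerProductSpace ℝ F]
    [FiniteDimensional ℝ F] (U K : Set E3) (hU : IsOpen U) (hb : Bornology.IsBounded U)
    (hK : IsCompact K) (hKU : K ⊆ U) :
    ∃ C : ℝ, 0 ≤ C ∧ ∀ h : E3 → F, ContDiff ℝ ∞ h → (∀ x ∈ U, lap h x = 0) →
      ∀ x ∈ K, ‖h x‖ ≤ C * Real.sqrt (sqOn U h) ∧ ∀ i, ‖D i h x‖ ≤ C * Real.sqrt (sqOn U h) := by
  obtain ⟨φ, Φ, hφ, hΦ, hφ0, hΦ0, hΦφ, hpos⟩ := P6_kernel
  obtain ⟨δ, hδ, hthick⟩ := hK.exists_thickening_subset_open hU hKU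
  have hball : ∀ x ∈ K, Metric.ball x δ ⊆ U := fun x hx =>
    (Metric.ball_subset_thickening hx δ).trans hthick
  set I := ∫ z, φ z with hI
  let A : ℝ := Real.sqrt ((δ ^ 3)⁻¹) * Real.sqrt (sq φ)
  let B : Fin 3 → ℝ := fun i => Real.sqrt ((δ ^ 3)⁻¹) * Real.sqrt (sq (D i φ))
  have hA : 0 ≤ A := by positivity
  have hB : ∀ i, 0 ≤ B i := fun i => by positivity
  have hBs : ∀ i, B i ≤ ∑ i, B i := fun i =>
    Finset.single_le_sum (f := B) (fun j _ => hB j) (Finset.mem_univ i)
  have hBn : 0 ≤ ∑ i, B i := Finset.sum_nonneg fun i _ => hB i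
  have hφ1 : ∀ z, 1 ≤ ‖z‖ → φ z = 0 := fun z hz => hφ0 z (by linarith)
  have hDφ1 : ∀ i z, 1 ≤ ‖z‖ → D i φ z = 0 := by
    intro i z hz
    have h1 : φ =ᶠ[𝓝 z] fun _ => (0 : ℝ) := by
      have ho : {y : E3 | 3 / 4 < ‖y‖} ∈ 𝓝 z :=
        (isOpen_lt continuous_const continuous_norm).mem_nhds (by
          change 3 / 4 < ‖z‖
          linarith)
      filter_upwards [ho] with y hy
      exact hφ0 y (le_of_lt hy)
    rw [D_congr h1]
    simp [D]
  refine ⟨(A + δ⁻¹ * ∑ i, B i) / I, by positivity, fun h hh hl x hx => ?_⟩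
  have hmean : ∀ y, ‖y - x‖ < δ → y ∈ U := by
    intro y hy
    exact hball x hx (by rwa [Metric.mem_ball, dist_eq_norm])
  have hS : 0 ≤ Real.sqrt (sqOn U h) := Real.sqrt_nonneg _
  constructor
  · have h1 := P6_mean hφ hΦ hφ0 hΦ0 hΦφ hh x hδ fun y hy => hl y (hmean y hy)
    have h2 := P6_bound hφ.continuous hφ1 hh.continuous hb x hδ (hball x hx)
    rw [h1, norm_smul, Real.norm_of_nonneg hpos.le] at h2
    have h3 : ‖h x‖ ≤ A * Real.sqrt (sqOn U h) / I := by
      rw [le_div_iff₀ hpos, mul_comm]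
      exact h2
    refine h3.trans ?_
    rw [div_mul_eq_mul_div]
    refine div_le_div_of_nonneg_right (mul_le_mul_of_nonneg_right ?_ hS) hpos.le
    have : 0 ≤ δ⁻¹ * ∑ i, B i := by positivity
    linarith
  · intro i
    have h1 := P6_mean hφ hΦ hφ0 hΦ0 hΦφ (D_smooth hh i) x hδ fun y hy =>
      P6_lap_D hh hU hl i y (hmean y hy)
    have haff : ContDiff ℝ ∞ (fun z : E3 => x + δ • z) :=
      contDiff_const.add (contDiff_id.const_smul δ)
    have h2 : ∫ z, φ z • D i h (x + δ • z) = -(δ⁻¹ • ∫ z, D i φ z • h (x + δ • z)) := by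
      have h3 := P6_ibp (h := fun z => h (x + δ • z)) (hφ.of_le (by norm_num))
        ((hh.comp haff).of_le (by norm_num)) (P6_comp hφ0) i
      have h4 : ∀ z, D i (fun z => h (x + δ • z)) z = δ • D i h (x + δ • z) := fun z =>
        D_comp_affine (hh.differentiable (by simp)) δ x i z
      simp_rw [h4] at h3
      rw [h3, smul_neg, neg_neg, ← integral_smul]
      congr 1
      funext z
      rw [smul_smul, smul_smul]
      congr 1
      field_simp
    have h5 := P6_bound (D_smooth hφ i).continuous (hDφ1 i) hh.continuous hb x hδ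
      (hball x hx)
    rw [h2] at h1
    have h6 : I * ‖D i h x‖ ≤ δ⁻¹ * (B i * Real.sqrt (sqOn U h)) := by
      have h7 : ‖I • D i h x‖ = I * ‖D i h x‖ := by
        rw [norm_smul, Real.norm_of_nonneg hpos.le]
      rw [← h7, ← h1, norm_neg, norm_smul, Real.norm_of_nonneg (inv_pos.2 hδ).le]
      exact mul_le_mul_of_nonneg_left h5 (inv_pos.2 hδ).le
    have h8 : ‖D i h x‖ ≤ (δ⁻¹ * (B i * Real.sqrt (sqOn U h))) / I := by
      rw [le_div_iff₀ hpos, mul_comm]
      exact h6
    refine h8.trans ?_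
    rw [div_mul_eq_mul_div, ← mul_assoc]
    refine div_le_div_of_nonneg_right (mul_le_mul_of_nonneg_right ?_ hS) hpos.le
    have h9 : δ⁻¹ * B i ≤ δ⁻¹ * ∑ i, B i := mul_le_mul_of_nonneg_left (hBs i) (inv_pos.2 hδ).le
    linarith

end Pool.Agent.Helper60.EC
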