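import Pool.Agent.Helper60.EC.Z0a

/-! Project EC, Z0b: basic properties of Zf -/

set_option autoImplicit false

open MeasureTheory Set Filter Topology
open scoped ENNReal ContDiff

noncomputable section

namespace Pool.Agent.Helper60.EC

open Pool.Agent.Helper52.NSE (E3 pd divg TestField)

variable {χ : E3 → ℝ} {w w' ψ : E3 → E3}

theorem Z0b_int {f g : E3 → E3} (hf : MemLp f 2 volume) (hg : MemLp g 2 volume) :
    Integrable (fun x => (inner ℝ (f x) (g x) : ℝ)) volume := by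
  have h1 : Integrable (fun x => ‖f x‖ ^ 2 + ‖g x‖ ^ 2) volume :=
    (hf.integrable_norm_pow (by norm_num)).add (hg.integrable_norm_pow (by norm_num))
  refine h1.mono' (hf.1.inner hg.1) (Eventually.of_forall fun x => ?_)
  refine (norm_inner_le_norm _ _).trans ?_
  nlinarith [sq_nonneg (‖f x‖ - ‖g x‖), sq_nonneg (‖f x‖), sq_nonneg (‖g x‖)]

theorem Z0b_ip_add {f g h : E3 → E3} (hf : MemLp f 2 volume) (hg : MemLp g 2 volume)
    (hh : MemLp h 2 volume) : ip (fun x => f x + g x) h = ip f h + ip g h := by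
  unfold ip
  rw [← integral_add (Z0b_int hf hh) (Z0b_int hg hh)]
  congr 1
  funext x
  rw [inner_add_left]

theorem Z0b_ip_smul (c : ℝ) (f g : E3 → E3) : ip f (fun x => c • g x) = c * ip f g := by
  unfold ip
  rw [← integral_const_mul]
  congr 1
  funext x
  rw [inner_smul_right]

theorem Z0b_curl_smul (hχ : Cc χ) (hψ : Cc ψ) (c : ℝ) :
    curl (sm χ (fun x => c • ψ x)) = fun x => c • curl (sm χ ψ) x := by
  funext x
  have e : sm χ (fun x => c • ψ x) = fun y => c • sm χ ψ y := by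
    funext y
    unfold sm
    rw [smul_comm]
  rw [e]
  exact curl_const_smul ((cc_sm hχ hψ.smooth).smooth.differentiable (by norm_num) x) c

theorem Z0b_gsq_smul (hψ : Cc ψ) (c : ℝ) : gsq (fun x => c • ψ x) = c ^ 2 * gsq ψ := by
  unfold gsq
  rw [← integral_const_mul]
  congr 1
  funext x
  rw [Finset.mul_sum]
  refine Finset.sum_congr rfl fun i _ => ?_
  rw [D_const_smul (hψ.smooth.differentiable (by norm_num) x), norm_smul, mul_pow,
    Real.norm_eq_abs, sq_abs]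

theorem Z0b_bd (hχ : Cc χ) (hw : MemLp w 2 volume) : ∃ M : ℝ, ∀ ψ : E3 → E3, Cc ψ →
    |ip w (curl (sm χ ψ))| ≤ M * Real.sqrt (gsq ψ) := by
  obtain ⟨R, K, hR, _, hcut⟩ := cut_of_cc hχ 0
  obtain ⟨C, hC, h⟩ := sq_curl_sm_le K
  refine ⟨Real.sqrt (sq w) * Real.sqrt C, fun ψ hψ => ?_⟩
  have h1 := (h 0 R χ hR hcut ψ hψ.smooth (decay_of_cc hψ)).1
  refine (ip_le hw (cc_memLp (cc_curl (cc_sm hχ hψ.smooth)) 2)).trans ?_
  rw [mul_assoc, ← Real.sqrt_mul hC]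
  exact mul_le_mul_of_nonneg_left (Real.sqrt_le_sqrt h1) (Real.sqrt_nonneg _)

theorem Z0b_bddAbove (hχ : Cc χ) (hw : MemLp w 2 volume) :
    BddAbove {z : ℝ | ∃ ψ : E3 → E3, Cc ψ ∧ gsq ψ ≤ 1 ∧ z = ip w (curl (sm χ ψ))} := by
  obtain ⟨M, hM⟩ := Z0b_bd hχ hw
  refine ⟨|M|, ?_⟩
  rintro z ⟨ψ, hψ, h1, rfl⟩
  refine (le_abs_self _).trans ((hM ψ hψ).trans ?_)
  have h2 : Real.sqrt (gsq ψ) ≤ 1 := by rw [Real.sqrt_le_one]; exact h1
  calc M * Real.sqrt (gsq ψ) ≤ |M| * Real.sqrt (gsq ψ) :=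
        mul_le_mul_of_nonneg_right (le_abs_self _) (Real.sqrt_nonneg _)
    _ ≤ |M| * 1 := mul_le_mul_of_nonneg_left h2 (abs_nonneg _)
    _ = |M| := mul_one _

theorem Z0b_zero_mem (χ : E3 → ℝ) (hχ : Cc χ) (w : E3 → E3) :
    (0 : ℝ) ∈ {z : ℝ | ∃ ψ : E3 → E3, Cc ψ ∧ gsq ψ ≤ 1 ∧ z = ip w (curl (sm χ ψ))} := by
  have h0 : Cc (fun _ : E3 => (0 : E3)) := ⟨contDiff_const, HasCompactSupport.zero⟩
  have e : (fun _ : E3 => (0 : E3)) = fun x => (0 : ℝ) • (fun _ : E3 => (0 : E3)) x := by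
    funext x
    simp
  refine ⟨fun _ => 0, h0, ?_, ?_⟩
  · rw [e, Z0b_gsq_smul h0]
    norm_num
  · rw [e, Z0b_curl_smul hχ h0, Z0b_ip_smul, zero_mul]

theorem Zf_pair (hχ : Cc χ) (hw : MemLp w 2 volume) (hψ : Cc ψ) :
    |ip w (curl (sm χ ψ))| ≤ Zf χ w * Real.sqrt (gsq ψ) := by
  rcases (gsq_nonneg ψ).eq_or_lt with h0 | h0
  · obtain ⟨M, hM⟩ := Z0b_bd hχ hw
    refine (hM ψ hψ).trans ?_
    rw [← h0, Real.sqrt_zero, mul_zero, mul_zero]
  · have hs : 0 < Real.sqrt (gsq ψ) := Real.sqrt_pos.mpr h0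
    have key : ∀ c : ℝ, c ^ 2 * gsq ψ = 1 → c * ip w (curl (sm χ ψ)) ≤ Zf χ w := by
      intro c hc
      apply le_csSup (Z0b_bddAbove hχ hw)
      refine ⟨fun x => c • ψ x, cc_const_smul hψ c, ?_, ?_⟩
      · rw [Z0b_gsq_smul hψ, hc]
      · rw [Z0b_curl_smul hχ hψ, Z0b_ip_smul]
    have hc : ((Real.sqrt (gsq ψ))⁻¹) ^ 2 * gsq ψ = 1 := by
      rw [inv_pow, Real.sq_sqrt h0.le, inv_mul_cancel₀ h0.ne']
    have h1 := key _ hc
    have h2 := key (-(Real.sqrt (gsq ψ))⁻¹) (by rw [neg_sq]; exact hc)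
    rw [inv_mul_le_iff₀ hs] at h1
    rw [neg_mul_comm, inv_mul_le_iff₀ hs] at h2
    rw [abs_le, mul_comm (Zf χ w)]
    constructor <;> linarith

theorem Zf_le_of_forall (hχ : Cc χ) (hw : MemLp w 2 volume) {z : ℝ} (hz : 0 ≤ z)
    (h : ∀ ψ : E3 → E3, Cc ψ → ip w (curl (sm χ ψ)) ≤ z * Real.sqrt (gsq ψ)) : Zf χ w ≤ z := by
  apply csSup_le ⟨0, Z0b_zero_mem χ hχ w⟩
  rintro y ⟨ψ, hψ, h1, rfl⟩
  refine (h ψ hψ).trans ?_
  have h2 : Real.sqrt (gsq ψ) ≤ 1 := by rw [Real.sqrt_le_one]; exact h1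
  exact mul_le_of_le_one_right hz h2

theorem Zf_nonneg (χ : E3 → ℝ) (hχ : Cc χ) (hw : MemLp w 2 volume) : 0 ≤ Zf χ w :=
  le_csSup (Z0b_bddAbove hχ hw) (Z0b_zero_mem χ hχ w)

theorem Z0b_curl_zero (χ : E3 → ℝ) (ψ : E3 → E3) {x : E3} (hx : x ∉ tsupport χ) :
    curl (sm χ ψ) x = 0 := by
  have h0 : χ =ᶠ[𝓝 x] 0 := notMem_tsupport_iff_eventuallyEq.mp hx
  have h1 : sm χ ψ =ᶠ[𝓝 x] (fun _ => (0 : E3)) := by
    filter_upwards [h0] with y hy
    unfold sm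
    rw [hy]
    simp
  have h2 : ∀ i, D i (sm χ ψ) x = 0 := by
    intro i
    rw [D_congr h1 i]
    unfold D
    simp
  apply Calc3b_ext
  · rw [Calc3b_curl0, h2, h2]; simp
  · rw [Calc3b_curl1, h2, h2]; simp
  · rw [Calc3b_curl2, h2, h2]; simp

theorem Z0b_ball (a : E3) {R : ℝ} (hR : 0 < R) (w : E3 → E3) :
    sqOn (Metric.closedBall a R) w = sqOn (Metric.ball a R) w := by
  unfold sqOn
  apply setIntegral_congr_set
  have h : volume (Metric.sphere a R) = 0 := Measure.addHaar_sphere_of_ne_zero _ _ hR.ne'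
  rw [← Metric.ball_union_sphere]
  exact union_ae_eq_left_of_ae_eq_empty (ae_eq_empty.mpr h)

theorem Z0b_tsupport_subset {a : E3} {R K : ℝ} (hχ : Cut a R K χ) :
    tsupport χ ⊆ Metric.closedBall a R := by
  apply closure_minimal _ Metric.isClosed_closedBall
  intro x hx
  rw [Metric.mem_closedBall, dist_eq_norm]
  by_contra h
  push Not at h
  exact hx (hχ.supp x h.le)

theorem Z0b_le {U : Set E3} (hU : MeasurableSet U) (hχ : Cc χ) (hsub : tsupport χ ⊆ U)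
    {a : E3} {R K C : ℝ} (hR : 0 < R) (hcut : Cut a R K χ) (hC : 0 ≤ C)
    (h : ∀ (a : E3) (R : ℝ) (χ : E3 → ℝ), 0 < R →
      Cut a R K χ → ∀ ψ : E3 → E3, ContDiff ℝ ∞ ψ → Decay ψ →
      sq (curl (sm χ ψ)) ≤ C * gsq ψ ∧ gsq (sm χ ψ) ≤ C * gsq ψ) (hw : MemLp w 2 volume) :
    Zf χ w ≤ Real.sqrt C * Real.sqrt (sqOn U w) := by
  apply Zf_le_of_forall hχ hw (by positivity)
  intro ψ hψ
  have h1 := (h a R χ hR hcut ψ hψ.smooth (decay_of_cc hψ)).1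
  have h2 := ip_le_on hU (hw.restrict U) (cc_memLp (cc_curl (cc_sm hχ hψ.smooth)) 2)
    (fun x hx => Z0b_curl_zero χ ψ (fun h => hx (hsub h)))
  refine (le_abs_self _).trans (h2.trans ?_)
  have h3 : Real.sqrt (sq (curl (sm χ ψ))) ≤ Real.sqrt C * Real.sqrt (gsq ψ) := by
    rw [← Real.sqrt_mul hC]
    exact Real.sqrt_le_sqrt h1
  calc Real.sqrt (sqOn U w) * Real.sqrt (sq (curl (sm χ ψ)))
      ≤ Real.sqrt (sqOn U w) * (Real.sqrt C * Real.sqrt (gsq ψ)) :=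
        mul_le_mul_of_nonneg_left h3 (Real.sqrt_nonneg _)
    _ = Real.sqrt C * Real.sqrt (sqOn U w) * Real.sqrt (gsq ψ) := by ring

theorem Zf_le (K : ℝ) : ∃ C : ℝ, 0 ≤ C ∧ ∀ (a : E3) (R : ℝ) (χ : E3 → ℝ), 0 < R →
    Cut a R K χ → ∀ w : E3 → E3, MemLp w 2 volume →
      Zf χ w ≤ C * Real.sqrt (sqOn (Metric.ball a R) w) := by
  obtain ⟨C, hC, h⟩ := sq_curl_sm_le K
  refine ⟨Real.sqrt C, Real.sqrt_nonneg _, fun a R χ hR hcut w hw => ?_⟩
  rw [← Z0b_ball a hR]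
  exact Z0b_le Metric.isClosed_closedBall.measurableSet hcut.cc (Z0b_tsupport_subset hcut) hR hcut
    hC h hw

theorem Zf_le_tsupport (hχ : Cc χ) : ∃ C : ℝ, 0 ≤ C ∧ ∀ w : E3 → E3, MemLp w 2 volume →
    Zf χ w ≤ C * Real.sqrt (sqOn (tsupport χ) w) := by
  obtain ⟨R, K, hR, _, hcut⟩ := cut_of_cc hχ 0
  obtain ⟨C, hC, h⟩ := sq_curl_sm_le K
  exact ⟨Real.sqrt C, Real.sqrt_nonneg _, fun w hw =>
    Z0b_le (isClosed_tsupport χ).measurableSet hχ subset_rfl hR hcut hC h hw⟩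

theorem Zf_add_le (hχ : Cc χ) (hw : MemLp w 2 volume) (hw' : MemLp w' 2 volume) :
    Zf χ (fun x => w x + w' x) ≤ Zf χ w + Zf χ w' := by
  apply Zf_le_of_forall hχ (hw.add hw') (add_nonneg (Zf_nonneg χ hχ hw) (Zf_nonneg χ hχ hw'))
  intro ψ hψ
  have e := Z0b_ip_add hw hw' (cc_memLp (cc_curl (cc_sm hχ hψ.smooth)) 2)
  refine (le_of_eq e).trans ?_
  rw [add_mul]
  exact add_le_add ((le_abs_self _).trans (Zf_pair hχ hw hψ))
    ((le_abs_self _).trans (Zf_pair hχ hw' hψ))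

theorem Zf_abs_sub_le (K : ℝ) : ∃ C : ℝ, 0 ≤ C ∧ ∀ (a : E3) (R : ℝ) (χ : E3 → ℝ), 0 < R →
    Cut a R K χ → ∀ w w' : E3 → E3, MemLp w 2 volume → MemLp w' 2 volume →
      |Zf χ w - Zf χ w'| ≤ C * Real.sqrt (sqOn (Metric.ball a R) (fun x => w x - w' x)) := by
  obtain ⟨C, hC, h⟩ := Zf_le K
  refine ⟨C, hC, fun a R χ hR hcut w w' hw hw' => ?_⟩
  have key : ∀ w w' : E3 → E3, MemLp w 2 volume → MemLp w' 2 volume →
      Zf χ w - Zf χ w' ≤ C * Real.sqrt (sqOn (Metric.ball a R) (fun x => w x - w' x)) := by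
    intro w w' hw hw'
    have h1 := Zf_add_le hcut.cc hw' (hw.sub hw')
    have e : (fun x => w' x + (w - w') x) = w := by
      funext x
      simp
    rw [e] at h1
    have h2 := h a R χ hR hcut (w - w') (hw.sub hw')
    have h3 : sqOn (Metric.ball a R) (w - w') = sqOn (Metric.ball a R) (fun x => w x - w' x) := rfl
    rw [h3] at h2
    linarith
  rw [abs_le]
  constructor
  · have h1 := key w' w hw' hw
    have h2 : sqOn (Metric.ball a R) (fun x => w' x - w x)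
        = sqOn (Metric.ball a R) (fun x => w x - w' x) := by
      unfold sqOn
      congr 1
      funext x
      rw [norm_sub_rev]
    rw [h2] at h1
    linarith
  · exact key w w' hw hw'

end Pool.Agent.Helper60.EC
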