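import Pool.Agent.Helper60.EC.P1
import Pool.Agent.Helper60.EC.P3
import Pool.Agent.Helper60.EC.P5

/-! Project EC, Z0a: cutoffs -/

set_option autoImplicit false

open MeasureTheory Set Filter Topology
open scoped ENNReal ContDiff

noncomputable section

namespace Pool.Agent.Helper60.EC

open Pool.Agent.Helper52.NSE (E3 pd divg TestField)

variable {χ : E3 → ℝ} {w w' ψ : E3 → E3}

theorem cut_of_cc (hχ : Cc χ) (a : E3) : ∃ R K : ℝ, 0 < R ∧ 0 < K ∧ Cut a R K χ := by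
  obtain ⟨C0, hC0, h0⟩ := Calc1c_bound χ hχ.smooth.continuous hχ.comp
  have h1 : ∀ i : Fin 3, ∃ C : ℝ, 0 ≤ C ∧ ∀ x, |D i χ x| ≤ C := fun i =>
    Calc1c_bound (D i χ) (cc_D hχ i).smooth.continuous (cc_D hχ i).comp
  have h2 : ∀ i j : Fin 3, ∃ C : ℝ, 0 ≤ C ∧ ∀ x, |D i (D j χ) x| ≤ C := fun i j =>
    Calc1c_bound (D i (D j χ)) (cc_D (cc_D hχ j) i).smooth.continuous (cc_D (cc_D hχ j) i).comp
  choose C1 hC1 h1 using h1
  choose C2 hC2 h2 using h2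
  obtain ⟨R0, hR0⟩ := hχ.comp.isCompact.isBounded.subset_closedBall a
  set R : ℝ := max R0 0 + 1 with hR
  have hRpos : 0 < R := by
    have := le_max_right R0 0
    linarith
  have hS1 : 0 ≤ ∑ i, C1 i := Finset.sum_nonneg fun i _ => hC1 i
  have hS2 : 0 ≤ ∑ i, ∑ j, C2 i j :=
    Finset.sum_nonneg fun i _ => Finset.sum_nonneg fun j _ => hC2 i j
  refine ⟨R, 1 + C0 + (∑ i, C1 i) * R + (∑ i, ∑ j, C2 i j) * R ^ 2, hRpos, by positivity,
    ⟨hχ, ?_, ?_, ?_, ?_⟩⟩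
  · intro x hx
    by_contra hne
    have hxs : x ∈ tsupport χ := subset_tsupport χ hne
    have := hR0 hxs
    rw [Metric.mem_closedBall, dist_eq_norm] at this
    have h3 := le_max_left R0 0
    linarith
  · intro x
    refine (h0 x).trans ?_
    have : 0 ≤ (∑ i, C1 i) * R + (∑ i, ∑ j, C2 i j) * R ^ 2 := by positivity
    linarith
  · intro i x
    rw [le_div_iff₀ hRpos]
    have h3 : |D i χ x| ≤ ∑ i, C1 i := (h1 i x).trans
      (Finset.single_le_sum (f := fun i => C1 i) (fun i _ => hC1 i) (Finset.mem_univ i))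
    have h4 := mul_le_mul_of_nonneg_right h3 hRpos.le
    have : 0 ≤ 1 + C0 + (∑ i, ∑ j, C2 i j) * R ^ 2 := by positivity
    linarith
  · intro i j x
    rw [le_div_iff₀ (by positivity)]
    have h3 : |D i (D j χ) x| ≤ ∑ i, ∑ j, C2 i j := (h2 i j x).trans
      ((Finset.single_le_sum (f := fun j => C2 i j) (fun j _ => hC2 i j) (Finset.mem_univ j)).trans
      (Finset.single_le_sum (f := fun i => ∑ j, C2 i j)
        (fun i _ => Finset.sum_nonneg fun j _ => hC2 i j) (Finset.mem_univ i)))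
    have h4 := mul_le_mul_of_nonneg_right h3 (sq_nonneg R)
    have : 0 ≤ 1 + C0 + (∑ i, C1 i) * R := by positivity
    linarith

theorem Z0a_D_zero {a : E3} {R K : ℝ} (hχ : Cut a R K χ) (hR : 0 < R) (i : Fin 3) (x : E3)
    (hx : x ∉ Metric.ball a (2 * R)) : D i χ x = 0 := by
  rw [Metric.mem_ball, not_lt, dist_eq_norm] at hx
  have h1 : χ =ᶠ[𝓝 x] fun _ => (0 : ℝ) := by
    have hc : ContinuousAt (fun y : E3 => ‖y - a‖) x := by fun_prop
    have h2 : ∀ᶠ y in 𝓝 x, R < ‖y - a‖ := hc.eventually (lt_mem_nhds (by linarith))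
    filter_upwards [h2] with y hy
    exact hχ.supp y hy.le
  rw [D_congr h1 i]
  unfold D
  simp

/-- pointwise bound -/
theorem Z0a_pt {a : E3} {R K : ℝ} (hχ : Cut a R K χ) (hR : 0 < R) (hψ : ContDiff ℝ ∞ ψ)
    (x : E3) : ∑ i, ‖D i (sm χ ψ) x‖ ^ 2 ≤
      6 * (K / R) ^ 2 * (Metric.ball a (2 * R)).indicator (fun y => ‖ψ y‖ ^ 2) x
        + 2 * K ^ 2 * ∑ i, ‖D i ψ x‖ ^ 2 := by
  have hi : ∀ i, ‖D i (sm χ ψ) x‖ ^ 2 ≤
      2 * (K / R) ^ 2 * (Metric.ball a (2 * R)).indicator (fun y => ‖ψ y‖ ^ 2) x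
        + 2 * K ^ 2 * ‖D i ψ x‖ ^ 2 := by
    intro i
    rw [D_sm (hχ.cc.smooth.differentiable (by simp) x) (hψ.differentiable (by simp) x)]
    have h1 : ‖D i χ x • ψ x + χ x • D i ψ x‖ ≤ |D i χ x| * ‖ψ x‖ + |χ x| * ‖D i ψ x‖ := by
      refine (norm_add_le _ _).trans ?_
      rw [norm_smul, norm_smul, Real.norm_eq_abs, Real.norm_eq_abs]
    have h2 : ‖D i χ x • ψ x + χ x • D i ψ x‖ ^ 2 ≤
        2 * (|D i χ x| * ‖ψ x‖) ^ 2 + 2 * (|χ x| * ‖D i ψ x‖) ^ 2 := by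
      have h3 := pow_le_pow_left₀ (norm_nonneg _) h1 2
      nlinarith [sq_nonneg (|D i χ x| * ‖ψ x‖ - |χ x| * ‖D i ψ x‖)]
    refine h2.trans (add_le_add ?_ ?_)
    · by_cases hx : x ∈ Metric.ball a (2 * R)
      · rw [indicator_of_mem hx, mul_pow, mul_assoc]
        refine mul_le_mul_of_nonneg_left ?_ (by norm_num)
        refine mul_le_mul_of_nonneg_right ?_ (sq_nonneg _)
        exact pow_le_pow_left₀ (abs_nonneg _) (hχ.d1 i x) 2
      · rw [indicator_of_notMem hx, Z0a_D_zero hχ hR i x hx]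
        simp
    · rw [mul_pow, mul_assoc]
      refine mul_le_mul_of_nonneg_left ?_ (by norm_num)
      refine mul_le_mul_of_nonneg_right ?_ (sq_nonneg _)
      exact pow_le_pow_left₀ (abs_nonneg _) (hχ.bd x) 2
  refine (Finset.sum_le_sum fun i _ => hi i).trans (le_of_eq ?_)
  rw [Finset.sum_add_distrib, Finset.sum_const, Finset.card_univ, Fintype.card_fin, nsmul_eq_mul,
    Finset.mul_sum (s := Finset.univ) (f := fun i => ‖D i ψ x‖ ^ 2)]
  push_cast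
  ring

theorem Z0a_gsq {a : E3} {R K : ℝ} (hχ : Cut a R K χ) (hR : 0 < R) (hψ : ContDiff ℝ ∞ ψ)
    (hd : Decay ψ) : gsq (sm χ ψ) ≤ 98 * K ^ 2 * gsq ψ := by
  have hψ1 : ContDiff ℝ 1 ψ := hψ.of_le (by exact_mod_cast le_top)
  have hint : ∀ i, Integrable (fun x => ‖D i ψ x‖ ^ 2) volume := fun i =>
    (hd.D_memLp hψ1 i).integrable_norm_pow (by norm_num)
  have hintS : Integrable (fun x => ∑ i, ‖D i ψ x‖ ^ 2) volume :=
    integrable_finsetSum _ fun i _ => hint i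
  have hb : IntegrableOn (fun y => ‖ψ y‖ ^ 2) (Metric.ball a (2 * R)) volume := by
    have hc : Continuous (fun y => ‖ψ y‖ ^ 2) := by
      have := hψ.continuous
      fun_prop
    exact (hc.continuousOn.integrableOn_compact (isCompact_closedBall a (2 * R))).mono_set
      Metric.ball_subset_closedBall
  have hbi : Integrable ((Metric.ball a (2 * R)).indicator (fun y => ‖ψ y‖ ^ 2)) volume :=
    (integrable_indicator_iff measurableSet_ball).mpr hb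
  have hcc : Cc (sm χ ψ) := cc_sm hχ.cc hψ
  have hint2 : Integrable (fun x => ∑ i, ‖D i (sm χ ψ) x‖ ^ 2) volume :=
    integrable_finsetSum _ fun i _ =>
      (cc_memLp (cc_D hcc i) 2).integrable_norm_pow (by norm_num)
  have h1 : gsq (sm χ ψ) ≤ ∫ x, (6 * (K / R) ^ 2 *
      (Metric.ball a (2 * R)).indicator (fun y => ‖ψ y‖ ^ 2) x
        + 2 * K ^ 2 * ∑ i, ‖D i ψ x‖ ^ 2) :=
    integral_mono hint2 ((hbi.const_mul _).add (hintS.const_mul _)) fun x => Z0a_pt hχ hR hψ x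
  have h2 : ∫ x, (6 * (K / R) ^ 2 *
      (Metric.ball a (2 * R)).indicator (fun y => ‖ψ y‖ ^ 2) x
        + 2 * K ^ 2 * ∑ i, ‖D i ψ x‖ ^ 2) =
      6 * (K / R) ^ 2 * sqOn (Metric.ball a (2 * R)) ψ + 2 * K ^ 2 * gsq ψ := by
    rw [integral_add (hbi.const_mul _) (hintS.const_mul _), integral_const_mul,
      integral_const_mul, integral_indicator measurableSet_ball]
    rfl
  have h3 := hardy hψ1 hd a (show 0 < 2 * R by linarith)
  have h4 : 6 * (K / R) ^ 2 * sqOn (Metric.ball a (2 * R)) ψ ≤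
      6 * (K / R) ^ 2 * (4 * (2 * R) ^ 2 * gsq ψ) := mul_le_mul_of_nonneg_left h3 (by positivity)
  have h5 : 6 * (K / R) ^ 2 * (4 * (2 * R) ^ 2 * gsq ψ) = 96 * K ^ 2 * gsq ψ := by
    field_simp
    ring
  rw [h2] at h1
  rw [h5] at h4
  linarith

/-- `∫ |curl (χψ)|² ≤ C ∫ |∇ψ|²`, also for decaying `ψ` -/
theorem sq_curl_sm_le (K : ℝ) : ∃ C : ℝ, 0 ≤ C ∧ ∀ (a : E3) (R : ℝ) (χ : E3 → ℝ), 0 < R →
    Cut a R K χ → ∀ ψ : E3 → E3, ContDiff ℝ ∞ ψ → Decay ψ →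
      sq (curl (sm χ ψ)) ≤ C * gsq ψ ∧ gsq (sm χ ψ) ≤ C * gsq ψ := by
  refine ⟨196 * K ^ 2, by positivity, ?_⟩
  intro a R χ hR hχ ψ hψ hd
  have h1 := Z0a_gsq hχ hR hψ hd
  have h0 : 0 ≤ gsq ψ := gsq_nonneg ψ
  have hcc : Cc (sm χ ψ) := cc_sm hχ.cc hψ
  have hint2 : Integrable (fun x => ∑ i, ‖D i (sm χ ψ) x‖ ^ 2) volume :=
    integrable_finsetSum _ fun i _ =>
      (cc_memLp (cc_D hcc i) 2).integrable_norm_pow (by norm_num)
  have h2 : sq (curl (sm χ ψ)) ≤ 2 * gsq (sm χ ψ) := by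
    unfold gsq
    rw [← integral_const_mul]
    refine integral_mono ?_ (hint2.const_mul _) fun x => norm_curl_sq_le (sm χ ψ) x
    exact (cc_memLp (cc_curl hcc) 2).integrable_norm_pow (by norm_num)
  have hK : 0 ≤ K ^ 2 * gsq ψ := by positivity
  constructor <;> nlinarith

theorem cut_scale {a x₀ : E3} {R K ρ : ℝ} (hρ : 0 < ρ) (hχ : Cut a R K χ) (hR : 0 < R) :
    Cut (x₀ + ρ • a) (ρ * R) K (fun x => χ (ρ⁻¹ • (x - x₀))) := by
  have hsupp : ∀ x, ρ * R ≤ ‖x - (x₀ + ρ • a)‖ → χ (ρ⁻¹ • (x - x₀)) = 0 := by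
    intro x hx
    apply hχ.supp
    have h1 : x - (x₀ + ρ • a) = ρ • (ρ⁻¹ • (x - x₀) - a) := by
      rw [smul_sub, smul_inv_smul₀ hρ.ne']
      abel
    rw [h1, norm_smul, Real.norm_eq_abs, abs_of_pos hρ] at hx
    exact le_of_mul_le_mul_left hx hρ
  have hfun : (fun x => χ (ρ⁻¹ • (x - x₀))) = fun x => χ (-(ρ⁻¹ • x₀) + ρ⁻¹ • x) := by
    funext x
    congr 1
    rw [smul_sub]
    abel
  have hD : ∀ i, D i (fun x => χ (ρ⁻¹ • (x - x₀))) =
      fun x => ρ⁻¹ • D i χ (-(ρ⁻¹ • x₀) + ρ⁻¹ • x) := by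
    intro i
    funext x
    rw [hfun]
    exact D_comp_affine (hχ.cc.smooth.differentiable (by simp)) ρ⁻¹ (-(ρ⁻¹ • x₀)) i x
  have hDD : ∀ i j, D i (D j (fun x => χ (ρ⁻¹ • (x - x₀)))) =
      fun x => ρ⁻¹ • (ρ⁻¹ • D i (D j χ) (-(ρ⁻¹ • x₀) + ρ⁻¹ • x)) := by
    intro i j
    funext x
    rw [hD j]
    have hdj : Differentiable ℝ (D j χ) :=
      (D_smooth hχ.cc.smooth j).differentiable (by simp)
    rw [D_const_smul (f := fun x => D j χ (-(ρ⁻¹ • x₀) + ρ⁻¹ • x)) (by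
      refine DifferentiableAt.comp x (hdj _) ?_
      fun_prop)]
    rw [D_comp_affine hdj ρ⁻¹ (-(ρ⁻¹ • x₀)) i x]
  refine ⟨⟨?_, ?_⟩, hsupp, fun x => hχ.bd _, ?_, ?_⟩
  · exact hχ.cc.smooth.comp (by fun_prop)
  · refine HasCompactSupport.intro (isCompact_closedBall (x₀ + ρ • a) (ρ * R)) ?_
    intro x hx
    apply hsupp
    rw [Metric.mem_closedBall, not_le, dist_eq_norm] at hx
    exact hx.le
  · intro i x
    rw [hD i]
    simp only [smul_eq_mul, abs_mul, abs_inv, abs_of_pos hρ]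
    have h1 := hχ.d1 i (-(ρ⁻¹ • x₀) + ρ⁻¹ • x)
    calc ρ⁻¹ * |D i χ (-(ρ⁻¹ • x₀) + ρ⁻¹ • x)| ≤ ρ⁻¹ * (K / R) :=
          mul_le_mul_of_nonneg_left h1 (by positivity)
      _ = K / (ρ * R) := by field_simp
  · intro i j x
    rw [hDD i j]
    simp only [smul_eq_mul, abs_mul, abs_inv, abs_of_pos hρ]
    have h1 := hχ.d2 i j (-(ρ⁻¹ • x₀) + ρ⁻¹ • x)
    calc ρ⁻¹ * (ρ⁻¹ * |D i (D j χ) (-(ρ⁻¹ • x₀) + ρ⁻¹ • x)|) ≤ ρ⁻¹ * (ρ⁻¹ * (K / R ^ 2)) := by
          refine mul_le_mul_of_nonneg_left (mul_le_mul_of_nonneg_left h1 ?_) ?_ <;> positivity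
      _ = K / (ρ * R) ^ 2 := by
          field_simp

end Pool.Agent.Helper60.EC
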