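import Pool.Agent.Helper60.EC.Z0
import Pool.Agent.Helper60.EC.P4

/-! Project EC, Z1: Zf of smooth solenoidal fields -/

set_option autoImplicit false

open MeasureTheory Set Filter Topology
open scoped ENNReal ContDiff

noncomputable section

namespace Pool.Agent.Helper60.EC

open Pool.Agent.Helper52.NSE (E3 pd divg TestField)

variable {χ : E3 → ℝ} {w : E3 → E3}

theorem Z1_f (hχ : Cc χ) (hw : Sml w) : Cc (sm χ (curl w)) :=
  cc_sm hχ (curl_smooth hw.smooth)

theorem bet_smooth (hχ : Cc χ) (hw : Sml w) : ContDiff ℝ ∞ (bet χ w) ∧ Decay (bet χ w) :=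
  ⟨NP_smooth (Z1_f hχ hw), NP_decay (Z1_f hχ hw)⟩

theorem Z1_curl_zero {ψ : E3 → E3} {x : E3} (h : ∀ i, D i ψ x = 0) : curl ψ x = 0 := by
  unfold curl
  rw [h 0, h 1, h 2]
  ext k
  fin_cases k <;> simp

theorem BB_cc (hχ : Cc χ) (hw : Sml w) : Cc (BB χ w) ∧ (∀ x, divg (BB χ w) x = 0) ∧
    ∀ x, x ∉ tsupport χ → BB χ w x = 0 := by
  have hβ := (bet_smooth hχ hw).1
  have h1 : Cc (sm χ (bet χ w)) := cc_sm hχ hβ
  refine ⟨cc_curl h1, fun x => divg_curl (h1.smooth.of_le (by norm_cast)) x, ?_⟩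
  intro x hx
  have hx' : x ∉ tsupport (sm χ (bet χ w)) := by
    intro h
    apply hx
    refine closure_mono ?_ h
    intro y hy hy'
    exact hy (by simp only [sm, hy', zero_smul])
  exact Z1_curl_zero fun i => Calc1b_D0 hx' i

/-- `curl β = χ w + ∇ NP(∇χ·w) - curl NP(∇χ×w)` -/
theorem curl_bet (hχ : Cc χ) (hw : Sml w) (x : E3) :
    curl (bet χ w) x = χ x • w x + grad (NP (fun y => (inner ℝ (grad χ y) (w y) : ℝ))) x -
      curl (NP (fun y => cr (grad χ y) (w y))) x := by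
  have hg := cc_grad hχ
  have hχw : Cc (sm χ w) := cc_sm hχ hw.smooth
  have hcr : Cc (fun y => cr (grad χ y) (w y)) := cc_cr_left hg hw.smooth
  have hin : Cc (fun y => (inner ℝ (grad χ y) (w y) : ℝ)) := cc_inner_left hg hw.smooth
  have hdχ : ∀ y, DifferentiableAt ℝ χ y := fun y => hχ.smooth.differentiable (by norm_num) y
  have hdw : ∀ y, DifferentiableAt ℝ w y := fun y => hw.smooth.differentiable (by norm_num) y
  have e1 : sm χ (curl w) = fun y => curl (sm χ w) y - cr (grad χ y) (w y) := by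
    funext y
    rw [curl_sm (hdχ y) (hdw y), add_sub_cancel_left]
    rfl
  have e2 : bet χ w = fun y => NP (curl (sm χ w)) y - NP (fun y => cr (grad χ y) (w y)) y := by
    funext y
    show NP (sm χ (curl w)) y = _
    rw [e1]
    exact NP_sub (cc_curl hχw) hcr y
  have e3 : (fun y => (inner ℝ (grad χ y) (w y) : ℝ)) = divg (sm χ w) := by
    funext y
    rw [divg_sm (hdχ y) (hdw y), hw.div y, mul_zero, add_zero]
  have h := helmholtz hχw x
  have hd1 : DifferentiableAt ℝ (NP (curl (sm χ w))) x :=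
    (NP_smooth (cc_curl hχw)).differentiable (by norm_num) x
  have hd2 : DifferentiableAt ℝ (NP (fun y => cr (grad χ y) (w y))) x :=
    (NP_smooth hcr).differentiable (by norm_num) x
  rw [e2, curl_sub hd1 hd2, e3]
  have h' : χ x • w x = curl (NP (curl (sm χ w))) x - grad (NP (divg (sm χ w))) x := h
  rw [h', sub_add_cancel]

/-- `∫ w · curl (χ ψ) = ∫ χ curl w · ψ` -/
theorem Z1_ip (hχ : Cc χ) (hw : Sml w) {ψ : E3 → E3} (hψ : ContDiff ℝ ∞ ψ) :
    ip w (curl (sm χ ψ)) = ip (sm χ (curl w)) ψ := by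
  have h1 : Cc (sm χ ψ) := cc_sm hχ hψ
  rw [← ip_curl (hw.smooth.of_le (by norm_num))
    (h1.smooth.of_le (by norm_num)) (Or.inr h1.comp)]
  unfold ip sm
  congr 1
  funext x
  rw [real_inner_smul_left, real_inner_smul_right]

theorem Z1_gsq_eq (hχ : Cc χ) (hw : Sml w) : gsq (bet χ w) = ip w (BB χ w) := by
  unfold BB
  rw [Z1_ip hχ hw (bet_smooth hχ hw).1]
  exact NP_energy (Z1_f hχ hw)

theorem Z1_memLp_decay {β : E3 → E3} (hs : ContDiff ℝ ∞ β) (hd : Decay β) (i : Fin 3) :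
    MemLp (D i β) 2 volume :=
  hd.D_memLp (hs.of_le (by norm_num)) i

theorem Z1_int {f g : E3 → E3} (hf : MemLp f 2 volume) (hg : MemLp g 2 volume) :
    Integrable (fun x => (inner ℝ (f x) (g x) : ℝ)) volume :=
  (hf.norm.integrable_mul hg.norm).mono' (hf.1.inner hg.1)
    (ae_of_all _ fun _ => norm_inner_le_norm _ _)

/-- Cauchy-Schwarz for gradients -/
theorem Z1_cs {β ψ : E3 → E3} (hβ : ∀ i, MemLp (D i β) 2 volume)
    (hψ : ∀ i, MemLp (D i ψ) 2 volume) :
    ∫ x, ∑ i, inner ℝ (D i β x) (D i ψ x) ≤ Real.sqrt (gsq β) * Real.sqrt (gsq ψ) := by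
  have hint : ∀ i, Integrable (fun x => (inner ℝ (D i β x) (D i ψ x) : ℝ)) volume :=
    fun i => Z1_int (hβ i) (hψ i)
  rw [integral_finsetSum _ fun i _ => hint i]
  have h1 : ∑ i, ∫ x, (inner ℝ (D i β x) (D i ψ x) : ℝ) ≤
      ∑ i, Real.sqrt (sq (D i β)) * Real.sqrt (sq (D i ψ)) :=
    Finset.sum_le_sum fun i _ => (le_abs_self _).trans (ip_le (hβ i) (hψ i))
  refine h1.trans ?_
  have h2 := Finset.sum_mul_sq_le_sq_mul_sq Finset.univ (fun i => Real.sqrt (sq (D i β)))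
    (fun i => Real.sqrt (sq (D i ψ)))
  have h3 : ∑ i, Real.sqrt (sq (D i β)) ^ 2 = gsq β := by
    rw [gsq_eq_sum hβ]
    exact Finset.sum_congr rfl fun i _ => Real.sq_sqrt (sq_nonneg' _)
  have h4 : ∑ i, Real.sqrt (sq (D i ψ)) ^ 2 = gsq ψ := by
    rw [gsq_eq_sum hψ]
    exact Finset.sum_congr rfl fun i _ => Real.sq_sqrt (sq_nonneg' _)
  rw [h3, h4] at h2
  rw [← Real.sqrt_mul (gsq_nonneg _)]
  exact Real.le_sqrt_of_sq_le h2

/-- upper bound -/
theorem Z1_upper (hχ : Cc χ) (hw : Sml w) : Zf χ w ≤ Real.sqrt (gsq (bet χ w)) := by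
  obtain ⟨hs, hd⟩ := bet_smooth hχ hw
  refine Zf_le_of_forall hχ hw.l2 (Real.sqrt_nonneg _) fun ψ hψ => ?_
  rw [Z1_ip hχ hw hψ.smooth, ← NP_green (Z1_f hχ hw)
    (hψ.smooth.of_le (by norm_num)) (decay_of_cc hψ)]
  exact Z1_cs (Z1_memLp_decay hs hd) (fun i => cc_memLp (cc_D hψ i) 2)

/-- cutoffs at infinity -/
theorem Z1_tendsto {β : E3 → E3} (hs : ContDiff ℝ ∞ β) (hd : Decay β) (η : ℕ → E3 → ℝ) (K : ℝ)
    (hη : ∀ n : ℕ, Cut 0 ((n : ℝ) + 1) K (η n)) (h01 : ∀ n x, 0 ≤ η n x ∧ η n x ≤ 1)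
    (h1 : ∀ (n : ℕ) (x : E3), ‖x‖ ≤ ((n : ℝ) + 1) / 2 → η n x = 1) :
    Tendsto (fun n => gsq (sm (η n) β)) atTop (𝓝 (gsq β)) := by
  obtain ⟨C, hC⟩ := hd
  have hK : 0 ≤ K := (abs_nonneg _).trans ((hη 0).bd 0)
  have hC0 : 0 ≤ C := by
    have := (hC 0).1
    rw [norm_zero, add_zero, div_one] at this
    exact (norm_nonneg _).trans this
  have hdβ : ∀ y, DifferentiableAt ℝ β y := fun y => hs.differentiable (by norm_num) y
  have hdη : ∀ n y, DifferentiableAt ℝ (η n) y :=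
    fun n y => (hη n).cc.smooth.differentiable (by norm_num) y
  -- pointwise bound
  have hb : ∀ n i x, ‖D i (sm (η n) β) x‖ ≤ (2 * K + 1) * C / (1 + ‖x‖) ^ 2 := by
    intro n i x
    rw [D_sm (hdη n x) (hdβ x)]
    have hx1 : 0 < 1 + ‖x‖ := by positivity
    have k1 : ‖D i (η n) x • β x‖ ≤ 2 * K * C / (1 + ‖x‖) ^ 2 := by
      rw [norm_smul, Real.norm_eq_abs]
      have hn : (0 : ℝ) < n + 1 := by positivity
      by_cases hx : ‖x‖ ≤ n + 1
      · have j1 : |D i (η n) x| ≤ 2 * K / (1 + ‖x‖) := by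
          refine ((hη n).d1 i x).trans ?_
          rw [div_le_div_iff₀ hn hx1]
          have : 1 + ‖x‖ ≤ 2 * (n + 1) := by
            have : (0:ℝ) ≤ n := Nat.cast_nonneg n
            linarith
          nlinarith
        calc |D i (η n) x| * ‖β x‖ ≤ (2 * K / (1 + ‖x‖)) * (C / (1 + ‖x‖)) :=
              mul_le_mul j1 (hC x).1 (norm_nonneg _) (by positivity)
          _ = 2 * K * C / (1 + ‖x‖) ^ 2 := by
              field_simp
      · have hx' : x ∉ tsupport (η n) := by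
          intro h
          have : tsupport (η n) ⊆ Metric.closedBall 0 (n + 1) := by
            refine closure_minimal ?_ Metric.isClosed_closedBall
            intro y hy
            by_contra hy'
            rw [mem_closedBall_zero_iff, not_le] at hy'
            exact hy ((hη n).supp y (by rw [sub_zero]; exact hy'.le))
          have := this h
          rw [mem_closedBall_zero_iff] at this
          exact hx this
        rw [Calc1b_D0 hx' i, abs_zero, zero_mul]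
        positivity
    have k2 : ‖η n x • D i β x‖ ≤ C / (1 + ‖x‖) ^ 2 := by
      rw [norm_smul, Real.norm_eq_abs, abs_of_nonneg (h01 n x).1]
      calc η n x * ‖D i β x‖ ≤ 1 * ‖D i β x‖ :=
            mul_le_mul_of_nonneg_right (h01 n x).2 (norm_nonneg _)
        _ = ‖D i β x‖ := one_mul _
        _ ≤ _ := (hC x).2 i
    calc ‖D i (η n) x • β x + η n x • D i β x‖ ≤ _ := norm_add_le _ _
      _ ≤ 2 * K * C / (1 + ‖x‖) ^ 2 + C / (1 + ‖x‖) ^ 2 := add_le_add k1 k2
      _ = _ := by ring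
  unfold gsq
  refine tendsto_integral_of_dominated_convergence
    (fun x => 3 * (((2 * K + 1) * C) ^ 2 * (1 + ‖x‖) ^ (-(4:ℝ)))) ?_ ?_ ?_ ?_
  · intro n
    have hc := cc_sm (hη n).cc hs
    refine Continuous.aestronglyMeasurable ?_
    exact continuous_finsetSum _ fun i _ => ((cc_D hc i).smooth.continuous.norm.pow 2)
  · have h4 : (Module.finrank ℝ E3 : ℝ) < 4 := by
      have : Module.finrank ℝ E3 = 3 := by simp [E3]
      rw [this]; norm_num
    exact ((integrable_one_add_norm h4).const_mul _).const_mul _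
  · intro n
    refine Eventually.of_forall fun x => ?_
    rw [Real.norm_of_nonneg (Finset.sum_nonneg fun i _ => by positivity)]
    have hx1 : 0 < 1 + ‖x‖ := by positivity
    have e : ((2 * K + 1) * C) ^ 2 * (1 + ‖x‖) ^ (-(4:ℝ)) =
        ((2 * K + 1) * C / (1 + ‖x‖) ^ 2) ^ 2 := by
      rw [Real.rpow_neg hx1.le]
      have : (1 + ‖x‖) ^ (4:ℝ) = (1 + ‖x‖) ^ (4:ℕ) := by
        rw [← Real.rpow_natCast]; norm_num
      rw [this]
      field_simp
    rw [e]
    have : ∀ i, ‖D i (sm (η n) β) x‖ ^ 2 ≤ ((2 * K + 1) * C / (1 + ‖x‖) ^ 2) ^ 2 :=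
      fun i => pow_le_pow_left₀ (norm_nonneg _) (hb n i x) 2
    rw [Fin.sum_univ_three]
    linarith [this 0, this 1, this 2]
  · refine Eventually.of_forall fun x => ?_
    refine tendsto_const_nhds.congr' ?_
    obtain ⟨N, hN⟩ := exists_nat_gt (2 * (‖x‖ + 1))
    filter_upwards [eventually_ge_atTop N] with n hn
    have hn' : (N : ℝ) ≤ n := by exact_mod_cast hn
    refine Finset.sum_congr rfl fun i _ => ?_
    congr 2
    refine D_congr ?_ i
    have hball : Metric.ball x 1 ∈ 𝓝 x := Metric.ball_mem_nhds x one_pos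
    filter_upwards [hball] with y hy
    have hy' : ‖y‖ ≤ ‖x‖ + 1 := by
      rw [mem_ball_iff_norm] at hy
      have := norm_add_le x (y - x)
      rw [add_sub_cancel] at this
      linarith
    show β y = η n y • β y
    rw [h1 n y (by linarith), one_smul]

theorem Z1_lower (hχ : Cc χ) (hw : Sml w) : Real.sqrt (gsq (bet χ w)) ≤ Zf χ w := by
  obtain ⟨hs, hd⟩ := bet_smooth hχ hw
  obtain ⟨K, hK, hcut⟩ := exists_cut
  have hcut' : ∀ n : ℕ, ∃ η : E3 → ℝ, Cut 0 ((n : ℝ) + 1) K η ∧ (∀ x, 0 ≤ η x ∧ η x ≤ 1) ∧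
      ∀ x, ‖x - 0‖ ≤ ((n : ℝ) + 1) / 2 → η x = 1 := fun n => hcut 0 _ (by positivity)
  choose η hη h01 h1 using hcut'
  have h1' : ∀ (n : ℕ) (x : E3), ‖x‖ ≤ ((n : ℝ) + 1) / 2 → η n x = 1 := by
    intro n x hx
    exact h1 n x (by rwa [sub_zero])
  have ht := Z1_tendsto hs hd η K hη h01 h1'
  -- the support of `χ` is bounded
  obtain ⟨r, hr⟩ := hχ.comp.isCompact.isBounded.subset_closedBall (0 : E3)
  obtain ⟨N, hN⟩ := exists_nat_gt (2 * r)
  have hev : ∀ n ≥ N, gsq (bet χ w) ≤ Zf χ w * Real.sqrt (gsq (sm (η n) (bet χ w))) := by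
    intro n hn
    have hn' : (N : ℝ) ≤ n := by exact_mod_cast hn
    have hp := Zf_pair hχ hw.l2 (cc_sm (hη n).cc hs)
    have e : sm χ (sm (η n) (bet χ w)) = sm χ (bet χ w) := by
      funext x
      show χ x • (η n x • bet χ w x) = χ x • bet χ w x
      by_cases hx : x ∈ tsupport χ
      · have := hr hx
        rw [mem_closedBall_zero_iff] at this
        rw [h1' n x (by linarith), one_smul]
      · rw [image_eq_zero_of_notMem_tsupport hx, zero_smul, zero_smul]
    rw [e] at hp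
    rw [Z1_gsq_eq hχ hw]
    exact (le_abs_self _).trans hp
  have hlim : gsq (bet χ w) ≤ Zf χ w * Real.sqrt (gsq (bet χ w)) := by
    refine ge_of_tendsto ((Real.continuous_sqrt.tendsto _ |>.comp ht).const_mul (Zf χ w)) ?_
    filter_upwards [eventually_ge_atTop N] with n hn
    exact hev n hn
  rcases (gsq_nonneg (bet χ w)).eq_or_lt with h0 | h0
  · rw [← h0, Real.sqrt_zero]
    exact Zf_nonneg χ hχ hw.l2
  · have hsq := Real.sq_sqrt h0.le
    have hpos := Real.sqrt_pos.2 h0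
    rw [← hsq, Real.sqrt_sq hpos.le] at hlim
    nlinarith

/-- `Zf² = ‖∇β‖² = ∫ w · curl (χ β)`, `β = NP (χ curl w)` -/
theorem Zf_sq (hχ : Cc χ) (hw : Sml w) :
    Zf χ w ^ 2 = gsq (bet χ w) ∧ Zf χ w ^ 2 = ip w (BB χ w) := by
  have h : Zf χ w = Real.sqrt (gsq (bet χ w)) :=
    le_antisymm (Z1_upper hχ hw) (Z1_lower hχ hw)
  have h2 : Zf χ w ^ 2 = gsq (bet χ w) := by
    rw [h, Real.sq_sqrt (gsq_nonneg _)]
  exact ⟨h2, h2.trans (Z1_gsq_eq hχ hw)⟩

end Pool.Agent.Helper60.EC
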