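import Pool.Agent.Helper60.EC.Z1
import Pool.Agent.Helper60.EC.Calc2
import Pool.Agent.Helper60.EC.Calc3

/-! Project EC, Z2: bounds for the optimal test field -/

set_option autoImplicit false

open MeasureTheory Set Filter Topology
open scoped ENNReal ContDiff

noncomputable section

namespace Pool.Agent.Helper60.EC

open Pool.Agent.Helper52.NSE (E3 pd divg TestField)

section aux

variable {F : Type} [NormedAddCommGroup F] [InnerProductSpace ℝ F]

theorem Z2_diff {f : E3 → F} (hf : ContDiff ℝ ∞ f) (x : E3) : DifferentiableAt ℝ f x :=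
  hf.differentiable (by simp) x

theorem Z2_comp {w : E3 → E3} (hw : ContDiff ℝ ∞ w) (k : Fin 3) :
    ContDiff ℝ ∞ (fun x => w x k) :=
  (EuclideanSpace.proj (𝕜 := ℝ) k : E3 →L[ℝ] ℝ).contDiff.comp hw

theorem Z2_D_cr {a b : E3 → E3} (ha : ContDiff ℝ ∞ a) (hb : ContDiff ℝ ∞ b) (i : Fin 3) (x : E3) :
    D i (fun y => cr (a y) (b y)) x = cr (D i a x) (b x) + cr (a x) (D i b x) := by
  have hc := cr_smooth ha hb
  have hA : ∀ k : Fin 3, DifferentiableAt ℝ (fun y => a y k) x := fun k => Z2_diff (Z2_comp ha k) x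
  have hB : ∀ k : Fin 3, DifferentiableAt ℝ (fun y => b y k) x := fun k => Z2_diff (Z2_comp hb k) x
  have key : ∀ k l : Fin 3, D i (fun y => a y k * b y l - a y l * b y k) x =
      ((D i a x) k * b x l + a x k * (D i b x) l) - ((D i a x) l * b x k + a x l * (D i b x) k) := by
    intro k l
    rw [D_sub (f := fun y => a y k * b y l) (g := fun y => a y l * b y k)
      ((hA k).mul (hB l)) ((hA l).mul (hB k)), D_mul (hA k) (hB l), D_mul (hA l) (hB k),
      D_apply (Z2_diff ha x), D_apply (Z2_diff ha x), D_apply (Z2_diff hb x),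
      D_apply (Z2_diff hb x)]
  ext m
  rw [← D_apply (Z2_diff hc x) i m]
  fin_cases m
  · have := key 1 2
    simp only [cr, PiLp.add_apply] at this ⊢
    simp at this ⊢
    rw [this]; ring
  · have := key 2 0
    simp only [cr, PiLp.add_apply] at this ⊢
    simp at this ⊢
    rw [this]; ring
  · have := key 0 1
    simp only [cr, PiLp.add_apply] at this ⊢
    simp at this ⊢
    rw [this]; ring

theorem Z2_norm_D_grad {h : E3 → ℝ} (hh : ContDiff ℝ ∞ h) (i : Fin 3) (x : E3) :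
    ‖D i (grad h) x‖ ^ 2 = ∑ j, ‖D i (D j h) x‖ ^ 2 := by
  have hg := grad_smooth hh
  rw [EuclideanSpace.norm_sq_eq]
  refine Finset.sum_congr rfl fun j _ => ?_
  rw [← D_apply (Z2_diff hg x) i j]
  congr 2
  fin_cases j <;> rfl

theorem Z2_D_curl {a : E3 → E3} (ha : ContDiff ℝ ∞ a) (i : Fin 3) (x : E3) :
    D i (curl a) x = curl (D i a) x := by
  have hc := curl_smooth ha
  have hd : ∀ j : Fin 3, ContDiff ℝ ∞ (D j a) := fun j => D_smooth ha j
  have hA : ∀ j k : Fin 3, DifferentiableAt ℝ (fun y => D j a y k) x :=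
    fun j k => Z2_diff (Z2_comp (hd j) k) x
  have key : ∀ j k l m : Fin 3, D i (fun y => (D j a y) k - (D l a y) m) x =
      (D j (D i a) x) k - (D l (D i a) x) m := by
    intro j k l m
    rw [D_sub (hA j k) (hA l m), D_apply (Z2_diff (hd j) x), D_apply (Z2_diff (hd l) x),
      D_comm (ha.of_le ENat.LEInfty.out) i j, D_comm (ha.of_le ENat.LEInfty.out) i l]
  ext m
  rw [← D_apply (Z2_diff hc x) i m]
  fin_cases m
  · exact key 1 2 2 1
  · exact key 2 0 0 2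
  · exact key 0 1 1 0

theorem Z2_norm_D_curl {a : E3 → E3} (ha : ContDiff ℝ ∞ a) (i : Fin 3) (x : E3) :
    ‖D i (curl a) x‖ ^ 2 ≤ 2 * ∑ j, ‖D j (D i a) x‖ ^ 2 := by
  rw [Z2_D_curl ha]
  exact norm_curl_sq_le _ x

theorem Z2_D_zero {a : E3} {R : ℝ} {f : E3 → F} (hf : ContDiff ℝ ∞ f) (hR : 0 < R)
    (h0 : ∀ x, R ≤ ‖x - a‖ → f x = 0) (i : Fin 3) (x : E3) (hx : R ≤ ‖x - a‖) : D i f x = 0 := by
  -- first in the open exterior
  have h1 : ∀ y : E3, R < ‖y - a‖ → D i f y = 0 := by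
    intro y hy
    have hev : f =ᶠ[𝓝 y] fun _ => (0 : F) := by
      have ho : IsOpen {z : E3 | R < ‖z - a‖} := isOpen_lt continuous_const (by fun_prop)
      filter_upwards [ho.mem_nhds hy] with z hz
      exact h0 z (le_of_lt hz)
    rw [D_congr hev]
    simp [D]
  have hc : Continuous (fun t : ℝ => D i f (a + t • (x - a))) :=
    (D_smooth hf i).continuous.comp (by fun_prop)
  have h2 : Tendsto (fun t : ℝ => D i f (a + t • (x - a))) (𝓝[>] 1) (𝓝 (D i f x)) := by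
    have h3 := (hc.tendsto 1).mono_left (nhdsWithin_le_nhds (s := Ioi (1 : ℝ)))
    simpa using h3
  have h4 : Tendsto (fun t : ℝ => D i f (a + t • (x - a))) (𝓝[>] 1) (𝓝 0) := by
    refine tendsto_const_nhds.congr' ?_
    filter_upwards [self_mem_nhdsWithin] with t ht
    have ht' : (1 : ℝ) < t := ht
    symm
    apply h1
    have : a + t • (x - a) - a = t • (x - a) := by abel
    rw [this, norm_smul, Real.norm_eq_abs, abs_of_pos (by linarith)]
    nlinarith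
  exact tendsto_nhds_unique h2 h4

theorem Z2_sqrt_add {a b : ℝ} (ha : 0 ≤ a) (hb : 0 ≤ b) :
    Real.sqrt (a + b) ≤ Real.sqrt a + Real.sqrt b := by
  rw [Real.sqrt_le_left (add_nonneg (Real.sqrt_nonneg _) (Real.sqrt_nonneg _))]
  nlinarith [Real.sq_sqrt ha, Real.sq_sqrt hb, mul_nonneg (Real.sqrt_nonneg a) (Real.sqrt_nonneg b)]

theorem Z2_int3 {f1 f2 f3 : E3 → ℝ} (h1 : Integrable f1 volume) (h2 : Integrable f2 volume)
    (h3 : Integrable f3 volume) :
    ∫ x, (f1 x + f2 x + f3 x) = (∫ x, f1 x) + (∫ x, f2 x) + ∫ x, f3 x := by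
  have e1 : ∫ x, (f1 x + f2 x + f3 x) = (∫ x, (f1 x + f2 x)) + ∫ x, f3 x :=
    integral_add (h1.add h2) h3
  rw [e1, integral_add h1 h2]

theorem Z2_int5 {f1 f2 f3 f4 f5 : E3 → ℝ} (h1 : Integrable f1 volume) (h2 : Integrable f2 volume)
    (h3 : Integrable f3 volume) (h4 : Integrable f4 volume) (h5 : Integrable f5 volume) :
    ∫ x, (f1 x + f2 x + f3 x + f4 x + f5 x) =
      (∫ x, f1 x) + (∫ x, f2 x) + (∫ x, f3 x) + (∫ x, f4 x) + ∫ x, f5 x := by
  have e1 : ∫ x, (f1 x + f2 x + f3 x + f4 x + f5 x) =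
      (∫ x, (f1 x + f2 x + f3 x + f4 x)) + ∫ x, f5 x :=
    integral_add (((h1.add h2).add h3).add h4) h5
  have e2 : ∫ x, (f1 x + f2 x + f3 x + f4 x) = (∫ x, (f1 x + f2 x + f3 x)) + ∫ x, f4 x :=
    integral_add ((h1.add h2).add h3) h4
  rw [e1, e2, Z2_int3 h1 h2 h3]

theorem Z2_int_mono {f g : E3 → ℝ} (hg : Integrable g volume) (h0 : ∀ x, 0 ≤ f x)
    (h : ∀ x, f x ≤ g x) : ∫ x, f x ≤ ∫ x, g x :=
  integral_mono_of_nonneg (ae_of_all _ h0) hg (ae_of_all _ h)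

omit [InnerProductSpace ℝ F] in
theorem Z2_integrable_sq {f : E3 → F} (hf : MemLp f 2 volume) :
    Integrable (fun x => ‖f x‖ ^ 2) volume :=
  (memLp_two_iff_integrable_sq_norm hf.1).1 hf

omit [InnerProductSpace ℝ F] in
theorem Z2_four (a b c d : F) :
    ‖a + b + c + d‖ ^ 2 ≤ 4 * (‖a‖ ^ 2 + ‖b‖ ^ 2 + ‖c‖ ^ 2 + ‖d‖ ^ 2) := by
  have h1 : ‖a + b + c + d‖ ≤ ‖a‖ + ‖b‖ + ‖c‖ + ‖d‖ :=
    (norm_add_le _ _).trans (add_le_add ((norm_add_le _ _).trans
      (add_le_add (norm_add_le _ _) le_rfl)) le_rfl)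
  have h2 : ‖a + b + c + d‖ ^ 2 ≤ (‖a‖ + ‖b‖ + ‖c‖ + ‖d‖) ^ 2 :=
    pow_le_pow_left₀ (norm_nonneg _) h1 2
  nlinarith [sq_nonneg (‖a‖ - ‖b‖), sq_nonneg (‖a‖ - ‖c‖), sq_nonneg (‖a‖ - ‖d‖),
    sq_nonneg (‖b‖ - ‖c‖), sq_nonneg (‖b‖ - ‖d‖), sq_nonneg (‖c‖ - ‖d‖)]

omit [InnerProductSpace ℝ F] in
theorem Z2_two (a b : F) : ‖a + b‖ ^ 2 ≤ 2 * (‖a‖ ^ 2 + ‖b‖ ^ 2) := by
  have h2 : ‖a + b‖ ^ 2 ≤ (‖a‖ + ‖b‖) ^ 2 := pow_le_pow_left₀ (norm_nonneg _) (norm_add_le _ _) 2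
  nlinarith [sq_nonneg (‖a‖ - ‖b‖)]

omit [InnerProductSpace ℝ F] in
theorem Z2_two' (a b : F) : ‖a - b‖ ^ 2 ≤ 2 * (‖a‖ ^ 2 + ‖b‖ ^ 2) := by
  have h2 : ‖a - b‖ ^ 2 ≤ (‖a‖ + ‖b‖) ^ 2 := pow_le_pow_left₀ (norm_nonneg _) (norm_sub_le _ _) 2
  nlinarith [sq_nonneg (‖a‖ - ‖b‖)]

end aux

/-- the sum of the squares of the second derivatives of a Newton potential -/
theorem Z2_hess {F : Type} [NormedAddCommGroup F] [InnerProductSpace ℝ F] [FiniteDimensional ℝ F]
    {b : E3 → F} (hb : Cc b) :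
    Integrable (fun x => ∑ j, ∑ i, ‖D i (D j (NP b)) x‖ ^ 2) volume ∧
      ∫ x, ∑ j, ∑ i, ‖D i (D j (NP b)) x‖ ^ 2 = sq b := by
  have hI : ∀ j i : Fin 3, Integrable (fun x => ‖D i (D j (NP b)) x‖ ^ 2) volume := by
    intro j i
    have h1 : D j (NP b) = NP (D j b) := D_NP' hb j
    rw [h1]
    have hc := cc_D hb j
    exact Z2_integrable_sq
      (Decay.D_memLp ((NP_smooth hc).of_le (by exact_mod_cast le_top)) (NP_decay hc) i)
  have hJ : ∀ j : Fin 3, Integrable (fun x => ∑ i, ‖D i (D j (NP b)) x‖ ^ 2) volume :=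
    fun j => integrable_finsetSum _ fun i _ => hI j i
  refine ⟨integrable_finsetSum _ fun j _ => hJ j, ?_⟩
  rw [integral_finsetSum _ fun j _ => hJ j]
  exact NP_hess hb

theorem Z2_cut_nonneg {a : E3} {R K : ℝ} {χ : E3 → ℝ} (hχ : Cut a R K χ) : 0 ≤ K :=
  (abs_nonneg _).trans (hχ.bd a)

theorem Z2_grad_le {a : E3} {R K : ℝ} {χ : E3 → ℝ} (hR : 0 < R) (hχ : Cut a R K χ) (x : E3) :
    ‖grad χ x‖ ^ 2 ≤ (Metric.ball a R).indicator (fun _ => 3 * (K / R) ^ 2) x := by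
  by_cases hx : x ∈ Metric.ball a R
  · rw [indicator_of_mem hx, norm_grad_sq]
    have : ∀ i ∈ (Finset.univ : Finset (Fin 3)), ‖D i χ x‖ ^ 2 ≤ (K / R) ^ 2 := by
      intro i _
      exact pow_le_pow_left₀ (norm_nonneg _) (by rw [Real.norm_eq_abs]; exact hχ.d1 i x) 2
    calc ∑ i, ‖D i χ x‖ ^ 2 ≤ ∑ _i : Fin 3, (K / R) ^ 2 := Finset.sum_le_sum this
      _ = 3 * (K / R) ^ 2 := by simp
  · rw [indicator_of_notMem hx, norm_grad_sq]
    have hx' : R ≤ ‖x - a‖ := by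
      rw [Metric.mem_ball, dist_eq_norm] at hx
      exact le_of_not_gt hx
    simp [Z2_D_zero hχ.cc.smooth hR hχ.supp _ x hx']

theorem Z2_main (K : ℝ) : ∃ C : ℝ, 0 ≤ C ∧ ∀ (a : E3) (R : ℝ) (χ : E3 → ℝ), 0 < R →
    Cut a R K χ → ∀ w : E3 → E3, Sml w →
      sq (BB χ w) ≤ C * Zf χ w ^ 2 ∧
      sq (fun x => BB χ w x - χ x ^ 2 • w x) ≤ C * sqOn (Metric.ball a R) w ∧
      gsq (fun x => BB χ w x - χ x ^ 2 • w x) ≤ C / R ^ 2 * sqOn (Metric.ball a R) w := by
  obtain ⟨C1, hC1, h1⟩ := sq_curl_sm_le K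
  obtain ⟨C2, hC2, h2⟩ := Zf_le K
  refine ⟨max C1 (max (2 * (C1 * C2 ^ 2) + 2 * K ^ 4) (204 * K ^ 2 * C2 ^ 2 + 96 * K ^ 4)),
    le_max_of_le_left hC1, ?_⟩
  intro a R χ hR hχ w hw
  set β := bet χ w with hβdef
  obtain ⟨hβs, hβd⟩ := bet_smooth hχ.cc hw
  rw [← hβdef] at hβs hβd
  have hK := Z2_cut_nonneg hχ
  have hW0 : 0 ≤ sqOn (Metric.ball a R) w := sqOn_nonneg _ _
  have hZ2 : Zf χ w ^ 2 ≤ C2 ^ 2 * sqOn (Metric.ball a R) w := by
    have := pow_le_pow_left₀ (Zf_nonneg χ hχ.cc hw.l2) (h2 a R χ hR hχ w hw.l2) 2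
    rwa [mul_pow, Real.sq_sqrt hW0] at this
  have hg : gsq β = Zf χ w ^ 2 := (Zf_sq hχ.cc hw).1.symm
  have hBB : sq (BB χ w) ≤ C1 * Zf χ w ^ 2 := by
    have := (h1 a R χ hR hχ β hβs hβd).1
    rwa [hg] at this
  have hM1 := le_max_left C1 (max (2 * (C1 * C2 ^ 2) + 2 * K ^ 4) (204 * K ^ 2 * C2 ^ 2 + 96 * K ^ 4))
  have hM2 : 2 * (C1 * C2 ^ 2) + 2 * K ^ 4 ≤
      max C1 (max (2 * (C1 * C2 ^ 2) + 2 * K ^ 4) (204 * K ^ 2 * C2 ^ 2 + 96 * K ^ 4)) :=
    (le_max_left _ _).trans (le_max_right _ _)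
  have hM3 : 204 * K ^ 2 * C2 ^ 2 + 96 * K ^ 4 ≤
      max C1 (max (2 * (C1 * C2 ^ 2) + 2 * K ^ 4) (204 * K ^ 2 * C2 ^ 2 + 96 * K ^ 4)) :=
    (le_max_right _ _).trans (le_max_right _ _)
  set M := max C1 (max (2 * (C1 * C2 ^ 2) + 2 * K ^ 4) (204 * K ^ 2 * C2 ^ 2 + 96 * K ^ 4))
  -- integrability
  have hwI : Integrable ((Metric.ball a R).indicator fun x => ‖w x‖ ^ 2) volume :=
    (Z2_integrable_sq hw.l2).indicator measurableSet_ball
  have hwE : ∫ x, (Metric.ball a R).indicator (fun x => ‖w x‖ ^ 2) x = sqOn (Metric.ball a R) w :=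
    integral_indicator measurableSet_ball
  have hBc := (BB_cc hχ.cc hw).1
  have hBI : Integrable (fun x => ‖BB χ w x‖ ^ 2) volume := Z2_integrable_sq (cc_memLp hBc 2)
  have hout : ∀ x, x ∉ Metric.ball a R → R ≤ ‖x - a‖ := by
    intro x hx
    rw [Metric.mem_ball, dist_eq_norm] at hx
    exact le_of_not_gt hx
  have hχK : ∀ x, χ x ^ 2 ≤ K ^ 2 := by
    intro x
    have := pow_le_pow_left₀ (abs_nonneg _) (hχ.bd x) 2
    rwa [sq_abs] at this
  refine ⟨hBB.trans (mul_le_mul_of_nonneg_right hM1 (sq_nonneg _)), ?_, ?_⟩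
  · -- the field ρ
    have hpt : ∀ x, ‖BB χ w x - χ x ^ 2 • w x‖ ^ 2 ≤ 2 * ‖BB χ w x‖ ^ 2 +
        (2 * K ^ 4) * (Metric.ball a R).indicator (fun x => ‖w x‖ ^ 2) x := by
      intro x
      have h3 := Z2_two' (BB χ w x) (χ x ^ 2 • w x)
      have h4 : ‖χ x ^ 2 • w x‖ ^ 2 ≤
          K ^ 4 * (Metric.ball a R).indicator (fun x => ‖w x‖ ^ 2) x := by
        by_cases hx : x ∈ Metric.ball a R
        · rw [indicator_of_mem hx, norm_smul, mul_pow, Real.norm_eq_abs, abs_of_nonneg (sq_nonneg _)]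
          have h5 : (χ x ^ 2) ^ 2 ≤ K ^ 4 := by
            have := pow_le_pow_left₀ (sq_nonneg _) (hχK x) 2
            calc (χ x ^ 2) ^ 2 ≤ (K ^ 2) ^ 2 := this
              _ = K ^ 4 := by ring
          exact mul_le_mul_of_nonneg_right h5 (sq_nonneg _)
        · rw [hχ.supp x (hout x hx), indicator_of_notMem hx]; simp
      linarith
    have hle := Z2_int_mono ((hBI.const_mul 2).add (hwI.const_mul (2 * K ^ 4)))
      (fun x => sq_nonneg _) hpt
    have he : ∫ x, (2 * ‖BB χ w x‖ ^ 2 +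
        (2 * K ^ 4) * (Metric.ball a R).indicator (fun x => ‖w x‖ ^ 2) x) =
        2 * sq (BB χ w) + 2 * K ^ 4 * sqOn (Metric.ball a R) w := by
      rw [integral_add (hBI.const_mul 2) (hwI.const_mul (2 * K ^ 4)), integral_const_mul,
        integral_const_mul, hwE]
      rfl
    have h6 : sq (fun x => BB χ w x - χ x ^ 2 • w x) ≤
        2 * sq (BB χ w) + 2 * K ^ 4 * sqOn (Metric.ball a R) w := by
      rw [← he]; exact hle
    have h7 : 2 * sq (BB χ w) ≤ 2 * (C1 * (C2 ^ 2 * sqOn (Metric.ball a R) w)) := by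
      have := mul_le_mul_of_nonneg_left hZ2 hC1
      linarith
    have h8 := mul_le_mul_of_nonneg_right hM2 hW0
    nlinarith [h6, h7, h8]
  · -- the gradient
    set b1 : E3 → ℝ := fun y => (inner ℝ (grad χ y) (w y) : ℝ) with hb1
    set b2 : E3 → E3 := fun y => cr (grad χ y) (w y) with hb2
    have hχs := hχ.cc.smooth
    have hb1c : Cc b1 := cc_inner_left (cc_grad hχ.cc) hw.smooth
    have hb2c : Cc b2 := cc_cr_left (cc_grad hχ.cc) hw.smooth
    obtain ⟨hH1, hH1'⟩ := Z2_hess hb1c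
    obtain ⟨hH2, hH2'⟩ := Z2_hess hb2c
    set τ : E3 → E3 := fun x => curl β x - χ x • w x with hτ
    have hτs : ContDiff ℝ ∞ τ := (curl_smooth hβs).sub (sm_smooth hχs hw.smooth)
    have hτe : τ = fun x => grad (NP b1) x - curl (NP b2) x := by
      funext x
      have := curl_bet hχ.cc hw x
      simp only [hτ, hβdef]
      rw [this]
      simp only [hb1, hb2]
      abel
    have hρe : (fun x => BB χ w x - χ x ^ 2 • w x) =
        fun x => cr (grad χ x) (β x) + sm χ τ x := by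
      funext x
      have : BB χ w x = curl (sm χ β) x := rfl
      rw [this, curl_sm (Z2_diff hχs x) (Z2_diff hβs x)]
      simp only [sm, hτ, smul_sub, smul_smul]
      rw [pow_two]
      abel
    rw [hρe]
    have hGs := grad_smooth hχs
    have hcrs := cr_smooth hGs hβs
    have hNP1 := grad_smooth (NP_smooth hb1c)
    have hNP2 := curl_smooth (NP_smooth hb2c)
    -- pointwise bound
    have hDI : ∀ x i, ‖D i (fun x => cr (grad χ x) (β x) + sm χ τ x) x‖ ^ 2 ≤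
        4 * ((Metric.ball a R).indicator (fun x => 3 * (K / R ^ 2) ^ 2 * ‖β x‖ ^ 2) x +
          3 * (K / R) ^ 2 * ‖D i β x‖ ^ 2 +
          (K / R) ^ 2 * (Metric.ball a R).indicator (fun x => ‖τ x‖ ^ 2) x +
          K ^ 2 * ‖D i τ x‖ ^ 2) := by
      intro x i
      rw [D_add (Z2_diff hcrs x) (Z2_diff (sm_smooth hχs hτs) x), Z2_D_cr hGs hβs,
        D_sm (Z2_diff hχs x) (Z2_diff hτs x), ← add_assoc]
      refine (Z2_four _ _ _ _).trans ?_
      refine mul_le_mul_of_nonneg_left ?_ (by norm_num)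
      refine add_le_add (add_le_add (add_le_add ?_ ?_) ?_) ?_
      · by_cases hx : x ∈ Metric.ball a R
        · rw [indicator_of_mem hx]
          calc ‖cr (D i (grad χ) x) (β x)‖ ^ 2 ≤ (‖D i (grad χ) x‖ * ‖β x‖) ^ 2 :=
                pow_le_pow_left₀ (norm_nonneg _) (norm_cr_le _ _) 2
            _ = ‖D i (grad χ) x‖ ^ 2 * ‖β x‖ ^ 2 := by ring
            _ ≤ 3 * (K / R ^ 2) ^ 2 * ‖β x‖ ^ 2 := by
              refine mul_le_mul_of_nonneg_right ?_ (sq_nonneg _)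
              rw [Z2_norm_D_grad hχs]
              calc ∑ j, ‖D i (D j χ) x‖ ^ 2 ≤ ∑ _j : Fin 3, (K / R ^ 2) ^ 2 := by
                    refine Finset.sum_le_sum fun j _ => ?_
                    exact pow_le_pow_left₀ (norm_nonneg _)
                      (by rw [Real.norm_eq_abs]; exact hχ.d2 i j x) 2
                _ = 3 * (K / R ^ 2) ^ 2 := by simp
        · rw [indicator_of_notMem hx]
          have hx' := hout x hx
          have hg0 : ∀ y, R ≤ ‖y - a‖ → grad χ y = 0 := by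
            intro y hy
            have : ‖grad χ y‖ ^ 2 = 0 := by
              rw [norm_grad_sq]
              simp [Z2_D_zero hχs hR hχ.supp _ y hy]
            simpa using this
          rw [Z2_D_zero hGs hR hg0 i x hx']
          have : cr (0 : E3) (β x) = 0 := by
            have := norm_cr_le (0 : E3) (β x)
            rw [norm_zero, zero_mul] at this
            exact norm_le_zero_iff.1 this
          rw [this]; simp
      · calc ‖cr (grad χ x) (D i β x)‖ ^ 2 ≤ (‖grad χ x‖ * ‖D i β x‖) ^ 2 :=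
              pow_le_pow_left₀ (norm_nonneg _) (norm_cr_le _ _) 2
          _ = ‖grad χ x‖ ^ 2 * ‖D i β x‖ ^ 2 := by ring
          _ ≤ 3 * (K / R) ^ 2 * ‖D i β x‖ ^ 2 := by
            refine mul_le_mul_of_nonneg_right ((Z2_grad_le hR hχ x).trans ?_) (sq_nonneg _)
            exact indicator_le_self' (fun _ _ => by positivity) x
      · by_cases hx : x ∈ Metric.ball a R
        · rw [indicator_of_mem hx, norm_smul, mul_pow]
          exact mul_le_mul_of_nonneg_right (pow_le_pow_left₀ (norm_nonneg _)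
            (by rw [Real.norm_eq_abs]; exact hχ.d1 i x) 2) (sq_nonneg _)
        · rw [indicator_of_notMem hx, Z2_D_zero hχs hR hχ.supp i x (hout x hx)]; simp
      · rw [norm_smul, mul_pow, Real.norm_eq_abs, sq_abs]
        exact mul_le_mul_of_nonneg_right (hχK x) (sq_nonneg _)
    have hτ2 : ∀ x, (Metric.ball a R).indicator (fun x => ‖τ x‖ ^ 2) x ≤
        4 * ∑ i, ‖D i β x‖ ^ 2 + 2 * K ^ 2 * (Metric.ball a R).indicator (fun x => ‖w x‖ ^ 2) x := by
      intro x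
      by_cases hx : x ∈ Metric.ball a R
      · rw [indicator_of_mem hx, indicator_of_mem hx]
        have h3 := Z2_two' (curl β x) (χ x • w x)
        have h4 := norm_curl_sq_le β x
        have h5 : ‖χ x • w x‖ ^ 2 ≤ K ^ 2 * ‖w x‖ ^ 2 := by
          rw [norm_smul, mul_pow, Real.norm_eq_abs, sq_abs]
          exact mul_le_mul_of_nonneg_right (hχK x) (sq_nonneg _)
        simp only [hτ]
        linarith
      · rw [indicator_of_notMem hx, indicator_of_notMem hx]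
        have : 0 ≤ ∑ i, ‖D i β x‖ ^ 2 := Finset.sum_nonneg fun i _ => sq_nonneg _
        linarith
    have hτ3 : ∀ x, ∑ i, ‖D i τ x‖ ^ 2 ≤ 2 * ∑ j, ∑ i, ‖D i (D j (NP b1)) x‖ ^ 2 +
        4 * ∑ j, ∑ i, ‖D i (D j (NP b2)) x‖ ^ 2 := by
      intro x
      rw [hτe]
      have h3 : ∀ i ∈ (Finset.univ : Finset (Fin 3)),
          ‖D i (fun x => grad (NP b1) x - curl (NP b2) x) x‖ ^ 2 ≤
          2 * ∑ j, ‖D i (D j (NP b1)) x‖ ^ 2 + 4 * ∑ j, ‖D j (D i (NP b2)) x‖ ^ 2 := by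
        intro i _
        rw [D_sub (Z2_diff hNP1 x) (Z2_diff hNP2 x)]
        have h4 := Z2_two' (D i (grad (NP b1)) x) (D i (curl (NP b2)) x)
        have h5 := Z2_norm_D_grad (NP_smooth hb1c) i x
        have h6 := Z2_norm_D_curl (NP_smooth hb2c) i x
        linarith
      refine (Finset.sum_le_sum h3).trans (le_of_eq ?_)
      rw [Finset.sum_add_distrib, ← Finset.mul_sum, ← Finset.mul_sum]
      congr 2
      rw [Finset.sum_comm]
    have hβI : ∀ i, Integrable (fun x => ‖D i β x‖ ^ 2) volume := fun i =>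
      Z2_integrable_sq (Decay.D_memLp (hβs.of_le ENat.LEInfty.out) hβd i)
    have hβI' : Integrable (fun x => ∑ i, ‖D i β x‖ ^ 2) volume :=
      integrable_finsetSum _ fun i _ => hβI i
    have hβball : Integrable ((Metric.ball a R).indicator fun x => ‖β x‖ ^ 2) volume := by
      rw [integrable_indicator_iff measurableSet_ball]
      exact ((hβs.continuous.norm.pow 2).continuousOn.integrableOn_compact
        (isCompact_closedBall a R)).mono_set Metric.ball_subset_closedBall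
    have hβE : ∫ x, (Metric.ball a R).indicator (fun x => ‖β x‖ ^ 2) x =
        sqOn (Metric.ball a R) β := integral_indicator measurableSet_ball
    -- total pointwise bound
    have hpt : ∀ x, ∑ i, ‖D i (fun x => cr (grad χ x) (β x) + sm χ τ x) x‖ ^ 2 ≤
        36 * (K / R ^ 2) ^ 2 * (Metric.ball a R).indicator (fun x => ‖β x‖ ^ 2) x +
        60 * (K / R) ^ 2 * ∑ i, ‖D i β x‖ ^ 2 +
        24 * (K / R) ^ 2 * K ^ 2 * (Metric.ball a R).indicator (fun x => ‖w x‖ ^ 2) x +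
        8 * K ^ 2 * ∑ j, ∑ i, ‖D i (D j (NP b1)) x‖ ^ 2 +
        16 * K ^ 2 * ∑ j, ∑ i, ‖D i (D j (NP b2)) x‖ ^ 2 := by
      intro x
      have h3 := Finset.sum_le_sum (s := (Finset.univ : Finset (Fin 3))) fun i _ => hDI x i
      rw [← Finset.mul_sum] at h3
      simp only [Finset.sum_add_distrib, Finset.sum_const, Finset.card_univ, Fintype.card_fin,
        nsmul_eq_mul, ← Finset.mul_sum] at h3
      have h4 : (Metric.ball a R).indicator (fun x => 3 * (K / R ^ 2) ^ 2 * ‖β x‖ ^ 2) x =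
          3 * (K / R ^ 2) ^ 2 * (Metric.ball a R).indicator (fun x => ‖β x‖ ^ 2) x := by
        by_cases hx : x ∈ Metric.ball a R
        · rw [indicator_of_mem hx, indicator_of_mem hx]
        · rw [indicator_of_notMem hx, indicator_of_notMem hx]; ring
      rw [h4] at h3
      have h5 := mul_le_mul_of_nonneg_left (hτ2 x) (sq_nonneg (K / R))
      have h6 := mul_le_mul_of_nonneg_left (hτ3 x) (sq_nonneg K)
      push_cast at h3
      nlinarith [h3, h5, h6]
    have hint : Integrable (fun x =>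
        36 * (K / R ^ 2) ^ 2 * (Metric.ball a R).indicator (fun x => ‖β x‖ ^ 2) x +
        60 * (K / R) ^ 2 * ∑ i, ‖D i β x‖ ^ 2 +
        24 * (K / R) ^ 2 * K ^ 2 * (Metric.ball a R).indicator (fun x => ‖w x‖ ^ 2) x +
        8 * K ^ 2 * ∑ j, ∑ i, ‖D i (D j (NP b1)) x‖ ^ 2 +
        16 * K ^ 2 * ∑ j, ∑ i, ‖D i (D j (NP b2)) x‖ ^ 2) volume :=
      ((((hβball.const_mul _).add (hβI'.const_mul _)).add (hwI.const_mul _)).add
        (hH1.const_mul _)).add (hH2.const_mul _)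
    have hle := Z2_int_mono hint (fun x => Finset.sum_nonneg fun i _ => sq_nonneg _) hpt
    rw [Z2_int5 (hβball.const_mul _) (hβI'.const_mul _) (hwI.const_mul _) (hH1.const_mul _)
      (hH2.const_mul _)] at hle
    simp only [integral_const_mul] at hle
    rw [hβE, hwE, hH1', hH2'] at hle
    have hb1s : sq b1 ≤ 3 * (K / R) ^ 2 * sqOn (Metric.ball a R) w := by
      have hpt1 : ∀ x, ‖b1 x‖ ^ 2 ≤ 3 * (K / R) ^ 2 *
          (Metric.ball a R).indicator (fun x => ‖w x‖ ^ 2) x := by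
        intro x
        have h3 : ‖b1 x‖ ^ 2 ≤ ‖grad χ x‖ ^ 2 * ‖w x‖ ^ 2 := by
          calc ‖b1 x‖ ^ 2 ≤ (‖grad χ x‖ * ‖w x‖) ^ 2 :=
                pow_le_pow_left₀ (norm_nonneg _) (norm_inner_le_norm _ _) 2
            _ = _ := by ring
        refine h3.trans ((mul_le_mul_of_nonneg_right (Z2_grad_le hR hχ x) (sq_nonneg _)).trans ?_)
        by_cases hx : x ∈ Metric.ball a R
        · rw [indicator_of_mem hx, indicator_of_mem hx]
        · rw [indicator_of_notMem hx, indicator_of_notMem hx]; simp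
      have := Z2_int_mono (hwI.const_mul (3 * (K / R) ^ 2)) (fun x => sq_nonneg _) hpt1
      rw [integral_const_mul, hwE] at this
      exact this
    have hb2s : sq b2 ≤ 3 * (K / R) ^ 2 * sqOn (Metric.ball a R) w := by
      have hpt1 : ∀ x, ‖b2 x‖ ^ 2 ≤ 3 * (K / R) ^ 2 *
          (Metric.ball a R).indicator (fun x => ‖w x‖ ^ 2) x := by
        intro x
        have h3 : ‖b2 x‖ ^ 2 ≤ ‖grad χ x‖ ^ 2 * ‖w x‖ ^ 2 := by
          calc ‖b2 x‖ ^ 2 ≤ (‖grad χ x‖ * ‖w x‖) ^ 2 :=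
                pow_le_pow_left₀ (norm_nonneg _) (norm_cr_le _ _) 2
            _ = _ := by ring
        refine h3.trans ((mul_le_mul_of_nonneg_right (Z2_grad_le hR hχ x) (sq_nonneg _)).trans ?_)
        by_cases hx : x ∈ Metric.ball a R
        · rw [indicator_of_mem hx, indicator_of_mem hx]
        · rw [indicator_of_notMem hx, indicator_of_notMem hx]; simp
      have := Z2_int_mono (hwI.const_mul (3 * (K / R) ^ 2)) (fun x => sq_nonneg _) hpt1
      rw [integral_const_mul, hwE] at this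
      exact this
    have hhardy : sqOn (Metric.ball a R) β ≤ 4 * R ^ 2 * gsq β :=
      hardy (hβs.of_le ENat.LEInfty.out) hβd a hR
    have hβg : (∫ x, ∑ i, ‖D i β x‖ ^ 2) = gsq β := rfl
    rw [hβg] at hle
    have hgW : gsq β ≤ C2 ^ 2 * sqOn (Metric.ball a R) w := by rw [hg]; exact hZ2
    have hfin : gsq (fun x => cr (grad χ x) (β x) + sm χ τ x) ≤
        204 * (K / R) ^ 2 * gsq β + 96 * K ^ 4 / R ^ 2 * sqOn (Metric.ball a R) w := by
      have e1 : 36 * (K / R ^ 2) ^ 2 * sqOn (Metric.ball a R) β ≤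
          144 * (K / R) ^ 2 * gsq β := by
        have := mul_le_mul_of_nonneg_left hhardy (by positivity : 0 ≤ 36 * (K / R ^ 2) ^ 2)
        refine this.trans (le_of_eq ?_)
        field_simp
        ring
      have e2 := mul_le_mul_of_nonneg_left hb1s (by positivity : 0 ≤ 8 * K ^ 2)
      have e3 := mul_le_mul_of_nonneg_left hb2s (by positivity : 0 ≤ 16 * K ^ 2)
      have e4 : 24 * (K / R) ^ 2 * K ^ 2 * sqOn (Metric.ball a R) w +
          8 * K ^ 2 * (3 * (K / R) ^ 2 * sqOn (Metric.ball a R) w) +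
          16 * K ^ 2 * (3 * (K / R) ^ 2 * sqOn (Metric.ball a R) w) =
          96 * K ^ 4 / R ^ 2 * sqOn (Metric.ball a R) w := by
        field_simp
        ring
      refine hle.trans ?_
      linarith
    refine hfin.trans ?_
    have e5 : 204 * (K / R) ^ 2 * gsq β ≤
        204 * (K / R) ^ 2 * (C2 ^ 2 * sqOn (Metric.ball a R) w) :=
      mul_le_mul_of_nonneg_left hgW (by positivity)
    have e6 : 204 * (K / R) ^ 2 * (C2 ^ 2 * sqOn (Metric.ball a R) w) +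
        96 * K ^ 4 / R ^ 2 * sqOn (Metric.ball a R) w =
        (204 * K ^ 2 * C2 ^ 2 + 96 * K ^ 4) / R ^ 2 * sqOn (Metric.ball a R) w := by
      field_simp
    have e7 : (204 * K ^ 2 * C2 ^ 2 + 96 * K ^ 4) / R ^ 2 * sqOn (Metric.ball a R) w ≤
        M / R ^ 2 * sqOn (Metric.ball a R) w :=
      mul_le_mul_of_nonneg_right (div_le_div_of_nonneg_right hM3 (by positivity)) hW0
    linarith

/-- bounds of `BB χ w` and of `ρ = BB χ w - χ² w` with constants depending only on `K` -/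
theorem BB_bounds (K : ℝ) : ∃ C : ℝ, 0 ≤ C ∧ ∀ (a : E3) (R : ℝ) (χ : E3 → ℝ), 0 < R →
    Cut a R K χ → ∀ w : E3 → E3, Sml w →
      sq (BB χ w) ≤ C * Zf χ w ^ 2 ∧
      sq (fun x => BB χ w x - χ x ^ 2 • w x) ≤ C * sqOn (Metric.ball a R) w ∧
      gsq (fun x => BB χ w x - χ x ^ 2 • w x) ≤ C / R ^ 2 * sqOn (Metric.ball a R) w :=
  Z2_main K

theorem BB_gsq (K : ℝ) : ∃ C : ℝ, 0 ≤ C ∧ ∀ (a : E3) (R : ℝ) (χ : E3 → ℝ), 0 < R →
    Cut a R K χ → ∀ w : E3 → E3, Sml w → (∀ i, MemLp (D i w) 2 volume) →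
      Real.sqrt (gsq (BB χ w)) ≤ C * Real.sqrt (gsq w) + C / R * Real.sqrt (sq w) := by
  obtain ⟨C, hC, h⟩ := BB_bounds K
  refine ⟨Real.sqrt (48 * K ^ 4 + 2 * C), Real.sqrt_nonneg _, ?_⟩
  intro a R χ hR hχ w hw hwD
  have hK := Z2_cut_nonneg hχ
  have hχs := hχ.cc.smooth
  obtain ⟨-, -, hρ⟩ := h a R χ hR hχ w hw
  set ρ : E3 → E3 := fun x => BB χ w x - χ x ^ 2 • w x with hρdef
  have hBs : ContDiff ℝ ∞ (BB χ w) := (BB_cc hχ.cc hw).1.smooth
  have hBc : Cc (BB χ w) := (BB_cc hχ.cc hw).1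
  have hχ2s : ContDiff ℝ ∞ (fun x => χ x * χ x) := hχs.mul hχs
  have hχ2c : Cc (fun x => χ x * χ x) := by
    have := cc_sm hχ.cc hχs
    exact this
  have hsm : Cc (sm (fun x => χ x * χ x) w) := cc_sm hχ2c hw.smooth
  have hρe : ρ = fun x => BB χ w x - sm (fun x => χ x * χ x) w x := by
    funext x
    simp only [hρdef, sm, pow_two]
  have hρc : Cc ρ := by rw [hρe]; exact cc_sub hBc hsm
  have hρI : Integrable (fun x => ∑ i, ‖D i ρ x‖ ^ 2) volume :=
    integrable_finsetSum _ fun i _ => Z2_integrable_sq (cc_memLp (cc_D hρc i) 2)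
  have hwI : Integrable (fun x => ‖w x‖ ^ 2) volume := Z2_integrable_sq hw.l2
  have hwDI : Integrable (fun x => ∑ i, ‖D i w x‖ ^ 2) volume :=
    integrable_finsetSum _ fun i _ => Z2_integrable_sq (hwD i)
  have hχK : ∀ x, χ x ^ 2 ≤ K ^ 2 := by
    intro x
    have := pow_le_pow_left₀ (abs_nonneg _) (hχ.bd x) 2
    rwa [sq_abs] at this
  have hpt : ∀ x, ∑ i, ‖D i (BB χ w) x‖ ^ 2 ≤ 2 * ∑ i, ‖D i ρ x‖ ^ 2 +
      48 * K ^ 4 / R ^ 2 * ‖w x‖ ^ 2 + 4 * K ^ 4 * ∑ i, ‖D i w x‖ ^ 2 := by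
    intro x
    have hi : ∀ i ∈ (Finset.univ : Finset (Fin 3)), ‖D i (BB χ w) x‖ ^ 2 ≤
        2 * ‖D i ρ x‖ ^ 2 + 16 * K ^ 4 / R ^ 2 * ‖w x‖ ^ 2 + 4 * K ^ 4 * ‖D i w x‖ ^ 2 := by
      intro i _
      have e1 : BB χ w = fun x => ρ x + sm (fun x => χ x * χ x) w x := by
        funext y
        rw [hρe]; simp
      have e2 : D i (BB χ w) x = D i ρ x + (D i (fun x => χ x * χ x) x • w x +
          (χ x * χ x) • D i w x) := by
        rw [e1, D_add (Z2_diff hρc.smooth x) (Z2_diff hsm.smooth x),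
          D_sm (Z2_diff hχ2s x) (Z2_diff hw.smooth x)]
      have e3 : D i (fun x => χ x * χ x) x = 2 * χ x * D i χ x := by
        rw [D_mul (Z2_diff hχs x) (Z2_diff hχs x)]; ring
      rw [e2, e3]
      have h3 := Z2_two (D i ρ x) ((2 * χ x * D i χ x) • w x + (χ x * χ x) • D i w x)
      have h4 := Z2_two ((2 * χ x * D i χ x) • w x) ((χ x * χ x) • D i w x)
      have hd : (D i χ x) ^ 2 ≤ (K / R) ^ 2 := by
        have := pow_le_pow_left₀ (abs_nonneg _) (hχ.d1 i x) 2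
        rwa [sq_abs] at this
      have h5 : ‖(2 * χ x * D i χ x) • w x‖ ^ 2 ≤ 4 * K ^ 4 / R ^ 2 * ‖w x‖ ^ 2 := by
        rw [norm_smul, mul_pow, Real.norm_eq_abs, sq_abs]
        refine mul_le_mul_of_nonneg_right ?_ (sq_nonneg _)
        calc (2 * χ x * D i χ x) ^ 2 = 4 * (χ x ^ 2 * (D i χ x) ^ 2) := by ring
          _ ≤ 4 * (K ^ 2 * (K / R) ^ 2) := by
            refine mul_le_mul_of_nonneg_left ?_ (by norm_num)
            exact mul_le_mul (hχK x) hd (sq_nonneg _) (sq_nonneg _)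
          _ = 4 * K ^ 4 / R ^ 2 := by field_simp
      have h6 : ‖(χ x * χ x) • D i w x‖ ^ 2 ≤ K ^ 4 * ‖D i w x‖ ^ 2 := by
        rw [norm_smul, mul_pow, Real.norm_eq_abs, sq_abs]
        refine mul_le_mul_of_nonneg_right ?_ (sq_nonneg _)
        calc (χ x * χ x) ^ 2 = χ x ^ 2 * χ x ^ 2 := by ring
          _ ≤ K ^ 2 * K ^ 2 := mul_le_mul (hχK x) (hχK x) (sq_nonneg _) (sq_nonneg _)
          _ = K ^ 4 := by ring
      have h7 : 16 * K ^ 4 / R ^ 2 * ‖w x‖ ^ 2 = 4 * (4 * K ^ 4 / R ^ 2 * ‖w x‖ ^ 2) := by ring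
      rw [h7]
      linarith
    refine (Finset.sum_le_sum hi).trans (le_of_eq ?_)
    simp only [Finset.sum_add_distrib, Finset.sum_const, Finset.card_univ, Fintype.card_fin,
        nsmul_eq_mul, ← Finset.mul_sum]
    push_cast
    ring
  have hle := Z2_int_mono (((hρI.const_mul 2).add (hwI.const_mul (48 * K ^ 4 / R ^ 2))).add
    (hwDI.const_mul (4 * K ^ 4))) (fun x => Finset.sum_nonneg fun i _ => sq_nonneg _) hpt
  simp only [Pi.add_apply] at hle
  rw [Z2_int3 (hρI.const_mul 2) (hwI.const_mul (48 * K ^ 4 / R ^ 2))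
    (hwDI.const_mul (4 * K ^ 4))] at hle
  simp only [integral_const_mul] at hle
  have hle' : gsq (BB χ w) ≤ 2 * gsq ρ + 48 * K ^ 4 / R ^ 2 * sq w + 4 * K ^ 4 * gsq w := hle
  have hsw : sqOn (Metric.ball a R) w ≤ sq w := sqOn_le_sq _ hw.l2
  have h8 : C / R ^ 2 * sqOn (Metric.ball a R) w ≤ C / R ^ 2 * sq w :=
    mul_le_mul_of_nonneg_left hsw (by positivity)
  have hg0 : 0 ≤ gsq w := gsq_nonneg w
  have hs0 : 0 ≤ sq w := sq_nonneg' w
  have h9 : gsq (BB χ w) ≤ (48 * K ^ 4 + 2 * C) * gsq w + (48 * K ^ 4 + 2 * C) / R ^ 2 * sq w := by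
    have e1 : (48 * K ^ 4 + 2 * C) / R ^ 2 * sq w =
        48 * K ^ 4 / R ^ 2 * sq w + 2 * (C / R ^ 2 * sq w) := by ring
    have e2 : 4 * K ^ 4 * gsq w ≤ (48 * K ^ 4 + 2 * C) * gsq w :=
      mul_le_mul_of_nonneg_right (by nlinarith [pow_nonneg hK 4]) hg0
    rw [e1]
    linarith
  calc Real.sqrt (gsq (BB χ w))
      ≤ Real.sqrt ((48 * K ^ 4 + 2 * C) * gsq w + (48 * K ^ 4 + 2 * C) / R ^ 2 * sq w) :=
        Real.sqrt_le_sqrt h9
    _ ≤ Real.sqrt ((48 * K ^ 4 + 2 * C) * gsq w) +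
        Real.sqrt ((48 * K ^ 4 + 2 * C) / R ^ 2 * sq w) :=
        Z2_sqrt_add (by positivity) (by positivity)
    _ = _ := by
      rw [Real.sqrt_mul (by positivity), Real.sqrt_mul (by positivity),
        Real.sqrt_div (by positivity), Real.sqrt_sq hR.le]

end Pool.Agent.Helper60.EC
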