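import Pool.Agent.Helper60.EC.Z1

/-! Project EC, Z3: comparison of Zf and the local energy, smooth fields -/

set_option autoImplicit false

open MeasureTheory Set Filter Topology
open scoped ENNReal ContDiff

noncomputable section

namespace Pool.Agent.Helper60.EC

open Pool.Agent.Helper52.NSE (E3 pd divg TestField)

theorem Z3_memLp_ball {F : Type} [NormedAddCommGroup F] [InnerProductSpace ℝ F]
    [FiniteDimensional ℝ F] {f : E3 → F} (hf : Continuous f) (a : E3) (R : ℝ) :
    MemLp f 2 (volume.restrict (Metric.ball a R)) := by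
  have h1 : MemLp f 2 (volume.restrict (Metric.closedBall a R)) := by
    obtain ⟨C, hC⟩ := (isCompact_closedBall a R).exists_bound_of_continuousOn hf.continuousOn
    have hfin : (volume : Measure E3) (Metric.closedBall a R) < ⊤ :=
      (isCompact_closedBall a R).measure_lt_top
    have : IsFiniteMeasure ((volume : Measure E3).restrict (Metric.closedBall a R)) :=
      ⟨by rwa [Measure.restrict_apply_univ]⟩
    refine MemLp.of_bound hf.aestronglyMeasurable C ?_
    rw [ae_restrict_iff' measurableSet_closedBall]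
    exact Filter.Eventually.of_forall hC
  exact h1.mono_measure (Measure.restrict_mono Metric.ball_subset_closedBall le_rfl)

theorem n1_le {F : Type} [NormedAddCommGroup F] [InnerProductSpace ℝ F] [FiniteDimensional ℝ F]
    {b : E3 → F} (hb : Cc b) {a : E3} {R : ℝ} (hR : 0 < R) (h0 : ∀ x, R ≤ ‖x - a‖ → b x = 0) :
    0 ≤ ip b (NP b) ∧ ip b (NP b) ≤ 4 * R ^ 2 * sq b := by
  have hE : gsq (NP b) = ip b (NP b) := NP_energy hb
  have hg : 0 ≤ ip b (NP b) := by rw [← hE]; exact gsq_nonneg _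
  refine ⟨hg, ?_⟩
  have hs := NP_smooth hb
  have h1 : sqOn (Metric.ball a R) (NP b) ≤ 4 * R ^ 2 * gsq (NP b) :=
    hardy (hs.of_le (by exact_mod_cast le_top)) (NP_decay hb) a hR
  have h2 : |ip (NP b) b| ≤ Real.sqrt (sqOn (Metric.ball a R) (NP b)) * Real.sqrt (sq b) := by
    refine ip_le_on measurableSet_ball (Z3_memLp_ball hs.continuous a R) (cc_memLp hb 2) ?_
    intro x hx
    apply h0
    rw [← dist_eq_norm]
    simpa [Metric.mem_ball] using hx
  rw [ip_comm] at h2
  have h3 : ip b (NP b) ≤ Real.sqrt (4 * R ^ 2 * ip b (NP b)) * Real.sqrt (sq b) := by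
    refine (le_abs_self _).trans (h2.trans ?_)
    refine mul_le_mul_of_nonneg_right (Real.sqrt_le_sqrt ?_) (Real.sqrt_nonneg _)
    rw [← hE]
    exact h1
  have h4 : ip b (NP b) ^ 2 ≤ 4 * R ^ 2 * ip b (NP b) * sq b := by
    have h5 := pow_le_pow_left₀ hg h3 2
    rwa [mul_pow, Real.sq_sqrt (by positivity), Real.sq_sqrt (sq_nonneg' b)] at h5
  rcases hg.eq_or_lt with h | h
  · rw [← h]
    have := sq_nonneg' b
    positivity
  · have h6 : ip b (NP b) * ip b (NP b) ≤ (4 * R ^ 2 * sq b) * ip b (NP b) := by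
      nlinarith
    exact le_of_mul_le_mul_right h6 h

/-- Cauchy-Schwarz for the gradients -/
theorem Z3_cs {F : Type} [NormedAddCommGroup F] [InnerProductSpace ℝ F] [FiniteDimensional ℝ F]
    {f g : E3 → F} (hf : ∀ i, MemLp (D i f) 2 volume) (hg : ∀ i, MemLp (D i g) 2 volume) :
    |∫ x, ∑ i, (inner ℝ (D i f x) (D i g x) : ℝ)| ≤ Real.sqrt (gsq f) * Real.sqrt (gsq g) := by
  have h1 : ∫ x, ∑ i, (inner ℝ (D i f x) (D i g x) : ℝ) = ∑ i, ip (D i f) (D i g) := by
    rw [integral_finsetSum]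
    · rfl
    · intro i _
      have h1 := hf i
      have h2 := hg i
      rw [memLp_two_iff_integrable_sq_norm h1.1] at h1
      rw [memLp_two_iff_integrable_sq_norm h2.1] at h2
      refine (h1.add h2).mono' ((hf i).1.inner (hg i).1) (Filter.Eventually.of_forall fun x => ?_)
      rw [Real.norm_eq_abs]
      refine (abs_real_inner_le_norm _ _).trans ?_
      simp only [Pi.add_apply]
      nlinarith [sq_nonneg (‖D i f x‖ - ‖D i g x‖), sq_nonneg (‖D i f x‖), sq_nonneg (‖D i g x‖)]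
  rw [h1, gsq_eq_sum hf, gsq_eq_sum hg]
  refine (Finset.abs_sum_le_sum_abs _ _).trans ?_
  refine (Finset.sum_le_sum fun i _ => ip_le (hf i) (hg i)).trans ?_
  exact Real.sum_sqrt_mul_sqrt_le _ (fun i => sq_nonneg' _) (fun i => sq_nonneg' _)

theorem Z3_sq_sm_le {a : E3} {R K : ℝ} {χ : E3 → ℝ} (hχ : Cut a R K χ) {w : E3 → E3}
    (hw : ContDiff ℝ ∞ w) : sq (sm χ w) ≤ K ^ 2 * sqOn (Metric.ball a R) w := by
  have hI : Integrable (fun x => ‖sm χ w x‖ ^ 2) volume := by
    have := cc_memLp (cc_sm hχ.cc hw) 2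
    rwa [memLp_two_iff_integrable_sq_norm this.1] at this
  have h1 : sq (sm χ w) = ∫ x in Metric.ball a R, ‖sm χ w x‖ ^ 2 := by
    unfold sq
    symm
    apply setIntegral_eq_integral_of_forall_compl_eq_zero
    intro x hx
    have : χ x = 0 := hχ.supp x (by
      rw [← dist_eq_norm]
      simpa [Metric.mem_ball] using hx)
    simp [sm, this]
  rw [h1]
  unfold sqOn
  rw [← integral_const_mul]
  have h2 := (Z3_memLp_ball (F := E3) hw.continuous a R)
  rw [memLp_two_iff_integrable_sq_norm h2.1] at h2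
  refine integral_mono hI.restrict (h2.const_mul _) fun x => ?_
  simp only [sm]
  rw [norm_smul, mul_pow, Real.norm_eq_abs]
  exact mul_le_mul_of_nonneg_right (pow_le_pow_left₀ (abs_nonneg _) (hχ.bd x) 2) (by positivity)

/-- `|Zf² - ∫ χ²|w|²|` is controlled by the `H⁻¹` norms of `∇χ · w` and `∇χ × w` -/
theorem Zf_compare (K : ℝ) : ∃ C : ℝ, 0 ≤ C ∧ ∀ (a : E3) (R : ℝ) (χ : E3 → ℝ), 0 < R →
    Cut a R K χ → ∀ w : E3 → E3, Sml w →
      |Zf χ w ^ 2 - sq (sm χ w)| ≤ C * Real.sqrt (sqOn (Metric.ball a R) w) *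
        (Real.sqrt (ip (fun y => (inner ℝ (grad χ y) (w y) : ℝ))
            (NP fun y => (inner ℝ (grad χ y) (w y) : ℝ))) +
          Real.sqrt (ip (fun y => cr (grad χ y) (w y)) (NP fun y => cr (grad χ y) (w y)))) := by
  obtain ⟨C0, hC0, hC⟩ := Zf_le K
  refine ⟨C0 + 2 * |K|, by positivity, ?_⟩
  intro a R χ hR hχ w hw
  have hZ := hC a R χ hR hχ w hw.l2
  obtain ⟨hβs, hβd⟩ := bet_smooth hχ.cc hw
  obtain ⟨hZ1, hZ2⟩ := Zf_sq hχ.cc hw
  set b1 : E3 → ℝ := fun y => (inner ℝ (grad χ y) (w y) : ℝ) with hb1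
  set b2 : E3 → E3 := fun y => cr (grad χ y) (w y) with hb2
  set β := bet χ w with hβ
  have hc1 : Cc b1 := cc_inner_left (cc_grad hχ.cc) hw.smooth
  have hc2 : Cc b2 := cc_cr_left (cc_grad hχ.cc) hw.smooth
  have hN1 := NP_smooth hc1
  have hN2 := NP_smooth hc2
  have hd1 : ∀ i, MemLp (D i (NP b1)) 2 volume :=
    (NP_decay hc1).D_memLp (hN1.of_le (by exact_mod_cast le_top))
  have hd2 : ∀ i, MemLp (D i (NP b2)) 2 volume :=
    (NP_decay hc2).D_memLp (hN2.of_le (by exact_mod_cast le_top))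
  have hdβ : ∀ i, MemLp (D i β) 2 volume :=
    hβd.D_memLp (hβs.of_le (by exact_mod_cast le_top))
  have hcw : Cc (sm χ w) := cc_sm hχ.cc hw.smooth
  have hwc : Cc (sm χ w) := hcw
  set G1 : E3 → E3 := grad (NP b1) with hG1
  set G2 : E3 → E3 := curl (NP b2) with hG2
  have hG1s : ContDiff ℝ ∞ G1 := grad_smooth hN1
  have hG2s : ContDiff ℝ ∞ G2 := curl_smooth hN2
  -- pointwise identity
  have hpt : ∀ x, (inner ℝ (w x) (BB χ w x) : ℝ) =
      (‖sm χ w x‖ ^ 2 + inner ℝ (sm χ w x) (G1 x)) - inner ℝ (sm χ w x) (G2 x) -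
        inner ℝ (b2 x) (β x) := by
    intro x
    have e1 : BB χ w x = cr (grad χ x) (β x) + χ x • curl β x := by
      unfold BB
      exact curl_sm (hχ.cc.smooth.differentiable (by simp) x) (hβs.differentiable (by simp) x)
    have e2 : curl β x = χ x • w x + G1 x - G2 x := curl_bet hχ.cc hw x
    rw [e1, e2]
    simp only [sm]
    rw [← real_inner_self_eq_norm_sq]
    simp only [inner_add_right, inner_sub_right, inner_smul_left, inner_smul_right, smul_add,
      smul_sub, RCLike.conj_to_real]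
    have e3 : (inner ℝ (w x) (cr (grad χ x) (β x)) : ℝ) = - inner ℝ (b2 x) (β x) := by
      rw [hb2, Calc3b_inner, Calc3b_inner]
      simp only [Calc3b_cr0, Calc3b_cr1, Calc3b_cr2]
      ring
    rw [e3]
    ring
  have i1 : Integrable (fun x => ‖sm χ w x‖ ^ 2) volume := by
    have := cc_memLp hcw 2
    rwa [memLp_two_iff_integrable_sq_norm this.1] at this
  have i2 : Integrable (fun x => (inner ℝ (sm χ w x) (G1 x) : ℝ)) volume :=
    Calc2a_int (hcw.smooth.continuous.inner hG1s.continuous) (Calc2a_inner_comp (Or.inl hcw.comp))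
  have i3 : Integrable (fun x => (inner ℝ (sm χ w x) (G2 x) : ℝ)) volume :=
    Calc2a_int (hcw.smooth.continuous.inner hG2s.continuous) (Calc2a_inner_comp (Or.inl hcw.comp))
  have i4 : Integrable (fun x => (inner ℝ (b2 x) (β x) : ℝ)) volume :=
    Calc2a_int (hc2.smooth.continuous.inner hβs.continuous) (Calc2a_inner_comp (Or.inl hc2.comp))
  have hsum : Zf χ w ^ 2 - sq (sm χ w) =
      ip (sm χ w) G1 - ip (sm χ w) G2 - ip b2 β := by
    rw [hZ2]
    have : ip w (BB χ w) = sq (sm χ w) + ip (sm χ w) G1 - ip (sm χ w) G2 - ip b2 β := by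
      unfold ip sq
      have j2 : Integrable (fun x => ‖sm χ w x‖ ^ 2 + (inner ℝ (sm χ w x) (G1 x) : ℝ)) volume :=
        i1.add i2
      have j3 : Integrable (fun x => (‖sm χ w x‖ ^ 2 + (inner ℝ (sm χ w x) (G1 x) : ℝ)) -
        (inner ℝ (sm χ w x) (G2 x) : ℝ)) volume := j2.sub i3
      rw [← integral_add i1 i2, ← integral_sub j2 i3, ← integral_sub j3 i4]
      exact integral_congr_ae (Filter.Eventually.of_forall hpt)
    rw [this]
    ring
  have hsqG1 : sq G1 = ip b1 (NP b1) := by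
    rw [← NP_energy hc1]
    unfold sq gsq
    congr 1
    funext x
    exact norm_grad_sq _ x
  have hG1m : MemLp G1 2 volume := by
    rw [memLp_two_iff_integrable_sq_norm hG1s.continuous.aestronglyMeasurable]
    have : (fun x => ‖G1 x‖ ^ 2) = fun x => ∑ i, ‖D i (NP b1) x‖ ^ 2 := by
      funext x
      exact norm_grad_sq _ x
    rw [this]
    refine integrable_finsetSum _ fun i _ => ?_
    have := hd1 i
    rwa [memLp_two_iff_integrable_sq_norm this.1] at this
  have hint2 : Integrable (fun x => ∑ i, ‖D i (NP b2) x‖ ^ 2) volume := by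
    refine integrable_finsetSum _ fun i _ => ?_
    have := hd2 i
    rwa [memLp_two_iff_integrable_sq_norm this.1] at this
  have hG2m : MemLp G2 2 volume := by
    rw [memLp_two_iff_integrable_sq_norm hG2s.continuous.aestronglyMeasurable]
    refine (hint2.const_mul 2).mono' (hG2s.continuous.norm.pow 2).aestronglyMeasurable
      (Filter.Eventually.of_forall fun x => ?_)
    rw [Real.norm_of_nonneg (by positivity)]
    exact norm_curl_sq_le _ x
  have hsqG2 : sq G2 ≤ 2 * ip b2 (NP b2) := by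
    rw [← NP_energy hc2]
    unfold sq gsq
    rw [← integral_const_mul]
    refine integral_mono ?_ (hint2.const_mul 2) fun x => norm_curl_sq_le _ x
    have := hG2m
    rwa [memLp_two_iff_integrable_sq_norm this.1] at this
  set S := Real.sqrt (sqOn (Metric.ball a R) w) with hS
  have hS0 : 0 ≤ S := Real.sqrt_nonneg _
  have hsm : Real.sqrt (sq (sm χ w)) ≤ |K| * S := by
    rw [hS, ← Real.sqrt_sq_eq_abs, ← Real.sqrt_mul (sq_nonneg K)]
    exact Real.sqrt_le_sqrt (Z3_sq_sm_le hχ hw.smooth)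
  have hsm2 : MemLp (sm χ w) 2 volume := cc_memLp hcw 2
  set e1 := Real.sqrt (ip b1 (NP b1)) with he1
  set e2 := Real.sqrt (ip b2 (NP b2)) with he2
  have he1n : 0 ≤ e1 := Real.sqrt_nonneg _
  have he2n : 0 ≤ e2 := Real.sqrt_nonneg _
  have t1 : |ip (sm χ w) G1| ≤ |K| * S * e1 := by
    refine (ip_le hsm2 hG1m).trans ?_
    rw [hsqG1]
    exact mul_le_mul_of_nonneg_right hsm he1n
  have t2 : |ip (sm χ w) G2| ≤ |K| * S * (2 * e2) := by
    refine (ip_le hsm2 hG2m).trans ?_
    refine mul_le_mul hsm ?_ (Real.sqrt_nonneg _) (by positivity)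
    refine (Real.sqrt_le_sqrt hsqG2).trans ?_
    rw [Real.sqrt_mul (by norm_num)]
    refine mul_le_mul_of_nonneg_right ?_ he2n
    rw [Real.sqrt_le_left (by norm_num)]
    norm_num
  have t3 : |ip b2 β| ≤ C0 * S * e2 := by
    rw [← NP_green hc2 (hβs.of_le (by exact_mod_cast le_top)) hβd]
    refine (Z3_cs hd2 hdβ).trans ?_
    rw [NP_energy hc2, ← hZ1, Real.sqrt_sq (Zf_nonneg χ hχ.cc hw.l2), mul_comm]
    exact mul_le_mul_of_nonneg_right hZ he2n
  rw [hsum]
  have t4 : |ip (sm χ w) G1 - ip (sm χ w) G2 - ip b2 β| ≤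
      |ip (sm χ w) G1| + |ip (sm χ w) G2| + |ip b2 β| := by
    refine (abs_sub _ _).trans ?_
    gcongr
    exact abs_sub _ _
  refine t4.trans ?_
  have hKS : 0 ≤ |K| * S := by positivity
  have hCS : 0 ≤ C0 * S := by positivity
  nlinarith [mul_nonneg hKS he1n, mul_nonneg hKS he2n, mul_nonneg hCS he1n, mul_nonneg hCS he2n]

end Pool.Agent.Helper60.EC
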