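import Pool.Agent.Helper60.EC.Z2
import Pool.Agent.Helper60.EC.P6

/-! Project EC, Z7: nested cutoffs: the difference between w and curl NP(χ* curl w) -/

set_option autoImplicit false

open MeasureTheory Set Filter Topology
open scoped ENNReal ContDiff

noncomputable section

namespace Pool.Agent.Helper60.EC

open Pool.Agent.Helper52.NSE (E3 pd divg TestField)

variable {χ' : E3 → ℝ} {w : E3 → E3}

/-- the field `u' = curl NP(χ' curl w)` -/
def uu (χ' : E3 → ℝ) (w : E3 → E3) : E3 → E3 := curl (bet χ' w)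

/-! ### auxiliary facts -/

section aux

variable {F : Type} [NormedAddCommGroup F] [InnerProductSpace ℝ F]

theorem Z7_diff {f : E3 → F} (hf : ContDiff ℝ ∞ f) (x : E3) : DifferentiableAt ℝ f x :=
  (hf.differentiable (by norm_num)) x

theorem Z7_two {f : E3 → F} (hf : ContDiff ℝ ∞ f) : ContDiff ℝ 2 f := by
  exact_mod_cast contDiff_infty.1 hf 2

theorem Z7_three {f : E3 → F} (hf : ContDiff ℝ ∞ f) : ContDiff ℝ 3 f := by
  exact_mod_cast contDiff_infty.1 hf 3

theorem Z7_lap_sub {f g : E3 → F} (hf : ContDiff ℝ ∞ f) (hg : ContDiff ℝ ∞ g) (x : E3) :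
    lap (fun y => f y - g y) x = lap f x - lap g x := by
  unfold lap
  rw [← Finset.sum_sub_distrib]
  refine Finset.sum_congr rfl fun i _ => ?_
  have h : D i (fun y => f y - g y) = fun y => D i f y - D i g y :=
    funext fun y => D_sub (Z7_diff hf y) (Z7_diff hg y) i
  rw [h, D_sub (Z7_diff (D_smooth hf i) x) (Z7_diff (D_smooth hg i) x)]

theorem Z7_grad_congr {f g : E3 → ℝ} {x : E3} (h : f =ᶠ[𝓝 x] g) : grad f x = grad g x := by
  have h := fun i => D_congr h i
  unfold grad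
  simp only [h]

theorem Z7_int {f : E3 → F} (hf : ∀ i, MemLp (D i f) 2 volume) :
    Integrable (fun x => ∑ i, ‖D i f x‖ ^ 2) volume :=
  integrable_finsetSum _ fun i _ => (hf i).integrable_norm_pow (by norm_num)

end aux

theorem Z7_curl_memLp {β : E3 → E3} (hβ : ContDiff ℝ ∞ β) (hd : ∀ i, MemLp (D i β) 2 volume) :
    MemLp (curl β) 2 volume ∧ sq (curl β) ≤ 2 * gsq β := by
  have hc : Continuous (curl β) := (curl_smooth hβ).continuous
  have hi : Integrable (fun x => ‖curl β x‖ ^ 2) volume := by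
    refine Integrable.mono' ((Z7_int hd).const_mul 2) (hc.norm.pow 2).aestronglyMeasurable ?_
    filter_upwards with x
    rw [Real.norm_of_nonneg (by positivity)]
    exact norm_curl_sq_le β x
  refine ⟨(memLp_two_iff_integrable_sq_norm hc.aestronglyMeasurable).2 hi, ?_⟩
  unfold sq gsq
  rw [← integral_const_mul]
  exact integral_mono hi ((Z7_int hd).const_mul 2) fun x => norm_curl_sq_le β x

theorem Z7_bet (hχ : Cc χ') (hw : Sml w) : ContDiff ℝ ∞ (bet χ' w) ∧
    (∀ i, MemLp (D i (bet χ' w)) 2 volume) ∧ gsq (bet χ' w) = Zf χ' w ^ 2 := by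
  obtain ⟨h1, h2⟩ := bet_smooth hχ hw
  exact ⟨h1, fun i => h2.D_memLp (h1.of_le (by norm_num)) i, (Zf_sq hχ hw).1.symm⟩

theorem uu_smooth (hχ : Cc χ') (hw : Sml w) : ContDiff ℝ ∞ (uu χ' w) ∧ MemLp (uu χ' w) 2 volume ∧
    sq (uu χ' w) ≤ 2 * Zf χ' w ^ 2 := by
  obtain ⟨h1, h2, h3⟩ := Z7_bet hχ hw
  obtain ⟨h4, h5⟩ := Z7_curl_memLp h1 h2
  rw [h3] at h5
  exact ⟨curl_smooth h1, h4, h5⟩

/-- where `χ' = 1`: `curl w = curl u' - ∇ div β'`, and `w - u'`, `div β'` are harmonic -/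
theorem uu_identities (hχ : Cc χ') (hw : Sml w) {U : Set E3} (hU : IsOpen U)
    (h1 : ∀ x ∈ U, χ' x = 1) : ∀ x ∈ U,
      curl w x = curl (uu χ' w) x - grad (divg (bet χ' w)) x ∧
      lap (fun y => w y - uu χ' w y) x = 0 ∧ lap (divg (bet χ' w)) x = 0 := by
  intro x hx
  obtain ⟨hβ, _, _⟩ := Z7_bet hχ hw
  have hf : Cc (sm χ' (curl w)) := cc_sm hχ (curl_smooth hw.smooth)
  have hlap : lap (bet χ' w) = fun y => -(sm χ' (curl w) y) := funext fun y => lap_NP' hf y
  have hev : sm χ' (curl w) =ᶠ[𝓝 x] curl w := by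
    filter_upwards [hU.mem_nhds hx] with y hy
    show χ' y • curl w y = curl w y
    rw [h1 y hy, one_smul]
  have hdw : divg w = fun _ => (0 : ℝ) := funext hw.div
  have hcc : curl (curl w) x = -lap w x := by
    rw [curl_curl (Z7_two hw.smooth), hdw]
    have : grad (fun _ : E3 => (0 : ℝ)) x = 0 := by
      apply Calc3b_ext <;> rw [Calc3b_grad] <;> simp [D]
    rw [this, zero_sub]
  have hneg : ∀ y, curl (fun y => -(sm χ' (curl w) y)) y = -curl (sm χ' (curl w)) y := by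
    intro y
    have := curl_const_smul (Z7_diff hf.smooth y) (-1)
    simpa only [neg_smul, one_smul] using this
  have hdneg : ∀ y, divg (fun y => -(sm χ' (curl w) y)) y = -divg (sm χ' (curl w)) y := by
    intro y
    simp only [Calc3b_divg, D_neg, PiLp.neg_apply]
    ring
  refine ⟨?_, ?_, ?_⟩
  · unfold uu
    rw [curl_curl (Z7_two hβ), hlap]
    show curl w x = grad (divg (bet χ' w)) x - -(χ' x • curl w x) - grad (divg (bet χ' w)) x
    rw [h1 x hx, one_smul]
    abel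
  · unfold uu
    rw [Z7_lap_sub hw.smooth (curl_smooth hβ), ← curl_lap (Z7_three hβ), hlap, hneg,
      curl_congr hev, hcc]
    abel
  · rw [← divg_lap (Z7_three hβ), hlap, hdneg, divg_congr hev,
      divg_curl (Z7_two hw.smooth), neg_zero]

/-- interior bounds in a compact subset of `{χ' = 1}` -/
theorem uu_interior (hχ : Cc χ') {U L : Set E3} (hU : IsOpen U) (h1 : ∀ x ∈ U, χ' x = 1)
    (hL : IsCompact L) (hLU : L ⊆ U) : ∃ C : ℝ, 0 ≤ C ∧ ∀ w : E3 → E3, Sml w → ∀ x ∈ L,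
      ‖grad (divg (bet χ' w)) x‖ ≤ C * Zf χ' w ∧
      ∀ i, ‖D i (fun y => w y - uu χ' w y) x‖ ≤ C * Real.sqrt (sq w) := by
  have hb : Bornology.IsBounded U := by
    apply hχ.comp.isCompact.isBounded.subset
    intro x hx
    apply subset_tsupport
    rw [Function.mem_support, h1 x hx]
    exact one_ne_zero
  obtain ⟨C1, hC1, hi1⟩ := interior ℝ U L hU hb hL hLU
  obtain ⟨C2, hC2, hi2⟩ := interior E3 U L hU hb hL hLU
  obtain ⟨C3, hC3, hi3⟩ := Zf_le_tsupport hχ
  have h3 : 0 ≤ Real.sqrt 3 := Real.sqrt_nonneg 3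
  have h2 : 0 ≤ Real.sqrt 2 := Real.sqrt_nonneg 2
  refine ⟨C1 * Real.sqrt 3 * Real.sqrt 3 + C2 * (1 + Real.sqrt 2 * C3), by positivity, ?_⟩
  intro w hw x hx
  obtain ⟨hβ, hβD, hβg⟩ := Z7_bet hχ hw
  have hZ : 0 ≤ Zf χ' w := Zf_nonneg χ' hχ hw.l2
  have hsq : 0 ≤ Real.sqrt (sq w) := Real.sqrt_nonneg _
  have hid := uu_identities hχ hw hU h1
  constructor
  · have hh : ContDiff ℝ ∞ (divg (bet χ' w)) := divg_smooth hβ
    have k1 := (hi1 _ hh (fun y hy => (hid y hy).2.2) x hx).2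
    have k2 : sqOn U (divg (bet χ' w)) ≤ 3 * Zf χ' w ^ 2 := by
      have i0 : Integrable (fun x => ‖divg (bet χ' w) x‖ ^ 2) volume := by
        refine Integrable.mono' ((Z7_int hβD).const_mul 3)
          (hh.continuous.norm.pow 2).aestronglyMeasurable ?_
        filter_upwards with y
        rw [Real.norm_of_nonneg (by positivity), Real.norm_eq_abs, sq_abs]
        exact divg_sq_le _ y
      calc sqOn U (divg (bet χ' w)) ≤ ∫ x, ‖divg (bet χ' w) x‖ ^ 2 :=
            setIntegral_le_integral i0 (by filter_upwards with y; positivity)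
        _ ≤ ∫ x, 3 * ∑ i, ‖D i (bet χ' w) x‖ ^ 2 := by
            refine integral_mono i0 ((Z7_int hβD).const_mul 3) fun y => ?_
            show ‖divg (bet χ' w) y‖ ^ 2 ≤ _
            rw [Real.norm_eq_abs, sq_abs]
            exact divg_sq_le _ y
        _ = 3 * Zf χ' w ^ 2 := by
            rw [integral_const_mul, ← hβg]
            rfl
    have k3 : Real.sqrt (sqOn U (divg (bet χ' w))) ≤ Real.sqrt 3 * Zf χ' w := by
      refine (Real.sqrt_le_sqrt k2).trans ?_
      rw [Real.sqrt_mul (by norm_num), Real.sqrt_sq hZ]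
    have k4 : ∀ i, ‖D i (divg (bet χ' w)) x‖ ≤ C1 * (Real.sqrt 3 * Zf χ' w) := fun i =>
      (k1 i).trans (mul_le_mul_of_nonneg_left k3 hC1)
    have k5 : ‖grad (divg (bet χ' w)) x‖ ≤ C1 * Real.sqrt 3 * Real.sqrt 3 * Zf χ' w := by
      apply le_of_sq_le_sq _ (by positivity)
      rw [norm_grad_sq]
      calc ∑ i, ‖D i (divg (bet χ' w)) x‖ ^ 2 ≤ ∑ _i : Fin 3, (C1 * (Real.sqrt 3 * Zf χ' w)) ^ 2 :=
            Finset.sum_le_sum fun i _ => pow_le_pow_left₀ (norm_nonneg _) (k4 i) 2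
        _ = (C1 * Real.sqrt 3 * Real.sqrt 3 * Zf χ' w) ^ 2 := by
            rw [Finset.sum_const, Finset.card_univ, Fintype.card_fin, nsmul_eq_mul]
            have e3 : Real.sqrt 3 ^ 2 = 3 := Real.sq_sqrt (by norm_num)
            push_cast
            ring_nf
            rw [show Real.sqrt 3 ^ 4 = (Real.sqrt 3 ^ 2) ^ 2 by ring, e3]
            ring
    refine k5.trans ?_
    apply mul_le_mul_of_nonneg_right _ hZ
    have : 0 ≤ C2 * (1 + Real.sqrt 2 * C3) := by positivity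
    linarith
  · intro i
    obtain ⟨hu1, hu2, hu3⟩ := uu_smooth hχ hw
    have k1 := (hi2 _ (hw.smooth.sub hu1) (fun y hy => (hid y hy).2.1) x hx).2 i
    have k2 : Real.sqrt (sqOn U (fun y => w y - uu χ' w y)) ≤
        (1 + Real.sqrt 2 * C3) * Real.sqrt (sq w) := by
      have j1 : sqOn U (fun y => w y - uu χ' w y) ≤ sq (fun y => w y - uu χ' w y) :=
        sqOn_le_sq U (hw.l2.sub hu2)
      have j2 := sqrt_sq_sub_le hw.l2 hu2
      have j3 : Real.sqrt (sq (uu χ' w)) ≤ Real.sqrt 2 * Zf χ' w := by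
        refine (Real.sqrt_le_sqrt hu3).trans ?_
        rw [Real.sqrt_mul (by norm_num), Real.sqrt_sq hZ]
      have j4 : Zf χ' w ≤ C3 * Real.sqrt (sq w) :=
        (hi3 w hw.l2).trans (mul_le_mul_of_nonneg_left (Real.sqrt_le_sqrt (sqOn_le_sq _ hw.l2)) hC3)
      calc Real.sqrt (sqOn U (fun y => w y - uu χ' w y)) ≤
            Real.sqrt (sq w) + Real.sqrt (sq (uu χ' w)) := (Real.sqrt_le_sqrt j1).trans j2
        _ ≤ Real.sqrt (sq w) + Real.sqrt 2 * (C3 * Real.sqrt (sq w)) := by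
            have := mul_le_mul_of_nonneg_left j4 h2
            linarith
        _ = _ := by ring
    have k3 : ‖D i (fun y => w y - uu χ' w y) x‖ ≤
        C2 * ((1 + Real.sqrt 2 * C3) * Real.sqrt (sq w)) :=
      k1.trans (mul_le_mul_of_nonneg_left k2 hC2)
    refine k3.trans ?_
    have : 0 ≤ C1 * Real.sqrt 3 * Real.sqrt 3 * Real.sqrt (sq w) := by positivity
    nlinarith

end Pool.Agent.Helper60.EC
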