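import Pool.Agent.Helper60.EC.Z7
import Pool.Agent.Helper60.EC.Z3

/-! Project EC, Z8: nested cutoffs: structure of the optimal test field -/

set_option autoImplicit false

open MeasureTheory Set Filter Topology
open scoped ENNReal ContDiff

noncomputable section

namespace Pool.Agent.Helper60.EC

open Pool.Agent.Helper52.NSE (E3 pd divg TestField)

theorem Z8_diff {G : Type} [NormedAddCommGroup G] [InnerProductSpace ℝ G] {f : E3 → G}
    (hf : ContDiff ℝ ∞ f) (x : E3) : DifferentiableAt ℝ f x :=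
  (hf.differentiable (by simp)).differentiableAt

/-- a compactly supported smooth field and its first derivatives are bounded, and vanish outside
a ball -/
theorem Z8_bd {G : Type} [NormedAddCommGroup G] [InnerProductSpace ℝ G] {f : E3 → G}
    (hf : Cc f) : ∃ M : ℝ, 0 ≤ M ∧ ∃ R₀ : ℝ, ∀ R, R₀ ≤ R → ∀ x,
      (‖f x‖ ≤ M ∧ ∀ i, ‖D i f x‖ ≤ M) ∧ (x ∉ Metric.ball (0 : E3) R → f x = 0 ∧ ∀ i, D i f x = 0) := by
  obtain ⟨M, hM⟩ := hf.comp.exists_bound_of_continuous hf.smooth.continuous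
  have hD : ∀ i, ∃ M', ∀ x, ‖D i f x‖ ≤ M' := fun i =>
    (cc_D hf i).comp.exists_bound_of_continuous (cc_D hf i).smooth.continuous
  choose M' hM' using hD
  obtain ⟨R₁, hR₁⟩ := hf.comp.isCompact.isBounded.subset_ball (0 : E3)
  have hM0 : 0 ≤ M := (norm_nonneg _).trans (hM 0)
  have hM'0 : ∀ i, 0 ≤ M' i := fun i => (norm_nonneg _).trans (hM' i 0)
  refine ⟨M + ∑ i, M' i, add_nonneg hM0 (Finset.sum_nonneg fun i _ => hM'0 i), R₁,
    fun R hR x => ⟨⟨(hM x).trans (le_add_of_nonneg_right (Finset.sum_nonneg fun i _ => hM'0 i)),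
      fun i => (hM' i x).trans ?_⟩, fun hx => ?_⟩⟩
  · exact (Finset.single_le_sum (f := M') (fun i _ => hM'0 i) (Finset.mem_univ i)).trans
      (le_add_of_nonneg_left hM0)
  · have hx' : x ∉ tsupport f := fun h => hx (Metric.ball_subset_ball hR (hR₁ h))
    exact ⟨image_eq_zero_of_notMem_tsupport hx', fun i => Calc1b_D0 hx' i⟩

theorem Z8_gint {G : Type} [NormedAddCommGroup G] [InnerProductSpace ℝ G]
    [FiniteDimensional ℝ G] {β : E3 → G} (hβ : ContDiff ℝ ∞ β)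
    (hd : Decay β) : Integrable (fun x => ∑ i, ‖D i β x‖ ^ 2) volume := by
  refine integrable_finsetSum _ fun i _ => ?_
  have h := Decay.D_memLp (hβ.of_le (by norm_num)) hd i
  exact (memLp_two_iff_integrable_sq_norm h.1).1 h

/-- the basic integral estimate -/
theorem Z8_int {G : Type} [NormedAddCommGroup G] [InnerProductSpace ℝ G]
    [FiniteDimensional ℝ G] {p : E3 → ℝ} {β : E3 → G} (hβ : ContDiff ℝ ∞ β) (hd : Decay β)
    {R c d : ℝ} (hR : 0 < R) (hc : 0 ≤ c) (hd0 : 0 ≤ d)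
    (h1 : ∀ x ∈ Metric.ball (0 : E3) R, p x ≤ c * ‖β x‖ ^ 2 + d * ∑ i, ‖D i β x‖ ^ 2)
    (h2 : ∀ x, x ∉ Metric.ball (0 : E3) R → p x = 0) (hp : 0 ≤ p) :
    ∫ x, p x ≤ (c * (4 * R ^ 2) + d) * gsq β := by
  have hb : IntegrableOn (fun x => ‖β x‖ ^ 2) (Metric.ball (0 : E3) R) volume := by
    refine (ContinuousOn.integrableOn_compact (isCompact_closedBall (0 : E3) R)
      ?_).mono_set Metric.ball_subset_closedBall
    exact (hβ.continuous.norm.pow 2).continuousOn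
  have hi1 : Integrable (fun x => c * (Metric.ball (0 : E3) R).indicator (fun x => ‖β x‖ ^ 2) x)
      volume := ((integrable_indicator_iff Metric.isOpen_ball.measurableSet).2 hb).const_mul c
  have hi2 : Integrable (fun x => d * ∑ i, ‖D i β x‖ ^ 2) volume :=
    (Z8_gint hβ hd).const_mul d
  have key : ∫ x, p x ≤ ∫ x, (c * (Metric.ball (0 : E3) R).indicator (fun x => ‖β x‖ ^ 2) x +
      d * ∑ i, ‖D i β x‖ ^ 2) := by
    refine integral_mono_of_nonneg (Eventually.of_forall hp) (hi1.add hi2)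
      (Eventually.of_forall fun x => ?_)
    by_cases hx : x ∈ Metric.ball (0 : E3) R
    · simp only [indicator_of_mem hx]
      exact h1 x hx
    · simp only [h2 x hx, indicator_of_notMem hx]
      have : 0 ≤ ∑ i, ‖D i β x‖ ^ 2 := Finset.sum_nonneg fun i _ => by positivity
      nlinarith [mul_nonneg hd0 this]
  refine key.trans ?_
  rw [integral_add hi1 hi2, integral_const_mul, integral_const_mul,
    integral_indicator Metric.isOpen_ball.measurableSet]
  have h := hardy (hβ.of_le (by norm_num)) hd (0 : E3) hR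
  have h' : ∫ x in Metric.ball (0 : E3) R, ‖β x‖ ^ 2 ≤ 4 * R ^ 2 * gsq β := h
  have : c * (∫ x in Metric.ball (0 : E3) R, ‖β x‖ ^ 2) ≤ c * (4 * R ^ 2 * gsq β) :=
    mul_le_mul_of_nonneg_left h' hc
  have e : (∫ x, ∑ i, ‖D i β x‖ ^ 2) = gsq β := rfl
  rw [e]
  linarith

theorem Z8_D_cr {a b : E3 → E3} {x : E3} (ha : DifferentiableAt ℝ a x)
    (hb : DifferentiableAt ℝ b x) (i : Fin 3) :
    D i (fun y => cr (a y) (b y)) x = cr (D i a x) (b x) + cr (a x) (D i b x) := by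
  have hca := fun k => Calc3a_coord ha k
  have hcb := fun k => Calc3a_coord hb k
  have e : ∀ k l m n : Fin 3, D i (fun y => a y k * b y l - a y m * b y n) x =
      ((D i a x) k * b x l + a x k * (D i b x) l) -
        ((D i a x) m * b x n + a x m * (D i b x) n) := by
    intro k l m n
    rw [D_sub (f := fun y => a y k * b y l) (g := fun y => a y m * b y n)
      ((hca k).mul (hcb l)) ((hca m).mul (hcb n)), D_mul (hca k) (hcb l),
      D_mul (hca m) (hcb n), D_apply ha, D_apply ha, D_apply hb, D_apply hb]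
  have h := Calc3a_Dvec (((hca 1).mul (hcb 2)).sub ((hca 2).mul (hcb 1)))
    (((hca 2).mul (hcb 0)).sub ((hca 0).mul (hcb 2)))
    (((hca 0).mul (hcb 1)).sub ((hca 1).mul (hcb 0))) i
  have h' : D i (fun y => cr (a y) (b y)) x = _ := h
  rw [h']
  refine Calc3b_ext ?_ ?_ ?_
  · change D i (fun y => a y 1 * b y 2 - a y 2 * b y 1) x = _
    rw [e]
    simp only [PiLp.add_apply, Calc3b_cr0]
    ring
  · change D i (fun y => a y 2 * b y 0 - a y 0 * b y 2) x = _
    rw [e]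
    simp only [PiLp.add_apply, Calc3b_cr1]
    ring
  · change D i (fun y => a y 0 * b y 1 - a y 1 * b y 0) x = _
    rw [e]
    simp only [PiLp.add_apply, Calc3b_cr2]
    ring

theorem Z8_sq_add_le {G : Type} [NormedAddCommGroup G] (a b : G) :
    ‖a + b‖ ^ 2 ≤ 2 * ‖a‖ ^ 2 + 2 * ‖b‖ ^ 2 := by
  have h := norm_add_le a b
  have h0 := norm_nonneg (a + b)
  nlinarith [sq_nonneg (‖a‖ - ‖b‖)]

theorem Z8_sq3 {G : Type} [NormedAddCommGroup G] (a b c : G) :
    ‖a + b + c‖ ^ 2 ≤ 3 * (‖a‖ ^ 2 + ‖b‖ ^ 2 + ‖c‖ ^ 2) := by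
  have h := norm_add₃_le (a := a) (b := b) (c := c)
  have h0 := norm_nonneg (a + b + c)
  nlinarith [sq_nonneg (‖a‖ - ‖b‖), sq_nonneg (‖a‖ - ‖c‖), sq_nonneg (‖b‖ - ‖c‖)]

theorem Z8_int3 {p a b c : E3 → ℝ} (ha : Integrable a volume) (hb : Integrable b volume)
    (hc : Integrable c volume) (h0 : ∀ x, 0 ≤ p x) (h : ∀ x, p x ≤ 3 * (a x + b x + c x)) :
    ∫ x, p x ≤ 3 * ((∫ x, a x) + (∫ x, b x) + ∫ x, c x) := by
  have hi : Integrable (fun x => 3 * (a x + b x + c x)) volume :=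
    ((ha.add hb).add hc).const_mul 3
  have h1 : ∫ x, p x ≤ ∫ x, 3 * (a x + b x + c x) :=
    integral_mono_of_nonneg (Eventually.of_forall h0) hi (Eventually.of_forall h)
  rw [integral_const_mul, integral_add (f := fun x => a x + b x) (ha.add hb) hc,
    integral_add ha hb] at h1
  exact h1

/-- Lemma A -/
theorem Z8_A {G : E3 → E3} (hG : Cc G) : ∃ C : ℝ, 0 ≤ C ∧ ∀ β : E3 → E3, ContDiff ℝ ∞ β →
    Decay β → sq (fun x => cr (G x) (β x)) ≤ C * gsq β ∧
      gsq (fun x => cr (G x) (β x)) ≤ C * gsq β := by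
  obtain ⟨M, hM, R₀, hR₀⟩ := Z8_bd hG
  set R := max R₀ 1 with hRdef
  have hR : 0 < R := lt_of_lt_of_le one_pos (le_max_right _ _)
  have hb := hR₀ R (le_max_left _ _)
  refine ⟨6 * M ^ 2 * (4 * R ^ 2) + 2 * M ^ 2, by positivity, fun β hβ hd => ⟨?_, ?_⟩⟩
  · have h := Z8_int (p := fun x => ‖cr (G x) (β x)‖ ^ 2) hβ hd hR
      (by positivity : (0 : ℝ) ≤ M ^ 2) le_rfl (fun x _ => by
        have h1 := norm_cr_le (G x) (β x)
        have h2 : ‖cr (G x) (β x)‖ ≤ M * ‖β x‖ :=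
          h1.trans (mul_le_mul_of_nonneg_right (hb x).1.1 (norm_nonneg _))
        have h3 : ‖cr (G x) (β x)‖ ^ 2 ≤ (M * ‖β x‖) ^ 2 :=
          pow_le_pow_left₀ (norm_nonneg _) h2 2
        nlinarith) (fun x hx => by
        have h1 := norm_cr_le (G x) (β x)
        rw [((hb x).2 hx).1, norm_zero, zero_mul] at h1
        have h2 : ‖cr (G x) (β x)‖ = 0 := by
          rw [((hb x).2 hx).1]
          exact le_antisymm h1 (norm_nonneg _)
        simp only [h2]
        norm_num) (fun x => by positivity)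
    refine le_trans h ?_
    have hg := gsq_nonneg β
    have : 0 ≤ M ^ 2 := by positivity
    have : 0 ≤ M ^ 2 * (R ^ 2) := by positivity
    refine mul_le_mul_of_nonneg_right ?_ hg
    nlinarith
  · have h := Z8_int (p := fun x => ∑ i, ‖D i (fun y => cr (G y) (β y)) x‖ ^ 2) hβ hd hR
      (by positivity : (0 : ℝ) ≤ 6 * M ^ 2) (by positivity : (0 : ℝ) ≤ 2 * M ^ 2) (fun x _ => by
        have hi : ∀ i, ‖D i (fun y => cr (G y) (β y)) x‖ ^ 2 ≤
            2 * M ^ 2 * ‖β x‖ ^ 2 + 2 * M ^ 2 * ‖D i β x‖ ^ 2 := by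
          intro i
          rw [Z8_D_cr (Z8_diff hG.smooth x) (Z8_diff hβ x)]
          refine (Z8_sq_add_le _ _).trans ?_
          have h1 : ‖cr (D i G x) (β x)‖ ^ 2 ≤ (M * ‖β x‖) ^ 2 :=
            pow_le_pow_left₀ (norm_nonneg _) ((norm_cr_le _ _).trans
              (mul_le_mul_of_nonneg_right ((hb x).1.2 i) (norm_nonneg _))) 2
          have h2 : ‖cr (G x) (D i β x)‖ ^ 2 ≤ (M * ‖D i β x‖) ^ 2 :=
            pow_le_pow_left₀ (norm_nonneg _) ((norm_cr_le _ _).trans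
              (mul_le_mul_of_nonneg_right (hb x).1.1 (norm_nonneg _))) 2
          nlinarith
        have hs := Finset.sum_le_sum (fun i (_ : i ∈ (Finset.univ : Finset (Fin 3))) => hi i)
        refine hs.trans (le_of_eq ?_)
        simp only [Fin.sum_univ_three]
        ring) (fun x hx => by
        refine Finset.sum_eq_zero fun i _ => ?_
        rw [Z8_D_cr (Z8_diff hG.smooth x) (Z8_diff hβ x), ((hb x).2 hx).1, ((hb x).2 hx).2 i]
        have e : ∀ v : E3, cr 0 v = 0 := fun v => by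
          have := norm_cr_le 0 v
          rw [norm_zero, zero_mul] at this
          exact norm_eq_zero.1 (le_antisymm this (norm_nonneg _))
        simp [e]) (fun x => Finset.sum_nonneg fun i _ => by positivity)
    exact h

/-- Lemma B -/
theorem Z8_D_curl {a : E3 → E3} (ha : ContDiff ℝ ∞ a) (i : Fin 3) (x : E3) :
    D i (curl a) x = curl (D i a) x := by
  have h2 : ContDiff ℝ 2 a := ha.of_le ENat.LEInfty.out
  rw [Calc3a_Dcurl h2]
  simp only [curl, D_comm h2 _ i]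

theorem Z8_B {χ : E3 → ℝ} (hχ : Cc χ) : ∃ R₀ : ℝ, ∀ R, R₀ ≤ R → 0 < R → ∃ C : ℝ, 0 ≤ C ∧
    ∀ F : E3 → E3, Cc F → (∀ x, x ∉ Metric.ball (0 : E3) R → F x = 0) →
      sq (sm χ (curl (NP F))) ≤ C * sq F ∧ gsq (sm χ (curl (NP F))) ≤ C * sq F := by
  obtain ⟨M, hM, R₀, hR₀⟩ := Z8_bd hχ
  refine ⟨R₀, fun R hR hR0 => ⟨12 * M ^ 2 * (4 * R ^ 2) + 4 * M ^ 2, by positivity,
    fun F hF hF0 => ?_⟩⟩
  have hb := hR₀ R hR
  have hs := NP_smooth hF
  have hd := NP_decay hF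
  have hg : gsq (NP F) ≤ 4 * R ^ 2 * sq F := by
    rw [NP_energy hF]
    exact (n1_le hF hR0 (a := 0) (fun x hx => hF0 x (by
      rw [mem_ball_zero_iff, not_lt]
      simpa using hx))).2
  have hh := NP_hess hF
  have hsF := sq_nonneg' F
  have hgi : Integrable (fun x => ∑ i, ‖D i (NP F) x‖ ^ 2) volume := Z8_gint hs hd
  have hdd : ∀ i, Decay (D i (NP F)) := fun i => by
    rw [D_NP' hF]
    exact NP_decay (cc_D hF i)
  have hds : ∀ i, ContDiff ℝ ∞ (D i (NP F)) := fun i => D_smooth hs i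
  have hgi2 : ∀ i, Integrable (fun x => ∑ j, ‖D j (D i (NP F)) x‖ ^ 2) volume :=
    fun i => Z8_gint (hds i) (hdd i)
  have hbx : ∀ x, |χ x| ≤ M := fun x => (hb x).1.1
  constructor
  · have h1 : sq (sm χ (curl (NP F))) ≤ 2 * M ^ 2 * gsq (NP F) := by
      unfold sq gsq
      rw [← integral_const_mul]
      refine integral_mono_of_nonneg (Eventually.of_forall fun x => by positivity)
        (hgi.const_mul _) (Eventually.of_forall fun x => ?_)
      have h2 := norm_curl_sq_le (NP F) x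
      have h3 : χ x ^ 2 ≤ M ^ 2 := by
        rw [← sq_abs (χ x)]
        exact pow_le_pow_left₀ (abs_nonneg _) (hbx x) 2
      simp only [sm, norm_smul, mul_pow, Real.norm_eq_abs, sq_abs]
      have h4 : 0 ≤ ‖curl (NP F) x‖ ^ 2 := by positivity
      calc χ x ^ 2 * ‖curl (NP F) x‖ ^ 2 ≤ M ^ 2 * ‖curl (NP F) x‖ ^ 2 :=
            mul_le_mul_of_nonneg_right h3 h4
        _ ≤ M ^ 2 * (2 * ∑ i, ‖D i (NP F) x‖ ^ 2) :=
            mul_le_mul_of_nonneg_left h2 (by positivity)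
        _ = _ := by ring
    refine h1.trans ?_
    have h5 : 2 * M ^ 2 * gsq (NP F) ≤ 2 * M ^ 2 * (4 * R ^ 2 * sq F) :=
      mul_le_mul_of_nonneg_left hg (by positivity)
    refine h5.trans ?_
    have : 0 ≤ M ^ 2 * sq F := by positivity
    have : 0 ≤ M ^ 2 * R ^ 2 * sq F := by positivity
    nlinarith
  · have h1 : gsq (sm χ (curl (NP F))) ≤ 12 * M ^ 2 * gsq (NP F) +
        4 * M ^ 2 * ∑ i, gsq (D i (NP F)) := by
      unfold gsq
      rw [← integral_finsetSum _ (fun i _ => hgi2 i), ← integral_const_mul, ← integral_const_mul,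
        ← integral_add (hgi.const_mul _) ((integrable_finsetSum _ fun i _ => hgi2 i).const_mul _)]
      refine integral_mono_of_nonneg (Eventually.of_forall fun x => by positivity)
        ((hgi.const_mul _).add ((integrable_finsetSum _ fun i _ => hgi2 i).const_mul _))
        (Eventually.of_forall fun x => ?_)
      have hi : ∀ i, ‖D i (sm χ (curl (NP F))) x‖ ^ 2 ≤
          4 * M ^ 2 * ∑ j, ‖D j (NP F) x‖ ^ 2 + 4 * M ^ 2 * ∑ j, ‖D j (D i (NP F)) x‖ ^ 2 := by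
        intro i
        rw [D_sm (Z8_diff hχ.smooth x) (Z8_diff (curl_smooth hs) x), Z8_D_curl hs]
        refine (Z8_sq_add_le _ _).trans ?_
        have h2 := norm_curl_sq_le (NP F) x
        have h2' := norm_curl_sq_le (D i (NP F)) x
        have h3 : χ x ^ 2 ≤ M ^ 2 := by
          rw [← sq_abs (χ x)]
          exact pow_le_pow_left₀ (abs_nonneg _) (hbx x) 2
        have h3' : D i χ x ^ 2 ≤ M ^ 2 := by
          rw [← sq_abs (D i χ x)]
          exact pow_le_pow_left₀ (abs_nonneg _) ((hb x).1.2 i) 2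
        simp only [norm_smul, mul_pow, Real.norm_eq_abs, sq_abs]
        have a1 : D i χ x ^ 2 * ‖curl (NP F) x‖ ^ 2 ≤ M ^ 2 * (2 * ∑ i, ‖D i (NP F) x‖ ^ 2) :=
          mul_le_mul h3' h2 (by positivity) (by positivity)
        have a2 : χ x ^ 2 * ‖curl (D i (NP F)) x‖ ^ 2 ≤
            M ^ 2 * (2 * ∑ j, ‖D j (D i (NP F)) x‖ ^ 2) :=
          mul_le_mul h3 h2' (by positivity) (by positivity)
        linarith
      have hs' := Finset.sum_le_sum (fun i (_ : i ∈ (Finset.univ : Finset (Fin 3))) => hi i)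
      refine hs'.trans (le_of_eq ?_)
      simp only [Fin.sum_univ_three]
      ring
    rw [hh] at h1
    refine h1.trans ?_
    have h5 : 12 * M ^ 2 * gsq (NP F) ≤ 12 * M ^ 2 * (4 * R ^ 2 * sq F) :=
      mul_le_mul_of_nonneg_left hg (by positivity)
    linarith

/-- Lemma C -/
theorem Z8_C {χ : E3 → ℝ} (hχ : Cc χ) : ∃ R₀ : ℝ, ∀ R, R₀ ≤ R → 0 < R → ∃ C : ℝ, 0 ≤ C ∧
    ∀ β : E3 → E3, ContDiff ℝ ∞ β → Decay β →
      Cc (fun x => (2 : ℝ) • (∑ i, D i χ x • D i β x) + lap χ x • β x) ∧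
      (∀ x, x ∉ Metric.ball (0 : E3) R →
        (2 : ℝ) • (∑ i, D i χ x • D i β x) + lap χ x • β x = 0) ∧
      sq (fun x => (2 : ℝ) • (∑ i, D i χ x • D i β x) + lap χ x • β x) ≤ C * gsq β := by
  obtain ⟨M, hM, R₀, hR₀⟩ := Z8_bd hχ
  obtain ⟨M', hM', R₀', hR₀'⟩ := Z8_bd (cc_lap hχ)
  refine ⟨max R₀ R₀', fun R hR hR0 => ?_⟩
  have hb := hR₀ R ((le_max_left _ _).trans hR)
  have hb' := hR₀' R ((le_max_right _ _).trans hR)
  refine ⟨2 * M' ^ 2 * (4 * R ^ 2) + 24 * M ^ 2, by positivity, fun β hβ hd => ?_⟩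
  have h0 : ∀ x, x ∉ Metric.ball (0 : E3) R →
        (2 : ℝ) • (∑ i, D i χ x • D i β x) + lap χ x • β x = 0 := by
    intro x hx
    have e1 := ((hb x).2 hx).2
    have e2 := ((hb' x).2 hx).1
    simp [e1, e2]
  refine ⟨?_, h0, ?_⟩
  · refine cc_add (f := fun x => (2 : ℝ) • (∑ i, D i χ x • D i β x))
      (g := fun x => lap χ x • β x) (cc_const_smul ?_ 2) (cc_sm (cc_lap hχ) hβ)
    have e : (fun x => ∑ i, D i χ x • D i β x) =
        fun x => (D 0 χ x • D 0 β x + D 1 χ x • D 1 β x) + D 2 χ x • D 2 β x := by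
      funext x
      rw [Fin.sum_univ_three]
    rw [e]
    exact cc_add (f := fun x => D 0 χ x • D 0 β x + D 1 χ x • D 1 β x)
      (g := fun x => D 2 χ x • D 2 β x)
      (cc_add (f := fun x => D 0 χ x • D 0 β x) (g := fun x => D 1 χ x • D 1 β x)
        (cc_sm (cc_D hχ 0) (D_smooth hβ 0)) (cc_sm (cc_D hχ 1) (D_smooth hβ 1)))
      (cc_sm (cc_D hχ 2) (D_smooth hβ 2))
  · refine Z8_int (p := fun x => ‖(2 : ℝ) • (∑ i, D i χ x • D i β x) + lap χ x • β x‖ ^ 2)
      hβ hd hR0 (by positivity) (by positivity) (fun x _ => ?_) (fun x hx => ?_)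
      (fun x => by positivity)
    · refine (Z8_sq_add_le _ _).trans ?_
      have h1 : ‖(2 : ℝ) • (∑ i, D i χ x • D i β x)‖ ^ 2 ≤ 12 * M ^ 2 * ∑ i, ‖D i β x‖ ^ 2 := by
        have h2 : ‖∑ i, D i χ x • D i β x‖ ≤ ∑ i, M * ‖D i β x‖ := by
          refine (norm_sum_le _ _).trans (Finset.sum_le_sum fun i _ => ?_)
          rw [norm_smul]
          exact mul_le_mul_of_nonneg_right ((hb x).1.2 i) (norm_nonneg _)
        rw [norm_smul, mul_pow]
        have h3 : ‖∑ i, D i χ x • D i β x‖ ^ 2 ≤ (∑ i, M * ‖D i β x‖) ^ 2 :=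
          pow_le_pow_left₀ (norm_nonneg _) h2 2
        have h4 : (∑ i, M * ‖D i β x‖) ^ 2 ≤ 3 * M ^ 2 * ∑ i, ‖D i β x‖ ^ 2 := by
          simp only [Fin.sum_univ_three]
          have p1 := mul_nonneg (sq_nonneg M) (sq_nonneg (‖D 0 β x‖ - ‖D 1 β x‖))
          have p2 := mul_nonneg (sq_nonneg M) (sq_nonneg (‖D 0 β x‖ - ‖D 2 β x‖))
          have p3 := mul_nonneg (sq_nonneg M) (sq_nonneg (‖D 1 β x‖ - ‖D 2 β x‖))
          nlinarith
        have h5 : ‖(2 : ℝ)‖ ^ 2 = 4 := by norm_num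
        rw [h5]
        linarith
      have h2 : ‖lap χ x • β x‖ ^ 2 ≤ M' ^ 2 * ‖β x‖ ^ 2 := by
        rw [norm_smul, mul_pow]
        exact mul_le_mul_of_nonneg_right (pow_le_pow_left₀ (norm_nonneg _) (hb' x).1.1 2)
          (by positivity)
      linarith
    · simp only [h0 x hx]
      norm_num

/-- the identity `χ curl w = -lap (χ β') + F` and its consequence for `bet χ w` -/
theorem Z8_bet {χ χ' : E3 → ℝ} (hχ : Cc χ) (hχ' : Cc χ') {U : Set E3}
    (hs : tsupport χ ⊆ U) (h1 : ∀ x ∈ U, χ' x = 1) {w : E3 → E3} (hw : Sml w) (x : E3) :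
    bet χ w x = χ x • bet χ' w x +
      NP (fun x => (2 : ℝ) • (∑ i, D i χ x • D i (bet χ' w) x) + lap χ x • bet χ' w x) x := by
  have hβ := (bet_smooth hχ' hw).1
  have hd := (bet_smooth hχ' hw).2
  have hcw : Cc (sm χ' (curl w)) := cc_sm hχ' (curl_smooth hw.smooth)
  obtain ⟨R₀, hR₀⟩ := Z8_C hχ
  obtain ⟨C, _, hC⟩ := hR₀ (max R₀ 1) (le_max_left _ _) (lt_of_lt_of_le one_pos (le_max_right _ _))
  have hF := (hC _ hβ hd).1
  have e1 : sm χ (curl w) = fun y => (fun y => -(lap (sm χ (bet χ' w)) y)) y +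
      (fun x => (2 : ℝ) • (∑ i, D i χ x • D i (bet χ' w) x) + lap χ x • bet χ' w x) y := by
    funext y
    have h2 : lap (bet χ' w) y = -(sm χ' (curl w) y) := lap_NP' hcw y
    have h3 := lap_sm (hχ.smooth.of_le ENat.LEInfty.out) (hβ.of_le ENat.LEInfty.out) y
    simp only
    rw [h3, h2]
    have h4 : χ y • sm χ' (curl w) y = sm χ (curl w) y := by
      by_cases hy : y ∈ tsupport χ
      · simp only [sm, h1 y (hs hy), one_smul]
      · simp only [sm, image_eq_zero_of_notMem_tsupport hy, zero_smul]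
    rw [smul_neg, h4]
    abel
  have hcb : Cc (sm χ (bet χ' w)) := cc_sm hχ hβ
  have e2 : bet χ w = NP (sm χ (curl w)) := rfl
  have hneg : Cc (fun y => -(lap (sm χ (bet χ' w)) y)) := by
    have := cc_const_smul (cc_lap hcb) (-1)
    simpa using this
  rw [e2, e1, NP_add hneg hF, NP_neg, NP_lap hcb, neg_neg]
  rfl

/-- `BB χ w = χ² u' + ρ'` with `‖ρ'‖_{H¹} ≤ C Zf χ' w` -/
theorem BB_nested {χ χ' : E3 → ℝ} (hχ : Cc χ) (hχ' : Cc χ') {U : Set E3} (hU : IsOpen U)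
    (hs : tsupport χ ⊆ U) (h1 : ∀ x ∈ U, χ' x = 1) :
    ∃ C : ℝ, 0 ≤ C ∧ ∀ w : E3 → E3, Sml w →
      Cc (fun x => BB χ w x - χ x ^ 2 • uu χ' w x) ∧
      sq (fun x => BB χ w x - χ x ^ 2 • uu χ' w x) ≤ C * Zf χ' w ^ 2 ∧
      gsq (fun x => BB χ w x - χ x ^ 2 • uu χ' w x) ≤ C * Zf χ' w ^ 2 := by
  obtain ⟨C₀, hC₀, hnest⟩ := Zf_nested hχ hχ' hU hs h1
  obtain ⟨C₁, hC₁, hA₁⟩ := Z8_A (cc_grad hχ)
  obtain ⟨C₂, hC₂, hA₂⟩ := Z8_A (cc_sm hχ (grad_smooth hχ.smooth))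
  obtain ⟨R₁, hR₁⟩ := Z8_B hχ
  obtain ⟨R₂, hR₂⟩ := Z8_C hχ
  set R := max (max R₁ R₂) 1 with hRdef
  have hR0 : 0 < R := lt_of_lt_of_le one_pos (le_max_right _ _)
  obtain ⟨C₃, hC₃, hB⟩ := hR₁ R ((le_max_left _ _).trans (le_max_left _ _)) hR0
  obtain ⟨C₄, hC₄, hC⟩ := hR₂ R ((le_max_right _ _).trans (le_max_left _ _)) hR0
  refine ⟨3 * (C₁ * C₀ ^ 2 + C₂ + C₃ * C₄), by positivity, fun w hw => ?_⟩
  obtain ⟨hβs, hβd⟩ := bet_smooth hχ' hw
  obtain ⟨hbs, hbd⟩ := bet_smooth hχ hw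
  obtain ⟨hF, hF0, hFsq⟩ := hC _ hβs hβd
  have hbet := fun x => Z8_bet hχ hχ' hs h1 hw x
  have hZ1 := (Zf_sq hχ hw).1
  have hZ2 := (Zf_sq hχ' hw).1
  have hn := hnest w hw.l2
  have hZ0 := Zf_nonneg χ hχ hw.l2
  have hn2 : Zf χ w ^ 2 ≤ C₀ ^ 2 * Zf χ' w ^ 2 := by
    rw [← mul_pow]
    exact pow_le_pow_left₀ hZ0 hn 2
  set F : E3 → E3 :=
    fun x => (2 : ℝ) • (∑ i, D i χ x • D i (bet χ' w) x) + lap χ x • bet χ' w x with hFdef
  -- the formula
  have hform : (fun x => BB χ w x - χ x ^ 2 • uu χ' w x) = fun x =>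
      (cr (grad χ x) (bet χ w x) + cr (sm χ (grad χ) x) (bet χ' w x)) +
        sm χ (curl (NP F)) x := by
    funext x
    have e1 : BB χ w x = cr (grad χ x) (bet χ w x) + χ x • curl (bet χ w) x :=
      curl_sm (Z8_diff hχ.smooth x) (Z8_diff hbs x)
    have e2 : bet χ w = fun x => sm χ (bet χ' w) x + NP F x := funext hbet
    have hNs := NP_smooth hF
    have e3 : curl (bet χ w) x = (cr (grad χ x) (bet χ' w x) + χ x • uu χ' w x) +
        curl (NP F) x := by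
      conv_lhs => rw [e2]
      rw [curl_add (Z8_diff (sm_smooth hχ.smooth hβs) x) (Z8_diff hNs x),
        curl_sm (Z8_diff hχ.smooth x) (Z8_diff hβs x)]
      rfl
    rw [e1, e3]
    simp only [sm, cr_smul_left, smul_add, smul_smul, pow_two]
    abel
  have hFc1 : Cc (fun x => cr (grad χ x) (bet χ w x)) := cc_cr_left (cc_grad hχ) hbs
  have hFc2 : Cc (fun x => cr (sm χ (grad χ) x) (bet χ' w x)) :=
    cc_cr_left (cc_sm hχ (grad_smooth hχ.smooth)) hβs
  have hFc3 : Cc (sm χ (curl (NP F))) := cc_sm hχ (curl_smooth (NP_smooth hF))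
  have a1 := hA₁ _ hbs hbd
  have a2 := hA₂ _ hβs hβd
  have a3 := hB F hF hF0
  have b3 : C₃ * sq F ≤ C₃ * (C₄ * gsq (bet χ' w)) := mul_le_mul_of_nonneg_left hFsq hC₃
  have b1 : C₁ * gsq (bet χ w) ≤ C₁ * (C₀ ^ 2 * Zf χ' w ^ 2) := by
    rw [← hZ1]
    exact mul_le_mul_of_nonneg_left hn2 hC₁
  rw [← hZ2] at a2 b3
  rw [hform]
  refine ⟨cc_add (f := fun x => cr (grad χ x) (bet χ w x) + cr (sm χ (grad χ) x) (bet χ' w x))
    (g := sm χ (curl (NP F))) (cc_add hFc1 hFc2) hFc3, ?_, ?_⟩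
  · have hint : ∀ {f : E3 → E3}, Cc f → Integrable (fun x => ‖f x‖ ^ 2) volume := fun {f} hf =>
      (memLp_two_iff_integrable_sq_norm (cc_memLp hf 2).1).1 (cc_memLp hf 2)
    have h3 : sq (fun x => (cr (grad χ x) (bet χ w x) + cr (sm χ (grad χ) x) (bet χ' w x)) +
        sm χ (curl (NP F)) x) ≤ 3 * (sq (fun x => cr (grad χ x) (bet χ w x)) +
          sq (fun x => cr (sm χ (grad χ) x) (bet χ' w x)) + sq (sm χ (curl (NP F)))) := by
      refine Z8_int3 (hint hFc1) (hint hFc2) (hint hFc3) (fun x => by positivity) fun x => ?_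
      exact Z8_sq3 _ _ _
    refine h3.trans ?_
    linarith [a1.1, a2.1, a3.1]
  · have hint : ∀ {f : E3 → E3}, Cc f → Integrable (fun x => ∑ i, ‖D i f x‖ ^ 2) volume :=
      fun {f} hf => integrable_finsetSum _ fun i _ =>
        (memLp_two_iff_integrable_sq_norm (cc_memLp (cc_D hf i) 2).1).1 (cc_memLp (cc_D hf i) 2)
    have h3 : gsq (fun x => (cr (grad χ x) (bet χ w x) + cr (sm χ (grad χ) x) (bet χ' w x)) +
        sm χ (curl (NP F)) x) ≤ 3 * (gsq (fun x => cr (grad χ x) (bet χ w x)) +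
          gsq (fun x => cr (sm χ (grad χ) x) (bet χ' w x)) + gsq (sm χ (curl (NP F)))) := by
      refine Z8_int3 (hint hFc1) (hint hFc2) (hint hFc3) (fun x => by positivity) fun x => ?_
      rw [← Finset.sum_add_distrib, ← Finset.sum_add_distrib, Finset.mul_sum]
      refine Finset.sum_le_sum fun i _ => ?_
      rw [D_add (f := fun x => cr (grad χ x) (bet χ w x) + cr (sm χ (grad χ) x) (bet χ' w x))
        (g := sm χ (curl (NP F))) ((Z8_diff hFc1.smooth x).add (Z8_diff hFc2.smooth x))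
        (Z8_diff hFc3.smooth x), D_add (Z8_diff hFc1.smooth x) (Z8_diff hFc2.smooth x)]
      exact Z8_sq3 _ _ _
    refine h3.trans ?_
    linarith [a1.2, a2.2, a3.2]

end Pool.Agent.Helper60.EC
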